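import Pool.Agent.FKS.TargetsE

/-!
# Project FKS, target BDS: the sum over the contours, bad cells
-/

set_option autoImplicit false

namespace Pool.Agent.FKS

open Filter MeasureTheory Pool.Agent.FKP
open Pool.Agent.FKT hiding ind

namespace BDS_

/-- The polynomial factor against the exponential. -/
theorem num1 (j : ℕ) : (2 * ((j : ℝ) + 1) ^ 2 + 3) ^ 2 ≤ 25 * 8 ^ j := by
  induction j with
  | zero => norm_num
  | succ j ih =>
    have h1 : (2 * (((j + 1 : ℕ) : ℝ) + 1) ^ 2 + 3) ^ 2 ≤ 8 * (2 * ((j : ℝ) + 1) ^ 2 + 3) ^ 2 := by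
      have h2 : 8 * (2 * ((j : ℝ) + 1) ^ 2 + 3) ^ 2 - (2 * (((j + 1 : ℕ) : ℝ) + 1) ^ 2 + 3) ^ 2 =
          28 * (j : ℝ) ^ 4 + 96 * (j : ℝ) ^ 3 + 180 * (j : ℝ) ^ 2 + 144 * j + 79 := by
        push_cast
        ring
      have h3 : 0 ≤ 28 * (j : ℝ) ^ 4 + 96 * (j : ℝ) ^ 3 + 180 * (j : ℝ) ^ 2 + 144 * j + 79 := by
        positivity
      linarith
    rw [pow_succ (8 : ℝ) j]
    linarith

theorem num2 (j : ℕ) :
    (2 * (2 * ((j : ℝ) + 1) ^ 2 + 3) ^ 2 * 2 ^ (8 * (j + 1))) *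
      (2 ^ (2 * (j + 1)) * (1 / 2) ^ (21 * (j + 1))) ≤ (1 / 40) * (1 / 256) ^ j := by
  have h1 := num1 j
  have h3 : (2 * (2 * ((j : ℝ) + 1) ^ 2 + 3) ^ 2 * 2 ^ (8 * (j + 1))) *
      (2 ^ (2 * (j + 1)) * (1 / 2) ^ (21 * (j + 1))) =
      2 * (2 * ((j : ℝ) + 1) ^ 2 + 3) ^ 2 * (1 / 2048) ^ (j + 1) := by
    have h4 : (2 : ℝ) ^ (8 * (j + 1)) * 2 ^ (2 * (j + 1)) * (1 / 2) ^ (21 * (j + 1)) =
        (1 / 2048) ^ (j + 1) := by
      rw [pow_mul, pow_mul, pow_mul, ← mul_pow, ← mul_pow]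
      norm_num
    rw [← h4]
    ring
  rw [h3]
  have h5 : 2 * (2 * ((j : ℝ) + 1) ^ 2 + 3) ^ 2 * (1 / 2048) ^ (j + 1) ≤
      2 * (25 * 8 ^ j) * (1 / 2048) ^ (j + 1) := by
    gcongr
  refine h5.trans ?_
  have h6 : 2 * (25 * (8 : ℝ) ^ j) * (1 / 2048) ^ (j + 1) = (50 / 2048) * (1 / 256) ^ j := by
    rw [pow_succ]
    have h7 : (8 : ℝ) ^ j * (1 / 2048) ^ j = (1 / 256) ^ j := by
      rw [← mul_pow]
      norm_num
    rw [← h7]
    ring
  rw [h6]
  exact mul_le_mul_of_nonneg_right (by norm_num) (by positivity)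

theorem num3 (N : ℕ) : ∑ j ∈ Finset.range N, (1 / 40 : ℝ) * (1 / 256) ^ j ≤ 1 / 16 := by
  rw [← Finset.mul_sum, geom_sum_eq (by norm_num)]
  have h1 : (0 : ℝ) ≤ (1 / 256) ^ N := by positivity
  have h2 : ((1 / 256 : ℝ) ^ N - 1) / (1 / 256 - 1) = (256 / 255) * (1 - (1 / 256) ^ N) := by
    field_simp
    ring
  rw [h2]
  linarith

open Classical in
/-- The ends of the edges of `P`. -/
noncomputable def ends (P : Finset (Ed 2)) : Finset (Vx 2) := P.image Prod.fst ∪ P.image tgt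

theorem card_ends (P : Finset (Ed 2)) : (ends P).card ≤ 2 * P.card := by
  classical
  unfold ends
  refine (Finset.card_union_le _ _).trans ?_
  have h1 : (P.image Prod.fst).card ≤ P.card := Finset.card_image_le
  have h2 : (P.image tgt).card ≤ P.card := Finset.card_image_le
  omega

open Classical in
/-- Every vertex is an end of at most four edges. -/
theorem fiber (P : Finset (Ed 2)) (f : Ed 2 → Vx 2) (hf : ∀ e ∈ P, f e = e.1 ∨ f e = tgt e) :
    P.card ≤ 4 * (P.image f).card := by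
  refine Finset.card_le_mul_card_image P 4 ?_
  intro b _
  have hsub : (P.filter fun x => f x = b) ⊆
      (Finset.univ : Finset (Fin 2)).image (fun i => ((b, i) : Ed 2)) ∪
      (Finset.univ : Finset (Fin 2)).image (fun i => ((b - Pi.single i 1, i) : Ed 2)) := by
    intro e he
    rw [Finset.mem_filter] at he
    obtain ⟨heP, heb⟩ := he
    rw [Finset.mem_union, Finset.mem_image, Finset.mem_image]
    rcases hf e heP with h | h
    · left
      refine ⟨e.2, Finset.mem_univ _, ?_⟩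
      rw [← heb, h]
    · right
      refine ⟨e.2, Finset.mem_univ _, ?_⟩
      rw [← heb, h]
      unfold tgt
      rw [add_sub_cancel_right]
  refine (Finset.card_le_card hsub).trans ((Finset.card_union_le _ _).trans ?_)
  have h1 : ((Finset.univ : Finset (Fin 2)).image (fun i => ((b, i) : Ed 2))).card ≤ 2 :=
    Finset.card_image_le.trans (by simp)
  have h2 : ((Finset.univ : Finset (Fin 2)).image
      (fun i => ((b - Pi.single i 1, i) : Ed 2))).card ≤ 2 :=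
    Finset.card_image_le.trans (by simp)
  omega

/-- The deterministic part: a set of bad cells. -/
theorem det (k a m n : ℕ) (Q : Vx (k + 3) → Finset (Ed (k + 3)) → Prop)
    (ω : Finset (Ed (k + 3))) (z : Vx 2) (P P1 : Finset (Ed 2)) (hP : P ∈ ctE m n z)
    (hP1 : P1 ⊆ P) (hn : n ≤ 2 * P1.card) (hbad : ∀ e ∈ P1, ¬ Ge k a Q ω e) :
    ∃ Z ⊆ ends P, Z ⊆ cbx m ∧ n ≤ 8 * Z.card ∧ ∀ z ∈ Z, ¬ Q (cen k a z) ω := by
  classical
  unfold ctE at hP
  rw [Finset.mem_filter, Finset.mem_powerset] at hP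
  obtain ⟨hPs, -, -, -⟩ := hP
  set f : Ed 2 → Vx 2 := fun e => if Q (cen k a e.1) ω then tgt e else e.1 with hf
  have hf1 : ∀ e ∈ P1, f e = e.1 ∨ f e = tgt e := by
    intro e _
    rw [hf]
    by_cases h : Q (cen k a e.1) ω
    · right; simp only [if_pos h]
    · left; simp only [if_neg h]
  refine ⟨P1.image f, ?_, ?_, ?_, ?_⟩
  · intro v hv
    rw [Finset.mem_image] at hv
    obtain ⟨e, he, rfl⟩ := hv
    unfold ends
    rw [Finset.mem_union, Finset.mem_image, Finset.mem_image]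
    rcases hf1 e he with h | h
    · exact Or.inl ⟨e, hP1 he, h.symm⟩
    · exact Or.inr ⟨e, hP1 he, h.symm⟩
  · intro v hv
    rw [Finset.mem_image] at hv
    obtain ⟨e, he, rfl⟩ := hv
    have := mem_es.mp (hPs (hP1 he))
    rcases hf1 e he with h | h
    · rw [h]; exact this.1
    · rw [h]; exact this.2
  · have := fiber P1 f hf1
    omega
  · intro v hv
    rw [Finset.mem_image] at hv
    obtain ⟨e, he, rfl⟩ := hv
    have h1 := hbad e he
    unfold Ge at h1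
    rw [hf]
    by_cases h : Q (cen k a e.1) ω
    · simp only [if_pos h]
      exact fun h2 => h1 ⟨h, h2⟩
    · simp only [if_neg h]
      exact h

theorem ctE_pos {m n : ℕ} {z : Vx 2} {P : Finset (Ed 2)} (hP : P ∈ ctE m n z) :
    1 ≤ n ∧ n ≤ (es (cbx m)).card ∧ P.card = n := by
  classical
  unfold ctE at hP
  rw [Finset.mem_filter, Finset.mem_powerset] at hP
  obtain ⟨hPs, h1, -, e, he, -⟩ := hP
  refine ⟨?_, ?_, h1⟩
  · rw [← h1]
    exact Finset.card_pos.mpr ⟨e, he⟩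
  · rw [← h1]
    exact Finset.card_le_card hPs

open Classical in
/-- The possible sets of bad cells. -/
noncomputable def zs (m n : ℕ) (P : Finset (Ed 2)) : Finset (Finset (Vx 2)) :=
  (ends P).powerset.filter fun Z => Z ⊆ cbx m ∧ n ≤ 8 * Z.card

theorem zs_card (m n : ℕ) (P : Finset (Ed 2)) (hP : P.card = n) :
    ((zs m n P).card : ℝ) ≤ 2 ^ (2 * n) := by
  classical
  have h1 : (zs m n P).card ≤ 2 ^ (2 * n) := by
    unfold zs
    refine (Finset.card_filter_le _ _).trans ?_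
    rw [Finset.card_powerset]
    refine Nat.pow_le_pow_right (by norm_num) ?_
    rw [← hP]
    exact card_ends P
  exact_mod_cast h1

end BDS_

open BDS_ in
theorem p_BDS (h_BDC : T_BDC) (h_CCU : T_CCU) : T_BDS := by
  intro k K q p1 p2 hq hp1 hp12 hp2
  obtain ⟨ε0, hε0, hmain⟩ := h_BDC k K q p1 p2 ((1 / 2) ^ 168) hq hp1 hp12 hp2 (by positivity)
    (pow_le_one₀ (by norm_num) (by norm_num))
  refine ⟨ε0, hε0, ?_⟩
  intro δ ε a N Q s hε hcel m S hfit z
  have hp20 : 0 < p2 := hp1.trans hp12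
  have hq0 : 0 < q := by linarith
  set F : Finset (Ed (k + 3)) → ℝ := fun ω =>
    ∑ j ∈ Finset.range (es (cbx m)).card, ∑ P ∈ ctE m (j + 1) z, ∑ Z ∈ zs m (j + 1) P,
      ind (∀ v ∈ Z, ¬ Q (cen k a v) ω) with hF
  have hdet : ∀ ω : Finset (Ed (k + 3)), ind (∃ n : ℕ, ∃ P ∈ ctE m n z, ∃ P1 ⊆ P,
      n ≤ 2 * P1.card ∧ ∀ e ∈ P1, ¬ Ge k a Q ω e) ≤ F ω := by
    intro ω
    have hn2 : ∀ j P, 0 ≤ ∑ Z ∈ zs m (j + 1) P, ind (∀ v ∈ Z, ¬ Q (cen k a v) ω) :=
      fun j P => Finset.sum_nonneg fun Z _ => ind_nonneg _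
    have hn3 : ∀ j, 0 ≤ ∑ P ∈ ctE m (j + 1) z, ∑ Z ∈ zs m (j + 1) P,
        ind (∀ v ∈ Z, ¬ Q (cen k a v) ω) := fun j => Finset.sum_nonneg fun P _ => hn2 j P
    by_cases hE : ∃ n : ℕ, ∃ P ∈ ctE m n z, ∃ P1 ⊆ P,
      n ≤ 2 * P1.card ∧ ∀ e ∈ P1, ¬ Ge k a Q ω e
    · rw [ind_true hE]
      obtain ⟨n, P, hP, P1, hP1, hn, hbad⟩ := hE
      obtain ⟨hn1, hnm, hPn⟩ := ctE_pos hP
      obtain ⟨Z, hZe, hZc, hZn, hZb⟩ := det k a m n Q ω z P P1 hP hP1 hn hbad
      obtain ⟨j, rfl⟩ : ∃ j, n = j + 1 := ⟨n - 1, by omega⟩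
      have hZ : Z ∈ zs m (j + 1) P := by
        unfold zs
        rw [Finset.mem_filter, Finset.mem_powerset]
        exact ⟨hZe, hZc, hZn⟩
      have h1 : (1 : ℝ) ≤ ∑ Z ∈ zs m (j + 1) P, ind (∀ v ∈ Z, ¬ Q (cen k a v) ω) := by
        have h2 := Finset.single_le_sum (s := zs m (j + 1) P)
          (f := fun Z => ind (∀ v ∈ Z, ¬ Q (cen k a v) ω)) (fun Z _ => ind_nonneg _) hZ
        have h3 : ind (∀ v ∈ Z, ¬ Q (cen k a v) ω) = 1 := ind_true hZb
        linarith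
      have h4 := Finset.single_le_sum (s := ctE m (j + 1) z)
        (f := fun P => ∑ Z ∈ zs m (j + 1) P, ind (∀ v ∈ Z, ¬ Q (cen k a v) ω))
        (fun P _ => hn2 j P) hP
      have h5 := Finset.single_le_sum (s := Finset.range (es (cbx m)).card)
        (f := fun j => ∑ P ∈ ctE m (j + 1) z, ∑ Z ∈ zs m (j + 1) P,
          ind (∀ v ∈ Z, ¬ Q (cen k a v) ω)) (fun j _ => hn3 j)
        (Finset.mem_range.mpr (by omega) : j ∈ Finset.range (es (cbx m)).card)
      exact h1.trans (h4.trans h5)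
    · rw [ind_false hE]
      exact Finset.sum_nonneg fun j _ => hn3 j
  have h1 : fr S p2 q (fun ω => ind (∃ n : ℕ, ∃ P ∈ ctE m n z, ∃ P1 ⊆ P,
      n ≤ 2 * P1.card ∧ ∀ e ∈ P1, ¬ Ge k a Q ω e)) ≤ fr S p2 q F := by
    unfold fr fw
    exact Ex_mono hp20 hp2 hq0 fun ω _ => hdet ω
  refine h1.trans ?_
  have h2 : fr S p2 q F = ∑ j ∈ Finset.range (es (cbx m)).card, ∑ P ∈ ctE m (j + 1) z,
      ∑ Z ∈ zs m (j + 1) P, fr S p2 q fun ω => ind (∀ v ∈ Z, ¬ Q (cen k a v) ω) := by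
    rw [hF]
    unfold fr fw
    rw [Ex_sum]
    refine Finset.sum_congr rfl fun j _ => ?_
    rw [Ex_sum]
    refine Finset.sum_congr rfl fun P _ => ?_
    rw [Ex_sum]
  rw [h2]
  refine le_trans (Finset.sum_le_sum fun j _ => ?_) (num3 (es (cbx m)).card)
  have h3 : ∀ P ∈ ctE m (j + 1) z, ∑ Z ∈ zs m (j + 1) P,
      (fr S p2 q fun ω => ind (∀ v ∈ Z, ¬ Q (cen k a v) ω)) ≤
      2 ^ (2 * (j + 1)) * (1 / 2) ^ (21 * (j + 1)) := by
    intro P hP
    have hPn := (ctE_pos hP).2.2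
    have h4 : ∀ Z ∈ zs m (j + 1) P, (fr S p2 q fun ω => ind (∀ v ∈ Z, ¬ Q (cen k a v) ω)) ≤
        (1 / 2) ^ (21 * (j + 1)) := by
      intro Z hZ
      classical
      unfold zs at hZ
      rw [Finset.mem_filter] at hZ
      refine (hmain δ ε a N Q s hε hcel m S hfit Z hZ.2.1).trans ?_
      rw [← pow_mul]
      refine pow_le_pow_of_le_one (by norm_num) (by norm_num) ?_
      have := hZ.2.2
      omega
    refine (Finset.sum_le_sum h4).trans ?_
    rw [Finset.sum_const, nsmul_eq_mul]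
    exact mul_le_mul_of_nonneg_right (zs_card m (j + 1) P hPn) (by positivity)
  refine (Finset.sum_le_sum h3).trans ?_
  rw [Finset.sum_const, nsmul_eq_mul]
  have h5 := h_CCU m (j + 1) z
  push_cast at h5
  refine le_trans (mul_le_mul_of_nonneg_right h5 (by positivity)) (num2 j)

end Pool.Agent.FKS
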