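import Pool.Agent.FKS.TargetsE
import Pool.Agent.FKP.P_BX2

/-!
# Project FKS: the two-point function of the slabs with two long directions (T_BXN)
-/

set_option autoImplicit false

namespace Pool.Agent.FKS

open Filter MeasureTheory Pool.Agent.FKP
open Pool.Agent.FKT hiding ind

namespace BXN_

theorem near {k a A N m : ℕ} (ha : 1 ≤ a) (h2 : A < a * (m + 2) + N)
    {x : Vx (k + 3)} (hx : x ∈ bx2 (0 : Fin (k + 3)) 1 A N)
    {v : Vx (k + 3)} (hv : v ∈ bx (cen k a (BX2_.cell a m x)) N) (i : Fin (k + 3)) :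
    x i - ((2 * N + 2 * a : ℕ) : ℤ) ≤ v i ∧ v i ≤ x i + ((2 * N + 2 * a : ℕ) : ℤ) := by
  have hl' : (0 : ℤ) < a := by exact_mod_cast ha
  have hN : (0 : ℤ) ≤ N := Int.natCast_nonneg N
  unfold bx2 at hx
  rw [Finset.mem_Icc] at hx
  obtain ⟨hx1, hx2⟩ := hx
  have hx1i := hx1 i
  have hx2i := hx2 i
  unfold bx at hv
  rw [Finset.mem_Icc] at hv
  have hv1 : cen k a (BX2_.cell a m x) i - (N : ℤ) ≤ v i := hv.1 i
  have hv2 : v i ≤ cen k a (BX2_.cell a m x) i + (N : ℤ) := hv.2 i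
  unfold cen pos at hv1 hv2
  push_cast
  by_cases hi0 : i.val = 0
  · have hi : i = 0 := Fin.ext hi0
    subst hi
    simp only [true_or, if_true] at hx1i hx2i
    simp only [Fin.val_zero, if_true] at hv1 hv2
    have hb := BX2_.cc_bound A N a m ha h2 (x 0) hx1i hx2i
    have hc : BX2_.cell a m x 0 = BX2_.cc a m (x 0) := rfl
    rw [hc] at hv1 hv2
    constructor <;> linarith [hb.1, hb.2]
  · by_cases hi1 : i.val = 1
    · have hi : i = 1 := Fin.ext (by simpa using hi1)
      subst hi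
      simp only [or_true, if_true] at hx1i hx2i
      rw [if_neg hi0, if_pos hi1] at hv1 hv2
      have hb := BX2_.cc_bound A N a m ha h2 (x 1) hx1i hx2i
      have hc : BX2_.cell a m x 1 = BX2_.cc a m (x 1) := rfl
      rw [hc] at hv1 hv2
      constructor <;> linarith [hb.1, hb.2]
    · rw [if_neg hi0, if_neg hi1] at hv1 hv2
      have hne0 : i ≠ 0 := fun h => hi0 (by rw [h]; rfl)
      have hne1 : i ≠ 1 := fun h => hi1 (by rw [h]; simp)
      simp only [hne0, hne1, or_self, if_false] at hx1i hx2i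
      constructor <;> linarith

end BXN_

theorem p_BXN (h_HOL : FKP.T_HOL) (h_FEN : FKP.T_FEN) (h_BCN : T_BCN) (h_FKG : FKT.T_FKG) :
    T_BXN := by
  intro k q p hq hp hp1 a N ha h
  have hq0 : 0 < q := by linarith
  have hπ0 : 0 < p / (p + q * (1 - p)) := by
    apply div_pos hp
    have : 0 < q * (1 - p) := mul_pos hq0 (by linarith)
    linarith
  refine ⟨N + 2 * a, (p / (p + q * (1 - p))) ^
    (2 * ((2 * (2 * N + 2 * a) + 1) ^ (k + 3) * (k + 3))) / 2, by positivity, ?_⟩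
  intro A hA x hx y hy
  obtain ⟨m, hm1, hm2⟩ := BX2_.exists_m A N a ha hA
  have hm : a * m + N ≤ A := by
    have : a * m ≤ a * (m + 1) := Nat.mul_le_mul_left a (Nat.le_succ m)
    omega
  have hfit := fits_bx2 k a N A m hm
  have hsub : ∀ w ∈ bx2 (0 : Fin (k + 3)) 1 A N, bx (cen k a (BX2_.cell a m w)) N ⊆
      BX2_.Qb A N (2 * N + 2 * a) w := by
    intro w hw v hv
    apply BX2_.mem_Qb (hfit _ (BX2_.cell_mem a m w) hv)
    intro i
    exact BXN_.near ha hm2 hw hv i
  exact BX2_.main h_HOL h_FEN h_BCN h_FKG hq hp le_rfl hp1 hx hy (hsub x hx) (hsub y hy)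
    (h A m hm _ (BX2_.cell_mem a m x) _ (BX2_.cell_mem a m y))

end Pool.Agent.FKS
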