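import Pool.Agent.FKS.TargetsE

/-!
# Project FKS: the number of contours (CCU)
-/

set_option autoImplicit false

namespace Pool.Agent.FKS

open Filter MeasureTheory Pool.Agent.FKP
open Pool.Agent.FKT hiding ind

namespace CCU_

theorem card_near (z : Vx 2) (n : ℕ) :
    (bx z n ×ˢ (Finset.univ : Finset (Fin 2))).card = (2 * n + 1) ^ 2 * 2 := by
  rw [Finset.card_product, Finset.card_univ, Fintype.card_fin]
  congr 1
  unfold bx
  rw [Pi.card_Icc, Fin.prod_univ_two, Int.card_Icc, Int.card_Icc]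
  have h : ∀ c : ℤ, (c + (n : ℤ) + 1 - (c - n)).toNat = 2 * n + 1 := by
    intro c
    omega
  rw [h, h]
  ring

end CCU_

open Classical CCU_ in
theorem p_CCU (h_PLQ : T_PLQ) : T_CCU := by
  intro m n z
  have hf : ∀ e : Ed 2, {P : Finset (Ed 2) | e ∈ P ∧ P.card = n ∧
      ∀ e' ∈ P, Relation.ReflTransGen (fun x y => x ∈ P ∧ y ∈ P ∧ Sq x y) e e'}.Finite :=
    fun e => (h_PLQ 2 (by norm_num) e n).1
  have hsub : ctE m n z ⊆
      (bx z (n ^ 2 + 1) ×ˢ (Finset.univ : Finset (Fin 2))).biUnion fun e => (hf e).toFinset := by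
    intro P hP
    unfold ctE at hP
    rw [Finset.mem_filter] at hP
    obtain ⟨-, hPn, hQc, e, he, hd⟩ := hP
    rw [Finset.mem_biUnion]
    refine ⟨e, ?_, ?_⟩
    · rw [Finset.mem_product]
      refine ⟨?_, Finset.mem_univ _⟩
      unfold bx
      rw [Finset.mem_Icc]
      constructor
      · intro i
        have := abs_le.mp (hd i)
        push_cast
        linarith
      · intro i
        have := abs_le.mp (hd i)
        push_cast
        linarith
    · rw [Set.Finite.mem_toFinset]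
      exact ⟨he, hPn, fun e' he' => hQc e he e' he'⟩
  have h1 : ∀ e : Ed 2, (hf e).toFinset.card ≤ 16 ^ (2 * n) := by
    intro e
    rw [← Set.ncard_eq_toFinset_card _ (hf e)]
    exact (h_PLQ 2 (by norm_num) e n).2
  have h2 : (ctE m n z).card ≤ (2 * (n ^ 2 + 1) + 1) ^ 2 * 2 * 16 ^ (2 * n) := by
    refine (Finset.card_le_card hsub).trans ?_
    refine (Finset.card_biUnion_le_card_mul _ _ (16 ^ (2 * n)) fun e _ => h1 e).trans ?_
    rw [card_near]
  have h3 : ((ctE m n z).card : ℝ) ≤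
      (((2 * (n ^ 2 + 1) + 1) ^ 2 * 2 * 16 ^ (2 * n) : ℕ) : ℝ) := by
    exact_mod_cast h2
  refine h3.trans (le_of_eq ?_)
  push_cast
  have h4 : (16 : ℝ) ^ (2 * n) = 2 ^ (8 * n) := by
    rw [show (16 : ℝ) = 2 ^ 4 by norm_num, ← pow_mul]
    congr 1
    ring
  rw [h4]
  ring

end Pool.Agent.FKS
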