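import Pool.Agent.FKS.TargetsE

/-!
# FKS, target CEA: the sprinkling succeeds at one of the places
-/

set_option autoImplicit false

namespace Pool.Agent.FKS

open Filter MeasureTheory Pool.Agent.FKP
open Pool.Agent.FKT hiding ind

namespace CEA_

/-- `δ^k` is not too small. -/
theorem pow_ge {κ δ l x : ℝ} (h0 : 0 < κ) (h1 : κ < 1) (hd0 : 0 < δ) (hd1 : δ < 1)
    (hl : 1 ≤ l) (hx1 : 1 ≤ x) (hx : x ≤ l ^ κ) :
    l ^ (-((1 - κ) / 2)) ≤ δ ^ ⌊(1 - κ) / (2 * Real.log (1 / δ)) * Real.log x⌋₊ := by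
  have hl0 : 0 < l := by linarith
  have hlam : 0 < Real.log (1 / δ) := Real.log_pos (by rw [one_lt_div hd0]; exact hd1)
  have hlog : Real.log δ = - Real.log (1 / δ) := by
    rw [one_div, Real.log_inv, neg_neg]
  have hlogl : 0 ≤ Real.log l := Real.log_nonneg hl
  have hlogx : 0 ≤ Real.log x := Real.log_nonneg hx1
  have hη : 0 ≤ (1 - κ) / (2 * Real.log (1 / δ)) := div_nonneg (by linarith) (by linarith)
  have h2 : Real.log x ≤ κ * Real.log l := by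
    rw [← Real.log_rpow hl0]
    exact Real.log_le_log (by linarith) hx
  have h3 : (⌊(1 - κ) / (2 * Real.log (1 / δ)) * Real.log x⌋₊ : ℝ) ≤
      (1 - κ) / (2 * Real.log (1 / δ)) * Real.log x :=
    Nat.floor_le (mul_nonneg hη hlogx)
  have h4 : (1 - κ) / (2 * Real.log (1 / δ)) * Real.log x ≤
      (1 - κ) / (2 * Real.log (1 / δ)) * Real.log l := by
    refine mul_le_mul_of_nonneg_left (h2.trans ?_) hη
    nlinarith
  have h5 : (1 - κ) / (2 * Real.log (1 / δ)) * Real.log l * Real.log (1 / δ) =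
      (1 - κ) / 2 * Real.log l := by
    field_simp
  rw [← Real.exp_log hd0, ← Real.exp_nat_mul, Real.exp_log hd0, Real.rpow_def_of_pos hl0,
    Real.exp_le_exp, hlog]
  have h6 : (⌊(1 - κ) / (2 * Real.log (1 / δ)) * Real.log x⌋₊ : ℝ) * Real.log (1 / δ) ≤
      (1 - κ) / (2 * Real.log (1 / δ)) * Real.log l * Real.log (1 / δ) :=
    mul_le_mul_of_nonneg_right (h3.trans h4) hlam.le
  nlinarith

/-- The main estimate. -/
theorem main {κ δ ε : ℝ} {A L ξ : ℕ} (h0 : 0 < κ) (h1 : κ < 1) (hd0 : 0 < δ) (hd1 : δ < 1)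
    (he : 0 < ε) (hL : 1 ≤ L) (hξ1 : 1 ≤ ξ) (hξ : (ξ : ℝ) ≤ (L : ℝ) ^ κ)
    (hbig : (2 * A + 1) * (1 - Real.log ε) ≤ (L : ℝ) ^ ((1 - κ) / 2)) :
    (1 - δ ^ ⌊(1 - κ) / (2 * Real.log (1 / δ)) * Real.log (ξ : ℝ)⌋₊) ^
      (L / (2 * (A * ξ) + 1)) ≤ ε := by
  have hl : (1 : ℝ) ≤ L := by exact_mod_cast hL
  have hl0 : (0 : ℝ) < L := by linarith
  have hx1 : (1 : ℝ) ≤ ξ := by exact_mod_cast hξ1
  have hp := pow_ge h0 h1 hd0 hd1 hl hx1 hξ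
  set p : ℝ := δ ^ ⌊(1 - κ) / (2 * Real.log (1 / δ)) * Real.log (ξ : ℝ)⌋₊ with hpdef
  set T : ℕ := L / (2 * (A * ξ) + 1) with hT
  have hp1 : p ≤ 1 := pow_le_one₀ hd0.le hd1.le
  have hp0 : 0 ≤ p := pow_nonneg hd0.le _
  -- `L < (T + 1) (2 A + 1) L^κ`
  have hT1 : L < (2 * (A * ξ) + 1) * (T + 1) := Nat.lt_mul_div_succ L (by omega)
  have hT2 : (L : ℝ) < (2 * (A * ξ) + 1) * (T + 1) := by exact_mod_cast hT1
  have hX1 : (1 : ℝ) ≤ (L : ℝ) ^ κ := hx1.trans hξ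
  have hA0 : (0 : ℝ) ≤ A := Nat.cast_nonneg A
  have hT0 : (0 : ℝ) ≤ T := Nat.cast_nonneg T
  have h3 : (2 * ((A : ℝ) * ξ) + 1) ≤ (2 * A + 1) * (L : ℝ) ^ κ := by
    have : (A : ℝ) * ξ ≤ A * (L : ℝ) ^ κ := mul_le_mul_of_nonneg_left hξ hA0
    nlinarith
  have h4 : (L : ℝ) < (2 * A + 1) * (L : ℝ) ^ κ * (T + 1) :=
    lt_of_lt_of_le hT2 (mul_le_mul_of_nonneg_right h3 (by linarith))
  have hXp : 0 < (L : ℝ) ^ κ := by linarith
  have h5 : (L : ℝ) = (L : ℝ) ^ (1 - κ) * (L : ℝ) ^ κ := by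
    rw [← Real.rpow_add hl0, sub_add_cancel, Real.rpow_one]
  have h6 : (L : ℝ) ^ (1 - κ) < (2 * A + 1) * (T + 1) := by
    have h7 : (L : ℝ) ^ (1 - κ) * (L : ℝ) ^ κ < (2 * A + 1) * (T + 1) * (L : ℝ) ^ κ := by
      rw [← h5]
      calc (L : ℝ) < (2 * A + 1) * (L : ℝ) ^ κ * (T + 1) := h4
        _ = _ := by ring
    exact lt_of_mul_lt_mul_right h7 hXp.le
  -- `L^((1-κ)/2) ≤ (2 A + 1) p (T + 1)`
  have hμ : (0 : ℝ) < (L : ℝ) ^ (-((1 - κ) / 2)) := Real.rpow_pos_of_pos hl0 _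
  have h8 : (L : ℝ) ^ ((1 - κ) / 2) = (L : ℝ) ^ (-((1 - κ) / 2)) * (L : ℝ) ^ (1 - κ) := by
    rw [← Real.rpow_add hl0]
    congr 1
    ring
  have h9 : (L : ℝ) ^ ((1 - κ) / 2) ≤ p * ((2 * A + 1) * (T + 1)) := by
    rw [h8]
    exact mul_le_mul hp h6.le (Real.rpow_nonneg hl0.le _) hp0
  have h10 : 1 - Real.log ε ≤ p * (T + 1) := by
    have h11 : (2 * (A : ℝ) + 1) * (1 - Real.log ε) ≤ (2 * A + 1) * (p * (T + 1)) := by
      calc (2 * (A : ℝ) + 1) * (1 - Real.log ε) ≤ (L : ℝ) ^ ((1 - κ) / 2) := hbig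
        _ ≤ p * ((2 * A + 1) * (T + 1)) := h9
        _ = _ := by ring
    exact le_of_mul_le_mul_left h11 (by linarith)
  have h12 : - (p * T) ≤ Real.log ε := by nlinarith
  calc (1 - p) ^ T ≤ (Real.exp (-p)) ^ T :=
        pow_le_pow_left₀ (by linarith) (Real.one_sub_le_exp_neg p) T
    _ = Real.exp (-(p * T)) := by
        rw [← Real.exp_nat_mul]
        congr 1
        ring
    _ ≤ Real.exp (Real.log ε) := Real.exp_le_exp.2 h12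
    _ = ε := Real.exp_log he

end CEA_

theorem p_CEA : T_CEA := by
  intro κ δ ε A h0 h1 hd0 hd1 he
  have hlam : 0 < Real.log (1 / δ) := Real.log_pos (by rw [one_lt_div hd0]; exact hd1)
  refine ⟨(1 - κ) / (2 * Real.log (1 / δ)), div_pos (by linarith) (by linarith), ?_⟩
  have t1 : Tendsto (fun L : ℕ => (L : ℝ) ^ (1 - κ)) atTop atTop :=
    (tendsto_rpow_atTop (by linarith)).comp tendsto_natCast_atTop_atTop
  have t2 : Tendsto (fun L : ℕ => (L : ℝ) ^ ((1 - κ) / 2)) atTop atTop :=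
    (tendsto_rpow_atTop (by linarith)).comp tendsto_natCast_atTop_atTop
  have hev := ((t1.eventually_ge_atTop (4 + (A : ℝ))).and (t2.eventually_ge_atTop
    ((2 * A + 1) * (1 - Real.log ε)))).and (eventually_ge_atTop 1)
  obtain ⟨L0, hL0⟩ := eventually_atTop.1 hev
  refine ⟨L0, fun L hL => ?_⟩
  obtain ⟨⟨g1, g2⟩, g3⟩ := hL0 L hL
  have hl : (1 : ℝ) ≤ L := by exact_mod_cast g3
  have hl0 : (0 : ℝ) < L := by linarith
  have hX1 : (1 : ℝ) ≤ (L : ℝ) ^ κ := Real.one_le_rpow hl h0.le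
  have hfl : (⌊(L : ℝ) ^ κ⌋₊ : ℝ) ≤ (L : ℝ) ^ κ := Nat.floor_le (by linarith)
  have hξ1 : 1 ≤ ⌊(L : ℝ) ^ κ⌋₊ := Nat.one_le_floor_iff _ |>.2 hX1
  have h5 : (L : ℝ) = (L : ℝ) ^ (1 - κ) * (L : ℝ) ^ κ := by
    rw [← Real.rpow_add hl0, sub_add_cancel, Real.rpow_one]
  have hA0 : (0 : ℝ) ≤ A := Nat.cast_nonneg A
  have h6 : (4 + (A : ℝ)) * (L : ℝ) ^ κ ≤ L := by
    calc (4 + (A : ℝ)) * (L : ℝ) ^ κ ≤ (L : ℝ) ^ (1 - κ) * (L : ℝ) ^ κ :=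
          mul_le_mul_of_nonneg_right g1 (by linarith)
      _ = L := h5.symm
  refine ⟨hξ1, ?_, ?_, CEA_.main h0 h1 hd0 hd1 he g3 hξ1 hfl g2⟩
  · have : (4 : ℝ) * ⌊(L : ℝ) ^ κ⌋₊ ≤ L := by nlinarith
    exact_mod_cast this
  · have h7 : (A : ℝ) * ⌊(L : ℝ) ^ κ⌋₊ ≤ A * (L : ℝ) ^ κ := mul_le_mul_of_nonneg_left hfl hA0
    have : (A : ℝ) * ⌊(L : ℝ) ^ κ⌋₊ ≤ 32 * L := by nlinarith
    exact_mod_cast this

end Pool.Agent.FKS
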