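import Pool.Agent.FKS.TargetsE

/-!
# Project FKS, CEG: the link of two neighbouring good cells
-/

set_option autoImplicit false

namespace Pool.Agent.FKS

open Filter MeasureTheory Pool.Agent.FKP
open Pool.Agent.FKT hiding ind

namespace CEG_

variable {d : ℕ}

theorem Cf_mono {a b : Finset (Ed d)} (h : a ⊆ b) {x y : Vx d} (hc : Cf a x y) : Cf b x y :=
  Pool.Agent.FKS.Cn_mono (Finset.coe_subset.2 h) hc

theorem sg_spec {L ξ : ℕ} {x : Vx d} {ω : Finset (Ed d)} (h : Gnt x L ξ ω) :
    ∀ y ∈ bx x L, ∃ z ∈ bx y ξ, Cf (ω ∩ eb x (32 * L)) (sg L ξ x ω) z := by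
  unfold sg
  rw [dif_pos h]
  exact h.choose_spec

/-- A point of the box `c + Λ_L` which is far from `z` in the direction `i`. -/
theorem farpt {L : ℕ} {c z : Vx d} (i : Fin d) :
    ∃ v ∈ bx c L, (L : ℤ) ≤ |v i - z i| := by
  by_cases h : c i ≤ z i
  · refine ⟨c + Pi.single i (-(L : ℤ)), ?_, ?_⟩
    · rw [Pool.Agent.FKS.mem_bx]
      intro j
      by_cases hj : j = i
      · subst hj
        simp
      · simp [hj]
    · have e : (c + Pi.single i (-(L : ℤ)) : Vx d) i = c i - L := by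
        simp [sub_eq_add_neg]
      rw [e, abs_of_nonpos (by have : (0 : ℤ) ≤ L := by positivity
                               linarith)]
      linarith
  · refine ⟨c + Pi.single i (L : ℤ), ?_, ?_⟩
    · rw [Pool.Agent.FKS.mem_bx]
      intro j
      by_cases hj : j = i
      · subst hj
        simp
      · simp [hj]
    · have e : (c + Pi.single i (L : ℤ) : Vx d) i = c i + L := by simp
      push Not at h
      rw [e, abs_of_nonneg (by have : (0 : ℤ) ≤ L := by positivity
                               linarith)]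
      linarith

/-- The piece of the chosen vertex near `z`. -/
theorem piece (h_EXB : T_EXB) {L ξ : ℕ} (h1 : 1 ≤ ξ) (h4 : 4 * ξ ≤ L) {c : Vx d} (i : Fin d)
    {ω F : Finset (Ed d)} (hG : Gnt c L ξ ω) (hF : eb c (32 * L) ⊆ F) {z : Vx d}
    (hz : z ∈ bx c L) :
    ∃ y ∈ bx z (2 * ξ), Cf (ω ∩ F) (sg L ξ c ω) y ∧
      ∃ y', Cf (ω ∩ eb z (2 * ξ)) y y' ∧ Far ξ y y' := by
  obtain ⟨v, hv, hvz⟩ := farpt (L := L) (c := c) (z := z) i
  obtain ⟨y, hy, hy1⟩ := sg_spec hG z hz
  obtain ⟨y2, hy2, hy3⟩ := sg_spec hG v hv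
  rw [Pool.Agent.FKS.mem_bx] at hy hy2
  have hyb : y ∈ bx z (2 * ξ) := by
    rw [Pool.Agent.FKS.mem_bx]
    intro j
    have := hy j
    push_cast
    linarith [abs_nonneg (y j - z j)]
  have hx : ((1 : ℕ) : ℤ) ≤ ξ := by exact_mod_cast h1
  have hL : ((4 * ξ : ℕ) : ℤ) ≤ L := by exact_mod_cast h4
  push_cast at hx hL
  have hy2b : y2 ∉ bx z (2 * ξ) := by
    rw [Pool.Agent.FKS.mem_bx]
    intro hh
    have a1 := hh i
    have a2 := hy2 i
    have a3 : |v i - z i| ≤ |v i - y2 i| + |y2 i - z i| := by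
      have := abs_add_le (v i - y2 i) (y2 i - z i)
      simpa using this
    rw [abs_sub_comm (v i) (y2 i)] at a3
    push_cast at a1
    linarith
  have hc : Cf ω y y2 := by
    have e1 : Cf (ω ∩ eb c (32 * L)) y y2 :=
      Pool.Agent.FKS.Cn_trans (Pool.Agent.FKS.Cn_symm hy1) hy3
    exact Cf_mono Finset.inter_subset_left e1
  obtain ⟨y', hy', hyy⟩ := h_EXB d ω z y y2 (2 * ξ) hyb hy2b hc
  refine ⟨y, hyb, Cf_mono (Finset.inter_subset_inter_left hF) hy1, y', hyy, ?_⟩
  simp only [bd, Finset.mem_filter] at hy'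
  obtain ⟨-, j, hj⟩ := hy'
  refine ⟨j, ?_⟩
  have b1 := abs_le.1 (hy j)
  rcases hj with hj | hj
  · rw [hj]
    push_cast
    rw [abs_of_nonneg (by linarith)]
    linarith
  · rw [hj]
    push_cast
    rw [abs_of_nonpos (by linarith)]
    linarith

end CEG_

theorem p_CEG (h_GLU : T_GLU) (h_EXB : T_EXB) : T_CEG := by
  classical
  intro d δ L ξ M k T hδ hδ1 h1 h2 h32 h4 hT x i ω hQ hQ'
  set x' : Vx d := x + Pi.single i (L : ℤ) with hx'
  set cz : ℕ → Vx d := fun t => x + Pi.single i ((t : ℤ) * (2 * M + 1)) with hcz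
  have hczi : ∀ t, cz t i = x i + (t : ℤ) * (2 * M + 1) := by
    intro t
    simp [hcz]
  have hczj : ∀ t j, j ≠ i → cz t j = x j := by
    intro t j hj
    simp [hcz, hj]
  have hx'i : x' i = x i + L := by simp [hx']
  have hx'j : ∀ j, j ≠ i → x' j = x j := by
    intro j hj
    simp [hx', hj]
  have hM0 : (0 : ℤ) < 2 * M + 1 := by positivity
  have hinj : Function.Injective cz := by
    intro t t' htt
    have := congrFun htt i
    rw [hczi, hczi] at this
    have h3 : ((t : ℤ) - t') * (2 * M + 1) = 0 := by linear_combination this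
    rcases mul_eq_zero.1 h3 with h3 | h3
    · omega
    · omega
  have hTz : ((T * (2 * M + 1) : ℕ) : ℤ) ≤ L := by exact_mod_cast hT
  push_cast at hTz
  have hbd : ∀ t < T, 0 ≤ (t : ℤ) * (2 * M + 1) ∧ (t : ℤ) * (2 * M + 1) ≤ L := by
    intro t ht
    have ht' : (t : ℤ) ≤ T := by exact_mod_cast ht.le
    constructor
    · positivity
    · exact (mul_le_mul_of_nonneg_right ht' hM0.le).trans hTz
  have hzx : ∀ t < T, cz t ∈ bx x L := by
    intro t ht
    obtain ⟨b1, b2⟩ := hbd t ht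
    rw [Pool.Agent.FKS.mem_bx]
    intro j
    by_cases hj : j = i
    · subst hj
      rw [hczi, abs_le]
      constructor <;> linarith
    · rw [hczj t j hj]
      simp
  have hzx' : ∀ t < T, cz t ∈ bx x' L := by
    intro t ht
    obtain ⟨b1, b2⟩ := hbd t ht
    rw [Pool.Agent.FKS.mem_bx]
    intro j
    by_cases hj : j = i
    · subst hj
      rw [hczi, hx'i, abs_le]
      constructor <;> linarith
    · rw [hczj t j hj, hx'j j hj]
      simp
  have hcard : ((Finset.range T).image cz).card = T := by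
    rw [Finset.card_image_of_injective _ hinj, Finset.card_range]
  have hx'x : x' ∈ bx x L := by
    rw [Pool.Agent.FKS.mem_bx]
    intro j
    by_cases hj : j = i
    · subst hj
      rw [hx'i]
      simp
    · rw [hx'j j hj]
      simp
  have hF : eb x (32 * L) ⊆ eb x (33 * L) := by
    have : bx x (32 * L) ⊆ bx x (33 * L) := by
      intro w hw
      rw [Pool.Agent.FKS.mem_bx] at hw ⊢
      intro j
      have := hw j
      push_cast at this ⊢
      linarith [this, (by positivity : (0 : ℤ) ≤ (L : ℤ))]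
    exact Pool.Agent.FKS.es_mono this
  have hF' : eb x' (32 * L) ⊆ eb x (33 * L) :=
    Pool.Agent.FKS.es_mono (Pool.Agent.FKS.bx_sub hx'x (by omega))
  have key := h_GLU d δ (2 * ξ) ξ M k (eb x (33 * L)) ω ((Finset.range T).image cz)
    (sg L ξ x ω) (sg L ξ x' ω) hδ hδ1 h2 ?_ ?_ ?_ ?_
  · rw [hcard] at key
    exact key
  · intro z hz
    obtain ⟨t, ht, rfl⟩ := Finset.mem_image.1 hz
    exact Pool.Agent.FKS.es_mono (Pool.Agent.FKS.bx_sub (hzx t (Finset.mem_range.1 ht))
      (by omega))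
  · intro z hz z' hz' hne
    obtain ⟨t, ht, rfl⟩ := Finset.mem_image.1 hz
    obtain ⟨t', ht', rfl⟩ := Finset.mem_image.1 hz'
    refine ⟨i, ?_⟩
    rw [hczi, hczi]
    have e : x i + (t : ℤ) * (2 * M + 1) - (x i + (t' : ℤ) * (2 * M + 1)) =
        ((t : ℤ) - t') * (2 * M + 1) := by ring
    rw [e, abs_mul, abs_of_pos hM0]
    have htt : (1 : ℤ) ≤ |(t : ℤ) - t'| := by
      apply Int.one_le_abs
      intro h0
      apply hne
      have : t = t' := by omega
      rw [this]
    push_cast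
    nlinarith
  · intro z hz
    obtain ⟨t, ht, rfl⟩ := Finset.mem_image.1 hz
    exact hQ.2 _ (hzx t (Finset.mem_range.1 ht))
  · intro z hz y hy
    obtain ⟨t, ht, rfl⟩ := Finset.mem_image.1 hz
    have ht := Finset.mem_range.1 ht
    simp only [Finset.mem_insert, Finset.mem_singleton] at hy
    rcases hy with rfl | rfl
    · exact CEG_.piece h_EXB h1 h4 i hQ.1 hF (hzx t ht)
    · exact CEG_.piece h_EXB h1 h4 i hQ'.1 hF' (hzx' t ht)

end Pool.Agent.FKS
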