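import Pool.Agent.FKS.Defs

/-!
# Project FKS (MP_552f07_pr), part B: the deterministic gluing recursion

The chain lemma (`chain`): along a chain of centres at which the gluing event `Gl` holds, with
consecutive centres joined by a hop of first passage distance at most `k`, two lattice-connected
sets of diameter at least `s` near the first and the last centre are at first passage distance at
most `J k + (J + 1) Φ`. `step` is one level of the recursion of Step 2 (`J = 1`), `hops` is the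
form for Step 4.
-/

set_option autoImplicit false

namespace Pool.Agent.FKS

open Pool.Agent.FKP
open Pool.Agent.FKT hiding ind

variable {d : ℕ}

/-! ### Connections -/

theorem Cn_inv {O : Set (Ed d)} {P : Vx d → Prop} (h : ∀ e ∈ O, (P e.1 ↔ P (tgt e)))
    {x y : Vx d} (hc : Cn O x y) : P x ↔ P y := by
  unfold Cn FKT.Con at hc
  induction hc with
  | rel a b hab =>
    rcases hab with hab | ⟨e, he, rfl, rfl⟩
    · exact absurd hab (by simp [no])
    · exact h e he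
  | refl a => exact Iff.rfl
  | symm a b _ ih => exact ih.symm
  | trans a b c _ _ ih1 ih2 => exact ih1.trans ih2

theorem Cn_mono {O O' : Set (Ed d)} (h : O ⊆ O') {x y : Vx d} (hc : Cn O x y) : Cn O' x y := by
  unfold Cn FKT.Con at hc ⊢
  induction hc with
  | rel a b hab =>
    rcases hab with hab | ⟨e, he, h1, h2⟩
    · exact absurd hab (by simp [no])
    · exact Relation.EqvGen.rel _ _ (Or.inr ⟨e, h he, h1, h2⟩)
  | refl a => exact Relation.EqvGen.refl a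
  | symm a b _ ih => exact Relation.EqvGen.symm _ _ ih
  | trans a b c _ _ ih1 ih2 => exact Relation.EqvGen.trans _ _ _ ih1 ih2

theorem Cn_refl (O : Set (Ed d)) (x : Vx d) : Cn O x x := Relation.EqvGen.refl x

theorem Cn_symm {O : Set (Ed d)} {x y : Vx d} (h : Cn O x y) : Cn O y x :=
  Relation.EqvGen.symm _ _ h

theorem Cn_trans {O : Set (Ed d)} {x y z : Vx d} (h : Cn O x y) (h' : Cn O y z) : Cn O x z :=
  Relation.EqvGen.trans _ _ _ h h'

theorem Cn_edge {O : Set (Ed d)} {e : Ed d} (he : e ∈ O) : Cn O e.1 (tgt e) :=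
  Relation.EqvGen.rel _ _ (Or.inr ⟨e, he, rfl, rfl⟩)

theorem mem_es {S : Finset (Vx d)} {e : Ed d} : e ∈ es S ↔ e.1 ∈ S ∧ tgt e ∈ S := by
  simp [es]

theorem es_mono {S S' : Finset (Vx d)} (h : S ⊆ S') : es S ⊆ es S' := by
  intro e he
  rw [mem_es] at he ⊢
  exact ⟨h he.1, h he.2⟩

theorem mem_bx {u v : Vx d} {n : ℕ} : v ∈ bx u n ↔ ∀ i, |v i - u i| ≤ n := by
  simp only [bx, Finset.mem_Icc, Pi.le_def]
  constructor
  · rintro ⟨h1, h2⟩ i
    rw [abs_le]
    constructor <;> linarith [h1 i, h2 i]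
  · intro h
    constructor <;> intro i <;> have := abs_le.1 (h i) <;> linarith [this.1, this.2]

theorem bx_sub {u v : Vx d} {m n : ℕ} {k : ℕ} (hv : v ∈ bx u k) (h : k + m ≤ n) :
    bx v m ⊆ bx u n := by
  intro w hw
  rw [mem_bx] at hv hw ⊢
  intro i
  have h1 := hv i
  have h2 := hw i
  have h3 : |w i - u i| ≤ |w i - v i| + |v i - u i| := by
    have := abs_add_le (w i - v i) (v i - u i)
    simpa using this
  have h4 : ((k + m : ℕ) : ℤ) ≤ n := by exact_mod_cast h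
  push_cast at h4
  linarith

/-! ### First passage -/

theorem Fpl_mono {F F' : Finset (Ed d)} {k k' : ℕ} {ω ω' : Finset (Ed d)} (hF : F ⊆ F')
    (hk : k ≤ k') (hω : ω ∩ F ⊆ ω') {x y : Vx d} (h : Fpl F k ω x y) : Fpl F' k' ω' x y := by
  obtain ⟨T, hT, hc, hx⟩ := h
  refine ⟨T, hT.trans hF, hc.trans hk, Cn_mono ?_ hx⟩
  intro e he
  simp only [Finset.coe_inter, Finset.coe_union, Set.mem_inter_iff, Set.mem_union,
    Finset.mem_coe] at he ⊢
  rcases he with h1 | h1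
  · exact Or.inl ⟨hω (Finset.mem_inter.2 h1), hF h1.2⟩
  · exact Or.inr h1

theorem Fpl_symm {F : Finset (Ed d)} {k : ℕ} {ω : Finset (Ed d)} {x y : Vx d}
    (h : Fpl F k ω x y) : Fpl F k ω y x := by
  obtain ⟨T, hT, hc, hx⟩ := h
  exact ⟨T, hT, hc, Cn_symm hx⟩

theorem Fpl_refl (F : Finset (Ed d)) (k : ℕ) (ω : Finset (Ed d)) (x : Vx d) : Fpl F k ω x x :=
  ⟨∅, Finset.empty_subset _, Nat.zero_le _, Cn_refl _ _⟩

theorem Fpl_trans {F : Finset (Ed d)} {k k' : ℕ} {ω : Finset (Ed d)} {x y z : Vx d}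
    (h : Fpl F k ω x y) (h' : Fpl F k' ω y z) : Fpl F (k + k') ω x z := by
  obtain ⟨T, hT, hc, hx⟩ := h
  obtain ⟨T', hT', hc', hx'⟩ := h'
  refine ⟨T ∪ T', Finset.union_subset hT hT', (Finset.card_union_le _ _).trans (by omega),
    Cn_trans (Cn_mono ?_ hx) (Cn_mono ?_ hx')⟩
  · intro e he
    simp only [Finset.coe_inter, Finset.coe_union, Set.mem_inter_iff, Set.mem_union,
      Finset.mem_coe] at he ⊢
    tauto
  · intro e he
    simp only [Finset.coe_inter, Finset.coe_union, Set.mem_inter_iff, Set.mem_union,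
      Finset.mem_coe] at he ⊢
    tauto

/-- The gluing event is increasing. -/
theorem Gl_mono {ρ r R k k' : ℕ} {u : Vx d} {ω ω' : Finset (Ed d)}
    (hω : ω ∩ eb u R ⊆ ω') (hk : k ≤ k') (h : Gl u ρ r R k ω) : Gl u ρ r R k' ω' := by
  intro K C hK hC hK1 hC1
  obtain ⟨x, hx, y, hy, hf⟩ := h K C hK hC hK1 hC1
  exact ⟨x, hx, y, hy, Fpl_mono (Finset.Subset.refl _) hk hω hf⟩

theorem Gl_inc (u : Vx d) (ρ r R k : ℕ) : Inc (Gl u ρ r R k) := by
  intro a b hab h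
  exact Gl_mono (Finset.inter_subset_left.trans hab) le_rfl h

/-- The gluing event depends on the edges of the box `u + Λ_R` only. -/
theorem Gl_loc (u : Vx d) (ρ r R k : ℕ) (ω : Finset (Ed d)) :
    Gl u ρ r R k ω ↔ Gl u ρ r R k (ω ∩ eb u R) := by
  constructor
  · intro h
    exact Gl_mono le_rfl le_rfl h
  · intro h
    exact Gl_inc u ρ r R k _ _ Finset.inter_subset_left h

/-! ### Lattice connected sets -/

/-- Connection by lattice edges inside the vertex set `K`. -/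
def Lk (K : Set (Vx d)) : Vx d → Vx d → Prop := Cn {e | e.1 ∈ K ∧ tgt e ∈ K}

/-- The vertex set `K` is connected in the lattice. -/
def LcS (K : Set (Vx d)) : Prop := ∀ x ∈ K, ∀ y ∈ K, Lk K x y

/-- The sup-diameter of `K` is at least `r`. -/
def Dm (r : ℕ) (K : Set (Vx d)) : Prop := ∃ x ∈ K, ∃ y ∈ K, Far r x y

theorem Lk_coe (K : Finset (Vx d)) (x y : Vx d) : Lk (K : Set (Vx d)) x y ↔ Cf (es K) x y := by
  have : ({e : Ed d | e.1 ∈ (K : Set (Vx d)) ∧ tgt e ∈ (K : Set (Vx d))} : Set (Ed d)) =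
      (es K : Set (Ed d)) := by
    ext e
    simp only [Set.mem_ofPred_eq, Finset.mem_coe, mem_es]
  unfold Lk Cf
  rw [this]

theorem LcS_coe {K : Finset (Vx d)} (h : Lc K) : LcS (K : Set (Vx d)) := by
  intro x hx y hy
  exact (Lk_coe K x y).2 (h x (by exact_mod_cast hx) y (by exact_mod_cast hy))

/-- The component of `z` in `K`. -/
def cmp (K : Set (Vx d)) (z : Vx d) : Set (Vx d) := {w | w ∈ K ∧ Lk K z w}

theorem Lk_mono {K K' : Set (Vx d)} (h : K ⊆ K') {x y : Vx d} (hc : Lk K x y) : Lk K' x y :=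
  Cn_mono (O := {e : Ed d | e.1 ∈ K ∧ tgt e ∈ K}) (fun _ he => And.intro (h he.1) (h he.2)) hc

/-- A connection inside `K` from `z` stays in the component of `z`. -/
theorem Lk_cmp {K : Set (Vx d)} {z w : Vx d} (hz : z ∈ K) (h : Lk K z w) :
    w ∈ K ∧ Lk (cmp K z) z w := by
  have key : ∀ e : Ed d, e ∈ {e : Ed d | e.1 ∈ K ∧ tgt e ∈ K} →
      ((e.1 ∈ cmp K z ∧ Lk (cmp K z) z e.1) ↔ (tgt e ∈ cmp K z ∧ Lk (cmp K z) z (tgt e))) := by
    intro e he
    constructor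
    · rintro ⟨h1, h2⟩
      have h3 : tgt e ∈ cmp K z := ⟨he.2, Cn_trans h1.2 (Cn_edge he)⟩
      exact ⟨h3, Cn_trans h2 (Cn_edge (O := {e | e.1 ∈ cmp K z ∧ tgt e ∈ cmp K z}) ⟨h1, h3⟩)⟩
    · rintro ⟨h1, h2⟩
      have h3 : e.1 ∈ cmp K z := ⟨he.1, Cn_trans h1.2 (Cn_symm (Cn_edge he))⟩
      exact ⟨h3, Cn_trans h2
        (Cn_symm (Cn_edge (O := {e | e.1 ∈ cmp K z ∧ tgt e ∈ cmp K z}) ⟨h3, h1⟩))⟩
  have h0 : z ∈ cmp K z := ⟨hz, Cn_refl _ _⟩
  have := (Cn_inv (P := fun v => v ∈ cmp K z ∧ Lk (cmp K z) z v) key h).1 ⟨h0, Cn_refl _ _⟩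
  exact ⟨this.1.1, this.2⟩

theorem Lc_cmp {K : Set (Vx d)} {z : Vx d} (hz : z ∈ K) : LcS (cmp K z) := by
  intro x hx y hy
  exact Cn_trans (Cn_symm (Lk_cmp hz hx.2).2) (Lk_cmp hz hy.2).2

theorem tgt_apply (e : Ed d) (i : Fin d) : tgt e i = e.1 i + if i = e.2 then 1 else 0 := by
  simp only [tgt, Pi.add_apply, Pi.single_apply]

/-- Intermediate values of a coordinate on a connected set. -/
theorem ivt {K : Set (Vx d)} {x y : Vx d} (hx : x ∈ K) (h : Lk K x y) (i : Fin d)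
    (c : ℤ) (h1 : x i ≤ c) (h2 : c ≤ y i) : ∃ z ∈ K, Lk K x z ∧ z i = c := by
  by_contra hcon
  push Not at hcon
  have key : ∀ e : Ed d, e ∈ {e : Ed d | e.1 ∈ K ∧ tgt e ∈ K} →
      ((e.1 ∈ K ∧ Lk K x e.1 ∧ e.1 i < c) ↔ (tgt e ∈ K ∧ Lk K x (tgt e) ∧ tgt e i < c)) := by
    intro e he
    have ht := tgt_apply e i
    constructor
    · rintro ⟨h3, h4, h5⟩
      have h6 : Lk K x (tgt e) := Cn_trans h4 (Cn_edge he)
      refine ⟨he.2, h6, ?_⟩
      have h7 := hcon _ he.2 h6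
      split_ifs at ht <;> omega
    · rintro ⟨h3, h4, h5⟩
      have h6 : Lk K x e.1 := Cn_trans h4 (Cn_symm (Cn_edge he))
      refine ⟨he.1, h6, ?_⟩
      split_ifs at ht <;> omega
  have hx0 : x i < c := lt_of_le_of_ne h1 (hcon x hx (Cn_refl _ _))
  have := (Cn_inv (P := fun v => v ∈ K ∧ Lk K x v ∧ v i < c) key h).1
    ⟨hx, Cn_refl _ _, hx0⟩
  omega

/-- A connected set of diameter at least `s` meeting `c + Λ_a` has a connected piece of diameter at
least `s` in `c + Λ_b` if `a + s ≤ b`. -/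
theorem piece {K : Set (Vx d)} (hK : LcS K) {s a b : ℕ} (hd : Dm s K) {c z : Vx d} (hz : z ∈ K)
    (hzc : z ∈ bx c a) (hab : a + s ≤ b) :
    ∃ P : Set (Vx d), P ⊆ K ∧ P ⊆ bx c b ∧ LcS P ∧ Dm s P := by
  set B : Set (Vx d) := K ∩ (bx c b : Set (Vx d)) with hB
  have hzB : z ∈ B := ⟨hz, by
    have : z ∈ bx c b := (bx_sub (m := 0) hzc (by omega : a + 0 ≤ b)) (by simp [mem_bx])
    exact_mod_cast this⟩
  refine ⟨cmp B z, fun w hw => hw.1.1, fun w hw => hw.1.2, Lc_cmp hzB, ?_⟩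
  by_contra hcon
  -- every point of the component is at distance less than `s` from `z`
  have hnear : ∀ w ∈ cmp B z, ∀ i, |w i - z i| < s := by
    intro w hw i
    by_contra hlt
    push Not at hlt
    exact hcon ⟨w, hw, z, ⟨hzB, Cn_refl _ _⟩, i, hlt⟩
  -- hence the component of `z` in `B` is closed in `K`
  have hclosed : ∀ e : Ed d, e ∈ {e : Ed d | e.1 ∈ K ∧ tgt e ∈ K} →
      (e.1 ∈ cmp B z ↔ tgt e ∈ cmp B z) := by
    intro e he
    constructor
    · intro h1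
      have h2 : tgt e ∈ bx c b := by
        rw [mem_bx]
        intro i
        have h3 := hnear _ h1 i
        have h4 := (mem_bx.1 hzc) i
        have h5 := tgt_apply e i
        have h6 : ((a + s : ℕ) : ℤ) ≤ b := by exact_mod_cast hab
        push_cast at h6
        rw [abs_lt] at h3
        rw [abs_le] at h4 ⊢
        split_ifs at h5 <;> constructor <;> omega
      have h3 : tgt e ∈ B := ⟨he.2, by exact_mod_cast h2⟩
      exact ⟨h3, Cn_trans h1.2 (Cn_edge (O := {e | e.1 ∈ B ∧ tgt e ∈ B}) ⟨h1.1, h3⟩)⟩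
    · intro h1
      have h2 : e.1 ∈ bx c b := by
        rw [mem_bx]
        intro i
        have h3 := hnear _ h1 i
        have h4 := (mem_bx.1 hzc) i
        have h5 := tgt_apply e i
        have h6 : ((a + s : ℕ) : ℤ) ≤ b := by exact_mod_cast hab
        push_cast at h6
        rw [abs_lt] at h3
        rw [abs_le] at h4 ⊢
        split_ifs at h5 <;> constructor <;> omega
      have h3 : e.1 ∈ B := ⟨he.1, by exact_mod_cast h2⟩
      exact ⟨h3, Cn_trans h1.2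
        (Cn_symm (Cn_edge (O := {e | e.1 ∈ B ∧ tgt e ∈ B}) ⟨h3, h1.1⟩))⟩
  obtain ⟨x, hx, y, hy, i, hi⟩ := hd
  have h1 : x ∈ cmp B z := (Cn_inv (P := fun v => v ∈ cmp B z) hclosed (hK z hz x hx)).1
    ⟨hzB, Cn_refl _ _⟩
  have h2 : y ∈ cmp B z := (Cn_inv (P := fun v => v ∈ cmp B z) hclosed (hK z hz y hy)).1
    ⟨hzB, Cn_refl _ _⟩
  exact hcon ⟨x, h1, y, h2, i, hi⟩

/-- The cluster of `x` in a configuration is connected in the lattice. -/
theorem Lc_clu (O : Set (Ed d)) (x : Vx d) : LcS {z | Cn O x z} := by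
  have key : ∀ z, Cn O x z → Lk {z | Cn O x z} x z := by
    intro z hz
    have h := Cn_inv (O := O) (P := fun v => Cn O x v ∧ Lk {z | Cn O x z} x v) ?_ hz
    · exact (h.1 ⟨Cn_refl _ _, Cn_refl _ _⟩).2
    · intro e he
      constructor
      · rintro ⟨h1, h2⟩
        have h3 : Cn O x (tgt e) := Cn_trans h1 (Cn_edge he)
        exact ⟨h3, Cn_trans h2 (Cn_edge (O := {e : Ed d | e.1 ∈ {z | Cn O x z} ∧
          tgt e ∈ {z | Cn O x z}}) ⟨h1, h3⟩)⟩
      · rintro ⟨h1, h2⟩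
        have h3 : Cn O x e.1 := Cn_trans h1 (Cn_symm (Cn_edge he))
        exact ⟨h3, Cn_trans h2 (Cn_symm (Cn_edge (O := {e : Ed d | e.1 ∈ {z | Cn O x z} ∧
          tgt e ∈ {z | Cn O x z}}) ⟨h3, h1⟩))⟩
  intro y hy z hz
  exact Cn_trans (Cn_symm (key y hy)) (key z hz)

/-! ### The chain lemma -/

/-- Two connected sets of diameter at least `s` near a good centre are at distance `Φ`. -/
theorem glue {ρ s R Φ a : ℕ} {F : Finset (Ed d)} {c : Vx d} {ω : Finset (Ed d)}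
    (hG : Gl c ρ s R Φ ω) (ha : a + s ≤ ρ) (hS : eb c R ⊆ F) {K C : Set (Vx d)}
    (hK : LcS K) (hC : LcS C) (hK2 : Dm s K) (hC2 : Dm s C) {x y : Vx d} (hx : x ∈ K)
    (hy : y ∈ C) (hx2 : x ∈ bx c a) (hy2 : y ∈ bx c a) :
    ∃ x' ∈ K, ∃ y' ∈ C, Fpl F Φ ω x' y' := by
  classical
  have conv : ∀ P : Set (Vx d), P ⊆ bx c ρ → LcS P → Dm s P →
      ∃ P' : Finset (Vx d), P' ⊆ bx c ρ ∧ Lcd s P' ∧ ∀ x ∈ P', x ∈ P := by
    intro P hP hP1 hP2
    have hmem : ∀ x, x ∈ (bx c ρ).filter (fun x => x ∈ P) ↔ x ∈ P := by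
      intro x
      rw [Finset.mem_filter]
      exact ⟨fun h => h.2, fun h => ⟨by exact_mod_cast hP h, h⟩⟩
    have hcoe : (((bx c ρ).filter (fun x => x ∈ P) : Finset (Vx d)) : Set (Vx d)) = P := by
      ext x
      exact hmem x
    refine ⟨(bx c ρ).filter fun x => x ∈ P, Finset.filter_subset _ _, ⟨?_, ?_⟩, fun x hx =>
      (hmem x).1 hx⟩
    · intro x hx y hy
      rw [← Lk_coe, hcoe]
      exact hP1 x ((hmem x).1 hx) y ((hmem y).1 hy)
    · obtain ⟨x, hx, y, hy, h⟩ := hP2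
      exact ⟨x, (hmem x).2 hx, y, (hmem y).2 hy, h⟩
  obtain ⟨P, hP1, hP2, hP3, hP4⟩ := piece hK hK2 hx hx2 ha
  obtain ⟨Q, hQ1, hQ2, hQ3, hQ4⟩ := piece hC hC2 hy hy2 ha
  obtain ⟨P', hP5, hP6, hP7⟩ := conv P hP2 hP3 hP4
  obtain ⟨Q', hQ5, hQ6, hQ7⟩ := conv Q hQ2 hQ3 hQ4
  obtain ⟨x', hx', y', hy', hf⟩ := hG P' Q' hP5 hQ5 hP6 hQ6
  exact ⟨x', hP1 (hP7 x' hx'), y', hQ1 (hQ7 y' hy'),
    Fpl_mono hS le_rfl Finset.inter_subset_left hf⟩

/-- Induction for the chain lemma: a connected set `P`, all of whose points are at distance at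
most `j (k + Φ)` from `K`, near the centre `c j`. -/
theorem chain_aux {ρ s R Φ k J : ℕ} {F : Finset (Ed d)} {c : ℕ → Vx d} {ω : Finset (Ed d)}
    (hM : (3 * J + 2) * s ≤ ρ) (hG : ∀ j ≤ J, Gl (c j) ρ s R Φ ω) (hS : ∀ j ≤ J, eb (c j) R ⊆ F)
    (hh : ∀ j < J, ∃ x ∈ bx (c j) s, ∃ y ∈ bx (c (j + 1)) s, Fpl F k ω x y)
    {K : Set (Vx d)} (hK : LcS K) (hK2 : Dm s K) {x0 : Vx d} (hx0 : x0 ∈ K)
    (hx1 : x0 ∈ bx (c 0) s) :
    ∀ j ≤ J, ∃ (P : Set (Vx d)) (z : Vx d), LcS P ∧ Dm s P ∧ z ∈ P ∧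
      z ∈ bx (c j) (s + 3 * j * s) ∧ ∀ w ∈ P, ∃ x ∈ K, Fpl F (j * (k + Φ)) ω x w := by
  intro j
  induction j with
  | zero =>
    intro _
    exact ⟨K, x0, hK, hK2, hx0, by simpa using hx1, fun w hw => ⟨w, hw, Fpl_refl _ _ _ _⟩⟩
  | succ j ih =>
    intro hj
    obtain ⟨P, z, hP1, hP2, hz1, hz2, hP3⟩ := ih (by omega)
    by_cases hshort : ∀ i, |c (j + 1) i - c j i| ≤ ((3 * s : ℕ) : ℤ)
    · refine ⟨P, z, hP1, hP2, hz1, ?_, ?_⟩
      · rw [mem_bx] at hz2 ⊢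
        intro i
        have h1 := hz2 i
        have h2 := hshort i
        have h3 : |z i - c (j + 1) i| ≤ |z i - c j i| + |c (j + 1) i - c j i| := by
          rw [abs_sub_comm (c (j + 1) i)]
          have := abs_add_le (z i - c j i) (c j i - c (j + 1) i)
          simpa using this
        push_cast at h1 h2 ⊢
        nlinarith
      · intro w hw
        obtain ⟨x, hx, hf⟩ := hP3 w hw
        exact ⟨x, hx, Fpl_mono (Finset.Subset.refl _) (Nat.mul_le_mul_right _ (by omega))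
          Finset.inter_subset_left hf⟩
    · push Not at hshort
      obtain ⟨i, hi⟩ := hshort
      obtain ⟨x, hx, y, hy, T, hT, hTc, hTx⟩ := hh j (by omega)
      set O : Set (Ed d) := (((ω ∩ F) ∪ T : Finset (Ed d)) : Set (Ed d)) with hO
      set Q : Set (Vx d) := {w | Cn O x w} with hQ
      have hxQ : x ∈ Q := Cn_refl _ _
      have hyQ : y ∈ Q := hTx
      have hQ1 : LcS Q := Lc_clu O x
      have hQ2 : Dm s Q := by
        refine ⟨x, hxQ, y, hyQ, i, ?_⟩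
        have h1 := mem_bx.1 hx i
        have h2 := mem_bx.1 hy i
        have h3 : |c (j + 1) i - c j i| ≤ |x i - c j i| + |x i - y i| + |y i - c (j + 1) i| := by
          have e1 := abs_add_le (c (j + 1) i - y i) (y i - x i + (x i - c j i))
          have e2 := abs_add_le (y i - x i) (x i - c j i)
          rw [abs_sub_comm (c (j + 1) i) (y i)] at e1
          rw [abs_sub_comm (y i) (x i)] at e2
          have e3 : c (j + 1) i - y i + (y i - x i + (x i - c j i)) = c (j + 1) i - c j i := by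
            ring
          rw [e3] at e1
          linarith
        push_cast at hi
        linarith
      have ha : s + 3 * j * s + s ≤ ρ := by
        have : (3 * j + 2) * s ≤ (3 * J + 2) * s := Nat.mul_le_mul_right _ (by omega)
        nlinarith
      have hxa : x ∈ bx (c j) (s + 3 * j * s) := by
        rw [mem_bx] at hx ⊢
        intro i'
        have := hx i'
        push_cast
        nlinarith
      obtain ⟨w, hw, v, hv, hf⟩ := glue (hG j (by omega)) ha (hS j (by omega)) hP1 hQ1 hP2 hQ2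
        hz1 hxQ hz2 hxa
      refine ⟨Q, y, hQ1, hQ2, hyQ, ?_, ?_⟩
      · rw [mem_bx] at hy ⊢
        intro i'
        have := hy i'
        push_cast
        nlinarith
      · intro w' hw'
        obtain ⟨x', hx', hf'⟩ := hP3 w hw
        have h1 : Fpl F k ω v w' := ⟨T, hT, hTc, Cn_trans (Cn_symm hv) hw'⟩
        refine ⟨x', hx', ?_⟩
        have h2 := Fpl_trans (Fpl_trans hf' hf) h1
        exact Fpl_mono (Finset.Subset.refl _) (by ring_nf; omega) Finset.inter_subset_left h2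

/-- The chain lemma. -/
theorem chain {ρ s R Φ k J : ℕ} {F : Finset (Ed d)} {c : ℕ → Vx d} {ω : Finset (Ed d)}
    (hM : (3 * J + 2) * s ≤ ρ) (hG : ∀ j ≤ J, Gl (c j) ρ s R Φ ω) (hS : ∀ j ≤ J, eb (c j) R ⊆ F)
    (hh : ∀ j < J, ∃ x ∈ bx (c j) s, ∃ y ∈ bx (c (j + 1)) s, Fpl F k ω x y)
    {K C : Set (Vx d)} (hK : LcS K) (hK2 : Dm s K) (hC : LcS C) (hC2 : Dm s C) {x0 y0 : Vx d}
    (hx0 : x0 ∈ K) (hx1 : x0 ∈ bx (c 0) s) (hy0 : y0 ∈ C) (hy1 : y0 ∈ bx (c J) s) :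
    ∃ x ∈ K, ∃ y ∈ C, Fpl F (J * k + (J + 1) * Φ) ω x y := by
  obtain ⟨P, z, hP1, hP2, hz1, hz2, hP3⟩ := chain_aux hM hG hS hh hK hK2 hx0 hx1 J le_rfl
  have ha : s + 3 * J * s + s ≤ ρ := by nlinarith
  have hya : y0 ∈ bx (c J) (s + 3 * J * s) := by
    rw [mem_bx] at hy1 ⊢
    intro i'
    have := hy1 i'
    push_cast
    nlinarith
  obtain ⟨w, hw, v, hv, hf⟩ := glue (hG J le_rfl) ha (hS J le_rfl) hP1 hC hP2 hC2 hz1 hy0 hz2 hya
  obtain ⟨x, hx, hf'⟩ := hP3 w hw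
  exact ⟨x, hx, v, hv, Fpl_mono (Finset.Subset.refl _) (by ring_nf; omega)
    Finset.inter_subset_left (Fpl_trans hf' hf)⟩

theorem Dm_le {s r : ℕ} (h : s ≤ r) {K : Set (Vx d)} (hK : Dm r K) : Dm s K := by
  obtain ⟨x, hx, y, hy, i, hi⟩ := hK
  exact ⟨x, hx, y, hy, i, le_trans (by exact_mod_cast h) hi⟩

theorem Lcd_le {s r : ℕ} (h : s ≤ r) {K : Finset (Vx d)} (hK : Lcd r K) : Lcd s K := by
  obtain ⟨h0, x, hx, y, hy, i, hi⟩ := hK
  exact ⟨h0, x, hx, y, hy, i, le_trans (by exact_mod_cast h) hi⟩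

/-- Separated points on a connected set of large diameter. -/
theorem spread {K : Set (Vx d)} (hK : LcS K) {n G r : ℕ} (hd : Dm r K)
    (h : n * (G + 1) ≤ r) : ∃ v : Fin n → Vx d, (∀ j, v j ∈ K) ∧
      ∀ j j', j ≠ j' → Far (G + 1) (v j) (v j') := by
  obtain ⟨x, hx, y, hy, i, hi⟩ := hd
  have main : ∀ x ∈ K, ∀ y ∈ K, (r : ℤ) ≤ y i - x i → ∃ v : Fin n → Vx d, (∀ j, v j ∈ K) ∧
      ∀ j j', j ≠ j' → Far (G + 1) (v j) (v j') := by
    intro x hx y hy hxy
    have hz : ∀ j : Fin n, ∃ z ∈ K, z i = x i + (j : ℤ) * (G + 1) := by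
      intro j
      have h1 : ((j : ℕ) : ℤ) * (G + 1) ≤ r := by
        have : (j : ℕ) * (G + 1) ≤ r := (Nat.mul_le_mul_right _ j.2.le).trans h
        exact_mod_cast this
      have h2 : (0 : ℤ) ≤ ((j : ℕ) : ℤ) * (G + 1) := by positivity
      obtain ⟨z, hz1, _, hz2⟩ := ivt hx (hK x hx y hy) i (x i + (j : ℤ) * (G + 1))
        (by linarith) (by linarith)
      exact ⟨z, hz1, hz2⟩
    choose v hv1 hv2 using hz
    refine ⟨v, hv1, fun j j' hjj => ⟨i, ?_⟩⟩
    rw [hv2, hv2]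
    have h3 : (1 : ℤ) ≤ |((j : ℕ) : ℤ) - ((j' : ℕ) : ℤ)| := by
      apply Int.one_le_abs
      intro h0
      apply hjj
      ext
      omega
    have h4 : x i + ((j : ℕ) : ℤ) * (G + 1) - (x i + ((j' : ℕ) : ℤ) * (G + 1)) =
      (((j : ℕ) : ℤ) - ((j' : ℕ) : ℤ)) * (G + 1) := by ring
    rw [h4, abs_mul, abs_of_pos (by positivity : (0 : ℤ) < (G : ℤ) + 1)]
    push_cast
    nlinarith
  rcases le_total (x i) (y i) with hle | hle
  · exact main x hx y hy (by rw [abs_sub_comm, abs_of_nonneg (by linarith)] at hi; exact hi)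
  · exact main y hy x hx (by rw [abs_of_nonneg (by linarith)] at hi; exact hi)

/-- One level of the recursion of Step 2: hops of first passage distance at most `k` between all
pairs of balls of radius `s`, and a good centre among any `n` separated centres. -/
theorem step {ρ ρ1 s r R R1 Φ k n G : ℕ} {u : Vx d} {ω : Finset (Ed d)} (hM : 5 * s ≤ ρ1)
    (hn : n * (G + 1) ≤ r) (hsr : s ≤ r) (hR : ρ + R1 ≤ R)
    (ha : ∀ z ∈ bx u ρ, ∀ w ∈ bx u ρ, ∃ x ∈ bx z s, ∃ y ∈ bx w s, Fpl (eb u R) k ω x y)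
    (hb : ∀ v : Fin n → Vx d, (∀ j, v j ∈ bx u ρ) →
      (∀ j j', j ≠ j' → Far (G + 1) (v j) (v j')) → ∃ j, Gl (v j) ρ1 s R1 Φ ω) :
    Gl u ρ r R (k + 2 * Φ) ω := by
  intro K C hK hC hK1 hC1
  have find : ∀ K : Finset (Vx d), K ⊆ bx u ρ → Lcd r K → ∃ z ∈ K, Gl z ρ1 s R1 Φ ω := by
    intro K hK hK1
    obtain ⟨v, hv1, hv2⟩ := spread (LcS_coe hK1.1) (n := n) (G := G) (r := r)
      (by obtain ⟨_, x, hx, y, hy, h⟩ := hK1
          exact ⟨x, by exact_mod_cast hx, y, by exact_mod_cast hy, h⟩) hn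
    obtain ⟨j, hj⟩ := hb v (fun j => hK (by exact_mod_cast hv1 j)) hv2
    exact ⟨v j, by exact_mod_cast hv1 j, hj⟩
  have dm : ∀ K : Finset (Vx d), Lcd r K → Dm s (K : Set (Vx d)) := by
    intro K hK1
    obtain ⟨_, x, hx, y, hy, h⟩ := Lcd_le hsr hK1
    exact ⟨x, by exact_mod_cast hx, y, by exact_mod_cast hy, h⟩
  obtain ⟨z, hz, hz2⟩ := find K hK hK1
  obtain ⟨w, hw, hw2⟩ := find C hC hC1
  have hzu : z ∈ bx u ρ := hK hz
  have hwu : w ∈ bx u ρ := hC hw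
  have self : ∀ v : Vx d, v ∈ bx v s := fun v => by simp [mem_bx]
  have hsub : ∀ v ∈ bx u ρ, eb v R1 ⊆ eb u R := by
    intro v hv
    have h1 : bx v R1 ⊆ bx u R := bx_sub hv hR
    intro e he
    have he' : e.1 ∈ bx v R1 ∧ tgt e ∈ bx v R1 := by
      have := mem_es (S := bx v R1) (e := e)
      exact this.1 he
    exact (mem_es (S := bx u R) (e := e)).2 ⟨h1 he'.1, h1 he'.2⟩
  have := chain (ρ := ρ1) (s := s) (R := R1) (Φ := Φ) (k := k) (J := 1) (F := eb u R)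
    (c := fun j => if j = 0 then z else w) (ω := ω) (by omega)
    (by
      intro j hj
      by_cases h0 : j = 0
      · simpa [h0] using hz2
      · simpa [h0] using hw2)
    (by
      intro j hj
      by_cases h0 : j = 0
      · simpa [h0] using hsub z hzu
      · simpa [h0] using hsub w hwu)
    (by
      intro j hj
      have h0 : j = 0 := by omega
      subst h0
      simpa using ha z hzu w hwu)
    (LcS_coe hK1.1) (dm K hK1) (LcS_coe hC1.1) (dm C hC1) (x0 := z) (y0 := w)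
    (by exact_mod_cast hz) (by simpa using self z) (by exact_mod_cast hw)
    (by simpa using self w)
  obtain ⟨x, hx, y, hy, hf⟩ := this
  refine ⟨x, by exact_mod_cast hx, y, by exact_mod_cast hy, ?_⟩
  have e : 1 * k + (1 + 1) * Φ = k + 2 * Φ := by ring
  rwa [e] at hf

/-- Step 4: hops between all pairs of points of the ball `u + Λ_ρ`, at most `J` hops each. -/
theorem hops {ρ ρ1 s r R R1 Φ k J : ℕ} {u : Vx d} {ω : Finset (Ed d)}
    (hM : (3 * J + 2) * s ≤ ρ1) (hsr : s ≤ r)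
    (ha : ∀ z ∈ bx u ρ, ∀ w ∈ bx u ρ, ∃ c : ℕ → Vx d, z ∈ bx (c 0) s ∧ w ∈ bx (c J) s ∧
      (∀ j ≤ J, eb (c j) R1 ⊆ eb u R) ∧ (∀ j ≤ J, Gl (c j) ρ1 s R1 Φ ω) ∧
      ∀ j < J, ∃ x ∈ bx (c j) s, ∃ y ∈ bx (c (j + 1)) s, Fpl (eb u R) k ω x y) :
    Gl u ρ r R (J * k + (J + 1) * Φ) ω := by
  intro K C hK hC hK1 hC1
  have dm : ∀ K : Finset (Vx d), Lcd r K → Dm s (K : Set (Vx d)) := by
    intro K hK1
    obtain ⟨_, x, hx, y, hy, h⟩ := Lcd_le hsr hK1
    exact ⟨x, by exact_mod_cast hx, y, by exact_mod_cast hy, h⟩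
  obtain ⟨z, hz, -⟩ := hK1.2
  obtain ⟨w, hw, -⟩ := hC1.2
  obtain ⟨c, h1, h2, h3, h4, h5⟩ := ha z (hK hz) w (hC hw)
  obtain ⟨x, hx, y, hy, hf⟩ := chain hM h4 h3 h5 (LcS_coe hK1.1) (dm K hK1) (LcS_coe hC1.1)
    (dm C hC1) (x0 := z) (y0 := w) (by exact_mod_cast hz) h1 (by exact_mod_cast hw) h2
  exact ⟨x, by exact_mod_cast hx, y, by exact_mod_cast hy, hf⟩

end Pool.Agent.FKS
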