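import Pool.Agent.FKS.TargetsE
import Pool.Agent.FKS.Step

/-!
# Project FKS, target CEP: the probability of a good cell
-/

set_option autoImplicit false

namespace Pool.Agent.FKS

open Filter MeasureTheory Pool.Agent.FKP
open Pool.Agent.FKT hiding ind

namespace CEP_

theorem card_bx {d : ℕ} (M : ℕ) : ((bx (0 : Vx d) M).card : ℝ) = (2 * (M : ℝ) + 1) ^ d := by
  unfold bx
  rw [Pi.card_Icc]
  simp only [Pi.zero_apply, Int.card_Icc, Finset.prod_const, Finset.card_univ, Fintype.card_fin]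
  have : (0 + (M : ℤ) + 1 - (0 - (M : ℤ))).toNat = 2 * M + 1 := by omega
  rw [this]
  push_cast
  ring

theorem self_mem {d : ℕ} (u : Vx d) (k : ℕ) : u ∈ bx u k := by
  rw [mem_bx]
  intro i
  simp

/-- A larger ball makes the gluing event easier. -/
theorem Gl_radius {d : ℕ} {u : Vx d} {ρ r R R' k : ℕ} {ω : Finset (Ed d)} (hR : R ≤ R')
    (h : Gl u ρ r R k ω) : Gl u ρ r R' k ω := by
  intro K C hK hC hK1 hC1
  obtain ⟨x, hx, y, hy, hf⟩ := h K C hK hC hK1 hC1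
  refine ⟨x, hx, y, hy, Fpl_mono ?_ le_rfl Finset.inter_subset_left hf⟩
  show es (bx u R) ⊆ es (bx u R')
  exact es_mono (bx_sub (self_mem u 0) (by omega))

/-- The union bound over the points of the cell. -/
theorem ub (h3 : T_DPM) (h4 : T_TRP) (h5 : T_GLT) {d L ξ M k N N' : ℕ} {p q : ℝ} (hp : 0 < p)
    (hp1 : p < 1) (hq : 1 ≤ q) (hN : L + N' ≤ N) :
    P0 (0 : Vx d) N p q (fun ω => ¬ Qg L ξ M k 0 ω) ≤
      P0 (0 : Vx d) N p q (fun ω => ¬ Gnt 0 L ξ ω) +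
        (2 * (L : ℝ) + 1) ^ d * P0 (0 : Vx d) N' p q fun ω => ¬ Gl 0 (2 * ξ) ξ M k ω := by
  have hq0 : 0 < q := by linarith
  have s1 : P0 (0 : Vx d) N p q (fun ω => ¬ Qg L ξ M k 0 ω) ≤
      P0 (0 : Vx d) N p q (fun ω => ¬ Gnt 0 L ξ ω) +
      fr (bx (0 : Vx d) N) p q (fun ω => ∑ y ∈ bx (0 : Vx d) L,
        ind (¬ Gl y (2 * ξ) ξ M k ω)) := by
    unfold P0 fr fw
    rw [← Ex_add]
    refine Ex_mono hp hp1 hq0 ?_
    intro ω _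
    have n1 : 0 ≤ ind (¬ Gnt (0 : Vx d) L ξ ω) := ind_nonneg _
    have n2 : 0 ≤ ∑ y ∈ bx (0 : Vx d) L, ind (¬ Gl y (2 * ξ) ξ M k ω) :=
      Finset.sum_nonneg fun a _ => ind_nonneg _
    by_cases hG : Qg L ξ M k (0 : Vx d) ω
    · rw [ind_false (not_not.mpr hG)]
      exact add_nonneg n1 n2
    · by_cases hA : Gnt (0 : Vx d) L ξ ω
      · have : ∃ y ∈ bx (0 : Vx d) L, ¬ Gl y (2 * ξ) ξ M k ω := by
          by_contra hcon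
          push Not at hcon
          exact hG ⟨hA, hcon⟩
        obtain ⟨y, hy, hny⟩ := this
        have := Finset.single_le_sum (f := fun y => ind (¬ Gl y (2 * ξ) ξ M k ω))
            (fun b _ => ind_nonneg _) hy
        have e1 : ind (¬ Gl y (2 * ξ) ξ M k ω) = 1 := ind_true hny
        have e2 : ind (¬ Qg L ξ M k (0 : Vx d) ω) ≤ 1 := ind_le_one _
        rw [e1] at this
        linarith
      · have e1 : ind (¬ Gnt (0 : Vx d) L ξ ω) = 1 := ind_true hA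
        have e2 : ind (¬ Qg L ξ M k (0 : Vx d) ω) ≤ 1 := ind_le_one _
        linarith
  have s2 : fr (bx (0 : Vx d) N) p q (fun ω => ∑ y ∈ bx (0 : Vx d) L,
        ind (¬ Gl y (2 * ξ) ξ M k ω)) = ∑ y ∈ bx (0 : Vx d) L,
        fr (bx (0 : Vx d) N) p q (fun ω => ind (¬ Gl y (2 * ξ) ξ M k ω)) := by
    unfold fr fw
    exact Ex_sum _ _
  have s3 : ∀ y ∈ bx (0 : Vx d) L,
      fr (bx (0 : Vx d) N) p q (fun ω => ind (¬ Gl y (2 * ξ) ξ M k ω)) ≤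
        P0 (0 : Vx d) N' p q fun ω => ¬ Gl 0 (2 * ξ) ξ M k ω := by
    intro y hy
    have k1 := h3 d (bx (0 : Vx d) N) y N' p q hp hp1 hq (bx_sub hy hN)
      (Gl y (2 * ξ) ξ M k) (Gl_inc _ _ _ _ _)
    have k2 := h4 d y N' p q (fun ω => ¬ Gl y (2 * ξ) ξ M k ω)
    have k3 : (fun ω : Finset (Ed d) => ¬ Gl y (2 * ξ) ξ M k
        (ω.map (trE y).toEmbedding)) = fun ω => ¬ Gl 0 (2 * ξ) ξ M k ω := by
      funext ω
      rw [h5 d y (2 * ξ) ξ M k ω]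
    rw [k2, k3] at k1
    exact k1
  refine s1.trans (add_le_add le_rfl ?_)
  rw [s2]
  calc ∑ y ∈ bx (0 : Vx d) L,
        fr (bx (0 : Vx d) N) p q (fun ω => ind (¬ Gl y (2 * ξ) ξ M k ω))
      ≤ ∑ _y ∈ bx (0 : Vx d) L, P0 (0 : Vx d) N' p q fun ω => ¬ Gl 0 (2 * ξ) ξ M k ω :=
        Finset.sum_le_sum s3
    _ = _ := by rw [Finset.sum_const, nsmul_eq_mul, card_bx]

/-- The numbers. -/
theorem num {κ c C ε : ℝ} (d r0 : ℕ) (hκ : 0 < κ) (hc : 0 < c) (hε : 0 < ε)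
    (hC : C = ((d : ℝ) + 1) / κ) : ∃ L0 : ℕ, ∀ L : ℕ, L0 ≤ L →
      r0 ≤ ⌊(L : ℝ) ^ κ⌋₊ ∧ (L : ℝ) ^ (-c) ≤ ε / 2 ∧
      (2 * (L : ℝ) + 1) ^ d * (⌊(L : ℝ) ^ κ⌋₊ : ℝ) ^ (-C) ≤ ε / 2 := by
  have hC0 : 0 < C := by rw [hC]; positivity
  have t1 : Tendsto (fun L : ℕ => (L : ℝ) ^ κ) atTop atTop :=
    (tendsto_rpow_atTop hκ).comp tendsto_natCast_atTop_atTop
  have t2 : Tendsto (fun L : ℕ => (L : ℝ) ^ (-c)) atTop (nhds 0) :=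
    (tendsto_rpow_neg_atTop hc).comp tendsto_natCast_atTop_atTop
  have t3 : Tendsto (fun L : ℕ => (3 : ℝ) ^ d * 2 ^ C * ((L : ℝ))⁻¹) atTop (nhds 0) := by
    have := (tendsto_inv_atTop_zero.comp (tendsto_natCast_atTop_atTop (R := ℝ))).const_mul
      ((3 : ℝ) ^ d * 2 ^ C)
    simpa using this
  have e1 := t1.eventually (eventually_ge_atTop ((r0 : ℝ) + 2))
  have e2 := t2.eventually (eventually_le_nhds (half_pos hε))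
  have e3 := t3.eventually (eventually_le_nhds (half_pos hε))
  obtain ⟨L0, hL0⟩ := eventually_atTop.1 (e1.and (e2.and (e3.and (eventually_ge_atTop 1))))
  refine ⟨L0, fun L hL => ?_⟩
  obtain ⟨f1, f2, f3, f4⟩ := hL0 L hL
  have hL1 : (1 : ℝ) ≤ L := by exact_mod_cast f4
  have hL0' : (0 : ℝ) < L := by linarith
  have g1 : r0 ≤ ⌊(L : ℝ) ^ κ⌋₊ := Nat.le_floor (by linarith)
  have g2 : (L : ℝ) ^ κ / 2 ≤ (⌊(L : ℝ) ^ κ⌋₊ : ℝ) := by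
    have := Nat.lt_floor_add_one ((L : ℝ) ^ κ)
    have h2 : (2 : ℝ) ≤ (L : ℝ) ^ κ := by
      have : (0 : ℝ) ≤ r0 := Nat.cast_nonneg r0
      linarith
    linarith
  refine ⟨g1, f2, le_trans ?_ f3⟩
  have hpos : 0 < (L : ℝ) ^ κ := Real.rpow_pos_of_pos hL0' _
  have g3 : (⌊(L : ℝ) ^ κ⌋₊ : ℝ) ^ (-C) ≤ ((L : ℝ) ^ κ / 2) ^ (-C) :=
    Real.rpow_le_rpow_of_nonpos (by linarith) g2 (by linarith)
  have g4 : ((L : ℝ) ^ κ / 2) ^ (-C) = 2 ^ C * ((L : ℝ) ^ (d + 1))⁻¹ := by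
    rw [Real.div_rpow hpos.le (by norm_num), ← Real.rpow_mul hL0'.le, mul_neg,
      Real.rpow_neg hL0'.le, Real.rpow_neg (by norm_num : (0 : ℝ) ≤ 2)]
    have : κ * C = ((d + 1 : ℕ) : ℝ) := by
      rw [hC]
      push_cast
      field_simp
    rw [this, Real.rpow_natCast]
    field_simp
  have g5 : (2 * (L : ℝ) + 1) ^ d ≤ (3 : ℝ) ^ d * (L : ℝ) ^ d := by
    rw [← mul_pow]
    exact pow_le_pow_left₀ (by linarith) (by linarith) d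
  calc (2 * (L : ℝ) + 1) ^ d * (⌊(L : ℝ) ^ κ⌋₊ : ℝ) ^ (-C)
      ≤ ((3 : ℝ) ^ d * (L : ℝ) ^ d) * (2 ^ C * ((L : ℝ) ^ (d + 1))⁻¹) := by
        refine mul_le_mul g5 (g3.trans g4.le) (Real.rpow_nonneg (Nat.cast_nonneg _) _) ?_
        positivity
    _ = 3 ^ d * 2 ^ C * (L : ℝ)⁻¹ := by
        rw [pow_succ]
        field_simp

end CEP_

theorem p_CEP (h1 : T_MLU) (h2 : T_TOP) (h3 : T_DPM) (h4 : T_TRP) (h5 : T_GLT) : T_CEP := by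
  intro d p0 p1 q hyp
  have hp : 0 < p1 := hyp.h0.trans hyp.h01
  obtain ⟨κ, c, B, L0, hκ, hκ1, hc, hM⟩ := h1 d p0 p1 q hyp
  obtain ⟨B', hT⟩ := h2 d p0 p1 q hyp
  obtain ⟨A', hA⟩ := hT 2 (by norm_num)
  refine ⟨κ, A' + 2, hκ, hκ1, by omega, ?_⟩
  intro η ε hη hε
  have hC : 0 < ((d : ℝ) + 1) / κ := by positivity
  obtain ⟨r0, hr0⟩ := hA (((d : ℝ) + 1) / κ) η hC hη
  obtain ⟨L1, hL1⟩ := CEP_.num (ε := ε) d r0 hκ hc hε rfl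
  refine ⟨max L0 L1, fun L hL => ?_⟩
  obtain ⟨g1, g2, g3⟩ := hL1 L (le_trans (le_max_right _ _) hL)
  refine ⟨max (L ^ B) (L + ⌊(L : ℝ) ^ κ⌋₊ ^ B'), fun N hN => ?_⟩
  have hN1 : L ^ B ≤ N := le_trans (le_max_left _ _) hN
  have hN2 : L + ⌊(L : ℝ) ^ κ⌋₊ ^ B' ≤ N := le_trans (le_max_right _ _) hN
  have u1 := CEP_.ub h3 h4 h5 (d := d) (L := L) (ξ := ⌊(L : ℝ) ^ κ⌋₊)
    (M := (A' + 2) * ⌊(L : ℝ) ^ κ⌋₊) (k := ⌊η * Real.log (⌊(L : ℝ) ^ κ⌋₊ : ℝ)⌋₊) (N := N)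
    (N' := N - L) (p := p1) (q := q) hp hyp.h1 hyp.hq (by omega)
  have u2 := hM L N (le_trans (le_max_left _ _) hL) hN1
  have u3 := hr0 ⌊(L : ℝ) ^ κ⌋₊ (N - L) g1 (by omega)
  have u4 : P0 (0 : Vx d) (N - L) p1 q (fun ω => ¬ Gl 0 (2 * ⌊(L : ℝ) ^ κ⌋₊) ⌊(L : ℝ) ^ κ⌋₊
      ((A' + 2) * ⌊(L : ℝ) ^ κ⌋₊) ⌊η * Real.log (⌊(L : ℝ) ^ κ⌋₊ : ℝ)⌋₊ ω) ≤
      P0 (0 : Vx d) (N - L) p1 q (fun ω => ¬ Gl 0 (2 * ⌊(L : ℝ) ^ κ⌋₊) ⌊(L : ℝ) ^ κ⌋₊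
      (A' * ⌊(L : ℝ) ^ κ⌋₊) ⌊η * Real.log (⌊(L : ℝ) ^ κ⌋₊ : ℝ)⌋₊ ω) := by
    unfold P0 fr fw
    refine Ex_mono hp hyp.h1 (by linarith [hyp.hq]) ?_
    intro ω _
    refine ind_mono fun hn hg => hn (CEP_.Gl_radius ?_ hg)
    exact Nat.mul_le_mul_right _ (by omega)
  have u5 : 0 ≤ (2 * (L : ℝ) + 1) ^ d := by positivity
  have u6 := mul_le_mul_of_nonneg_left (u4.trans u3) u5
  linarith

end Pool.Agent.FKS
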