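import Pool.Agent.FKS.TargetsE

set_option autoImplicit false

namespace Pool.Agent.FKS

open Filter MeasureTheory Pool.Agent.FKP
open Pool.Agent.FKT hiding ind

theorem p_CLF (h1 : T_CEP) (h2 : T_CEA) (h3 : T_CEG) (h4 : T_QGP) (h5 : T_TRP) (h6 : T_QTR) :
    T_CLF := by
  intro d p0 p1 q hH
  obtain ⟨κ, A, hκ0, hκ1, hA, hP⟩ := h1 d p0 p1 q hH
  refine ⟨33, by norm_num, fun δ ε a0 hδ0 hδ1 hε => ?_⟩
  obtain ⟨η, hη, L1, hL1⟩ := h2 κ δ ε A hκ0 hκ1 hδ0 hδ1 hε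
  obtain ⟨L0, hL0⟩ := hP η ε hη hε
  obtain ⟨L, hLa, hL1', hL0', hL2⟩ : ∃ L : ℕ, a0 ≤ L ∧ L1 ≤ L ∧ L0 ≤ L ∧ 1 ≤ L :=
    ⟨max (max a0 1) (max L0 L1), by omega, by omega, by omega, by omega⟩
  obtain ⟨N0, hN0⟩ := hL0 L hL0'
  obtain ⟨g1, g2, g3, g4⟩ := hL1 L hL1'
  set ξ : ℕ := ⌊(L : ℝ) ^ κ⌋₊ with hξ
  set k : ℕ := ⌊η * Real.log (ξ : ℝ)⌋₊ with hk
  have hξL : ξ ≤ L := by omega
  refine ⟨L, max N0 (33 * L), Qg L ξ (A * ξ) k, sg L ξ, hLa, le_max_right _ _, hL2,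
    fun x => (h4 d x L ξ (A * ξ) k g3 hξL).1, fun x => (h4 d x L ξ (A * ξ) k g3 hξL).2.1,
    fun x ω => (h4 d x L ξ (A * ξ) k g3 hξL).2.2 ω, fun x => ?_, fun x i ω hx hy => ?_⟩
  · rw [h5]
    have h7 : (fun ω : Finset (Ed d) => ¬ Qg L ξ (A * ξ) k x (ω.map (trE x).toEmbedding)) =
        fun ω => ¬ Qg L ξ (A * ξ) k 0 ω := by
      funext ω
      rw [h6]
    rw [h7]
    exact hN0 _ (le_max_left _ _)
  · refine (h3 d δ L ξ (A * ξ) k (L / (2 * (A * ξ) + 1)) hδ0 hδ1.le g1 ?_ g3 g2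
      (Nat.div_mul_le_self _ _) x i ω hx hy).trans g4
    exact Nat.mul_le_mul_right _ hA

end Pool.Agent.FKS
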