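import Pool.Agent.FKS.TargetsE

/-!
# Project FKS: the target T_CUE (the contour)
-/

set_option autoImplicit false

namespace Pool.Agent.FKS

open Filter MeasureTheory Pool.Agent.FKP
open Pool.Agent.FKT hiding ind

namespace CUE_

theorem cf_refl {d : ℕ} (ω : Finset (Ed d)) (x : Vx d) : Cf ω x x := Relation.EqvGen.refl x

theorem cf_symm {d : ℕ} {ω : Finset (Ed d)} {x y : Vx d} (h : Cf ω x y) : Cf ω y x :=
  Relation.EqvGen.symm _ _ h

theorem cf_trans {d : ℕ} {ω : Finset (Ed d)} {x y z : Vx d} (h : Cf ω x y) (h' : Cf ω y z) :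
    Cf ω x z := Relation.EqvGen.trans _ _ _ h h'

theorem cf_edge {d : ℕ} {ω : Finset (Ed d)} {e : Ed d} (he : e ∈ ω) : Cf ω e.1 (tgt e) :=
  Relation.EqvGen.rel _ _ (Or.inr ⟨e, he, rfl, rfl⟩)

theorem mem_bdy {n : ℕ} {J W : Finset (Vx n)} {e : Ed n} :
    e ∈ bdy J W ↔ e ∈ es J ∧ ¬ (e.1 ∈ W ↔ tgt e ∈ W) := by
  unfold bdy
  rw [Finset.mem_filter]

end CUE_

theorem p_CUE (h_SEP : FKP.T_SEP) (h_CUT : FKP.T_CUT) (h_NEA : FKP.T_NEA) : T_CUE := by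
  classical
  intro m O z0 z1 hOJ hz0 hz1 hno
  set J : Finset (Vx 2) := cbx m with hJ
  set W' : Finset (Vx 2) := J.filter fun z => Cf O z0 z with hW'
  have memW' : ∀ z, z ∈ W' ↔ z ∈ J ∧ Cf O z0 z := by
    intro z
    rw [hW', Finset.mem_filter]
  have h0 : z0 ∈ W' := (memW' z0).2 ⟨hz0, CUE_.cf_refl _ _⟩
  have h1 : z1 ∉ W' := by
    intro h
    exact hno ((memW' z1).1 h).2
  -- the edges of `O`
  have hOe : ∀ e ∈ O, (e.1 ∈ W' ↔ tgt e ∈ W') := by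
    intro e he
    have hJe := mem_es.1 (hOJ he)
    rw [memW', memW']
    constructor
    · intro h
      exact ⟨hJe.2, CUE_.cf_trans h.2 (CUE_.cf_edge he)⟩
    · intro h
      exact ⟨hJe.1, CUE_.cf_trans h.2 (CUE_.cf_symm (CUE_.cf_edge he))⟩
  have hcon0 : ∀ x y, Cf O x y → (x ∈ W' ↔ y ∈ W') ∧ (x ∈ W' → Cf (es W') x y) := by
    intro x y h
    induction h with
    | rel x y hxy =>
      rcases hxy with hxy | ⟨e, he, rfl, rfl⟩
      · exact hxy.elim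
      · have := hOe e he
        exact ⟨this, fun hx => CUE_.cf_edge (mem_es.2 ⟨hx, this.1 hx⟩)⟩
    | refl x => exact ⟨Iff.rfl, fun _ => CUE_.cf_refl _ _⟩
    | symm x y _ ih => exact ⟨ih.1.symm, fun hy => CUE_.cf_symm (ih.2 (ih.1.2 hy))⟩
    | trans x y z _ _ ih1 ih2 =>
      exact ⟨ih1.1.trans ih2.1, fun hx => CUE_.cf_trans (ih1.2 hx) (ih2.2 (ih1.1.1 hx))⟩
  have hcon : CnS W' := by
    intro x hx y hy
    exact CUE_.cf_trans (CUE_.cf_symm ((hcon0 z0 x ((memW' x).1 hx).2).2 h0))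
      ((hcon0 z0 y ((memW' y).1 hy).2).2 h0)
  obtain ⟨W, hsub, hWJ, hz1W, hWc, hJWc, hbd⟩ := h_SEP 2 (fun _ => -(m : ℤ)) (fun _ => (m : ℤ))
    W' z0 z1 (Finset.filter_subset _ _) hcon h0 (Finset.mem_sdiff.2 ⟨hz1, h1⟩)
  have hbd' : ∀ e ∈ bdy J W, (e.1 ∈ W → e.1 ∈ W') ∧ (tgt e ∈ W → tgt e ∈ W') := hbd
  set P : Finset (Ed 2) := bdy J W with hP
  have hPJ : P ⊆ es J := fun e he => (CUE_.mem_bdy.1 he).1
  have hdisj : Disjoint P O := by
    rw [Finset.disjoint_left]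
    intro e heP heO
    have h2 := (CUE_.mem_bdy.1 heP).2
    have h3 := hOe e heO
    have h4 := hbd' e heP
    apply h2
    constructor
    · intro h
      exact hsub (h3.1 (h4.1 h))
    · intro h
      exact hsub (h3.2 (h4.2 h))
  have hQc : Qc P := by
    intro e he e' he'
    exact h_CUT 2 (fun _ => -(m : ℤ)) (fun _ => (m : ℤ)) W hWJ hWc hJWc e he e' he'
  obtain ⟨e, he, z, hz, hpos⟩ := h_NEA m W z0 z1 hWJ (hsub h0) (Finset.mem_sdiff.2 ⟨hz1, hz1W⟩)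
  have hmem : ∀ z : Vx 2, (∀ i, |e.1 i - z i| ≤ (P.card : ℤ) ^ 2 + 1) → P ∈ ctE m P.card z := by
    intro z hz
    unfold ctE
    rw [Finset.mem_filter, Finset.mem_powerset]
    exact ⟨hPJ, rfl, hQc, e, he, hz⟩
  refine ⟨P.card, P, hdisj, ?_⟩
  rcases hz with rfl | rfl
  · exact Or.inl (hmem _ hpos)
  · exact Or.inr (hmem _ hpos)

end Pool.Agent.FKS
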