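import Pool.Agent.FKS.TargetsE
import Pool.Agent.FKT.P_BER

/-!
# Project FKS, part E: EBP, product bound for the Bernoulli measure
-/

set_option autoImplicit false

namespace Pool.Agent.FKS

open Filter MeasureTheory Pool.Agent.FKP
open Pool.Agent.FKT hiding ind

namespace EBP_

section bernoulli

variable {E : Type}

theorem mono {δ : ℝ} (h0 : 0 ≤ δ) (h1 : δ ≤ 1) (G : Finset E) {f g : Finset E → ℝ}
    (h : ∀ ω, ω ⊆ G → f ω ≤ g ω) : EB δ G f ≤ EB δ G g := by
  unfold EB
  exact Finset.sum_le_sum fun ω hω =>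
    mul_le_mul_of_nonneg_left (h ω (Finset.mem_powerset.mp hω)) (BER_.bw_nonneg h0 h1 G ω)

theorem smul (δ : ℝ) (G : Finset E) (a : ℝ) (f : Finset E → ℝ) :
    EB δ G (fun ω => a * f ω) = a * EB δ G f := by
  unfold EB
  rw [Finset.mul_sum]
  exact Finset.sum_congr rfl fun ω _ => by ring

variable [DecidableEq E]

/-- One factor splits off. -/
theorem step {ι : Type} [DecidableEq ι] {δ ε : ℝ} (h0 : 0 ≤ δ) (h1 : δ ≤ 1) (he : 0 ≤ ε)
    (J : Finset ι) (Gj : ι → Finset E) (B : ι → Finset E → Prop) : ∀ G : Finset E,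
    (∀ j ∈ J, Gj j ⊆ G) → (∀ j ∈ J, ∀ k ∈ J, j ≠ k → Disjoint (Gj j) (Gj k)) →
    (∀ j ∈ J, EB δ (Gj j) (fun ξ => ind (B j ξ)) ≤ ε) →
      EB δ G (fun ξ => ind (∀ j ∈ J, B j (ξ ∩ Gj j))) ≤ ε ^ J.card := by
  induction J using Finset.induction_on with
  | empty =>
    intro G _ _ _
    have : EB δ G (fun ξ => ind (∀ j ∈ (∅ : Finset ι), B j (ξ ∩ Gj j))) =
        EB δ G (fun _ => 1) := by
      refine BER_.congr fun α _ => ?_
      exact ind_true (by simp)
    rw [this, BER_.total]
    simp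
  | insert j J hj ih =>
    intro G hG hd hB
    have hjG : Gj j ⊆ G := hG j (Finset.mem_insert_self j J)
    have hdj : ∀ k ∈ J, Disjoint (Gj j) (Gj k) := fun k hk =>
      hd j (Finset.mem_insert_self j J) k (Finset.mem_insert_of_mem hk) fun h => hj (h ▸ hk)
    have e1 := BER_.split δ (Gj j) (G \ Gj j)
      (fun ξ => ind (∀ k ∈ insert j J, B k (ξ ∩ Gj k))) Finset.disjoint_sdiff
    rw [Finset.union_sdiff_of_subset hjG] at e1
    rw [e1]
    have hIH : EB δ (G \ Gj j) (fun γ => ind (∀ k ∈ J, B k (γ ∩ Gj k))) ≤ ε ^ J.card := by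
      refine ih (G \ Gj j) (fun k hk => ?_) (fun k hk l hl hkl => ?_) (fun k hk => ?_)
      · exact Finset.subset_sdiff.mpr ⟨hG k (Finset.mem_insert_of_mem hk), (hdj k hk).symm⟩
      · exact hd k (Finset.mem_insert_of_mem hk) l (Finset.mem_insert_of_mem hl) hkl
      · exact hB k (Finset.mem_insert_of_mem hk)
    have e2 : EB δ (Gj j) (fun α => EB δ (G \ Gj j)
        fun γ => ind (∀ k ∈ insert j J, B k ((α ∪ γ) ∩ Gj k))) ≤
        EB δ (Gj j) (fun α => ε ^ J.card * ind (B j α)) := by
      refine mono h0 h1 _ fun α hα => ?_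
      have e3 : EB δ (G \ Gj j) (fun γ => ind (∀ k ∈ insert j J, B k ((α ∪ γ) ∩ Gj k))) =
          EB δ (G \ Gj j) (fun γ => ind (B j α) * ind (∀ k ∈ J, B k (γ ∩ Gj k))) := by
        refine BER_.congr fun γ hγ => ?_
        rw [← ind_and]
        refine ind_congr ?_
        rw [Finset.forall_mem_insert]
        have a1 : (α ∪ γ) ∩ Gj j = α := by
          ext e
          rw [Finset.mem_inter, Finset.mem_union]
          constructor
          · rintro ⟨h | h, h'⟩
            · exact h
            · exact absurd h' (Finset.mem_sdiff.mp (hγ h)).2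
          · intro h
            exact ⟨Or.inl h, hα h⟩
        have a2 : ∀ k ∈ J, (α ∪ γ) ∩ Gj k = γ ∩ Gj k := by
          intro k hk
          ext e
          rw [Finset.mem_inter, Finset.mem_union, Finset.mem_inter]
          constructor
          · rintro ⟨h | h, h'⟩
            · exact absurd h' (Finset.disjoint_left.mp (hdj k hk) (hα h))
            · exact ⟨h, h'⟩
          · rintro ⟨h, h'⟩
            exact ⟨Or.inr h, h'⟩
        rw [a1]
        refine and_congr Iff.rfl (forall₂_congr fun k hk => ?_)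
        rw [a2 k hk]
      rw [e3, smul, mul_comm]
      exact mul_le_mul_of_nonneg_right hIH (ind_nonneg _)
    refine e2.trans ?_
    rw [smul, Finset.card_insert_of_notMem hj, pow_succ]
    exact mul_le_mul_of_nonneg_left (hB j (Finset.mem_insert_self j J)) (pow_nonneg he _)

end bernoulli

end EBP_

theorem p_EBP : T_EBP := by
  intro E ι _ _ δ ε h0 h1 he G J Gj B hG hd hB
  exact EBP_.step h0.le h1.le he J Gj B G hG hd hB

end Pool.Agent.FKS
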