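import Pool.Agent.FKS.TargetsE

/-!
# Project FKS (MP_552f07_pr): target EXB, exit from a ball
-/

set_option autoImplicit false

namespace Pool.Agent.FKS

open Filter MeasureTheory Pool.Agent.FKP
open Pool.Agent.FKT hiding ind

namespace EXB_

variable {d : ℕ}

/-- A point of the box which is not on the boundary is in the interior. -/
theorem inner {z v : Vx d} {ρ : ℕ} (hv : v ∈ bx z ρ) (hb : v ∉ bd z ρ) (i : Fin d) :
    z i - ρ < v i ∧ v i < z i + ρ := by
  have h1 := abs_le.1 (mem_bx.1 hv i)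
  have h2 : ¬ (v i = z i - ρ ∨ v i = z i + ρ) := by
    intro h
    apply hb
    unfold bd
    rw [Finset.mem_filter]
    exact ⟨hv, i, h⟩
  push Not at h2
  constructor
  · rcases lt_or_eq_of_le (show z i - ρ ≤ v i by linarith [h1.1]) with h | h
    · exact h
    · exact absurd h.symm h2.1
  · rcases lt_or_eq_of_le (show v i ≤ z i + ρ by linarith [h1.2]) with h | h
    · exact h
    · exact absurd h h2.2

/-- An edge starting in the interior ends in the box. -/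
theorem out {z : Vx d} {ρ : ℕ} {e : Ed d} (hv : e.1 ∈ bx z ρ) (hb : e.1 ∉ bd z ρ) :
    tgt e ∈ bx z ρ := by
  rw [mem_bx]
  intro i
  have h := inner hv hb i
  rw [tgt_apply, abs_le]
  split_ifs <;> constructor <;> linarith [h.1, h.2, Int.add_one_le_iff.2 h.2]

/-- An edge ending in the interior starts in the box. -/
theorem back {z : Vx d} {ρ : ℕ} {e : Ed d} (hv : tgt e ∈ bx z ρ) (hb : tgt e ∉ bd z ρ) :
    e.1 ∈ bx z ρ := by
  rw [mem_bx]
  intro i
  have h := inner hv hb i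
  rw [tgt_apply] at h
  rw [abs_le]
  split_ifs at h <;> constructor <;> omega

end EXB_

theorem p_EXB : T_EXB := by
  intro d ω z y y'' ρ hy hy'' hc
  by_contra hcon
  push Not at hcon
  have key : ∀ e : Ed d, e ∈ (ω : Set (Ed d)) →
      ((e.1 ∈ bx z ρ ∧ Cf (ω ∩ eb z ρ) y e.1) ↔
        (tgt e ∈ bx z ρ ∧ Cf (ω ∩ eb z ρ) y (tgt e))) := by
    intro e he
    constructor
    · rintro ⟨h1, h2⟩
      have h3 : tgt e ∈ bx z ρ := EXB_.out h1 fun h => hcon _ h h2
      have h4 : e ∈ ω ∩ eb z ρ :=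
        Finset.mem_inter.2 ⟨Finset.mem_coe.1 he, mem_es.2 ⟨h1, h3⟩⟩
      exact ⟨h3, Cn_trans h2 (Cn_edge (Finset.mem_coe.2 h4))⟩
    · rintro ⟨h1, h2⟩
      have h3 : e.1 ∈ bx z ρ := EXB_.back h1 fun h => hcon _ h h2
      have h4 : e ∈ ω ∩ eb z ρ :=
        Finset.mem_inter.2 ⟨Finset.mem_coe.1 he, mem_es.2 ⟨h3, h1⟩⟩
      exact ⟨h3, Cn_trans h2 (Cn_symm (Cn_edge (Finset.mem_coe.2 h4)))⟩
  exact hy'' ((Cn_inv (P := fun v => v ∈ bx z ρ ∧ Cf (ω ∩ eb z ρ) y v) key hc).1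
    ⟨hy, Cn_refl _ _⟩).1

end Pool.Agent.FKS
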