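import Pool.Agent.FKS.Main
import Pool.Agent.FKT.P_BER
import Pool.Agent.FKP.Lem

/-!
# Project FKS: GLU, gluing two clusters at many separated places
-/

set_option autoImplicit false

namespace Pool.Agent.FKS

open Filter MeasureTheory Pool.Agent.FKP
open Pool.Agent.FKT hiding ind

namespace GLU_

section bernoulli

variable {E : Type} [DecidableEq E]

/-- the probability that a given set is open -/
theorem EB_full (ε : ℝ) (T : Finset E) : EB ε T (fun α => ind (¬ T ⊆ α)) = 1 - ε ^ T.card := by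
  have h1 : EB ε T (fun α => ind (T ⊆ α)) = ε ^ T.card := by
    unfold EB
    rw [Finset.sum_eq_single T]
    · show bw ε T T * ind (T ⊆ T) = ε ^ T.card
      rw [ind_true (Finset.Subset.refl T)]
      unfold bw
      simp
    · intro b hb hne
      have : ¬ T ⊆ b := fun h => hne (Finset.Subset.antisymm (Finset.mem_powerset.mp hb) h)
      show bw ε T b * ind (T ⊆ b) = 0
      rw [ind_false this, mul_zero]
    · intro h
      exact absurd (Finset.mem_powerset.mpr (Finset.Subset.refl T)) h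
  have h2 := FKT.BER_.lin ε T 1 (-1) (fun _ => (1 : ℝ)) (fun α => ind (T ⊆ α))
  rw [h1, FKT.BER_.total] at h2
  have h3 : EB ε T (fun α => ind (¬ T ⊆ α)) =
      EB ε T (fun α => 1 * (1 : ℝ) + -1 * ind (T ⊆ α)) := by
    refine FKT.BER_.congr fun α _ => ?_
    rw [ind_not]
    ring
  rw [h3, h2]
  ring

/-- disjoint sets: none of them is open -/
theorem EB_none {ι : Type} [DecidableEq ι] {ε : ℝ} (h0 : 0 < ε) (h1 : ε ≤ 1) (k : ℕ)
    (Z : Finset ι) (T : ι → Finset E) : ∀ F : Finset E, (∀ z ∈ Z, T z ⊆ F) →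
    (∀ z ∈ Z, (T z).card ≤ k) → (∀ z ∈ Z, ∀ z' ∈ Z, z ≠ z' → Disjoint (T z) (T z')) →
    EB ε F (fun ξ => ind (∀ z ∈ Z, ¬ T z ⊆ ξ)) ≤ (1 - ε ^ k) ^ Z.card := by
  induction Z using Finset.induction_on with
  | empty =>
    intro F _ _ _
    have : EB ε F (fun ξ => ind (∀ z ∈ (∅ : Finset ι), ¬ T z ⊆ ξ)) = EB ε F (fun _ => 1) := by
      refine FKT.BER_.congr fun α _ => ?_
      exact ind_true (by simp)
    rw [this, FKT.BER_.total]
    simp
  | insert z Z hz ih =>
    intro F hF hk hd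
    have hzF : T z ⊆ F := hF z (Finset.mem_insert_self z Z)
    have hd' : ∀ z' ∈ Z, Disjoint (T z) (T z') := fun z' hz' =>
      hd z (Finset.mem_insert_self z Z) z' (Finset.mem_insert_of_mem hz') fun h => hz (h ▸ hz')
    have e1 := FKT.BER_.split ε (T z) (F \ T z)
      (fun ξ => ind (∀ z' ∈ insert z Z, ¬ T z' ⊆ ξ)) Finset.disjoint_sdiff
    rw [Finset.union_sdiff_of_subset hzF] at e1
    have e2 : EB ε (T z) (fun α => EB ε (F \ T z)
        fun γ => ind (∀ z' ∈ insert z Z, ¬ T z' ⊆ α ∪ γ)) =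
        EB ε (T z) (fun α => EB ε (F \ T z) (fun γ => ind (∀ z' ∈ Z, ¬ T z' ⊆ γ)) *
          ind (¬ T z ⊆ α) + 0 * (1 : ℝ)) := by
      refine FKT.BER_.congr fun α hα => ?_
      have e3 : EB ε (F \ T z) (fun γ => ind (∀ z' ∈ insert z Z, ¬ T z' ⊆ α ∪ γ)) =
          EB ε (F \ T z) (fun γ => ind (¬ T z ⊆ α) * ind (∀ z' ∈ Z, ¬ T z' ⊆ γ) +
            0 * (1 : ℝ)) := by
        refine FKT.BER_.congr fun γ hγ => ?_
        rw [← ind_and, zero_mul, add_zero]
        refine ind_congr ?_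
        rw [Finset.forall_mem_insert]
        refine and_congr (not_congr ⟨?_, ?_⟩) (forall₂_congr fun z' hz' => not_congr ⟨?_, ?_⟩)
        · intro h e he
          rcases Finset.mem_union.mp (h he) with h' | h'
          · exact h'
          · exact absurd he (Finset.mem_sdiff.mp (hγ h')).2
        · exact fun h => h.trans Finset.subset_union_left
        · intro h e he
          rcases Finset.mem_union.mp (h he) with h' | h'
          · exact absurd he (Finset.disjoint_left.mp (hd' z' hz') (hα h'))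
          · exact h'
        · exact fun h => h.trans Finset.subset_union_right
      rw [e3, FKT.BER_.lin ε (F \ T z) (ind (¬ T z ⊆ α)) 0
        (fun γ => ind (∀ z' ∈ Z, ¬ T z' ⊆ γ)) (fun _ => 1)]
      ring
    have e4 := FKT.BER_.lin ε (T z)
      (EB ε (F \ T z) (fun γ => ind (∀ z' ∈ Z, ¬ T z' ⊆ γ))) 0
      (fun α => ind (¬ T z ⊆ α)) (fun _ => 1)
    rw [e1, e2, e4, EB_full, Finset.card_insert_of_notMem hz, pow_succ, zero_mul, add_zero]
    have e5 := ih (F \ T z) (fun z' hz' e he => Finset.mem_sdiff.mpr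
      ⟨hF z' (Finset.mem_insert_of_mem hz') he,
        fun h => Finset.disjoint_left.mp (hd' z' hz') h he⟩)
      (fun z' hz' => hk z' (Finset.mem_insert_of_mem hz'))
      (fun a ha b hb => hd a (Finset.mem_insert_of_mem ha) b (Finset.mem_insert_of_mem hb))
    have e6 : ε ^ k ≤ ε ^ (T z).card :=
      pow_le_pow_of_le_one h0.le h1 (hk z (Finset.mem_insert_self z Z))
    have e7 : ε ^ (T z).card ≤ 1 := pow_le_one₀ h0.le h1
    have e8 : ε ^ k ≤ 1 := pow_le_one₀ h0.le h1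
    exact mul_le_mul e5 (by linarith) (by linarith) (pow_nonneg (by linarith) _)

end bernoulli

section lattice

variable {d : ℕ}

theorem mem_bx {x y : Vx d} {n : ℕ} : y ∈ bx x n ↔ ∀ i, x i - n ≤ y i ∧ y i ≤ x i + n := by
  unfold bx
  rw [Finset.mem_Icc]
  exact ⟨fun h i => ⟨h.1 i, h.2 i⟩, fun h => ⟨fun i => (h i).1, fun i => (h i).2⟩⟩

theorem mem_eb {x : Vx d} {e : Ed d} {n : ℕ} : e ∈ eb x n ↔ e.1 ∈ bx x n ∧ tgt e ∈ bx x n := by
  unfold eb
  simp

theorem bx_mono (x : Vx d) {m n : ℕ} (h : m ≤ n) : bx x m ⊆ bx x n := by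
  intro y hy
  rw [mem_bx] at hy ⊢
  intro i
  have := hy i
  have h' : (m : ℤ) ≤ n := by exact_mod_cast h
  exact ⟨by linarith [this.1], by linarith [this.2]⟩

theorem eb_mono (x : Vx d) {m n : ℕ} (h : m ≤ n) : eb x m ⊆ eb x n := by
  intro e he
  rw [mem_eb] at he ⊢
  exact ⟨bx_mono x h he.1, bx_mono x h he.2⟩

theorem eb_disj {z z' : Vx d} {M : ℕ} (h : Far (2 * M + 1) z z') :
    Disjoint (eb z M) (eb z' M) := by
  obtain ⟨i, hi⟩ := h
  rw [Finset.disjoint_left]
  intro e h1 h2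
  have a1 := (mem_bx.mp (mem_eb.mp h1).1) i
  have a2 := (mem_bx.mp (mem_eb.mp h2).1) i
  have : |z i - z' i| ≤ 2 * M := abs_le.mpr ⟨by linarith [a1.1, a1.2, a2.1, a2.2],
    by linarith [a1.1, a1.2, a2.1, a2.2]⟩
  push_cast at hi
  linarith

theorem Cf_mono {A B : Finset (Ed d)} (h : A ⊆ B) {x y : Vx d} (hc : Cf A x y) : Cf B x y :=
  Con_mono (fun _ _ h => h) (by exact_mod_cast h) hc

/-- connections in a box do not leave the box -/
theorem Cf_bx {z : Vx d} {ρ : ℕ} {ω : Finset (Ed d)} {a b : Vx d}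
    (h : Cf (ω ∩ eb z ρ) a b) : a ∈ bx z ρ ↔ b ∈ bx z ρ := by
  unfold Cf Cn FKT.Con at h
  induction h with
  | rel a b h =>
    rcases h with h | ⟨e, he, h1, h2⟩
    · exact h.elim
    · have he' := mem_eb.mp (Finset.mem_inter.mp (Finset.mem_coe.mp he)).2
      rw [← h1, ← h2]
      exact ⟨fun _ => he'.2, fun _ => he'.1⟩
  | refl a => exact Iff.rfl
  | symm a b _ ih => exact ih.symm
  | trans a b c _ _ ih1 ih2 => exact ih1.trans ih2

open Classical in
/-- the cluster of `y` in the box -/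
noncomputable def clb (z : Vx d) (ρ : ℕ) (ω : Finset (Ed d)) (y : Vx d) : Finset (Vx d) :=
  (bx z ρ).filter fun v => Cf (ω ∩ eb z ρ) y v

theorem mem_clb {z y v : Vx d} {ρ : ℕ} {ω : Finset (Ed d)} :
    v ∈ clb z ρ ω y ↔ v ∈ bx z ρ ∧ Cf (ω ∩ eb z ρ) y v := by
  classical
  unfold clb
  rw [Finset.mem_filter]

theorem clb_aux {z y : Vx d} {ρ : ℕ} {ω : Finset (Ed d)} {a b : Vx d}
    (h : Cf (ω ∩ eb z ρ) a b) : Cf (ω ∩ eb z ρ) y a → Cf (es (clb z ρ ω y)) a b := by
  have h' : Relation.EqvGen (Step Prod.fst tgt (no (Vx d)) ((ω ∩ eb z ρ : Finset (Ed d)) :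
    Set (Ed d))) a b := h
  clear h
  induction h' with
  | rel a b h =>
    intro hy
    rcases h with h | ⟨e, he, h1, h2⟩
    · exact h.elim
    · have he' := mem_eb.mp (Finset.mem_inter.mp (Finset.mem_coe.mp he)).2
      have hab : Cf (ω ∩ eb z ρ) a b := by
        rw [← h1, ← h2]
        exact Con_edge he
      have hee : e ∈ es (clb z ρ ω y) := by
        rw [mem_es, mem_clb, mem_clb]
        refine ⟨⟨he'.1, ?_⟩, he'.2, ?_⟩
        · rw [h1]
          exact hy
        · rw [h2]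
          exact Con_trans hy hab
      rw [← h1, ← h2]
      exact Con_edge (Finset.mem_coe.mpr hee)
  | refl a => exact fun _ => Con_refl _ a
  | symm a b h ih => exact fun hy => Con_symm (ih (Con_trans hy (Con_symm h)))
  | trans a b c h1 _ ih1 ih2 => exact fun hy => Con_trans (ih1 hy) (ih2 (Con_trans hy h1))

theorem clb_Lcd {z y y' : Vx d} {ρ r : ℕ} {ω : Finset (Ed d)} (hy : y ∈ bx z ρ)
    (h : Cf (ω ∩ eb z ρ) y y') (hf : Far r y y') : Lcd r (clb z ρ ω y) := by
  refine ⟨?_, y, mem_clb.mpr ⟨hy, Con_refl _ y⟩, y', mem_clb.mpr ⟨(Cf_bx h).mp hy, h⟩, hf⟩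
  intro a ha b hb
  rw [mem_clb] at ha hb
  exact clb_aux (Con_trans (Con_symm ha.2) hb.2) ha.2

end lattice

end GLU_

open GLU_ in
theorem p_GLU : T_GLU := by
  classical
  intro d ε ρ r M k F ω Z x0 x1 h0 h1 hρ hF hfar hGl hcl
  have key : ∀ z ∈ Z, ∃ T : Finset (Ed d), T ⊆ eb z M ∧ T.card ≤ k ∧
      ∀ ξ : Finset (Ed d), T ⊆ ξ → Cf ((ω ∪ ξ) ∩ F) x0 x1 := by
    intro z hz
    obtain ⟨y0, hy0, c0, y0', c0', f0⟩ := hcl z hz x0 (by simp)
    obtain ⟨y1, hy1, c1, y1', c1', f1⟩ := hcl z hz x1 (by simp)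
    obtain ⟨x, hx, y, hy, T, hT, hk, hc⟩ := hGl z hz (clb z ρ ω y0) (clb z ρ ω y1)
      (Finset.filter_subset _ _) (Finset.filter_subset _ _) (clb_Lcd hy0 c0' f0)
      (clb_Lcd hy1 c1' f1)
    refine ⟨T, hT, hk, fun ξ hξ => ?_⟩
    have m1 : ω ∩ F ⊆ (ω ∪ ξ) ∩ F :=
      Finset.inter_subset_inter_right Finset.subset_union_left
    have m2 : ω ∩ eb z ρ ⊆ (ω ∪ ξ) ∩ F :=
      Finset.inter_subset_inter Finset.subset_union_left ((eb_mono z hρ).trans (hF z hz))
    have m3 : (ω ∩ eb z M) ∪ T ⊆ (ω ∪ ξ) ∩ F := Finset.union_subset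
      (Finset.inter_subset_inter Finset.subset_union_left (hF z hz))
      (fun e he => Finset.mem_inter.mpr ⟨Finset.mem_union_right _ (hξ he), hF z hz (hT he)⟩)
    exact Con_trans (Cf_mono m1 c0) (Con_trans (Cf_mono m2 (mem_clb.mp hx).2)
      (Con_trans (Cf_mono m3 hc) (Con_trans (Con_symm (Cf_mono m2 (mem_clb.mp hy).2))
        (Con_symm (Cf_mono m1 c1)))))
  choose! T hT hk hc using key
  refine le_trans ?_ (EB_none h0 h1 k Z T F (fun z hz => (hT z hz).trans (hF z hz)) hk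
    (fun z hz z' hz' hne => ?_))
  · unfold EB
    refine Finset.sum_le_sum fun ξ _ => mul_le_mul_of_nonneg_left (ind_mono fun h z hz hTz => ?_)
      (FKT.BER_.bw_nonneg h0.le h1 F ξ)
    exact h (hc z hz ξ hTz)
  · exact Finset.disjoint_of_subset_left (hT z hz) (Finset.disjoint_of_subset_right (hT z' hz')
      (eb_disj (hfar z hz z' hz' hne)))

end Pool.Agent.FKS
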