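import Pool.Agent.FKS.Defs
import Pool.Agent.FKP.Lem

/-!
# Project FKS, part B: separated bad points

`sep_bad`: for increasing events `Q z`, local in the boxes `z + Λ_N`, of failure probability at
most `ε` for the free measures of these boxes, the probability that there are `n` bad points of
`Z`, pairwise at distance at least `2 N + 1`, is at most `(|Z| ε) ^ n`.
-/

set_option autoImplicit false

namespace Pool.Agent.FKS

open Filter MeasureTheory Pool.Agent.FKP
open Pool.Agent.FKT hiding ind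

namespace SepBad

variable {d : ℕ}

theorem mem_bx {x y : Vx d} {n : ℕ} : y ∈ bx x n ↔ ∀ i, x i - n ≤ y i ∧ y i ≤ x i + n := by
  unfold bx
  rw [Finset.mem_Icc, Pi.le_def, Pi.le_def]
  exact forall_and.symm

theorem bx_disj {x y : Vx d} {N : ℕ} (h : Far (2 * N + 1) x y) : Disjoint (bx x N) (bx y N) := by
  rw [Finset.disjoint_left]
  intro z hz hz'
  obtain ⟨i, hi⟩ := h
  rw [mem_bx] at hz hz'
  have a1 := hz i
  have a2 := hz' i
  push_cast at hi
  rcases le_abs.1 hi with h3 | h3 <;> linarith [a1.1, a1.2, a2.1, a2.2]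

theorem eb_disj {x y : Vx d} {N : ℕ} (h : Far (2 * N + 1) x y) : Disjoint (eb x N) (eb y N) := by
  have h0 := bx_disj h
  rw [Finset.disjoint_left] at h0 ⊢
  intro e he he'
  exact h0 (mem_es.1 (show e ∈ es (bx x N) from he)).1 (mem_es.1 (show e ∈ es (bx y N) from he')).1

theorem prod_ind {ι : Type} (A : Finset ι) (P : ι → Prop) :
    ∏ j ∈ A, ind (P j) = ind (∀ j ∈ A, P j) := by
  classical
  induction A using Finset.induction_on with
  | empty =>
    rw [Finset.prod_empty, ind_true]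
    intro j hj
    simp at hj
  | insert a A ha ih =>
    rw [Finset.prod_insert ha, ih, ← ind_and]
    apply ind_congr
    simp

/-- One family of separated points. -/
theorem one (h_SEQ : T_SEQ) {p q : ℝ} (hp : 0 < p) (hp1 : p < 1) (hq : 1 ≤ q)
    (S : Finset (Vx d)) (N n : ℕ) (Q : Vx d → Finset (Ed d) → Prop) (ε : ℝ) (hε : 0 ≤ ε)
    (y : Fin n → Vx d) (hy : ∀ i j, i ≠ j → Far (2 * N + 1) (y i) (y j))
    (hQ : ∀ i, Inc (Q (y i))) (hloc : ∀ i ω, Q (y i) ω ↔ Q (y i) (ω ∩ eb (y i) N))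
    (hS : ∀ i, bx (y i) N ⊆ S) (hP : ∀ i, P0 (y i) N p q (fun ω => ¬ Q (y i) ω) ≤ ε) :
    fr S p q (fun ω => ind (∀ i, ¬ Q (y i) ω)) ≤ ε ^ n := by
  have hq0 : 0 < q := by linarith
  set z : ℕ → Vx d := fun j => if h : j < n then y ⟨j, h⟩ else 0 with hz
  have hzy : ∀ j (h : j < n), z j = y ⟨j, h⟩ := fun j h => by simp [hz, h]
  have h1 := h_SEQ (Vx d) (Ed d) Prod.fst tgt (no (Vx d)) S (es S) p q hp hp1 hq n
    (fun j => bx (z j) N) (fun j => eb (z j) N)
    (fun j => (Finset.range j).biUnion fun i => eb (z i) N)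
    (fun j _ β => Q (z j) β) (1 - ε) (by linarith) (by
      intro j hj
      have hSj : bx (z j) N ⊆ S := by rw [hzy j hj]; exact hS _
      refine ⟨es_mono hSj, hSj, fun e he => mem_es.1 (show e ∈ es (bx (z j) N) from he), ?_, ?_,
        ?_⟩
      · rw [Finset.disjoint_biUnion_right]
        intro i hi
        rw [Finset.mem_range] at hi
        apply eb_disj
        rw [hzy j hj, hzy i (by omega)]
        apply hy
        intro h
        have := congrArg Fin.val h
        simp only at this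
        omega
      · intro e he
        rw [Finset.mem_biUnion]
        exact ⟨j, by simp, he⟩
      · apply Finset.biUnion_subset_biUnion_of_subset_left
        intro i hi
        rw [Finset.mem_range] at *
        omega) (by
      intro j hj ξ a b hab h
      rw [hzy j hj] at h ⊢
      exact hQ _ a b hab h) (by
      intro j hj ξ
      have h2 := hP ⟨j, hj⟩
      have h3 : P0 (y ⟨j, hj⟩) N p q (fun ω => ¬ Q (y ⟨j, hj⟩) ω) =
          1 - Ex Prod.fst tgt (no (Vx d)) (bx (y ⟨j, hj⟩) N) (eb (y ⟨j, hj⟩) N) p q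
            (fun β => ind (Q (y ⟨j, hj⟩) β)) := by
        unfold P0 fr fw
        rw [show (fun ω => ind (¬ Q (y ⟨j, hj⟩) ω)) = fun ω => 1 - ind (Q (y ⟨j, hj⟩) ω) from
          funext fun ω => ind_not _, Ex_sub, Ex_const hp hp1 hq0]
        rfl
      rw [h3] at h2
      rw [hzy j hj]
      linarith)
  have h2 : (1 : ℝ) - (1 - ε) = ε := by ring
  rw [h2] at h1
  refine le_trans (le_of_eq ?_) h1
  unfold fr fw
  refine Ex_congr fun ω _ => ?_
  rw [prod_ind]
  apply ind_congr
  constructor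
  · intro h j hj
    rw [Finset.mem_range] at hj
    have := h ⟨j, hj⟩
    rw [hloc] at this
    rw [hzy j hj]
    exact this
  · intro h i hi
    have := h i.val (Finset.mem_range.2 i.isLt)
    rw [hzy i.val i.isLt] at this
    exact this ((hloc i ω).1 hi)

end SepBad

open SepBad in
/-- Separated bad points. -/
theorem sep_bad (h_SEQ : T_SEQ) {d : ℕ} {p q : ℝ} (hp : 0 < p) (hp1 : p < 1) (hq : 1 ≤ q)
    (S Z : Finset (Vx d)) (N n : ℕ) (Q : Vx d → Finset (Ed d) → Prop) (ε : ℝ) (hε : 0 ≤ ε)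
    (hQ : ∀ z ∈ Z, Inc (Q z)) (hloc : ∀ z ∈ Z, ∀ ω, Q z ω ↔ Q z (ω ∩ eb z N))
    (hS : ∀ z ∈ Z, bx z N ⊆ S) (hP : ∀ z ∈ Z, P0 z N p q (fun ω => ¬ Q z ω) ≤ ε) :
    fr S p q (fun ω => ind (∃ y : Fin n → Vx d, (∀ i, y i ∈ Z) ∧
      (∀ i j, i ≠ j → Far (2 * N + 1) (y i) (y j)) ∧ ∀ i, ¬ Q (y i) ω)) ≤
      ((Z.card : ℝ) * ε) ^ n := by
  classical
  have hq0 : 0 < q := by linarith
  set A : Finset (Fin n → Vx d) := Fintype.piFinset fun _ : Fin n => Z with hA
  have hAc : (A.card : ℝ) = (Z.card : ℝ) ^ n := by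
    rw [hA, Fintype.card_piFinset]
    simp
  set ev : (Fin n → Vx d) → Finset (Ed d) → ℝ := fun y ω =>
    ind ((∀ i j, i ≠ j → Far (2 * N + 1) (y i) (y j)) ∧ ∀ i, ¬ Q (y i) ω) with hev
  calc fr S p q (fun ω => ind (∃ y : Fin n → Vx d, (∀ i, y i ∈ Z) ∧
        (∀ i j, i ≠ j → Far (2 * N + 1) (y i) (y j)) ∧ ∀ i, ¬ Q (y i) ω))
      ≤ fr S p q (fun ω => ∑ y ∈ A, ev y ω) := by
        unfold fr fw
        refine Ex_mono hp hp1 hq0 fun ω _ => ?_
        by_cases h : ∃ y : Fin n → Vx d, (∀ i, y i ∈ Z) ∧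
            (∀ i j, i ≠ j → Far (2 * N + 1) (y i) (y j)) ∧ ∀ i, ¬ Q (y i) ω
        · rw [ind_true h]
          obtain ⟨y, h1, h2, h3⟩ := h
          have hyA : y ∈ A := by rw [hA, Fintype.mem_piFinset]; exact h1
          calc (1 : ℝ) = ev y ω := by rw [hev]; exact (ind_true ⟨h2, h3⟩).symm
            _ ≤ ∑ y ∈ A, ev y ω :=
              Finset.single_le_sum (f := fun y => ev y ω) (fun y _ => ind_nonneg _) hyA
        · rw [ind_false h]
          exact Finset.sum_nonneg fun y _ => ind_nonneg _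
    _ = ∑ y ∈ A, fr S p q (ev y) := Ex_sum A ev
    _ ≤ ∑ y ∈ A, ε ^ n := by
        refine Finset.sum_le_sum fun y hy => ?_
        rw [hA, Fintype.mem_piFinset] at hy
        by_cases hf : ∀ i j, i ≠ j → Far (2 * N + 1) (y i) (y j)
        · have h1 := one h_SEQ hp hp1 hq S N n Q ε hε y hf (fun i => hQ _ (hy i))
            (fun i => hloc _ (hy i)) (fun i => hS _ (hy i)) (fun i => hP _ (hy i))
          refine le_trans (le_of_eq ?_) h1
          unfold fr fw
          refine Ex_congr fun ω _ => ?_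
          rw [hev]
          exact ind_congr ⟨fun h => h.2, fun h => ⟨hf, h⟩⟩
        · have h1 : fr S p q (ev y) = fr S p q fun _ => 0 := by
            unfold fr fw
            refine Ex_congr fun ω _ => ?_
            rw [hev]
            exact ind_false fun h => hf h.1
          rw [h1]
          unfold fr fw
          rw [Ex_const hp hp1 hq0]
          positivity
    _ = ((Z.card : ℝ) * ε) ^ n := by
        rw [Finset.sum_const, nsmul_eq_mul, hAc, mul_pow]

end Pool.Agent.FKS
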