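import Pool.Agent.FKS.TargetsE
import Pool.Agent.FKS.SepBad

/-!
# Project FKS: LKP, given `ω` all the links of `P` fail (MP_552f07_pr)
-/

set_option autoImplicit false

namespace Pool.Agent.FKS

open Filter MeasureTheory Pool.Agent.FKP
open Pool.Agent.FKT hiding ind

namespace LKP_

theorem card_bx {d : ℕ} (x : Vx d) (m : ℕ) : (bx x m).card = (2 * m + 1) ^ d := by
  unfold bx
  rw [Pi.card_Icc]
  have h : ∀ i ∈ (Finset.univ : Finset (Fin d)),
      (Finset.Icc (x i - (m : ℤ)) (x i + (m : ℤ))).card = 2 * m + 1 := by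
    intro i _
    rw [Int.card_Icc]
    omega
  rw [Finset.prod_congr rfl h, Finset.prod_const, Finset.card_univ, Fintype.card_fin]

theorem mem_bx {d : ℕ} {x v : Vx d} {m : ℕ} (h : ∀ i, |v i - x i| ≤ (m : ℤ)) : v ∈ bx x m := by
  rw [SepBad.mem_bx]
  intro i
  have h1 := abs_le.1 (h i)
  constructor <;> linarith [h1.1, h1.2]

/-- A maximal separated subset of a set of edges. -/
theorem sep (K : ℕ) (P : Finset (Ed 2)) : ∃ P' : Finset (Ed 2), P' ⊆ P ∧
    (∀ e ∈ P', ∀ e' ∈ P', e ≠ e' → ∃ i, (2 * K + 1 : ℤ) ≤ |e.1 i - e'.1 i|) ∧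
    P.card ≤ 2 * (4 * K + 1) ^ 2 * P'.card := by
  classical
  have hne : (P.powerset.filter fun D : Finset (Ed 2) => ∀ e ∈ D, ∀ e' ∈ D, e ≠ e' →
      ∃ i, (2 * K + 1 : ℤ) ≤ |e.1 i - e'.1 i|).Nonempty := by
    refine ⟨∅, ?_⟩
    rw [Finset.mem_filter, Finset.mem_powerset]
    exact ⟨Finset.empty_subset _, fun e he => absurd he (Finset.notMem_empty e)⟩
  obtain ⟨P', hP', hmax⟩ := Finset.exists_max_image _ (fun D : Finset (Ed 2) => D.card) hne
  rw [Finset.mem_filter, Finset.mem_powerset] at hP'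
  refine ⟨P', hP'.1, hP'.2, ?_⟩
  have hcov : P ⊆ P'.biUnion fun e' => (bx e'.1 (2 * K)) ×ˢ (Finset.univ : Finset (Fin 2)) := by
    intro e he
    rw [Finset.mem_biUnion]
    by_contra hcon
    push Not at hcon
    have hsep : ∀ e' ∈ P', ∃ i, (2 * K + 1 : ℤ) ≤ |e.1 i - e'.1 i| := by
      intro e' he'
      by_contra h
      push Not at h
      refine hcon e' he' ?_
      rw [Finset.mem_product]
      refine ⟨mem_bx fun i => ?_, Finset.mem_univ _⟩
      have h1 := h i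
      push_cast
      omega
    have heP : e ∉ P' := by
      intro h
      obtain ⟨i, hi⟩ := hsep e h
      rw [sub_self, abs_zero] at hi
      omega
    have hins : insert e P' ∈ P.powerset.filter fun D : Finset (Ed 2) => ∀ e ∈ D, ∀ e' ∈ D,
        e ≠ e' → ∃ i, (2 * K + 1 : ℤ) ≤ |e.1 i - e'.1 i| := by
      rw [Finset.mem_filter, Finset.mem_powerset]
      refine ⟨Finset.insert_subset he hP'.1, ?_⟩
      intro u hu v hv huv
      rw [Finset.mem_insert] at hu hv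
      rcases hu with rfl | hu
      · rcases hv with rfl | hv
        · exact absurd rfl huv
        · exact hsep v hv
      · rcases hv with rfl | hv
        · obtain ⟨i, hi⟩ := hsep u hu
          exact ⟨i, by rwa [abs_sub_comm]⟩
        · exact hP'.2 u hu v hv huv
    have h1 := hmax _ hins
    rw [Finset.card_insert_of_notMem heP] at h1
    omega
  calc P.card ≤ (P'.biUnion fun e' =>
        (bx e'.1 (2 * K)) ×ˢ (Finset.univ : Finset (Fin 2))).card := Finset.card_le_card hcov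
    _ ≤ ∑ e' ∈ P', ((bx e'.1 (2 * K)) ×ˢ (Finset.univ : Finset (Fin 2))).card :=
        Finset.card_biUnion_le
    _ = ∑ _e' ∈ P', 2 * (4 * K + 1) ^ 2 := by
        refine Finset.sum_congr rfl fun e' _ => ?_
        rw [Finset.card_product, card_bx, Finset.card_univ, Fintype.card_fin]
        ring
    _ = 2 * (4 * K + 1) ^ 2 * P'.card := by
        rw [Finset.sum_const, smul_eq_mul, mul_comm]

theorem bw_nonneg {E : Type} {p : ℝ} (h0 : 0 ≤ p) (h1 : p ≤ 1) (G ω : Finset E) :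
    0 ≤ bw p G ω := by
  unfold bw
  have : 0 ≤ 1 - p := by linarith
  positivity

theorem EB_mono {E : Type} {G : Finset E} {δ : ℝ} (h0 : 0 ≤ δ) (h1 : δ ≤ 1)
    {f g : Finset E → ℝ} (h : ∀ ω, ω ⊆ G → f ω ≤ g ω) : EB δ G f ≤ EB δ G g := by
  unfold EB
  exact Finset.sum_le_sum fun ω hω =>
    mul_le_mul_of_nonneg_left (h ω (Finset.mem_powerset.1 hω)) (bw_nonneg h0 h1 G ω)

theorem EB_nonneg {E : Type} {G : Finset E} {δ : ℝ} (h0 : 0 ≤ δ) (h1 : δ ≤ 1)
    {f : Finset E → ℝ} (h : ∀ ω, ω ⊆ G → 0 ≤ f ω) : 0 ≤ EB δ G f := by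
  unfold EB
  exact Finset.sum_nonneg fun ω hω =>
    mul_nonneg (bw_nonneg h0 h1 G ω) (h ω (Finset.mem_powerset.1 hω))

theorem EB_one {E : Type} (δ : ℝ) (G : Finset E) : EB δ G (fun _ => 1) = 1 := by
  unfold EB bw
  simp only [mul_one]
  rw [Finset.sum_pow_mul_eq_add_pow]
  simp

variable {k a : ℕ}

theorem cen_zero (z : Vx 2) : cen k a z ⟨0, by omega⟩ = a * z 0 := by
  unfold cen pos
  simp

theorem cen_one (z : Vx 2) : cen k a z ⟨1, by omega⟩ = a * z 1 := by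
  unfold cen pos
  simp

theorem cen_far (K : ℕ) (ha : 1 ≤ a) {z z' : Vx 2} (h : ∃ i, (2 * K + 1 : ℤ) ≤ |z i - z' i|) :
    Far (2 * (K * a) + 1) (cen k a z) (cen k a z') := by
  obtain ⟨i, hi⟩ := h
  have ha' : (1 : ℤ) ≤ a := by exact_mod_cast ha
  have key : ∀ j : Fin 2, (2 * K + 1 : ℤ) ≤ |z j - z' j| →
      (2 * (K * a) + 1 : ℤ) ≤ |(a : ℤ) * z j - a * z' j| := by
    intro j hj
    rw [← mul_sub, abs_mul, abs_of_nonneg (show (0 : ℤ) ≤ a by omega)]
    nlinarith [mul_le_mul_of_nonneg_left hj (show (0 : ℤ) ≤ a by omega)]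
  fin_cases i
  · refine ⟨⟨0, by omega⟩, ?_⟩
    rw [cen_zero, cen_zero]
    push_cast
    exact key 0 hi
  · refine ⟨⟨1, by omega⟩, ?_⟩
    rw [cen_one, cen_one]
    push_cast
    exact key 1 hi

theorem cen_tgt (e : Ed 2) : cen k a (tgt e) =
    cen k a e.1 + Pi.single (⟨e.2.val, by omega⟩ : Fin (k + 3)) (a : ℤ) := by
  obtain ⟨z, i⟩ := e
  funext l
  rw [Pi.add_apply]
  have hs : ∀ (j : Fin (k + 3)), (Pi.single j (a : ℤ) : Vx (k + 3)) l =
      if l.val = j.val then (a : ℤ) else 0 := by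
    intro j
    rw [Pi.single_apply]
    by_cases h : l = j
    · rw [if_pos h, if_pos (by rw [h])]
    · rw [if_neg h, if_neg (fun h' => h (Fin.ext h'))]
  rw [hs]
  have hc : ∀ w : Vx 2, cen k a w l =
      if l.val = 0 then (a : ℤ) * w 0 else if l.val = 1 then (a : ℤ) * w 1 else 0 := fun w => rfl
  rw [hc, hc]
  fin_cases i
  · have h0 : tgt ((z, 0) : Ed 2) 0 = z 0 + 1 := by simp [tgt]
    have h1 : tgt ((z, 0) : Ed 2) 1 = z 1 := by simp [tgt]
    show (if l.val = 0 then (a : ℤ) * tgt ((z, 0) : Ed 2) 0 else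
      if l.val = 1 then (a : ℤ) * tgt ((z, 0) : Ed 2) 1 else 0) =
      (if l.val = 0 then (a : ℤ) * z 0 else if l.val = 1 then (a : ℤ) * z 1 else 0) +
      if l.val = 0 then (a : ℤ) else 0
    rw [h0, h1]
    by_cases g0 : l.val = 0
    · rw [if_pos g0, if_pos g0, if_pos g0]; ring
    · rw [if_neg g0, if_neg g0, if_neg g0, add_zero]
  · have h0 : tgt ((z, 1) : Ed 2) 0 = z 0 := by simp [tgt]
    have h1 : tgt ((z, 1) : Ed 2) 1 = z 1 + 1 := by simp [tgt]
    show (if l.val = 0 then (a : ℤ) * tgt ((z, 1) : Ed 2) 0 else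
      if l.val = 1 then (a : ℤ) * tgt ((z, 1) : Ed 2) 1 else 0) =
      (if l.val = 0 then (a : ℤ) * z 0 else if l.val = 1 then (a : ℤ) * z 1 else 0) +
      if l.val = 1 then (a : ℤ) else 0
    rw [h0, h1]
    by_cases g0 : l.val = 0
    · rw [if_pos g0, if_pos g0, if_neg (by omega), add_zero]
    · by_cases g1 : l.val = 1
      · rw [if_neg g0, if_neg g0, if_pos g1, if_pos g1, if_pos g1]; ring
      · rw [if_neg g0, if_neg g0, if_neg g1, if_neg g1, if_neg g1, add_zero]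

end LKP_

open LKP_ in
theorem p_LKP (h_EBP : T_EBP) : T_LKP := by
  classical
  intro k K p q δ ε ε0 a N Q s hδ0 hδ1 hε0 hε01 hε hC m S hS ω P hP hG
  rcases P.eq_empty_or_nonempty with rfl | ⟨e0, he0⟩
  · have h1 : EB δ (es S) (fun ξ => ind (∀ e ∈ (∅ : Finset (Ed 2)), ¬ LkE k a s ω ξ e)) ≤
        EB δ (es S) fun _ => 1 := EB_mono hδ0.le hδ1.le fun ξ _ => ind_le_one _
    rw [EB_one] at h1
    simpa using h1
  have hlnk : ∀ e ∈ P, EB δ (eb (cen k a e.1) (K * a)) (fun ξ =>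
      ind (¬ Cf ((ω ∪ ξ) ∩ eb (cen k a e.1) (K * a)) (s (cen k a e.1) ω)
        (s (cen k a (tgt e)) ω))) ≤ ε := by
    intro e he
    have hg := hG e he
    unfold Ge at hg
    rw [cen_tgt] at hg ⊢
    exact hC.lnk (cen k a e.1) _ ω hg.1 hg.2
  have hε' : 0 ≤ ε :=
    (EB_nonneg hδ0.le hδ1.le fun ξ _ => ind_nonneg _).trans (hlnk e0 he0)
  obtain ⟨P', hP', hsep, hcard⟩ := sep K P
  have hsub : ∀ e ∈ P', eb (cen k a e.1) (K * a) ⊆ es S := by
    intro e he
    have hz : e.1 ∈ cbx m := (mem_es.1 (hP (hP' he))).1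
    refine es_mono (fun v hv => hS e.1 hz ?_)
    rw [SepBad.mem_bx] at hv ⊢
    have hN : ((K * a : ℕ) : ℤ) ≤ N := by exact_mod_cast hC.hN
    intro i
    have := hv i
    constructor <;> linarith [this.1, this.2]
  have h1 := h_EBP (Ed (k + 3)) (Ed 2) δ ε hδ0 hδ1 hε' (es S) P'
    (fun e => eb (cen k a e.1) (K * a))
    (fun e β => ¬ Cf ((ω ∪ β) ∩ eb (cen k a e.1) (K * a)) (s (cen k a e.1) ω)
      (s (cen k a (tgt e)) ω)) hsub (by
      intro e he e' he' hne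
      exact SepBad.eb_disj (cen_far K hC.ha (hsep e he e' he' hne)))
    (fun e he => hlnk e (hP' he))
  have h2 : EB δ (es S) (fun ξ => ind (∀ e ∈ P, ¬ LkE k a s ω ξ e)) ≤
      EB δ (es S) (fun ξ => ind (∀ e ∈ P', ¬ Cf ((ω ∪ (ξ ∩ eb (cen k a e.1) (K * a))) ∩
        eb (cen k a e.1) (K * a)) (s (cen k a e.1) ω) (s (cen k a (tgt e)) ω))) := by
    refine EB_mono hδ0.le hδ1.le fun ξ _ => ind_mono fun h e he hcf => ?_
    refine h e (hP' he) ?_
    unfold LkE
    unfold Cf Cn at hcf ⊢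
    refine Con_mono (fun _ _ h => h) ?_ hcf
    intro x hx
    rw [Finset.mem_coe, Finset.mem_inter, Finset.mem_union, Finset.mem_inter] at hx
    rw [Finset.mem_coe, Finset.mem_union]
    rcases hx.1 with hx | hx
    · exact Or.inl hx
    · exact Or.inr hx.1
  refine (h2.trans h1).trans ?_
  calc ε ^ P'.card ≤ (ε0 ^ (2 * (4 * K + 1) ^ 2)) ^ P'.card :=
        pow_le_pow_left₀ hε' hε _
    _ = ε0 ^ (2 * (4 * K + 1) ^ 2 * P'.card) := by rw [← pow_mul]
    _ ≤ ε0 ^ P.card := pow_le_pow_of_le_one hε0.le hε01 hcard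

end Pool.Agent.FKS
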