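import Pool.Agent.FKS.TargetsE
import Pool.Agent.FKS.P_LKP

/-!
# Project FKS: LKS, the sum over the contours, failed links (MP_552f07_pr)
-/

set_option autoImplicit false

namespace Pool.Agent.FKS

open Filter MeasureTheory Pool.Agent.FKP
open Pool.Agent.FKT hiding ind

namespace LKS_

/-- The polynomial factor against the exponential. -/
theorem num1 (j : ℕ) : (2 * ((j : ℝ) + 1) ^ 2 + 3) ^ 2 ≤ 25 * 8 ^ j := by
  induction j with
  | zero => norm_num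
  | succ j ih =>
    have h1 : (2 * (((j + 1 : ℕ) : ℝ) + 1) ^ 2 + 3) ^ 2 ≤ 8 * (2 * ((j : ℝ) + 1) ^ 2 + 3) ^ 2 := by
      have h2 : 8 * (2 * ((j : ℝ) + 1) ^ 2 + 3) ^ 2 - (2 * (((j + 1 : ℕ) : ℝ) + 1) ^ 2 + 3) ^ 2 =
          28 * (j : ℝ) ^ 4 + 96 * (j : ℝ) ^ 3 + 180 * (j : ℝ) ^ 2 + 144 * j + 79 := by
        push_cast
        ring
      have h3 : 0 ≤ 28 * (j : ℝ) ^ 4 + 96 * (j : ℝ) ^ 3 + 180 * (j : ℝ) ^ 2 + 144 * j + 79 := by
        positivity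
      linarith
    rw [pow_succ (8 : ℝ) j]
    linarith

theorem num2 (j : ℕ) :
    (2 * (2 * ((j : ℝ) + 1) ^ 2 + 3) ^ 2 * 2 ^ (8 * (j + 1))) *
      (2 ^ (j + 1) * (1 / 2) ^ (20 * (j + 1))) ≤ (1 / 32) * (1 / 256 : ℝ) ^ j := by
  have h1 := num1 j
  have h4 : (2 : ℝ) ^ (8 * (j + 1)) * 2 ^ (j + 1) * (1 / 2) ^ (20 * (j + 1)) =
      (1 / 2048) ^ (j + 1) := by
    rw [pow_mul, pow_mul, ← mul_pow, ← mul_pow]
    norm_num
  have h3 : (2 * (2 * ((j : ℝ) + 1) ^ 2 + 3) ^ 2 * 2 ^ (8 * (j + 1))) *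
      (2 ^ (j + 1) * (1 / 2) ^ (20 * (j + 1))) =
      2 * (2 * ((j : ℝ) + 1) ^ 2 + 3) ^ 2 * (1 / 2048) ^ (j + 1) := by
    rw [← h4]
    ring
  rw [h3]
  have h5 : 2 * (2 * ((j : ℝ) + 1) ^ 2 + 3) ^ 2 * (1 / 2048) ^ (j + 1) ≤
      2 * (25 * 8 ^ j) * (1 / 2048) ^ (j + 1) := by
    gcongr
  refine h5.trans ?_
  have h6 : 2 * (25 * (8 : ℝ) ^ j) * (1 / 2048) ^ (j + 1) = (50 / 2048) * (1 / 256) ^ j := by
    rw [pow_succ]
    have h7 : (8 : ℝ) ^ j * (1 / 2048) ^ j = (1 / 256) ^ j := by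
      rw [← mul_pow]
      norm_num
    rw [← h7]
    ring
  rw [h6]
  exact mul_le_mul_of_nonneg_right (by norm_num) (by positivity)

theorem num3 (N : ℕ) : ∑ j ∈ Finset.range N, (1 / 32 : ℝ) * (1 / 256) ^ j ≤ 1 / 16 := by
  rw [← Finset.mul_sum, geom_sum_eq (by norm_num)]
  have h1 : (0 : ℝ) ≤ (1 / 256) ^ N := by positivity
  have h2 : ((1 / 256 : ℝ) ^ N - 1) / (1 / 256 - 1) = (256 / 255) * (1 - (1 / 256) ^ N) := by
    field_simp
    ring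
  rw [h2]
  linarith

theorem EB_sum {E ι : Type} (δ : ℝ) (G : Finset E) (T : Finset ι) (f : ι → Finset E → ℝ) :
    EB δ G (fun ξ => ∑ t ∈ T, f t ξ) = ∑ t ∈ T, EB δ G (f t) := by
  unfold EB
  rw [Finset.sum_comm]
  refine Finset.sum_congr rfl fun ξ _ => ?_
  rw [Finset.mul_sum]

end LKS_

open Classical LKS_ LKP_ in
theorem p_LKS (h_LKP : T_LKP) (h_CCU : T_CCU) : T_LKS := by
  intro k K p q δ ε a N Q s hδ0 hδ1 hε hCel m S hS ω z
  set M := (es (cbx m)).card with hM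
  set D : ℕ → Finset (Ed 2) → Finset (Finset (Ed 2)) := fun j P =>
    P.powerset.filter fun P2 => j + 1 ≤ 2 * P2.card ∧ ∀ e ∈ P2, Ge k a Q ω e with hD
  have hdet : ∀ ξ : Finset (Ed (k + 3)), ind (∃ n : ℕ, ∃ P ∈ ctE m n z, ∃ P2 ⊆ P,
      n ≤ 2 * P2.card ∧ ∀ e ∈ P2, Ge k a Q ω e ∧ ¬ LkE k a s ω ξ e) ≤
      ∑ j ∈ Finset.range M, ∑ P ∈ ctE m (j + 1) z, ∑ P2 ∈ D j P,
        ind (∀ e ∈ P2, ¬ LkE k a s ω ξ e) := by
    intro ξ
    have h0 : ∀ (j : ℕ) (P : Finset (Ed 2)), 0 ≤ ∑ P2 ∈ D j P,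
        ind (∀ e ∈ P2, ¬ LkE k a s ω ξ e) := fun j P => Finset.sum_nonneg fun _ _ => ind_nonneg _
    have h0' : ∀ j : ℕ, 0 ≤ ∑ P ∈ ctE m (j + 1) z, ∑ P2 ∈ D j P,
        ind (∀ e ∈ P2, ¬ LkE k a s ω ξ e) := fun j => Finset.sum_nonneg fun P _ => h0 j P
    by_cases hc : ∃ n : ℕ, ∃ P ∈ ctE m n z, ∃ P2 ⊆ P, n ≤ 2 * P2.card ∧
        ∀ e ∈ P2, Ge k a Q ω e ∧ ¬ LkE k a s ω ξ e
    · rw [ind_true hc]
      obtain ⟨n, P, hP, P2, hP2, hn, hall⟩ := hc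
      have hP' := hP
      unfold ctE at hP'
      rw [Finset.mem_filter, Finset.mem_powerset] at hP'
      obtain ⟨hPs, hPn, -, e, he, -⟩ := hP'
      have hpos : 1 ≤ n := by
        rw [← hPn]
        exact Finset.card_pos.mpr ⟨e, he⟩
      have hle : n ≤ M := by
        rw [← hPn]
        exact Finset.card_le_card hPs
      obtain ⟨j, rfl⟩ : ∃ j, n = j + 1 := ⟨n - 1, by omega⟩
      have h1 : ind (∀ e ∈ P2, ¬ LkE k a s ω ξ e) = 1 := ind_true fun e he => (hall e he).2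
      have h2 : ind (∀ e ∈ P2, ¬ LkE k a s ω ξ e) ≤ ∑ P2 ∈ D j P,
          ind (∀ e ∈ P2, ¬ LkE k a s ω ξ e) :=
        Finset.single_le_sum (f := fun P2 : Finset (Ed 2) => ind (∀ e ∈ P2, ¬ LkE k a s ω ξ e))
          (fun _ _ => ind_nonneg _) (by
            rw [hD]
            exact Finset.mem_filter.mpr
              ⟨Finset.mem_powerset.mpr hP2, hn, fun e he => (hall e he).1⟩)
      have h3 : ∑ P2 ∈ D j P, ind (∀ e ∈ P2, ¬ LkE k a s ω ξ e) ≤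
          ∑ P ∈ ctE m (j + 1) z, ∑ P2 ∈ D j P, ind (∀ e ∈ P2, ¬ LkE k a s ω ξ e) :=
        Finset.single_le_sum (f := fun P => ∑ P2 ∈ D j P, ind (∀ e ∈ P2, ¬ LkE k a s ω ξ e))
          (fun P _ => h0 j P) hP
      have h4 : ∑ P ∈ ctE m (j + 1) z, ∑ P2 ∈ D j P, ind (∀ e ∈ P2, ¬ LkE k a s ω ξ e) ≤
          ∑ j ∈ Finset.range M, ∑ P ∈ ctE m (j + 1) z, ∑ P2 ∈ D j P,
            ind (∀ e ∈ P2, ¬ LkE k a s ω ξ e) :=
        Finset.single_le_sum (f := fun j => ∑ P ∈ ctE m (j + 1) z, ∑ P2 ∈ D j P,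
            ind (∀ e ∈ P2, ¬ LkE k a s ω ξ e))
          (fun j _ => h0' j) (Finset.mem_range.mpr (by omega))
      linarith
    · rw [show ind (∃ n : ℕ, ∃ P ∈ ctE m n z, ∃ P2 ⊆ P, n ≤ 2 * P2.card ∧
        ∀ e ∈ P2, Ge k a Q ω e ∧ ¬ LkE k a s ω ξ e) = 0 from ind_false hc]
      exact Finset.sum_nonneg fun j _ => h0' j
  refine (EB_mono hδ0.le hδ1.le fun ξ _ => hdet ξ).trans ?_
  rw [EB_sum]
  refine (Finset.sum_le_sum fun j _ => ?_).trans (num3 M)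
  rw [EB_sum]
  refine le_trans (Finset.sum_le_card_nsmul _ _ (2 ^ (j + 1) * (1 / 2) ^ (20 * (j + 1)))
    fun P hP => ?_) ?_
  · rw [EB_sum]
    have hP' := hP
    unfold ctE at hP'
    rw [Finset.mem_filter, Finset.mem_powerset] at hP'
    obtain ⟨hPs, hPn, -⟩ := hP'
    have h1 : ((D j P).card : ℝ) ≤ 2 ^ (j + 1) := by
      have h2 : (D j P).card ≤ P.powerset.card := Finset.card_filter_le _ _
      rw [Finset.card_powerset, hPn] at h2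
      exact_mod_cast h2
    refine le_trans (Finset.sum_le_card_nsmul _ _ ((1 / 2) ^ (20 * (j + 1)))
      fun P2 hP2 => ?_) ?_
    · rw [hD] at hP2
      obtain ⟨hP2s, hn, hge⟩ := Finset.mem_filter.mp hP2
      have hP2s' := Finset.mem_powerset.mp hP2s
      refine (h_LKP k K p q δ ε ((1 / 2) ^ 40) a N Q s hδ0 hδ1 (by positivity)
        (pow_le_one₀ (by norm_num) (by norm_num)) hε hCel m S hS ω P2 (hP2s'.trans hPs)
        hge).trans ?_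
      rw [← pow_mul]
      exact pow_le_pow_of_le_one (by norm_num) (by norm_num) (by omega)
    · rw [nsmul_eq_mul]
      exact mul_le_mul_of_nonneg_right h1 (by positivity)
  · rw [nsmul_eq_mul]
    have h1 := h_CCU m (j + 1) z
    push_cast at h1
    refine le_trans (mul_le_mul_of_nonneg_right h1 (by positivity)) (num2 j)

end Pool.Agent.FKS
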