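import Pool.Agent.FKS.TargetsE

/-!
# FKS: target P0M
-/

set_option autoImplicit false

namespace Pool.Agent.FKS

open Filter MeasureTheory Pool.Agent.FKP
open Pool.Agent.FKT hiding ind

theorem P0M_not {d : ℕ} (S : Finset (Vx d)) {p q : ℝ} (hp : 0 < p) (hp1 : p < 1) (hq : 0 < q)
    (Q : Finset (Ed d) → Prop) :
    fr S p q (fun ω => ind (¬ Q ω)) = 1 - fr S p q fun ω => ind (Q ω) := by
  unfold fr fw
  have h : (fun ω : Finset (Ed d) => ind (¬ Q ω)) = fun ω => (fun _ => (1 : ℝ)) ω -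
      (fun ω => ind (Q ω)) ω := by
    funext ω
    exact ind_not (Q ω)
  rw [h, Ex_sub, Ex_const hp hp1 hq]

/-- P0M. -/
theorem p_P0M (h_DPM : T_DPM) (h_HOL : FKP.T_HOL) : T_P0M := by
  classical
  intro d p p' q hp hpp hp1 hq S x N hS Q hQ
  have hp1' : p < 1 := lt_of_le_of_lt hpp hp1
  have hq0 : 0 < q := by linarith
  refine le_trans ?_ (h_DPM d S x N p q hp hp1' hq hS Q hQ)
  rw [P0M_not S (lt_of_lt_of_le hp hpp) hp1 hq0, P0M_not S hp hp1' hq0]
  have h := h_HOL (Vx d) (Ed d) Prod.fst tgt (no (Vx d)) (no (Vx d)) S (es S) p p' q hp hpp hp1 hq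
    (fun _ _ h => h) (fun e he => mem_es.1 he) (fun ω => ind (Q ω))
    (fun a b hab _ => ind_mono (hQ a b hab))
  have h' : fr S p q (fun ω => ind (Q ω)) ≤ fr S p' q fun ω => ind (Q ω) := by
    unfold fr fw
    convert h
  linarith

end Pool.Agent.FKS
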