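import Pool.Agent.FKS.TargetsE
import Pool.Agent.FKT.P_BER

/-!
# Project FKS: the Peierls argument with sprinkling (T_PEJ)
-/

set_option autoImplicit false

namespace Pool.Agent.FKS

open Filter MeasureTheory Pool.Agent.FKP
open Pool.Agent.FKT hiding ind

namespace PEJ_

theorem bw_nonneg {E : Type} {δ : ℝ} (h0 : 0 ≤ δ) (h1 : δ ≤ 1) (G ω : Finset E) :
    0 ≤ bw δ G ω := by
  unfold bw
  exact mul_nonneg (pow_nonneg h0 _) (pow_nonneg (by linarith) _)

theorem EB_mono {E : Type} {δ : ℝ} (h0 : 0 ≤ δ) (h1 : δ ≤ 1) (G : Finset E)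
    {f g : Finset E → ℝ} (h : ∀ ω, f ω ≤ g ω) : EB δ G f ≤ EB δ G g := by
  unfold EB
  exact Finset.sum_le_sum fun ω _ => mul_le_mul_of_nonneg_left (h ω) (bw_nonneg h0 h1 G ω)

theorem EB_add {E : Type} (δ : ℝ) (G : Finset E) (f g : Finset E → ℝ) :
    EB δ G (fun ω => f ω + g ω) = EB δ G f + EB δ G g := by
  unfold EB
  rw [← Finset.sum_add_distrib]
  exact Finset.sum_congr rfl fun ω _ => by ring

theorem EB_const {E : Type} [DecidableEq E] (δ : ℝ) (G : Finset E) (c : ℝ) :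
    EB δ G (fun _ => c) = c := by
  unfold EB bw
  rw [← Finset.sum_mul, Finset.sum_pow_mul_eq_add_pow]
  simp

theorem mem_ctE {m n : ℕ} {z : Vx 2} {P : Finset (Ed 2)} (h : P ∈ ctE m n z) : P.card = n := by
  classical
  unfold ctE at h
  exact (Finset.mem_filter.mp h).2.1

theorem ctE_sub {m n : ℕ} {z : Vx 2} {P : Finset (Ed 2)} (h : P ∈ ctE m n z) :
    P ⊆ es (cbx m) := by
  classical
  unfold ctE at h
  exact Finset.mem_powerset.mp (Finset.mem_filter.mp h).1

/-- A connection by open coarse edges connects the chosen vertices. -/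
theorem conn {k a : ℕ} {s : Vx (k + 3) → Finset (Ed (k + 3)) → Vx (k + 3)}
    {ω ξ : Finset (Ed (k + 3))} {O : Finset (Ed 2)} (hO : ∀ e ∈ O, LkE k a s ω ξ e) {z z' : Vx 2}
    (h : Cf O z z') : Cf (ω ∪ ξ) (s (cen k a z) ω) (s (cen k a z') ω) := by
  unfold Cf Cn FKT.Con at h
  induction h with
  | rel x y hxy =>
    rcases hxy with h | ⟨e, he, h1, h2⟩
    · exact h.elim
    · have := hO e he
      unfold LkE at this
      rw [h1, h2] at this
      exact this
  | refl x => exact Relation.EqvGen.refl _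
  | symm x y _ ih => exact Relation.EqvGen.symm _ _ ih
  | trans x y z _ _ ih1 ih2 => exact Relation.EqvGen.trans _ _ _ ih1 ih2

end PEJ_

theorem p_PEJ (h_CUE : T_CUE) (h_LKS : T_LKS) (h_BDS : T_BDS) : T_PEJ := by
  classical
  intro k K q p1 p2 hq hp1 hp12 hp2
  obtain ⟨ε0, hε0, hB⟩ := h_BDS k K q p1 p2 hq hp1 hp12 hp2
  refine ⟨min ε0 (((1 / 2 : ℝ) ^ 40) ^ (2 * (4 * K + 1) ^ 2)), lt_min hε0 (by positivity), ?_⟩
  intro δ ε a N Q s hδ0 hδ1 hε hcel m S hfit z0 hz0 z1 hz1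
  have hp2' : 0 < p2 := hp1.trans hp12
  have hq0 : 0 < q := by linarith
  -- the four events
  let A : Vx 2 → Finset (Ed (k + 3)) → Prop := fun z ω =>
    ∃ n : ℕ, ∃ P ∈ ctE m n z, ∃ P1 ⊆ P, n ≤ 2 * P1.card ∧ ∀ e ∈ P1, ¬ Ge k a Q ω e
  let B : Vx 2 → Finset (Ed (k + 3)) → Finset (Ed (k + 3)) → Prop := fun z ω ξ =>
    ∃ n : ℕ, ∃ P ∈ ctE m n z, ∃ P2 ⊆ P, n ≤ 2 * P2.card ∧
      ∀ e ∈ P2, Ge k a Q ω e ∧ ¬ LkE k a s ω ξ e
  have hA : ∀ z, fr S p2 q (fun ω => ind (A z ω)) ≤ 1 / 16 := fun z =>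
    hB δ ε a N Q s (hε.trans (min_le_left _ _)) hcel m S hfit z
  have hBB : ∀ z ω, EB δ (es S) (fun ξ => ind (B z ω ξ)) ≤ 1 / 16 := fun z ω =>
    h_LKS k K p1 q δ ε a N Q s hδ0 hδ1 (hε.trans (min_le_right _ _)) hcel m S hfit ω z
  have key : ∀ ω ξ, 1 - (ind (A z0 ω) + ind (A z1 ω) + (ind (B z0 ω ξ) + ind (B z1 ω ξ))) ≤
      ind (Cf (ω ∪ ξ) (s (cen k a z0) ω) (s (cen k a z1) ω)) := by
    intro ω ξ
    by_cases hc : Cf (ω ∪ ξ) (s (cen k a z0) ω) (s (cen k a z1) ω)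
    · rw [ind_true hc]
      have h1 := ind_nonneg (A z0 ω)
      have h2 := ind_nonneg (A z1 ω)
      have h3 := ind_nonneg (B z0 ω ξ)
      have h4 := ind_nonneg (B z1 ω ξ)
      linarith
    · rw [ind_false hc]
      set O : Finset (Ed 2) := (es (cbx m)).filter fun e => Ge k a Q ω e ∧ LkE k a s ω ξ e with hO
      have hno : ¬ Cf O z0 z1 := fun h =>
        hc (PEJ_.conn (fun e he => (Finset.mem_filter.mp he).2.2) h)
      obtain ⟨n, P, hd, hP⟩ := h_CUE m O z0 z1 (Finset.filter_subset _ _) hz0 hz1 hno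
      have hcard : P.card = n := by
        rcases hP with h | h
        · exact PEJ_.mem_ctE h
        · exact PEJ_.mem_ctE h
      have hPs : P ⊆ es (cbx m) := by
        rcases hP with h | h
        · exact PEJ_.ctE_sub h
        · exact PEJ_.ctE_sub h
      set P1 := P.filter fun e => ¬ Ge k a Q ω e with hP1
      set P2 := P.filter fun e => ¬ ¬ Ge k a Q ω e with hP2
      have hsum : P1.card + P2.card = n := by
        rw [← hcard]
        exact Finset.card_filter_add_card_filter_not _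
      have h1 : ∀ e ∈ P1, ¬ Ge k a Q ω e := fun e he => (Finset.mem_filter.mp he).2
      have h2 : ∀ e ∈ P2, Ge k a Q ω e ∧ ¬ LkE k a s ω ξ e := by
        intro e he
        have h3 := Finset.mem_filter.mp he
        have h4 : Ge k a Q ω e := not_not.mp h3.2
        refine ⟨h4, fun h5 => ?_⟩
        exact Finset.disjoint_left.mp hd h3.1 (Finset.mem_filter.mpr ⟨hPs h3.1, h4, h5⟩)
      have h3 : A z0 ω ∨ A z1 ω ∨ B z0 ω ξ ∨ B z1 ω ξ := by
        rcases Nat.lt_or_ge (2 * P1.card) n with h | h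
        · have h' : n ≤ 2 * P2.card := by omega
          rcases hP with g | g
          · exact Or.inr (Or.inr (Or.inl ⟨n, P, g, P2, Finset.filter_subset _ _, h', h2⟩))
          · exact Or.inr (Or.inr (Or.inr ⟨n, P, g, P2, Finset.filter_subset _ _, h', h2⟩))
        · rcases hP with g | g
          · exact Or.inl ⟨n, P, g, P1, Finset.filter_subset _ _, h, h1⟩
          · exact Or.inr (Or.inl ⟨n, P, g, P1, Finset.filter_subset _ _, h, h1⟩)
      have g1 := ind_nonneg (A z0 ω)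
      have g2 := ind_nonneg (A z1 ω)
      have g3 := ind_nonneg (B z0 ω ξ)
      have g4 := ind_nonneg (B z1 ω ξ)
      rcases h3 with h | h | h | h
      · rw [ind_true h]; linarith
      · rw [ind_true h]; linarith
      · rw [ind_true h]; linarith
      · rw [ind_true h]; linarith
  have hin : ∀ ω, 1 - (ind (A z0 ω) + ind (A z1 ω)) - 1 / 8 ≤ EB δ (es S) (fun ξ =>
      ind (Cf (ω ∪ ξ) (s (cen k a z0) ω) (s (cen k a z1) ω))) := by
    intro ω
    refine le_trans ?_ (PEJ_.EB_mono hδ0.le hδ1.le (es S) (key ω))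
    have e1 : EB δ (es S) (fun ξ => 1 - (ind (A z0 ω) + ind (A z1 ω) +
        (ind (B z0 ω ξ) + ind (B z1 ω ξ)))) =
        1 - (ind (A z0 ω) + ind (A z1 ω)) - (EB δ (es S) (fun ξ => ind (B z0 ω ξ)) +
          EB δ (es S) (fun ξ => ind (B z1 ω ξ))) := by
      have e2 : (fun ξ => 1 - (ind (A z0 ω) + ind (A z1 ω) +
        (ind (B z0 ω ξ) + ind (B z1 ω ξ)))) = fun ξ => (1 - (ind (A z0 ω) + ind (A z1 ω))) +
          (-(ind (B z0 ω ξ)) + -(ind (B z1 ω ξ))) := by
        funext ξ; ring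
      have e3 : ∀ f : Finset (Ed (k + 3)) → ℝ, EB δ (es S) (fun ξ => -(f ξ)) =
          -EB δ (es S) f := by
        intro f
        unfold EB
        rw [← Finset.sum_neg_distrib]
        exact Finset.sum_congr rfl fun ω _ => by ring
      rw [e2, PEJ_.EB_add, PEJ_.EB_add, PEJ_.EB_const, e3, e3]
      ring
    rw [e1]
    have h1 := hBB z0 ω
    have h2 := hBB z1 ω
    linarith
  unfold fr fw at hA ⊢
  refine le_trans ?_ (Ex_mono hp2' hp2 hq0 fun ω _ => hin ω)
  rw [Ex_sub, Ex_sub, Ex_add, Ex_const hp2' hp2 hq0, Ex_const hp2' hp2 hq0]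
  have h1 := hA z0
  have h2 := hA z1
  linarith

end Pool.Agent.FKS
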