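import Pool.Agent.FKS.P_THI

/-!
# Project FKS: the target T_PIF (product inequality for increasing events with disjoint supports)
-/

set_option autoImplicit false

namespace Pool.Agent.FKS

open Pool.Agent.FKP
open Pool.Agent.FKT hiding ind

theorem lg_log {p : ℝ} (hp : 0 < p) (hp1 : p < 1) : lg (Real.log (xo p)) = p := by
  unfold lg
  rw [Real.exp_log (xo_pos hp hp1)]
  unfold xo
  have : (1 - p : ℝ) ≠ 0 := by linarith
  field_simp
  ring

/-- The distance to a decreasing event is increasing. -/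
theorem dist_mono {E : Type} [DecidableEq E] {D : Finset E → Prop}
    (hD : ∀ a b : Finset E, a ⊆ b → D b → D a) (h0 : D ∅) (a b : Finset E) (hab : a ⊆ b) :
    (a.card : ℝ) - (mxs D a : ℝ) ≤ (b.card : ℝ) - (mxs D b : ℝ) := by
  obtain ⟨c, hc, hDc, hcc⟩ := exists_mxs h0 b
  have h1 : (a ∩ c).card ≤ mxs D a :=
    le_mxs Finset.inter_subset_left (hD _ _ Finset.inter_subset_right hDc)
  have h2 : a.card + c.card = (a ∪ c).card + (a ∩ c).card :=
    (Finset.card_union_add_card_inter a c).symm
  have h3 : (a ∪ c).card ≤ b.card := Finset.card_le_card (Finset.union_subset hab hc)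
  have h4 : a.card + mxs D b ≤ b.card + mxs D a := by omega
  have h5 : (a.card : ℝ) + (mxs D b : ℝ) ≤ (b.card : ℝ) + (mxs D a : ℝ) := by exact_mod_cast h4
  linarith

theorem p_PIF (h_ADD : FKT.T_ADD) (h_BER : FKT.T_BER) (h_FKG : FKT.T_FKG) (h_LGD : T_LGD)
    (h_HOL : T_HOL) : T_PIF := by
  intro p1 p2 q hp hpp hp1 hq
  classical
  -- the middle parameter
  obtain ⟨pm, hpm1, hpm2⟩ := exists_between hpp
  have hpm0 : 0 < pm := hp.trans hpm1
  have hpml : pm < 1 := hpm2.trans hp1
  have hq0 : 0 < q := by linarith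
  obtain ⟨he0, he1, he⟩ := thc_spec hp hpm1 hpml
  set ε := thc p1 pm with hε
  have hlogε : 0 < Real.log (1 / ε) := by
    rw [one_div, Real.log_inv]
    have := Real.log_neg he0 he1
    linarith
  have hp20 : 0 < p2 := hp.trans hpp
  set la := Real.log (xo pm) with hla
  set lb := Real.log (xo p2) with hlb
  have hlab : la < lb := Real.log_lt_log (xo_pos hpm0 hpml) (xo_lt hpm2 hp1)
  refine ⟨(lb - la) / Real.log (1 / ε), div_pos (by linarith) hlogε, ?_⟩
  intro V E _ s t R U G hG ι I F Q hInc hloc hdisj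
  by_cases h0 : ∀ i ∈ I, ¬ Q i ∅
  swap
  · push Not at h0
    obtain ⟨i, hi, hQ⟩ := h0
    have h1 : Ex s t R U G p2 q (fun ω => ind (∀ i ∈ I, ¬ Q i ω)) =
        Ex s t R U G p2 q fun _ => 0 := by
      apply Ex_congr
      intro ω _
      apply ind_false
      intro h
      exact h i hi (hInc i hi ∅ ω (Finset.empty_subset ω) hQ)
    rw [h1, Ex_const hp20 hp1 hq0]
    exact Finset.prod_nonneg fun i _ => Real.rpow_nonneg
      (Ex_nonneg hp (hpp.trans hp1) hq0 fun ω _ => ind_nonneg _) _
  -- the event and the distances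
  set D : Finset E → Prop := fun ω => ∀ i ∈ I, ¬ Q i ω with hDdef
  have hD : ∀ a b : Finset E, a ⊆ b → D b → D a := by
    intro a b hab hb i hi hQ
    exact hb i hi (hInc i hi a b hab hQ)
  have hDi : ∀ i ∈ I, ∀ a b : Finset E, a ⊆ b → ¬ Q i b → ¬ Q i a := by
    intro i hi a b hab hb hQ
    exact hb (hInc i hi a b hab hQ)
  set h : ι → Finset E → ℝ := fun i ω => (ω.card : ℝ) - (mxs (fun a => ¬ Q i a) ω : ℝ) with hh
  set N : Finset E → ℝ := fun ω => ∑ i ∈ I, h i ω with hN
  have hNspec : ∀ ω a : Finset E, ω ⊆ G → a ⊆ ω → D a → N ω + a.card ≤ ω.card := by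
    intro ω a _ haω hDa
    have k1 : ∀ i ∈ I, h i ω ≤ (((ω \ a) ∩ F i).card : ℝ) := by
      intro i hi
      have k2 : ¬ Q i (ω \ ((ω \ a) ∩ F i)) := by
        intro hQ
        rw [hloc i hi] at hQ
        apply hDa i hi
        refine hInc i hi _ _ ?_ hQ
        intro x hx
        simp only [Finset.mem_inter, Finset.mem_sdiff, not_and] at hx
        obtain ⟨⟨hxω, hx1⟩, hxF⟩ := hx
        by_contra hxa
        exact hx1 ⟨hxω, hxa⟩ hxF
      have k3 := le_mxs (D := fun a => ¬ Q i a) (a := ω \ ((ω \ a) ∩ F i)) (ω := ω)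
        Finset.sdiff_subset k2
      have k4 : ((ω \ a) ∩ F i) ⊆ ω := Finset.inter_subset_left.trans Finset.sdiff_subset
      rw [Finset.card_sdiff_of_subset k4] at k3
      have k5 := Finset.card_le_card k4
      have k6 : ω.card ≤ mxs (fun a => ¬ Q i a) ω + ((ω \ a) ∩ F i).card := by omega
      have k7 : (ω.card : ℝ) ≤ (mxs (fun a => ¬ Q i a) ω : ℝ) + (((ω \ a) ∩ F i).card : ℝ) := by
        exact_mod_cast k6
      simp only [hh]
      linarith
    have k8 : ∑ i ∈ I, ((ω \ a) ∩ F i).card ≤ (ω \ a).card := by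
      rw [← Finset.card_biUnion]
      · apply Finset.card_le_card
        intro x hx
        rw [Finset.mem_biUnion] at hx
        obtain ⟨i, _, hx⟩ := hx
        exact (Finset.mem_inter.mp hx).1
      · intro i hi j hj hij
        exact Finset.disjoint_of_subset_left Finset.inter_subset_right
          (Finset.disjoint_of_subset_right Finset.inter_subset_right (hdisj i hi j hj hij))
    have k9 : N ω ≤ ((ω \ a).card : ℝ) := by
      calc N ω ≤ ∑ i ∈ I, (((ω \ a) ∩ F i).card : ℝ) := Finset.sum_le_sum k1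
        _ = ((∑ i ∈ I, ((ω \ a) ∩ F i).card : ℕ) : ℝ) := by push_cast; rfl
        _ ≤ _ := by exact_mod_cast k8
    have k10 := Finset.card_sdiff_of_subset haω
    have k11 := Finset.card_le_card haω
    have k12 : ((ω \ a).card : ℝ) + a.card = ω.card := by
      have : (ω \ a).card + a.card = ω.card := by omega
      exact_mod_cast this
    linarith
  -- the failure probabilities
  set π : ι → ℝ := fun i => Ex s t R U G p1 q fun ω => ind (¬ Q i ω) with hπ
  have hπ0 : ∀ i ∈ I, 0 < π i := by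
    intro i hi
    exact Ex_pos hp (hpp.trans hp1) hq0 (fun ω _ => ind_nonneg _) (Finset.empty_subset G)
      (by rw [ind_true (h0 i hi)]; exact one_pos)
  set M : ℝ := ∑ i ∈ I, Real.log (1 / π i) / Real.log (1 / ε) with hM
  have hMle : ∀ l, la ≤ l → l ≤ lb → M ≤ Ex s t R U G (lg l) q N := by
    intro l h1 h2
    have e1 : Ex s t R U G (lg l) q N = ∑ i ∈ I, Ex s t R U G (lg l) q (h i) := by
      rw [← Ex_sum]
    rw [e1]
    apply Finset.sum_le_sum
    intro i hi
    have k1 := thn_dist s t R U G h_ADD h_BER hp hpm1 hpml hq hG he0 he1 he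
      (fun a => ¬ Q i a) (hDi i hi) (h0 i hi)
    have k2 : Real.log (1 / π i) / Real.log (1 / ε) ≤ Ex s t R U G pm q (h i) := by
      rw [div_le_iff₀ hlogε, mul_comm]
      exact k1
    have hlg1 : lg l < 1 := by
      unfold lg
      have h := Real.exp_pos l
      rw [div_lt_one (by linarith)]
      linarith
    have hlgm : pm ≤ lg l := by
      rw [← lg_log hpm0 hpml, ← hla]
      unfold lg
      rw [div_le_div_iff₀ (by positivity) (by positivity)]
      have := Real.exp_le_exp.mpr h1
      nlinarith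
    have k3 := h_HOL V E s t R R U G pm (lg l) q hpm0 hlgm hlg1 hq (fun _ _ h => h) hG (h i)
      (fun a b hab _ => dist_mono (hDi i hi) (h0 i hi) a b hab)
    exact k2.trans k3
  have hfin := glmI s t R U G h_FKG h_LGD hq hG D hD h0 N hNspec M la lb hlab.le hMle
  have e2 : lg lb = p2 := lg_log hp20 hp1
  have e3 : lg la = pm := lg_log hpm0 hpml
  rw [e2, e3] at hfin
  have h1 : Ex s t R U G pm q (fun ω => ind (D ω)) ≤ 1 :=
    Ex_le_one hpm0 hpml hq0 fun ω _ => ind_le_one _
  have h2 : Ex s t R U G p2 q (fun ω => ind (D ω)) ≤ Real.exp (-(M * (lb - la))) := by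
    refine hfin.trans ?_
    have := mul_le_mul_of_nonneg_left h1 (Real.exp_pos (-(M * (lb - la)))).le
    rwa [mul_one] at this
  refine h2.trans (le_of_eq ?_)
  have e4 : -(M * (lb - la)) =
      ∑ i ∈ I, Real.log (π i) * ((lb - la) / Real.log (1 / ε)) := by
    rw [hM, Finset.sum_mul, ← Finset.sum_neg_distrib]
    apply Finset.sum_congr rfl
    intro i _
    rw [one_div (π i), Real.log_inv]
    ring
  rw [e4, Real.exp_sum]
  apply Finset.prod_congr rfl
  intro i hi
  rw [Real.rpow_def_of_pos (hπ0 i hi)]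

end Pool.Agent.FKS
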