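import Pool.Agent.FKS.TargetsE
import Pool.Agent.FKS.Step

/-!
# Project FKS, part E: elementary properties of the good event (target QGP)
-/

set_option autoImplicit false

namespace Pool.Agent.FKS

open Filter MeasureTheory Pool.Agent.FKP
open Pool.Agent.FKT hiding ind

namespace QGP_

variable {d : ℕ}

theorem eb_sub {u v : Vx d} {m n k : ℕ} (hv : v ∈ bx u k) (h : k + m ≤ n) :
    eb v m ⊆ eb u n := FKS.es_mono (bx_sub hv h)

theorem self_mem (x : Vx d) (n : ℕ) : x ∈ bx x n := by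
  rw [mem_bx]
  intro i
  simp

theorem gnt_mono {x : Vx d} {L ξ : ℕ} {a b : Finset (Ed d)}
    (h : a ∩ eb x (32 * L) ⊆ b) (hg : Gnt x L ξ a) : Gnt x L ξ b := by
  obtain ⟨x0, h0⟩ := hg
  refine ⟨x0, fun y hy => ?_⟩
  obtain ⟨z, hz, hc⟩ := h0 y hy
  refine ⟨z, hz, Cn_mono ?_ hc⟩
  intro e he
  rw [Finset.mem_coe] at he ⊢
  exact Finset.mem_inter.2 ⟨h he, (Finset.mem_inter.1 he).2⟩

end QGP_

open QGP_

theorem p_QGP : T_QGP := by
  intro d x L ξ M k hM hξ
  have hinc : Inc (Qg L ξ M k x) := by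
    intro a b hab h
    refine ⟨gnt_mono (Finset.inter_subset_left.trans hab) h.1, fun y hy => ?_⟩
    exact Gl_inc y _ _ _ _ a b hab (h.2 y hy)
  refine ⟨hinc, fun ω => ⟨fun h => ⟨?_, fun y hy => ?_⟩, fun h => ?_⟩, fun ω => ?_⟩
  · refine gnt_mono ?_ h.1
    exact Finset.inter_subset_inter_left (eb_sub (k := 0) (self_mem x 0) (by omega))
  · refine Gl_mono ?_ le_rfl (h.2 y hy)
    exact Finset.inter_subset_inter_left (eb_sub hy (by omega))
  · exact hinc _ _ Finset.inter_subset_left h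
  · unfold sg
    split_ifs with h
    · obtain ⟨z, hz, hc⟩ := h.choose_spec x (self_mem x L)
      have h1 : h.choose ∈ bx x (32 * L) ↔ z ∈ bx x (32 * L) := by
        refine Cn_inv (P := fun v => v ∈ bx x (32 * L)) (fun e he => ?_) hc
        have h2 := (Finset.mem_inter.1 (Finset.mem_coe.1 he)).2
        have h3 := FKS.mem_es.1 h2
        exact ⟨fun _ => h3.2, fun _ => h3.1⟩
      have h4 : z ∈ bx x (32 * L) := bx_sub (k := 0) (self_mem x 0) (by omega) hz
      exact bx_sub (k := 0) (self_mem x 0) (by omega) (h1.2 h4)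
    · exact self_mem x _

end Pool.Agent.FKS
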