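import Pool.Agent.FKS.Main
import Pool.Agent.FKP.Lem

/-!
# Project FKS, part D (Step 5 of row 2495): merging of the boundary clusters

`ω` is a configuration in a finite edge set containing `eb 0 L`. The tiles are the boxes
`til σ a` of side `2 σ + 1`. Only the clusters (in `eb 0 L`) of the boundary points `z ∈ bd 0 L`
are used. `Cov L σ M m ω`: at most `m` of these clusters are enough to meet every tile
`a ∈ bx 0 M`; it is an increasing property of `ω`. `Glu`: near every tile any two boundary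
clusters can be joined by opening at most `Ψ` edges. One merging step: if `Cov L σ M m ω` and
`Glu` hold, and `η` is an independent Bernoulli configuration, then `Cov L σ M' (m/(D+1)+1)`
holds for `ω ∪ η`, except with a small probability.

Overview. T_SLI, T_TWO: a set of tiles which meets many slices and has few places is unique (this
replaces an isoperimetric inequality). T_EXT: a boundary cluster which meets the inner box meets
many slices. T_SPD, T_BEP, T_ISL: a set of clusters with many places is glued to its complement.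
T_CNB: number of small subsets. T_DET: the counting step. T_STM: one step. T_ITM: iteration.
T_INM: the start. T_NMM: the numbers. T_TRP, T_GLT, T_BFT, T_DPM: translations and domain
monotonicity. T_GLI: `Glu` from the gluing events `Gl`. T_STA: the start for the measures `P0`.
T_GNC: the giant from `Cov`. T_NUD: the numbers of the last step. T_MLM: the assembly, `T_MLU`.
-/

set_option autoImplicit false

namespace Pool.Agent.FKS

open Filter MeasureTheory Pool.Agent.FKP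
open Pool.Agent.FKT hiding ind

section defs

variable {d : ℕ}

/-- The centre of the tile `a`; the tiles have side `2 σ + 1`. -/
def ctr (σ : ℕ) (a : Vx d) : Vx d := fun i => (2 * (σ : ℤ) + 1) * a i

/-- The tile `a`. -/
noncomputable def til (σ : ℕ) (a : Vx d) : Finset (Vx d) := bx (ctr σ a) σ

/-- The tiles `a` and `b` are equal or neighbours. -/
def Nb (a b : Vx d) : Prop := a = b ∨ ∃ i : Fin d, b = a + Pi.single i 1 ∨ a = b + Pi.single i 1

/-- The tile `a` contains a point connected to `z` in `ω ∩ eb 0 L`. -/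
def Mt (L σ : ℕ) (ω : Finset (Ed d)) (z a : Vx d) : Prop :=
  ∃ u ∈ til σ a, Cf (ω ∩ eb (0 : Vx d) L) z u

/-- At most `m` boundary clusters meet all the tiles `a ∈ bx 0 M`. -/
def Cov (L σ M m : ℕ) (ω : Finset (Ed d)) : Prop :=
  ∃ Z : Finset (Vx d), Z ⊆ bd (0 : Vx d) L ∧ Z.card ≤ m ∧
    ∀ a ∈ bx (0 : Vx d) M, ∃ z ∈ Z, Mt L σ ω z a

/-- Near every tile any two boundary clusters are joined by opening at most `Ψ` edges. -/
def Glu (L σ ρ Ψ M : ℕ) (ω : Finset (Ed d)) : Prop :=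
  ∀ a ∈ bx (0 : Vx d) M, ∀ u ∈ bx (ctr σ a) (3 * σ + 1), ∀ v ∈ bx (ctr σ a) (3 * σ + 1),
    (∃ z ∈ bd (0 : Vx d) L, Cf (ω ∩ eb (0 : Vx d) L) z u) →
    (∃ z ∈ bd (0 : Vx d) L, Cf (ω ∩ eb (0 : Vx d) L) z v) →
    ∃ F ⊆ eb (ctr σ a) ρ, F.card ≤ Ψ ∧ Cf ((ω ∩ eb (0 : Vx d) L) ∪ F) u v

open Classical in
/-- The places between the sets of tiles `A` and `B`. -/
noncomputable def Pl (A B : Finset (Vx d)) : Finset (Vx d × Vx d) :=
  (A ×ˢ B).filter fun p => Nb p.1 p.2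

open Classical in
/-- The tiles of `bx 0 M` which are met by the clusters of the points of `U`. -/
noncomputable def Tl (L σ M : ℕ) (ω : Finset (Ed d)) (U : Finset (Vx d)) : Finset (Vx d) :=
  (bx (0 : Vx d) M).filter fun a => ∃ z ∈ U, Mt L σ ω z a

end defs

/-! ## Slices and places (no probability) -/

/-- SLI. Full slices. Proof: let `I'` be the set of the `s ∈ I` whose slice
`{x ∈ bx 0 M | x k = s}` is contained in `A`. Let `s ∈ I \ I'`: there are `a ∈ A` with `a k = s`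
and `x ∈ bx 0 M`, `x k = s`, `x ∉ A`. Change the coordinates of `a` into those of `x` one after
the other by steps of one (the coordinate `k` is not changed; all points are in `bx 0 M`): there
are two consecutive points `a' ∈ A`, `x' ∉ A`, so `x' ∈ B`, `(a', x') ∈ Pl A B`, `a' k = s`.
(As a lemma: induction on `Σ_i |a i - x i|`.) The map `s ↦ (a', x')` is injective, so
`|I \ I'| ≤ |Pl A B|`. -/
def T_SLI : Prop := ∀ (d M : ℕ) (A B : Finset (Vx d)), A ⊆ bx (0 : Vx d) M →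
  (∀ a ∈ bx (0 : Vx d) M, a ∈ A ∨ a ∈ B) → ∀ (k : Fin d) (I : Finset ℤ),
  (∀ s ∈ I, ∃ a ∈ A, a k = s) →
  ∃ I' ⊆ I, I.card ≤ I'.card + (Pl A B).card ∧ ∀ s ∈ I', ∀ x ∈ bx (0 : Vx d) M, x k = s → x ∈ A

/-- TWO. Two sets of tiles with many slices and few places cannot be disjoint (in the sense
`B ⊆ A'`, `A ⊆ B'`). Proof: by T_SLI there are more than `t` elements `s ∈ I'` with a full slice
`{x k = s} ∩ bx 0 M ⊆ A` and more than `t` elements `s ∈ J'` with a full slice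
`{x k' = s} ∩ bx 0 M ⊆ B`; all these `s` are in `[-M, M]` (they are coordinates of points of
`A`, `B`). Case `k ≠ k'`: fix `s0 ∈ I'` (`I'` is not empty); for `s ∈ J'` the point `x` with
`x k = s0`, `x k' = s` and all other coordinates `0` is in `A ∩ B ⊆ A ∩ A'`, so
`(x, x) ∈ Pl A A'`; these are more than `t` places, contradiction. Case `k = k'`: fix `s0 ∈ I'`,
`s1 ∈ J'` and a coordinate `l ≠ k` (`2 ≤ d`). For `r ∈ [-M, M]` let `y_r τ` be the point with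
coordinate `k` equal to `τ`, coordinate `l` equal to `r`, the others `0`. `y_r s0 ∈ A`,
`y_r s1 ∈ B ⊆ A'`. Walk from `τ = s0` to `τ = s1`: either there are two consecutive points, the
first in `A`, the second not in `A`, hence in `A'`: a place; or `y_r s1 ∈ A ∩ A'`: the place
`(y_r s1, y_r s1)`. In both cases a place `(a, b) ∈ Pl A A'` with `a l = r`: at least
`2 M + 1 ≥ t` places, contradiction. Hypothesis: T_SLI. -/
def T_TWO : Prop := ∀ (d M t : ℕ), 2 ≤ d → t ≤ 2 * M + 1 → ∀ A A' B B' : Finset (Vx d),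
  A ⊆ bx (0 : Vx d) M → B ⊆ bx (0 : Vx d) M →
  (∀ a ∈ bx (0 : Vx d) M, a ∈ A ∨ a ∈ A') → (∀ a ∈ bx (0 : Vx d) M, a ∈ B ∨ a ∈ B') →
  B ⊆ A' → (Pl A A').card < t → (Pl B B').card < t →
  ∀ (k k' : Fin d) (I J : Finset ℤ), 2 * t ≤ I.card → 2 * t ≤ J.card →
  (∀ s ∈ I, ∃ a ∈ A, a k = s) → (∀ s ∈ J, ∃ a ∈ B, a k' = s) → False

/-- EXT. A boundary cluster which meets the inner box meets many slices. Proof: every vertex `v`
is in exactly one tile `τ v` (`(τ v) i = (v i + σ) / (2 σ + 1)`, integer division), and the tiles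
of the ends of an edge are equal or neighbours. `z ∈ bd 0 L` has a coordinate `± L`,
`L > (2 σ + 1) M + σ`, so `τ z ∉ bx 0 M`. Let `u ∈ til σ a` be connected to `z`, `a ∈ bx 0 M'`,
`τ u = a`. For every natural number `s`, `M' < s ≤ M`, let `W` be the set of the vertices `v` with
`|τ v i| < s` for all `i`; `u ∈ W`, `z ∉ W`, so (general fact: if every open edge has both or none
of its ends in `W`, then connected points are both or none in `W`; by induction on `EqvGen`,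
applied to the open edges of the cluster) there is an open edge of `ω ∩ eb 0 L` with ends `v ∈ W`,
`v' ∉ W`, both connected to `z`. `τ v'` has a coordinate `k` with `|(τ v') k| = s` (it is `≥ s` as
`v' ∉ W` and `≤ s` since `τ v`, `τ v'` are equal or neighbours), and all its coordinates have
absolute value `≤ s ≤ M`. So there are `k` and `e ∈ {1, -1}` and a tile `b ∈ bx 0 M` met by `z`
with `b k = e s`. There are `2 d` pairs `(k, e)` and `M - M'` values of `s`: some pair occurs for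
a set `S` of values with `2 d |S| ≥ M - M'` (`Finset.exists_le_card_fiber_of_mul_le_card_of_maps_to`
or a sum over the fibres); `I = {e s | s ∈ S}`. If `M = M'` take `I = ∅` and any `k` (`d ≥ 1`
because `bd 0 L` is not empty). -/
def T_EXT : Prop := ∀ (d L σ M M' : ℕ), (2 * σ + 1) * M + σ < L → M' ≤ M →
  ∀ (ω : Finset (Ed d)) (z : Vx d), z ∈ bd (0 : Vx d) L →
  (∃ a ∈ bx (0 : Vx d) M', Mt L σ ω z a) →
  ∃ (k : Fin d) (I : Finset ℤ), M ≤ M' + 2 * d * I.card ∧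
    ∀ s ∈ I, ∃ a ∈ bx (0 : Vx d) M, a k = s ∧ Mt L σ ω z a

/-- SPD. A separated family of places. Proof: the map
`p ↦ (fun i => p.1 i mod R, p.2 - p.1)` takes at most `R ^ d * (2 d + 1)` values (`p.2 - p.1` is
`0` or `± e_i`); some value is taken by a subset `Q` of `P` with
`|P| ≤ (2 d + 1) R ^ d |Q|`. Two different elements of `Q` have different first components (the
differences `p.2 - p.1` are equal), and these are congruent mod `R`: some coordinate differs by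
at least `R`. -/
def T_SPD : Prop := ∀ (d R : ℕ), 1 ≤ R → ∀ P : Finset (Vx d × Vx d), (∀ p ∈ P, Nb p.1 p.2) →
  ∃ Q ⊆ P, P.card ≤ (2 * d + 1) * R ^ d * Q.card ∧
    ∀ p ∈ Q, ∀ p' ∈ Q, p ≠ p' → ∃ i, (R : ℤ) ≤ |p.1 i - p'.1 i|

/-! ## Gluing -/

/-- BEP. Independent trials. Proof: induction on `Q`. For `i ∉ Q` let `H = F i`: by `FKT.T_BER`
(third clause for `H ⊆ G`, or the lemma `split` of `FKT/P_BER.lean`)
`EB ε G f = EB ε H (fun α => EB ε (G \ H) fun γ => f (α ∪ γ))`; the events `F j ⊆ η`, `j ∈ Q`,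
depend only on `γ` (`F j` is disjoint from `H`), the event `F i ⊆ η` only on `α`; so the
expectation is at most `(1 - ε ^ |H|) (1 - ε ^ Ψ)^|Q|`, because `EB ε H (ind (H ⊆ α)) = ε ^ |H|`
(only `α = H` contributes) and, by induction applied in `G \ H`, the inner one is at most
`(1 - ε ^ Ψ)^|Q|`; `ε ^ |H| ≥ ε ^ Ψ`. Hypothesis: `FKT.T_BER`. -/
def T_BEP : Prop := ∀ (E ι : Type) [DecidableEq E] (G : Finset E) (ε : ℝ), 0 ≤ ε → ε ≤ 1 →
  ∀ (Ψ : ℕ) (Q : Finset ι) (F : ι → Finset E), (∀ i ∈ Q, F i ⊆ G ∧ (F i).card ≤ Ψ) →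
  (∀ i ∈ Q, ∀ j ∈ Q, i ≠ j → Disjoint (F i) (F j)) →
    EB ε G (fun η => ind (∀ i ∈ Q, ¬ F i ⊆ η)) ≤ (1 - ε ^ Ψ) ^ Q.card

/-- ISL. A set `U` of boundary clusters with many places is glued to its complement. Proof: let
`P = Pl (Tl .. U) (Tl .. (Z \ U))`, `t ≤ |P|`; T_SPD gives `Q ⊆ P`, with
`(2 d + 1) R ^ d N ≤ t ≤ |P| ≤ (2 d + 1) R ^ d |Q|`, so `N ≤ |Q|`. Let `p = (a, b) ∈ Q`:
`a ∈ bx 0 M`, there are `z ∈ U`, `u ∈ til σ a` connected to `z` and `z' ∈ Z \ U`,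
`v ∈ til σ b` connected to `z'`; `u, v ∈ bx (ctr σ a) (3 σ + 1)` (the centres of `a` and `b`
differ by at most `2 σ + 1`). `Glu` gives `F p ⊆ eb (ctr σ a) ρ ⊆ eb 0 L ⊆ G`
(`(2 σ + 1) M + ρ ≤ L`), `|F p| ≤ Ψ`; if `F p ⊆ η` then `z` and `z'` are connected in
`(ω ∪ η) ∩ eb 0 L`. The sets `F p` are pairwise disjoint: for `p ≠ p'` the centres differ in some
coordinate by at least `(2 σ + 1) R > 2 ρ`. T_BEP (and monotonicity of `EB`):
the expectation is at most `(1 - ε ^ Ψ)^|Q| ≤ (1 - ε ^ Ψ)^N`. Hypotheses: T_SPD, T_BEP,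
`FKT.T_BER`. -/
def T_ISL : Prop := ∀ (d L σ ρ Ψ M R t N : ℕ), 1 ≤ R → (2 * σ + 1) * M + ρ ≤ L →
  2 * ρ < (2 * σ + 1) * R → N * ((2 * d + 1) * R ^ d) ≤ t →
  ∀ (G : Finset (Ed d)) (ε : ℝ), 0 ≤ ε → ε ≤ 1 → eb (0 : Vx d) L ⊆ G →
  ∀ (ω : Finset (Ed d)) (Z U : Finset (Vx d)), Z ⊆ bd (0 : Vx d) L → Glu L σ ρ Ψ M ω →
  U ⊆ Z → t ≤ (Pl (Tl L σ M ω U) (Tl L σ M ω (Z \ U))).card →
    EB ε G (fun η => ind (∀ z ∈ U, ∀ z' ∈ Z \ U, ¬ Cf ((ω ∪ η) ∩ eb (0 : Vx d) L) z z')) ≤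
      (1 - ε ^ Ψ) ^ N

/-- CNB. The number of the subsets with at most `D` elements. Proof: every such subset is the set
of the values different from `none` of a function `Fin D → Option Z` (`|Z| + 1` values); or
induction on `Z`. -/
def T_CNB : Prop := ∀ (A : Type) [DecidableEq A] (Z : Finset A) (D : ℕ),
  (Z.powerset.filter fun U => U.card ≤ D).card ≤ (Z.card + 1) ^ D

/-! ## The counting step -/

/-- DET. The counting step (no probability). `ω'` is the configuration after the sprinkling.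
Proof: write `z ~ z'` for `Cf (ω' ∩ eb 0 L) z z'` (an equivalence relation), and let
`U z = Z.filter (z ~ ·)`. Let `𝒞` be the set of the `U z`, where `z ∈ Z` meets (for `ω`) a tile of
`bx 0 M'`. Different elements of `𝒞` are disjoint. For `U ∈ 𝒞` there is no `z ∈ U`,
`z' ∈ Z \ U` with `z ~ z'`, so `|U| > D` or `|Pl (Tl U) (Tl (Z \ U))| < t`. (1) At most one
`U ∈ 𝒞` has fewer than `t` places: if `U ≠ U'` are two of them, `U' ⊆ Z \ U`; T_TWO with
`A = Tl U`, `A' = Tl (Z \ U)`, `B = Tl U'`, `B' = Tl (Z \ U')`: the tiles of `bx 0 M` are covered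
by `A ∪ A'` and by `B ∪ B'` (`hcov`), `B ⊆ A'`, and T_EXT for the point `z` of `U` (of `U'`)
which meets `bx 0 M'` gives `k`, `I` with `M ≤ M' + 2 d |I|`, hence `4 d t ≤ 2 d |I|`,
`2 t ≤ |I|` (`d ≥ 1`); contradiction. (2) The number `n` of the `U ∈ 𝒞` with `|U| > D` satisfies
`(D + 1) n ≤ |Z|` (disjoint sets), `n ≤ |Z| / (D + 1)`. So `|𝒞| ≤ |Z| / (D + 1) + 1`. Choose a
point `z_U ∈ U` for every `U ∈ 𝒞`; these points are the new set. For `a ∈ bx 0 M'` there is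
`z ∈ Z` with `Mt L σ ω z a` (`M' ≤ M`); `U z ∈ 𝒞`, its point `z_U` is connected to `z` in
`ω' ∩ eb 0 L`, and `ω ⊆ ω'`, so `Mt L σ ω' z_U a`. Hypotheses: T_TWO, T_EXT. -/
def T_DET : Prop := ∀ (d L σ M M' t D : ℕ), 2 ≤ d → (2 * σ + 1) * M + σ < L →
  M' + 4 * d * t ≤ M → t ≤ 2 * M + 1 → ∀ (ω ω' : Finset (Ed d)), ω ⊆ ω' →
  ∀ Z : Finset (Vx d), Z ⊆ bd (0 : Vx d) L → (∀ a ∈ bx (0 : Vx d) M, ∃ z ∈ Z, Mt L σ ω z a) →
  (∀ U ⊆ Z, U.card ≤ D → t ≤ (Pl (Tl L σ M ω U) (Tl L σ M ω (Z \ U))).card →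
    ∃ z ∈ U, ∃ z' ∈ Z \ U, Cf (ω' ∩ eb (0 : Vx d) L) z z') →
    Cov L σ M' (Z.card / (D + 1) + 1) ω'

/-- STM. One merging step. Proof: let `Z` be given by `Cov L σ M m ω`. If
`Cov L σ M' (m / (D + 1) + 1) (ω ∪ η)` fails then (T_DET with `ω' = ω ∪ η`, and
`|Z| / (D + 1) ≤ m / (D + 1)`; `Cov` is monotone in the number) there is `U ⊆ Z` with
`|U| ≤ D`, at least `t` places, and no connection between `U` and `Z \ U` in
`(ω ∪ η) ∩ eb 0 L`. Union bound: the sum over these `U` of the probabilities of T_ISL, at most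
`(m + 1)^D (1 - ε ^ Ψ)^N` by T_CNB (`|Z| ≤ m`). Hypotheses: T_DET, T_ISL, T_CNB, `FKT.T_BER`. -/
def T_STM : Prop := ∀ (d L σ ρ Ψ M M' R t N D m : ℕ), 2 ≤ d → 1 ≤ R →
  (2 * σ + 1) * M + ρ ≤ L → (2 * σ + 1) * M + σ < L → 2 * ρ < (2 * σ + 1) * R →
  N * ((2 * d + 1) * R ^ d) ≤ t → M' + 4 * d * t ≤ M → t ≤ 2 * M + 1 →
  ∀ (G : Finset (Ed d)) (ε : ℝ), 0 ≤ ε → ε ≤ 1 → eb (0 : Vx d) L ⊆ G →
  ∀ ω : Finset (Ed d), Cov L σ M m ω → Glu L σ ρ Ψ M ω →
    EB ε G (fun η => ind (¬ Cov L σ M' (m / (D + 1) + 1) (ω ∪ η))) ≤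
      ((m : ℝ) + 1) ^ D * (1 - ε ^ Ψ) ^ N

/-- The sprinkled measure (parameter `p`, sprinkling `ε`) is dominated by the measure with the
parameter `p'`. -/
def Spk {d : ℕ} (Λ : Finset (Vx d)) (q p p' ε : ℝ) : Prop :=
  ∀ f : Finset (Ed d) → ℝ, (∀ a b : Finset (Ed d), a ⊆ b → b ⊆ es Λ → f a ≤ f b) →
    fr Λ p q (fun ω => EB ε (es Λ) fun η => f (ω ∪ η)) ≤ fr Λ p' q f

/-- ITM. Iteration. Proof: induction on `J`. `Cov` is increasing in the configuration, so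
`f = - ind (¬ Cov ..)` is increasing and by `Spk`
`fr Λ (p (J+1)) q (ind (¬ Cov (M (J+1)) (m (J+1)))) ≤
fr Λ (p J) q (fun ω => EB (ε J) (es Λ) fun η => ind (¬ Cov (M (J+1)) (m (J+1)) (ω ∪ η)))`; by T_STM
the inner expectation is at most `(m J + 1)^D (1 - (ε J) ^ Ψ)^N ≤ (m J + 1)^D (1 - e ^ Ψ)^N` if
`Cov (M J) (m J) ω` and `Glu (M J) ω` hold, and it is at most `1` anyway; so it is at most
`ind (¬ Cov (M J) (m J) ω) + ind (¬ Glu .. ω) + (m 0 + 1)^D (1 - e ^ Ψ)^N`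
(`m J ≤ m 0`: if `m i ≥ 2` then `m (i+1) = m i / (D + 1) + 1 ≤ m i / 2 + 1 ≤ m i`, and if
`m i = 1` then `m (i+1) = 1 / (D + 1) + 1 = 1`, as `1 ≤ D`; all `m i ≥ 1`). The `M i` are
nonincreasing, so the conditions for `M i` follow from those for `M 0`. `fr` is linear and
monotone (FKP/Lem). Hypothesis: T_STM. -/
def T_ITM : Prop := ∀ (d L σ ρ Ψ R t N D : ℕ), 2 ≤ d → 1 ≤ R → 1 ≤ D →
  2 * ρ < (2 * σ + 1) * R → N * ((2 * d + 1) * R ^ d) ≤ t →
  ∀ (Λ : Finset (Vx d)) (q e : ℝ), 1 ≤ q → 0 ≤ e → e ≤ 1 → eb (0 : Vx d) L ⊆ es Λ →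
  ∀ (J : ℕ) (M m : ℕ → ℕ) (p ε : ℕ → ℝ), (∀ i ≤ J, 0 < p i ∧ p i < 1) →
  (∀ i < J, e ≤ ε i ∧ ε i ≤ 1 ∧ Spk Λ q (p i) (p (i + 1)) (ε i)) → 1 ≤ m 0 →
  (∀ i, m (i + 1) = m i / (D + 1) + 1) →
  (∀ i < J, M (i + 1) + 4 * d * t ≤ M i ∧ t ≤ 2 * M i + 1) →
  (2 * σ + 1) * M 0 + ρ ≤ L → (2 * σ + 1) * M 0 + σ < L →
    fr Λ (p J) q (fun ω => ind (¬ Cov L σ (M J) (m J) ω)) ≤
      fr Λ (p 0) q (fun ω => ind (¬ Cov L σ (M 0) (m 0) ω)) +
      ∑ i ∈ Finset.range J, fr Λ (p i) q (fun ω => ind (¬ Glu L σ ρ Ψ (M i) ω)) +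
      (J : ℝ) * (((m 0 : ℝ) + 1) ^ D * (1 - e ^ Ψ) ^ N)

/-- INM. The start. Proof: if every tile `a ∈ bx 0 M` has a point connected to a point `z_a` of
`bd 0 L` in `ω ∩ eb 0 L`, then `Cov L σ M ((2 M + 1) ^ d) ω` holds with `Z = {z_a}`
(`|bx 0 M| = (2 M + 1) ^ d`). Union bound over `a`. -/
def T_INM : Prop := ∀ (d L σ M : ℕ) (Λ : Finset (Vx d)) (p q : ℝ), 0 < p → p < 1 → 1 ≤ q →
    fr Λ p q (fun ω => ind (¬ Cov L σ M ((2 * M + 1) ^ d) ω)) ≤
      ∑ a ∈ bx (0 : Vx d) M, fr Λ p q fun ω =>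
        ind (¬ ∃ z ∈ bd (0 : Vx d) L, Mt L σ ω z a)

/-- NMM. The numbers. Proof: with `K = D + 1 ≥ 3`, `m 0 ≤ K^(2 d)`: by induction
`m i ≤ K^(2 d - i) + 1` for `i ≤ 2 d` (`(K^(j+1) + 1) / K = K^j` as `K ≥ 2`), so `m (2 d) ≤ 2`
and `m (2 d + 1) = m (2 d) / K + 1 = 1`. -/
def T_NMM : Prop := ∀ (d D : ℕ) (m : ℕ → ℕ), 2 ≤ D → m 0 ≤ (D + 1) ^ (2 * d) →
  (∀ i, m (i + 1) = m i / (D + 1) + 1) → m (2 * d + 1) = 1

/-! ## Translations, domain monotonicity -/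

/-- TRP. Translation of the free measure. Proof: `FKP.T_AUT` for `c = Equiv.addRight x`,
`σ = Equiv.refl _` (then `c.prodCongr σ = trE x` by definition), `S = bx 0 N`,
`S.map c = bx x N`. Hypothesis: `FKP.T_AUT`. -/
def T_TRP : Prop := ∀ (d : ℕ) (x : Vx d) (N : ℕ) (p q : ℝ) (Q : Finset (Ed d) → Prop),
  P0 x N p q Q = P0 0 N p q fun ω => Q (ω.map (trE x).toEmbedding)

/-- DPM. Domain monotonicity. Proof: `FKP.T_DMC` for `G1 = es (bx x N)`, `f = ind ∘ Q`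
(increasing): `P0 x N Q ≤ fr Λ (fun ω => ind (Q (ω ∩ G1))) ≤ fr Λ (ind ∘ Q)`; and
`ind (¬ Q) = 1 - ind Q`, expectations of `1` are `1`. Hypothesis: `FKP.T_DMC`. -/
def T_DPM : Prop := ∀ (d : ℕ) (Λ : Finset (Vx d)) (x : Vx d) (N : ℕ) (p q : ℝ), 0 < p → p < 1 →
  1 ≤ q → bx x N ⊆ Λ → ∀ Q : Finset (Ed d) → Prop, Inc Q →
    fr Λ p q (fun ω => ind (¬ Q ω)) ≤ P0 x N p q fun ω => ¬ Q ω

/-- GLT. Translation of the gluing event. Proof: the translation by `x` carries `bx 0 ρ` to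
`bx x ρ`, `eb 0 R` to `eb x R`, lattice-connected sets to lattice-connected sets, `Far` to `Far`,
`Cf ω a b` to `Cf (ω.map (trE x)) (a + x) (b + x)` (`EqvGen` induction in both directions, or
`FKT.T_NCM`-type lemmas), sets `T ⊆ eb 0 R` to sets `T ⊆ eb x R` with the same number of
elements. -/
def T_GLT : Prop := ∀ (d : ℕ) (x : Vx d) (ρ r R k : ℕ) (ω : Finset (Ed d)),
  Gl x ρ r R k (ω.map (trE x).toEmbedding) ↔ Gl 0 ρ r R k ω

/-- BFT. Translation of the connection of a small box to the boundary of a large box. Proof: as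
GLT. -/
def T_BFT : Prop := ∀ (d : ℕ) (x : Vx d) (s R : ℕ) (ω : Finset (Ed d)),
  (∃ a ∈ bx x s, ∃ b ∈ bd x R, Cf (ω.map (trE x).toEmbedding ∩ eb x R) a b) ↔
    ∃ a ∈ bx (0 : Vx d) s, ∃ b ∈ bd (0 : Vx d) R, Cf (ω ∩ eb (0 : Vx d) R) a b

/-! ## Input and output of the merging -/

/-- GLI. `Glu` from the gluing events. Proof: let `a ∈ bx 0 M`, `c = ctr σ a`, and let
`u, v ∈ bx c (3 σ + 1)` be connected in `ω ∩ eb 0 L` to points of `bd 0 L`. Let `K` be the set of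
the points of `bx c (6 σ)` connected to `u` in `ω ∩ eb c (6 σ)`. It is lattice-connected (`Lc`:
the open edges used have both ends in `K`). It contains a point with some coordinate at distance
`6 σ` from `c`: otherwise no open edge of `ω ∩ eb 0 L` leads from `K` to the complement of `K`
(an edge with an end in `K`, which is not on the boundary of the ball, is in `eb c (6 σ)`), so `K`
would contain the point of `bd 0 L` connected to `u` (general fact as in T_EXT), which is outside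
`bx c (6 σ)` or on its boundary, because `(2 σ + 1) M + 6 σ ≤ L`. This point has distance at least
`6 σ - (3 σ + 1) ≥ σ` from `u` (`σ ≥ 1`): `Lcd σ K`. In the same way `C` for `v`. By `Gl` there
are `x ∈ K`, `y ∈ C`, `T ⊆ eb c R`, `|T| ≤ Ψ`, with `x`, `y` connected in
`(ω ∩ eb c R) ∪ T`. `eb c R ⊆ eb 0 L` as `(2 σ + 1) M + R ≤ L`. So `u ~ x ~ y ~ v` in
`(ω ∩ eb 0 L) ∪ T`. -/
def T_GLI : Prop := ∀ (d L σ R Ψ M : ℕ), 1 ≤ σ → (2 * σ + 1) * M + 6 * σ ≤ L →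
  (2 * σ + 1) * M + R ≤ L → ∀ ω : Finset (Ed d),
  (∀ a ∈ bx (0 : Vx d) M, Gl (ctr σ a) (6 * σ) σ R Ψ ω) → Glu L σ R Ψ M ω

/-- STA. The start for the measure `P0 0 N`. Proof: let `a ∈ bx 0 M`, `c = ctr σ a ∈ bx 0 L`. The
event `Q`: some point of `bx c σ` is connected in `ω ∩ eb c (2 L)` to a point of `bd c (2 L)` is
increasing and implies that some `z ∈ bd 0 L` meets the tile `a` (`Mt L σ ω z a`): the point of
`bd c (2 L)` is not in `bx 0 (L - 1)` and `bx c σ ⊆ bx 0 L`; let `W` be the set of the points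
connected to `u ∈ bx c σ` in `ω ∩ eb 0 L`; if `W` contains no point of `bd 0 L` then no edge of
`ω` leads from `W` to its complement (its ends in `W` are in `bx 0 (L - 1)`, so the edge is in
`eb 0 L`), and `W` would contain the point of `bd c (2 L)`. By T_DPM
(`bx c N' ⊆ bx 0 N`, as `N' + L ≤ N`), T_TRP and T_BFT the probability of `¬ Q` is at most the one
for `c = 0`, `P0 0 N'`. Then T_INM. Hypotheses: T_INM, T_DPM, T_TRP, T_BFT. -/
def T_STA : Prop := ∀ (d L σ M N N' : ℕ) (p q : ℝ), 0 < p → p < 1 → 1 ≤ q →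
  (2 * σ + 1) * M + σ ≤ L → N' + L ≤ N → 1 ≤ L →
    P0 (0 : Vx d) N p q (fun ω => ¬ Cov L σ M ((2 * M + 1) ^ d) ω) ≤
      (2 * (M : ℝ) + 1) ^ d * P0 (0 : Vx d) N' p q fun ω =>
        ¬ ∃ a ∈ bx (0 : Vx d) σ, ∃ b ∈ bd (0 : Vx d) (2 * L),
          Cf (ω ∩ eb (0 : Vx d) (2 * L)) a b

/-- GLP. The probability of `Glu` for the measure `P0 0 N`. Proof: T_GLI, union bound over
`a ∈ bx 0 M`, T_DPM for `bx (ctr σ a) N' ⊆ bx 0 N` (`Gl` is increasing), T_TRP, T_GLT.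
Hypotheses: T_GLI, T_DPM, T_TRP, T_GLT. -/
def T_GLP : Prop := ∀ (d L σ R Ψ M N N' : ℕ) (p q : ℝ), 0 < p → p < 1 → 1 ≤ q → 1 ≤ σ →
  (2 * σ + 1) * M + 6 * σ ≤ L → (2 * σ + 1) * M + R ≤ L → N' + L ≤ N →
    P0 (0 : Vx d) N p q (fun ω => ¬ Glu L σ R Ψ M ω) ≤
      (2 * (M : ℝ) + 1) ^ d * P0 (0 : Vx d) N' p q fun ω => ¬ Gl 0 (6 * σ) σ R Ψ ω

/-- GNC. The giant from `Cov`. Proof: let `Z = {z}` (or `Z = ∅`: impossible, as `0 ∈ bx 0 M`) be
given by `Cov (32 L) σ M 1 ω`; `x0 = z`. Let `y ∈ bx 0 L` and let `a` be its tile: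
`a i = (y i + σ) / (2 σ + 1)` (integer division), so `|y i - (2 σ + 1) a i| ≤ σ` and
`a ∈ bx 0 M` as `L + σ ≤ (2 σ + 1) M + 2 σ`. The point `u ∈ til σ a` connected to `z` is in
`bx y (2 σ) ⊆ bx y ξ`. -/
def T_GNC : Prop := ∀ (d L σ M ξ : ℕ) (ω : Finset (Ed d)), L ≤ (2 * σ + 1) * M + σ →
  2 * σ ≤ ξ → Cov (32 * L) σ M 1 ω → Gnt (0 : Vx d) L ξ ω

end Pool.Agent.FKS
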