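import Pool.Agent.FKS.Step
import Pool.Agent.FKS.TargetsD

/-!
# Project FKS, part B: low scales (Step 2 of row 2495), growing induction

Scales `s`, `r` with `s ^ m ≤ r < (s + 1) ^ m`. The gluing event at the scale `r` is `Gl 0 (K r) r
(r ^ A) Φ`, its probability is for the free measure of `Λ_{r ^ B}`. One step: the cost `Φ` becomes
`k + 2 Φ` with a constant `k` (`step` of `FKS/Step.lean`, helper80). Every docstring contains the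
proof. `Gl_mono`, `Gl_inc`, `Gl_loc`, `Fpl_mono` etc. are in `FKS/Step.lean`; `T_TRP`, `T_DPM`,
`T_GLT` are targets of `TargetsD.lean`. FKP targets (`T_SEQ`, `T_BCN`) are proved in
`FKP/P_*.lean`: take them as hypotheses.
-/

set_option autoImplicit false

namespace Pool.Agent.FKS

open Filter MeasureTheory Pool.Agent.FKP
open Pool.Agent.FKT hiding ind

/-- GTR. Translations. Proof: (1) the map `v ↦ v + y`, `e ↦ trE y e` is a bijection which carries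
`eb u R` to `eb (u + y) R` and steps to steps: `Cf ω a b ↔ Cf (ω.map (trE y)) (a + y) (b + y)`
(`EqvGen` induction in both directions; see `FKT/P_TRA.lean`, `FKP/P_AUT.lean`). (2) T_TRP and
T_GLT. (3) T_TRP and (1) with `u = 0` (`0 + y = y`; `x ∈ bx 0 s ↔ x + y ∈ bx y s`).
Hypotheses: T_TRP, T_GLT (of `TargetsD.lean`). -/
def T_GTR : Prop := ∀ d : ℕ,
  (∀ (u y x z : Vx d) (R k : ℕ) (ω : Finset (Ed d)),
    Fpl (eb (u + y) R) k (ω.map (trE y).toEmbedding) (x + y) (z + y) ↔ Fpl (eb u R) k ω x z) ∧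
  (∀ (y : Vx d) (N ρ r R k : ℕ) (p q : ℝ),
    P0 y N p q (fun ω => ¬ Gl y ρ r R k ω) =
      P0 (0 : Vx d) N p q (fun ω => ¬ Gl (0 : Vx d) ρ r R k ω)) ∧
  ∀ (y v : Vx d) (N s R k : ℕ) (p q : ℝ),
    P0 y N p q (fun ω => ¬ ∃ x ∈ bx y s, ∃ z ∈ bx (v + y) s, Fpl (eb y R) k ω x z) =
      P0 (0 : Vx d) N p q (fun ω => ¬ ∃ x ∈ bx 0 s, ∃ z ∈ bx v s, Fpl (eb 0 R) k ω x z)

/-- PRA. The first passage distance of two balls. Proof: let `p' = (p0 + p1) / 2`, so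
`Hyp d p0 p' q`; `c0, C0, D` from T_KFR (for `p'`), `c1` from T_FPB (for `p' < p1`). Put
`A = D + 3`, `R' = r ^ (D + 2)`, `N' = R' ^ (D + 1)`, `B = (D + 2) (D + 1) + 1`,
`c2 = min c0 1 / 2`, `c = c1 c2`. Let `s` be large (depending on `K`), `r ≥ s`. For
`w ∈ bx 0 (2 K r)`, T_KFR with `s`, `2 K r`, `R'`, `N'` gives probability at most
`C0 (s^(-c0) + (2 K r)^D / R' + R'^D / N') ≤ C0 (s^(-c0) + 1 / r + 1 / R') ≤ 3 C0 s^(-2 c2) ≤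
s^(-c2)` for the event that `bx 0 s` and `bx w s` are not connected in `ω ∩ eb 0 R'` (the
probabilities of an event and of its complement add up to one; `(2 K)^D ≤ r`). By T_FPB
`P0 0 N' p1 q (¬ ∃ x ∈ bx 0 s, ∃ y ∈ bx w s, Fpl (eb 0 R') k ω x y) ≤ (s^(-c2))^(c1 (k + 1)) =
s^(-c (k + 1))`. For `z, v ∈ bx 0 (K r)` let `w = v - z`. `bx z N' ⊆ bx 0 (r ^ B)` and
`eb z R' ⊆ eb 0 (r ^ A)` for `r` large. The event for `z`, `v` and `eb z R'` has for the free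
measure of `bx z N'` the same probability as the one for `0`, `w`, `eb 0 R'` in `bx 0 N'`
(T_GTR (3), `v = w + z`); for the larger box the probability that it fails is smaller
(T_DPM), and `Fpl` increases with the edge set (`Fpl_mono`). Hypotheses: T_KFR, T_FPB, T_GTR,
T_DPM. -/
def T_PRA : Prop := ∀ (d : ℕ) (p0 p1 q : ℝ), Hyp d p0 p1 q →
  ∃ (A B : ℕ) (c : ℝ), 2 ≤ A ∧ A ≤ B ∧ 0 < c ∧ ∀ K : ℕ, 1 ≤ K → ∃ s0 : ℕ,
    ∀ s r k : ℕ, s0 ≤ s → s ≤ r → ∀ z ∈ bx (0 : Vx d) (K * r), ∀ v ∈ bx (0 : Vx d) (K * r),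
      P0 (0 : Vx d) (r ^ B) p1 q
        (fun ω => ¬ ∃ x ∈ bx z s, ∃ y ∈ bx v s, Fpl (eb 0 (r ^ A)) k ω x y) ≤
        (s : ℝ) ^ (-(c * ((k : ℝ) + 1)))

/-- PRB. Many separated bad points are unlikely. Proof: the event is the union over the functions
`y : Fin n → bx 0 ρ` (at most `(2 ρ + 1)^(d n)` of them) of the events
`{∀ i, ¬ Q (y i) ω}`, `y` with pairwise `Far (2 M + 1)`. For such `y` the boxes `bx (y i) M` are
disjoint, hence also the edge sets `eb (y i) M = es (bx (y i) M)`. `FKP.T_SEQ` with `Uj j = bx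
(y j) M`, `Sj j = eb (y j) M`, `L j = ⋃_{i < j} Sj i`, `F j ξ β = Q (y j) β`, `α = 1 - x`
(complement: `P0 y M (Q y) = 1 - P0 y M (¬ Q y) ≥ 1 - x`), `G = es (bx 0 N)`: the probability is at
most `x ^ n`. (`Q (y j) (ω ∩ Sj j) ↔ Q (y j) ω`.) Hypothesis: `FKP.T_SEQ`. -/
def T_PRB : Prop := ∀ (d : ℕ) (p q x : ℝ) (N M ρ n : ℕ) (Q : Vx d → Finset (Ed d) → Prop),
  0 < p → p < 1 → 1 ≤ q → 0 ≤ x → ρ + M ≤ N → (∀ y, Inc (Q y)) →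
  (∀ y ω, Q y ω ↔ Q y (ω ∩ eb y M)) → (∀ y, P0 y M p q (fun ω => ¬ Q y ω) ≤ x) →
    P0 (0 : Vx d) N p q (fun ω => ∃ y : Fin n → Vx d, (∀ i, y i ∈ bx 0 ρ) ∧
      (∀ i j, i ≠ j → Far (2 * M + 1) (y i) (y j)) ∧ ∀ i, ¬ Q (y i) ω) ≤
      ((2 * ρ + 1 : ℝ) ^ d * x) ^ n

/-- PST. One step. Proof: `A`, `B`, `c` from T_PRA, `m = B + 17`, `n = 4 m`. Given `K`, `C` take `k`
with `c (k + 1) / (2 m) ≥ 4 d + C + 1`. Let `s ≥ s0` be large, `s^m ≤ r < (s + 1)^m ≤ s^(2 m)`, so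
`s ≥ r^(1 / (2 m))`. `step` with `ρ = K r`, `ρ1 = K s`, `R = r^A`, `R1 = s^A`, `G = 2 s^B`
(`n (G + 1) ≤ 3 n s^B ≤ s^m ≤ r`, `K r + s^A ≤ r^A` as `A ≥ 2`): if `Gl 0 (K r) r (r^A)
(k + 2 Φ)` fails then (a) fails or (b) fails. (a): union over the pairs `z`, `v`, at most
`(2 K r + 1)^(2 d) ≤ r^(4 d)` for `s` large, of the events of T_PRA:
`≤ r^(4 d) s^(-c (k + 1)) ≤ r^(4 d - c (k + 1) / (2 m)) ≤ r^(-C - 1)`. (b): T_PRB with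
`Q y = Gl y (K s) s (s^A) Φ`, `M = s^B`, `x = s^(-C)` (`Gl_inc`, `Gl_loc`, T_GTR (2); `s^A ≤ s^B`,
`Far (2 M + 1) = Far (G + 1)`), `N = r^B ≥ K r + s^B`:
`≤ ((2 K r + 1)^d s^(-C))^n ≤ (r^(2 d) r^(-C / (2 m)))^(4 m) = r^(8 d m - 2 C) ≤
r^(-C - 1)` as `C ≥ 8 d m + 1`. The sum is at most `2 r^(-C - 1) ≤ r^(-C)`. Hypotheses: T_GTR,
T_PRA, T_PRB. -/
def T_PST : Prop := ∀ (d : ℕ) (p0 p1 q : ℝ), Hyp d p0 p1 q →
  ∃ A B m : ℕ, 2 ≤ A ∧ A ≤ B ∧ 16 ≤ m ∧ ∀ (K : ℕ) (C : ℝ), 20 ≤ K → 8 * (d : ℝ) * m + 1 ≤ C →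
    ∃ k s0 : ℕ, 3 ≤ s0 ∧ ∀ s r Φ : ℕ, s0 ≤ s → s ^ m ≤ r → r < (s + 1) ^ m →
      P0 (0 : Vx d) (s ^ B) p1 q (fun ω => ¬ Gl 0 (K * s) s (s ^ A) Φ ω) ≤ (s : ℝ) ^ (-C) →
      P0 (0 : Vx d) (r ^ B) p1 q (fun ω => ¬ Gl 0 (K * r) r (r ^ A) (k + 2 * Φ) ω) ≤
        (r : ℝ) ^ (-C)

/-- BAS. The gluing event with a large cost always holds. Proof: `K`, `C` are not empty; take any
`x ∈ K`, `y ∈ C`, `T = eb 0 R`; `x, y ∈ bx 0 R`, which is connected by its edges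
(`FKP.T_BCN`). Hypothesis: `FKP.T_BCN`. -/
def T_BAS : Prop := ∀ (d ρ r R k : ℕ) (ω : Finset (Ed d)), ρ ≤ R →
  (eb (0 : Vx d) R).card ≤ k → Gl (0 : Vx d) ρ r R k ω

/-- NUL. The recursion for the cost. Proof: let `c0 = max Φ0 (2 k)`. Claim: for every `r ≥ 3` there
is `Φ ≤ c0 sqrt (log r)` (as reals) with `G r Φ`. Strong induction on `r`. If `r < (s0 + 1)^m` take
`Φ0 ≤ c0 * 1`, `log r ≥ 1` (`r ≥ 3`). Otherwise let `s` be the largest number with `s^m ≤ r`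
(`Nat.find` or `Nat.sqrt`-like argument; `s ≥ s0 + 1 > 3`, `s < r`, `r < (s + 1)^m`); by induction
`Φ ≤ c0 sqrt (log s)`, `m log s ≤ log r`, so `sqrt (log s) ≤ sqrt (log r) / 4` and
`k + 2 Φ ≤ k + c0 sqrt (log r) / 2 ≤ c0 sqrt (log r)`, as `k ≤ c0 / 2 ≤ c0 sqrt (log r) / 2`.
For `r` large `c0 sqrt (log r) ≤ ε log r`, so `Φ ≤ ⌊ε log r⌋₊` (`Nat.le_floor`). -/
def T_NUL : Prop := ∀ (k Φ0 m s0 : ℕ) (G : ℕ → ℕ → Prop), 16 ≤ m → 3 ≤ s0 →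
  (∀ r Φ Φ' : ℕ, Φ ≤ Φ' → G r Φ → G r Φ') → (∀ r : ℕ, r < (s0 + 1) ^ m → G r Φ0) →
  (∀ s r Φ : ℕ, s0 ≤ s → s ^ m ≤ r → r < (s + 1) ^ m → G s Φ → G r (k + 2 * Φ)) →
    ∀ ε : ℝ, 0 < ε → ∃ r1 : ℕ, ∀ r : ℕ, r1 ≤ r → G r ⌊ε * Real.log r⌋₊

/-- LOX. T_LOW from the preceding targets. Proof: T_PST gives `A`, `B`, `m`. Given `K`, `C`, `ε` let
`K' = max K 20`, `C' = max C (8 d m + 1)`, `k`, `s0` from T_PST. Let
`G r Φ := P0 0 (r^B) p1 q (¬ Gl 0 (K' r) r (r^A) Φ) ≤ r^(-C')` if `r ≥ 1` large enough that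
`K' r ≤ r^A` (i.e. `r ≥ K'`, as `A ≥ 2`), and `True` otherwise; enlarge `s0` so that `s0 ≥ K'`.
Monotone in `Φ`: `Gl_mono` and monotonicity of `fr`. For `r < r1 := (s0 + 1)^m`, `r ≥ K'`: with
`Φ0 = |eb 0 (r1^A)|` the event always holds (T_BAS; `|eb 0 (r^A)| ≤ |eb 0 (r1^A)|`), probability
`0`. T_NUL gives `r1`. For `r ≥ r1`, `r^B ≤ N`: `Gl 0 (K' r) ..` implies `Gl 0 (K r) ..`
(`Gl_mono`), and the probability of failure is smaller for the larger box (T_DPM, `Gl_inc`);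
`r^(-C') ≤ r^(-C)`. Hypotheses: T_PST, T_BAS, T_NUL, T_DPM. -/
def T_LOX : Prop := T_LOW

end Pool.Agent.FKS
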