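import Pool.Agent.FKS.TargetsE
import Pool.Agent.FKS.TargetsB
import Pool.Agent.FKT.P_TRA

/-!
# Project FKS: QTR, translation of the good event of a cell
-/

set_option autoImplicit false

namespace Pool.Agent.FKS

open Filter MeasureTheory Pool.Agent.FKP
open Pool.Agent.FKT hiding ind

namespace QTR_

variable {d : ℕ}

theorem cf_tr (y : Vx d) (ω : Finset (Ed d)) (a b : Vx d) (h : Cf ω a b) :
    Cf (ω.map (trE y).toEmbedding) (a + y) (b + y) := by
  induction h with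
  | rel a b h =>
    refine Relation.EqvGen.rel _ _ ?_
    rcases h with h | ⟨e, he, h1, h2⟩
    · exact absurd h not_false
    · right
      refine ⟨trE y e, ?_, ?_, ?_⟩
      · rw [Finset.mem_coe] at he ⊢
        exact Finset.mem_map_of_mem _ he
      · show e.1 + y = a + y
        rw [← h1]
      · rw [TRA_.tgt_tr, h2]
  | refl a => exact Relation.EqvGen.refl _
  | symm a b _ ih => exact Relation.EqvGen.symm _ _ ih
  | trans a b c _ _ ih1 ih2 => exact Relation.EqvGen.trans _ _ _ ih1 ih2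

theorem es_tr (y : Vx d) (K : Finset (Vx d)) :
    es (K.map (Equiv.addRight y).toEmbedding) = (es K).map (trE y).toEmbedding := by
  ext e
  rw [Finset.mem_map_equiv, TRA_.tr_symm]
  unfold es
  simp only [Finset.mem_filter, Finset.mem_product, Finset.mem_univ, and_true,
    Finset.mem_map_equiv, Equiv.addRight_symm, Equiv.coe_addRight]
  have h : tgt e + -y = tgt (e.1 - y, e.2) := by
    show (e.1 + Pi.single e.2 1) + -y = (e.1 - y) + Pi.single e.2 1
    abel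
  rw [h, ← sub_eq_add_neg]

theorem mem_tr {y v : Vx d} {K : Finset (Vx d)} :
    v + y ∈ K.map (Equiv.addRight y).toEmbedding ↔ v ∈ K :=
  Finset.mem_map' (Equiv.addRight y).toEmbedding

theorem mem_bx_tr {u y v : Vx d} {n : ℕ} : v + y ∈ bx (u + y) n ↔ v ∈ bx u n := by
  rw [TRA_.bx_tr, add_sub_cancel_right]

theorem far_tr {D : ℕ} {x z : Vx d} (y : Vx d) (h : Far D x z) : Far D (x + y) (z + y) := by
  obtain ⟨i, hi⟩ := h
  refine ⟨i, ?_⟩
  rw [Pi.add_apply, Pi.add_apply, add_sub_add_right_eq_sub]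
  exact hi

theorem lcd_tr {r : ℕ} {K : Finset (Vx d)} (y : Vx d) (h : Lcd r K) :
    Lcd r (K.map (Equiv.addRight y).toEmbedding) := by
  obtain ⟨h1, a, ha, b, hb, hab⟩ := h
  refine ⟨?_, a + y, mem_tr.mpr ha, b + y, mem_tr.mpr hb, far_tr y hab⟩
  intro x hx z hz
  rw [Finset.mem_map] at hx hz
  obtain ⟨x', hx', rfl⟩ := hx
  obtain ⟨z', hz', rfl⟩ := hz
  rw [es_tr]
  exact cf_tr y _ _ _ (h1 x' hx' z' hz')

theorem sub_tr {u y : Vx d} {ρ : ℕ} {K : Finset (Vx d)} (h : K ⊆ bx (u + y) ρ) :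
    K.map (Equiv.addRight (-y)).toEmbedding ⊆ bx u ρ := by
  intro v hv
  rw [Finset.mem_map] at hv
  obtain ⟨w, hw, rfl⟩ := hv
  have h1 := h hw
  rw [TRA_.bx_tr] at h1
  show w + -y ∈ bx u ρ
  rw [← sub_eq_add_neg]
  exact h1

theorem gl_tr (hG : T_GTR) {u y : Vx d} {ρ r R k : ℕ} {ω : Finset (Ed d)}
    (h : Gl u ρ r R k ω) : Gl (u + y) ρ r R k (ω.map (trE y).toEmbedding) := by
  intro K C hK hC hLK hLC
  obtain ⟨x, hx, z, hz, hxz⟩ := h _ _ (sub_tr hK) (sub_tr hC) (lcd_tr (-y) hLK)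
    (lcd_tr (-y) hLC)
  rw [Finset.mem_map] at hx hz
  obtain ⟨x', hx', hx2⟩ := hx
  obtain ⟨z', hz', hz2⟩ := hz
  refine ⟨x', hx', z', hz', ?_⟩
  have h1 := ((hG d).1 u y x z R k ω).mpr hxz
  have e1 : x + y = x' := by
    rw [← hx2]
    show x' + -y + y = x'
    rw [neg_add_cancel_right]
  have e2 : z + y = z' := by
    rw [← hz2]
    show z' + -y + y = z'
    rw [neg_add_cancel_right]
  rw [e1, e2] at h1
  exact h1

theorem gnt_tr {u y : Vx d} {L ξ : ℕ} {ω : Finset (Ed d)} (h : Gnt u L ξ ω) :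
    Gnt (u + y) L ξ (ω.map (trE y).toEmbedding) := by
  obtain ⟨x0, h⟩ := h
  refine ⟨x0 + y, fun v hv => ?_⟩
  rw [TRA_.bx_tr] at hv
  obtain ⟨z, hz, hc⟩ := h (v - y) hv
  refine ⟨z + y, ?_, ?_⟩
  · have h1 := (mem_bx_tr (y := y)).mpr hz
    rwa [sub_add_cancel] at h1
  · have h1 := cf_tr y _ _ _ hc
    rwa [Finset.map_inter, ← TRA_.eb_tr] at h1

theorem qg_tr (hG : T_GTR) {u y : Vx d} {L ξ M k : ℕ} {ω : Finset (Ed d)}
    (h : Qg L ξ M k u ω) : Qg L ξ M k (u + y) (ω.map (trE y).toEmbedding) := by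
  refine ⟨gnt_tr h.1, fun v hv => ?_⟩
  rw [TRA_.bx_tr] at hv
  have h1 := gl_tr hG (y := y) (h.2 (v - y) hv)
  rwa [sub_add_cancel] at h1

theorem map_neg (y : Vx d) (ω : Finset (Ed d)) :
    (ω.map (trE y).toEmbedding).map (trE (-y)).toEmbedding = ω := by
  ext e
  rw [Finset.mem_map_equiv, TRA_.tr_symm, Finset.mem_map_equiv, TRA_.tr_symm]
  show (e.1 - -y - y, e.2) ∈ ω ↔ e ∈ ω
  rw [sub_neg_eq_add, add_sub_cancel_right]

end QTR_

theorem p_QTR (h_GTR : T_GTR) : T_QTR := by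
  intro d x L ξ M k ω
  constructor
  · intro h
    have h1 := QTR_.qg_tr h_GTR (y := -x) h
    rwa [QTR_.map_neg, add_neg_cancel] at h1
  · intro h
    have h1 := QTR_.qg_tr h_GTR (y := x) h
    rwa [zero_add] at h1

end Pool.Agent.FKS
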