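import Pool.Agent.FKP.Assembly
import Pool.Agent.FKT.P_BER
import Pool.Agent.FKT.P_ADD
import Pool.Agent.FKS.P_QTR
import Pool.Agent.FKS.P_QGP
import Pool.Agent.FKS.P_P0M
import Pool.Agent.FKS.P_EXB
import Pool.Agent.FKS.P_CEG
import Pool.Agent.FKS.P_CEP
import Pool.Agent.FKS.P_CEA
import Pool.Agent.FKS.P_CLF
import Pool.Agent.FKS.P_CUE
import Pool.Agent.FKS.P_CCU
import Pool.Agent.FKS.P_EBP
import Pool.Agent.FKS.P_LKP
import Pool.Agent.FKS.P_LKS
import Pool.Agent.FKS.P_BDC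
import Pool.Agent.FKS.P_BDS
import Pool.Agent.FKS.P_PEJ
import Pool.Agent.FKS.P_BXN
import Pool.Agent.FKS.P_GLU
import Pool.Agent.FKS.P_PIF

/-!
# Project FKS: assembly of part E
-/

set_option autoImplicit false

namespace Pool.Agent.FKS

open Filter MeasureTheory Pool.Agent.FKP
open Pool.Agent.FKT hiding ind

/-- The cell package, from the conclusions of parts C and D and the translations. -/
theorem e_CEL (hM : T_MLU) (hT : T_TOP) (hD : T_DPM) (hR : T_TRP) (hG : T_GLT) (hGTR : T_GTR) :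
    T_CEL :=
  p_CLF (p_CEP hM hT hD hR hG) p_CEA (p_CEG p_GLU p_EXB) p_QGP hR (p_QTR hGTR)

/-- Slab percolation, from the cell package, the sprinkling and the domain monotonicity. -/
theorem e_SLS (hC : T_CEL) (hS : T_SPR) (hD : T_DPM) : T_SLS := by
  have hCUE : T_CUE := p_CUE p_SEP g_CUT g_NEA
  have hCCU : T_CCU := p_CCU g_PLQ
  have hLKS : T_LKS := p_LKS (p_LKP p_EBP) hCCU
  have hPIF : T_PIF := p_PIF FKT.p_ADD FKT.p_BER FKT.f_FKG g_LGD g_HOL
  have hBDS : T_BDS := p_BDS (p_BDC hPIF (p_P0M hD g_HOL)) hCCU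
  exact sls_of hC (p_PEJ hCUE hLKS hBDS) hS (p_BXN g_HOL g_FEN p_BCN FKT.f_FKG) g_SLC

end Pool.Agent.FKS
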