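import Pool.Agent.FKS.TargetsU
import Pool.Agent.FKP.Lem
import Pool.Agent.FKT.P_NCM

/-!
# Project FKS, AUG: invariance of the free measures under the automorphisms of the lattice
-/

set_option autoImplicit false

namespace Pool.Agent.FKS

open Filter MeasureTheory Pool.Agent.FKP
open Pool.Agent.FKT hiding ind

namespace AUG_

variable {d : ℕ}

theorem con_map {c : Vx d ≃ Vx d} {g : Ed d ≃ Ed d} (h : Aut c g)
    {O : Set (Ed d)} {a b : Vx d} (hab : FKT.Con Prod.fst tgt (no (Vx d)) O a b) :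
    FKT.Con Prod.fst tgt (no (Vx d)) (g '' O) (c a) (c b) := by
  unfold FKT.Con at hab
  induction hab with
  | rel a b h1 =>
    rcases h1 with h1 | ⟨e, he, h1, h2⟩
    · exact absurd h1 (fun h => h)
    · subst h1 h2
      rcases h e with ⟨h3, h4⟩ | ⟨h3, h4⟩
      · exact Relation.EqvGen.rel _ _ (Or.inr ⟨g e, ⟨e, he, rfl⟩, h3, h4⟩)
      · exact Relation.EqvGen.symm _ _
          (Relation.EqvGen.rel _ _ (Or.inr ⟨g e, ⟨e, he, rfl⟩, h3, h4⟩))
  | refl a => exact Relation.EqvGen.refl _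
  | symm a b _ ih => exact Relation.EqvGen.symm _ _ ih
  | trans a b c _ _ ih1 ih2 => exact Relation.EqvGen.trans _ _ _ ih1 ih2

theorem Aut_symm {c : Vx d ≃ Vx d} {g : Ed d ≃ Ed d} (h : Aut c g) : Aut c.symm g.symm := by
  intro e
  rcases h (g.symm e) with ⟨h3, h4⟩ | ⟨h3, h4⟩
  · left
    rw [Equiv.apply_symm_apply] at h3 h4
    rw [h3, h4, Equiv.symm_apply_apply, Equiv.symm_apply_apply]
    exact ⟨rfl, rfl⟩
  · right
    rw [Equiv.apply_symm_apply] at h3 h4
    rw [h3, h4, Equiv.symm_apply_apply, Equiv.symm_apply_apply]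
    exact ⟨rfl, rfl⟩

theorem con_iff {c : Vx d ≃ Vx d} {g : Ed d ≃ Ed d} (h : Aut c g)
    (O : Set (Ed d)) (a b : Vx d) :
    FKT.Con Prod.fst tgt (no (Vx d)) O a b ↔
      FKT.Con Prod.fst tgt (no (Vx d)) (g '' O) (c a) (c b) := by
  refine ⟨con_map h, fun h1 => ?_⟩
  have h2 := con_map (Aut_symm h) h1
  rw [Equiv.symm_image_image, Equiv.symm_apply_apply, Equiv.symm_apply_apply] at h2
  exact h2

theorem coe_map (g : Ed d ≃ Ed d) (ω : Finset (Ed d)) :
    ((ω.map g.toEmbedding : Finset (Ed d)) : Set (Ed d)) = g '' (ω : Set (Ed d)) := by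
  rw [Finset.coe_map]
  rfl

theorem es_map {c : Vx d ≃ Vx d} {g : Ed d ≃ Ed d} (h : Aut c g) (S : Finset (Vx d)) :
    es (S.map c.toEmbedding) = (es S).map g.toEmbedding := by
  ext e
  rw [Finset.mem_map_equiv, mem_es, mem_es, Finset.mem_map_equiv, Finset.mem_map_equiv]
  rcases Aut_symm h e with ⟨h3, h4⟩ | ⟨h3, h4⟩
  · rw [h3, h4]
  · rw [h3, h4]
    exact and_comm

theorem ncl_map {c : Vx d ≃ Vx d} {g : Ed d ≃ Ed d} (h : Aut c g)
    (S : Finset (Vx d)) (ω : Finset (Ed d)) :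
    ncl Prod.fst tgt (no (Vx d)) (S.map c.toEmbedding)
      ((ω.map g.toEmbedding : Finset (Ed d)) : Set (Ed d)) =
      ncl Prod.fst tgt (no (Vx d)) S (ω : Set (Ed d)) := by
  rw [coe_map]
  refine (FKT.p_NCM (Vx d) (Vx d) (Ed d) (Ed d) Prod.fst tgt Prod.fst tgt (no (Vx d)) (no (Vx d))
    S (S.map c.toEmbedding) _ _ c ?_ ?_ ?_).symm
  · intro v hv
    exact Finset.mem_map_of_mem _ hv
  · intro v' hv'
    obtain ⟨v, hv, rfl⟩ := Finset.mem_map.1 hv'
    exact ⟨v, hv, Relation.EqvGen.refl _⟩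
  · intro u _ v _
    exact con_iff h _ u v

theorem sum_map {E : Type} (G : Finset E) (g : E ≃ E) (F : Finset E → ℝ) :
    ∑ ω ∈ (G.map g.toEmbedding).powerset, F ω = ∑ ω ∈ G.powerset, F (ω.map g.toEmbedding) := by
  symm
  refine Finset.sum_bij (fun ω _ => ω.map g.toEmbedding) ?_ ?_ ?_ ?_
  · intro ω hω
    rw [Finset.mem_powerset] at hω ⊢
    exact Finset.map_subset_map.mpr hω
  · intro ω _ ω' _ h
    exact Finset.map_injective _ h
  · intro ω' hω'
    rw [Finset.mem_powerset] at hω'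
    refine ⟨ω'.map g.symm.toEmbedding, ?_, ?_⟩
    · rw [Finset.mem_powerset]
      intro e he
      rw [Finset.mem_map_equiv, Equiv.symm_symm] at he
      have h1 := hω' he
      rw [Finset.mem_map_equiv, Equiv.symm_apply_apply] at h1
      exact h1
    · ext e
      rw [Finset.mem_map_equiv, Finset.mem_map_equiv, Equiv.symm_symm, Equiv.apply_symm_apply]
  · intro ω _
    rfl

theorem fr_map {c : Vx d ≃ Vx d} {g : Ed d ≃ Ed d} (h : Aut c g)
    (S : Finset (Vx d)) (p q : ℝ) (f : Finset (Ed d) → ℝ) :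
    fr (S.map c.toEmbedding) p q f = fr S p q fun ω => f (ω.map g.toEmbedding) := by
  have hw : ∀ ω : Finset (Ed d),
      wt Prod.fst tgt (no (Vx d)) (S.map c.toEmbedding)
        ((es S).map g.toEmbedding) p q (ω.map g.toEmbedding) =
        wt Prod.fst tgt (no (Vx d)) S (es S) p q ω := by
    intro ω
    unfold wt bw
    rw [ncl_map h, Finset.card_map, Finset.card_map]
  unfold fr fw Ex
  rw [es_map h, sum_map, sum_map]
  simp only [hw]

end AUG_

theorem p_AUG : T_AUG := by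
  intro d c g h
  have hC : ∀ (ω : Finset (Ed d)) (x y : Vx d),
      Cf (ω.map g.toEmbedding) (c x) (c y) ↔ Cf ω x y := by
    intro ω x y
    unfold Cf Cn
    rw [AUG_.coe_map]
    exact (AUG_.con_iff h _ x y).symm
  refine ⟨hC, fun S => ⟨AUG_.es_map h S, fun p q => ⟨AUG_.fr_map h S p q, fun x y => ?_⟩⟩⟩
  unfold tp
  rw [AUG_.fr_map h]
  congr 1
  funext ω
  exact ind_congr (hC ω x y)

end Pool.Agent.FKS
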