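import Pool.Agent.FKS.TargetsU
import Pool.Agent.FKP.Lem

/-!
# Project FKS, BTF: boxes are connected far away, free measures
-/

set_option autoImplicit false

namespace Pool.Agent.FKS

open Filter MeasureTheory Pool.Agent.FKP
open Pool.Agent.FKT hiding ind

namespace BTF_

theorem hyp {d : ℕ} {p0 p1 q : ℝ} (H : Hyp d p0 p1 q) : Hyp d p0 ((p0 + p1) / 2) q := by
  refine ⟨H.hd, H.h0, ?_, ?_, H.hq, H.per⟩
  · linarith [H.h01]
  · linarith [H.h01, H.h1]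

theorem cf_mono {d : ℕ} {a b : Finset (Ed d)} (h : a ⊆ b) {x y : Vx d} (hc : Cf a x y) :
    Cf b x y :=
  Con_mono (fun _ _ h => h) (by exact_mod_cast h) hc

theorem bd_inc {d : ℕ} (a y : Vx d) (s R : ℕ) : Inc (BD a s y R) := by
  rintro ω ω' h ⟨x, hx, z, hz, hc⟩
  exact ⟨x, hx, z, hz, cf_mono (Finset.inter_subset_inter h (Finset.Subset.refl _)) hc⟩

theorem bd_int {d : ℕ} (a y : Vx d) (s R : ℕ) (ω : Finset (Ed d)) :
    BD a s y R (ω ∩ eb y R) ↔ BD a s y R ω := by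
  unfold BD
  rw [Finset.inter_assoc, Finset.inter_self]

end BTF_

theorem p_BTF (h_BTW : T_BTW) (h_MXQ : T_MXQ) : T_BTF := by
  intro d p0 p1 q H
  have H' := BTF_.hyp H
  obtain ⟨c, C1, hc, hC1, h1⟩ := h_BTW d p0 ((p0 + p1) / 2) q H'
  obtain ⟨C2, hC2, h2⟩ := h_MXQ d ((p0 + p1) / 2) p1 q (by have := H.hd; omega)
    (by linarith [H.h0, H.h01]) (by linarith [H.h01]) H.h1 H.hq
  refine ⟨c, C1 + C2 * 3 ^ d, hc, by positivity, fun s R N hs hsR hRN => ?_⟩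
  have a1 := h1 ((p0 + p1) / 2) le_rfl H'.h1 s R N hs hsR hRN
  have a2 := h2 R N hRN (BD (0 : Vx d) s 0 R) (BTF_.bd_inc _ _ _ _)
  simp only [BTF_.bd_int] at a2
  have hR : (1 : ℝ) ≤ R := by exact_mod_cast hs.trans hsR
  have hN : (1 : ℝ) ≤ N := by exact_mod_cast (hs.trans hsR).trans hRN
  have hs0 : (0 : ℝ) ≤ (s : ℝ) ^ (-c) := Real.rpow_nonneg (Nat.cast_nonneg s) _
  have b1 : (2 * (R : ℝ) + 1) ^ d ≤ 3 ^ d * (R : ℝ) ^ d := by
    rw [← mul_pow]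
    exact pow_le_pow_left₀ (by positivity) (by linarith) d
  have b2 : C2 * (2 * (R : ℝ) + 1) ^ d / ((N : ℝ) + 1) ≤ C2 * 3 ^ d * ((R : ℝ) ^ d / N) := by
    calc C2 * (2 * (R : ℝ) + 1) ^ d / ((N : ℝ) + 1)
        ≤ C2 * (3 ^ d * (R : ℝ) ^ d) / (N : ℝ) := by
          apply div_le_div₀ (by positivity) (mul_le_mul_of_nonneg_left b1 hC2.le) (by linarith)
          linarith
      _ = C2 * 3 ^ d * ((R : ℝ) ^ d / N) := by ring
  have b3 : 0 ≤ C2 * 3 ^ d * (s : ℝ) ^ (-c) := by positivity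
  have b4 : 0 ≤ C1 * ((R : ℝ) ^ d / N) := by positivity
  have key : 1 - (C1 + C2 * 3 ^ d) * ((s : ℝ) ^ (-c) + (R : ℝ) ^ d / N) ≤
      fr (bx 0 N) p1 q fun ω => ind (BD (0 : Vx d) s 0 R ω) := by
    have e : (C1 + C2 * 3 ^ d) * ((s : ℝ) ^ (-c) + (R : ℝ) ^ d / N) =
      C1 * (s : ℝ) ^ (-c) + C1 * ((R : ℝ) ^ d / N) + (C2 * 3 ^ d * (s : ℝ) ^ (-c) +
        C2 * 3 ^ d * ((R : ℝ) ^ d / N)) := by ring
    rw [e]
    linarith
  exact key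

end Pool.Agent.FKS
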