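import Pool.Agent.FKS.TargetsU
import Pool.Agent.FKP.Lem

/-!
# Project FKS, part U: the box is connected to distance `K`, wired boxes (T_BTW)
-/

set_option autoImplicit false

namespace Pool.Agent.FKS

open Filter MeasureTheory Pool.Agent.FKP
open Pool.Agent.FKT hiding ind

namespace BTW_

variable {d : ℕ}

theorem mem_bx0 {v : Vx d} {n : ℕ} :
    v ∈ bx (0 : Vx d) n ↔ ∀ i, -(n : ℤ) ≤ v i ∧ v i ≤ n := by
  unfold bx
  rw [Finset.mem_Icc, Pi.le_def, Pi.le_def]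
  constructor
  · intro h i
    have h1 := h.1 i
    have h2 := h.2 i
    simp only [Pi.zero_apply, zero_sub, zero_add] at h1 h2
    exact ⟨h1, h2⟩
  · intro h
    constructor
    · intro i
      simp only [Pi.zero_apply, zero_sub]
      exact (h i).1
    · intro i
      simp only [Pi.zero_apply, zero_add]
      exact (h i).2

theorem BD_mono (a : Vx d) (s : ℕ) (y : Vx d) (R : ℕ) : Inc (BD a s y R) := by
  intro ω ω' h hb
  obtain ⟨x, hx, z, hz, hc⟩ := hb
  refine ⟨x, hx, z, hz, ?_⟩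
  refine Con_mono (fun _ _ h => h) ?_ hc
  rw [Finset.coe_inter, Finset.coe_inter]
  exact Set.inter_subset_inter_left _ (by exact_mod_cast h)

theorem coe_rs (F : Finset (Ed d)) (O : Set (Ed d)) :
    ((rs F O : Finset (Ed d)) : Set (Ed d)) = O ∩ F := by
  ext e
  unfold rs
  rw [Finset.coe_filter]
  constructor
  · rintro ⟨h1, h2⟩
    exact ⟨h2, h1⟩
  · rintro ⟨h1, h2⟩
    exact ⟨h2, h1⟩

/-- An infinite cluster touching the small box reaches the boundary of the large one. -/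
theorem reach (h_EXT : T_EXTU) {s K : ℕ} (hsK : s ≤ K) {ω : Ed d → Bool} {x : Vx d}
    (hx : x ∈ bx (0 : Vx d) s) (hinf : InfC x ω) :
    BD (0 : Vx d) s 0 K (rs (eb (0 : Vx d) K) (cfg ω)) := by
  have hxK : x ∈ bx (0 : Vx d) K := by
    rw [mem_bx0] at hx ⊢
    intro i
    have := hx i
    omega
  have h1 : ∃ w, Cn (cfg ω) x w ∧ w ∉ bx (0 : Vx d) K := by
    by_contra hcon
    push Not at hcon
    apply hinf
    exact (bx (0 : Vx d) K).finite_toSet.subset fun w hw => hcon w hw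
  obtain ⟨w, hw, hwK⟩ := h1
  obtain ⟨z, hz, hc⟩ := h_EXT d 0 K (cfg ω) x w hxK (Or.inl hwK) hw
  refine ⟨x, hx, z, hz, ?_⟩
  refine Con_mono (fun _ _ h => h) ?_ hc
  rw [Finset.coe_inter, coe_rs]
  exact fun e he => ⟨he, he.2⟩

end BTW_

open BTW_ in
theorem p_BTW (h_PCR : T_PCR) (h_BOX : FKT.T_BOX) (h_EXI : FKT.T_EXI) (h_EXT : T_EXTU)
    (h_WLO : T_WLO) : T_BTW := by
  intro d p0 p' q hH
  have hd : 0 < d := by have := hH.hd; omega
  have hp' : 0 < p' := lt_trans hH.h0 hH.h01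
  have hpc : pcr d q < p' :=
    lt_of_le_of_lt (h_PCR d hH.hd p0 q hH.h0 (lt_trans hH.h01 hH.h1) hH.hq hH.per) hH.h01
  obtain ⟨c, C, hc, hBOX⟩ := h_BOX d hd q p' hH.hq hpc hH.h1
  obtain ⟨μ, hμ⟩ := h_EXI d hd p' q hp' hH.h1 hH.hq
  have hprob := hμ.prob
  refine ⟨c, max C 1, hc, lt_of_lt_of_le one_pos (le_max_right _ _), ?_⟩
  intro p hpp hp1 s K N hs hsK hKN
  have h1 := h_WLO d hd p' p q hp' hpp hp1 hH.hq μ hμ K N hKN (BD (0 : Vx d) s 0 K)
    (BD_mono 0 s 0 K)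
  have h2 : (phi (0 : Vx d) N p q fun ω => ind (BD (0 : Vx d) s 0 K (ω ∩ eb (0 : Vx d) K))) =
      phi (0 : Vx d) N p q fun ω => ind (BD (0 : Vx d) s 0 K ω) := by
    apply Ex_congr
    intro ω _
    apply ind_congr
    unfold BD
    rw [Finset.inter_assoc, Finset.inter_self]
  rw [h2] at h1
  refine le_trans ?_ h1
  have h3 : (1 : ℝ) ≤ μ.real {ω | BD (0 : Vx d) s 0 K (rs (eb (0 : Vx d) K) (cfg ω))} +
      μ.real {ω | ∀ x ∈ bx (0 : Vx d) s, ¬ InfC x ω} := by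
    have h4 : ({ω | BD (0 : Vx d) s 0 K (rs (eb (0 : Vx d) K) (cfg ω))} ∪
        {ω | ∀ x ∈ bx (0 : Vx d) s, ¬ InfC x ω}) = Set.univ := by
      rw [Set.eq_univ_iff_forall]
      intro ω
      by_cases h : ∀ x ∈ bx (0 : Vx d) s, ¬ InfC x ω
      · exact Or.inr h
      · push Not at h
        obtain ⟨x, hx, hi⟩ := h
        exact Or.inl (reach h_EXT hsK hx hi)
    have h5 := measureReal_union_le (μ := μ)
      {ω | BD (0 : Vx d) s 0 K (rs (eb (0 : Vx d) K) (cfg ω))}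
      {ω | ∀ x ∈ bx (0 : Vx d) s, ¬ InfC x ω}
    rw [h4] at h5
    have h6 : μ.real Set.univ = 1 := by
      simp [measureReal_def]
    rw [h6] at h5
    exact h5
  have h7 := hBOX μ hμ s hs
  have hs0 : (0 : ℝ) < (s : ℝ) ^ c := Real.rpow_pos_of_pos (by exact_mod_cast hs) c
  have h8 : C / (s : ℝ) ^ c ≤ max C 1 * (s : ℝ) ^ (-c) := by
    rw [Real.rpow_neg (Nat.cast_nonneg s), ← div_eq_mul_inv]
    exact div_le_div_of_nonneg_right (le_max_left _ _) hs0.le
  linarith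

end Pool.Agent.FKS
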