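import Pool.Agent.FKS.TargetsU
import Pool.Agent.FKP.Lem

/-!
# Project FKS, part U: chaining of the two-point function (T_CHN)
-/

set_option autoImplicit false

namespace Pool.Agent.FKS

open Filter MeasureTheory Pool.Agent.FKP
open Pool.Agent.FKT hiding ind

namespace CHN_

variable {d : ℕ}

theorem tgt_tr (y : Vx d) (e : Ed d) : tgt (trE y e) = tgt e + y := by
  show (e.1 + y) + Pi.single e.2 1 = (e.1 + Pi.single e.2 1) + y
  abel

theorem Cf_mono {ω ω' : Finset (Ed d)} (h : ω ⊆ ω') {x y : Vx d} (hc : Cf ω x y) : Cf ω' x y :=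
  Con_mono (fun _ _ h => h) (by exact_mod_cast h) hc

theorem es_ends (S : Finset (Vx d)) : ∀ e ∈ es S, e.1 ∈ S ∧ tgt e ∈ S := fun _ he => mem_es.mp he

theorem mem_bx {x v : Vx d} {n : ℕ} :
    v ∈ bx x n ↔ ∀ i, x i - n ≤ v i ∧ v i ≤ x i + n := by
  unfold bx
  rw [Finset.mem_Icc, Pi.le_def, Pi.le_def]
  constructor
  · intro h i
    exact ⟨h.1 i, h.2 i⟩
  · intro h
    exact ⟨fun i => (h i).1, fun i => (h i).2⟩

theorem bx_map (a : Vx d) (N : ℕ) :
    (bx (0 : Vx d) N).map (Equiv.addRight a).toEmbedding = bx a N := by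
  ext v
  rw [Finset.mem_map, mem_bx]
  constructor
  · rintro ⟨u, hu, rfl⟩
    rw [mem_bx] at hu
    intro i
    have := hu i
    show a i - N ≤ u i + a i ∧ u i + a i ≤ a i + N
    rw [Pi.zero_apply] at this
    omega
  · intro h
    refine ⟨v - a, ?_, ?_⟩
    · rw [mem_bx]
      intro i
      have := h i
      rw [Pi.zero_apply, Pi.sub_apply]
      omega
    · show v - a + a = v
      exact sub_add_cancel v a

end CHN_

open CHN_ in
theorem p_CHN (h_FKG : FKT.T_FKG) (h_DMC : FKP.T_DMC) (h_FEN : FKP.T_FEN) (h_AUG : T_AUG) :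
    T_CHN := by
  intro d p q hp hp1 hq
  have hq0 : 0 < q := lt_of_lt_of_le one_pos hq
  refine ⟨?_, ?_, ?_, ?_, ?_, ?_, ?_⟩
  · intro S x y z
    have h1 := (h_FKG (Vx d) (Ed d) Prod.fst tgt (no (Vx d)) S (es S) p q hp hp1 hq
      (es_ends S)).1 (fun ω => ind (Cf ω x y)) (fun ω => ind (Cf ω y z))
      (fun a b hab => ind_mono (Cf_mono hab)) (fun a b hab => ind_mono (Cf_mono hab))
    refine le_trans h1 ?_
    apply Ex_mono hp hp1 hq0
    intro ω _
    rw [← ind_and]
    exact ind_mono fun h => Con_trans h.1 h.2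
  · intro S S' x y hS
    have h1 := h_DMC (Vx d) (Ed d) Prod.fst tgt (no (Vx d)) S' S (es S') (es S) p q hp hp1 hq
      (es_mono hS) hS (es_ends S) (fun ω => ind (Cf ω x y))
      (fun a b hab _ => ind_mono (Cf_mono hab))
    refine le_trans h1 ?_
    apply Ex_mono hp hp1 hq0
    intro ω _
    exact ind_mono (Cf_mono Finset.inter_subset_left)
  · intro S x y
    apply Ex_congr
    intro ω _
    exact ind_congr ⟨Con_symm, Con_symm⟩
  · intro x y a N
    have h1 := ((h_AUG d (Equiv.addRight a) (trE a)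
      (fun e => Or.inl ⟨rfl, tgt_tr a e⟩)).2 (bx (0 : Vx d) N)).2 p q
    have h2 := h1.2 x y
    rw [bx_map] at h2
    exact h2
  · intro S x i hx hxi
    have hF : ({(x, i)} : Finset (Ed d)) ⊆ es S := by
      rw [Finset.singleton_subset_iff, mem_es]
      exact ⟨hx, hxi⟩
    have h1 := h_FEN (Vx d) (Ed d) Prod.fst tgt (no (Vx d)) S (es S) p q hp hp1 hq
      (es_ends S) {(x, i)} hF
    rw [Finset.card_singleton, pow_one] at h1
    refine le_trans h1 ?_
    apply Ex_mono hp hp1 hq0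
    intro ω _
    apply ind_mono
    intro h
    have he : ((x, i) : Ed d) ∈ (ω : Set (Ed d)) := by
      rw [Finset.singleton_subset_iff] at h
      exact_mod_cast h
    exact Con_edge (s := Prod.fst) (t := tgt) he
  · intro S x
    have h1 : tp S p q x x = Ex Prod.fst tgt (no (Vx d)) S (es S) p q fun _ => (1 : ℝ) := by
      apply Ex_congr
      intro ω _
      exact ind_true (Con_refl _ _)
    rw [h1, Ex_const hp hp1 hq0]
  · intro S x y
    exact ⟨Ex_nonneg hp hp1 hq0 fun ω _ => ind_nonneg _,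
      Ex_le_one hp hp1 hq0 fun ω _ => ind_le_one _⟩

end Pool.Agent.FKS
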