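import Pool.Agent.FKS.TargetsU
import Pool.Agent.FKP.Lem
import Pool.Agent.FKP.P_INC

/-!
# Project FKS, COV: the covariance inequality
-/

set_option autoImplicit false

namespace Pool.Agent.FKS

open Filter MeasureTheory Pool.Agent.FKP
open Pool.Agent.FKT hiding ind

theorem p_COV (h_FKG : FKT.T_FKG) (h_NCA : T_NCA) : T_COV := by
  intro V E _ _ s t R U W G G1 B p q hp hp1 hq hG hB x y N hN
  have hq0 : 0 < q := by linarith
  have hF := (h_FKG V E s t R U G p q hp hp1 hq hG).1
  set H : Finset E → Prop := fun ω => Con s t (no V) ((ω ∩ B : Finset E) : Set E) x y with hH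
  set Dd : Finset E → Prop := fun ω => ¬ Con s t (no V) ((ω ∩ G1 : Finset E) : Set E) x y ∧
        (∃ u ∈ W, Con s t (no V) ((ω ∩ G1 : Finset E) : Set E) u x) ∧
        ∃ u ∈ W, Con s t (no V) ((ω ∩ G1 : Finset E) : Set E) u y with hDd
  set N' : Finset E → ℝ := fun ω =>
    (ncl s t (mrg (no V) x y) W ((ω ∩ G1 : Finset E) : Set E) : ℝ) with hN'
  have hNA := h_NCA V E s t (no V) W
  have hNA' := h_NCA V E s t (mrg (no V) x y) W
  have hsub : ∀ a b : Finset E, a ⊆ b →
      ((a ∩ G1 : Finset E) : Set E) ⊆ ((b ∩ G1 : Finset E) : Set E) := fun a b hab =>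
    Finset.coe_subset.2 (Finset.inter_subset_inter_right hab)
  -- the three monotone functions
  have m1 : ∀ a b : Finset E, a ⊆ b → (-1 : ℝ) * N a ≤ (-1 : ℝ) * N b := by
    intro a b hab
    have h1 := hNA.2 _ _ (hsub a b hab)
    have h2 : N b ≤ N a := by
      rw [hN, hN]
      exact_mod_cast h1
    linarith
  have m2 : ∀ a b : Finset E, a ⊆ b → (-1 : ℝ) * N' a ≤ (-1 : ℝ) * N' b := by
    intro a b hab
    have h1 := hNA'.2 _ _ (hsub a b hab)
    have h2 : N' b ≤ N' a := by
      simp only [hN']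
      exact_mod_cast h1
    linarith
  have m3 : ∀ a b : Finset E, a ⊆ b → ind (H a) ≤ ind (H b) := by
    intro a b hab
    exact ind_mono fun h => Con_mono (fun _ _ h => h)
      (Finset.coe_subset.2 (Finset.inter_subset_inter_right hab)) h
  have m4 : ∀ a b : Finset E, a ⊆ b →
      (∑ e ∈ B, ind (e ∈ a)) - ind (H a) ≤ (∑ e ∈ B, ind (e ∈ b)) - ind (H b) :=
    INC_.incr B fun S : Finset E => Con s t (no V) (S : Set E) x y
  have m5 : ∀ (e : E) (a b : Finset E), a ⊆ b → ind (e ∈ a) ≤ ind (e ∈ b) :=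
    fun e a b hab => ind_mono fun h => hab h
  have eN : Ex s t R U G p q (fun ω => (-1 : ℝ) * N ω) = -1 * Ex s t R U G p q N :=
    Ex_mul_left _ _
  have eN' : Ex s t R U G p q (fun ω => (-1 : ℝ) * N' ω) = -1 * Ex s t R U G p q N' :=
    Ex_mul_left _ _
  refine ⟨?_, fun e => ?_⟩
  · -- (i)
    have k1 := hF (fun ω => (-1 : ℝ) * N ω) (fun ω => (∑ e ∈ B, ind (e ∈ ω)) - ind (H ω)) m1 m4
    have e1 : Ex s t R U G p q (fun ω => (∑ e ∈ B, ind (e ∈ ω)) - ind (H ω)) =
        (∑ e ∈ B, Ex s t R U G p q (fun ω => ind (e ∈ ω))) -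
          Ex s t R U G p q (fun ω => ind (H ω)) := by
      rw [Ex_sub, Ex_sum]
    have e2 : Ex s t R U G p q (fun ω => (-1 : ℝ) * N ω *
        ((∑ e ∈ B, ind (e ∈ ω)) - ind (H ω))) =
        -1 * ((∑ e ∈ B, Ex s t R U G p q (fun ω => N ω * ind (e ∈ ω))) -
          Ex s t R U G p q (fun ω => N ω * ind (H ω))) := by
      rw [← Ex_sum, ← Ex_sub, ← Ex_mul_left]
      refine Ex_congr fun ω _ => ?_
      rw [← Finset.mul_sum]
      ring
    rw [eN, e1, e2] at k1
    -- (ii)
    have k2 := hF (fun ω => (-1 : ℝ) * N' ω) (fun ω => ind (H ω)) m2 m3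
    have e3 : Ex s t R U G p q (fun ω => (-1 : ℝ) * N' ω * ind (H ω)) =
        -1 * Ex s t R U G p q (fun ω => N ω * ind (H ω)) := by
      rw [← Ex_mul_left]
      refine Ex_congr fun ω _ => ?_
      by_cases h : H ω
      · have h1 : Con s t (no V) ((ω ∩ G1 : Finset E) : Set E) x y :=
          Con_mono (fun _ _ h => h)
            (Finset.coe_subset.2 (Finset.inter_subset_inter_left hB)) h
        have h2 := (hNA.1 ((ω ∩ G1 : Finset E) : Set E) x y).2 h1
        have h3 : N' ω = N ω := by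
          rw [hN]
          simp only [hN']
          exact_mod_cast h2
        rw [h3]
        ring
      · rw [ind_false h]
        ring
    have e4 : Ex s t R U G p q N' = Ex s t R U G p q N -
        Ex s t R U G p q (fun ω => ind (Dd ω)) := by
      rw [← Ex_sub]
      refine Ex_congr fun ω _ => ?_
      have h2 := (hNA.1 ((ω ∩ G1 : Finset E) : Set E) x y).1
      rw [hN]
      simp only [hN', hDd]
      linarith
    rw [eN', e3, e4] at k2
    have e5 : ∑ e ∈ B, (Ex s t R U G p q N * Ex s t R U G p q (fun ω => ind (e ∈ ω)) -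
        Ex s t R U G p q fun ω => N ω * ind (e ∈ ω)) =
        Ex s t R U G p q N * (∑ e ∈ B, Ex s t R U G p q (fun ω => ind (e ∈ ω))) -
          ∑ e ∈ B, Ex s t R U G p q (fun ω => N ω * ind (e ∈ ω)) := by
      rw [Finset.sum_sub_distrib, Finset.mul_sum]
    rw [e5]
    nlinarith
  · have k3 := hF (fun ω => (-1 : ℝ) * N ω) (fun ω => ind (e ∈ ω)) m1 (m5 e)
    have e6 : Ex s t R U G p q (fun ω => (-1 : ℝ) * N ω * ind (e ∈ ω)) =
        -1 * Ex s t R U G p q (fun ω => N ω * ind (e ∈ ω)) := by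
      rw [← Ex_mul_left]
      exact Ex_congr fun ω _ => by ring
    rw [eN, e6] at k3
    linarith

end Pool.Agent.FKS
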