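import Pool.Agent.FKS.TargetsU
import Pool.Agent.FKP.Lem

/-!
# Project FKS, target EXT: the exit lemma
-/

set_option autoImplicit false

namespace Pool.Agent.FKS

open Filter MeasureTheory Pool.Agent.FKP
open Pool.Agent.FKT hiding ind

namespace EXU_

theorem inv {α : Type} {r : α → α → Prop} {P : α → Prop} (h : ∀ a b, r a b → (P a ↔ P b))
    {a b : α} (hab : Relation.EqvGen r a b) : P a ↔ P b := by
  induction hab with
  | rel a b hr => exact h a b hr
  | refl a => exact Iff.rfl
  | symm a b _ ih => exact ih.symm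
  | trans a b c _ _ ih1 ih2 => exact ih1.trans ih2

variable {d : ℕ}

theorem mem_bx (x v : Vx d) (n : ℕ) :
    v ∈ bx x n ↔ ∀ i, x i - n ≤ v i ∧ v i ≤ x i + n := by
  unfold bx
  rw [Finset.mem_Icc]
  constructor
  · rintro ⟨h1, h2⟩ i
    exact ⟨h1 i, h2 i⟩
  · intro h
    exact ⟨fun i => (h i).1, fun i => (h i).2⟩

theorem mem_bd (x v : Vx d) (n : ℕ) :
    v ∈ bd x n ↔ v ∈ bx x n ∧ ∃ i, v i = x i - n ∨ v i = x i + n := by
  unfold bd
  rw [Finset.mem_filter]

theorem mem_eb (x : Vx d) (n : ℕ) (e : Ed d) :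
    e ∈ eb x n ↔ e.1 ∈ bx x n ∧ tgt e ∈ bx x n := by
  unfold eb
  rw [Finset.mem_filter, Finset.mem_product]
  simp

end EXU_

theorem p_EXTU : T_EXTU := by
  intro d y R O x z hx hz hxz
  by_contra hno
  push Not at hno
  have hint : ∀ w : Vx d, w ∈ bx y R → w ∉ bd y R → ∀ i, y i - R < w i ∧ w i < y i + R := by
    intro w hw hw' i
    rw [EXU_.mem_bd] at hw'
    push Not at hw'
    have h3 := hw' hw i
    have h4 := (EXU_.mem_bx y w R).mp hw i
    omega
  have hP : ∀ a b : Vx d, Step Prod.fst tgt (no (Vx d)) O a b →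
      ((a ∈ bx y R ∧ a ∉ bd y R ∧ Cn (O ∩ (eb y R : Set (Ed d))) x a) ↔
      (b ∈ bx y R ∧ b ∉ bd y R ∧ Cn (O ∩ (eb y R : Set (Ed d))) x b)) := by
    intro a b hab
    rcases hab with hab | ⟨e, he, h1, h2⟩
    · exact absurd hab (by simp [no])
    · have hbe : ∀ i, b i = a i + (if i = e.2 then 1 else 0) := by
        intro i
        rw [← h2, ← h1]
        unfold tgt
        by_cases hi : i = e.2
        · rw [hi]
          simp
        · simp [hi]
      have hF : a ∈ bx y R → b ∈ bx y R → Cn (O ∩ (eb y R : Set (Ed d))) a b := by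
        intro ha hb
        refine Relation.EqvGen.rel _ _ (Or.inr ⟨e, ⟨he, ?_⟩, h1, h2⟩)
        rw [Finset.mem_coe, EXU_.mem_eb]
        exact ⟨by rw [h1]; exact ha, by rw [h2]; exact hb⟩
      constructor
      · rintro ⟨ha, ha', hc⟩
        have hb : b ∈ bx y R := by
          rw [EXU_.mem_bx]
          intro i
          have h3 := hint a ha ha' i
          have h4 := hbe i
          split_ifs at h4 <;> omega
        have hcb : Cn (O ∩ (eb y R : Set (Ed d))) x b :=
          Relation.EqvGen.trans _ _ _ hc (hF ha hb)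
        exact ⟨hb, fun hbb => hno b hbb hcb, hcb⟩
      · rintro ⟨hb, hb', hc⟩
        have ha : a ∈ bx y R := by
          rw [EXU_.mem_bx]
          intro i
          have h3 := hint b hb hb' i
          have h4 := hbe i
          split_ifs at h4 <;> omega
        have hca : Cn (O ∩ (eb y R : Set (Ed d))) x a :=
          Relation.EqvGen.trans _ _ _ hc (Relation.EqvGen.symm _ _ (hF ha hb))
        exact ⟨ha, fun haa => hno a haa hca, hca⟩
  have hx' : x ∈ bx y R ∧ x ∉ bd y R ∧ Cn (O ∩ (eb y R : Set (Ed d))) x x :=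
    ⟨hx, fun h => hno x h (Relation.EqvGen.refl _), Relation.EqvGen.refl _⟩
  have hz' := (EXU_.inv hP hxz).1 hx'
  rcases hz with hz | hz
  · exact hz hz'.1
  · exact hz'.2.1 hz

end Pool.Agent.FKS
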