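import Pool.Agent.FKS.TargetsU
import Pool.Agent.FKP.Lem

/-!
# Project FKS, FAC: a point of the face with a polynomial two-point function
-/

set_option autoImplicit false

namespace Pool.Agent.FKS

open Filter MeasureTheory Pool.Agent.FKP
open Pool.Agent.FKT hiding ind

namespace FAC_

variable {d : ℕ}

theorem mem_bx (n : ℕ) (v : Vx d) : v ∈ bx (0 : Vx d) n ↔ ∀ i, |v i| ≤ n := by
  unfold bx
  rw [Finset.mem_Icc, Pi.le_def, Pi.le_def]
  simp only [Pi.zero_apply, zero_sub, zero_add, abs_le]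
  exact ⟨fun h i => ⟨h.1 i, h.2 i⟩, fun h => ⟨fun i => (h i).1, fun i => (h i).2⟩⟩

theorem bx_zero (v : Vx d) (h : v ∈ bx (0 : Vx d) 0) : v = 0 := by
  rw [mem_bx] at h
  funext i
  have h1 := h i
  rw [Nat.cast_zero] at h1
  exact abs_eq_zero.mp (le_antisymm h1 (abs_nonneg _))

/-- The event `BD 0 0 0 R` is increasing. -/
theorem BD_inc (R : ℕ) : Inc (fun ω : Finset (Ed d) => BD (0 : Vx d) 0 0 R ω) := by
  rintro a b hab ⟨x, hx, z, hz, h⟩
  refine ⟨x, hx, z, hz, ?_⟩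
  unfold Cf Cn at h ⊢
  exact Con_mono (fun _ _ h => h)
    (Finset.coe_subset.mpr (Finset.inter_subset_inter hab (Finset.Subset.refl _))) h

theorem BD_loc (R : ℕ) (ω : Finset (Ed d)) :
    BD (0 : Vx d) 0 0 R (ω ∩ eb (0 : Vx d) R) ↔ BD (0 : Vx d) 0 0 R ω := by
  unfold BD
  rw [Finset.inter_assoc, Finset.inter_self]

/-- The union bound. -/
theorem BD_le (R : ℕ) (ω : Finset (Ed d)) :
    ind (BD (0 : Vx d) 0 0 R ω) ≤ ∑ z ∈ bd (0 : Vx d) R, ind (Cf ω 0 z) := by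
  by_cases h : BD (0 : Vx d) 0 0 R ω
  · obtain ⟨x, hx, z, hz, h1⟩ := h
    have hx0 := bx_zero x hx
    subst hx0
    have h2 : Cf ω 0 z := by
      unfold Cf Cn at h1 ⊢
      exact Con_mono (fun _ _ h => h) (Finset.coe_subset.mpr Finset.inter_subset_left) h1
    calc ind (BD (0 : Vx d) 0 0 R ω) ≤ 1 := ind_le_one _
      _ = ind (Cf ω 0 z) := (ind_true h2).symm
      _ ≤ _ := Finset.single_le_sum (f := fun z => ind (Cf ω 0 z))
          (fun z _ => ind_nonneg _) hz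
  · rw [ind_false h]
    exact Finset.sum_nonneg fun z _ => ind_nonneg _

/-- Automorphisms which fix the origin and the box. -/
theorem tp_aut (h_AUG : T_AUG) {c : Vx d ≃ Vx d} {g : Ed d ≃ Ed d} (h : Aut c g) (h0 : c 0 = 0)
    (N : ℕ) (hN : ∀ v : Vx d, v ∈ bx (0 : Vx d) N → c v ∈ bx (0 : Vx d) N) (p q : ℝ)
    (z : Vx d) : tp (bx (0 : Vx d) N) p q 0 (c z) = tp (bx (0 : Vx d) N) p q 0 z := by
  have h1 : (bx (0 : Vx d) N).map c.toEmbedding = bx (0 : Vx d) N := by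
    refine Finset.eq_of_subset_of_card_le ?_ (le_of_eq (Finset.card_map _).symm)
    intro v hv
    rw [Finset.mem_map] at hv
    obtain ⟨w, hw, rfl⟩ := hv
    exact hN w hw
  have h2 := (((h_AUG d c g h).2 (bx (0 : Vx d) N)).2 p q).2 0 z
  rw [h1, h0] at h2
  exact h2

/-- Moving a point of the boundary to the face `x_i = R`. -/
theorem face (h_AUG : T_AUG) (h_RFX : T_RFX) (R N : ℕ) (i : Fin d) (p q : ℝ) (z : Vx d)
    (hz : z ∈ bd (0 : Vx d) R) : ∃ z' : Vx d, z' i = R ∧ (∀ j, |z' j| ≤ R) ∧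
      tp (bx (0 : Vx d) N) p q 0 z' = tp (bx (0 : Vx d) N) p q 0 z := by
  obtain ⟨hR1, hR2, -⟩ := h_RFX d
  unfold bd at hz
  rw [Finset.mem_filter, mem_bx] at hz
  obtain ⟨hz1, j, hz2⟩ := hz
  rw [Pi.zero_apply, zero_sub, zero_add] at hz2
  -- the reflection
  have hrefl : ∃ z1 : Vx d, z1 j = R ∧ (∀ k, |z1 k| ≤ R) ∧
      tp (bx (0 : Vx d) N) p q 0 z1 = tp (bx (0 : Vx d) N) p q 0 z := by
    rcases hz2 with hz2 | hz2
    · obtain ⟨c, g, hA, -, hc⟩ := hR1 j 0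
      refine ⟨c z, ?_, ?_, ?_⟩
      · rw [hc, Function.update_self, hz2]
        ring
      · intro k
        rw [hc]
        by_cases hk : k = j
        · subst hk
          rw [Function.update_self, zero_sub, abs_neg]
          exact hz1 k
        · rw [Function.update_of_ne hk]
          exact hz1 k
      · refine tp_aut h_AUG hA ?_ N ?_ p q z
        · rw [hc, Pi.zero_apply, sub_zero]
          exact Function.update_eq_self j (0 : Vx d)
        · intro v hv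
          rw [mem_bx] at hv ⊢
          intro k
          rw [hc]
          by_cases hk : k = j
          · subst hk
            rw [Function.update_self, zero_sub, abs_neg]
            exact hv k
          · rw [Function.update_of_ne hk]
            exact hv k
    · exact ⟨z, hz2, hz1, rfl⟩
  obtain ⟨z1, h1, h2, h3⟩ := hrefl
  -- the exchange
  obtain ⟨c, g, hA, -, hc⟩ := hR2 i j
  refine ⟨c z1, ?_, ?_, ?_⟩
  · rw [hc, Function.comp_apply, Equiv.swap_apply_left]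
    exact h1
  · intro k
    rw [hc, Function.comp_apply]
    exact h2 _
  · rw [← h3]
    refine tp_aut h_AUG hA ?_ N ?_ p q z1
    · rw [hc]
      rfl
    · intro v hv
      rw [mem_bx] at hv ⊢
      intro k
      rw [hc, Function.comp_apply]
      exact hv _

theorem pow_le (R k : ℕ) (hR : 1 ≤ R) : (2 * (R : ℝ) + 1) ^ k ≤ 3 ^ k * (R : ℝ) ^ k := by
  rw [← mul_pow]
  have h1 : (1 : ℝ) ≤ R := by exact_mod_cast hR
  exact pow_le_pow_left₀ (by positivity) (by linarith) k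

end FAC_

open FAC_ in
theorem p_FAC (h_WOA : T_WOA) (h_MXQ : T_MXQ) (h_AUG : T_AUG) (h_RFX : T_RFX)
    (h_CNT : FKT.T_CNT) : T_FAC := by
  intro d p0 p1 q hH
  obtain ⟨hd, h0, h01, h1, hq, hper⟩ := hH
  have hd0 : 0 < d := by omega
  have hp1 : 0 < p1 := h0.trans h01
  have hq0 : 0 < q := by linarith
  obtain ⟨θ, hθ, hW⟩ := h_WOA d hd0 p0 q h0 (h01.trans h1) hq hper
  obtain ⟨C, hC, hM⟩ := h_MXQ d p0 p1 q hd0 h0 h01 h1 hq
  have h3 : (0 : ℝ) < 3 ^ d := by positivity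
  have h3' : (0 : ℝ) < 3 ^ (d - 1) := by positivity
  have hdR : (0 : ℝ) < d := by exact_mod_cast hd0
  refine ⟨θ / (8 * d * 3 ^ (d - 1)), ⌈2 * C * 3 ^ d / θ⌉₊ + 1, by positivity, ?_⟩
  intro R N hR hN i
  have hRR : (1 : ℝ) ≤ R := by exact_mod_cast hR
  have hRd : (0 : ℝ) < (R : ℝ) ^ d := by positivity
  have hRd' : (0 : ℝ) < (R : ℝ) ^ (d - 1) := by positivity
  have hRN : R ≤ N := by
    have e1 : R ≤ R ^ d := Nat.le_self_pow (by omega) R
    have e2 : R ^ d ≤ (⌈2 * C * 3 ^ d / θ⌉₊ + 1) * R ^ d := Nat.le_mul_of_pos_left _ (by omega)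
    omega
  -- the one-arm event for the free measure
  have hone : θ / 2 ≤ fr (bx (0 : Vx d) N) p1 q fun ω => ind (BD (0 : Vx d) 0 0 R ω) := by
    have e1 := hW p0 le_rfl (h01.trans h1) R N hRN
    have e2 := hM R N hRN (fun ω => BD (0 : Vx d) 0 0 R ω) (BD_inc R)
    have e3 : ∀ ω : Finset (Ed d), ind (BD (0 : Vx d) 0 0 R (ω ∩ eb (0 : Vx d) R)) =
        ind (BD (0 : Vx d) 0 0 R ω) := fun ω => ind_congr (BD_loc R ω)
    simp only [e3] at e2
    have e4 : C * (2 * (R : ℝ) + 1) ^ d / ((N : ℝ) + 1) ≤ θ / 2 := by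
      have f1 : 2 * C * 3 ^ d / θ ≤ ⌈2 * C * 3 ^ d / θ⌉₊ := Nat.le_ceil _
      have f2 : ((⌈2 * C * 3 ^ d / θ⌉₊ : ℝ) + 1) * (R : ℝ) ^ d ≤ N := by exact_mod_cast hN
      rw [div_le_iff₀ hθ] at f1
      rw [div_le_iff₀ (by positivity)]
      have f3 := pow_le R d hR
      have f4 : C * (2 * (R : ℝ) + 1) ^ d ≤ C * (3 ^ d * (R : ℝ) ^ d) :=
        mul_le_mul_of_nonneg_left f3 hC.le
      have f5 : 2 * C * 3 ^ d * (R : ℝ) ^ d ≤ (⌈2 * C * 3 ^ d / θ⌉₊ : ℝ) * θ * (R : ℝ) ^ d :=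
        mul_le_mul_of_nonneg_right f1 hRd.le
      have f6 : θ * (((⌈2 * C * 3 ^ d / θ⌉₊ : ℝ) + 1) * (R : ℝ) ^ d) ≤ θ * N :=
        mul_le_mul_of_nonneg_left f2 hθ.le
      have f7 : 0 ≤ θ * (R : ℝ) ^ d := by positivity
      nlinarith
    linarith
  -- the union bound
  have hsum : θ / 2 ≤ ∑ z ∈ bd (0 : Vx d) R, tp (bx (0 : Vx d) N) p1 q 0 z := by
    refine hone.trans ?_
    unfold tp fr fw
    rw [← Ex_sum]
    exact Ex_mono hp1 h1 hq0 fun ω _ => BD_le R ω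
  have hex : ∃ z ∈ bd (0 : Vx d) R,
      θ / (8 * d * 3 ^ (d - 1)) / (R : ℝ) ^ (d - 1) ≤ tp (bx (0 : Vx d) N) p1 q 0 z := by
    by_contra hcon
    push Not at hcon
    have e1 : ∑ z ∈ bd (0 : Vx d) R, tp (bx (0 : Vx d) N) p1 q 0 z ≤
        ∑ z ∈ bd (0 : Vx d) R, θ / (8 * d * 3 ^ (d - 1)) / (R : ℝ) ^ (d - 1) :=
      Finset.sum_le_sum fun z hz => (hcon z hz).le
    rw [Finset.sum_const, nsmul_eq_mul] at e1
    have e2 : ((bd (0 : Vx d) R).card : ℝ) ≤ 2 * d * (2 * (R : ℝ) + 1) ^ (d - 1) := by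
      exact_mod_cast (h_CNT d hd0 R).2.1
    have e3 := pow_le R (d - 1) hR
    have e4 : ((bd (0 : Vx d) R).card : ℝ) ≤ 2 * d * (3 ^ (d - 1) * (R : ℝ) ^ (d - 1)) :=
      e2.trans (mul_le_mul_of_nonneg_left e3 (by positivity))
    have e5 : ((bd (0 : Vx d) R).card : ℝ) *
        (θ / (8 * d * 3 ^ (d - 1)) / (R : ℝ) ^ (d - 1)) ≤
        2 * d * (3 ^ (d - 1) * (R : ℝ) ^ (d - 1)) *
        (θ / (8 * d * 3 ^ (d - 1)) / (R : ℝ) ^ (d - 1)) :=
      mul_le_mul_of_nonneg_right e4 (by positivity)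
    have e6 : 2 * d * (3 ^ (d - 1) * (R : ℝ) ^ (d - 1)) *
        (θ / (8 * d * 3 ^ (d - 1)) / (R : ℝ) ^ (d - 1)) = θ / 4 := by
      field_simp
      ring
    linarith
  obtain ⟨z, hz, hz1⟩ := hex
  obtain ⟨z', hz2, hz3, hz4⟩ := face h_AUG h_RFX R N i p1 q z hz
  exact ⟨z', hz2, hz3, by rw [hz4]; exact hz1⟩

end Pool.Agent.FKS
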