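import Pool.Agent.FKS.TargetsU
import Pool.Agent.FKP.Lem

/-!
# FKS, target GRD: a grid of disjoint boxes
-/

set_option autoImplicit false

namespace Pool.Agent.FKS

open Filter MeasureTheory Pool.Agent.FKP
open Pool.Agent.FKT hiding ind

namespace GRD_

theorem mem_bx {d : ℕ} (x v : Vx d) (n : ℕ) :
    x ∈ bx v n ↔ ∀ i, v i - n ≤ x i ∧ x i ≤ v i + n := by
  unfold bx
  rw [Finset.mem_Icc, Pi.le_def, Pi.le_def]
  exact ⟨fun h i => ⟨h.1 i, h.2 i⟩, fun h => ⟨fun i => (h i).1, fun i => (h i).2⟩⟩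

/-- the coordinates of the grid points -/
noncomputable def col (b k : ℕ) : Finset ℤ :=
  (Finset.Icc (-(k : ℤ)) k).image fun j => (2 * b + 1) * j

theorem mem_col {b k : ℕ} {x : ℤ} :
    x ∈ col b k ↔ ∃ j : ℤ, -(k : ℤ) ≤ j ∧ j ≤ k ∧ x = (2 * b + 1) * j := by
  unfold col
  rw [Finset.mem_image]
  constructor
  · rintro ⟨j, hj, rfl⟩
    rw [Finset.mem_Icc] at hj
    exact ⟨j, hj.1, hj.2, rfl⟩
  · rintro ⟨j, h1, h2, rfl⟩
    exact ⟨j, Finset.mem_Icc.2 ⟨h1, h2⟩, rfl⟩

theorem card_col (b k : ℕ) : (col b k).card = 2 * k + 1 := by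
  unfold col
  rw [Finset.card_image_of_injective, Int.card_Icc]
  · omega
  · intro i j hij
    have h : (2 * (b : ℤ) + 1) ≠ 0 := by positivity
    exact mul_left_cancel₀ h hij

end GRD_

open GRD_ in
theorem p_GRD : T_GRD := by
  intro d b n hbn
  set k : ℕ := (n - b) / (2 * b + 1) with hk
  have hk1 : (2 * b + 1) * k ≤ n - b := Nat.mul_div_le _ _
  have hk2 : n - b < (2 * b + 1) * (k + 1) := Nat.lt_mul_div_succ _ (by omega)
  refine ⟨Fintype.piFinset fun _ => col b k, ?_, ?_, ?_⟩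
  · intro v hv x hx
    rw [mem_bx] at hx ⊢
    intro i
    obtain ⟨j, h1, h2, h3⟩ := mem_col.1 (Fintype.mem_piFinset.1 hv i)
    have hx1 := (hx i).1
    have hx2 := (hx i).2
    have e1 : ((2 * b + 1 : ℕ) : ℤ) * k + b ≤ n := by
      have : (2 * b + 1) * k + b ≤ n := by omega
      exact_mod_cast this
    push_cast at e1
    have e2 : (2 * (b : ℤ) + 1) * j ≤ (2 * b + 1) * k :=
      mul_le_mul_of_nonneg_left h2 (by positivity)
    have e3 : (2 * (b : ℤ) + 1) * (-k) ≤ (2 * b + 1) * j :=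
      mul_le_mul_of_nonneg_left h1 (by positivity)
    simp only [Pi.zero_apply]
    constructor <;> linarith
  · intro v hv v' hv' hne
    rw [Finset.disjoint_left]
    intro e he he'
    apply hne
    funext i
    obtain ⟨j, h1, h2, h3⟩ := mem_col.1 (Fintype.mem_piFinset.1 hv i)
    obtain ⟨j', h1', h2', h3'⟩ := mem_col.1 (Fintype.mem_piFinset.1 hv' i)
    have hx : e.1 ∈ bx v b := (Finset.mem_product.1 (Finset.mem_filter.1 he).1).1
    have hx' : e.1 ∈ bx v' b := (Finset.mem_product.1 (Finset.mem_filter.1 he').1).1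
    rw [mem_bx] at hx hx'
    have a1 := hx i
    have a2 := hx' i
    rw [h3, h3'] at *
    have hlt1 : (2 * (b : ℤ) + 1) * (j - j') < (2 * b + 1) * 1 := by linarith
    have hlt2 : (2 * (b : ℤ) + 1) * (j' - j) < (2 * b + 1) * 1 := by linarith
    have hp : (0 : ℤ) < 2 * b + 1 := by positivity
    have c1 := lt_of_mul_lt_mul_left hlt1 hp.le
    have c2 := lt_of_mul_lt_mul_left hlt2 hp.le
    have : j = j' := by omega
    rw [this]
  · rw [Fintype.card_piFinset]
    simp only [card_col, Finset.prod_const, Finset.card_univ, Fintype.card_fin]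
    push_cast
    rw [← mul_pow]
    refine pow_le_pow_left₀ (by positivity) ?_ d
    have h : n ≤ (2 * b + 1) * (2 * k + 1) := by
      have h1 : (2 * b + 1) * (2 * k + 1) + (2 * b + 1) = 2 * ((2 * b + 1) * (k + 1)) := by ring
      omega
    exact_mod_cast h

end Pool.Agent.FKS
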