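import Pool.Agent.FKS.TargetsU
import Pool.Agent.FKP.Lem

/-!
# Project FKS, part U: two boxes at distance `r` are connected in the box of radius `R` (T_KFR)
-/

set_option autoImplicit false

namespace Pool.Agent.FKS

open Filter MeasureTheory Pool.Agent.FKP
open Pool.Agent.FKT hiding ind

namespace KFR_

variable {d : ℕ}

theorem mem_bx {x v : Vx d} {n : ℕ} :
    v ∈ bx x n ↔ ∀ i, x i - n ≤ v i ∧ v i ≤ x i + n := by
  unfold bx
  rw [Finset.mem_Icc, Pi.le_def, Pi.le_def]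
  constructor
  · intro h i
    exact ⟨h.1 i, h.2 i⟩
  · intro h
    exact ⟨fun i => (h i).1, fun i => (h i).2⟩

theorem mem_bx0 {v : Vx d} {n : ℕ} :
    v ∈ bx (0 : Vx d) n ↔ ∀ i, -(n : ℤ) ≤ v i ∧ v i ≤ n := by
  rw [mem_bx]
  refine forall_congr' fun i => ?_
  rw [Pi.zero_apply, zero_sub, zero_add]

theorem mem_eb {x : Vx d} {n : ℕ} {e : Ed d} :
    e ∈ eb x n ↔ e.1 ∈ bx x n ∧ tgt e ∈ bx x n := by
  unfold eb
  rw [Finset.mem_filter, Finset.mem_product]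
  simp

theorem eb_mono {x y : Vx d} {n m : ℕ} (h : bx x n ⊆ bx y m) : eb x n ⊆ eb y m := by
  intro e he
  rw [mem_eb] at he ⊢
  exact ⟨h he.1, h he.2⟩

theorem tgt_tr (y : Vx d) (e : Ed d) : tgt (trE y e) = tgt e + y := by
  show (e.1 + y) + Pi.single e.2 1 = (e.1 + Pi.single e.2 1) + y
  abel

/-- Translation of connections. -/
theorem Cn_tr (u : Vx d) {O : Set (Ed d)} {x z : Vx d} (h : Cn O x z) :
    Cn (trE u '' O) (x + u) (z + u) := by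
  unfold Cn FKT.Con at h ⊢
  induction h with
  | rel x y hxy =>
    apply Relation.EqvGen.rel
    rcases hxy with h | ⟨e, he, h1, h2⟩
    · exact h.elim
    · refine Or.inr ⟨trE u e, Set.mem_image_of_mem _ he, ?_, ?_⟩
      · show e.1 + u = x + u
        rw [← h1]
      · rw [tgt_tr, ← h2]
  | refl x => exact Relation.EqvGen.refl _
  | symm x y _ ih => exact Relation.EqvGen.symm _ _ ih
  | trans x y z _ _ ih1 ih2 => exact Relation.EqvGen.trans _ _ _ ih1 ih2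

theorem BB_mono (a b : Vx d) (s : ℕ) (y : Vx d) (R : ℕ) : Inc (BB a b s y R) := by
  intro ω ω' h hb
  obtain ⟨x, hx, z, hz, hc⟩ := hb
  refine ⟨x, hx, z, hz, ?_⟩
  refine Con_mono (fun _ _ h => h) ?_ hc
  rw [Finset.coe_inter, Finset.coe_inter]
  exact Set.inter_subset_inter_left _ (by exact_mod_cast h)

/-- Larger boxes. -/
theorem BB_box {a b : Vx d} {s : ℕ} {y y' : Vx d} {R R' : ℕ} (h : bx y R ⊆ bx y' R')
    {ω ω' : Finset (Ed d)} (hω : ω ∩ eb y R ⊆ ω') (hb : BB a b s y R ω) : BB a b s y' R' ω' := by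
  obtain ⟨x, hx, z, hz, hc⟩ := hb
  refine ⟨x, hx, z, hz, ?_⟩
  refine Con_mono (fun _ _ h => h) ?_ hc
  have h2 : ω ∩ eb y R ⊆ ω' ∩ eb y' R' :=
    Finset.subset_inter hω (Finset.Subset.trans Finset.inter_subset_right (eb_mono h))
  exact_mod_cast h2

/-- Translating back. -/
theorem BB_back {v w : Vx d} {s R : ℕ} {ω : Finset (Ed d)}
    (hb : BB v (v + w) s v R (ω.map (trE v).toEmbedding)) : BB (0 : Vx d) w s 0 R ω := by
  obtain ⟨x, hx, z, hz, hc⟩ := hb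
  refine ⟨x + -v, ?_, z + -v, ?_, ?_⟩
  · rw [mem_bx] at hx
    rw [mem_bx0]
    intro i
    have := hx i
    rw [Pi.add_apply, Pi.neg_apply]
    omega
  · rw [mem_bx] at hz ⊢
    intro i
    have := hz i
    rw [Pi.add_apply] at this
    rw [Pi.add_apply, Pi.neg_apply]
    omega
  · refine Con_mono (fun _ _ h => h) ?_ (Cn_tr (-v) hc)
    rintro e' ⟨e, he, rfl⟩
    rw [Finset.coe_inter] at he
    obtain ⟨he1, he2⟩ := he
    rw [Finset.coe_map] at he1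
    obtain ⟨e0, he0, rfl⟩ := he1
    have h1 : trE (-v) ((trE v) e0) = e0 := by
      show ((e0.1 + v) + -v, e0.2) = e0
      rw [add_neg_cancel_right]
    have h2 : (trE v).toEmbedding e0 = (trE v) e0 := rfl
    rw [h2] at he2 ⊢
    rw [h1, Finset.coe_inter]
    refine ⟨he0, ?_⟩
    rw [Finset.mem_coe, mem_eb] at he2 ⊢
    rw [tgt_tr, mem_bx, mem_bx] at he2
    rw [mem_bx0, mem_bx0]
    obtain ⟨ha, hb⟩ := he2
    refine ⟨fun i => ?_, fun i => ?_⟩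
    · have := ha i
      have e1 : ((trE v) e0).1 i = e0.1 i + v i := rfl
      rw [e1] at this
      omega
    · have := hb i
      rw [Pi.add_apply] at this
      omega

/-- The numerical estimate. -/
theorem num {d D0 K0 r R n b : ℕ} {c0 : ℝ} (hc0 : 0 < c0) (hr : 1 ≤ r)
    (hb : b = K0 * (2 * r) ^ D0 + 2 * r) (hn : n = R / 2) (hbn : b ≤ n) :
    (4 * (r : ℝ) + 1) ^ (2 * d) * (2 * (b : ℝ) + 1) ^ d / (c0 / ((2 * r : ℕ) : ℝ) ^ D0 * n) ≤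
      (5 ^ (2 * d) * (2 * (K0 * 2 ^ D0 : ℝ) + 5) ^ d * 2 ^ D0 * 4 / c0) *
        ((r : ℝ) ^ (2 * d + (D0 + 1) * d + D0) / R) := by
  have hr1 : (1 : ℝ) ≤ r := by exact_mod_cast hr
  have hr0 : (0 : ℝ) < r := lt_of_lt_of_le one_pos hr1
  have hb2 : 2 ≤ b := by
    rw [hb]
    have : 2 * 1 ≤ 2 * r := Nat.mul_le_mul_left 2 hr
    omega
  have hR : R ≤ 4 * n := by omega
  have hn0 : (0 : ℝ) < n := by
    have : 0 < n := by omega
    exact_mod_cast this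
  have hR0 : (0 : ℝ) < R := by
    have : 0 < R := by omega
    exact_mod_cast this
  have hRn : (R : ℝ) ≤ 4 * n := by exact_mod_cast hR
  have h1 : (4 * (r : ℝ) + 1) ^ (2 * d) ≤ (5 * r) ^ (2 * d) := by
    apply pow_le_pow_left₀ (by positivity)
    linarith
  have hpw : (r : ℝ) ^ D0 ≤ (r : ℝ) ^ (D0 + 1) := pow_le_pow_right₀ hr1 (by omega)
  have hpw1 : (r : ℝ) ≤ (r : ℝ) ^ (D0 + 1) := by
    calc (r : ℝ) = r ^ 1 := (pow_one _).symm
      _ ≤ r ^ (D0 + 1) := pow_le_pow_right₀ hr1 (by omega)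
  have hpw2 : (1 : ℝ) ≤ (r : ℝ) ^ (D0 + 1) := one_le_pow₀ hr1
  have hK : (0 : ℝ) ≤ K0 * 2 ^ D0 := by positivity
  have h2 : 2 * (b : ℝ) + 1 ≤ (2 * (K0 * 2 ^ D0 : ℝ) + 5) * (r : ℝ) ^ (D0 + 1) := by
    have e1 : (b : ℝ) = K0 * 2 ^ D0 * (r : ℝ) ^ D0 + 2 * r := by
      rw [hb]
      push_cast
      rw [mul_pow]
      ring
    rw [e1]
    nlinarith [mul_le_mul_of_nonneg_left hpw hK]
  have h3 : (2 * (b : ℝ) + 1) ^ d ≤
      ((2 * (K0 * 2 ^ D0 : ℝ) + 5) * (r : ℝ) ^ (D0 + 1)) ^ d :=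
    pow_le_pow_left₀ (by positivity) h2 d
  have h4 : (4 * (r : ℝ) + 1) ^ (2 * d) * (2 * (b : ℝ) + 1) ^ d ≤
      (5 * r) ^ (2 * d) * ((2 * (K0 * 2 ^ D0 : ℝ) + 5) * (r : ℝ) ^ (D0 + 1)) ^ d :=
    mul_le_mul h1 h3 (by positivity) (by positivity)
  have h5 : (((2 * r : ℕ) : ℝ)) ^ D0 = 2 ^ D0 * (r : ℝ) ^ D0 := by
    push_cast
    rw [mul_pow]
  rw [h5]
  have h6 : (0 : ℝ) < 2 ^ D0 * (r : ℝ) ^ D0 := by positivity
  have h7 : c0 / (2 ^ D0 * (r : ℝ) ^ D0) * (n : ℝ) > 0 := by positivity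
  rw [div_le_iff₀ h7]
  refine le_trans h4 ?_
  have h8 : (5 * (r : ℝ)) ^ (2 * d) * ((2 * (K0 * 2 ^ D0 : ℝ) + 5) * (r : ℝ) ^ (D0 + 1)) ^ d =
      5 ^ (2 * d) * (2 * (K0 * 2 ^ D0 : ℝ) + 5) ^ d * (r : ℝ) ^ (2 * d + (D0 + 1) * d) := by
    rw [mul_pow, mul_pow, ← pow_mul, pow_add]
    ring
  rw [h8]
  have h9 : (5 ^ (2 * d) * (2 * (K0 * 2 ^ D0 : ℝ) + 5) ^ d * 2 ^ D0 * 4 / c0) *
      ((r : ℝ) ^ (2 * d + (D0 + 1) * d + D0) / R) *
        (c0 / (2 ^ D0 * (r : ℝ) ^ D0) * n) =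
      5 ^ (2 * d) * (2 * (K0 * 2 ^ D0 : ℝ) + 5) ^ d * (r : ℝ) ^ (2 * d + (D0 + 1) * d) *
        (4 * n / R) := by
    rw [pow_add _ (2 * d + (D0 + 1) * d) D0]
    field_simp
  rw [h9]
  have h10 : (1 : ℝ) ≤ 4 * n / R := by
    rw [one_le_div hR0]
    exact hRn
  exact le_mul_of_one_le_right (by positivity) h10

end KFR_

open KFR_ in
theorem p_KFR (h_TPP : T_TPP) (h_KWF : T_KWF) (h_SHF : T_SHF) (h_MXQ : T_MXQ)
    (h_HOL : FKP.T_HOL) : T_KFR := by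
  intro d p0 p1 q hH
  have hd2 := hH.hd
  have hd : 0 < d := by omega
  have h0 := hH.h0
  have h01 := hH.h01
  have h1 := hH.h1
  have hq := hH.hq
  have hq0 : 0 < q := lt_of_lt_of_le one_pos hq
  obtain ⟨pa, hpa⟩ : ∃ pa : ℝ, pa = (2 * p0 + p1) / 3 := ⟨_, rfl⟩
  obtain ⟨pb, hpb⟩ : ∃ pb : ℝ, pb = (p0 + 2 * p1) / 3 := ⟨_, rfl⟩
  have hpa0 : 0 < pa := by rw [hpa]; linarith
  have hab : pa < pb := by rw [hpa, hpb]; linarith
  have hb1 : pb < p1 := by rw [hpb]; linarith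
  have hb1' : pb < 1 := lt_trans hb1 h1
  have hHa : Hyp d p0 pa q := ⟨hd2, h0, by rw [hpa]; linarith, lt_trans hab hb1', hq, hH.per⟩
  obtain ⟨c0, D0, K0, hc0, hTPP⟩ := h_TPP d p0 pa q hHa
  obtain ⟨c1, C1, hc1, hC1, hKWF⟩ := h_KWF d p0 pa pb q hHa hab hb1'
  obtain ⟨C2, hC2, hMXQ⟩ := h_MXQ d pb p1 q hd (lt_trans hpa0 hab) hb1 h1 hq
  obtain ⟨B, hB⟩ : ∃ B : ℝ, B = 2 * (K0 * 2 ^ D0 : ℝ) + 5 := ⟨_, rfl⟩
  obtain ⟨A, hA⟩ : ∃ A : ℝ, A = 5 ^ (2 * d) * (2 * (K0 * 2 ^ D0 : ℝ) + 5) ^ d * 2 ^ D0 * 4 / c0 :=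
    ⟨_, rfl⟩
  have hB0 : 0 < B := by rw [hB]; positivity
  have hA0 : 0 < A := by rw [hA]; positivity
  obtain ⟨D, hD⟩ : ∃ D : ℕ, D = 2 * d + (D0 + 1) * d + D0 := ⟨_, rfl⟩
  have hdD : d ≤ D := by
    obtain ⟨t, ht⟩ : ∃ t : ℕ, t = (D0 + 1) * d := ⟨_, rfl⟩
    rw [hD, ← ht]
    omega
  have hD1 : D0 + 1 ≤ D := by
    obtain ⟨t, ht⟩ : ∃ t : ℕ, t = (D0 + 1) * d := ⟨_, rfl⟩
    rw [hD, ← ht]
    omega
  refine ⟨c1, C1 + C1 * A + C2 * 3 ^ d + B, D, hc1, by positivity, ?_⟩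
  intro s r R N hs hsr hrR hRN w hw
  have hr : 1 ≤ r := le_trans hs hsr
  have hR : 1 ≤ R := le_trans hr hrR
  have hN : 1 ≤ N := le_trans hR hRN
  have hr1 : (1 : ℝ) ≤ r := by exact_mod_cast hr
  have hR1 : (1 : ℝ) ≤ R := by exact_mod_cast hR
  have hN1 : (1 : ℝ) ≤ N := by exact_mod_cast hN
  have hs0 : 0 ≤ (s : ℝ) ^ (-c1) := Real.rpow_nonneg (Nat.cast_nonneg _) _
  have hrD : 0 ≤ (r : ℝ) ^ D / R := by positivity
  have hRD : 0 ≤ (R : ℝ) ^ D / N := by positivity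
  obtain ⟨b, hb⟩ : ∃ b : ℕ, b = K0 * (2 * r) ^ D0 + 2 * r := ⟨_, rfl⟩
  obtain ⟨n, hn⟩ : ∃ n : ℕ, n = R / 2 := ⟨_, rfl⟩
  change _ ≤ fr (bx 0 N) p1 q fun ω => ind (BB (0 : Vx d) w s 0 R ω)
  by_cases hbn : b ≤ n
  swap
  · -- the trivial case
    have h2 : R ≤ 2 * b + 1 := by omega
    have h3 : (R : ℝ) ≤ 2 * b + 1 := by exact_mod_cast h2
    have h4 : (b : ℝ) = K0 * 2 ^ D0 * (r : ℝ) ^ D0 + 2 * r := by
      rw [hb]
      push_cast
      rw [mul_pow]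
      ring
    have e1 : (r : ℝ) ^ D0 ≤ (r : ℝ) ^ D := pow_le_pow_right₀ hr1 (by omega)
    have e2 : (r : ℝ) ≤ (r : ℝ) ^ D := by
      calc (r : ℝ) = r ^ 1 := (pow_one _).symm
        _ ≤ r ^ D := pow_le_pow_right₀ hr1 (by omega)
    have e3 : (1 : ℝ) ≤ (r : ℝ) ^ D := one_le_pow₀ hr1
    have hK : (0 : ℝ) ≤ K0 * 2 ^ D0 := by positivity
    have h5 : (R : ℝ) ≤ B * (r : ℝ) ^ D := by
      refine le_trans h3 ?_
      rw [h4, hB]
      nlinarith [mul_le_mul_of_nonneg_left e1 hK]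
    have h6 : 1 ≤ B * ((r : ℝ) ^ D / R) := by
      rw [← mul_div_assoc, one_le_div (lt_of_lt_of_le one_pos hR1)]
      exact h5
    have h7 : 0 ≤ fr (bx 0 N) p1 q fun ω => ind (BB (0 : Vx d) w s 0 R ω) :=
      Ex_nonneg (lt_trans h0 h01) h1 hq0 fun ω _ => ind_nonneg _
    have h8 : 0 ≤ C1 + C1 * A + C2 * 3 ^ d + B := by positivity
    have h9 : 0 ≤ (C1 + C1 * A + C2 * 3 ^ d) * ((r : ℝ) ^ D / R) :=
      mul_nonneg (by positivity) hrD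
    nlinarith [mul_nonneg h8 hs0, mul_nonneg h8 hRD]
  -- the main case
  have hh : 0 < c0 / ((2 * r : ℕ) : ℝ) ^ D0 := by
    have : (0 : ℝ) < ((2 * r : ℕ) : ℝ) := by
      have : 0 < 2 * r := by omega
      exact_mod_cast this
    positivity
  have h2n : 2 * n ≤ R := by omega
  obtain ⟨p, hp1, hp2, v, hv, hP⟩ := hKWF s r b n (N + n) (c0 / ((2 * r : ℕ) : ℝ) ^ D0) hs hsr
    (by omega) hbn (by omega) hh
    (fun x hx y hy => hTPP (2 * r) b (by omega) (by omega) x hx y hy) w hw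
  have hp : 0 < p := lt_of_lt_of_le hpa0 hp1
  have hp1' : p < 1 := lt_of_le_of_lt hp2 hb1'
  have hbx1 : bx (0 : Vx d) n ⊆ bx v (2 * n) := by
    intro z hz
    rw [mem_bx0] at hz hv
    rw [mem_bx]
    intro i
    have a1 := hz i
    have a2 := hv i
    push_cast
    omega
  have hbx2 : bx v (2 * n) ⊆ bx v N := by
    intro z hz
    rw [mem_bx] at hz ⊢
    intro i
    have a1 := hz i
    have : ((2 * n : ℕ) : ℤ) ≤ N := by exact_mod_cast (le_trans h2n hRN)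
    omega
  have s1 : (phi (0 : Vx d) (N + n) p q fun ω => ind (BB v (v + w) s 0 n ω)) ≤
      phi (0 : Vx d) (N + n) p q fun ω =>
        ind (BB v (v + w) s v (2 * n) (ω ∩ eb v N)) := by
    apply Ex_mono hp hp1' hq0
    intro ω _
    apply ind_mono
    apply BB_box hbx1
    exact Finset.inter_subset_inter_left (eb_mono (Finset.Subset.trans hbx1 hbx2))
  have s2 := (h_SHF d hd p q hp hp1' hq v N n hv (fun ω => ind (BB v (v + w) s v (2 * n) ω))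
    (fun a b hab => ind_mono (BB_mono v (v + w) s v (2 * n) a b hab))).2
  have s3 : (phi (0 : Vx d) N p q fun ω =>
      ind (BB v (v + w) s v (2 * n) (ω.map (trE v).toEmbedding))) ≤
      phi (0 : Vx d) N p q fun ω => ind (BB (0 : Vx d) w s 0 R ω) := by
    apply Ex_mono hp hp1' hq0
    intro ω _
    apply ind_mono
    intro h
    refine BB_box ?_ Finset.inter_subset_left (BB_back h)
    intro z hz
    rw [mem_bx0] at hz ⊢
    intro i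
    have a1 := hz i
    have : ((2 * n : ℕ) : ℤ) ≤ R := by exact_mod_cast h2n
    omega
  have s4 : (phi (0 : Vx d) N p q fun ω => ind (BB (0 : Vx d) w s 0 R ω)) ≤
      phi (0 : Vx d) N pb q fun ω => ind (BB (0 : Vx d) w s 0 R ω) := by
    refine h_HOL (Vx d) (Ed d) Prod.fst tgt (Wir (0 : Vx d) N) (Wir (0 : Vx d) N) (bx 0 N)
      (eb 0 N) p pb q hp hp2 hb1' hq (fun _ _ h => h) (fun e he => mem_eb.mp he) _ ?_
    intro a b hab _
    exact ind_mono (BB_mono 0 w s 0 R a b hab)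
  have s5 := hMXQ R N hRN (BB (0 : Vx d) w s 0 R) (BB_mono 0 w s 0 R)
  have s6 : ∀ ω : Finset (Ed d), BB (0 : Vx d) w s 0 R (ω ∩ eb 0 R) ↔ BB (0 : Vx d) w s 0 R ω := by
    intro ω
    unfold BB
    rw [Finset.inter_assoc, Finset.inter_self]
  simp only [s6] at s5
  have s7 := num (d := d) hc0 hr hb hn hbn
  rw [← hA, ← hD] at s7
  have s8 : C2 * (2 * (R : ℝ) + 1) ^ d / ((N : ℝ) + 1) ≤ C2 * 3 ^ d * ((R : ℝ) ^ D / N) := by
    have t1 : (2 * (R : ℝ) + 1) ^ d ≤ (3 * R) ^ d :=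
      pow_le_pow_left₀ (by positivity) (by linarith) d
    have t2 : (R : ℝ) ^ d ≤ (R : ℝ) ^ D := pow_le_pow_right₀ hR1 hdD
    have t3 : (2 * (R : ℝ) + 1) ^ d ≤ 3 ^ d * (R : ℝ) ^ D := by
      refine le_trans t1 ?_
      rw [mul_pow]
      exact mul_le_mul_of_nonneg_left t2 (by positivity)
    have t4 : C2 * (2 * (R : ℝ) + 1) ^ d ≤ C2 * (3 ^ d * (R : ℝ) ^ D) :=
      mul_le_mul_of_nonneg_left t3 hC2.le
    calc C2 * (2 * (R : ℝ) + 1) ^ d / ((N : ℝ) + 1) ≤ C2 * (3 ^ d * (R : ℝ) ^ D) / N := by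
          apply div_le_div₀ (by positivity) t4 (by linarith) (by linarith)
      _ = C2 * 3 ^ d * ((R : ℝ) ^ D / N) := by ring
  have s9 : C1 * ((4 * (r : ℝ) + 1) ^ (2 * d) * (2 * (b : ℝ) + 1) ^ d /
      (c0 / ((2 * r : ℕ) : ℝ) ^ D0 * n)) ≤ C1 * (A * ((r : ℝ) ^ D / R)) :=
    mul_le_mul_of_nonneg_left s7 hC1.le
  have t1 : 0 ≤ (C1 * A + C2 * 3 ^ d + B) * (s : ℝ) ^ (-c1) :=
    mul_nonneg (by positivity) hs0
  have t2 : 0 ≤ (C1 + C2 * 3 ^ d + B) * ((r : ℝ) ^ D / R) := mul_nonneg (by positivity) hrD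
  have t3 : 0 ≤ (C1 + C1 * A + B) * ((R : ℝ) ^ D / N) := mul_nonneg (by positivity) hRD
  linarith [s1, s2, s3, s4, s5, s8, s9, hP, t1, t2, t3]

end Pool.Agent.FKS
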