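import Pool.Agent.FKS.TargetsU
import Pool.Agent.FKP.Lem

/-!
# Project FKS, part U: two boxes are connected, wired box (T_KWF)
-/

set_option autoImplicit false

namespace Pool.Agent.FKS

open Filter MeasureTheory Pool.Agent.FKP
open Pool.Agent.FKT hiding ind

namespace KWF_

variable {d : ℕ}

theorem mem_bx {x v : Vx d} {n : ℕ} :
    v ∈ bx x n ↔ ∀ i, x i - n ≤ v i ∧ v i ≤ x i + n := by
  unfold bx
  rw [Finset.mem_Icc, Pi.le_def, Pi.le_def]
  constructor
  · intro h i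
    exact ⟨h.1 i, h.2 i⟩
  · intro h
    exact ⟨fun i => (h i).1, fun i => (h i).2⟩

theorem mem_bx0 {v : Vx d} {n : ℕ} :
    v ∈ bx (0 : Vx d) n ↔ ∀ i, -(n : ℤ) ≤ v i ∧ v i ≤ n := by
  rw [mem_bx]
  refine forall_congr' fun i => ?_
  rw [Pi.zero_apply, zero_sub, zero_add]

theorem mem_bd {x v : Vx d} {n : ℕ} :
    v ∈ bd x n ↔ v ∈ bx x n ∧ ∃ i, v i = x i - n ∨ v i = x i + n := by
  unfold bd
  rw [Finset.mem_filter]

theorem eb_mono {n m : ℕ} (h : n ≤ m) : eb (0 : Vx d) n ⊆ eb (0 : Vx d) m := by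
  intro e he
  unfold eb at he ⊢
  simp only [Finset.mem_filter, Finset.mem_product, Finset.mem_univ, and_true] at he ⊢
  have hsub : bx (0 : Vx d) n ⊆ bx (0 : Vx d) m := by
    intro v hv
    rw [mem_bx0] at hv ⊢
    intro i
    have := hv i
    omega
  exact ⟨hsub he.1, hsub he.2⟩

theorem tgt_tr (y : Vx d) (e : Ed d) : tgt (trE y e) = tgt e + y := by
  show (e.1 + y) + Pi.single e.2 1 = (e.1 + Pi.single e.2 1) + y
  abel

/-- Translation of connections. -/
theorem Cn_tr (u : Vx d) {O : Set (Ed d)} {x z : Vx d} (h : Cn O x z) :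
    Cn (trE u '' O) (x + u) (z + u) := by
  unfold Cn FKT.Con at h ⊢
  induction h with
  | rel x y hxy =>
    apply Relation.EqvGen.rel
    rcases hxy with h | ⟨e, he, h1, h2⟩
    · exact h.elim
    · refine Or.inr ⟨trE u e, Set.mem_image_of_mem _ he, ?_, ?_⟩
      · show e.1 + u = x + u
        rw [← h1]
      · rw [tgt_tr, ← h2]
  | refl x => exact Relation.EqvGen.refl _
  | symm x y _ ih => exact Relation.EqvGen.symm _ _ ih
  | trans x y z _ _ ih1 ih2 => exact Relation.EqvGen.trans _ _ _ ih1 ih2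

theorem BD_mono (a : Vx d) (s : ℕ) (y : Vx d) (R : ℕ) {ω ω' : Finset (Ed d)} (h : ω ⊆ ω')
    (hb : BD a s y R ω) : BD a s y R ω' := by
  obtain ⟨x, hx, z, hz, hc⟩ := hb
  refine ⟨x, hx, z, hz, ?_⟩
  refine Con_mono (fun _ _ h => h) ?_ hc
  rw [Finset.coe_inter, Finset.coe_inter]
  exact Set.inter_subset_inter_left _ (by exact_mod_cast h)

/-- The translated connection event. -/
theorem BD_tr (h_EXT : T_EXTU) {u : Vx d} {s n M : ℕ} (hu : u ∈ bx (0 : Vx d) n)
    (hus : bx u s ⊆ bx (0 : Vx d) n) (hM : n ≤ M) {ω : Finset (Ed d)}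
    (h : BD (0 : Vx d) s 0 (2 * n) ω) :
    BD u s 0 n ((ω.map (trE u).toEmbedding) ∩ eb (0 : Vx d) M) := by
  obtain ⟨x, hx, z, hz, hc⟩ := h
  have hxu : x + u ∈ bx u s := by
    rw [mem_bx]
    rw [mem_bx0] at hx
    intro i
    have := hx i
    rw [Pi.add_apply]
    omega
  have h1 : Cn (trE u '' (ω : Set (Ed d))) (x + u) (z + u) := by
    refine Cn_tr u (Con_mono (fun _ _ h => h) ?_ hc)
    rw [Finset.coe_inter]
    exact Set.inter_subset_left
  have hz' : z + u ∉ bx (0 : Vx d) n ∨ z + u ∈ bd (0 : Vx d) n := by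
    by_cases hin : z + u ∈ bx (0 : Vx d) n
    · right
      rw [mem_bd]
      refine ⟨hin, ?_⟩
      rw [mem_bd] at hz
      obtain ⟨_, i, hi⟩ := hz
      refine ⟨i, ?_⟩
      rw [mem_bx0] at hin hu
      have a1 := hin i
      have a2 := hu i
      rw [Pi.add_apply] at a1 ⊢
      rw [Pi.zero_apply] at hi ⊢
      push_cast at hi
      rcases hi with hi | hi
      · left
        omega
      · right
        omega
    · left
      exact hin
  obtain ⟨z', hz'b, hc'⟩ := h_EXT d 0 n (trE u '' (ω : Set (Ed d))) (x + u) (z + u)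
    (hus hxu) hz' h1
  refine ⟨x + u, hxu, z', hz'b, ?_⟩
  refine Con_mono (fun _ _ h => h) ?_ hc'
  rw [Finset.coe_inter, Finset.coe_inter, Finset.coe_map]
  rintro e ⟨he1, he2⟩
  exact ⟨⟨he1, by exact_mod_cast eb_mono hM he2⟩, he2⟩

theorem ind_BB {v : Vx d} {s r n : ℕ} {w : Vx d} (hs : s ≤ r) (hw : w ∈ bx (0 : Vx d) r)
    (ω : Finset (Ed d)) :
    ind (BD v s 0 n ω) + ind (BD (v + w) s 0 n ω) - 1 -
      ∑ x ∈ bx (0 : Vx d) (2 * r), ∑ y ∈ bx (0 : Vx d) (2 * r),
        ind (Dst (v + x) (v + y) n ω) ≤ ind (BB v (v + w) s 0 n ω) := by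
  have hsum : 0 ≤ ∑ x ∈ bx (0 : Vx d) (2 * r), ∑ y ∈ bx (0 : Vx d) (2 * r),
      ind (Dst (v + x) (v + y) n ω) :=
    Finset.sum_nonneg fun x _ => Finset.sum_nonneg fun y _ => ind_nonneg _
  by_cases h1 : BD v s 0 n ω
  · by_cases h2 : BD (v + w) s 0 n ω
    · by_cases h3 : BB v (v + w) s 0 n ω
      · rw [ind_true h1, ind_true h2, ind_true h3]
        linarith
      · rw [ind_true h1, ind_true h2, ind_false h3]
        obtain ⟨x, hx, z, hz, hc⟩ := h1
        obtain ⟨y, hy, z', hz', hc'⟩ := h2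
        have hn : ¬ Cf (ω ∩ eb (0 : Vx d) n) x y := fun hxy => h3 ⟨x, hx, y, hy, hxy⟩
        have hx' : x - v ∈ bx (0 : Vx d) (2 * r) := by
          rw [mem_bx] at hx
          rw [mem_bx0]
          intro i
          have := hx i
          rw [Pi.sub_apply]
          push_cast
          omega
        have hy' : y - v ∈ bx (0 : Vx d) (2 * r) := by
          rw [mem_bx] at hy
          rw [mem_bx0] at hw ⊢
          intro i
          have a := hy i
          have b := hw i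
          rw [Pi.add_apply] at a
          rw [Pi.sub_apply]
          push_cast
          omega
        have hD : Dst (v + (x - v)) (v + (y - v)) n ω := by
          rw [add_sub_cancel, add_sub_cancel]
          exact ⟨hn, ⟨z, hz, Con_symm hc⟩, ⟨z', hz', Con_symm hc'⟩⟩
        have h4 : (1 : ℝ) ≤ ∑ x ∈ bx (0 : Vx d) (2 * r), ∑ y ∈ bx (0 : Vx d) (2 * r),
            ind (Dst (v + x) (v + y) n ω) := by
          calc (1 : ℝ) = ind (Dst (v + (x - v)) (v + (y - v)) n ω) := (ind_true hD).symm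
            _ ≤ ∑ y ∈ bx (0 : Vx d) (2 * r), ind (Dst (v + (x - v)) (v + y) n ω) :=
              Finset.single_le_sum (f := fun y => ind (Dst (v + (x - v)) (v + y) n ω))
                (fun y _ => ind_nonneg _) hy'
            _ ≤ _ := Finset.single_le_sum
                (f := fun x => ∑ y ∈ bx (0 : Vx d) (2 * r), ind (Dst (v + x) (v + y) n ω))
                (fun x _ => Finset.sum_nonneg fun y _ => ind_nonneg _) hx'
        linarith
    · rw [ind_false h2]
      have := ind_le_one (BD v s 0 n ω)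
      have := ind_nonneg (BB v (v + w) s 0 n ω)
      linarith
  · rw [ind_false h1]
    have := ind_le_one (BD (v + w) s 0 n ω)
    have := ind_nonneg (BB v (v + w) s 0 n ω)
    linarith

end KWF_

open KWF_ in
theorem p_KWF (h_UZF : T_UZF) (h_SHF : T_SHF) (h_EXT : T_EXTU) (h_BTW : T_BTW) : T_KWF := by
  intro d p0 pa pb q hH hab hb1
  have hd : 0 < d := by have := hH.hd; omega
  have hpa : 0 < pa := lt_trans hH.h0 hH.h01
  obtain ⟨c, C2, hc, hC2, hBTW⟩ := h_BTW d p0 pa q hH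
  obtain ⟨C1, hC1, hUZF⟩ := h_UZF d hd pa pb q hpa hab hb1 hH.hq
  refine ⟨c, 2 * C2 + C1, hc, by positivity, ?_⟩
  intro s r b n M h hs hsr hrb hbn hnM hh htp w hw
  obtain ⟨p, hp1, hp2, v, hvb, hsum⟩ := hUZF (2 * r) b n M h (by omega) hrb hbn hnM hh htp
  have hp : 0 < p := lt_of_lt_of_le hpa hp1
  have hp1' : p < 1 := lt_of_le_of_lt hp2 hb1
  have hq0 : 0 < q := lt_of_lt_of_le one_pos hH.hq
  have hvn : v ∈ bx (0 : Vx d) n := by
    apply hvb
    rw [mem_bx]
    intro i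
    omega
  have hvwn : v + w ∈ bx (0 : Vx d) n := by
    apply hvb
    rw [mem_bx]
    rw [mem_bx0] at hw
    intro i
    have := hw i
    rw [Pi.add_apply]
    omega
  -- one box reaches the boundary
  have key : ∀ u : Vx d, u ∈ bx (0 : Vx d) n → bx u s ⊆ bx (0 : Vx d) n →
      1 - C2 * (s : ℝ) ^ (-c) ≤ phi (0 : Vx d) M p q fun ω => ind (BD u s 0 n ω) := by
    intro u hu hus
    have h1 := hBTW p hp1 hp1' s (2 * n) (M + n) hs (by omega) (by omega)
    have h2 := (h_SHF d hd p q hp hp1' hH.hq u M n hu (fun ω => ind (BD u s 0 n ω))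
      (fun a b hab => ind_mono (BD_mono u s 0 n hab))).1
    refine le_trans h1 (le_trans ?_ h2)
    apply Ex_mono hp hp1' hq0
    intro ω _
    exact ind_mono (BD_tr h_EXT hu hus hnM)
  have k1 := key v hvn (fun x hx => hvb (by
    rw [mem_bx] at hx ⊢
    intro i
    have := hx i
    omega))
  have k2 := key (v + w) hvwn (fun x hx => hvb (by
    rw [mem_bx] at hx ⊢
    rw [mem_bx0] at hw
    intro i
    have a := hx i
    have b := hw i
    rw [Pi.add_apply] at a
    omega))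
  refine ⟨p, hp1, hp2, v, hvn, ?_⟩
  have k3 : phi (0 : Vx d) M p q (fun ω => ind (BD v s 0 n ω) + ind (BD (v + w) s 0 n ω) - 1 -
      ∑ x ∈ bx (0 : Vx d) (2 * r), ∑ y ∈ bx (0 : Vx d) (2 * r),
        ind (Dst (v + x) (v + y) n ω)) ≤ phi (0 : Vx d) M p q fun ω =>
          ind (BB v (v + w) s 0 n ω) := by
    apply Ex_mono hp hp1' hq0
    intro ω _
    exact ind_BB hsr hw ω
  have k4 : phi (0 : Vx d) M p q (fun ω => ind (BD v s 0 n ω) + ind (BD (v + w) s 0 n ω) - 1 -
      ∑ x ∈ bx (0 : Vx d) (2 * r), ∑ y ∈ bx (0 : Vx d) (2 * r),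
        ind (Dst (v + x) (v + y) n ω)) =
      phi (0 : Vx d) M p q (fun ω => ind (BD v s 0 n ω)) +
        phi (0 : Vx d) M p q (fun ω => ind (BD (v + w) s 0 n ω)) - 1 -
        ∑ x ∈ bx (0 : Vx d) (2 * r), ∑ y ∈ bx (0 : Vx d) (2 * r),
          phi (0 : Vx d) M p q (fun ω => ind (Dst (v + x) (v + y) n ω)) := by
    unfold phi
    rw [Ex_sub, Ex_sub, Ex_add, Ex_const hp hp1' hq0, Ex_sum]
    congr 1
    exact Finset.sum_congr rfl fun x _ => Ex_sum _ _
  have e1 : (2 * ((2 * r : ℕ) : ℝ) + 1) = 4 * (r : ℝ) + 1 := by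
    push_cast
    ring
  rw [e1] at hsum
  have hs0 : 0 ≤ (s : ℝ) ^ (-c) := Real.rpow_nonneg (Nat.cast_nonneg _) _
  have hX : 0 ≤ (4 * (r : ℝ) + 1) ^ (2 * d) * (2 * (b : ℝ) + 1) ^ d / (h * n) := by
    positivity
  rw [k4] at k3
  nlinarith [mul_nonneg hC2.le hX, mul_nonneg hC1.le hs0]

end Pool.Agent.FKS
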