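import Pool.Agent.FKS.TargetsU
import Pool.Agent.FKP.Lem
import Pool.Agent.FKP.P_LGD

/-!
# Project FKS, MVN: the mean value theorem for the expectation of a bounded function
-/

set_option autoImplicit false

namespace Pool.Agent.FKS

open Filter MeasureTheory Pool.Agent.FKP
open Pool.Agent.FKT hiding ind

theorem p_MVN (h_DER : FKP.T_DER) : T_MVN := by
  intro V E _ s t R U G q la lb M hq hab N hN
  have hd := h_DER V E s t R U G q hq N
  obtain ⟨c, hc, hcs⟩ := exists_hasDerivAt_eq_slope (fun l => Ex s t R U G (lg l) q N) _ hab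
    (fun x _ => (hd x).continuousAt.continuousWithinAt) (fun x _ => hd x)
  refine ⟨c, hc.1.le, hc.2.le, ?_⟩
  have hp0 := LGD_.lg_pos c
  have hp1 := LGD_.lg_lt c
  have e1 : Ex s t R U G (lg c) q (fun ω => N ω * (ω.card : ℝ)) =
      ∑ e ∈ G, Ex s t R U G (lg c) q (fun ω => N ω * ind (e ∈ ω)) := by
    rw [← Ex_sum]
    refine Ex_congr fun ω hω => ?_
    rw [LGD_.card_eq G ω hω, Finset.mul_sum]
  have e2 := LGD_.ex_card s t R U G (lg c) q
  rw [e1, e2] at hcs
  have e3 : ∑ e ∈ G, (Ex s t R U G (lg c) q N * Ex s t R U G (lg c) q (fun ω => ind (e ∈ ω)) -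
      Ex s t R U G (lg c) q fun ω => N ω * ind (e ∈ ω)) =
      (Ex s t R U G (lg la) q N - Ex s t R U G (lg lb) q N) / (lb - la) := by
    rw [Finset.sum_sub_distrib, ← Finset.mul_sum]
    have : (Ex s t R U G (lg la) q N - Ex s t R U G (lg lb) q N) / (lb - la) =
        -((Ex s t R U G (lg lb) q N - Ex s t R U G (lg la) q N) / (lb - la)) := by ring
    rw [this, ← hcs]
    ring
  rw [e3]
  have hpos : 0 < lb - la := by linarith
  refine div_le_div_of_nonneg_right ?_ hpos.le
  have h1 : Ex s t R U G (lg la) q N ≤ M := by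
    have := Ex_mono (s := s) (t := t) (R := R) (U := U) (G := G) (LGD_.lg_pos la)
      (LGD_.lg_lt la) hq (f := N) (g := fun _ => M) fun ω hω => (hN ω hω).2
    rwa [Ex_const (LGD_.lg_pos la) (LGD_.lg_lt la) hq] at this
  have h2 : 0 ≤ Ex s t R U G (lg lb) q N :=
    Ex_nonneg (LGD_.lg_pos lb) (LGD_.lg_lt lb) hq fun ω hω => (hN ω hω).1
  linarith

end Pool.Agent.FKS
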