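import Pool.Agent.FKS.TargetsU
import Pool.Agent.FKP.Lem
import Pool.Agent.FKP.P_MIX

/-!
# Project FKS: quantitative mixing (T_MXQ)
-/

set_option autoImplicit false

namespace Pool.Agent.FKS

open Filter MeasureTheory Pool.Agent.FKP
open Pool.Agent.FKT hiding ind

namespace MXQ_

/-- The quantitative bound behind `FKP.p_MIX`. -/
theorem bound (h_MVT : FKP.T_MVT) (h_AVY : FKP.T_AVY) (h_INB : FKP.T_INB) (h_HOL : FKP.T_HOL)
    (h_CNT : FKT.T_CNT) {d : ℕ} (hd : 0 < d) {la lb q : ℝ} (hl : la < lb) (hq : 1 ≤ q)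
    {m N : ℕ} (hmN : 4 * m ≤ N) :
    ∃ l : ℝ, la ≤ l ∧ l ≤ lb ∧
      ∑ e ∈ eb (0 : Vx d) m, (phi (0 : Vx d) N (lg l) q (fun ω => ind (e ∈ ω)) -
        fr (bx (0 : Vx d) N) (lg l) q fun ω => ind (e ∈ ω)) ≤
      (2 * m + 1 : ℝ) ^ d * (2 * (2 ^ d * (2 * d * (Real.log q / (lb - la))))) / ((N : ℝ) + 1) := by
  have hlq : 0 ≤ Real.log q := Real.log_nonneg hq
  set K : ℝ := (2 * m + 1 : ℝ) ^ d * 2 ^ d * (2 * d * (Real.log q / (lb - la))) with hK
  have hll : 0 ≤ Real.log q / (lb - la) := div_nonneg hlq (by linarith)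
  have hK0 : 0 ≤ K := by positivity
  set n := N / 2 with hn
  have hn1 : 2 * n ≤ N := by omega
  have hn2 : N ≤ 2 * n + 1 := by omega
  have hn3 : 2 * m ≤ n := by omega
  have hmn : m ≤ n := by omega
  obtain ⟨l, hl1, hl2, hs⟩ := h_MVT d n q la lb hq hl
  have hp0 := MIX_.lg_pos l
  have hp1 := MIX_.lg_lt_one l
  refine ⟨l, hl1, hl2, ?_⟩
  set D : Ed d → ℝ := fun e => phi (0 : Vx d) n (lg l) q (fun ω => ind (e ∈ ω)) -
    fr (bx (0 : Vx d) n) (lg l) q fun ω => ind (e ∈ ω) with hD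
  have hD0 : ∀ e, 0 ≤ D e := fun e => MIX_.dif_nonneg h_HOL hp0 hp1 hq e
  obtain ⟨y, hy, hy2⟩ := h_AVY d m n D _ hmn hD0 hs
  refine (h_INB d hd (lg l) q hp0 hp1 hq m n N y hmn hy hn1).trans (hy2.trans ?_)
  have hbd : ((bd (0 : Vx d) n).card : ℝ) ≤ 2 * d * (2 * n + 1) ^ (d - 1) := by
    exact_mod_cast (h_CNT d hd n).2.1
  have hnm : ((n - m : ℕ) : ℝ) = n - m := by push_cast [hmn]; ring
  have hn0 : (0 : ℝ) < 2 * n + 1 := by positivity
  have hm0 : (0 : ℝ) ≤ (m : ℝ) := Nat.cast_nonneg m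
  have hn3' : (2 * m : ℝ) ≤ n := by exact_mod_cast hn3
  have hden : ((2 * n + 1 : ℝ) / 2) ^ d ≤ (2 * ((n - m : ℕ) : ℝ) + 1) ^ d := by
    apply pow_le_pow_left₀ (by positivity)
    rw [hnm]; linarith
  have hden0 : (0 : ℝ) < ((2 * n + 1 : ℝ) / 2) ^ d := by positivity
  have hnum : (2 * m + 1 : ℝ) ^ d * (((bd (0 : Vx d) n).card : ℝ) * Real.log q / (lb - la)) ≤
      (2 * m + 1 : ℝ) ^ d * (2 * d * (2 * n + 1) ^ (d - 1) * (Real.log q / (lb - la))) := by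
    apply mul_le_mul_of_nonneg_left _ (by positivity)
    rw [mul_div_assoc]
    exact mul_le_mul_of_nonneg_right hbd hll
  have hT0 : 0 ≤ (2 * m + 1 : ℝ) ^ d * (2 * d * (2 * n + 1) ^ (d - 1) *
      (Real.log q / (lb - la))) := by positivity
  have hpow : (2 * n + 1 : ℝ) ^ d = (2 * n + 1) ^ (d - 1) * (2 * n + 1) := by
    rw [← pow_succ]; congr 1; omega
  calc (2 * m + 1 : ℝ) ^ d * (((bd (0 : Vx d) n).card : ℝ) * Real.log q / (lb - la)) /
        (2 * ((n - m : ℕ) : ℝ) + 1) ^ d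
      ≤ (2 * m + 1 : ℝ) ^ d * (2 * d * (2 * n + 1) ^ (d - 1) * (Real.log q / (lb - la))) /
        (2 * ((n - m : ℕ) : ℝ) + 1) ^ d :=
        div_le_div_of_nonneg_right hnum (by positivity)
    _ ≤ (2 * m + 1 : ℝ) ^ d * (2 * d * (2 * n + 1) ^ (d - 1) * (Real.log q / (lb - la))) /
        ((2 * n + 1 : ℝ) / 2) ^ d := div_le_div_of_nonneg_left hT0 hden0 hden
    _ = K / (2 * n + 1) := by
        rw [div_pow, hpow, hK]
        field_simp
    _ ≤ (K * 2) / ((N : ℝ) + 1) := by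
        have hN : (N : ℝ) ≤ 2 * n + 1 := by exact_mod_cast hn2
        have hn00 : (0 : ℝ) ≤ (n : ℝ) := Nat.cast_nonneg n
        rw [div_le_div_iff₀ hn0 (by positivity)]
        nlinarith
    _ = _ := by rw [hK]; ring

end MXQ_

open MXQ_ in
theorem p_MXQ (h_MVT : FKP.T_MVT) (h_AVY : FKP.T_AVY) (h_INB : FKP.T_INB) (h_HOL : FKP.T_HOL)
    (h_INC : FKP.T_INC) (h_CNT : FKT.T_CNT) : T_MXQ := by
  intro d pa pb q hd hpa hab hpb hq
  set la := Real.log (pa / (1 - pa)) with hla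
  set lb := Real.log (pb / (1 - pb)) with hlb
  have hl : la < lb := MIX_.log_lt hpa hab hpb
  have hlq : 0 ≤ Real.log q := Real.log_nonneg hq
  have hll : 0 ≤ Real.log q / (lb - la) := div_nonneg hlq (by linarith)
  set K : ℝ := 2 * (2 ^ d * (2 * d * (Real.log q / (lb - la)))) with hK
  have hq0 : 0 < q := by linarith
  refine ⟨max K 4, lt_of_lt_of_le (by norm_num) (le_max_right _ _), fun m N hmN Q hQ => ?_⟩
  have hN0 : (0 : ℝ) < (N : ℝ) + 1 := by positivity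
  have hfr0 : 0 ≤ fr (bx (0 : Vx d) N) pb q fun ω => ind (Q (ω ∩ eb 0 m)) :=
    Ex_nonneg (by linarith) hpb hq0 fun ω _ => ind_nonneg _
  have hphi1 : phi (0 : Vx d) N pa q (fun ω => ind (Q (ω ∩ eb 0 m))) ≤ 1 :=
    Ex_le_one hpa (by linarith) hq0 fun ω _ => ind_le_one _
  by_cases h4 : 4 * m ≤ N
  · obtain ⟨l, hl1, hl2, hs⟩ := bound h_MVT h_AVY h_INB h_HOL h_CNT hd hl hq h4
    have hp0 := MIX_.lg_pos l
    have hp1 := MIX_.lg_lt_one l
    have hpl : pa ≤ lg l := MIX_.le_lg hpa (by linarith) hl1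
    have hpl' : lg l ≤ pb := MIX_.lg_le (by linarith) hpb hl2
    have hG : ∀ e ∈ eb (0 : Vx d) N, e.1 ∈ bx (0 : Vx d) N ∧ tgt e ∈ bx (0 : Vx d) N := by
      intro e he
      simp only [eb, Finset.mem_filter, Finset.mem_product, Finset.mem_univ, and_true] at he
      exact he
    have hmono : ∀ a b : Finset (Ed d), a ⊆ b →
        ind (Q (a ∩ eb (0 : Vx d) m)) ≤ ind (Q (b ∩ eb (0 : Vx d) m)) := fun a b hab =>
      ind_mono (hQ _ _ (Finset.inter_subset_inter_right hab))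
    have h1 : phi (0 : Vx d) N pa q (fun ω => ind (Q (ω ∩ eb 0 m))) ≤
        phi (0 : Vx d) N (lg l) q (fun ω => ind (Q (ω ∩ eb 0 m))) :=
      h_HOL (Vx d) (Ed d) Prod.fst tgt (Wir (0 : Vx d) N) (Wir (0 : Vx d) N) (bx 0 N) (eb 0 N)
        pa (lg l) q hpa hpl hp1 hq (fun _ _ h => h) hG _ fun a b hab _ => hmono a b hab
    have h2 : fr (bx (0 : Vx d) N) (lg l) q (fun ω => ind (Q (ω ∩ eb 0 m))) ≤
        fr (bx (0 : Vx d) N) pb q (fun ω => ind (Q (ω ∩ eb 0 m))) :=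
      h_HOL (Vx d) (Ed d) Prod.fst tgt (no (Vx d)) (no (Vx d)) (bx 0 N) (eb 0 N)
        (lg l) pb q hp0 hpl' hpb hq (fun _ _ h => h) hG _ fun a b hab _ => hmono a b hab
    have h3 : phi (0 : Vx d) N (lg l) q (fun ω => ind (Q (ω ∩ eb 0 m))) -
        fr (bx (0 : Vx d) N) (lg l) q (fun ω => ind (Q (ω ∩ eb 0 m))) ≤
        ∑ e ∈ eb (0 : Vx d) m, (phi (0 : Vx d) N (lg l) q (fun ω => ind (e ∈ ω)) -
          fr (bx (0 : Vx d) N) (lg l) q fun ω => ind (e ∈ ω)) :=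
      h_INC (Vx d) (Ed d) Prod.fst tgt (no (Vx d)) (Wir (0 : Vx d) N) (bx 0 N) (bx 0 N)
        (eb 0 N) (lg l) q hp0 hp1 hq0
        (fun f hf => h_HOL (Vx d) (Ed d) Prod.fst tgt (no (Vx d)) (Wir (0 : Vx d) N) (bx 0 N)
          (eb 0 N) (lg l) (lg l) q hp0 le_rfl hp1 hq (fun _ _ h => h.elim) hG f
          fun a b hab _ => hf a b hab)
        (eb 0 m) Q hQ
    have h4 : (2 * m + 1 : ℝ) ^ d * K / ((N : ℝ) + 1) ≤
        max K 4 * (2 * m + 1 : ℝ) ^ d / ((N : ℝ) + 1) := by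
      apply div_le_div_of_nonneg_right _ hN0.le
      rw [mul_comm]
      exact mul_le_mul_of_nonneg_right (le_max_left _ _) (by positivity)
    linarith
  · have h5 : (1 : ℝ) ≤ max K 4 * (2 * m + 1 : ℝ) ^ d / ((N : ℝ) + 1) := by
      rw [le_div_iff₀ hN0, one_mul]
      have hm1 : (1 : ℝ) ≤ 2 * m + 1 := by
        have : (0 : ℝ) ≤ (m : ℝ) := Nat.cast_nonneg m
        linarith
      have h6 : (2 * m + 1 : ℝ) ≤ (2 * m + 1 : ℝ) ^ d := by
        calc (2 * m + 1 : ℝ) = (2 * m + 1 : ℝ) ^ 1 := (pow_one _).symm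
          _ ≤ _ := pow_le_pow_right₀ hm1 hd
      have h7 : (N : ℝ) + 1 ≤ 4 * m := by
        have : N + 1 ≤ 4 * m := by omega
        exact_mod_cast this
      have h8 : (4 : ℝ) * (2 * m + 1) ≤ max K 4 * (2 * m + 1 : ℝ) ^ d :=
        mul_le_mul (le_max_right _ _) h6 (by linarith) (le_trans (by norm_num) (le_max_right K 4))
      have : (0 : ℝ) ≤ (m : ℝ) := Nat.cast_nonneg m
      linarith
    linarith

end Pool.Agent.FKS
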