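import Pool.Agent.FKS.TargetsU
import Pool.Agent.FKP.Lem
import Pool.Agent.FKT.P_ADD
import Pool.Agent.FKT.P_NCM

/-!
# Project FKS, NCA: numbers of clusters and one more wired pair
-/

set_option autoImplicit false

namespace Pool.Agent.FKS

open Filter MeasureTheory Pool.Agent.FKP
open Pool.Agent.FKT hiding ind

namespace NCA_

section

variable {V E : Type} {s t : E → V} {R : V → V → Prop}

/-- Two connection relations which agree on `U` give the same number of clusters. -/
theorem ncl_congr {E' : Type} {s' t' : E' → V} {R' : V → V → Prop} {O : Set E} {O' : Set E'}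
    (U : Finset V) (h : ∀ u ∈ U, ∀ v ∈ U, (Con s t R O u v ↔ Con s' t' R' O' u v)) :
    ncl s t R U O = ncl s' t' R' U O' := by
  unfold ncl
  refine NCM_.img _ _ _ fun u hu v hv => ?_
  rw [NCM_.clus_eq, NCM_.clus_eq]
  exact h u hu v hv

theorem char (O : Set E) (x y a b : V) : Con s t (mrg R x y) O a b ↔
    (Con s t R O a b ∨ (Con s t R O a x ∧ Con s t R O y b) ∨
      (Con s t R O a y ∧ Con s t R O x b)) := by
  constructor
  · intro h
    induction h with
    | rel a b hab =>
      rcases hab with (hab | ⟨rfl, rfl⟩) | ⟨e', he', h1, h2⟩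
      · exact Or.inl (Relation.EqvGen.rel _ _ (Or.inl hab))
      · exact Or.inr (Or.inl ⟨Con_refl O _, Con_refl O _⟩)
      · exact Or.inl (Relation.EqvGen.rel _ _ (Or.inr ⟨e', he', h1, h2⟩))
    | refl a => exact Or.inl (Con_refl O a)
    | symm a b _ ih =>
      rcases ih with h1 | ⟨h1, h2⟩ | ⟨h1, h2⟩
      · exact Or.inl (Con_symm h1)
      · exact Or.inr (Or.inr ⟨Con_symm h2, Con_symm h1⟩)
      · exact Or.inr (Or.inl ⟨Con_symm h2, Con_symm h1⟩)
    | trans a b c _ _ ih1 ih2 =>
      rcases ih1 with h1 | ⟨h1, h2⟩ | ⟨h1, h2⟩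
      · rcases ih2 with h3 | ⟨h3, h4⟩ | ⟨h3, h4⟩
        · exact Or.inl (Con_trans h1 h3)
        · exact Or.inr (Or.inl ⟨Con_trans h1 h3, h4⟩)
        · exact Or.inr (Or.inr ⟨Con_trans h1 h3, h4⟩)
      · rcases ih2 with h3 | ⟨h3, h4⟩ | ⟨h3, h4⟩
        · exact Or.inr (Or.inl ⟨h1, Con_trans h2 h3⟩)
        · exact Or.inr (Or.inl ⟨h1, h4⟩)
        · exact Or.inl (Con_trans h1 h4)
      · rcases ih2 with h3 | ⟨h3, h4⟩ | ⟨h3, h4⟩
        · exact Or.inr (Or.inr ⟨h1, Con_trans h2 h3⟩)
        · exact Or.inl (Con_trans h1 h4)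
        · exact Or.inr (Or.inr ⟨h1, h4⟩)
  · have hm : ∀ {a b : V}, Con s t R O a b → Con s t (mrg R x y) O a b := fun h =>
      Con_mono (fun _ _ h => Or.inl h) (le_refl O) h
    have hxy : Con s t (mrg R x y) O x y := Con_wired (Or.inr ⟨rfl, rfl⟩)
    rintro (h1 | ⟨h1, h2⟩ | ⟨h1, h2⟩)
    · exact hm h1
    · exact Con_trans (hm h1) (Con_trans hxy (hm h2))
    · exact Con_trans (hm h1) (Con_trans (Con_symm hxy) (hm h2))

theorem opt (s t : E → V) (R : V → V → Prop) (O : Set E) (u v a b : V) :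
    Con (fun o : Option E => o.elim u s) (fun o : Option E => o.elim v t) R (some '' O) a b ↔
      Con s t R O a b := by
  constructor
  · intro h
    induction h with
    | rel a b hab =>
      rcases hab with hab | ⟨e', ⟨e, he, rfl⟩, h1, h2⟩
      · exact Relation.EqvGen.rel _ _ (Or.inl hab)
      · exact Relation.EqvGen.rel _ _ (Or.inr ⟨e, he, h1, h2⟩)
    | refl a => exact Relation.EqvGen.refl _
    | symm a b _ ih => exact Relation.EqvGen.symm _ _ ih
    | trans a b c _ _ ih1 ih2 => exact Relation.EqvGen.trans _ _ _ ih1 ih2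
  · intro h
    induction h with
    | rel a b hab =>
      rcases hab with hab | ⟨e, he, h1, h2⟩
      · exact Relation.EqvGen.rel _ _ (Or.inl hab)
      · exact Relation.EqvGen.rel _ _ (Or.inr ⟨some e, ⟨e, he, rfl⟩, h1, h2⟩)
    | refl a => exact Relation.EqvGen.refl _
    | symm a b _ ih => exact Relation.EqvGen.symm _ _ ih
    | trans a b c _ _ ih1 ih2 => exact Relation.EqvGen.trans _ _ _ ih1 ih2

theorem merge {O : Set E} {U : Finset V} {x y u v : V} (hu : u ∈ U) (hv : v ∈ U)
    (hux : Con s t R O u x) (hvy : Con s t R O v y) (h : ¬ Con s t R O x y) :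
    ncl s t (mrg R x y) U O + 1 = ncl s t R U O := by
  set s' : Option E → V := fun o : Option E => o.elim u s with hs'
  set t' : Option E → V := fun o : Option E => o.elim v t with ht'
  have h1 : ¬ Con s' t' R (some '' O) (s' none) (t' none) := by
    intro h2
    rw [opt] at h2
    exact h (Con_trans (Con_symm hux) (Con_trans h2 hvy))
  have h2 := ADD_.merge (s := s') (t := t') (R := R) (O := some '' O) (e := none) (U := U) hu hv h1
  have h3 : ncl s' t' R U (some '' O) = ncl s t R U O :=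
    ncl_congr U fun a _ b _ => opt s t R O u v a b
  have h4 : ncl s' t' R U (insert none (some '' O)) = ncl s t (mrg R x y) U O := by
    refine ncl_congr U fun a _ b _ => ?_
    rw [ADD_.char, char, opt, opt, opt, opt, opt]
    have e1 : Con s t R O a (s' none) ↔ Con s t R O a x :=
      ⟨fun h => Con_trans h hux, fun h => Con_trans h (Con_symm hux)⟩
    have e2 : Con s t R O (t' none) b ↔ Con s t R O y b :=
      ⟨fun h => Con_trans (Con_symm hvy) h, fun h => Con_trans hvy h⟩
    have e3 : Con s t R O a (t' none) ↔ Con s t R O a y :=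
      ⟨fun h => Con_trans h hvy, fun h => Con_trans h (Con_symm hvy)⟩
    have e4 : Con s t R O (s' none) b ↔ Con s t R O x b :=
      ⟨fun h => Con_trans (Con_symm hux) h, fun h => Con_trans hux h⟩
    rw [e1, e2, e3, e4]
  omega

theorem anti (U : Finset V) {O O' : Set E} (h : O ⊆ O') : ncl s t R U O' ≤ ncl s t R U O := by
  classical
  unfold ncl
  have hfin : (clus s t R O '' (U : Set V)).Finite := U.finite_toSet.image _
  have hsub : clus s t R O' '' (U : Set V) ⊆
      (fun A : Set V => {w | ∃ a ∈ A, Con s t R O' a w}) '' (clus s t R O '' (U : Set V)) := by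
    rintro _ ⟨v, hv, rfl⟩
    refine ⟨clus s t R O v, ⟨v, hv, rfl⟩, ?_⟩
    ext w
    constructor
    · rintro ⟨a, ha, haw⟩
      exact Con_trans (Con_mono (fun _ _ h => h) h ha) haw
    · intro hw
      exact ⟨v, Con_refl O v, hw⟩
  exact (Set.ncard_le_ncard hsub (hfin.image _)).trans (Set.ncard_image_le hfin)

end

end NCA_

theorem p_NCA : T_NCA := by
  intro V E s t R U
  refine ⟨fun O x y => ⟨?_, fun h => ?_⟩, fun O O' h => NCA_.anti U h⟩
  · by_cases h : ¬ Con s t R O x y ∧ (∃ u ∈ U, Con s t R O u x) ∧ ∃ u ∈ U, Con s t R O u y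
    · rw [ind_true h]
      obtain ⟨h1, ⟨u, hu, hux⟩, v, hv, hvy⟩ := h
      exact_mod_cast NCA_.merge hu hv hux hvy h1
    · rw [ind_false h, add_zero]
      norm_cast
      refine NCA_.ncl_congr U fun a ha b hb => ?_
      rw [NCA_.char]
      constructor
      · rintro (h1 | ⟨h1, h2⟩ | ⟨h1, h2⟩)
        · exact h1
        · by_contra h3
          exact h ⟨fun h4 => h3 (Con_trans h1 (Con_trans h4 h2)), ⟨a, ha, h1⟩, b, hb,
            Con_symm h2⟩
        · by_contra h3
          exact h ⟨fun h4 => h3 (Con_trans h1 (Con_trans (Con_symm h4) h2)), ⟨b, hb,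
            Con_symm h2⟩, a, ha, h1⟩
      · exact Or.inl
  · refine NCA_.ncl_congr U fun a ha b hb => ?_
    rw [NCA_.char]
    constructor
    · rintro (h1 | ⟨h1, h2⟩ | ⟨h1, h2⟩)
      · exact h1
      · exact Con_trans h1 (Con_trans h h2)
      · exact Con_trans h1 (Con_trans (Con_symm h) h2)
    · exact Or.inl

end Pool.Agent.FKS
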