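import Pool.Agent.FKS.TargetsU
import Pool.Agent.FKP.Lem
import Pool.Agent.FKP.P_PI1
import Pool.Agent.FKP.P_BCN

/-!
# Project FKS, PCR: percolation at `p0` implies `pcr d q ≤ p0`
-/

set_option autoImplicit false

namespace Pool.Agent.FKS

open Filter MeasureTheory Pool.Agent.FKP
open Pool.Agent.FKT hiding ind

namespace PCR_

/-- Local events are measurable. -/
theorem meas {d : ℕ} (F : Finset (Ed d)) (P : Finset (Ed d) → Prop) :
    MeasurableSet {ω : Ed d → Bool | P (rs F (cfg ω))} := by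
  classical
  have hg : Measurable fun (ω : Ed d → Bool) (e : F) => ω e.1 :=
    measurable_pi_lambda _ fun e => measurable_pi_apply e.1
  have hS : MeasurableSet
      {τ : F → Bool | P (F.filter fun e => ∃ h : e ∈ F, τ ⟨e, h⟩ = true)} :=
    (Set.toFinite _).measurableSet
  have heq : {ω : Ed d → Bool | P (rs F (cfg ω))} =
      (fun (ω : Ed d → Bool) (e : F) => ω e.1) ⁻¹'
        {τ : F → Bool | P (F.filter fun e => ∃ h : e ∈ F, τ ⟨e, h⟩ = true)} := by
    ext ω
    simp only [Set.mem_setOf_eq, Set.mem_preimage]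
    have h1 : rs F (cfg ω) = F.filter fun e => ∃ _ : e ∈ F, ω e = true := by
      ext e
      have h0 : e ∈ rs F (cfg ω) ↔ e ∈ F ∧ e ∈ cfg ω := by
        unfold rs
        exact Finset.mem_filter
      have h0' : e ∈ cfg ω ↔ ω e = true := Iff.rfl
      rw [h0, h0', Finset.mem_filter]
      constructor
      · rintro ⟨h2, h3⟩
        exact ⟨h2, h2, h3⟩
      · rintro ⟨h2, _, h3⟩
        exact ⟨h2, h3⟩
    rw [h1]
  rw [heq]
  exact hg hS

theorem bx_mono {d : ℕ} {a b : ℕ} (h : a ≤ b) : bx (0 : Vx d) a ⊆ bx (0 : Vx d) b := by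
  unfold bx
  have h' : (a : ℤ) ≤ b := by exact_mod_cast h
  refine Finset.Icc_subset_Icc (fun i => ?_) (fun i => ?_)
  · show (0 : Vx d) i - (b : ℤ) ≤ (0 : Vx d) i - (a : ℤ)
    omega
  · show (0 : Vx d) i + (a : ℤ) ≤ (0 : Vx d) i + (b : ℤ)
    omega

theorem bx_zero {d : ℕ} {x : Vx d} (h : x ∈ bx (0 : Vx d) 0) : x = 0 := by
  unfold bx at h
  rw [Finset.mem_Icc, Pi.le_def, Pi.le_def] at h
  funext i
  have h1 := h.1 i
  have h2 := h.2 i
  simp only [Pi.zero_apply] at h1 h2 ⊢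
  omega

theorem meas_Fv (hCRI : FKT.T_CRI) (d K : ℕ) : MeasurableSet (Fv d K 0) := by
  have h2 : {ω : Ed d → Bool | CrA (0 : Vx d) 0 (K - 0)
      ((rs (eb 0 (K - 0)) (cfg ω) : Finset (Ed d)) : Set (Ed d))} = Fv d K 0 := by
    ext ω
    exact ((hCRI d 0 0 0 0 (K - 0) (K - 0) (cfg ω) (cfg ω)).2.1).symm
  rw [← h2]
  exact meas (eb 0 (K - 0)) fun T : Finset (Ed d) => CrA (0 : Vx d) 0 (K - 0) (T : Set (Ed d))

end PCR_

open PCR_ in
theorem p_PCR (h_EXI : FKT.T_EXI) (h_THM : FKT.T_THM) (h_CRI : FKT.T_CRI)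
    (h_ONE : FKP.T_ONE) : T_PCR := by
  intro d hd p0 q h0 h1 hq hper
  obtain ⟨μ, hμ, hpos⟩ := hper
  unfold pcr
  refine Real.sSup_le ?_ h0.le
  rintro x ⟨hx0, hx1, hx⟩
  by_contra hlt
  push Not at hlt
  rcases eq_or_lt_of_le hx1 with rfl | hx1'
  · obtain ⟨ν, hν⟩ := (FKP.p_PI1 FKP.p_BCN d q (by omega) (by linarith)).2
    have := hν.prob
    have e1 := hx ν hν
    have e2 := h_ONE d hd q hq ν hν
    have e3 : ν Set.univ ≤ 0 := by
      calc ν Set.univ ≤ ν ({ω | InfC (0 : Vx d) ω} ∪ {ω | (C0 ω).Finite}) := by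
            refine measure_mono ?_
            intro ω _
            by_cases h : (C0 ω).Finite
            · exact Or.inr h
            · exact Or.inl h
        _ ≤ ν {ω | InfC (0 : Vx d) ω} + ν {ω | (C0 ω).Finite} := measure_union_le _ _
        _ = 0 := by rw [e1, e2, add_zero]
    rw [measure_univ] at e3
    exact absurd e3 (by norm_num)
  · obtain ⟨ν, hν⟩ := h_EXI d (by omega) x q (h0.trans hlt) hx1' hq
    have := hν.prob
    have e1 := hx ν hν
    have hK : ∀ K : ℕ, μ.real (Inf0 d) ≤ ν.real (Fv d K 0) := by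
      intro K
      obtain ⟨-, -, t1, t2⟩ := h_THM d p0 x q h0 hlt.le hx1' hq μ ν hμ hν K 0
      exact (t2 (by omega)).trans t1
    have hanti : Antitone fun K : ℕ => Fv d K 0 := by
      intro K K' hKK ω hω
      exact (h_CRI d 0 0 0 0 (K' - 0) (K - 0) (cfg ω) (cfg ω)).1 (bx_mono le_rfl)
        (bx_mono (by omega)) (by omega) hω
    have hint : (⋂ K : ℕ, Fv d K 0) ⊆ {ω | InfC (0 : Vx d) ω} := by
      intro ω hω
      by_contra hn
      obtain ⟨b0, hb0⟩ := (h_CRI d 0 0 0 0 0 0 (cfg ω) (cfg ω)).2.2.2.2.2 ω (by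
        intro y hy
        rw [bx_zero hy]
        exact hn)
      exact hb0 b0 le_rfl (Set.mem_iInter.1 hω b0)
    have hlim := tendsto_measure_iInter_atTop (μ := ν)
      (fun K : ℕ => (meas_Fv h_CRI d K).nullMeasurableSet) hanti ⟨0, measure_ne_top ν _⟩
    have h00 : ν (⋂ K : ℕ, Fv d K 0) = 0 := measure_mono_null hint e1
    rw [h00] at hlim
    have hge : ENNReal.ofReal (μ.real (Inf0 d)) ≤ 0 := by
      refine ge_of_tendsto' hlim fun K => ?_
      have h3 := hK K
      rw [Measure.real] at h3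
      exact ENNReal.ofReal_le_of_le_toReal h3
    rw [nonpos_iff_eq_zero, ENNReal.ofReal_eq_zero] at hge
    linarith

end Pool.Agent.FKS
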