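import Pool.Agent.FKS.TargetsU
import Pool.Agent.FKP.Lem

/-! # FKS-RFX: reflections, exchanges of coordinates and translations of the lattice -/

set_option autoImplicit false

namespace Pool.Agent.FKS

open Filter MeasureTheory Pool.Agent.FKP
open Pool.Agent.FKT hiding ind

namespace RFX_

variable {d : ℕ}

/-- The reflection on the vertices. -/
def cf (i : Fin d) (a : ℤ) (x : Vx d) : Vx d := Function.update x i (a - x i)

theorem cf_apply (i : Fin d) (a : ℤ) (x : Vx d) (k : Fin d) :
    cf i a x k = if k = i then a - x i else x k := by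
  unfold cf
  rw [Function.update_apply]

theorem cf_cf (i : Fin d) (a : ℤ) (x : Vx d) : cf i a (cf i a x) = x := by
  funext k
  simp only [cf_apply]
  by_cases h : k = i
  · subst h
    simp
  · simp [h]

/-- The reflection as an equivalence. -/
def ce (i : Fin d) (a : ℤ) : Vx d ≃ Vx d where
  toFun := cf i a
  invFun := cf i a
  left_inv := cf_cf i a
  right_inv := cf_cf i a

/-- The reflection on the edges. -/
def gf (i : Fin d) (a : ℤ) (e : Ed d) : Ed d :=
  if e.2 = i then (cf i a e.1 - Pi.single i 1, e.2) else (cf i a e.1, e.2)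

theorem cf_sub (i : Fin d) (a : ℤ) (x : Vx d) :
    cf i a (x - Pi.single i 1) = cf i a x + Pi.single i 1 := by
  funext k
  simp only [cf_apply, Pi.sub_apply, Pi.add_apply, Pi.single_apply]
  by_cases h : k = i
  · subst h
    simp only [if_true]
    ring
  · simp [h]

theorem cf_add_ne (i j : Fin d) (a : ℤ) (x : Vx d) (hj : j ≠ i) :
    cf i a (x + Pi.single j 1) = cf i a x + Pi.single j 1 := by
  funext k
  simp only [cf_apply, Pi.add_apply, Pi.single_apply]
  by_cases h : k = i
  · subst h
    have h2 : ¬ k = j := fun h' => hj h'.symm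
    simp [h2]
  · simp [h]

theorem cf_add (i : Fin d) (a : ℤ) (x : Vx d) :
    cf i a (x + Pi.single i 1) = cf i a x - Pi.single i 1 := by
  funext k
  simp only [cf_apply, Pi.sub_apply, Pi.add_apply, Pi.single_apply]
  by_cases h : k = i
  · subst h
    simp only [if_true]
    ring
  · simp [h]

theorem gf_gf (i : Fin d) (a : ℤ) (e : Ed d) : gf i a (gf i a e) = e := by
  obtain ⟨x, j⟩ := e
  unfold gf
  by_cases h : j = i
  · simp only [h, if_true]
    rw [cf_sub, cf_cf]
    simp
  · simp only [h, if_false]
    rw [cf_cf]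

/-- The reflection on the edges as an equivalence. -/
def ge (i : Fin d) (a : ℤ) : Ed d ≃ Ed d where
  toFun := gf i a
  invFun := gf i a
  left_inv := gf_gf i a
  right_inv := gf_gf i a

theorem aut (i : Fin d) (a : ℤ) : Aut (ce i a) (ge i a) := by
  rintro ⟨x, j⟩
  change ((gf i a (x, j)).1 = cf i a x ∧ tgt (gf i a (x, j)) = cf i a (tgt (x, j))) ∨
    ((gf i a (x, j)).1 = cf i a (tgt (x, j)) ∧ tgt (gf i a (x, j)) = cf i a x)
  unfold gf tgt
  by_cases h : j = i
  · right
    subst h
    simp only [if_true]
    rw [cf_add]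
    simp
  · left
    simp only [h, if_false]
    rw [cf_add_ne i j a x h]
    simp

/-- The exchange of two coordinates on the vertices. -/
def se (i j : Fin d) : Vx d ≃ Vx d where
  toFun := fun x => x ∘ Equiv.swap i j
  invFun := fun x => x ∘ Equiv.swap i j
  left_inv := fun x => by
    funext k
    simp
  right_inv := fun x => by
    funext k
    simp

/-- The exchange of two coordinates on the edges. -/
def sg (i j : Fin d) : Ed d ≃ Ed d where
  toFun := fun e => (e.1 ∘ Equiv.swap i j, Equiv.swap i j e.2)
  invFun := fun e => (e.1 ∘ Equiv.swap i j, Equiv.swap i j e.2)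
  left_inv := fun e => by
    refine Prod.ext ?_ ?_
    · funext k
      simp
    · simp
  right_inv := fun e => by
    refine Prod.ext ?_ ?_
    · funext k
      simp
    · simp

theorem swap_add (i j k : Fin d) (x : Vx d) :
    (x + Pi.single k 1) ∘ Equiv.swap i j =
      x ∘ Equiv.swap i j + Pi.single (Equiv.swap i j k) (1 : ℤ) := by
  funext l
  simp only [Function.comp_apply, Pi.add_apply, Pi.single_apply]
  congr 1
  by_cases h : l = Equiv.swap i j k
  · subst h
    simp
  · have h2 : ¬ Equiv.swap i j l = k := by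
      intro h'
      apply h
      rw [← h']
      simp
    simp [h, h2]

theorem aut_swap (i j : Fin d) : Aut (se i j) (sg i j) := by
  rintro ⟨x, k⟩
  left
  refine ⟨rfl, ?_⟩
  change x ∘ Equiv.swap i j + Pi.single (Equiv.swap i j k) (1 : ℤ) =
    (x + Pi.single k 1) ∘ Equiv.swap i j
  rw [swap_add]

end RFX_

theorem p_RFX : T_RFX := by
  intro d
  refine ⟨fun i a => ⟨RFX_.ce i a, RFX_.ge i a, RFX_.aut i a, RFX_.gf_gf i a, fun x => rfl⟩,
    fun i j => ⟨RFX_.se i j, RFX_.sg i j, RFX_.aut_swap i j, (RFX_.sg i j).left_inv,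
      fun x => rfl⟩, ?_⟩
  intro y
  rintro ⟨x, k⟩
  left
  refine ⟨rfl, ?_⟩
  change x + y + Pi.single k 1 = x + Pi.single k 1 + y
  abel

end Pool.Agent.FKS
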