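import Pool.Agent.FKS.TargetsU
import Pool.Agent.FKP.Lem

/-!
# Project FKS, target SHF: moving the centre of a wired box
-/

set_option autoImplicit false

namespace Pool.Agent.FKS

open Filter MeasureTheory Pool.Agent.FKP
open Pool.Agent.FKT hiding ind

namespace SHF_

theorem mem_bx {d : ℕ} (x v : Vx d) (n : ℕ) :
    v ∈ bx x n ↔ ∀ i, x i - n ≤ v i ∧ v i ≤ x i + n := by
  unfold bx
  rw [Finset.mem_Icc, Pi.le_def, Pi.le_def]
  exact ⟨fun h i => ⟨h.1 i, h.2 i⟩, fun h => ⟨fun i => (h i).1, fun i => (h i).2⟩⟩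

theorem sub1 {d : ℕ} {v : Vx d} {M n : ℕ} (hv : v ∈ bx (0 : Vx d) n) :
    bx (0 : Vx d) M ⊆ bx (0 + v) (M + n) := by
  intro w hw
  rw [mem_bx] at hv hw ⊢
  intro i
  have a1 := hv i
  have a2 := hw i
  simp only [Pi.zero_apply, Pi.add_apply] at a1 a2 ⊢
  push_cast
  constructor <;> linarith [a1.1, a1.2, a2.1, a2.2]

theorem sub2 {d : ℕ} {v : Vx d} {M n : ℕ} (hv : v ∈ bx (0 : Vx d) n) :
    bx v M ⊆ bx (0 : Vx d) (M + n) := by
  intro w hw
  rw [mem_bx] at hv hw ⊢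
  intro i
  have a1 := hv i
  have a2 := hw i
  simp only [Pi.zero_apply] at a1 a2 ⊢
  push_cast
  constructor <;> linarith [a1.1, a1.2, a2.1, a2.2]

end SHF_

theorem p_SHF (h_DOM : FKT.T_DOM) (h_TRA : FKT.T_TRA) : T_SHF := by
  intro d hd p q hp hp1 hq v M n hv f hf
  constructor
  · have e1 := h_TRA d p q (0 : Vx d) v (M + n) (fun ω => f (ω ∩ eb (0 : Vx d) M))
    have e2 := h_DOM d hd p q hp hp1 hq (0 : Vx d) (0 + v) M (M + n) (SHF_.sub1 hv) f hf
    rw [e1] at e2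
    exact e2
  · have e1 := h_TRA d p q (0 : Vx d) v M f
    have e2 := h_DOM d hd p q hp hp1 hq v (0 : Vx d) M (M + n) (SHF_.sub2 hv) f hf
    rw [zero_add] at e1
    rw [e1] at e2
    exact e2

end Pool.Agent.FKS
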