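import Pool.Agent.FKS.TargetsU
import Pool.Agent.FKP.Lem

/-!
# FKS: STR, the two-point function in the direction of an axis
-/

set_option autoImplicit false

namespace Pool.Agent.FKS

open Filter MeasureTheory Pool.Agent.FKP
open Pool.Agent.FKT hiding ind

namespace STR_

theorem Cf_mono {d : ℕ} {a b : Finset (Ed d)} (h : a ⊆ b) {x y : Vx d} (hc : Cf a x y) :
    Cf b x y :=
  Con_mono (fun _ _ h => h) (by exact_mod_cast h) hc

theorem tp_mono {d : ℕ} (h_DMC : FKP.T_DMC) {p q : ℝ} (hp : 0 < p) (hp1 : p < 1) (hq : 1 ≤ q)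
    {S S' : Finset (Vx d)} (hS : S ⊆ S') (x y : Vx d) : tp S p q x y ≤ tp S' p q x y := by
  have h4 := h_DMC (Vx d) (Ed d) Prod.fst tgt (no (Vx d)) S' S (es S')
    (es S) p q hp hp1 hq (es_mono hS) hS (fun e he => mem_es.mp he)
    (fun ω => ind (Cf ω x y)) (fun a b hab _ => ind_mono fun h => Cf_mono hab h)
  refine le_trans h4 ?_
  unfold tp fr fw
  apply Ex_mono hp hp1 (by linarith)
  intro ω _
  exact ind_mono fun h => Cf_mono Finset.inter_subset_left h

theorem tp_symm {d : ℕ} (S : Finset (Vx d)) (p q : ℝ) (x y : Vx d) :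
    tp S p q x y = tp S p q y x := by
  unfold tp fr fw
  apply Ex_congr
  intro ω _
  exact ind_congr ⟨fun h => Con_symm h, fun h => Con_symm h⟩

theorem tp_chain {d : ℕ} (h_FKG : FKT.T_FKG) {p q : ℝ} (hp : 0 < p) (hp1 : p < 1) (hq : 1 ≤ q)
    (S : Finset (Vx d)) (x y z : Vx d) : tp S p q x y * tp S p q y z ≤ tp S p q x z := by
  have h := (h_FKG (Vx d) (Ed d) Prod.fst tgt (no (Vx d)) S (es S) p q hp hp1 hq
    (fun e he => mem_es.mp he)).1 (fun ω => ind (Cf ω x y)) (fun ω => ind (Cf ω y z))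
    (fun a b hab => ind_mono fun h => Cf_mono hab h)
    (fun a b hab => ind_mono fun h => Cf_mono hab h)
  unfold tp fr fw
  refine le_trans h ?_
  apply Ex_mono hp hp1 (by linarith)
  intro ω _
  show ind (Cf ω x y) * ind (Cf ω y z) ≤ ind (Cf ω x z)
  rw [← ind_and]
  exact ind_mono fun h => Con_trans h.1 h.2

theorem mem_bx0 {d : ℕ} {n : ℕ} {v : Vx d} :
    v ∈ bx (0 : Vx d) n ↔ ∀ i, -(n : ℤ) ≤ v i ∧ v i ≤ n := by
  unfold bx
  rw [Finset.mem_Icc, Pi.le_def, Pi.le_def]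
  simp only [Pi.zero_apply, zero_sub, zero_add]
  exact ⟨fun h i => ⟨h.1 i, h.2 i⟩, fun h => ⟨fun i => (h i).1, fun i => (h i).2⟩⟩

end STR_

theorem p_STR (h_FAC : T_FAC) (h_RFX : T_RFX) (h_AUG : T_AUG) (h_DMC : FKP.T_DMC)
    (h_FKG : FKT.T_FKG) : T_STR := by
  intro d p0 p1 q hH
  obtain ⟨c, K, hc, hF⟩ := h_FAC d p0 p1 q hH
  have hp : 0 < p1 := lt_trans hH.h0 hH.h01
  have hp1 := hH.h1
  have hq := hH.hq
  have hd := hH.hd
  refine ⟨c ^ 2, K + 2, by positivity, ?_⟩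
  intro R N hR hN i
  have hRd : R ≤ R ^ d := Nat.le_self_pow (by omega) R
  have hN2 : K * R ^ d + 2 * R ≤ N := by
    have : (K + 2) * R ^ d = K * R ^ d + 2 * R ^ d := by ring
    omega
  obtain ⟨z, hzi, -, hz⟩ := hF R (N - 2 * R) hR (by omega) i
  obtain ⟨f, g, hA, -, hf⟩ := (h_RFX d).1 i (2 * R : ℤ)
  have hfz : f z = z := by
    rw [hf, hzi]
    funext j
    by_cases hj : j = i
    · subst hj
      rw [Function.update_self, hzi]
      ring
    · rw [Function.update_of_ne hj]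
  have hf0 : f 0 = Pi.single i (2 * R : ℤ) := by
    rw [hf]
    simp only [Pi.zero_apply, sub_zero]
    rfl
  have hmap : (bx (0 : Vx d) (N - 2 * R)).map f.toEmbedding ⊆ bx (0 : Vx d) N := by
    intro y hy
    obtain ⟨x, hx, rfl⟩ := Finset.mem_map.1 hy
    rw [STR_.mem_bx0] at hx ⊢
    intro j
    have hxj := hx j
    show -(N : ℤ) ≤ f x j ∧ f x j ≤ N
    rw [hf]
    by_cases hj : j = i
    · subst hj
      rw [Function.update_self]
      omega
    · rw [Function.update_of_ne hj]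
      omega
  have hsub : bx (0 : Vx d) (N - 2 * R) ⊆ bx (0 : Vx d) N := by
    intro x hx
    rw [STR_.mem_bx0] at hx ⊢
    intro j
    have hxj := hx j
    omega
  have hinv := (((h_AUG d f g hA).2 (bx (0 : Vx d) (N - 2 * R))).2 p1 q).2 0 z
  rw [hfz, hf0] at hinv
  have e1 := STR_.tp_mono h_DMC hp hp1 hq hsub 0 z
  have e2 := STR_.tp_mono h_DMC hp hp1 hq hmap (Pi.single i (2 * R : ℤ)) z
  rw [hinv] at e2
  have e3 := STR_.tp_chain h_FKG hp hp1 hq (bx (0 : Vx d) N) 0 z (Pi.single i (2 * R : ℤ))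
  rw [STR_.tp_symm (bx (0 : Vx d) N) p1 q z] at e3
  have hR0 : (0 : ℝ) < R := by exact_mod_cast hR
  have hpos : 0 < c / (R : ℝ) ^ (d - 1) := by positivity
  have e4 : c ^ 2 / (R : ℝ) ^ (2 * (d - 1)) = c / (R : ℝ) ^ (d - 1) * (c / (R : ℝ) ^ (d - 1)) := by
    rw [div_mul_div_comm, ← pow_add, ← two_mul, sq]
  rw [e4]
  refine le_trans ?_ e3
  exact mul_le_mul (le_trans hz e1) (le_trans hz e2) hpos.le
    (le_trans hpos.le (le_trans hz e1))

end Pool.Agent.FKS
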