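import Pool.Agent.FKS.TargetsU
import Pool.Agent.FKP.Lem
import Pool.Agent.FKP.P_INB
import Pool.Agent.FKP.P_MIX
import Pool.Agent.FKT.P_CNT

/-!
# Project FKS: the target T_UZF (uniqueness zone in a wired box)
-/

set_option autoImplicit false

namespace Pool.Agent.FKS

open Filter MeasureTheory Pool.Agent.FKP
open Pool.Agent.FKT hiding ind

namespace UZF_

variable {d : ℕ}

theorem es_sub (S : Finset (Vx d)) : ∀ e ∈ es S, Prod.fst e ∈ S ∧ tgt e ∈ S :=
  fun _ he => mem_es.1 he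

/-- Lower bound for the connection of two points inside a translated small box. -/
theorem conn_lower (h_DMC : FKP.T_DMC) (h_HOL : FKP.T_HOL) (h_AUT : FKP.T_AUT)
    {pa p q h : ℝ} (hpa : 0 < pa) (hpp : pa ≤ p) (hp1 : p < 1) (hq : 1 ≤ q) {b N : ℕ} {v : Vx d}
    (hv : bx v b ⊆ bx (0 : Vx d) N) {x y : Vx d}
    (hxy : h ≤ tp (bx (0 : Vx d) b) pa q x y) :
    h ≤ phi (0 : Vx d) N p q fun ω => ind (Con Prod.fst tgt (no (Vx d))
      ((ω ∩ eb v b : Finset (Ed d)) : Set (Ed d)) (v + x) (v + y)) := by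
  have hp0 : 0 < p := lt_of_lt_of_le hpa hpp
  -- increase the parameter
  have h1 : tp (bx (0 : Vx d) b) pa q x y ≤ tp (bx (0 : Vx d) b) p q x y := by
    refine h_HOL (Vx d) (Ed d) Prod.fst tgt (no _) (no _) (bx 0 b) (es (bx 0 b)) pa p q hpa hpp
      hp1 hq (fun _ _ h => h) (es_sub _) (fun ω => ind (Cf ω x y)) ?_
    intro a b hab _
    exact ind_mono (Con_mono (fun _ _ h => h) (by exact_mod_cast hab))
  -- translate
  have h2 := (h_AUT d (Equiv.addRight v) 1 (by
    intro x i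
    simp only [Equiv.coe_addRight, Equiv.Perm.coe_one, id_eq]
    abel) (bx (0 : Vx d) b) p q).2 x y
  rw [INB_.bx_map] at h2
  simp only [Equiv.coe_addRight] at h2
  rw [add_comm x v, add_comm y v] at h2
  -- domination
  have h3 := h_DMC (Vx d) (Ed d) Prod.fst tgt (Wir 0 N) (bx 0 N) (bx v b) (eb 0 N) (eb v b) p q
    hp0 hp1 hq (by rw [← es_bx, ← es_bx]; exact es_mono hv) hv
    (by rw [← es_bx]; exact es_sub _) (fun ω => ind (Cf ω (v + x) (v + y))) (by
      intro a b hab _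
      exact ind_mono (Con_mono (fun _ _ h => h) (by exact_mod_cast hab)))
  refine hxy.trans (h1.trans ?_)
  rw [← h2]
  exact h3

end UZF_

open UZF_ in
theorem p_UZF (h_MVN : T_MVN) (h_COV : T_COV) (h_GRD : T_GRD) (h_DMC : FKP.T_DMC)
    (h_HOL : FKP.T_HOL) (h_AUT : FKP.T_AUT) (h_CNT : FKT.T_CNT) : T_UZF := by
  intro d hd pa pb q hpa hab hpb hq
  have hq0 : 0 < q := by linarith
  have hpa1 : pa < 1 := hab.trans hpb
  have hpb0 : 0 < pb := hpa.trans hab
  set la := Real.log (pa / (1 - pa)) with hla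
  set lb := Real.log (pb / (1 - pb)) with hlb
  have hlab : la < lb := by
    apply Real.log_lt_log (div_pos hpa (by linarith))
    rw [div_lt_div_iff₀ (by linarith) (by linarith)]
    nlinarith
  have hl0 : 0 < lb - la := by linarith
  set C : ℝ := max (2 * d * 3 ^ d / (lb - la)) 2 with hC
  have hC0 : 0 < C := lt_of_lt_of_le two_pos (le_max_right _ _)
  refine ⟨C, hC0, ?_⟩
  intro m b n N h hm hmb hbn hnN hh hxy
  have hb1 : 1 ≤ b := hm.trans hmb
  have hn1 : 1 ≤ n := hb1.trans hbn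
  have hnr : (1 : ℝ) ≤ n := by exact_mod_cast hn1
  have hn0 : (0 : ℝ) < n := by linarith
  have hh1 : h ≤ 1 := by
    have h1 := hxy 0 (by
      rw [FKT.CNT_.mem_bx]
      intro i
      constructor <;> simp) 0 (by
      rw [FKT.CNT_.mem_bx]
      intro i
      constructor <;> simp)
    refine h1.trans ?_
    exact Ex_le_one hpa hpa1 hq0 fun ω _ => ind_le_one _
  have hcard : ((bx (0 : Vx d) m).card : ℝ) = (2 * m + 1) ^ d := by
    rw [FKT.CNT_.card_bx]
    push_cast
    rfl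
  have hA : (0 : ℝ) < (2 * m + 1) ^ (2 * d) * (2 * b + 1) ^ d := by positivity
  rcases Nat.lt_or_ge n (4 * b) with hcase | hcase
  · -- trivial case
    refine ⟨pa, le_rfl, hab.le, 0, ?_, ?_⟩
    · intro z hz
      rw [FKT.CNT_.mem_bx] at hz ⊢
      intro i
      have := hz i
      have hbn' : (b : ℤ) ≤ n := by exact_mod_cast hbn
      constructor <;> linarith [this.1, this.2]
    · have h1 : ∑ x ∈ bx (0 : Vx d) m, ∑ y ∈ bx (0 : Vx d) m,
          phi (0 : Vx d) N pa q (fun ω => ind (Dst (0 + x) (0 + y) n ω)) ≤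
          (2 * m + 1 : ℝ) ^ (2 * d) := by
        calc ∑ x ∈ bx (0 : Vx d) m, ∑ y ∈ bx (0 : Vx d) m,
              phi (0 : Vx d) N pa q (fun ω => ind (Dst (0 + x) (0 + y) n ω))
            ≤ ∑ x ∈ bx (0 : Vx d) m, ∑ y ∈ bx (0 : Vx d) m, (1 : ℝ) := by
              apply Finset.sum_le_sum
              intro x _
              apply Finset.sum_le_sum
              intro y _
              exact Ex_le_one hpa hpa1 hq0 fun ω _ => ind_le_one _
          _ = (2 * m + 1 : ℝ) ^ (2 * d) := by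
              rw [Finset.sum_const, Finset.sum_const, nsmul_eq_mul, nsmul_eq_mul, hcard, mul_one,
                ← pow_add]
              congr 1
              ring
      refine h1.trans ?_
      have hbr : (1 : ℝ) ≤ b := by exact_mod_cast hb1
      have h2 : (2 * b + 1 : ℝ) ≤ (2 * b + 1) ^ d :=
        le_self_pow₀ (by linarith) (by omega)
      have h3 : (n : ℝ) < 4 * b := by exact_mod_cast hcase
      have h4 : h * n ≤ 2 * (2 * b + 1 : ℝ) ^ d := by
        have : h * n ≤ 1 * n := mul_le_mul_of_nonneg_right hh1 hn0.le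
        nlinarith
      have h5 : (2 * m + 1 : ℝ) ^ (2 * d) ≤
          2 * ((2 * m + 1) ^ (2 * d) * (2 * b + 1) ^ d / (h * n)) := by
        rw [← mul_div_assoc, le_div_iff₀ (by positivity)]
        have : (0 : ℝ) ≤ (2 * m + 1) ^ (2 * d) := by positivity
        nlinarith
      refine h5.trans ?_
      apply mul_le_mul_of_nonneg_right (le_max_right _ _)
      positivity
  · -- main case
    set M : ℝ := 2 * d * (2 * n + 1) ^ (d - 1) with hM
    set Nc : Finset (Ed d) → ℝ := fun ω =>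
      (ncl Prod.fst tgt (no (Vx d)) (bd (0 : Vx d) n)
        ((ω ∩ eb (0 : Vx d) n : Finset (Ed d)) : Set (Ed d)) : ℝ) with hNc
    have hNcM : ∀ ω, ω ⊆ eb (0 : Vx d) N → 0 ≤ Nc ω ∧ Nc ω ≤ M := by
      intro ω _
      refine ⟨Nat.cast_nonneg _, ?_⟩
      have h1 : ncl Prod.fst tgt (no (Vx d)) (bd (0 : Vx d) n)
          ((ω ∩ eb (0 : Vx d) n : Finset (Ed d)) : Set (Ed d)) ≤ (bd (0 : Vx d) n).card := by
        unfold ncl
        refine (Set.ncard_image_le (Finset.finite_toSet _)).trans ?_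
        rw [Set.ncard_coe_finset]
      have h2 := h1.trans (h_CNT d hd n).2.1
      have h3 : ((ncl Prod.fst tgt (no (Vx d)) (bd (0 : Vx d) n)
          ((ω ∩ eb (0 : Vx d) n : Finset (Ed d)) : Set (Ed d)) : ℕ) : ℝ) ≤
          ((2 * d * (2 * n + 1) ^ (d - 1) : ℕ) : ℝ) := by exact_mod_cast h2
      refine h3.trans (le_of_eq ?_)
      rw [hM]
      push_cast
      rfl
    obtain ⟨l, hl1, hl2, hsum⟩ := h_MVN (Vx d) (Ed d) Prod.fst tgt (Wir 0 N) (bx 0 N) (eb 0 N) q
      la lb M hq0 hlab Nc hNcM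
    have hp0 := MIX_.lg_pos l
    have hp1 := MIX_.lg_lt_one l
    have hpl : pa ≤ lg l := MIX_.le_lg hpa hpa1 hl1
    obtain ⟨W, hW1, hW2, hW3⟩ := h_GRD d b n hcase
    -- the covariances
    set A : Ed d → ℝ := fun e =>
      Ex Prod.fst tgt (Wir 0 N) (bx 0 N) (eb 0 N) (lg l) q Nc *
        Ex Prod.fst tgt (Wir 0 N) (bx 0 N) (eb 0 N) (lg l) q (fun ω => ind (e ∈ ω)) -
      Ex Prod.fst tgt (Wir 0 N) (bx 0 N) (eb 0 N) (lg l) q fun ω => Nc ω * ind (e ∈ ω) with hAdef
    have hsub : ∀ v ∈ W, eb v b ⊆ eb (0 : Vx d) n := by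
      intro v hv
      rw [← es_bx, ← es_bx]
      exact es_mono (hW1 v hv)
    have hnNs : bx (0 : Vx d) n ⊆ bx (0 : Vx d) N := by
      intro z hz
      rw [FKT.CNT_.mem_bx] at hz ⊢
      intro i
      have := hz i
      have hbn' : (n : ℤ) ≤ N := by exact_mod_cast hnN
      constructor <;> linarith [this.1, this.2]
    have hsubN : eb (0 : Vx d) n ⊆ eb (0 : Vx d) N := by
      rw [← es_bx, ← es_bx]
      exact es_mono hnNs
    have hGU : ∀ e ∈ eb (0 : Vx d) N, Prod.fst e ∈ bx (0 : Vx d) N ∧ tgt e ∈ bx (0 : Vx d) N := by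
      rw [← es_bx]
      exact es_sub _
    have hcov : ∀ v ∈ W, ∀ x y : Vx d, h ≤ tp (bx (0 : Vx d) b) pa q x y →
        h * phi (0 : Vx d) N (lg l) q (fun ω => ind (Dst (v + x) (v + y) n ω)) ≤
          ∑ e ∈ eb v b, A e ∧ ∀ e, 0 ≤ A e := by
      intro v hv x y hxy'
      have h1 := h_COV (Vx d) (Ed d) Prod.fst tgt (Wir 0 N) (bx 0 N) (bd (0 : Vx d) n) (eb 0 N)
        (eb (0 : Vx d) n) (eb v b) (lg l) q hp0 hp1 hq hGU (hsub v hv) (v + x) (v + y) Nc
        (fun ω => rfl)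
      refine ⟨?_, h1.2⟩
      refine le_trans ?_ h1.1
      have h2 := conn_lower h_DMC h_HOL h_AUT hpa hpl hp1 hq (hW1 v hv |>.trans hnNs) hxy'
      exact mul_le_mul_of_nonneg_right h2 (Ex_nonneg hp0 hp1 hq0 fun ω _ => ind_nonneg _)
    have hWne : W.Nonempty := by
      rw [Finset.nonempty_iff_ne_empty]
      rintro rfl
      rw [Finset.card_empty, Nat.cast_zero, mul_zero] at hW3
      have : (0 : ℝ) < (n : ℝ) ^ d := by positivity
      linarith
    have h0m : (0 : Vx d) ∈ bx (0 : Vx d) m := by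
      rw [FKT.CNT_.mem_bx]
      intro i
      constructor <;> simp
    have hA0 : ∀ e, 0 ≤ A e := by
      obtain ⟨v, hv⟩ := hWne
      exact (hcov v hv 0 0 (hxy 0 h0m 0 h0m)).2
    have hpair : ∀ x ∈ bx (0 : Vx d) m, ∀ y ∈ bx (0 : Vx d) m,
        ∑ v ∈ W, phi (0 : Vx d) N (lg l) q (fun ω => ind (Dst (v + x) (v + y) n ω)) ≤
          M / (lb - la) / h := by
      intro x hx y hy
      rw [le_div_iff₀ hh, mul_comm, Finset.mul_sum]
      refine le_trans ?_ hsum
      calc ∑ v ∈ W, h * phi (0 : Vx d) N (lg l) q (fun ω => ind (Dst (v + x) (v + y) n ω))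
          ≤ ∑ v ∈ W, ∑ e ∈ eb v b, A e :=
            Finset.sum_le_sum fun v hv => (hcov v hv x y (hxy x hx y hy)).1
        _ = ∑ e ∈ W.biUnion fun v => eb v b, A e := by
            rw [Finset.sum_biUnion]
            intro v hv v' hv' hne
            exact hW2 v hv v' hv' hne
        _ ≤ ∑ e ∈ eb (0 : Vx d) N, A e := by
            apply Finset.sum_le_sum_of_subset_of_nonneg
            · intro e he
              rw [Finset.mem_biUnion] at he
              obtain ⟨v, hv, he⟩ := he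
              exact hsubN (hsub v hv he)
            · intro e _ _
              exact hA0 e
    -- sum over the pairs
    have htot : ∑ v ∈ W, ∑ x ∈ bx (0 : Vx d) m, ∑ y ∈ bx (0 : Vx d) m,
        phi (0 : Vx d) N (lg l) q (fun ω => ind (Dst (v + x) (v + y) n ω)) ≤
          (2 * m + 1) ^ (2 * d) * (M / (lb - la) / h) := by
      rw [Finset.sum_comm]
      have h1 : ∀ x ∈ bx (0 : Vx d) m, ∑ v ∈ W, ∑ y ∈ bx (0 : Vx d) m,
          phi (0 : Vx d) N (lg l) q (fun ω => ind (Dst (v + x) (v + y) n ω)) ≤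
          (2 * m + 1) ^ d * (M / (lb - la) / h) := by
        intro x hx
        rw [Finset.sum_comm]
        calc ∑ y ∈ bx (0 : Vx d) m, ∑ v ∈ W,
              phi (0 : Vx d) N (lg l) q (fun ω => ind (Dst (v + x) (v + y) n ω))
            ≤ ∑ y ∈ bx (0 : Vx d) m, M / (lb - la) / h :=
              Finset.sum_le_sum fun y hy => hpair x hx y hy
          _ = _ := by rw [Finset.sum_const, nsmul_eq_mul, hcard]
      calc _ ≤ ∑ x ∈ bx (0 : Vx d) m, (2 * m + 1 : ℝ) ^ d * (M / (lb - la) / h) :=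
            Finset.sum_le_sum h1
        _ = _ := by
            rw [Finset.sum_const, nsmul_eq_mul, hcard, ← mul_assoc, ← pow_add]
            congr 2
            ring
    obtain ⟨v, hv, hvle⟩ : ∃ v ∈ W, (W.card : ℝ) * ∑ x ∈ bx (0 : Vx d) m,
        ∑ y ∈ bx (0 : Vx d) m,
        phi (0 : Vx d) N (lg l) q (fun ω => ind (Dst (v + x) (v + y) n ω)) ≤
          (2 * m + 1) ^ (2 * d) * (M / (lb - la) / h) := by
      by_contra hcon
      push Not at hcon
      have h1 : ∑ _v ∈ W, (2 * m + 1 : ℝ) ^ (2 * d) * (M / (lb - la) / h) <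
          ∑ v ∈ W, (W.card : ℝ) * ∑ x ∈ bx (0 : Vx d) m, ∑ y ∈ bx (0 : Vx d) m,
            phi (0 : Vx d) N (lg l) q (fun ω => ind (Dst (v + x) (v + y) n ω)) :=
        Finset.sum_lt_sum_of_nonempty hWne hcon
      rw [Finset.sum_const, nsmul_eq_mul, ← Finset.mul_sum] at h1
      have hWc : (0 : ℝ) < W.card := by exact_mod_cast hWne.card_pos
      exact absurd (lt_of_mul_lt_mul_left h1 hWc.le) (not_lt.mpr htot)
    refine ⟨lg l, hpl, MIX_.lg_le hpb0 hpb hl2, v, hW1 v hv, ?_⟩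
    have hWc : (0 : ℝ) < W.card := by exact_mod_cast hWne.card_pos
    set S := ∑ x ∈ bx (0 : Vx d) m, ∑ y ∈ bx (0 : Vx d) m,
      phi (0 : Vx d) N (lg l) q (fun ω => ind (Dst (v + x) (v + y) n ω)) with hS
    have hS0 : 0 ≤ S := Finset.sum_nonneg fun x _ => Finset.sum_nonneg fun y _ =>
      Ex_nonneg hp0 hp1 hq0 fun ω _ => ind_nonneg _
    -- n ^ d S ≤ (2 b + 1) ^ d |W| S
    have h1 : (n : ℝ) ^ d * S ≤ (2 * b + 1) ^ d * ((2 * m + 1) ^ (2 * d) * (M / (lb - la) / h)) := by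
      calc (n : ℝ) ^ d * S ≤ ((2 * b + 1) ^ d * (W.card : ℝ)) * S :=
            mul_le_mul_of_nonneg_right hW3 hS0
        _ = (2 * b + 1) ^ d * ((W.card : ℝ) * S) := by ring
        _ ≤ _ := mul_le_mul_of_nonneg_left hvle (by positivity)
    have h2 : M ≤ 2 * d * 3 ^ d * (n : ℝ) ^ (d - 1) := by
      rw [hM, mul_assoc (2 * (d : ℝ))]
      apply mul_le_mul_of_nonneg_left _ (by positivity)
      have h3 : (2 * (n : ℝ) + 1) ^ (d - 1) ≤ (3 * n) ^ (d - 1) :=
        pow_le_pow_left₀ (by positivity) (by linarith) _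
      have h4 : (3 : ℝ) ^ (d - 1) ≤ 3 ^ d := pow_le_pow_right₀ (by norm_num) (Nat.sub_le _ _)
      rw [mul_pow] at h3
      refine h3.trans ?_
      exact mul_le_mul_of_nonneg_right h4 (by positivity)
    have hnd : (n : ℝ) ^ d = n ^ (d - 1) * n := by
      rw [← pow_succ]
      congr 1
      omega
    have hnp : (0 : ℝ) < (n : ℝ) ^ (d - 1) := by positivity
    have h5 : (n : ℝ) ^ (d - 1) * (n * S) ≤ (n : ℝ) ^ (d - 1) *
        (2 * d * 3 ^ d / (lb - la) * ((2 * m + 1) ^ (2 * d) * (2 * b + 1) ^ d / h)) := by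
      calc (n : ℝ) ^ (d - 1) * (n * S) = (n : ℝ) ^ d * S := by rw [hnd]; ring
        _ ≤ (2 * b + 1) ^ d * ((2 * m + 1) ^ (2 * d) * (M / (lb - la) / h)) := h1
        _ ≤ (2 * b + 1) ^ d * ((2 * m + 1) ^ (2 * d) *
            (2 * d * 3 ^ d * (n : ℝ) ^ (d - 1) / (lb - la) / h)) := by
            apply mul_le_mul_of_nonneg_left _ (by positivity)
            apply mul_le_mul_of_nonneg_left _ (by positivity)
            apply div_le_div_of_nonneg_right _ hh.le
            exact div_le_div_of_nonneg_right h2 hl0.le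
        _ = _ := by ring
    have h6 := le_of_mul_le_mul_left h5 hnp
    have h7 : S ≤ 2 * d * 3 ^ d / (lb - la) *
        ((2 * m + 1) ^ (2 * d) * (2 * b + 1) ^ d / (h * n)) := by
      have e1 : (2 * m + 1 : ℝ) ^ (2 * d) * (2 * b + 1) ^ d / (h * n) =
          (2 * m + 1) ^ (2 * d) * (2 * b + 1) ^ d / h / n := by rw [div_div]
      rw [e1, ← mul_div_assoc, le_div_iff₀ hn0, mul_comm]
      exact h6
    refine h7.trans ?_
    apply mul_le_mul_of_nonneg_right (le_max_left _ _)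
    positivity

end Pool.Agent.FKS
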