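import Pool.Agent.FKS.TargetsU
import Pool.Agent.FKP.Lem

/-!
# Project FKS, part U: lower bounds for the wired measures of boxes (T_WLO)
-/

set_option autoImplicit false

namespace Pool.Agent.FKS

open Filter MeasureTheory Pool.Agent.FKP
open Pool.Agent.FKT hiding ind

namespace WLO_

theorem ind_eq (P : Prop) : FKT.ind P = ind P := rfl

theorem bx_mono {d : ℕ} (x : Vx d) {n m : ℕ} (h : n ≤ m) : bx x n ⊆ bx x m := by
  intro v hv
  have h' : (n : ℤ) ≤ m := by exact_mod_cast h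
  simp only [bx, Finset.mem_Icc, Pi.le_def] at hv ⊢
  exact ⟨fun i => by linarith [hv.1 i], fun i => by linarith [hv.2 i]⟩

theorem eb_mono {d : ℕ} (x : Vx d) {n m : ℕ} (h : n ≤ m) : eb x n ⊆ eb x m := by
  rw [← es_bx, ← es_bx]
  exact es_mono (bx_mono x h)

end WLO_

open WLO_ in
theorem p_WLO (h_DOM : FKT.T_DOM) (h_CVL : FKT.T_CVL) (h_HOL : FKP.T_HOL) : T_WLO := by
  intro d hd p' p q hp' hpp hp hq μ hμ K N hKN Q hQ
  have hp1' : p' < 1 := lt_of_le_of_lt hpp hp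
  have hmono : ∀ a b : Finset (Ed d), a ⊆ b →
      ind (Q (a ∩ eb (0 : Vx d) K)) ≤ ind (Q (b ∩ eb (0 : Vx d) K)) := fun a b hab =>
    ind_mono fun h => hQ _ _ (Finset.inter_subset_inter_right hab) h
  have h1 : ∀ m, N ≤ m → phi (0 : Vx d) m p' q (fun ω => ind (Q (ω ∩ eb (0 : Vx d) K))) ≤
      phi (0 : Vx d) N p' q fun ω => ind (Q (ω ∩ eb (0 : Vx d) K)) := by
    intro m hm
    have h := h_DOM d hd p' q hp' hp1' hq 0 0 N m (bx_mono 0 hm)
      (fun ω => ind (Q (ω ∩ eb (0 : Vx d) K))) hmono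
    have e : (fun ω : Finset (Ed d) => ind (Q ((ω ∩ eb (0 : Vx d) N) ∩ eb (0 : Vx d) K))) =
        fun ω => ind (Q (ω ∩ eb (0 : Vx d) K)) := by
      funext ω
      rw [Finset.inter_assoc, Finset.inter_eq_right.2 (eb_mono 0 hKN)]
    simp only [e] at h
    exact h
  have h2 := (h_CVL d p' q μ hμ (eb (0 : Vx d) K) Q).1
  have h3 : μ.real {ω | Q (rs (eb (0 : Vx d) K) (cfg ω))} ≤
      phi (0 : Vx d) N p' q fun ω => ind (Q (ω ∩ eb (0 : Vx d) K)) := by
    refine le_of_tendsto h2 ?_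
    filter_upwards [eventually_ge_atTop N] with m hm
    exact h1 m hm
  refine h3.trans ?_
  refine h_HOL (Vx d) (Ed d) Prod.fst tgt _ _ _ _ p' p q hp' hpp hp hq (fun _ _ h => h) ?_ _
    fun a b hab _ => hmono a b hab
  intro e he
  rw [← es_bx, mem_es] at he
  exact he

end Pool.Agent.FKS
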