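import Pool.Agent.FKS.TargetsU
import Pool.Agent.FKP.Lem

/-!
# FKS, part U: WOA
-/

set_option autoImplicit false

namespace Pool.Agent.FKS

open Filter MeasureTheory Pool.Agent.FKP
open Pool.Agent.FKT hiding ind

namespace WOA_

theorem bd_mono {d : ℕ} (a : Vx d) (s : ℕ) (y : Vx d) (R : ℕ) : Inc (BD a s y R) := by
  rintro ω ω' hω ⟨x, hx, z, hz, h⟩
  refine ⟨x, hx, z, hz, ?_⟩
  exact Con_mono (fun _ _ h => h)
    (by
      intro e he
      have he' : e ∈ ω ∩ eb y R := he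
      rw [Finset.mem_inter] at he'
      have : e ∈ ω' ∩ eb y R := Finset.mem_inter.mpr ⟨hω he'.1, he'.2⟩
      exact this) h

theorem bd_inter {d : ℕ} (a : Vx d) (s : ℕ) (y : Vx d) (R : ℕ) (ω : Finset (Ed d)) :
    BD a s y R (ω ∩ eb y R) ↔ BD a s y R ω := by
  unfold BD
  rw [Finset.inter_assoc, Finset.inter_self]

theorem sub {d : ℕ} (h_EXT : T_EXTU) (R : ℕ) :
    Inf0 d ⊆ {ω | BD (0 : Vx d) 0 0 R (rs (eb (0 : Vx d) R) (cfg ω))} := by
  intro ω hω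
  have hinf : (C0 ω).Infinite := hω
  have hex : ∃ z ∈ C0 ω, z ∉ bx (0 : Vx d) R := by
    by_contra hcon
    push Not at hcon
    exact hinf ((bx (0 : Vx d) R).finite_toSet.subset fun z hz => hcon z hz)
  obtain ⟨z, hz, hzR⟩ := hex
  have h0 : (0 : Vx d) ∈ bx (0 : Vx d) R := by
    unfold bx
    rw [Finset.mem_Icc]
    constructor
    · intro i; simp
    · intro i; simp
  have h00 : (0 : Vx d) ∈ bx (0 : Vx d) 0 := by
    unfold bx
    rw [Finset.mem_Icc]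
    constructor
    · intro i; simp
    · intro i; simp
  obtain ⟨z', hz', hc⟩ := h_EXT d 0 R (cfg ω) 0 z h0 (Or.inl hzR) hz
  refine ⟨0, h00, z', hz', ?_⟩
  unfold Cf
  refine Con_mono (fun _ _ h => h) ?_ hc
  intro e he
  have h1 : e ∈ cfg ω := he.1
  have h2 : e ∈ eb (0 : Vx d) R := he.2
  have h3 : e ∈ rs (eb (0 : Vx d) R) (cfg ω) := by
    classical
    exact Finset.mem_filter.mpr ⟨h2, h1⟩
  have : e ∈ rs (eb (0 : Vx d) R) (cfg ω) ∩ eb (0 : Vx d) R :=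
    Finset.mem_inter.mpr ⟨h3, h2⟩
  exact this

end WOA_

theorem p_WOA (h_EXT : T_EXTU) (h_WLO : T_WLO) : T_WOA := by
  intro d hd p0 q h0 h1 hq hper
  obtain ⟨μ, hμ, hθ⟩ := hper
  refine ⟨μ.real (Inf0 d), hθ, ?_⟩
  intro p hp hp1 R N hRN
  have h := h_WLO d hd p0 p q h0 hp hp1 hq μ hμ R N hRN (BD (0 : Vx d) 0 0 R)
    (WOA_.bd_mono _ _ _ _)
  have := hμ.prob
  have h2 : μ.real (Inf0 d) ≤
      μ.real {ω | BD (0 : Vx d) 0 0 R (rs (eb (0 : Vx d) R) (cfg ω))} :=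
    measureReal_mono (WOA_.sub h_EXT R) (measure_ne_top _ _)
  have h3 : (phi (0 : Vx d) N p q fun ω => ind (BD (0 : Vx d) 0 0 R (ω ∩ eb (0 : Vx d) R))) =
      phi (0 : Vx d) N p q fun ω => ind (BD (0 : Vx d) 0 0 R ω) := by
    unfold phi
    exact Ex_congr fun ω _ => ind_congr (WOA_.bd_inter _ _ _ _ _)
  rw [← h3]
  exact h2.trans h

end Pool.Agent.FKS
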