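import Pool.Agent.FKP.Assembly
import Pool.Agent.FKT.MainB
import Pool.Agent.FKS.P_AUG
import Pool.Agent.FKS.P_RFX
import Pool.Agent.FKS.P_EXTU
import Pool.Agent.FKS.P_MXQ
import Pool.Agent.FKS.P_WLO
import Pool.Agent.FKS.P_WOA
import Pool.Agent.FKS.P_PCR
import Pool.Agent.FKS.P_BTW
import Pool.Agent.FKS.P_BTF
import Pool.Agent.FKS.P_FAC
import Pool.Agent.FKS.P_STR
import Pool.Agent.FKS.P_CHN
import Pool.Agent.FKS.P_TPP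
import Pool.Agent.FKS.P_NCA
import Pool.Agent.FKS.P_COV
import Pool.Agent.FKS.P_MVN
import Pool.Agent.FKS.P_GRD
import Pool.Agent.FKS.P_UZF
import Pool.Agent.FKS.P_SHF
import Pool.Agent.FKS.P_KWF
import Pool.Agent.FKS.P_KFR

/-!
# Project FKS: assembly of part U (T_MXQ, T_BTF, T_KFR)
-/

set_option autoImplicit false

namespace Pool.Agent.FKS

theorem g_MXQ : T_MXQ := p_MXQ FKP.g_MVT FKP.p_AVY FKP.g_INB FKP.g_HOL FKP.p_INC FKT.p_CNT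
theorem g_WLO : T_WLO := p_WLO FKT.f_DOM FKT.f_CVL FKP.g_HOL
theorem g_WOA : T_WOA := p_WOA p_EXTU g_WLO
theorem g_PCR : T_PCR := p_PCR FKT.f_EXI FKT.f_THM FKT.p_CRI FKP.p_ONE
theorem g_BTW : T_BTW := p_BTW g_PCR FKT.f_BOX FKT.f_EXI p_EXTU g_WLO
theorem g_BTF : T_BTF := p_BTF g_BTW g_MXQ
theorem g_FAC : T_FAC := p_FAC g_WOA g_MXQ p_AUG p_RFX FKT.p_CNT
theorem g_STR : T_STR := p_STR g_FAC p_RFX p_AUG FKP.g_DMC FKT.f_FKG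
theorem g_CHN : T_CHN := p_CHN FKT.f_FKG FKP.g_DMC FKP.g_FEN p_AUG
theorem g_TPP : T_TPP := p_TPP g_STR g_CHN
theorem g_COV : T_COV := p_COV FKT.f_FKG p_NCA
theorem g_MVN : T_MVN := p_MVN FKP.p_DER
theorem g_UZF : T_UZF := p_UZF g_MVN g_COV p_GRD FKP.g_DMC FKP.g_HOL FKP.p_AUT FKT.p_CNT
theorem g_SHF : T_SHF := p_SHF FKT.f_DOM FKT.f_TRA
theorem g_KWF : T_KWF := p_KWF g_UZF g_SHF p_EXTU g_BTW
theorem g_KFR : T_KFR := p_KFR g_TPP g_KWF g_SHF g_MXQ FKP.g_HOL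

end Pool.Agent.FKS
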