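import Pool.Agent.FKS.TargetsF
import Pool.Agent.FKP.P_BLM

/-!
# Project FKS: the target T_PIW (product inequality for the wired measure of the lattice)
-/

set_option autoImplicit false

namespace Pool.Agent.FKS

open Filter MeasureTheory Pool.Agent.FKP
open Pool.Agent.FKT hiding ind

theorem p_PIW (h_PIF : T_PIF) (h_LOC : FKT.T_LOC) : T_PIW := by
  intro p1 p2 q hp hpp hp1 hq
  obtain ⟨c, hc, hP⟩ := h_PIF p1 p2 q hp hpp hp1 hq
  refine ⟨c, hc, ?_⟩
  intro d μ hμ ι I F Q ε hε hInc hloc hdisj hev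
  classical
  have hq0 : 0 < q := by linarith
  have hp20 : 0 < p2 := hp.trans hpp
  let FF : Finset (Ed d) := I.biUnion F
  have hFF : ∀ i ∈ I, F i ⊆ FF := fun i hi => Finset.subset_biUnion_of_mem F hi
  let P : Finset (Ed d) → Prop := fun A => ∀ i ∈ I, ¬ Q i (A ∩ F i)
  have hev1 : {ω : Ed d → Bool | ∀ i ∈ I, ¬ Q i (rs (F i) (cfg ω))} =
      {ω | P (rs FF (cfg ω))} := by
    ext ω
    show (∀ i ∈ I, ¬ Q i (rs (F i) (cfg ω))) ↔ ∀ i ∈ I, ¬ Q i (rs FF (cfg ω) ∩ F i)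
    refine forall_congr' fun i => forall_congr' fun hi => not_congr ?_
    rw [BLM_.rs_inter FF (F i) (hFF i hi) (cfg ω)]
  have hmeas : MeasurableSet {ω : Ed d → Bool | P (rs FF (cfg ω))} := (h_LOC d p2 q FF).2 P
  have hint : ∫ ω, ind (P (rs FF (cfg ω))) ∂μ = μ.real {ω : Ed d → Bool | P (rs FF (cfg ω))} := by
    have h1 : (fun ω : Ed d → Bool => ind (P (rs FF (cfg ω)))) =
        Set.indicator {ω : Ed d → Bool | P (rs FF (cfg ω))} (fun _ => (1 : ℝ)) := by
      funext ω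
      by_cases h : P (rs FF (cfg ω))
      · rw [ind_true h, Set.indicator_of_mem (show ω ∈ {ω : Ed d → Bool |
          P (rs FF (cfg ω))} from h)]
      · rw [ind_false h, Set.indicator_of_notMem (show ω ∉ {ω : Ed d → Bool |
          P (rs FF (cfg ω))} from h)]
    rw [h1, integral_indicator_const _ hmeas, smul_eq_mul, mul_one]
  have hlim := ((h_LOC d p2 q FF).1 μ hμ fun A => ind (P A)).1
  rw [hint] at hlim
  rw [hev1]
  have hall : ∀ᶠ n : ℕ in atTop, ∀ i ∈ I,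
      phi (0 : Vx d) n p1 q (fun ω => ind (¬ Q i ω)) ≤ ε := by
    rw [Filter.eventually_all_finset]
    exact hev
  refine le_of_tendsto hlim (hall.mono fun n hn => ?_)
  have hfun : (fun ω : Finset (Ed d) => ind (P (ω ∩ FF))) =
      fun ω => ind (∀ i ∈ I, ¬ Q i ω) := by
    funext ω
    refine ind_congr (forall_congr' fun i => forall_congr' fun hi => not_congr ?_)
    have h1 : ω ∩ FF ∩ F i = ω ∩ F i := by
      rw [Finset.inter_assoc, Finset.inter_eq_right.2 (hFF i hi)]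
    rw [h1]
    exact (hloc i hi ω).symm
  show phi (0 : Vx d) n p2 q (fun ω => ind (P (ω ∩ FF))) ≤ (ε ^ c) ^ I.card
  rw [hfun]
  have hG : ∀ e ∈ eb (0 : Vx d) n, Prod.fst e ∈ bx (0 : Vx d) n ∧ tgt e ∈ bx (0 : Vx d) n := by
    intro e he
    rw [← es_bx, mem_es] at he
    exact he
  have h2 := hP (Vx d) (Ed d) Prod.fst tgt (Wir 0 n) (bx 0 n) (eb 0 n) hG ι I F Q hInc hloc hdisj
  refine h2.trans ?_
  calc ∏ i ∈ I, (Ex Prod.fst tgt (Wir 0 n) (bx 0 n) (eb 0 n) p1 q fun ω => ind (¬ Q i ω)) ^ c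
      ≤ ∏ _i ∈ I, ε ^ c := by
        apply Finset.prod_le_prod
        · intro i _
          exact Real.rpow_nonneg (Ex_nonneg hp (hpp.trans hp1) hq0 fun ω _ => ind_nonneg _) _
        · intro i hi
          exact Real.rpow_le_rpow (Ex_nonneg hp (hpp.trans hp1) hq0 fun ω _ => ind_nonneg _)
            (hn i hi) hc.le
    _ = (ε ^ c) ^ I.card := by rw [Finset.prod_const]

end Pool.Agent.FKS
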