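import Pool.Agent.FKS.Main
import Pool.Agent.FKP.PartC2

/-!
# Project FKS, part F: dimension two

From the cells (T_CEL), the sprinkling (T_SPR) and the product inequality (T_PIF) to both tails in
dimension two (T_TWD). Small blocks: `bx (v + cc b w) b`, `w : Vx 2`. The event `Zc O v b`: for
all small blocks `w`, `|w j| ≤ 62`, around `v` there are long crossings in the row and in the column of
the block. It is increasing, depends only on `eb v (4 B + 2)`, `B = 20 (2 b + 1)`, and implies that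
the block with centre `v` and size `B` is good (`FKP.GB`); so the contour argument of FKP
(T_PSM, T_TAI, T_FIN) can be used unchanged.
-/

set_option autoImplicit false

namespace Pool.Agent.FKS

open Filter MeasureTheory Pool.Agent.FKP
open Pool.Agent.FKT hiding ind

/-- The edges of the strip of the small block `bx w b` in the direction `i`: inside
`w + Λ_{9 b + 1}`, and the other coordinate of both ends at distance at most `b` of `w`. -/
noncomputable def stp (w : Vx 2) (i : Fin 2) (b : ℕ) : Finset (Ed 2) :=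
  (eb w (9 * b + 1)).filter fun e => ∀ j, j ≠ i → |e.1 j - w j| ≤ b ∧ |tgt e j - w j| ≤ b

/-- The long crossing of the strip of the small block `bx w b` in the direction `i`: from
`· i ≤ w i - (3 b + 1)` to `w i + (3 b + 1) ≤ · i`. -/
def SC (O : Set (Ed 2)) (w : Vx 2) (i : Fin 2) (b : ℕ) : Prop :=
  ∃ x y : Vx 2, (∀ j, j ≠ i → |x j - w j| ≤ b) ∧ Cn (O ∩ (stp w i b : Set (Ed 2))) x y ∧
    x i ≤ w i - (3 * b + 1) ∧ w i + (3 * b + 1) ≤ y i

/-- All the crossings around `v`. (Not written with `w ∈ bx 0 62`: the kernel and `whnf` try to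
evaluate this finite set.) -/
def Zc (O : Set (Ed 2)) (v : Vx 2) (b : ℕ) : Prop :=
  ∀ w : Vx 2, (∀ j, |w j| ≤ 62) → ∀ i : Fin 2, SC O (v + cc b w) i b

/-- ZGB. The crossings make the block of size `B = 20 (2 b + 1)` good. Proof: (0) the points of the
crossing `H w` (direction `0`) of the block `w` are in the rows `|y 1 - c 1| ≤ b` (`c = v + cc b w`),
those of the crossing `V w` (direction `1`) in the columns `|y 0 - c 0| ≤ b`; all in
`eb v (4 B + 2)` as `62 (2 b + 1) + 9 b + 1 ≤ 80 (2 b + 1) + 2`. By `p_PLC` `H w` meets `V w`,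
`V (w + e_0)` and `H (w + e_1)` meets `V w`; so all crossings are in one
cluster of `O ∩ eb v (4 B + 2)`. (1) For `z ∈ bx 0 1` take `w = 40 z` and `y` the first point of
`H w`: `y ∈ bx (v + cc B z) B` (distance at most `9 b + 2`), and the first point of `H w'`,
`w' = w ∓ 40 e_0`, is connected to `y` at distance at least `B`: `Arm O y B` by T_ARC. (2) `x` in
`bx v (3 B + 1)` is in `bx (v + cc b w) b` for some `w`, `|w j| ≤ 61`; if `Arm O x B` then the cluster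
of `x` in `O ∩ eb x B ⊆ eb v (4 B + 2)` leaves `bx (v + cc b w) (3 b + 1)`; at the first exit
through the top (bottom, right, left) side it meets `H (w + e_1)` (`H (w - e_1)`, `V (w + e_0)`,
`V (w - e_0)`) by `p_PLC`. Hypothesis: T_ARC. -/
def T_ZGB : Prop := ∀ (O : Set (Ed 2)) (v : Vx 2) (b : ℕ), Zc O v b → GB O v (20 * (2 * b + 1))

/-- SCP. The probability of a long crossing. Proof: `pm` between `p0` and `p1`, `δ` from T_SPR for
`pm < p1`; `K` from T_CEL at `pm`; `a, N, Q, s` from T_CEL for `δ`, `ε / (16 K + 8)`, `a0`;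
`b = K a`. Let `c = w i - (3 b + 1) - b`, `x j` the point with the coordinate `i` equal to
`c + j a` and the other coordinate that of `w`, `j ≤ J = 8 K + 2`: `s (x 0)` has the coordinate `i`
at most `w i - (3 b + 1)`, `s (x J)` at least `w i + (3 b + 1)` (`J a ≥ 8 b + 2`), all the
`eb (x j) (K a)` are in `stp w i b` (`J a ≤ 8 b + 2 a ≤ 10 b`). If all `Q (x j)` hold and the links
`s (x j)`, `s (x (j + 1))` hold in `ω ∪ ξ`, then SC holds in `ω ∪ ξ`. By T_DMC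
`P(¬ Q (x j)) ≤ ε'` in the box `bx w N'`, `N'` large; the links fail with conditional probability
at most `ε'`; T_SPR. Hypotheses: T_CEL, T_SPR, T_DMC. -/
def T_SCP : Prop := ∀ (p0 p1 q : ℝ), Hyp 2 p0 p1 q → ∀ (ε : ℝ) (b0 : ℕ), 0 < ε →
  ∃ b N : ℕ, b0 ≤ b ∧ 9 * b + 1 ≤ N ∧ ∀ (w : Vx 2) (i : Fin 2),
    P0 w N p1 q (fun ω => ¬ SC (ω : Set (Ed 2)) w i b) ≤ ε

/-- ZPR. The probability of all crossings, in the wired boxes. Proof: T_SCP for
`ε / (2 * 125 ^ 2)`; SC is increasing and depends only on `stp w i b ⊆ eb w (9 b + 1) ⊆ es (bx w N)`.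
For `n` so large that `bx (v + cc b w) N ⊆ bx 0 n` for all `w`, `|w j| ≤ 62`, T_DMC (`R = Wir 0 n`,
`U1 = bx (v + cc b w) N`) gives `phi 0 n p1 q (¬ SC) ≤ P0 (v + cc b w) N p1 q (¬ SC)`; union bound
over the `125 ^ 2` blocks and the two directions. Hypotheses: T_SCP, T_DMC. -/
def T_ZPR : Prop := ∀ (p0 p1 q : ℝ), Hyp 2 p0 p1 q → ∀ (ε : ℝ) (b0 : ℕ), 0 < ε →
  ∃ b : ℕ, b0 ≤ b ∧ ∀ v : Vx 2, ∀ᶠ n : ℕ in atTop,
    phi (0 : Vx 2) n p1 q (fun ω => ind (¬ Zc (ω : Set (Ed 2)) v b)) ≤ ε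

/-- PIW. The product inequality for the wired measure of the lattice. Proof: T_PIF in the wired
boxes `phi 0 n` and `n → ∞` by `FKT.T_LOC` (`F` = the union of the `F i`). Hypotheses: T_PIF,
`FKT.T_LOC`. -/
def T_PIW : Prop := ∀ (p1 p2 q : ℝ), 0 < p1 → p1 < p2 → p2 < 1 → 1 ≤ q → ∃ c : ℝ, 0 < c ∧
  ∀ (d : ℕ) (μ : Measure (Ed d → Bool)), IsWired d p2 q μ →
  ∀ (ι : Type) (I : Finset ι) (F : ι → Finset (Ed d)) (Q : ι → Finset (Ed d) → Prop) (ε : ℝ),
    0 < ε → (∀ i ∈ I, Inc (Q i)) → (∀ i ∈ I, ∀ ω, Q i ω ↔ Q i (ω ∩ F i)) →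
    (∀ i ∈ I, ∀ j ∈ I, i ≠ j → Disjoint (F i) (F j)) →
    (∀ i ∈ I, ∀ᶠ n : ℕ in atTop, phi (0 : Vx d) n p1 q (fun ω => ind (¬ Q i ω)) ≤ ε) →
    μ.real {ω | ∀ i ∈ I, ¬ Q i (rs (F i) (cfg ω))} ≤ (ε ^ c) ^ I.card

/-- ZPI. Separated families of bad blocks. Proof: `pm` between `p0` and `p1`, `c` from T_PIW for
`pm < p1`, `ε = δ ^ (1 / c)`, `b` from T_ZPR at `pm`, `B = 20 (2 b + 1)`. T_PIW with
`F z = eb (cc B z) (4 B + 2)`, `Q z ω = Zc ω (cc B z) b`: increasing; local since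
`stp (cc B z + cc b w) i b ⊆ eb (cc B z) (4 B + 2)`; disjoint supports as in T_BLM; by T_ZGB `¬ GB`
implies `¬ Zc`, also for `rs (F z) (cfg ω)`. Hypotheses: T_ZPR, T_PIW, T_ZGB. -/
def T_ZPI : Prop := ∀ (p0 p1 q : ℝ), Hyp 2 p0 p1 q → ∀ δ : ℝ, 0 < δ → ∃ B : ℕ,
  ∀ μ : Measure (Ed 2 → Bool), IsWired 2 p1 q μ → ∀ D : Finset (Vx 2), Sp D →
    μ.real {ω | ∀ z ∈ D, ¬ GB (cfg ω) (cc B z) B} ≤ δ ^ D.card

/-- RCH. At `p1` the cluster of the origin reaches any distance with a probability bounded below.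
Proof: `μ0` percolating at `p0`. For every `n`, `μ0 (Inf0) ≤ μ0 (0 ↔ bd 0 n in eb 0 n)` =
lim of `phi 0 N p0` ≤ lim of `phi 0 N p1` (T_HOL) = `μ (0 ↔ bd 0 n in eb 0 n)`. Hypotheses: T_HOL,
`FKT.T_LOC`. -/
def T_RCH : Prop := ∀ (p0 p1 q : ℝ), Hyp 2 p0 p1 q → ∀ μ : Measure (Ed 2 → Bool),
  IsWired 2 p1 q μ → ∃ α : ℝ, 0 < α ∧ α ≤ 1 / 2 ∧ ∀ n : ℕ,
    α ≤ μ.real {ω : Ed 2 → Bool | ∃ v ∈ C0 ω, ∃ i, (n : ℤ) ≤ |v i|}

/-- `T_TWD` from the targets. -/
theorem twd_of (hZPI : T_ZPI) (hRCH : T_RCH) (hPSM : T_PSM) (hTAI : T_TAI) (hFIN : T_FIN) :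
    T_TWD := by
  intro p0 p1 q h μ hμ
  have hprob := hμ.prob
  have hε : (0 : ℝ) < (1 / (1024 * ((2 : ℕ) : ℝ) ^ 2)) ^ (2 * 2 * 9 ^ 2) := by positivity
  obtain ⟨b, hb⟩ := hZPI p0 p1 q h _ hε
  have h2 := hPSM 2 b (by omega) μ hprob (hb μ hμ)
  obtain ⟨h3, h4⟩ := hTAI 2 b (by omega) μ hprob h2
  obtain ⟨α, hα, hα2, h5⟩ := hRCH p0 p1 q h μ hμ
  exact hFIN 2 b (by omega) μ hprob α hα hα2 h5 h3 h4

end Pool.Agent.FKS
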