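import Pool.Agent.FKP.Lem
import Pool.Agent.FKS.TargetsF

/-!
# Project FKS, part F: the cluster of the origin reaches any distance (RCH)
-/

set_option autoImplicit false

namespace Pool.Agent.FKS

open Filter MeasureTheory Pool.Agent.FKP
open Pool.Agent.FKT hiding ind

/-- The cluster of the origin reaches any distance with probability at least `α`. -/
theorem RCH_main (h_MOP : FKT.T_MOP) (h_ARC : T_ARC) (d : ℕ) (p0 p1 q : ℝ) (H : Hyp d p0 p1 q) :
    ∃ α : ℝ, 0 < α ∧ α ≤ 1 / 2 ∧ ∀ μ : Measure (Ed d → Bool), IsWired d p1 q μ → ∀ n : ℕ,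
      α ≤ μ.real {ω : Ed d → Bool | ∃ v ∈ C0 ω, ∃ i, (n : ℤ) ≤ |v i|} := by
  obtain ⟨μ0, hμ0, hpos⟩ := H.per
  refine ⟨min (μ0.real (Inf0 d)) (1 / 2), lt_min hpos (by norm_num), min_le_right _ _,
    fun μ hμ n => ?_⟩
  have hprob0 := hμ0.prob
  have hprob := hμ.prob
  refine (min_le_left _ _).trans ?_
  have hmono : ∀ a b : Finset (Ed d), a ⊆ b → Arm (a : Set (Ed d)) 0 n →
      Arm (b : Set (Ed d)) 0 n := by
    rintro a b hab ⟨w, hw, hc⟩
    refine ⟨w, hw, Con_mono (fun _ _ h => h) ?_ hc⟩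
    exact Set.inter_subset_inter_left _ (Finset.coe_subset.mpr hab)
  have hloc : ∀ O : Set (Ed d), Arm O 0 n ↔
      Arm ((rs (eb (0 : Vx d) n) O : Finset (Ed d)) : Set (Ed d)) 0 n := by
    intro O
    have hset : ((rs (eb (0 : Vx d) n) O : Finset (Ed d)) : Set (Ed d)) ∩
        (eb (0 : Vx d) n : Set (Ed d)) = O ∩ (eb (0 : Vx d) n : Set (Ed d)) := by
      ext e
      unfold rs
      simp only [Finset.coe_filter, Set.mem_inter_iff, Set.mem_ofPred_eq, Finset.mem_coe]
      tauto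
    unfold Arm
    rw [hset]
  have h1 := (h_MOP d p0 p1 q H.h0 H.h01.le H.h1 H.hq μ0 μ hμ0 hμ (eb (0 : Vx d) n)
    (fun T => Arm (T : Set (Ed d)) 0 n) hmono).1
  have h2 : μ0.real (Inf0 d) ≤ μ0.real {ω : Ed d → Bool |
      Arm ((rs (eb (0 : Vx d) n) (cfg ω) : Finset (Ed d)) : Set (Ed d)) 0 n} := by
    apply measureReal_mono
    · intro ω hω
      show Arm ((rs (eb (0 : Vx d) n) (cfg ω) : Finset (Ed d)) : Set (Ed d)) 0 n
      rw [← hloc]
      have hinf : (C0 ω).Infinite := hω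
      obtain ⟨z, hz, hzn⟩ := hinf.exists_notMem_finset (bx (0 : Vx d) n)
      refine h_ARC d (cfg ω) 0 z n hz ?_
      unfold bx at hzn
      rw [Finset.mem_Icc, not_and_or] at hzn
      rcases hzn with h | h
      · rw [Pi.le_def, not_forall] at h
        obtain ⟨i, hi⟩ := h
        refine ⟨i, ?_⟩
        simp only [Pi.zero_apply] at hi ⊢
        rw [le_abs]
        right
        omega
      · rw [Pi.le_def, not_forall] at h
        obtain ⟨i, hi⟩ := h
        refine ⟨i, ?_⟩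
        simp only [Pi.zero_apply] at hi ⊢
        rw [le_abs]
        left
        omega
    · exact measure_ne_top _ _
  refine h2.trans (h1.trans ?_)
  apply measureReal_mono
  · intro ω hω
    have hω' : Arm (cfg ω) 0 n := (hloc _).mpr hω
    obtain ⟨w, hw, hc⟩ := hω'
    refine ⟨w, Con_mono (fun _ _ h => h) Set.inter_subset_left hc, ?_⟩
    unfold bd at hw
    rw [Finset.mem_filter] at hw
    obtain ⟨-, i, hi⟩ := hw
    refine ⟨i, ?_⟩
    simp only [Pi.zero_apply] at hi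
    rw [le_abs]
    rcases hi with hi | hi
    · right
      omega
    · left
      omega
  · exact measure_ne_top _ _

theorem p_RCH (h_MOP : FKT.T_MOP) (h_ARC : T_ARC) : T_RCH := by
  intro p0 p1 q H μ hμ
  obtain ⟨α, h1, h2, h3⟩ := RCH_main h_MOP h_ARC 2 p0 p1 q H
  exact ⟨α, h1, h2, h3 μ hμ⟩

end Pool.Agent.FKS
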