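import Pool.Agent.FKS.TargetsD

/-!
# Project FKS: TRP and DPM

Translation of the free measure and domain monotonicity.
-/

set_option autoImplicit false

namespace Pool.Agent.FKS

open Filter MeasureTheory Pool.Agent.FKP
open Pool.Agent.FKT hiding ind

theorem TRP_mem_bx {d : ℕ} {x y : Vx d} {N : ℕ} :
    y ∈ bx x N ↔ ∀ i, x i - (N : ℤ) ≤ y i ∧ y i ≤ x i + (N : ℤ) := by
  unfold bx
  rw [Finset.mem_Icc, Pi.le_def, Pi.le_def]
  exact ⟨fun h i => ⟨h.1 i, h.2 i⟩, fun h => ⟨fun i => (h i).1, fun i => (h i).2⟩⟩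

theorem TRP_bx_map {d : ℕ} (w : Vx d) (N : ℕ) :
    (bx (0 : Vx d) N).map (Equiv.addRight w).toEmbedding = bx w N := by
  ext y
  rw [Finset.mem_map, TRP_mem_bx]
  constructor
  · rintro ⟨x, hx, rfl⟩ i
    rw [TRP_mem_bx] at hx
    have h := hx i
    simp only [Pi.zero_apply] at h
    simp only [Equiv.coe_toEmbedding, Equiv.coe_addRight, Pi.add_apply]
    constructor <;> omega
  · intro h
    refine ⟨y - w, ?_, ?_⟩
    · rw [TRP_mem_bx]
      intro i
      have := h i
      simp only [Pi.zero_apply, Pi.sub_apply]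
      constructor <;> omega
    · simp

theorem p_TRP (h1 : FKP.T_AUT) : T_TRP := by
  intro d x N p q Q
  have h := (h1 d (Equiv.addRight x) (Equiv.refl _) (by
    intro y i
    simp only [Equiv.coe_addRight, Equiv.refl_apply]
    abel) (bx 0 N) p q).1 (fun ω => ind (Q ω))
  rw [TRP_bx_map] at h
  exact h

theorem p_DPM (h1 : FKP.T_DMC) : T_DPM := by
  intro d Λ x N p q hp hp1 hq hΛ Q hQ
  have hq0 : 0 < q := lt_of_lt_of_le one_pos hq
  have h4 := h1 (Vx d) (Ed d) Prod.fst tgt (no (Vx d)) Λ (bx x N) (es Λ)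
    (es (bx x N)) p q hp hp1 hq (es_mono hΛ) hΛ (fun e he => mem_es.mp he)
    (fun ω => ind (Q ω)) (by
      intro a b hab _
      exact ind_mono (hQ a b hab))
  have h5 : P0 x N p q Q ≤ fr Λ p q (fun ω => ind (Q ω)) := by
    refine le_trans h4 ?_
    unfold fr fw
    apply Ex_mono hp hp1 hq0
    intro ω _
    exact ind_mono (hQ _ _ Finset.inter_subset_left)
  have h6 : fr Λ p q (fun ω => ind (¬ Q ω)) = 1 - fr Λ p q (fun ω => ind (Q ω)) := by
    have e : (fun ω : Finset (Ed d) => ind (¬ Q ω)) = fun ω => 1 - ind (Q ω) := by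
      funext ω
      exact ind_not _
    rw [e]
    unfold fr fw
    rw [Ex_sub, Ex_const hp hp1 hq0]
  have h7 : (P0 x N p q fun ω => ¬ Q ω) = 1 - P0 x N p q Q := by
    have e : (fun ω : Finset (Ed d) => ind (¬ Q ω)) = fun ω => 1 - ind (Q ω) := by
      funext ω
      exact ind_not _
    unfold P0
    rw [e]
    unfold fr fw
    rw [Ex_sub, Ex_const hp hp1 hq0]
  rw [h6, h7]
  linarith

end Pool.Agent.FKS
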