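import Pool.Agent.FKP.Lem
import Pool.Agent.FKS.TargetsF

/-!
# Project FKS, part F: the probability of all crossings, in the wired boxes (ZPR)
-/

set_option autoImplicit false

namespace Pool.Agent.FKS

open Filter MeasureTheory Pool.Agent.FKP
open Pool.Agent.FKT hiding ind

/-- `SC` is increasing. -/
theorem ZPR_SC_mono {O O' : Set (Ed 2)} {w : Vx 2} {i : Fin 2} {b : ℕ} (h : O ⊆ O')
    (hs : SC O w i b) : SC O' w i b := by
  obtain ⟨x, y, h1, h2, h3, h4⟩ := hs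
  exact ⟨x, y, h1, Con_mono (fun _ _ h => h) (Set.inter_subset_inter_left _ h) h2, h3, h4⟩

/-- The strip is contained in the box. -/
theorem ZPR_stp_sub (w : Vx 2) (i : Fin 2) {b N : ℕ} (h : 9 * b + 1 ≤ N) :
    stp w i b ⊆ es (bx w N) := by
  intro e he
  unfold stp at he
  rw [Finset.mem_filter] at he
  have h1 : eb w (9 * b + 1) = es (bx w (9 * b + 1)) := rfl
  rw [h1] at he
  refine es_mono ?_ he.1
  unfold bx
  have h' : ((9 * b + 1 : ℕ) : ℤ) ≤ (N : ℤ) := by exact_mod_cast h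
  apply Finset.Icc_subset_Icc
  · intro l
    show w l - (N : ℤ) ≤ w l - ((9 * b + 1 : ℕ) : ℤ)
    omega
  · intro l
    show w l + ((9 * b + 1 : ℕ) : ℤ) ≤ w l + (N : ℤ)
    omega

/-- `SC` depends only on the strip. -/
theorem ZPR_SC_loc (ω : Finset (Ed 2)) {w : Vx 2} {i : Fin 2} {b N : ℕ} (h : 9 * b + 1 ≤ N) :
    SC (ω : Set (Ed 2)) w i b ↔ SC ((ω ∩ es (bx w N) : Finset (Ed 2)) : Set (Ed 2)) w i b := by
  have hset : ((ω ∩ es (bx w N) : Finset (Ed 2)) : Set (Ed 2)) ∩ (stp w i b : Set (Ed 2)) =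
      (ω : Set (Ed 2)) ∩ (stp w i b : Set (Ed 2)) := by
    ext e
    simp only [Finset.coe_inter, Set.mem_inter_iff, Finset.mem_coe]
    constructor
    · rintro ⟨⟨h1, -⟩, h3⟩
      exact ⟨h1, h3⟩
    · rintro ⟨h1, h3⟩
      exact ⟨⟨h1, ZPR_stp_sub w i h h3⟩, h3⟩
  unfold SC
  rw [hset]

/-- Every box is contained in all large boxes around the origin. -/
theorem ZPR_bx_sub (w : Vx 2) (N : ℕ) : ∀ᶠ n : ℕ in atTop, bx w N ⊆ bx (0 : Vx 2) n := by
  filter_upwards [eventually_ge_atTop (N + (w 0).natAbs + (w 1).natAbs)] with n hn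
  unfold bx
  apply Finset.Icc_subset_Icc
  · intro l
    show (0 : ℤ) - (n : ℤ) ≤ w l - (N : ℤ)
    fin_cases l
    · show (0 : ℤ) - (n : ℤ) ≤ w 0 - (N : ℤ)
      omega
    · show (0 : ℤ) - (n : ℤ) ≤ w 1 - (N : ℤ)
      omega
  · intro l
    show w l + (N : ℤ) ≤ (0 : ℤ) + (n : ℤ)
    fin_cases l
    · show w 0 + (N : ℤ) ≤ (0 : ℤ) + (n : ℤ)
      omega
    · show w 1 + (N : ℤ) ≤ (0 : ℤ) + (n : ℤ)
      omega

/-- The set of the small blocks. -/
theorem ZPR_cells (v : Vx 2) (b : ℕ) : ∃ S : Finset (Vx 2), (S.card : ℝ) = 125 ^ 2 ∧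
    ∀ O : Set (Ed 2), Zc O v b ↔ ∀ w ∈ S, ∀ i : Fin 2, SC O (v + cc b w) i b := by
  obtain ⟨m, hm⟩ : ∃ m : ℕ, m = 62 := ⟨_, rfl⟩
  have hmZ : (m : ℤ) = 62 := by rw [hm]; rfl
  refine ⟨bx (0 : Vx 2) m, ?_, fun O => ?_⟩
  · unfold bx
    rw [Pi.card_Icc]
    simp [hmZ]
    norm_num
  · have hmem : ∀ w : Vx 2, w ∈ bx (0 : Vx 2) m ↔ ∀ j, |w j| ≤ 62 := by
      intro w
      unfold bx
      rw [Finset.mem_Icc]
      constructor
      · rintro ⟨h1, h2⟩ j
        have h3 := h1 j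
        have h4 := h2 j
        simp only [Pi.zero_apply] at h3 h4
        rw [abs_le]
        constructor <;> omega
      · intro h
        constructor
        · intro j
          have h1 := abs_le.mp (h j)
          simp only [Pi.zero_apply]
          omega
        · intro j
          have h1 := abs_le.mp (h j)
          simp only [Pi.zero_apply]
          omega
    constructor
    · intro h w hw i
      exact h w ((hmem w).mp hw) i
    · intro h w hw i
      exact h w ((hmem w).mpr hw) i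

theorem p_ZPR (h_SCP : T_SCP) (h_DMC : T_DMC) : T_ZPR := by
  intro p0 p1 q H ε b0 hε
  obtain ⟨b, N, hb0, hbN, hP⟩ := h_SCP p0 p1 q H (ε / (2 * 125 ^ 2)) b0 (by positivity)
  refine ⟨b, hb0, fun v => ?_⟩
  obtain ⟨S, hcard, hZc⟩ := ZPR_cells v b
  have hp0 : 0 < p1 := H.h0.trans H.h01
  have hq0 : 0 < q := lt_of_lt_of_le one_pos H.hq
  have hall : ∀ᶠ n : ℕ in atTop, ∀ w ∈ S,
      bx (v + cc b w) N ⊆ bx (0 : Vx 2) n := by
    rw [Filter.eventually_all_finset]
    intro w _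
    exact ZPR_bx_sub _ _
  filter_upwards [hall] with n hn
  have hdm : ∀ w ∈ S, ∀ i : Fin 2,
      phi (0 : Vx 2) n p1 q (fun ω => ind (¬ SC (ω : Set (Ed 2)) (v + cc b w) i b)) ≤
        ε / (2 * 125 ^ 2) := by
    intro w hw i
    have h1 := h_DMC (Vx 2) (Ed 2) Prod.fst tgt (Wir (0 : Vx 2) n) (bx (0 : Vx 2) n)
      (bx (v + cc b w) N) (eb (0 : Vx 2) n) (es (bx (v + cc b w) N)) p1 q hp0 H.h1 H.hq
      (es_mono (hn w hw)) (hn w hw) (fun e he => mem_es.mp he)
      (fun ω => - ind (¬ SC (ω : Set (Ed 2)) (v + cc b w) i b)) (by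
        intro a c hac _
        apply neg_le_neg
        apply ind_mono
        intro h2 h3
        exact h2 (ZPR_SC_mono (Finset.coe_subset.mpr hac) h3))
    have h2 := hP (v + cc b w) i
    unfold P0 fr fw at h2
    unfold phi
    have h3 : ∀ f : Finset (Ed 2) → ℝ, ∀ (R : Vx 2 → Vx 2 → Prop) (U : Finset (Vx 2))
        (G : Finset (Ed 2)), Ex Prod.fst tgt R U G p1 q (fun ω => - f ω) =
          - Ex Prod.fst tgt R U G p1 q f := by
      intro f R U G
      have h4 := Ex_mul_left (s := Prod.fst) (t := tgt) (R := R) (U := U) (G := G) (p := p1)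
        (q := q) (-1) f
      rw [neg_one_mul] at h4
      rw [← h4]
      congr 1
      funext ω
      ring
    rw [h3, h3] at h1
    have h5 : Ex Prod.fst tgt (Wir (0 : Vx 2) n) (bx (0 : Vx 2) n) (eb (0 : Vx 2) n) p1 q
        (fun ω => ind (¬ SC (ω : Set (Ed 2)) (v + cc b w) i b)) =
        Ex Prod.fst tgt (Wir (0 : Vx 2) n) (bx (0 : Vx 2) n) (eb (0 : Vx 2) n) p1 q
        (fun ω => ind (¬ SC ((ω ∩ es (bx (v + cc b w) N) : Finset (Ed 2)) : Set (Ed 2))
          (v + cc b w) i b)) := by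
      congr 1
      funext ω
      exact ind_congr (not_congr (ZPR_SC_loc ω hbN))
    rw [h5]
    linarith
  have hle : ∀ ω : Finset (Ed 2), ind (¬ Zc (ω : Set (Ed 2)) v b) ≤
      ∑ w ∈ S, ∑ i : Fin 2, ind (¬ SC (ω : Set (Ed 2)) (v + cc b w) i b) := by
    intro ω
    by_cases hz : Zc (ω : Set (Ed 2)) v b
    · rw [ind_false (not_not.mpr hz)]
      exact Finset.sum_nonneg fun w _ => Finset.sum_nonneg fun i _ => ind_nonneg _
    · rw [ind_true hz]
      rw [hZc] at hz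
      push Not at hz
      obtain ⟨w, hw, i, hi⟩ := hz
      have h1 : ind (¬ SC (ω : Set (Ed 2)) (v + cc b w) i b) = 1 := ind_true hi
      calc (1 : ℝ) = ind (¬ SC (ω : Set (Ed 2)) (v + cc b w) i b) := h1.symm
        _ ≤ ∑ i : Fin 2, ind (¬ SC (ω : Set (Ed 2)) (v + cc b w) i b) :=
            Finset.single_le_sum (f := fun i => ind (¬ SC (ω : Set (Ed 2)) (v + cc b w) i b))
              (fun j _ => ind_nonneg _) (Finset.mem_univ i)
        _ ≤ _ := Finset.single_le_sum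
              (f := fun w => ∑ i : Fin 2, ind (¬ SC (ω : Set (Ed 2)) (v + cc b w) i b))
              (fun j _ => Finset.sum_nonneg fun i _ => ind_nonneg _) hw
  have hsum : phi (0 : Vx 2) n p1 q (fun ω => ∑ w ∈ S, ∑ i : Fin 2,
      ind (¬ SC (ω : Set (Ed 2)) (v + cc b w) i b)) =
      ∑ w ∈ S, ∑ i : Fin 2, phi (0 : Vx 2) n p1 q (fun ω =>
        ind (¬ SC (ω : Set (Ed 2)) (v + cc b w) i b)) := by
    unfold phi
    rw [Ex_sum]
    apply Finset.sum_congr rfl
    intro w _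
    rw [Ex_sum]
  calc phi (0 : Vx 2) n p1 q (fun ω => ind (¬ Zc (ω : Set (Ed 2)) v b))
      ≤ phi (0 : Vx 2) n p1 q (fun ω => ∑ w ∈ S, ∑ i : Fin 2,
          ind (¬ SC (ω : Set (Ed 2)) (v + cc b w) i b)) := by
        unfold phi
        exact Ex_mono hp0 H.h1 hq0 fun ω _ => hle ω
    _ = ∑ w ∈ S, ∑ i : Fin 2, phi (0 : Vx 2) n p1 q (fun ω =>
        ind (¬ SC (ω : Set (Ed 2)) (v + cc b w) i b)) := hsum
    _ ≤ ∑ w ∈ S, ∑ i : Fin 2, ε / (2 * 125 ^ 2) :=
        Finset.sum_le_sum fun w hw => Finset.sum_le_sum fun i _ => hdm w hw i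
    _ = ε := by
        simp only [Finset.sum_const, Finset.card_univ, Fintype.card_fin, nsmul_eq_mul]
        rw [hcard]
        push_cast
        field_simp

end Pool.Agent.FKS
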