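import Pool.Agent.FKP.Lem
import Pool.Agent.FKS.TargetsF
import Pool.Agent.FKS.P_ZPR
import Pool.Agent.FKS.P_LKS
import Pool.Agent.FKS.P_EBP
import Pool.Agent.FKS.P_TRP

/-!
# Project FKS, part F: the probability of a long crossing (SCP)
-/

set_option autoImplicit false

namespace Pool.Agent.FKS

open Filter MeasureTheory Pool.Agent.FKP
open Pool.Agent.FKT hiding ind

namespace SCP_

theorem mem_bx {x v : Vx 2} {m : ℕ} : v ∈ bx x m ↔ ∀ i, |v i - x i| ≤ (m : ℤ) := by
  unfold bx
  rw [Finset.mem_Icc]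
  constructor
  · rintro ⟨h1, h2⟩ i
    have h3 := h1 i
    have h4 := h2 i
    simp only at h3 h4
    rw [abs_le]
    constructor <;> omega
  · intro h
    constructor
    · intro i
      have h1 := abs_le.mp (h i)
      simp only
      omega
    · intro i
      have h1 := abs_le.mp (h i)
      simp only
      omega

/-- The points of the chain. -/
def xp (w : Vx 2) (i : Fin 2) (a b : ℕ) (j : ℕ) : Vx 2 :=
  w + Pi.single i ((j : ℤ) * a - 4 * b - 1)

theorem xp_i (w : Vx 2) (i : Fin 2) (a b j : ℕ) :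
    xp w i a b j i = w i + ((j : ℤ) * a - 4 * b - 1) := by
  simp [xp]

theorem xp_ne (w : Vx 2) (i : Fin 2) (a b j : ℕ) {l : Fin 2} (h : l ≠ i) :
    xp w i a b j l = w l := by
  simp [xp, h]

theorem xp_succ (w : Vx 2) (i : Fin 2) (a b j : ℕ) :
    xp w i a b (j + 1) = xp w i a b j + Pi.single i (a : ℤ) := by
  unfold xp
  rw [add_assoc, ← Pi.single_add]
  congr 2
  push_cast
  ring

/-- The boxes of the chain are in the strip. -/
theorem eb_stp (w : Vx 2) (i : Fin 2) {a K j : ℕ} (ha : 1 ≤ a) (hK : 1 ≤ K)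
    (hj : j ≤ 8 * K + 2) : eb (xp w i a (K * a) j) (K * a) ⊆ stp w i (K * a) := by
  have hja : (j : ℤ) * a ≤ 8 * (K * a : ℕ) + 2 * a := by
    have : j * a ≤ (8 * K + 2) * a := Nat.mul_le_mul_right a hj
    have h2 : ((j * a : ℕ) : ℤ) ≤ (((8 * K + 2) * a : ℕ) : ℤ) := by exact_mod_cast this
    push_cast at h2 ⊢
    linarith
  have haK : (a : ℤ) ≤ (K * a : ℕ) := by
    have : a ≤ K * a := Nat.le_mul_of_pos_left a hK
    exact_mod_cast this
  have hj0 : 0 ≤ (j : ℤ) * a := by positivity
  have hb0 : 0 ≤ ((K * a : ℕ) : ℤ) := by positivity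
  generalize hb : K * a = b at *
  have key : ∀ v : Vx 2, v ∈ bx (xp w i a b j) b → v ∈ bx w (9 * b + 1) ∧
      ∀ l, l ≠ i → |v l - w l| ≤ b := by
    intro v hv
    rw [mem_bx] at hv
    have h1 : ∀ l, l ≠ i → |v l - w l| ≤ b := by
      intro l hl
      have := hv l
      rwa [xp_ne w i a b j hl] at this
    refine ⟨?_, h1⟩
    rw [mem_bx]
    intro l
    by_cases hl : l = i
    · subst hl
      have h2 := hv l
      rw [xp_i, abs_le] at h2
      rw [abs_le]
      push_cast
      constructor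
      · linarith [h2.1]
      · linarith [h2.2]
    · have h2 := h1 l hl
      push_cast
      linarith
  intro e he
  have he' : e ∈ es (bx (xp w i a b j) b) := he
  rw [mem_es] at he'
  obtain ⟨h1, h2⟩ := key _ he'.1
  obtain ⟨h3, h4⟩ := key _ he'.2
  unfold stp
  rw [Finset.mem_filter]
  refine ⟨?_, fun l hl => ⟨h2 l hl, h4 l hl⟩⟩
  show e ∈ es (bx w (9 * b + 1))
  rw [mem_es]
  exact ⟨h1, h3⟩

/-- A chain of links is a connection. -/
theorem chain (O : Set (Ed 2)) (z : ℕ → Vx 2) (F : ℕ → Finset (Ed 2)) (S : Finset (Ed 2)) (J : ℕ)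
    (hF : ∀ j < J, F j ⊆ S)
    (h : ∀ j < J, Cn (O ∩ (F j : Set (Ed 2))) (z j) (z (j + 1))) :
    Cn (O ∩ (S : Set (Ed 2))) (z 0) (z J) := by
  induction J with
  | zero => exact Con_refl _ _
  | succ J ih =>
    have h1 := ih (fun j hj => hF j (by omega)) (fun j hj => h j (by omega))
    have h2 := h J (by omega)
    refine Con_trans h1 ?_
    refine Con_mono (fun _ _ h => h) ?_ h2
    intro e he
    exact ⟨he.1, hF J (by omega) he.2⟩

/-- The deterministic step. -/
theorem det (w : Vx 2) (i : Fin 2) {a K : ℕ} (ha : 1 ≤ a) (hK : 1 ≤ K) (ω : Finset (Ed 2))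
    (z : ℕ → Vx 2) (hz : ∀ j, z j ∈ bx (xp w i a (K * a) j) (K * a))
    (h : ∀ j < 8 * K + 2, Cf (ω ∩ eb (xp w i a (K * a) j) (K * a)) (z j) (z (j + 1))) :
    SC (ω : Set (Ed 2)) w i (K * a) := by
  refine ⟨z 0, z (8 * K + 2), ?_, ?_, ?_, ?_⟩
  · intro l hl
    have := mem_bx.mp (hz 0) l
    rwa [xp_ne w i a _ 0 hl] at this
  · apply chain (ω : Set (Ed 2)) z (fun j => eb (xp w i a (K * a) j) (K * a))
    · intro j hj
      exact eb_stp w i ha hK (by omega)
    · intro j hj
      have := h j hj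
      unfold Cf at this
      rwa [Finset.coe_inter] at this
  · have := mem_bx.mp (hz 0) i
    rw [xp_i, abs_le] at this
    push_cast at this ⊢
    linarith [this.2]
  · have := mem_bx.mp (hz (8 * K + 2)) i
    rw [xp_i, abs_le] at this
    have ha' : (1 : ℤ) ≤ a := by exact_mod_cast ha
    push_cast at this ⊢
    nlinarith [this.1]

theorem EB_neg {E : Type} (δ : ℝ) (G : Finset E) (f : Finset E → ℝ) :
    EB δ G (fun ξ => - f ξ) = - EB δ G f := by
  unfold EB
  rw [← Finset.sum_neg_distrib]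
  exact Finset.sum_congr rfl fun ξ _ => by ring

theorem EB_const {E : Type} (δ : ℝ) (G : Finset E) (c : ℝ) : EB δ G (fun _ => c) = c := by
  have h := LKP_.EB_one (E := E) δ G
  have h2 : EB δ G (fun _ => c) = EB δ G (fun _ => 1) * c := by
    unfold EB
    rw [Finset.sum_mul]
    exact Finset.sum_congr rfl fun ξ _ => by ring
  rw [h2, h, one_mul]

theorem Ex_neg' {V E : Type} {s t : E → V} {R : V → V → Prop} {U : Finset V} {G : Finset E}
    {p q : ℝ} (f : Finset E → ℝ) :
    Ex s t R U G p q (fun ω => - f ω) = - Ex s t R U G p q f := by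
  have h4 := Ex_mul_left (s := s) (t := t) (R := R) (U := U) (G := G) (p := p) (q := q) (-1) f
  rw [neg_one_mul] at h4
  rw [← h4]
  congr 1
  funext ω
  ring

end SCP_

open SCP_ in
/-- SCP. -/
theorem p_SCP (h_CEL : T_CEL) (h_SPR : T_SPR) (h_DPM : T_DPM) (h_EBP : T_EBP) : T_SCP := by
  classical
  intro p0 p1 q H ε b0 hε
  obtain ⟨pm, h01, h02⟩ := exists_between H.h01
  have Hm : Hyp 2 p0 pm q := ⟨H.hd, H.h0, h01, h02.trans H.h1, H.hq, H.per⟩
  have hpm : 0 < pm := H.h0.trans h01
  have hpm1 : pm < 1 := h02.trans H.h1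
  have hq0 : 0 < q := lt_of_lt_of_le one_pos H.hq
  obtain ⟨δ, hδ0, hδ1, hS⟩ := h_SPR pm p1 q hpm h02 H.h1 H.hq
  obtain ⟨K, hK, hC⟩ := h_CEL 2 p0 pm q Hm
  have hKp : (0 : ℝ) < 16 * K + 5 := by positivity
  obtain ⟨a, N, Q, s, ha0, hKN, ha, hInc, hLoc, hs, hP, hL⟩ :=
    hC δ (ε / (16 * K + 5)) b0 hδ0 hδ1 (by positivity)
  have hb0 : b0 ≤ K * a := ha0.trans (Nat.le_mul_of_pos_left a hK)
  refine ⟨K * a, N + (9 * (K * a) + 1), hb0, by omega, fun w i => ?_⟩
  set x : ℕ → Vx 2 := xp w i a (K * a) with hx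
  set J : ℕ := 8 * K + 2 with hJ
  set U : Finset (Vx 2) := bx w (N + (9 * (K * a) + 1)) with hU
  -- the boxes are contained in `U`
  have hsub : ∀ j ∈ Finset.range (J + 1), bx (x j) N ⊆ U := by
    intro j hj v hv
    have hj' : j ≤ 8 * K + 2 := by
      have := Finset.mem_range.mp hj
      omega
    rw [mem_bx] at hv
    rw [hU, mem_bx]
    intro l
    by_cases hl : l = i
    · subst hl
      have h2 := hv l
      rw [hx, xp_i, abs_le] at h2
      have hja : (j : ℤ) * a ≤ 8 * (K * a : ℕ) + 2 * a := by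
        have : j * a ≤ (8 * K + 2) * a := Nat.mul_le_mul_right a hj'
        have h2 : ((j * a : ℕ) : ℤ) ≤ (((8 * K + 2) * a : ℕ) : ℤ) := by exact_mod_cast this
        push_cast at h2 ⊢
        linarith
      have haK : (a : ℤ) ≤ (K * a : ℕ) := by
        have : a ≤ K * a := Nat.le_mul_of_pos_left a hK
        exact_mod_cast this
      have hj0 : 0 ≤ (j : ℤ) * a := by positivity
      have hb0 : 0 ≤ ((K * a : ℕ) : ℤ) := by positivity
      rw [abs_le]
      generalize K * a = b at *
      push_cast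
      constructor
      · linarith [h2.1]
      · linarith [h2.2]
    · have h2 := hv l
      rw [hx, xp_ne w i a _ j hl] at h2
      refine h2.trans ?_
      push_cast
      have : (0 : ℤ) ≤ 9 * (K * a) + 1 := by positivity
      linarith
  -- the failure of the good events
  have hQ : ∀ j ∈ Finset.range (J + 1), fr U pm q (fun ω => ind (¬ Q (x j) ω)) ≤
      ε / (16 * K + 5) := fun j hj =>
    (h_DPM 2 U (x j) N pm q hpm hpm1 H.hq (hsub j hj) (Q (x j)) (hInc _)).trans (hP (x j))
  have hebU : ∀ j < J, eb (x j) (K * a) ⊆ es U := by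
    intro j hj
    refine (eb_stp w i ha hK (by omega)).trans ?_
    exact ZPR_stp_sub w i (by omega)
  -- the sprinkling
  have hspr := hS (Vx 2) (Ed 2) Prod.fst tgt (no (Vx 2)) U (es U) (fun e he => mem_es.mp he)
    (fun ω => - ind (¬ SC (ω : Set (Ed 2)) w i (K * a))) (by
      intro c c' hcc _
      apply neg_le_neg
      apply ind_mono
      intro h2 h3
      exact h2 (ZPR_SC_mono (Finset.coe_subset.mpr hcc) h3))
  have hstep : P0 w (N + (9 * (K * a) + 1)) p1 q
      (fun ω => ¬ SC (ω : Set (Ed 2)) w i (K * a)) ≤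
      fr U pm q (fun ω => EB δ (es U) fun ξ =>
        ind (¬ SC ((ω ∪ ξ : Finset (Ed 2)) : Set (Ed 2)) w i (K * a))) := by
    rw [Ex_neg'] at hspr
    simp only [EB_neg] at hspr
    rw [Ex_neg'] at hspr
    have h2 := neg_le_neg_iff.mp hspr
    unfold P0 fr fw
    exact h2
  refine hstep.trans ?_
  -- the conditional bound
  have hcond : ∀ ω : Finset (Ed 2), EB δ (es U) (fun ξ =>
      ind (¬ SC ((ω ∪ ξ : Finset (Ed 2)) : Set (Ed 2)) w i (K * a))) ≤
      (∑ j ∈ Finset.range (J + 1), ind (¬ Q (x j) ω)) + J * (ε / (16 * K + 5)) := by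
    intro ω
    by_cases hall : ∀ j ∈ Finset.range (J + 1), Q (x j) ω
    · have h1 : ∀ ξ : Finset (Ed 2),
          ind (¬ SC ((ω ∪ ξ : Finset (Ed 2)) : Set (Ed 2)) w i (K * a)) ≤
          ∑ j ∈ Finset.range J, ind (¬ Cf ((ω ∪ ξ) ∩ eb (x j) (K * a)) (s (x j) ω)
            (s (x (j + 1)) ω)) := by
        intro ξ
        by_cases hc : ∀ j < J, Cf ((ω ∪ ξ) ∩ eb (x j) (K * a)) (s (x j) ω) (s (x (j + 1)) ω)
        · have h2 : SC ((ω ∪ ξ : Finset (Ed 2)) : Set (Ed 2)) w i (K * a) :=
            det w i ha hK (ω ∪ ξ) (fun j => s (x j) ω) (fun j => hs _ _) hc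
          rw [ind_false (not_not.mpr h2)]
          exact Finset.sum_nonneg fun j _ => ind_nonneg _
        · push Not at hc
          obtain ⟨j, hj, hn⟩ := hc
          have h3 : ind (¬ Cf ((ω ∪ ξ) ∩ eb (x j) (K * a)) (s (x j) ω) (s (x (j + 1)) ω)) = 1 :=
            ind_true hn
          refine (ind_le_one _).trans ?_
          rw [← h3]
          exact Finset.single_le_sum (f := fun j => ind (¬ Cf ((ω ∪ ξ) ∩ eb (x j) (K * a))
            (s (x j) ω) (s (x (j + 1)) ω))) (fun _ _ => ind_nonneg _) (Finset.mem_range.mpr hj)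
      have h2 : EB δ (es U) (fun ξ =>
          ind (¬ SC ((ω ∪ ξ : Finset (Ed 2)) : Set (Ed 2)) w i (K * a))) ≤
          J * (ε / (16 * K + 5)) := by
        refine (LKP_.EB_mono hδ0.le hδ1.le fun ξ _ => h1 ξ).trans ?_
        rw [LKS_.EB_sum]
        calc ∑ j ∈ Finset.range J, EB δ (es U) (fun ξ => ind (¬ Cf ((ω ∪ ξ) ∩ eb (x j) (K * a))
              (s (x j) ω) (s (x (j + 1)) ω)))
            ≤ ∑ j ∈ Finset.range J, ε / (16 * K + 5) := by
              refine Finset.sum_le_sum fun j hj => ?_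
              have hj' := Finset.mem_range.mp hj
              have h4 := hL (x j) i ω (hall j (Finset.mem_range.mpr (by omega)))
                (by
                  have := hall (j + 1) (Finset.mem_range.mpr (by omega))
                  rwa [hx, xp_succ] at this)
              have h5 := h_EBP (Ed 2) Unit δ (ε / (16 * K + 5)) hδ0 hδ1 (by positivity) (es U)
                {()} (fun _ => eb (x j) (K * a))
                (fun _ ξ => ¬ Cf ((ω ∪ ξ) ∩ eb (x j) (K * a)) (s (x j) ω) (s (x (j + 1)) ω))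
                (fun _ _ => hebU j hj')
                (fun u _ v _ huv => absurd (Subsingleton.elim u v) huv)
                (fun _ _ => by
                  have h6 : x (j + 1) = x j + Pi.single i (a : ℤ) := by
                    rw [hx, xp_succ]
                  rw [h6]
                  exact h4)
              rw [Finset.card_singleton, pow_one] at h5
              refine le_trans (le_of_eq ?_) h5
              congr 1
              funext ξ
              apply ind_congr
              have h7 : (ω ∪ ξ ∩ eb (x j) (K * a)) ∩ eb (x j) (K * a) =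
                  (ω ∪ ξ) ∩ eb (x j) (K * a) := by
                ext e
                simp only [Finset.mem_inter, Finset.mem_union]
                tauto
              constructor
              · intro h8 _ _
                rw [h7]
                exact h8
              · intro h8
                have := h8 () (Finset.mem_singleton_self _)
                rwa [h7] at this
          _ = J * (ε / (16 * K + 5)) := by
              rw [Finset.sum_const, Finset.card_range, nsmul_eq_mul]
      have h3 : 0 ≤ ∑ j ∈ Finset.range (J + 1), ind (¬ Q (x j) ω) :=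
        Finset.sum_nonneg fun _ _ => ind_nonneg _
      linarith
    · push Not at hall
      obtain ⟨j, hj, hn⟩ := hall
      have h1 : ind (¬ Q (x j) ω) = 1 := ind_true hn
      have h2 : (1 : ℝ) ≤ ∑ j ∈ Finset.range (J + 1), ind (¬ Q (x j) ω) := by
        rw [← h1]
        exact Finset.single_le_sum (f := fun j => ind (¬ Q (x j) ω)) (fun _ _ => ind_nonneg _) hj
      have h3 : EB δ (es U) (fun ξ =>
          ind (¬ SC ((ω ∪ ξ : Finset (Ed 2)) : Set (Ed 2)) w i (K * a))) ≤ 1 := by
        refine (LKP_.EB_mono hδ0.le hδ1.le fun ξ _ => ind_le_one _).trans ?_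
        rw [LKP_.EB_one]
      have h4 : 0 ≤ (J : ℝ) * (ε / (16 * K + 5)) := by positivity
      linarith
  have hfin : fr U pm q (fun ω => EB δ (es U) fun ξ =>
        ind (¬ SC ((ω ∪ ξ : Finset (Ed 2)) : Set (Ed 2)) w i (K * a))) ≤
      (∑ j ∈ Finset.range (J + 1), fr U pm q (fun ω => ind (¬ Q (x j) ω))) +
        J * (ε / (16 * K + 5)) := by
    unfold fr fw
    rw [← Ex_sum]
    have h1 := Ex_mono (s := Prod.fst) (t := tgt) (R := no (Vx 2)) (U := U) (G := es U) (p := pm)
      (q := q) hpm hpm1 hq0 fun ω _ => hcond ω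
    rw [Ex_add, Ex_const hpm hpm1 hq0] at h1
    exact h1
  refine hfin.trans ?_
  calc (∑ j ∈ Finset.range (J + 1), fr U pm q (fun ω => ind (¬ Q (x j) ω))) +
        J * (ε / (16 * K + 5))
      ≤ (∑ j ∈ Finset.range (J + 1), ε / (16 * K + 5)) + J * (ε / (16 * K + 5)) := by
        have := Finset.sum_le_sum hQ
        linarith
    _ = ε := by
        rw [Finset.sum_const, Finset.card_range, nsmul_eq_mul, hJ]
        push_cast
        field_simp
        ring

end Pool.Agent.FKS
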