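import Pool.Agent.FKS.Defs

/-!
# Project FKS: the statements between the parts (interface)

Proofs: ideas row 2495 (helper10), row 2507 (helper52, short uniqueness zone), rows 2511, 2512,
2513, 2516, 2518, 2524, 2527, 2529, 2533. In every statement `p1` is any parameter above a
percolating one, so each part may lose a small amount of the parameter (use the other statements
at an intermediate parameter; probabilities of increasing events are nondecreasing in the parameter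
and in the box, T_HOL, T_DMC).
-/

set_option autoImplicit false

namespace Pool.Agent.FKS

open Filter MeasureTheory Pool.Agent.FKP
open Pool.Agent.FKT hiding ind

/-! ## Part A: tools -/

/-- FPB (part A). Box-to-box first passage distances: the min-cut times distance inequality. If
`X` and `Y` are not connected in `F` with probability at most `ε` at `p1`, then at `p2 > p1` the
first passage distance of `X` and `Y` in `F` is more than `k` with probability at most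
`ε ^ (c (k + 1))`; `c` depends only on `p1`, `p2`, `q`. (Row 2382: thinning and Jensen give
`E mincut ≥ c log (1/ε)` above the middle parameter; then FPL.) -/
def T_FPB : Prop := ∀ (p1 p2 q : ℝ), 0 < p1 → p1 < p2 → p2 < 1 → 1 ≤ q → ∃ c : ℝ, 0 < c ∧
  ∀ (d : ℕ) (S : Finset (Vx d)) (F : Finset (Ed d)), F ⊆ es S → ∀ (X Y : Finset (Vx d)) (k : ℕ),
    fr S p2 q (fun ω => ind (¬ ∃ x ∈ X, ∃ y ∈ Y, Fpl F k ω x y)) ≤
      (fr S p1 q fun ω => ind (¬ ∃ x ∈ X, ∃ y ∈ Y, Cf (ω ∩ F) x y)) ^ (c * ((k : ℝ) + 1))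

/-- SPR (part A). Sprinkling: the configuration `ω ∪ ξ`, `ω` of law `p1` and `ξ` independent
Bernoulli of parameter `ε`, is dominated by the law `p2`. -/
def T_SPR : Prop := ∀ (p1 p2 q : ℝ), 0 < p1 → p1 < p2 → p2 < 1 → 1 ≤ q → ∃ ε : ℝ, 0 < ε ∧ ε < 1 ∧
  ∀ (V E : Type) [DecidableEq E] (s t : E → V) (R : V → V → Prop) (U : Finset V) (G : Finset E),
    (∀ e ∈ G, s e ∈ U ∧ t e ∈ U) →
    ∀ f : Finset E → ℝ, (∀ a b : Finset E, a ⊆ b → b ⊆ G → f a ≤ f b) →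
      Ex s t R U G p1 q (fun ω => EB ε G fun ξ => f (ω ∪ ξ)) ≤ Ex s t R U G p2 q f

/-- THI (part A). Thinning: the law `p2`, every edge kept with probability `1 - ε` independently,
dominates the law `p1`. -/
def T_THI : Prop := ∀ (p1 p2 q : ℝ), 0 < p1 → p1 < p2 → p2 < 1 → 1 ≤ q → ∃ ε : ℝ, 0 < ε ∧ ε < 1 ∧
  ∀ (V E : Type) [DecidableEq E] (s t : E → V) (R : V → V → Prop) (U : Finset V) (G : Finset E),
    (∀ e ∈ G, s e ∈ U ∧ t e ∈ U) →
    ∀ f : Finset E → ℝ, (∀ a b : Finset E, a ⊆ b → b ⊆ G → f a ≤ f b) →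
      Ex s t R U G p1 q f ≤ Ex s t R U G p2 q fun ω => EB ε G fun ξ => f (ω \ ξ)

/-- CCN (part A). One-sided concentration (lemma (G) of row 2513): `Y` decreasing in `ω`, changing
by at most `C0` when one edge is added; then for log-odds `l < l'`
`P_{l'}(Y ≥ y) ≤ exp (- (l' - l) (y - E_l Y) / C0)`. -/
def T_CCN : Prop := ∀ (V E : Type) [DecidableEq E] (s t : E → V) (R : V → V → Prop)
  (U : Finset V) (G : Finset E) (p p' q C0 y : ℝ), 0 < p → p < p' → p' < 1 → 1 ≤ q → 0 < C0 →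
  (∀ e ∈ G, s e ∈ U ∧ t e ∈ U) →
  ∀ Y : Finset E → ℝ, (∀ a b : Finset E, a ⊆ b → b ⊆ G → Y b ≤ Y a) →
    (∀ (a : Finset E) (e : E), e ∈ G → a ⊆ G → Y a ≤ Y (insert e a) + C0) →
    Ex s t R U G p' q (fun ω => ind (y ≤ Y ω)) ≤
      Real.exp (-((Real.log (p' / (1 - p')) - Real.log (p / (1 - p))) *
        (y - Ex s t R U G p q Y) / C0))

/-- PIF (part A, row 2533 (PI)). Product inequality: increasing events with disjoint supports. -/
def T_PIF : Prop := ∀ (p1 p2 q : ℝ), 0 < p1 → p1 < p2 → p2 < 1 → 1 ≤ q → ∃ c : ℝ, 0 < c ∧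
  ∀ (V E : Type) [DecidableEq E] (s t : E → V) (R : V → V → Prop) (U : Finset V) (G : Finset E),
    (∀ e ∈ G, s e ∈ U ∧ t e ∈ U) →
    ∀ (ι : Type) (I : Finset ι) (F : ι → Finset E) (Q : ι → Finset E → Prop),
      (∀ i ∈ I, Inc (Q i)) → (∀ i ∈ I, ∀ ω, Q i ω ↔ Q i (ω ∩ F i)) →
      (∀ i ∈ I, ∀ j ∈ I, i ≠ j → Disjoint (F i) (F j)) →
      Ex s t R U G p2 q (fun ω => ind (∀ i ∈ I, ¬ Q i ω)) ≤
        ∏ i ∈ I, (Ex s t R U G p1 q fun ω => ind (¬ Q i ω)) ^ c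

/-- MXQ (part A). Quantitative mixing by convexity. -/
def T_MXQ : Prop := ∀ (d : ℕ) (pa pb q : ℝ), 0 < d → 0 < pa → pa < pb → pb < 1 → 1 ≤ q →
  ∃ C : ℝ, 0 < C ∧ ∀ m N : ℕ, m ≤ N → ∀ Q : Finset (Ed d) → Prop, Inc Q →
    phi 0 N pa q (fun ω => ind (Q (ω ∩ eb 0 m))) - C * (2 * m + 1 : ℝ) ^ d / ((N : ℝ) + 1) ≤
      fr (bx 0 N) pb q fun ω => ind (Q (ω ∩ eb 0 m))

/-- BTF (part A). Boxes are connected far away, for the free measure of a much larger box (from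
`FKT.T_BOX` and MXQ). -/
def T_BTF : Prop := ∀ (d : ℕ) (p0 p1 q : ℝ), Hyp d p0 p1 q →
  ∃ c C : ℝ, 0 < c ∧ 0 < C ∧ ∀ s R N : ℕ, 1 ≤ s → s ≤ R → R ≤ N →
    1 - C * ((s : ℝ) ^ (-c) + (R : ℝ) ^ d / N) ≤
      fr (bx 0 N) p1 q fun ω => ind (∃ x ∈ bx (0 : Vx d) s, ∃ y ∈ bd (0 : Vx d) R,
        Cf (ω ∩ eb (0 : Vx d) R) x y)

/-- KFR (part A; (K4) of row 2495). Two balls of radius `s` at distance about `r` are connected
inside `Λ_R`. -/
def T_KFR : Prop := ∀ (d : ℕ) (p0 p1 q : ℝ), Hyp d p0 p1 q →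
  ∃ (c C : ℝ) (D : ℕ), 0 < c ∧ 0 < C ∧ ∀ s r R N : ℕ, 1 ≤ s → s ≤ r → r ≤ R → R ≤ N →
    ∀ v ∈ bx (0 : Vx d) r,
    1 - C * ((s : ℝ) ^ (-c) + (r : ℝ) ^ D / R + (R : ℝ) ^ D / N) ≤
      fr (bx 0 N) p1 q fun ω => ind (∃ x ∈ bx (0 : Vx d) s, ∃ y ∈ bx v s,
        Cf (ω ∩ eb (0 : Vx d) R) x y)

/-! ## Part B: low scales (Step 2) -/

/-- LOW (part B). Any two lattice-connected sets of diameter at least `r` in the ball `Λ_{K r}`
have first passage distance at most `ε log r` in the polynomially larger ball `Λ_{r^A}`, with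
probability at least `1 - r ^ (-C)`; `A`, `B` depend only on `d`, `p0`, `p1`, `q`. -/
def T_LOW : Prop := ∀ (d : ℕ) (p0 p1 q : ℝ), Hyp d p0 p1 q →
  ∃ A B : ℕ, ∀ (K : ℕ) (C ε : ℝ), 1 ≤ K → 0 < C → 0 < ε → ∃ r0 : ℕ, ∀ r N : ℕ, r0 ≤ r →
    r ^ B ≤ N →
    P0 (0 : Vx d) N p1 q (fun ω => ¬ Gl 0 (K * r) r (r ^ A) ⌊ε * Real.log r⌋₊ ω) ≤
      (r : ℝ) ^ (-C)

/-! ## Part C: hops and top scales (Steps 3, 4) -/

/-- TOP (part C). The same in a ball of comparable size. -/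
def T_TOP : Prop := ∀ (d : ℕ) (p0 p1 q : ℝ), Hyp d p0 p1 q →
  ∃ B : ℕ, ∀ K : ℕ, 1 ≤ K → ∃ A : ℕ, ∀ C ε : ℝ, 0 < C → 0 < ε → ∃ r0 : ℕ, ∀ r N : ℕ, r0 ≤ r →
    r ^ B ≤ N →
    P0 (0 : Vx d) N p1 q (fun ω => ¬ Gl 0 (K * r) r (A * r) ⌊ε * Real.log r⌋₊ ω) ≤
      (r : ℝ) ^ (-C)

/-! ## Part D: merging (Step 5) -/

/-- MLU (part D). The giant exists. -/
def T_MLU : Prop := ∀ (d : ℕ) (p0 p1 q : ℝ), Hyp d p0 p1 q →
  ∃ (κ c : ℝ) (B L0 : ℕ), 0 < κ ∧ κ < 1 ∧ 0 < c ∧ ∀ L N : ℕ, L0 ≤ L → L ^ B ≤ N →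
    P0 (0 : Vx d) N p1 q (fun ω => ¬ Gnt 0 L ⌊(L : ℝ) ^ κ⌋₊ ω) ≤ (L : ℝ) ^ (-c)

/-- GLU (part D, used also in parts E and F). Gluing two clusters at many separated places: if at
each of the centres `z ∈ Z`, pairwise at distance more than `2 M`, both the cluster of `x0` and the
cluster of `x1` (in `ω ∩ F`) have in the ball `z + Λ_ρ` a piece of diameter at least `r`, and the
gluing event of `z` holds, then the sprinkling `ξ` of density `ε` glues them inside `F` with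
probability at least `1 - (1 - ε ^ k) ^ |Z|`. -/
def T_GLU : Prop := ∀ (d : ℕ) (ε : ℝ) (ρ r M k : ℕ) (F ω : Finset (Ed d)) (Z : Finset (Vx d))
  (x0 x1 : Vx d), 0 < ε → ε ≤ 1 → ρ ≤ M →
  (∀ z ∈ Z, eb z M ⊆ F) → (∀ z ∈ Z, ∀ z' ∈ Z, z ≠ z' → Far (2 * M + 1) z z') →
  (∀ z ∈ Z, Gl z ρ r M k ω) →
  (∀ z ∈ Z, ∀ x ∈ ({x0, x1} : Finset (Vx d)), ∃ y ∈ bx z ρ, Cf (ω ∩ F) x y ∧
    ∃ y', Cf (ω ∩ eb z ρ) y y' ∧ Far r y y') →
  EB ε F (fun ξ => ind (¬ Cf ((ω ∪ ξ) ∩ F) x0 x1)) ≤ (1 - ε ^ k) ^ Z.card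

/-- CEL (parts D and E; input of the renormalisation). Cells of spacing `a`: an increasing local
good event `Q x` of small failure probability for the free measure of a box of radius `N`, and a
chosen vertex `s x` (of the giant) such that for good neighbouring cells a sprinkling of density
`δ` inside `x + Λ_{K a}` joins the chosen vertices, except with probability `ε`. -/
def T_CEL : Prop := ∀ (d : ℕ) (p0 p1 q : ℝ), Hyp d p0 p1 q →
  ∃ K : ℕ, 1 ≤ K ∧ ∀ (δ ε : ℝ) (a0 : ℕ), 0 < δ → δ < 1 → 0 < ε → ∃ (a N : ℕ)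
    (Q : Vx d → Finset (Ed d) → Prop) (s : Vx d → Finset (Ed d) → Vx d), a0 ≤ a ∧ K * a ≤ N ∧
    1 ≤ a ∧
    (∀ x, Inc (Q x)) ∧ (∀ x ω, Q x ω ↔ Q x (ω ∩ eb x (K * a))) ∧
    (∀ x ω, s x ω ∈ bx x (K * a)) ∧
    (∀ x, P0 x N p1 q (fun ω => ¬ Q x ω) ≤ ε) ∧
    ∀ (x : Vx d) (i : Fin d) (ω : Finset (Ed d)), Q x ω → Q (x + Pi.single i (a : ℤ)) ω →
      EB δ (eb x (K * a)) (fun ξ => ind (¬ Cf ((ω ∪ ξ) ∩ eb x (K * a)) (s x ω)
        (s (x + Pi.single i (a : ℤ)) ω))) ≤ ε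

/-! ## Part E: slab percolation (Step 6) -/

/-- SLS (part E). Slab percolation, `d ≥ 3`. -/
def T_SLS : Prop := ∀ (d : ℕ) (p0 p1 q : ℝ), 3 ≤ d → Hyp d p0 p1 q →
  ∃ (L : ℕ) (α : ℝ), Slab d p1 q L α

/-! ## Part F: dimension two -/

/-- TWD (part F). Both tails in dimension two. -/
def T_TWD : Prop := ∀ (p0 p1 q : ℝ), Hyp 2 p0 p1 q → Tails 2 p1 q

end Pool.Agent.FKS
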