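import Pool.Agent.FKS.P_THN
import Pool.Agent.FKS.Main

/-!
# Project FKS: the target T_SPR (sprinkling)
-/

set_option autoImplicit false

namespace Pool.Agent.FKS

open Pool.Agent.FKP
open Pool.Agent.FKT hiding ind

/-- The expectation of a function of `w ∪ ξ`. -/
theorem SPR_EB (h_BER : FKT.T_BER) {E : Type} [DecidableEq E] (ε : ℝ) (G w : Finset E)
    (hw : w ⊆ G) (F : Finset E → ℝ) :
    EB ε G (fun ξ => F (w ∪ ξ)) =
      ∑ X ∈ G.powerset, if w ⊆ X then
        ε ^ (X.card - w.card) * (1 - ε) ^ (G.card - X.card) * F X else 0 := by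
  have h1 : EB ε G (fun ξ => F (w ∪ ξ)) = EB ε (G \ w) fun γ => F (w ∪ γ) := by
    have h := (h_BER E ε G).2.2.1 (G \ w) (fun γ => F (w ∪ γ)) Finset.sdiff_subset
    rw [← h]
    unfold EB
    apply Finset.sum_congr rfl
    intro ξ hξ
    rw [Finset.mem_powerset] at hξ
    congr 1
    have hE : w ∪ (ξ ∩ (G \ w)) = w ∪ ξ := by
      ext x
      simp only [Finset.mem_union, Finset.mem_inter, Finset.mem_sdiff]
      constructor
      · rintro (h | h)
        · exact Or.inl h
        · exact Or.inr h.1
      · rintro (h | h)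
        · exact Or.inl h
        · by_cases hx : x ∈ w
          · exact Or.inl hx
          · exact Or.inr ⟨h, hξ h, hx⟩
    show F (w ∪ ξ) = F (w ∪ (ξ ∩ (G \ w)))
    rw [hE]
  rw [h1, ← Finset.sum_filter]
  unfold EB
  apply Finset.sum_nbij' (fun γ => w ∪ γ) (fun X => X \ w)
  · intro γ hγ
    rw [Finset.mem_powerset] at hγ
    rw [Finset.mem_filter, Finset.mem_powerset]
    exact ⟨Finset.union_subset hw (hγ.trans Finset.sdiff_subset), Finset.subset_union_left⟩
  · intro X hX
    rw [Finset.mem_filter, Finset.mem_powerset] at hX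
    exact Finset.mem_powerset.mpr (Finset.sdiff_subset_sdiff hX.1 (Finset.Subset.refl w))
  · intro γ hγ
    rw [Finset.mem_powerset] at hγ
    ext x
    simp only [Finset.mem_sdiff, Finset.mem_union]
    constructor
    · rintro ⟨h | h, h'⟩
      · exact absurd h h'
      · exact h
    · intro h
      exact ⟨Or.inr h, (Finset.mem_sdiff.mp (hγ h)).2⟩
  · intro X hX
    rw [Finset.mem_filter, Finset.mem_powerset] at hX
    exact Finset.union_sdiff_of_subset hX.2
  · intro γ hγ
    rw [Finset.mem_powerset] at hγ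
    have hdisj : Disjoint w γ := by
      rw [Finset.disjoint_left]
      intro x hx hx'
      exact (Finset.mem_sdiff.mp (hγ hx')).2 hx
    have c1 : (w ∪ γ).card = w.card + γ.card := Finset.card_union_of_disjoint hdisj
    have c2 : (G \ w).card = G.card - w.card := Finset.card_sdiff_of_subset hw
    unfold bw
    rw [c1, c2, Nat.add_sub_cancel_left, Nat.sub_add_eq]

section

variable {V E : Type} [DecidableEq E] (s t : E → V) (R : V → V → Prop) (U : Finset V)
  (G : Finset E)

/-- Sprinkling. -/
theorem spr (h_ADD : FKT.T_ADD) (h_BER : FKT.T_BER) {p p1 q ε : ℝ} (hp : 0 < p) (hpp : p < p1)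
    (hp1 : p1 < 1) (hq : 1 ≤ q) (hG : ∀ e ∈ G, s e ∈ U ∧ t e ∈ U) (hε0 : 0 < ε) (hε1 : ε < 1)
    (hε : ε * q + xo p ≤ (1 - ε) * xo p1) (f : Finset E → ℝ)
    (hf : ∀ a b : Finset E, a ⊆ b → b ⊆ G → f a ≤ f b) :
    Ex s t R U G p q (fun ω => EB ε G fun ξ => f (ω ∪ ξ)) ≤ Ex s t R U G p1 q f := by
  classical
  have hq0 : 0 < q := by linarith
  have hpl : p < 1 := hpp.trans hp1
  have hp10 : 0 < p1 := hp.trans hpp
  have hx := xo_pos hp hpl
  have hx1 := xo_pos hp10 hp1
  have hε1' : 0 < 1 - ε := by linarith
  set g : Finset E → Finset E → ℝ := fun w X =>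
    if w ⊆ X then wt s t R U G p q w * (ε ^ (X.card - w.card) * (1 - ε) ^ (G.card - X.card))
    else 0 with hg
  have hg0 : ∀ w X, 0 ≤ g w X := by
    intro w X
    simp only [hg]
    split_ifs
    · exact (mul_pos (wt_pos hp hpl hq0 w) (mul_pos (pow_pos hε0 _) (pow_pos hε1' _))).le
    · exact le_rfl
  set μ : Finset E → ℝ := fun X => ∑ w ∈ G.powerset, g w X with hμ
  have hμpos : ∀ a, a ⊆ G → 0 < μ a := by
    intro a ha
    have h1 : g a a ≤ μ a :=
      Finset.single_le_sum (f := fun w => g w a) (fun w _ => hg0 w a) (Finset.mem_powerset.mpr ha)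
    have h2 : 0 < g a a := by
      simp only [hg, if_pos (Finset.Subset.refl a)]
      exact mul_pos (wt_pos hp hpl hq0 a) (mul_pos (pow_pos hε0 _) (pow_pos hε1' _))
    linarith
  have hstep : ∀ (a b : Finset E) (e : E), a ⊆ b → b ⊆ G → e ∈ G → e ∉ b →
      μ (insert e a) * wt s t R U G p1 q b ≤ μ a * wt s t R U G p1 q (insert e b) := by
    intro a b e hab hb he heb
    have hea : e ∉ a := fun h => heb (hab h)
    have haG : a ⊆ G := hab.trans hb
    set G' := G.erase e with hG'
    have hGe : G = insert e G' := (Finset.insert_erase he).symm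
    have heG' : e ∉ G' := Finset.notMem_erase e G
    have hs : ∀ c : Finset E, μ c = ∑ w ∈ G'.powerset, (g w c + g (insert e w) c) := by
      intro c
      simp only [hμ]
      conv_lhs => rw [hGe]
      rw [Finset.sum_powerset_insert heG', ← Finset.sum_add_distrib]
    rw [hs a, hs (insert e a), Finset.sum_mul, Finset.sum_mul]
    apply Finset.sum_le_sum
    intro w hw
    rw [Finset.mem_powerset] at hw
    have hew : e ∉ w := fun h => heG' (hw h)
    have hwG : w ⊆ G := hw.trans (Finset.erase_subset e G)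
    have z1 : g (insert e w) a = 0 := by
      simp only [hg]
      rw [if_neg]
      intro h
      exact hea (h (Finset.mem_insert_self e w))
    by_cases haw : w ⊆ a
    · have c1 : w ⊆ insert e a := haw.trans (Finset.subset_insert e a)
      have c2 : insert e w ⊆ insert e a := Finset.insert_subset_insert e haw
      have hcard := Finset.card_le_card haw
      have hlt : a.card < G.card := Finset.card_lt_card ⟨haG, fun h => hea (h he)⟩
      rw [z1, add_zero]
      simp only [hg, if_pos haw, if_pos c1, if_pos c2]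
      have k1 := wt_insert s t R U G h_ADD hpl hq0 hG he hew hwG
      have k2 := wt_insert s t R U G h_ADD hp1 hq0 hG he heb hb
      obtain ⟨r, r1, hr, e1, e2⟩ : ∃ r r1 : ℝ, ε + r ≤ (1 - ε) * r1 ∧
          wt s t R U G p q (insert e w) = r * wt s t R U G p q w ∧
          wt s t R U G p1 q (insert e b) = r1 * wt s t R U G p1 q b := by
        have hqε : ε ≤ ε * q := by nlinarith
        have hdiv : ε + xo p / q ≤ (1 - ε) * (xo p1 / q) := by
          have h3 : ε + xo p / q = (ε * q + xo p) / q := by field_simp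
          have h4 : (1 - ε) * (xo p1 / q) = ((1 - ε) * xo p1) / q := by ring
          rw [h3, h4]
          exact div_le_div_of_nonneg_right hε hq0.le
        by_cases hw' : Con s t R (w : Set E) (s e) (t e)
        · have hb' : Con s t R (b : Set E) (s e) (t e) :=
            Con_mono (fun _ _ h => h) (by exact_mod_cast haw.trans hab) hw'
          exact ⟨xo p, xo p1, by linarith, k1.1 hw', k2.1 hb'⟩
        · by_cases hb' : Con s t R (b : Set E) (s e) (t e)
          · refine ⟨xo p / q, xo p1, ?_, k1.2 hw', k2.1 hb'⟩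
            have h5 : xo p1 / q ≤ xo p1 := div_le_self hx1.le hq
            have h6 : (1 - ε) * (xo p1 / q) ≤ (1 - ε) * xo p1 :=
              mul_le_mul_of_nonneg_left h5 hε1'.le
            linarith
          · exact ⟨xo p / q, xo p1 / q, hdiv, k1.2 hw', k2.2 hb'⟩
      rw [e1, e2]
      have hA := wt_pos (s := s) (t := t) (R := R) (U := U) (G := G) hp hpl hq0 w
      have hB := wt_pos (s := s) (t := t) (R := R) (U := U) (G := G) hp10 hp1 hq0 b
      rw [Finset.card_insert_of_notMem hea, Finset.card_insert_of_notMem hew]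
      have n1 : a.card + 1 - w.card = (a.card - w.card) + 1 := by omega
      have n2 : a.card + 1 - (w.card + 1) = a.card - w.card := by omega
      have n3 : G.card - a.card = (G.card - (a.card + 1)) + 1 := by omega
      rw [n1, n2, n3, pow_succ, pow_succ]
      set P := ε ^ (a.card - w.card) with hP
      set Q := (1 - ε) ^ (G.card - (a.card + 1)) with hQ
      have hP0 : 0 < P := pow_pos hε0 _
      have hQ0 : 0 < Q := pow_pos hε1' _
      set A := wt s t R U G p q w
      set B := wt s t R U G p1 q b
      have hm : 0 ≤ A * B * (P * Q) := by positivity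
      calc (A * (P * ε * Q) + r * A * (P * Q)) * B = (ε + r) * (A * B * (P * Q)) := by ring
        _ ≤ ((1 - ε) * r1) * (A * B * (P * Q)) := mul_le_mul_of_nonneg_right hr hm
        _ = A * (P * (Q * (1 - ε))) * (r1 * B) := by ring
    · have c1 : ¬ w ⊆ insert e a := by
        intro h
        apply haw
        intro y hy
        rcases Finset.mem_insert.mp (h hy) with h1 | h1
        · exact absurd (h1 ▸ hy) hew
        · exact h1
      have c2 : ¬ insert e w ⊆ insert e a := by
        intro h
        exact c1 ((Finset.subset_insert e w).trans h)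
      have z2 : g w (insert e a) = 0 := by simp only [hg, if_neg c1]
      have z3 : g (insert e w) (insert e a) = 0 := by simp only [hg, if_neg c2]
      rw [z2, z3, z1, add_zero, zero_mul, add_zero]
      exact mul_nonneg (hg0 _ _) (wt_pos hp10 hp1 hq0 _).le
  have hkey := holley (G := G) (μ := μ) (ν := wt s t R U G p1 q) hμpos
    (fun a _ => wt_pos hp10 hp1 hq0 a) hstep f hf
  have hsum : ∀ F : Finset E → ℝ, ∑ X ∈ G.powerset, μ X * F X =
      ∑ w ∈ G.powerset, wt s t R U G p q w * EB ε G fun ξ => F (w ∪ ξ) := by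
    intro F
    simp only [hμ, Finset.sum_mul]
    rw [Finset.sum_comm]
    apply Finset.sum_congr rfl
    intro w hw
    rw [Finset.mem_powerset] at hw
    rw [SPR_EB h_BER ε G w hw F, Finset.mul_sum]
    apply Finset.sum_congr rfl
    intro X _
    simp only [hg]
    split_ifs
    · ring
    · ring
  have hsum1 : ∑ X ∈ G.powerset, μ X = ∑ w ∈ G.powerset, wt s t R U G p q w := by
    have h := hsum (fun _ => 1)
    simp only [mul_one] at h
    rw [h]
    apply Finset.sum_congr rfl
    intro w _
    rw [(h_BER E ε G).2.1, mul_one]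
  rw [hsum f, hsum1] at hkey
  unfold Ex
  rw [div_le_div_iff₀ (Z_pos hp hpl hq0) (Z_pos hp10 hp1 hq0)]
  linarith

end

theorem p_SPR (h_ADD : FKT.T_ADD) (h_BER : FKT.T_BER) : T_SPR := by
  intro p1 p2 q hp hpp hp2 hq
  have hx := xo_pos hp (hpp.trans hp2)
  have hx2 := xo_pos (hp.trans hpp) hp2
  have hxx := xo_lt hpp hp2
  have hpos : 0 < q + xo p2 := by linarith
  have h0 : 0 < (xo p2 - xo p1) / (q + xo p2) := div_pos (by linarith) hpos
  have h1 : (xo p2 - xo p1) / (q + xo p2) < 1 := by
    rw [div_lt_one hpos]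
    linarith
  refine ⟨(xo p2 - xo p1) / (q + xo p2), h0, h1, ?_⟩
  intro V E _ s t R U G hG f hf
  refine spr s t R U G h_ADD h_BER hp hpp hp2 hq hG h0 h1 ?_ f hf
  have h2 : (xo p2 - xo p1) / (q + xo p2) * (q + xo p2) = xo p2 - xo p1 :=
    div_mul_cancel₀ _ hpos.ne'
  nlinarith

end Pool.Agent.FKS
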