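import Pool.Agent.FKP.Lem

/-!
# Project FKS, part F (`d = 2`): the planar crossing lemma, general form

`S` is a connected set in the rows `[c, e]` which joins a column `≤ a` to a column `≥ b`, `T` is a
connected set in the columns `[a, b]` which joins a row `≤ c` to a row `≥ e`. Then `S` and `T`
have a common vertex (the columns of `S` and the rows of `T` are not restricted).
-/

set_option autoImplicit false

namespace Pool.Agent.FKS

open Pool.Agent.FKT Pool.Agent.FKP

/-- `u` and `v` are nearest neighbours in the square lattice. -/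
def NN (u v : Vx 2) : Prop :=
  (u 0 = v 0 ∧ (u 1 = v 1 + 1 ∨ v 1 = u 1 + 1)) ∨ (u 1 = v 1 ∧ (u 0 = v 0 + 1 ∨ v 0 = u 0 + 1))

/-- `v` is reached from `u` by a nearest neighbour path in `S`. -/
def Pt (S : Set (Vx 2)) : Vx 2 → Vx 2 → Prop :=
  Relation.ReflTransGen fun x y => NN x y ∧ x ∈ S ∧ y ∈ S

theorem NN.symm {u v : Vx 2} (h : NN u v) : NN v u := by
  unfold NN at *; omega

theorem Pt.symm {S : Set (Vx 2)} {u v : Vx 2} (h : Pt S u v) : Pt S v u := by
  induction h with
  | refl => exact Relation.ReflTransGen.refl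
  | tail _ h ih => exact Relation.ReflTransGen.head ⟨h.1.symm, h.2.2, h.2.1⟩ ih

theorem Pt.mono {S T : Set (Vx 2)} (hST : S ⊆ T) {u v : Vx 2} (h : Pt S u v) : Pt T u v :=
  by
  induction h with
  | refl => exact Relation.ReflTransGen.refl
  | tail _ h ih => exact Relation.ReflTransGen.tail ih ⟨h.1, hST h.2.1, hST h.2.2⟩

/-- A path as a sequence. -/
theorem Pt.seq {S : Set (Vx 2)} {u v : Vx 2} (hu : u ∈ S) (h : Pt S u v) :
    ∃ (n : ℕ) (g : ℕ → Vx 2), g 0 = u ∧ g n = v ∧ (∀ i < n, NN (g i) (g (i + 1))) ∧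
      ∀ i ≤ n, g i ∈ S := by
  induction h with
  | refl => exact ⟨0, fun _ => u, rfl, rfl, fun i hi => absurd hi (Nat.not_lt_zero i),
      fun _ _ => hu⟩
  | @tail b c _ hbc ih =>
    obtain ⟨n, g, h0, hn, h1, h2⟩ := ih
    refine ⟨n + 1, fun i => if i ≤ n then g i else c, ?_, ?_, ?_, ?_⟩
    · simp [h0]
    · simp
    · intro i hi
      rcases Nat.lt_or_ge i n with h | h
      · have e1 : i ≤ n := h.le
        have e2 : i + 1 ≤ n := h
        simpa [e1, e2] using h1 i h
      · have e : i = n := by omega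
        subst e
        simpa [hn] using hbc.1
    · intro i hi
      rcases Nat.lt_or_ge n i with h | h
      · have e : ¬ i ≤ n := by omega
        simpa [e] using hbc.2.2
      · simpa [h] using h2 i h

/-- The parity of the number of horizontal edges of the path in the column of `v`, above `v`. -/
def cro (g : ℕ → Vx 2) (n : ℕ) (v : Vx 2) : ZMod 2 :=
  ∑ i ∈ Finset.range n, if g i 1 = g (i + 1) 1 ∧ v 1 < g i 1 ∧
    ((g i 0 = v 0 ∧ g (i + 1) 0 = v 0 + 1) ∨ (g i 0 = v 0 + 1 ∧ g (i + 1) 0 = v 0)) then 1 else 0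

/-- Telescoping modulo two. -/
theorem tele (n : ℕ) (P : ℕ → Prop) [DecidablePred P] :
    ∑ i ∈ Finset.range n, ((if P (i + 1) then 1 else 0) + (if P i then 1 else 0) : ZMod 2) =
      (if P n then 1 else 0) + (if P 0 then 1 else 0) := by
  induction n with
  | zero =>
    by_cases h : P 0 <;> simp [h]
    decide
  | succ n ih =>
    rw [Finset.sum_range_succ, ih]
    by_cases h0 : P 0 <;> by_cases hn : P n <;> by_cases hn1 : P (n + 1) <;>
      simp [h0, hn, hn1] <;> decide

theorem ext2 {u v : Vx 2} (h0 : u 0 = v 0) (h1 : u 1 = v 1) : u = v := by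
  funext i
  fin_cases i
  · exact h0
  · exact h1

/-- The crossing lemma, for paths given as sequences. -/
theorem core (a b c e : ℤ) (n m : ℕ) (g k : ℕ → Vx 2)
    (hg : ∀ i < n, NN (g i) (g (i + 1))) (hk : ∀ j < m, NN (k j) (k (j + 1)))
    (hg1 : ∀ i ≤ n, c ≤ g i 1 ∧ g i 1 ≤ e) (hk0 : ∀ j ≤ m, a ≤ k j 0 ∧ k j 0 ≤ b)
    (h0 : g 0 0 ≤ a) (hn : b < g n 0) (hc : k 0 1 ≤ c) (he : e ≤ k m 1) :
    ∃ i ≤ n, ∃ j ≤ m, g i = k j := by
  by_contra hcon
  push Not at hcon
  have hne : ∀ i ≤ n, ∀ j ≤ m, ¬ (g i 0 = k j 0 ∧ g i 1 = k j 1) := fun i hi j hj h =>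
    hcon i hi j hj (ext2 h.1 h.2)
  -- the value at the bottom
  have hbot : cro g n (k 0) = 1 := by
    have hk00 := hk0 0 (Nat.zero_le _)
    have h1 := tele n fun i => k 0 0 + 1 ≤ g i 0
    have h2 : ¬ k 0 0 + 1 ≤ g 0 0 := by omega
    have h3 : k 0 0 + 1 ≤ g n 0 := by omega
    simp only [h2, h3, if_true, if_false, add_zero] at h1
    rw [← h1]
    unfold cro
    refine Finset.sum_congr rfl fun i hi => ?_
    have hi' := Finset.mem_range.1 hi
    have s := hg i hi'
    have n1 := hne i hi'.le 0 (Nat.zero_le _)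
    have n2 := hne (i + 1) hi' 0 (Nat.zero_le _)
    have r1 := hg1 i hi'.le
    have r2 := hg1 (i + 1) hi'
    unfold NN at s
    by_cases c1 : k 0 0 + 1 ≤ g (i + 1) 0 <;> by_cases c2 : k 0 0 + 1 ≤ g i 0
    · rw [if_neg (by omega), if_pos c1, if_pos c2]; decide
    · rw [if_pos (by omega), if_pos c1, if_neg c2]; decide
    · rw [if_pos (by omega), if_neg c1, if_pos c2]; decide
    · rw [if_neg (by omega), if_neg c1, if_neg c2]; decide
  -- the value at the top
  have htop : cro g n (k m) = 0 := by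
    unfold cro
    refine Finset.sum_eq_zero fun i hi => ?_
    have hi' := Finset.mem_range.1 hi
    have r1 := hg1 i hi'.le
    rw [if_neg (by omega)]
  -- invariance
  have hinv : ∀ j < m, cro g n (k j) = cro g n (k (j + 1)) := by
    have vert : ∀ v w : Vx 2, w 0 = v 0 → w 1 = v 1 + 1 → (∀ i ≤ n, ¬ (g i 0 = w 0 ∧ g i 1 = w 1)) →
        cro g n v = cro g n w := by
      intro v w e0 e1 hw
      unfold cro
      refine Finset.sum_congr rfl fun i hi => ?_
      have hi' := Finset.mem_range.1 hi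
      have n1 := hw i hi'.le
      have n2 := hw (i + 1) hi'
      refine if_congr ?_ rfl rfl
      omega
    have hor : ∀ v w : Vx 2, w 0 = v 0 + 1 → w 1 = v 1 → a ≤ v 0 → w 0 ≤ b →
        (∀ i ≤ n, ¬ (g i 0 = w 0 ∧ g i 1 = w 1)) →
        cro g n v = cro g n w := by
      intro v w e0 e1 ha hb hw
      have h1 := tele n fun i => g i 0 = w 0 ∧ w 1 < g i 1
      have h2 : ¬ (g 0 0 = w 0 ∧ w 1 < g 0 1) := by omega
      have h3 : ¬ (g n 0 = w 0 ∧ w 1 < g n 1) := by omega
      rw [if_neg h2, if_neg h3, add_zero] at h1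
      have h4 : cro g n v + cro g n w = 0 := by
        rw [← h1]
        unfold cro
        rw [← Finset.sum_add_distrib]
        refine Finset.sum_congr rfl fun i hi => ?_
        have hi' := Finset.mem_range.1 hi
        have n1 := hw i hi'.le
        have n2 := hw (i + 1) hi'
        have s := hg i hi'
        unfold NN at s
        by_cases c1 : g i 1 = g (i + 1) 1 ∧ v 1 < g i 1 ∧
          ((g i 0 = v 0 ∧ g (i + 1) 0 = v 0 + 1) ∨ (g i 0 = v 0 + 1 ∧ g (i + 1) 0 = v 0)) <;>
        by_cases c2 : g i 1 = g (i + 1) 1 ∧ w 1 < g i 1 ∧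
          ((g i 0 = w 0 ∧ g (i + 1) 0 = w 0 + 1) ∨ (g i 0 = w 0 + 1 ∧ g (i + 1) 0 = w 0)) <;>
        by_cases c3 : g (i + 1) 0 = w 0 ∧ w 1 < g (i + 1) 1 <;>
        by_cases c4 : g i 0 = w 0 ∧ w 1 < g i 1
        all_goals first
          | (exfalso; omega)
          | (rw [if_pos c1, if_neg c2, if_pos c3, if_neg c4] <;> decide)
          | (rw [if_pos c1, if_neg c2, if_neg c3, if_pos c4] <;> decide)
          | (rw [if_neg c1, if_pos c2, if_pos c3, if_neg c4] <;> decide)
          | (rw [if_neg c1, if_pos c2, if_neg c3, if_pos c4] <;> decide)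
          | (rw [if_neg c1, if_neg c2, if_pos c3, if_pos c4] <;> decide)
          | (rw [if_neg c1, if_neg c2, if_neg c3, if_neg c4] <;> decide)
      have h5 : ∀ x y : ZMod 2, x + y = 0 → x = y := by decide
      exact h5 _ _ h4
    intro j hj
    have s := hk j hj
    have b1 := hk0 j hj.le
    have b2 := hk0 (j + 1) hj
    have n1 := fun i hi => hne i hi j hj.le
    have n2 := fun i hi => hne i hi (j + 1) hj
    rcases s with ⟨s0, s1 | s1⟩ | ⟨s1, s0 | s0⟩
    · exact (vert _ _ (by omega) s1 n1).symm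
    · exact vert _ _ s0.symm s1 n2
    · exact (hor _ _ s0 (by omega) (by omega) (by omega) n1).symm
    · exact hor _ _ s0 (by omega) (by omega) (by omega) n2
  have hall : ∀ j ≤ m, cro g n (k j) = 1 := by
    intro j
    induction j with
    | zero => intro _; exact hbot
    | succ j ih =>
      intro hj
      rw [← hinv j hj]
      exact ih (by omega)
  have := hall m le_rfl
  rw [htop] at this
  exact absurd this (by decide)

/-- PLS. The crossing lemma for connected sets. -/
theorem p_PLS (a b c e : ℤ) (S T : Set (Vx 2))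
    (hS : ∀ v ∈ S, c ≤ v 1 ∧ v 1 ≤ e) (hT : ∀ v ∈ T, a ≤ v 0 ∧ v 0 ≤ b)
    {u v u' v' : Vx 2} (hu : u ∈ S) (hu' : u' ∈ T) (h1 : Pt S u v) (h2 : Pt T u' v')
    (ea : u 0 ≤ a) (eb : b ≤ v 0) (ec : u' 1 ≤ c) (ee : e ≤ v' 1) : ∃ w, w ∈ S ∧ w ∈ T := by
  classical
  obtain ⟨n, g, g0, gn, g1, g2⟩ := h1.seq hu
  obtain ⟨m, k, k0, km, k1, k2⟩ := h2.seq hu'
  by_contra hcon
  push Not at hcon
  -- the path `g`, extended by one step to the right
  obtain ⟨i, hi, j, hj, hij⟩ := core a b c e (n + 1) m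
    (fun i => if i ≤ n then g i else fun l => if l = 0 then v 0 + 1 else v 1) k
    (by
      intro i hi
      rcases Nat.lt_or_ge i n with h | h
      · have e1 : i ≤ n := h.le
        have e2 : i + 1 ≤ n := h
        simpa [e1, e2] using g1 i h
      · have e : i = n := by omega
        subst e
        simp [gn, NN])
    k1
    (by
      intro i hi
      by_cases h : i ≤ n
      · simpa [h] using hS _ (g2 i h)
      · have hv := hS _ (g2 n le_rfl)
        rw [gn] at hv
        simpa [h] using hv)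
    (fun j hj => hT _ (k2 j hj))
    (by simpa [g0] using ea)
    (by simp; omega)
    (by rw [k0]; exact ec) (by rw [km]; exact ee)
  by_cases h : i ≤ n
  · simp only [h, if_true] at hij
    exact hcon _ (g2 i h) (hij ▸ k2 j hj)
  · simp only [h, if_false] at hij
    have h3 := hT _ (k2 j hj)
    rw [← hij] at h3
    simp at h3
    omega

theorem NN_edge (e : Ed 2) : NN e.1 (tgt e) := by
  have : ∀ i : Fin 2, i = 0 ∨ i = 1 := by decide
  unfold NN tgt
  rcases this e.2 with h | h <;> rw [h] <;> simp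

/-- A connection by open edges is a nearest neighbour path in the cluster. -/
theorem Pt_of_Cn {O : Set (Ed 2)} {u v : Vx 2} (h : Cn O u v) : Pt {w | Cn O u w} u v := by
  have key : ∀ a b : Vx 2, Cn O a b → Cn O u a → Pt {w | Cn O u w} a b := by
    intro a b hab
    induction hab with
    | rel a b hab =>
      intro ha
      rcases hab with hab | ⟨e, he, h1, h2⟩
      · exact hab.elim
      · subst h1 h2
        exact Relation.ReflTransGen.single ⟨NN_edge e, ha, Con_trans ha (Con_edge he)⟩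
    | refl a => exact fun _ => Relation.ReflTransGen.refl
    | symm a b hab ih => exact fun hb => (ih (Con_trans hb (Con_symm hab))).symm
    | trans a b c hab _ ih1 ih2 =>
      exact fun ha => (ih1 ha).trans (ih2 (Con_trans ha hab))
  exact key u v h (Con_refl _ _)

/-- PLC. The crossing lemma for open paths. -/
theorem p_PLC (a b c e : ℤ) (O O' : Set (Ed 2)) {u v u' v' : Vx 2} (h1 : Cn O u v)
    (h2 : Cn O' u' v') (hO : ∀ w, Cn O u w → c ≤ w 1 ∧ w 1 ≤ e)
    (hO' : ∀ w, Cn O' u' w → a ≤ w 0 ∧ w 0 ≤ b)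
    (ea : u 0 ≤ a) (eb : b ≤ v 0) (ec : u' 1 ≤ c) (ee : e ≤ v' 1) :
    ∃ w, Cn O u w ∧ Cn O' u' w :=
  p_PLS a b c e {w | Cn O u w} {w | Cn O' u' w} hO hO' (Con_refl _ _) (Con_refl _ _)
    (Pt_of_Cn h1) (Pt_of_Cn h2) ea eb ec ee

end Pool.Agent.FKS
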