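import Pool.Agent.FKS.TargetsF
import Pool.Agent.FKS.P_PLS
import Pool.Agent.FKP.P_ARC
import Pool.Agent.FKP.P_GBL

/-!
# Project FKS, part F: the crossings make a block good (T_ZGB)
-/

set_option autoImplicit false

namespace Pool.Agent.FKS

open Filter MeasureTheory Pool.Agent.FKP
open Pool.Agent.FKT hiding ind

namespace ZGB

/-- A set which is closed under all steps. -/
theorem closed {d : ℕ} {O : Set (Ed d)} {A : Set (Vx d)} (h : ∀ e ∈ O, (e.1 ∈ A ↔ tgt e ∈ A))
    {x z : Vx d} (hc : Cn O x z) : x ∈ A ↔ z ∈ A := by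
  induction hc with
  | rel a b hab =>
    rcases hab with hab | ⟨e, he, h1, h2⟩
    · exact hab.elim
    · subst h1 h2
      exact h e he
  | refl a => exact Iff.rfl
  | symm a b _ ih => exact ih.symm
  | trans a b c _ _ ih1 ih2 => exact ih1.trans ih2

theorem Cn_mono {d : ℕ} {O O' : Set (Ed d)} (h : O ⊆ O') {x y : Vx d} (hc : Cn O x y) :
    Cn O' x y := Con_mono (fun _ _ h => h) h hc

theorem mem_bx' {d : ℕ} {x v : Vx d} {n : ℕ} : v ∈ bx x n ↔ ∀ i, |v i - x i| ≤ n := by
  simp only [bx, Finset.mem_Icc, Pi.le_def]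
  constructor
  · intro h i
    rw [abs_le]
    constructor <;> linarith [h.1 i, h.2 i]
  · intro h
    constructor <;> intro i <;> linarith [(abs_le.1 (h i)).1, (abs_le.1 (h i)).2]

theorem mem_eb' {d : ℕ} {x : Vx d} {n : ℕ} {e : Ed d} : e ∈ eb x n ↔ e.1 ∈ bx x n ∧
    tgt e ∈ bx x n := by
  unfold eb
  simp

theorem fin2 (i : Fin 2) : i = 0 ∨ i = 1 := by
  revert i; decide

theorem strip_pts {O : Set (Ed 2)} {w : Vx 2} {i : Fin 2} {b : ℕ} {x z : Vx 2}
    (hx : ∀ j, j ≠ i → |x j - w j| ≤ b) (h : Cn (O ∩ (stp w i b : Set (Ed 2))) x z) :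
    ∀ j, j ≠ i → |z j - w j| ≤ b := by
  have := closed (A := {z : Vx 2 | ∀ j, j ≠ i → |z j - w j| ≤ b}) ?_ h
  · exact this.1 hx
  · intro e he
    have h2 := (Finset.mem_filter.1 (Finset.mem_coe.1 he.2)).2
    exact ⟨fun _ j hj => (h2 j hj).2, fun _ j hj => (h2 j hj).1⟩

/-- A horizontal and a vertical crossing of near blocks meet. -/
theorem meet {O G : Set (Ed 2)} {w w' : Vx 2} {b : ℕ} {x y x' y' : Vx 2}
    (hw0 : |w' 0 - w 0| ≤ 2 * b + 1) (hw1 : |w' 1 - w 1| ≤ 2 * b + 1)
    (hx : ∀ j, j ≠ (0 : Fin 2) → |x j - w j| ≤ b) (hc : Cn (O ∩ (stp w 0 b : Set (Ed 2))) x y)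
    (h1 : x 0 ≤ w 0 - (3 * b + 1)) (h2 : w 0 + (3 * b + 1) ≤ y 0)
    (hx' : ∀ j, j ≠ (1 : Fin 2) → |x' j - w' j| ≤ b)
    (hc' : Cn (O ∩ (stp w' 1 b : Set (Ed 2))) x' y')
    (h1' : x' 1 ≤ w' 1 - (3 * b + 1)) (h2' : w' 1 + (3 * b + 1) ≤ y' 1)
    (hG : (stp w 0 b : Set (Ed 2)) ⊆ G) (hG' : (stp w' 1 b : Set (Ed 2)) ⊆ G) :
    Cn (O ∩ G) x x' := by
  have a0 := abs_le.1 hw0
  have a1 := abs_le.1 hw1
  obtain ⟨z, z1, z2⟩ := p_PLC (w' 0 - b) (w' 0 + b) (w 1 - b) (w 1 + b) _ _ hc hc'
    (fun z hz => by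
      have := abs_le.1 (strip_pts hx hz 1 (by decide))
      constructor <;> linarith [this.1, this.2])
    (fun z hz => by
      have := abs_le.1 (strip_pts hx' hz 0 (by decide))
      constructor <;> linarith [this.1, this.2])
    (by linarith [a0.1]) (by linarith [a0.2]) (by linarith [a1.2]) (by linarith [a1.1])
  exact Con_trans (Cn_mono (Set.inter_subset_inter_right _ hG) z1)
    (Con_symm (Cn_mono (Set.inter_subset_inter_right _ hG') z2))

/-- The first exit from a box. -/
theorem exit {O : Set (Ed 2)} {c x z : Vx 2} {b : ℕ} (hx : ∀ j, |x j - c j| ≤ b)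
    (hz : ∃ j, (3 * b + 1 : ℤ) ≤ |z j - c j|) (h : Cn O x z) :
    ∃ z' : Vx 2, (∃ j, |z' j - c j| = 3 * b + 1) ∧
      Cn (O ∩ (eb c (3 * b + 1) : Set (Ed 2))) x z' ∧
      ∀ y, Cn (O ∩ (eb c (3 * b + 1) : Set (Ed 2))) x y → ∀ j, |y j - c j| ≤ 3 * b + 1 := by
  have hbox : ∀ y, Cn (O ∩ (eb c (3 * b + 1) : Set (Ed 2))) x y → ∀ j, |y j - c j| ≤ 3 * b + 1 := by
    intro y hy
    have := closed (A := {y : Vx 2 | ∀ j, |y j - c j| ≤ 3 * b + 1}) ?_ hy
    · exact this.1 fun j => (hx j).trans (by linarith)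
    · intro e he
      have h2 := mem_eb'.1 (Finset.mem_coe.1 he.2)
      have h3 := mem_bx'.1 h2.1
      have h4 := mem_bx'.1 h2.2
      push_cast at h3 h4
      exact ⟨fun _ => h4, fun _ => h3⟩
  by_contra hcon
  push Not at hcon
  have hlt : ∀ y, Cn (O ∩ (eb c (3 * b + 1) : Set (Ed 2))) x y → ∀ j, |y j - c j| ≤ 3 * b := by
    intro y hy j
    have h1 := hbox y hy j
    by_contra h2
    obtain ⟨y', h3, j', h4⟩ := hcon y ⟨j, by omega⟩ hy
    exact absurd (hbox y' h3 j') (by omega)
  have hA := closed (O := O) (A := {y : Vx 2 | Cn (O ∩ (eb c (3 * b + 1) : Set (Ed 2))) x y}) ?_ h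
  · obtain ⟨j, hj⟩ := hz
    have := hlt z (hA.1 (Con_refl _ _)) j
    omega
  · intro e he
    have step : ∀ j, tgt e j = e.1 j ∨ tgt e j = e.1 j + 1 := by
      intro j
      unfold tgt
      by_cases hj : j = e.2
      · subst hj; right; simp
      · left; simp [hj]
    constructor
    · intro h1
      have h2 := hlt _ h1
      have h3 : e ∈ eb c (3 * b + 1) := by
        rw [mem_eb', mem_bx', mem_bx']
        constructor
        · intro j
          have := h2 j
          push_cast
          linarith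
        · intro j
          have h5 := abs_le.1 (h2 j)
          rw [abs_le]
          push_cast
          rcases step j with h | h <;> rw [h] <;> constructor <;> linarith [h5.1, h5.2]
      exact Con_trans h1 (Con_edge (O := O ∩ (eb c (3 * b + 1) : Set (Ed 2))) ⟨he, h3⟩)
    · intro h1
      have h2 := hlt _ h1
      have h3 : e ∈ eb c (3 * b + 1) := by
        rw [mem_eb', mem_bx', mem_bx']
        constructor
        · intro j
          have h5 := abs_le.1 (h2 j)
          rw [abs_le]
          push_cast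
          rcases step j with h | h <;> rw [h] at h5 <;> constructor <;> linarith [h5.1, h5.2]
        · intro j
          have := h2 j
          push_cast
          linarith
      exact Con_trans h1 (Con_symm (Con_edge (O := O ∩ (eb c (3 * b + 1) : Set (Ed 2))) ⟨he, h3⟩))

/-- The index of the small blocks. -/
def Nr (w : Vx 2) : Prop := ∀ j, |w j| ≤ 62

/-- The strips of the small blocks are in the big box. -/
theorem stp_sub {v w : Vx 2} {b : ℕ} (i : Fin 2) (hw : Nr w) :
    (stp (v + cc b w) i b : Set (Ed 2)) ⊆ (eb v (4 * (20 * (2 * b + 1)) + 2) : Set (Ed 2)) := by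
  intro e he
  have h1 := mem_eb'.1 (Finset.mem_filter.1 (Finset.mem_coe.1 he)).1
  rw [Finset.mem_coe, mem_eb', mem_bx', mem_bx']
  have key : ∀ y : Vx 2, y ∈ bx (v + cc b w) (9 * b + 1) →
      ∀ j, |y j - v j| ≤ ((4 * (20 * (2 * b + 1)) + 2 : ℕ) : ℤ) := by
    intro y hy j
    have h2 := abs_le.1 (mem_bx'.1 hy j)
    have h3 := abs_le.1 (hw j)
    simp only [Pi.add_apply, cc] at h2
    push_cast at h2 ⊢
    have hb : (0 : ℤ) ≤ 2 * (b : ℤ) + 1 := by positivity
    have h4 := mul_le_mul_of_nonneg_left h3.1 hb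
    have h5 := mul_le_mul_of_nonneg_left h3.2 hb
    have hb0 : (0 : ℤ) ≤ b := by positivity
    rw [abs_le]
    constructor <;> linarith [h2.1, h2.2]
  exact ⟨key _ h1.1, key _ h1.2⟩

section main

variable {O G : Set (Ed 2)} {v : Vx 2} {b : ℕ}

/-- The data of the crossings. -/
structure Dat (O G : Set (Ed 2)) (v : Vx 2) (b : ℕ) (X Y : Vx 2 → Fin 2 → Vx 2) : Prop where
  row : ∀ w : Vx 2, Nr w → ∀ i j, j ≠ i → |X w i j - (v + cc b w) j| ≤ b
  con : ∀ w : Vx 2, Nr w → ∀ i, Cn (O ∩ (stp (v + cc b w) i b : Set (Ed 2))) (X w i) (Y w i)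
  beg : ∀ w : Vx 2, Nr w → ∀ i, X w i i ≤ (v + cc b w) i - (3 * b + 1)
  fin : ∀ w : Vx 2, Nr w → ∀ i, (v + cc b w) i + (3 * b + 1) ≤ Y w i i
  sub : ∀ w : Vx 2, Nr w → ∀ i, (stp (v + cc b w) i b : Set (Ed 2)) ⊆ G

theorem near {X Y : Vx 2 → Fin 2 → Vx 2} (h : Dat O G v b X Y) {w w' : Vx 2}
    (hw : Nr w) (hw' : Nr w') (h0 : |w' 0 - w 0| ≤ 1)
    (h1 : |w' 1 - w 1| ≤ 1) : Cn (O ∩ G) (X w 0) (X w' 1) := by
  have hb : (0 : ℤ) ≤ 2 * (b : ℤ) + 1 := by positivity
  have key : ∀ j, |w' j - w j| ≤ 1 → |(v + cc b w') j - (v + cc b w) j| ≤ 2 * b + 1 := by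
    intro j hj
    have e : (v + cc b w') j - (v + cc b w) j = (2 * (b : ℤ) + 1) * (w' j - w j) := by
      simp only [Pi.add_apply, cc]; ring
    rw [e, abs_mul, abs_of_nonneg hb]
    calc (2 * (b : ℤ) + 1) * |w' j - w j| ≤ (2 * (b : ℤ) + 1) * 1 :=
          mul_le_mul_of_nonneg_left hj hb
      _ = _ := mul_one _
  exact meet (key 0 h0) (key 1 h1) (h.row w hw 0) (h.con w hw 0) (h.beg w hw 0) (h.fin w hw 0)
    (h.row w' hw' 1) (h.con w' hw' 1) (h.beg w' hw' 1) (h.fin w' hw' 1) (h.sub w hw 0)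
    (h.sub w' hw' 1)

/-- All crossings are connected. -/
theorem all {X Y : Vx 2 → Fin 2 → Vx 2} (h : Dat O G v b X Y) :
    ∀ n : ℕ, ∀ w : Vx 2, Nr w → (w 0).natAbs + (w 1).natAbs = n →
      Cn (O ∩ G) (X w 0) (X 0 0) := by
  intro n
  induction n with
  | zero =>
    intro w _ hn
    have : w = 0 := by
      funext j
      rcases fin2 j with hj | hj <;> subst hj <;> simp only [Pi.zero_apply] <;> omega
    rw [this]
    exact Con_refl _ _
  | succ n ih =>
    intro w hw hn
    have b0 := abs_le.1 (hw 0)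
    have b1 := abs_le.1 (hw 1)
    -- a neighbour which is nearer to the origin
    have key : ∃ w' : Vx 2, Nr w' ∧ (w' 0).natAbs + (w' 1).natAbs = n ∧
        |w' 0 - w 0| ≤ 1 ∧ |w' 1 - w 1| ≤ 1 := by
      have mk : ∀ x y : ℤ, -62 ≤ x → x ≤ 62 → -62 ≤ y → y ≤ 62 →
          Nr (fun j => if j = 0 then x else y) := by
        intro x y h1 h2 h3 h4 j
        rw [abs_le]
        rcases fin2 j with hj | hj <;> subst hj <;> simp <;> omega
      by_cases c1 : 0 < w 0
      · exact ⟨fun j => if j = 0 then w 0 - 1 else w 1, mk _ _ (by omega) (by omega) (by omega)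
          (by omega), by simp; omega, by simp, by simp⟩
      · by_cases c2 : w 0 < 0
        · exact ⟨fun j => if j = 0 then w 0 + 1 else w 1, mk _ _ (by omega) (by omega) (by omega)
            (by omega), by simp; omega, by simp, by simp⟩
        · by_cases c3 : 0 < w 1
          · exact ⟨fun j => if j = 0 then w 0 else w 1 - 1, mk _ _ (by omega) (by omega)
              (by omega) (by omega), by simp; omega, by simp, by simp⟩
          · exact ⟨fun j => if j = 0 then w 0 else w 1 + 1, mk _ _ (by omega) (by omega)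
              (by omega) (by omega), by simp; omega, by simp, by simp⟩
    obtain ⟨w', hw', hn', h0, h1⟩ := key
    have e1 := near h hw hw' h0 h1
    have e2 := near h hw' hw' (by simp) (by simp)
    exact Con_trans e1 (Con_trans (Con_symm e2) (ih w' hw' hn'))

theorem all' {X Y : Vx 2 → Fin 2 → Vx 2} (h : Dat O G v b X Y) {w : Vx 2}
    (hw : Nr w) (i : Fin 2) : Cn (O ∩ G) (X w i) (X 0 0) := by
  rcases fin2 i with hi | hi <;> subst hi
  · exact all h _ w hw rfl
  · exact Con_trans (Con_symm (near h hw hw (by simp) (by simp))) (all h _ w hw rfl)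

/-- A cluster which leaves the neighbourhood of a small block meets a crossing. -/
theorem hit {X Y : Vx 2 → Fin 2 → Vx 2} (h : Dat O G v b X Y) {w : Vx 2}
    (hw : ∀ j, |w j| ≤ 61) {x z : Vx 2} {O1 : Set (Ed 2)} (hO1 : O1 ⊆ O ∩ G)
    (hx : x ∈ bx (v + cc b w) b) (hz : ∃ j, (3 * b + 1 : ℤ) ≤ |z j - (v + cc b w) j|)
    (hc : Cn O1 x z) : Cn (O ∩ G) x (X 0 0) := by
  rw [mem_bx'] at hx
  obtain ⟨z', ⟨j, hj⟩, h1, h2⟩ := exit hx hz hc
  have h1' := Con_symm h1
  have hsub : O1 ∩ (eb (v + cc b w) (3 * b + 1) : Set (Ed 2)) ⊆ O ∩ G :=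
    fun e he => hO1 he.1
  have hb : (0 : ℤ) ≤ b := by positivity
  -- the neighbour blocks
  have nb : ∀ (k : Fin 2) (t : ℤ), |t| ≤ 1 → Nr (w + Pi.single k t) ∧
      ∀ l, (v + cc b (w + Pi.single k t) : Vx 2) l = (v + cc b w) l +
        (if l = k then (2 * b + 1) * t else 0) := by
    intro k t ht
    constructor
    · intro l
      have h3 := abs_le.1 (hw l)
      have h4 := abs_le.1 ht
      rw [abs_le]
      by_cases hl : l = k
      · subst hl; simp only [Pi.add_apply, Pi.single_eq_same]; constructor <;> linarith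
      · simp only [Pi.add_apply, Pi.single_eq_of_ne hl]; constructor <;> linarith
    · intro l
      by_cases hl : l = k
      · subst hl; simp only [Pi.add_apply, cc, Pi.single_eq_same, if_true]; ring
      · simp only [Pi.add_apply, cc, Pi.single_eq_of_ne hl, if_neg hl]; ring
  have hx0 := abs_le.1 (hx 0)
  have hx1 := abs_le.1 (hx 1)
  -- the meeting point gives the connection
  have fini : ∀ (w' : Vx 2) (hw' : Nr w') (i : Fin 2) (y : Vx 2),
      Cn (O ∩ (stp (v + cc b w') i b : Set (Ed 2))) (X w' i) y →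
      Cn (O1 ∩ (eb (v + cc b w) (3 * b + 1) : Set (Ed 2))) x y → Cn (O ∩ G) x (X 0 0) := by
    intro w' hw' i y c1 c2
    exact Con_trans (Cn_mono hsub c2) (Con_trans (Con_symm (Cn_mono
      (Set.inter_subset_inter_right _ (h.sub w' hw' i)) c1)) (all' h hw' i))
  rcases fin2 j with e | e
  · subst e
    rcases le_or_gt 0 (z' 0 - (v + cc b w) 0) with hs | hs
    · -- right side
      rw [abs_of_nonneg hs] at hj
      obtain ⟨hw', hcc⟩ := nb 0 1 (by simp)
      have c0 := hcc 0
      have c1 := hcc 1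
      simp only [if_true, mul_one] at c0
      simp only [show (1 : Fin 2) ≠ 0 by decide, if_false, add_zero] at c1
      have hbeg := h.beg _ hw' 1
      have hfin := h.fin _ hw' 1
      have hrow := h.row _ hw' 1
      have hcon := h.con _ hw' 1
      obtain ⟨y, y1, y2⟩ := p_PLC ((v + cc b w) 0 + b + 1) ((v + cc b w) 0 + (3 * b + 1))
        ((v + cc b w) 1 - (3 * b + 1)) ((v + cc b w) 1 + (3 * b + 1)) _ _ h1 hcon
        (fun y hy => by
          have := abs_le.1 (h2 y hy 1)
          constructor <;> linarith [this.1, this.2])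
        (fun y hy => by
          have := abs_le.1 (strip_pts hrow hy 0 (by decide))
          rw [c0] at this
          constructor <;> linarith [this.1, this.2])
        (by linarith [hx0.2]) (by linarith) (by linarith) (by linarith)
      exact fini _ hw' 1 y y2 y1
    · -- left side
      rw [abs_of_neg hs] at hj
      obtain ⟨hw', hcc⟩ := nb 0 (-1) (by simp)
      have c0 := hcc 0
      have c1 := hcc 1
      simp only [if_true] at c0
      simp only [show (1 : Fin 2) ≠ 0 by decide, if_false, add_zero] at c1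
      have hbeg := h.beg _ hw' 1
      have hfin := h.fin _ hw' 1
      have hrow := h.row _ hw' 1
      have hcon := h.con _ hw' 1
      obtain ⟨y, y1, y2⟩ := p_PLC ((v + cc b w) 0 - (3 * b + 1)) ((v + cc b w) 0 - b - 1)
        ((v + cc b w) 1 - (3 * b + 1)) ((v + cc b w) 1 + (3 * b + 1)) _ _ h1' hcon
        (fun y hy => by
          have := abs_le.1 (h2 y (Con_trans h1 hy) 1)
          constructor <;> linarith [this.1, this.2])
        (fun y hy => by
          have := abs_le.1 (strip_pts hrow hy 0 (by decide))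
          rw [c0] at this
          constructor <;> linarith [this.1, this.2])
        (by linarith) (by linarith [hx0.1]) (by linarith) (by linarith)
      exact fini _ hw' 1 y y2 (Con_trans h1 y1)
  · subst e
    rcases le_or_gt 0 (z' 1 - (v + cc b w) 1) with hs | hs
    · -- top side
      rw [abs_of_nonneg hs] at hj
      obtain ⟨hw', hcc⟩ := nb 1 1 (by simp)
      have c0 := hcc 0
      have c1 := hcc 1
      simp only [if_true, mul_one] at c1
      simp only [show (0 : Fin 2) ≠ 1 by decide, if_false, add_zero] at c0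
      have hbeg := h.beg _ hw' 0
      have hfin := h.fin _ hw' 0
      have hrow := h.row _ hw' 0
      have hcon := h.con _ hw' 0
      obtain ⟨y, y1, y2⟩ := p_PLC ((v + cc b w) 0 - (3 * b + 1)) ((v + cc b w) 0 + (3 * b + 1))
        ((v + cc b w) 1 + b + 1) ((v + cc b w) 1 + (3 * b + 1)) _ _ hcon h1
        (fun y hy => by
          have := abs_le.1 (strip_pts hrow hy 1 (by decide))
          rw [c1] at this
          constructor <;> linarith [this.1, this.2])
        (fun y hy => by
          have := abs_le.1 (h2 y hy 0)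
          constructor <;> linarith [this.1, this.2])
        (by linarith) (by linarith) (by linarith [hx1.2]) (by linarith)
      exact fini _ hw' 0 y y1 y2
    · -- bottom side
      rw [abs_of_neg hs] at hj
      obtain ⟨hw', hcc⟩ := nb 1 (-1) (by simp)
      have c0 := hcc 0
      have c1 := hcc 1
      simp only [if_true] at c1
      simp only [show (0 : Fin 2) ≠ 1 by decide, if_false, add_zero] at c0
      have hbeg := h.beg _ hw' 0
      have hfin := h.fin _ hw' 0
      have hrow := h.row _ hw' 0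
      have hcon := h.con _ hw' 0
      obtain ⟨y, y1, y2⟩ := p_PLC ((v + cc b w) 0 - (3 * b + 1)) ((v + cc b w) 0 + (3 * b + 1))
        ((v + cc b w) 1 - (3 * b + 1)) ((v + cc b w) 1 - b - 1) _ _ hcon h1'
        (fun y hy => by
          have := abs_le.1 (strip_pts hrow hy 1 (by decide))
          rw [c1] at this
          constructor <;> linarith [this.1, this.2])
        (fun y hy => by
          have := abs_le.1 (h2 y (Con_trans h1 hy) 0)
          constructor <;> linarith [this.1, this.2])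
        (by linarith) (by linarith) (by linarith) (by linarith [hx1.1])
      exact fini _ hw' 0 y y1 (Con_trans h1 y2)

/-- The first point of a crossing is in the strip. -/
theorem beg_mem {w x y : Vx 2} {i : Fin 2} (h : Cn (O ∩ (stp w i b : Set (Ed 2))) x y)
    (hne : x ≠ y) : ∀ j, |x j - w j| ≤ 9 * b + 1 := by
  by_contra hcon
  have hx : x ∉ bx w (9 * b + 1) := by
    intro hx
    apply hcon
    have := mem_bx'.1 hx
    push_cast at this
    exact this
  have := closed (A := {x}) ?_ h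
  · exact hne (this.1 rfl).symm
  · intro e he
    have h2 := mem_eb'.1 (Finset.mem_filter.1 (Finset.mem_coe.1 he.2)).1
    constructor
    · intro h3
      exact absurd ((Set.mem_singleton_iff.1 h3) ▸ h2.1) hx
    · intro h3
      exact absurd ((Set.mem_singleton_iff.1 h3) ▸ h2.2) hx

theorem ne_of {X Y : Vx 2 → Fin 2 → Vx 2} (h : Dat O G v b X Y) {w : Vx 2} (hw : Nr w)
    (i : Fin 2) : X w i ≠ Y w i := by
  intro e
  have h1 := h.beg w hw i
  have h2 := h.fin w hw i
  rw [← e] at h2
  have hb : (0 : ℤ) ≤ b := by positivity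
  linarith

/-- The small block of a point. -/
theorem cell {x : Vx 2} (hx : x ∈ bx v (3 * (20 * (2 * b + 1)) + 1)) :
    ∃ w : Vx 2, (∀ j, |w j| ≤ 61) ∧ x ∈ bx (v + cc b w) b := by
  have hm : (0 : ℤ) < 2 * (b : ℤ) + 1 := by positivity
  have hb : (0 : ℤ) ≤ b := by positivity
  refine ⟨fun j => (x j - v j + b) / (2 * (b : ℤ) + 1), ?_, ?_⟩
  · intro j
    have h1 := abs_le.1 (mem_bx'.1 hx j)
    push_cast at h1
    have h2 := Int.mul_ediv_self_le (x := x j - v j + b) hm.ne'
    have h3 := Int.lt_mul_ediv_self_add (x := x j - v j + b) hm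
    set t := (x j - v j + b) / (2 * (b : ℤ) + 1) with ht
    have h4 : t < 62 := by
      by_contra hcon
      push Not at hcon
      have := mul_le_mul_of_nonneg_left hcon hm.le
      linarith [h1.2]
    have h5 : -62 < t := by
      by_contra hcon
      push Not at hcon
      have := mul_le_mul_of_nonneg_left hcon hm.le
      linarith [h1.1]
    show |t| ≤ 61
    exact abs_le.2 ⟨by omega, by omega⟩
  · rw [mem_bx']
    intro j
    have h2 := Int.mul_ediv_self_le (x := x j - v j + b) hm.ne'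
    have h3 := Int.lt_mul_ediv_self_add (x := x j - v j + b) hm
    simp only [Pi.add_apply, cc]
    rw [abs_le]
    constructor <;> linarith

/-- Long arms meet the crossings. -/
theorem arm_hit {X Y : Vx 2 → Fin 2 → Vx 2}
    (h : Dat O (eb v (4 * (20 * (2 * b + 1)) + 2) : Set (Ed 2)) v b X Y) {x : Vx 2}
    (hx : x ∈ bx v (3 * (20 * (2 * b + 1)) + 1)) (ha : Arm O x (20 * (2 * b + 1))) :
    Cn (O ∩ (eb v (4 * (20 * (2 * b + 1)) + 2) : Set (Ed 2))) x (X 0 0) := by
  obtain ⟨w, hw, hxw⟩ := cell hx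
  obtain ⟨z, hz, hc⟩ := ha
  have hsub : O ∩ (eb x (20 * (2 * b + 1)) : Set (Ed 2)) ⊆
      O ∩ (eb v (4 * (20 * (2 * b + 1)) + 2) : Set (Ed 2)) :=
    Set.inter_subset_inter_right _ (Finset.coe_subset.2 (GBL_.eb_sub hx))
  refine hit h hw hsub hxw ?_ hc
  obtain ⟨j, hj⟩ := (Finset.mem_filter.1 hz).2
  refine ⟨j, ?_⟩
  have h1 := abs_le.1 (mem_bx'.1 hxw j)
  have hb : (0 : ℤ) ≤ b := by positivity
  push_cast at hj
  rcases hj with hj | hj
  · rw [le_abs]
    right
    linarith [h1.1, h1.2]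
  · rw [le_abs]
    left
    linarith [h1.1, h1.2]

end main

end ZGB

open ZGB in
theorem p_ZGB : T_ZGB := by
  intro O v b hZ
  choose! X Y h1 h2 h3 h4 using hZ
  have hb : (0 : ℤ) ≤ b := by positivity
  have hD : Dat O (eb v (4 * (20 * (2 * b + 1)) + 2) : Set (Ed 2)) v b X Y :=
    ⟨h1, h2, h3, h4, fun w hw i => stp_sub i hw⟩
  refine ⟨?_, fun x hx y hy ax ay => Con_trans (arm_hit hD hx ax) (Con_symm (arm_hit hD hy ay))⟩
  intro z hz
  have hz' : ∀ j, -1 ≤ z j ∧ z j ≤ 1 := by
    intro j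
    have := abs_le.1 (mem_bx'.1 hz j)
    simpa using this
  -- the block `w = 40 z`
  have hw : Nr (fun j => 40 * z j) := by
    intro j
    have := hz' j
    rw [abs_le]
    constructor <;> linarith [this.1, this.2]
  have hm := beg_mem (hD.con _ hw 0) (ne_of hD hw 0)
  refine ⟨X (fun j => 40 * z j) 0, ?_, ?_⟩
  · rw [mem_bx']
    intro j
    have h5 := abs_le.1 (hm j)
    have h6 := hz' j
    simp only [Pi.add_apply, cc] at h5 ⊢
    push_cast
    rw [abs_le]
    constructor <;> nlinarith [h5.1, h5.2, h6.1, h6.2]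
  · -- a far block
    obtain ⟨s, hs, hs1, hs2⟩ : ∃ s : ℤ, (s = 40 ∨ s = -40) ∧ -62 ≤ 40 * z 0 + s ∧
        40 * z 0 + s ≤ 62 := by
      have := hz' 0
      by_cases h0 : 0 < z 0
      · exact ⟨-40, Or.inr rfl, by omega, by omega⟩
      · exact ⟨40, Or.inl rfl, by omega, by omega⟩
    have hw' : Nr (fun j => if j = 0 then 40 * z 0 + s else 40 * z 1) := by
      intro j
      have := hz' 1
      rw [abs_le]
      rcases fin2 j with hj | hj <;> subst hj
      · simp only [if_true]; exact ⟨hs1, hs2⟩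
      · simp only [show (1 : Fin 2) ≠ 0 by decide, if_false]; constructor <;> omega
    have hm' := beg_mem (hD.con _ hw' 0) (ne_of hD hw' 0)
    refine p_ARC 2 O _ (X (fun j => if j = 0 then 40 * z 0 + s else 40 * z 1) 0) _
      (Cn_mono Set.inter_subset_left (Con_trans (all' hD hw 0) (Con_symm (all' hD hw' 0)))) ⟨0, ?_⟩
    have h5 := abs_le.1 (hm 0)
    have h6 := abs_le.1 (hm' 0)
    simp only [Pi.add_apply, cc, if_true] at h5 h6
    push_cast
    rcases hs with hs | hs <;> subst hs
    · rw [le_abs]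
      left
      nlinarith [h5.1, h5.2, h6.1, h6.2]
    · rw [le_abs]
      right
      nlinarith [h5.1, h5.2, h6.1, h6.2]

end Pool.Agent.FKS
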