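import Pool.Agent.FKS.TargetsF
import Pool.Agent.FKS.P_ZGB
import Pool.Agent.FKP.P_BLM

/-!
# Project FKS, part F: separated families of bad blocks (T_ZPI)
-/

set_option autoImplicit false

namespace Pool.Agent.FKS

open Filter MeasureTheory Pool.Agent.FKP
open Pool.Agent.FKT hiding ind

namespace ZPI

theorem SC_mono {O O' : Set (Ed 2)} (h : O ⊆ O') {w : Vx 2} {i : Fin 2} {b : ℕ}
    (hS : SC O w i b) : SC O' w i b := by
  obtain ⟨x, y, h1, h2, h3, h4⟩ := hS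
  exact ⟨x, y, h1, ZGB.Cn_mono (Set.inter_subset_inter_left _ h) h2, h3, h4⟩

theorem Zc_mono {O O' : Set (Ed 2)} (h : O ⊆ O') {v : Vx 2} {b : ℕ} (hZ : Zc O v b) :
    Zc O' v b := fun w hw i => SC_mono h (hZ w hw i)

/-- The crossings depend only on the edges of the big box. -/
theorem Zc_local {O : Set (Ed 2)} {v : Vx 2} {b : ℕ} (hZ : Zc O v b) :
    Zc (O ∩ (eb v (4 * (20 * (2 * b + 1)) + 2) : Set (Ed 2))) v b := by
  intro w hw i
  obtain ⟨x, y, h1, h2, h3, h4⟩ := hZ w hw i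
  refine ⟨x, y, h1, ZGB.Cn_mono ?_ h2, h3, h4⟩
  intro e he
  exact ⟨⟨he.1, ZGB.stp_sub i hw he.2⟩, he.2⟩

end ZPI

open ZPI in
theorem p_ZPI (hZPR : T_ZPR) (hPIW : T_PIW) (hZGB : T_ZGB) : T_ZPI := by
  intro p0 p1 q h δ hδ
  have hm : Hyp 2 p0 ((p0 + p1) / 2) q :=
    ⟨h.hd, h.h0, by linarith [h.h01], by linarith [h.h01, h.h1], h.hq, h.per⟩
  obtain ⟨c, hc, hP⟩ := hPIW ((p0 + p1) / 2) p1 q (by linarith [h.h0, h.h01])
    (by linarith [h.h01]) h.h1 h.hq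
  have hε : 0 < δ ^ (1 / c) := Real.rpow_pos_of_pos hδ _
  obtain ⟨b, -, hb⟩ := hZPR p0 _ q hm (δ ^ (1 / c)) 0 hε
  refine ⟨20 * (2 * b + 1), fun μ hμ D hD => ?_⟩
  have hprob := hμ.prob
  have key := hP 2 μ hμ (Vx 2) D
    (fun z => eb (cc (20 * (2 * b + 1)) z) (4 * (20 * (2 * b + 1)) + 2))
    (fun z ω => Zc (ω : Set (Ed 2)) (cc (20 * (2 * b + 1)) z) b) (δ ^ (1 / c)) hε
    (fun z _ a a' ha hZ => Zc_mono (Finset.coe_subset.2 ha) hZ)
    (fun z _ ω => by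
      rw [Finset.coe_inter]
      exact ⟨fun hZ => Zc_local hZ, fun hZ => Zc_mono Set.inter_subset_left hZ⟩)
    (fun z hz z' hz' hne => BLM_.disj _ z z' (hD z hz z' hz' hne))
    (fun z _ => hb _)
  have e : (δ ^ (1 / c)) ^ c = δ := by
    rw [← Real.rpow_mul hδ.le, one_div, inv_mul_cancel₀ hc.ne', Real.rpow_one]
  rw [e] at key
  refine le_trans (measureReal_mono ?_ (measure_ne_top _ _)) key
  intro ω hω z hz hZ
  exact hω z hz ((p_GBL 2 (cfg ω) _ _).2 (hZGB _ _ _ hZ))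

end Pool.Agent.FKS
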