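import Pool.Agent.FKP.Assembly
import Pool.Agent.FKT.P_BER
import Pool.Agent.FKT.MainB
import Pool.Agent.FKS.P_PIF
import Pool.Agent.FKS.P_PIW
import Pool.Agent.FKS.P_ZPR
import Pool.Agent.FKS.P_ZGB
import Pool.Agent.FKS.P_ZPI
import Pool.Agent.FKS.P_RCH
import Pool.Agent.FKS.P_SCP
import Pool.Agent.FKS.P_EBP
import Pool.Agent.FKS.P_TRP
import Pool.Agent.FKS.P_SPR

/-!
# Project FKS, part F: assembly

`twd_cel : T_CEL → T_TWD`: both tails in dimension two from the cell package.
-/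

set_option autoImplicit false

namespace Pool.Agent.FKS

open Filter MeasureTheory Pool.Agent.FKP
open Pool.Agent.FKT hiding ind

/-- The product inequality. -/
theorem gS_PIF : T_PIF :=
  p_PIF FKT.p_ADD FKT.p_BER FKT.f_FKG g_LGD g_HOL

/-- The product inequality for the wired measure of the lattice. -/
theorem gS_PIW : T_PIW := p_PIW gS_PIF FKT.f_LOC

/-- Part F from the probability of the long crossings. -/
theorem twd_scp (h_SCP : T_SCP) : T_TWD :=
  twd_of (p_ZPI (p_ZPR h_SCP g_DMC) gS_PIW p_ZGB) (p_RCH FKT.f_MOP p_ARC) g_PSM g_TAI g_FIN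

/-- The sprinkling. -/
theorem gS_SPR : T_SPR := p_SPR FKT.p_ADD FKT.p_BER

/-- Part F from the cell package. -/
theorem twd_cel (h_CEL : T_CEL) : T_TWD :=
  twd_scp (p_SCP h_CEL gS_SPR (p_DPM g_DMC) p_EBP)

end Pool.Agent.FKS
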