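import Pool.Agent.FKS.TargetsB
import Pool.Agent.FKP.PartB

/-!
# Project FKS (MP_552f07_pr): target BAS, the gluing event with a large cost always holds
-/

set_option autoImplicit false

namespace Pool.Agent.FKS

open Filter MeasureTheory Pool.Agent.FKP
open Pool.Agent.FKT hiding ind

/-- The box grows with its radius. -/
theorem BAS_bx {d : ℕ} {ρ R : ℕ} (h : ρ ≤ R) : bx (0 : Vx d) ρ ⊆ bx (0 : Vx d) R := by
  intro v hv
  rw [mem_bx] at hv ⊢
  intro i
  have h1 : ((ρ : ℕ) : ℤ) ≤ R := by exact_mod_cast h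
  exact (hv i).trans h1

theorem p_BAS (hB : T_BCN) : T_BAS := by
  intro d ρ r R k ω hρ hk K C hK hC hK1 hC1
  obtain ⟨x, hx, -⟩ := hK1.2
  obtain ⟨y, hy, -⟩ := hC1.2
  refine ⟨x, hx, y, hy, eb (0 : Vx d) R, Finset.Subset.refl _, hk, ?_⟩
  have h1 : Cf (es (bx (0 : Vx d) R)) x y := hB d _ _ x (BAS_bx hρ (hK hx)) y (BAS_bx hρ (hC hy))
  refine Cn_mono ?_ h1
  intro e he
  rw [Finset.coe_union]
  exact Or.inr he

end Pool.Agent.FKS
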