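import Pool.Agent.FKS.TargetsD
import Pool.Agent.FKT.P_BER

/-!
# Project FKS, part D: BEP, independent trials
-/

set_option autoImplicit false

namespace Pool.Agent.FKS

open Filter MeasureTheory Pool.Agent.FKP
open Pool.Agent.FKT hiding ind

section bernoulli

variable {E : Type} [DecidableEq E]

/-- the probability that a given set is open -/
theorem BEP_full (ε : ℝ) (T : Finset E) : EB ε T (fun α => ind (¬ T ⊆ α)) = 1 - ε ^ T.card := by
  have h1 : EB ε T (fun α => ind (T ⊆ α)) = ε ^ T.card := by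
    unfold EB
    rw [Finset.sum_eq_single T]
    · show bw ε T T * ind (T ⊆ T) = ε ^ T.card
      rw [ind_true (Finset.Subset.refl T)]
      unfold bw
      simp
    · intro b hb hne
      have : ¬ T ⊆ b := fun h => hne (Finset.Subset.antisymm (Finset.mem_powerset.mp hb) h)
      show bw ε T b * ind (T ⊆ b) = 0
      rw [ind_false this, mul_zero]
    · intro h
      exact absurd (Finset.mem_powerset.mpr (Finset.Subset.refl T)) h
  have h2 := FKT.BER_.lin ε T 1 (-1) (fun _ => (1 : ℝ)) (fun α => ind (T ⊆ α))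
  rw [h1, FKT.BER_.total] at h2
  have h3 : EB ε T (fun α => ind (¬ T ⊆ α)) =
      EB ε T (fun α => 1 * (1 : ℝ) + -1 * ind (T ⊆ α)) := by
    refine FKT.BER_.congr fun α _ => ?_
    rw [ind_not]
    ring
  rw [h3, h2]
  ring

/-- disjoint sets: none of them is open -/
theorem BEP_none {ι : Type} [DecidableEq ι] {ε : ℝ} (h0 : 0 ≤ ε) (h1 : ε ≤ 1) (k : ℕ)
    (Z : Finset ι) (T : ι → Finset E) : ∀ F : Finset E, (∀ z ∈ Z, T z ⊆ F) →
    (∀ z ∈ Z, (T z).card ≤ k) → (∀ z ∈ Z, ∀ z' ∈ Z, z ≠ z' → Disjoint (T z) (T z')) →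
    EB ε F (fun ξ => ind (∀ z ∈ Z, ¬ T z ⊆ ξ)) ≤ (1 - ε ^ k) ^ Z.card := by
  induction Z using Finset.induction_on with
  | empty =>
    intro F _ _ _
    have : EB ε F (fun ξ => ind (∀ z ∈ (∅ : Finset ι), ¬ T z ⊆ ξ)) = EB ε F (fun _ => 1) := by
      refine FKT.BER_.congr fun α _ => ?_
      exact ind_true (by simp)
    rw [this, FKT.BER_.total]
    simp
  | insert z Z hz ih =>
    intro F hF hk hd
    have hzF : T z ⊆ F := hF z (Finset.mem_insert_self z Z)
    have hd' : ∀ z' ∈ Z, Disjoint (T z) (T z') := fun z' hz' =>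
      hd z (Finset.mem_insert_self z Z) z' (Finset.mem_insert_of_mem hz') fun h => hz (h ▸ hz')
    have e1 := FKT.BER_.split ε (T z) (F \ T z)
      (fun ξ => ind (∀ z' ∈ insert z Z, ¬ T z' ⊆ ξ)) Finset.disjoint_sdiff
    rw [Finset.union_sdiff_of_subset hzF] at e1
    have e2 : EB ε (T z) (fun α => EB ε (F \ T z)
        fun γ => ind (∀ z' ∈ insert z Z, ¬ T z' ⊆ α ∪ γ)) =
        EB ε (T z) (fun α => EB ε (F \ T z) (fun γ => ind (∀ z' ∈ Z, ¬ T z' ⊆ γ)) *
          ind (¬ T z ⊆ α) + 0 * (1 : ℝ)) := by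
      refine FKT.BER_.congr fun α hα => ?_
      have e3 : EB ε (F \ T z) (fun γ => ind (∀ z' ∈ insert z Z, ¬ T z' ⊆ α ∪ γ)) =
          EB ε (F \ T z) (fun γ => ind (¬ T z ⊆ α) * ind (∀ z' ∈ Z, ¬ T z' ⊆ γ) +
            0 * (1 : ℝ)) := by
        refine FKT.BER_.congr fun γ hγ => ?_
        rw [← ind_and, zero_mul, add_zero]
        refine ind_congr ?_
        rw [Finset.forall_mem_insert]
        refine and_congr (not_congr ⟨?_, ?_⟩) (forall₂_congr fun z' hz' => not_congr ⟨?_, ?_⟩)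
        · intro h e he
          rcases Finset.mem_union.mp (h he) with h' | h'
          · exact h'
          · exact absurd he (Finset.mem_sdiff.mp (hγ h')).2
        · exact fun h => h.trans Finset.subset_union_left
        · intro h e he
          rcases Finset.mem_union.mp (h he) with h' | h'
          · exact absurd he (Finset.disjoint_left.mp (hd' z' hz') (hα h'))
          · exact h'
        · exact fun h => h.trans Finset.subset_union_right
      rw [e3, FKT.BER_.lin ε (F \ T z) (ind (¬ T z ⊆ α)) 0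
        (fun γ => ind (∀ z' ∈ Z, ¬ T z' ⊆ γ)) (fun _ => 1)]
      ring
    have e4 := FKT.BER_.lin ε (T z)
      (EB ε (F \ T z) (fun γ => ind (∀ z' ∈ Z, ¬ T z' ⊆ γ))) 0
      (fun α => ind (¬ T z ⊆ α)) (fun _ => 1)
    rw [e1, e2, e4, BEP_full, Finset.card_insert_of_notMem hz, pow_succ, zero_mul, add_zero]
    have e5 := ih (F \ T z) (fun z' hz' e he => Finset.mem_sdiff.mpr
      ⟨hF z' (Finset.mem_insert_of_mem hz') he,
        fun h => Finset.disjoint_left.mp (hd' z' hz') h he⟩)
      (fun z' hz' => hk z' (Finset.mem_insert_of_mem hz'))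
      (fun a ha b hb => hd a (Finset.mem_insert_of_mem ha) b (Finset.mem_insert_of_mem hb))
    have e6 : ε ^ k ≤ ε ^ (T z).card :=
      pow_le_pow_of_le_one h0 h1 (hk z (Finset.mem_insert_self z Z))
    have e7 : ε ^ (T z).card ≤ 1 := pow_le_one₀ h0 h1
    have e8 : ε ^ k ≤ 1 := pow_le_one₀ h0 h1
    exact mul_le_mul e5 (by linarith) (by linarith) (pow_nonneg (by linarith) _)

end bernoulli

theorem p_BEP : T_BEP := by
  classical
  intro E ι _ G ε h0 h1 Ψ Q F hF hd
  exact BEP_none h0 h1 Ψ Q F G (fun i hi => (hF i hi).1) (fun i hi => (hF i hi).2) hd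

end Pool.Agent.FKS
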