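import Pool.Agent.FKS.TargetsD

/-!
# Project FKS, CNB: the number of small subsets
-/

set_option autoImplicit false

namespace Pool.Agent.FKS

open Filter MeasureTheory Pool.Agent.FKP
open Pool.Agent.FKT hiding ind

theorem p_CNB : T_CNB := by
  intro A _ Z D
  classical
  induction D with
  | zero =>
    rw [pow_zero]
    refine (Finset.card_le_card (t := {∅}) ?_).trans (by simp)
    intro U hU
    rw [Finset.mem_filter] at hU
    rw [Finset.mem_singleton]
    exact Finset.card_eq_zero.mp (Nat.le_zero.mp hU.2)
  | succ D ih =>
    have hsub : (Z.powerset.filter fun U => U.card ≤ D + 1) ⊆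
        ((Finset.insertNone Z) ×ˢ (Z.powerset.filter fun U => U.card ≤ D)).image
          (fun p => match p.1 with
            | none => p.2
            | some a => insert a p.2) := by
      intro U hU
      rw [Finset.mem_filter, Finset.mem_powerset] at hU
      rw [Finset.mem_image]
      rcases Finset.eq_empty_or_nonempty U with rfl | ⟨a, ha⟩
      · refine ⟨(none, ∅), ?_, rfl⟩
        rw [Finset.mem_product, Finset.mem_filter, Finset.mem_powerset]
        exact ⟨Finset.none_mem_insertNone, Finset.empty_subset _, by simp⟩
      · refine ⟨(some a, U.erase a), ?_, ?_⟩
        · rw [Finset.mem_product, Finset.mem_filter, Finset.mem_powerset]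
          refine ⟨?_, (Finset.erase_subset _ _).trans hU.1, ?_⟩
          · simp only [Finset.some_mem_insertNone]
            exact hU.1 ha
          · simp only
            rw [Finset.card_erase_of_mem ha]
            omega
        · simp only
          exact Finset.insert_erase ha
    refine (Finset.card_le_card hsub).trans (Finset.card_image_le.trans ?_)
    rw [Finset.card_product, Finset.card_insertNone, pow_succ, mul_comm]
    exact Nat.mul_le_mul_right _ ih

end Pool.Agent.FKS
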