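import Pool.Agent.FKS.TargetsD

/-!
# Project FKS, part D: the counting step T_DET
-/

set_option autoImplicit false

namespace Pool.Agent.FKS

open Filter MeasureTheory Pool.Agent.FKP
open Pool.Agent.FKT hiding ind

section

variable {d : ℕ}

theorem DET_refl (ω : Finset (Ed d)) (x : Vx d) : Cf ω x x :=
  Con_refl (s := Prod.fst) (t := tgt) (R := no (Vx d)) (ω : Set (Ed d)) x

theorem DET_symm {ω : Finset (Ed d)} {x y : Vx d} (h : Cf ω x y) : Cf ω y x :=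
  Con_symm (s := Prod.fst) (t := tgt) (R := no (Vx d)) h

theorem DET_trans {ω : Finset (Ed d)} {x y z : Vx d} (h : Cf ω x y) (h' : Cf ω y z) : Cf ω x z :=
  Con_trans (s := Prod.fst) (t := tgt) (R := no (Vx d)) h h'

theorem DET_mono {ω ω' : Finset (Ed d)} (hω : ω ⊆ ω') {x y : Vx d} (h : Cf ω x y) : Cf ω' x y :=
  Con_mono (s := Prod.fst) (t := tgt) (R := no (Vx d)) (R' := no (Vx d)) (fun _ _ h => h)
    (Finset.coe_subset.2 hω) h

end

theorem p_DET (hTWO : T_TWO) (hEXT : T_EXT) : T_DET := by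
  classical
  intro d L σ M M' t D hd hL hM ht ω ω' hω Z hZ hcov hglue
  have hM'M : M' ≤ M := by omega
  set U : Vx d → Finset (Vx d) := fun z => Z.filter fun z' => Cf (ω' ∩ eb (0 : Vx d) L) z z'
    with hU
  have memU : ∀ z z', z' ∈ U z ↔ z' ∈ Z ∧ Cf (ω' ∩ eb (0 : Vx d) L) z z' := by
    intro z z'
    rw [hU]
    simp only [Finset.mem_filter]
  set 𝒞 : Finset (Finset (Vx d)) :=
    (Z.filter fun z => ∃ a ∈ bx (0 : Vx d) M', Mt L σ ω z a).image U with h𝒞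
  have mem𝒞 : ∀ C ∈ 𝒞, ∃ z ∈ Z, (∃ a ∈ bx (0 : Vx d) M', Mt L σ ω z a) ∧ U z = C := by
    intro C hC
    rw [h𝒞, Finset.mem_image] at hC
    obtain ⟨z, hz, hzC⟩ := hC
    rw [Finset.mem_filter] at hz
    exact ⟨z, hz.1, hz.2, hzC⟩
  -- the classes are disjoint
  have hdis : ∀ C ∈ 𝒞, ∀ C' ∈ 𝒞, C ≠ C' → Disjoint C C' := by
    intro C hC C' hC' hne
    obtain ⟨z, hz, -, rfl⟩ := mem𝒞 C hC
    obtain ⟨z', hz', -, rfl⟩ := mem𝒞 C' hC'
    rw [Finset.disjoint_left]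
    intro w hw hw'
    apply hne
    have h1 := ((memU z w).1 hw).2
    have h2 := ((memU z' w).1 hw').2
    have h3 : Cf (ω' ∩ eb (0 : Vx d) L) z z' := DET_trans h1 (DET_symm h2)
    ext v
    rw [memU, memU]
    constructor
    · rintro ⟨hv, h⟩
      exact ⟨hv, DET_trans (DET_symm h3) h⟩
    · rintro ⟨hv, h⟩
      exact ⟨hv, DET_trans h3 h⟩
  have hsubZ : ∀ C ∈ 𝒞, C ⊆ Z := by
    intro C hC
    obtain ⟨z, hz, -, rfl⟩ := mem𝒞 C hC
    exact Finset.filter_subset _ _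
  -- large or with few places
  have hlarge : ∀ C ∈ 𝒞, ¬ (Pl (Tl L σ M ω C) (Tl L σ M ω (Z \ C))).card < t → D + 1 ≤ C.card := by
    intro C hC hn
    by_contra hc
    have hc' : C.card ≤ D := by omega
    obtain ⟨z1, hz1, z2, hz2, h12⟩ := hglue C (hsubZ C hC) hc' (by omega)
    obtain ⟨z, hz, -, rfl⟩ := mem𝒞 C hC
    rw [Finset.mem_sdiff] at hz2
    apply hz2.2
    rw [memU]
    exact ⟨hz2.1, DET_trans ((memU z z1).1 hz1).2 h12⟩
  -- slices
  have hsl : ∀ C ∈ 𝒞, ∃ (k : Fin d) (I : Finset ℤ), 2 * t ≤ I.card ∧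
      ∀ s ∈ I, ∃ a ∈ Tl L σ M ω C, a k = s := by
    intro C hC
    obtain ⟨z, hz, hza, rfl⟩ := mem𝒞 C hC
    obtain ⟨k, I, hI, hIs⟩ := hEXT d L σ M M' hL hM'M ω z (hZ hz) hza
    refine ⟨k, I, ?_, ?_⟩
    · have h1 : 2 * d * (2 * t) ≤ 2 * d * I.card := by
        have : 2 * d * (2 * t) = 4 * d * t := by ring
        omega
      exact Nat.le_of_mul_le_mul_left h1 (by omega)
    · intro s hs
      obtain ⟨a, ha, hak, hMt⟩ := hIs s hs
      refine ⟨a, ?_, hak⟩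
      unfold Tl
      rw [Finset.mem_filter]
      exact ⟨ha, z, (memU z z).2 ⟨hz, DET_refl _ _⟩, hMt⟩
  have hTsub : ∀ V : Finset (Vx d), Tl L σ M ω V ⊆ bx (0 : Vx d) M := fun V =>
    Finset.filter_subset _ _
  have hTcov : ∀ V : Finset (Vx d), ∀ a ∈ bx (0 : Vx d) M,
      a ∈ Tl L σ M ω V ∨ a ∈ Tl L σ M ω (Z \ V) := by
    intro V a ha
    obtain ⟨z, hz, hMt⟩ := hcov a ha
    by_cases hzV : z ∈ V
    · left
      unfold Tl
      rw [Finset.mem_filter]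
      exact ⟨ha, z, hzV, hMt⟩
    · right
      unfold Tl
      rw [Finset.mem_filter]
      exact ⟨ha, z, Finset.mem_sdiff.2 ⟨hz, hzV⟩, hMt⟩
  -- at most one with few places
  set 𝒞1 := 𝒞.filter (fun C => (Pl (Tl L σ M ω C) (Tl L σ M ω (Z \ C))).card < t) with h𝒞1
  set 𝒞2 := 𝒞.filter (fun C => ¬ (Pl (Tl L σ M ω C) (Tl L σ M ω (Z \ C))).card < t) with h𝒞2
  have hone : 𝒞1.card ≤ 1 := by
    rw [Finset.card_le_one]
    intro C hC C' hC'
    rw [h𝒞1, Finset.mem_filter] at hC hC'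
    by_contra hne
    obtain ⟨k, I, hI, hIs⟩ := hsl C hC.1
    obtain ⟨k', J, hJ, hJs⟩ := hsl C' hC'.1
    refine hTWO d M t hd ht (Tl L σ M ω C) (Tl L σ M ω (Z \ C)) (Tl L σ M ω C')
      (Tl L σ M ω (Z \ C')) (hTsub _) (hTsub _) (hTcov _) (hTcov _) ?_ hC.2 hC'.2 k k' I J hI hJ
      hIs hJs
    intro a ha
    unfold Tl at ha ⊢
    rw [Finset.mem_filter] at ha ⊢
    obtain ⟨ha1, z, hz, hMt⟩ := ha
    refine ⟨ha1, z, Finset.mem_sdiff.2 ⟨hsubZ C' hC'.1 hz, ?_⟩, hMt⟩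
    exact fun h => (Finset.disjoint_left.1 (hdis C hC.1 C' hC'.1 hne)) h hz
  have htwo : 𝒞2.card ≤ Z.card / (D + 1) := by
    rw [Nat.le_div_iff_mul_le (by omega)]
    have h1 : ∀ C ∈ 𝒞2, D + 1 ≤ C.card := by
      intro C hC
      rw [h𝒞2, Finset.mem_filter] at hC
      exact hlarge C hC.1 hC.2
    have h2 : (𝒞2.biUnion id).card = ∑ C ∈ 𝒞2, C.card := by
      rw [Finset.card_biUnion]
      · rfl
      · intro C hC C' hC' hne
        rw [h𝒞2, Finset.mem_coe, Finset.mem_filter] at hC hC'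
        exact hdis C hC.1 C' hC'.1 hne
    have h3 : (𝒞2.biUnion id) ⊆ Z := by
      intro w hw
      rw [Finset.mem_biUnion] at hw
      obtain ⟨C, hC, hwC⟩ := hw
      rw [h𝒞2, Finset.mem_filter] at hC
      exact hsubZ C hC.1 hwC
    have h4 := Finset.card_le_card h3
    have h5 : 𝒞2.card * (D + 1) ≤ ∑ C ∈ 𝒞2, C.card := by
      have := Finset.card_nsmul_le_sum 𝒞2 (fun C => C.card) (D + 1) h1
      simpa using this
    omega
  have hcard : 𝒞.card ≤ Z.card / (D + 1) + 1 := by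
    have h1 : 𝒞1.card + 𝒞2.card = 𝒞.card := by
      rw [h𝒞1, h𝒞2]
      exact Finset.card_filter_add_card_filter_not _
    omega
  -- representatives
  have hrep : ∀ C ∈ 𝒞, ∃ z, z ∈ C := by
    intro C hC
    obtain ⟨z, hz, -, rfl⟩ := mem𝒞 C hC
    exact ⟨z, (memU z z).2 ⟨hz, DET_refl _ _⟩⟩
  let rep : Finset (Vx d) → Vx d := fun C => if h : ∃ z, z ∈ C then h.choose else 0
  have hrep' : ∀ C ∈ 𝒞, rep C ∈ C := by
    intro C hC
    have h := hrep C hC
    simp only [rep, dif_pos h]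
    exact h.choose_spec
  refine ⟨𝒞.image rep, ?_, Finset.card_image_le.trans hcard, ?_⟩
  · intro w hw
    rw [Finset.mem_image] at hw
    obtain ⟨C, hC, rfl⟩ := hw
    exact hZ (hsubZ C hC (hrep' C hC))
  · intro a ha
    have haM : a ∈ bx (0 : Vx d) M := by
      unfold bx at ha ⊢
      rw [Finset.mem_Icc] at ha ⊢
      constructor
      · intro i
        have := ha.1 i
        simp only [Pi.zero_apply] at this ⊢
        have h2 : (M' : ℤ) ≤ M := by exact_mod_cast hM'M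
        linarith
      · intro i
        have := ha.2 i
        simp only [Pi.zero_apply] at this ⊢
        have h2 : (M' : ℤ) ≤ M := by exact_mod_cast hM'M
        linarith
    obtain ⟨z, hz, hMt⟩ := hcov a haM
    have hUz : U z ∈ 𝒞 := by
      rw [h𝒞, Finset.mem_image]
      exact ⟨z, Finset.mem_filter.2 ⟨hz, a, ha, hMt⟩, rfl⟩
    refine ⟨rep (U z), Finset.mem_image_of_mem _ hUz, ?_⟩
    obtain ⟨u, hu, hzu⟩ := hMt
    refine ⟨u, hu, ?_⟩
    have h1 := ((memU z _).1 (hrep' _ hUz)).2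
    exact DET_trans (DET_symm h1)
      (DET_mono (Finset.inter_subset_inter_right hω) hzu)

end Pool.Agent.FKS
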