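import Pool.Agent.FKS.TargetsC

/-!
# Project FKS, part C: the dichotomy (DIC)
-/

set_option autoImplicit false

namespace Pool.Agent.FKS

open Filter MeasureTheory Pool.Agent.FKP
open Pool.Agent.FKT hiding ind

/-- The log-odds are at least the logarithm. -/
theorem DIC_lo (a : ℝ) (h0 : 0 < a) (h1 : a ≤ 1) : Real.log a ≤ lo a := by
  unfold lo
  rcases h1.lt_or_eq with h | h
  · apply Real.log_le_log h0
    rw [le_div_iff₀ (by linarith)]
    nlinarith
  · rw [h]
    simp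

/-- The last step of the dichotomy. -/
theorem DIC_fin (b c x : ℝ) (hc : 0 < c) (hx : 1 < x) (hb0 : 0 ≤ b) (hb1 : b < 1)
    (h : c * Real.log x ≤ lo b) : 1 - x ^ (-c) ≤ b := by
  have hx0 : 0 < x := by linarith
  have hlog : 0 < c * Real.log x := mul_pos hc (Real.log_pos hx)
  have hq : 0 < b / (1 - b) := by
    rcases hb0.lt_or_eq with h0 | h0
    · exact div_pos h0 (by linarith)
    · exfalso
      rw [← h0] at h
      unfold lo at h
      simp at h
      linarith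
  have h1 : x ^ c ≤ b / (1 - b) := by
    unfold lo at h
    rw [← Real.log_rpow hx0] at h
    exact (Real.log_le_log_iff (Real.rpow_pos_of_pos hx0 c) hq).mp h
  rw [le_div_iff₀ (by linarith)] at h1
  have h2 : x ^ c * x ^ (-c) = 1 := by
    rw [← Real.rpow_add hx0]
    simp
  have h3 : 0 < x ^ (-c) := Real.rpow_pos_of_pos hx0 _
  have h4 : x ^ c * (1 - b) * x ^ (-c) ≤ b * x ^ (-c) := mul_le_mul_of_nonneg_right h1 h3.le
  have h5 : x ^ c * (1 - b) * x ^ (-c) = 1 - b := by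
    calc x ^ c * (1 - b) * x ^ (-c) = (x ^ c * x ^ (-c)) * (1 - b) := by ring
      _ = 1 - b := by rw [h2, one_mul]
  have h6 : b * x ^ (-c) ≤ 1 * x ^ (-c) := mul_le_mul_of_nonneg_right hb1.le h3.le
  linarith

theorem p_DIC (h1 : T_FMI) : T_DIC := by
  intro d hd q p1 p2 hq hp1 hp12 hp2
  obtain ⟨c1, hc1, H⟩ := h1 d hd q p1 p2 hq hp1 hp12 hp2
  refine ⟨c1 / 2, by linarith, ?_⟩
  intro M A hA μ1 μ2 hμ1 hμ2 r hr ha
  have := hμ1.prob
  have := hμ2.prob
  have hr1 : (1 : ℝ) < r := by exact_mod_cast (by omega : 1 < r)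
  have hr0 : (0 : ℝ) < r := by linarith
  have ha0 : 0 < fpr μ1 A r := lt_of_lt_of_le (Real.rpow_pos_of_pos hr0 _) ha
  have ha1 : fpr μ1 A r ≤ 1 := measureReal_le_one
  have hb0 : 0 ≤ fpr μ2 A (2 * r) := measureReal_nonneg
  have hb1 : fpr μ2 A (2 * r) ≤ 1 := measureReal_le_one
  rcases hb1.lt_or_eq with hb | hb
  · have h2 := H M A hA μ1 μ2 hμ1 hμ2 r hr ha0 hb
    have h3 := DIC_lo _ ha0 ha1
    have h4 : -(c1 / 2) * Real.log r ≤ Real.log (fpr μ1 A r) := by
      rw [← Real.log_rpow hr0]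
      exact Real.log_le_log (Real.rpow_pos_of_pos hr0 _) ha
    apply DIC_fin _ _ _ (by linarith) hr1 hb0 hb
    linarith
  · rw [hb]
    linarith [Real.rpow_pos_of_pos hr0 (-(c1 / 2))]

end Pool.Agent.FKS
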