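import Pool.Agent.FKS.TargetsC
import Pool.Agent.FKS.Step

/-!
# FKS, DSQ: every displacement is a sum of `4 d` long hops
-/

set_option autoImplicit false

namespace Pool.Agent.FKS

open Filter MeasureTheory Pool.Agent.FKP
open Pool.Agent.FKT hiding ind

variable {d : ℕ}

/-- A path of `l` hops from `x` to `y` in the box of radius `B`. -/
def DSQ_P (H : Vx d → Prop) (D B l : ℕ) (x y : Vx d) : Prop :=
  ∃ h : ℕ → Vx d, h 0 = x ∧ h l = y ∧ (∀ j ≤ l, h j ∈ bx (0 : Vx d) B) ∧
    ∀ j < l, Far D (h j) (h (j + 1)) ∧ H (h (j + 1) - h j)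

theorem DSQ_zero {H : Vx d → Prop} {D B : ℕ} {x : Vx d} (hx : x ∈ bx (0 : Vx d) B) :
    DSQ_P H D B 0 x x :=
  ⟨fun _ => x, rfl, rfl, fun _ _ => hx, fun j hj => absurd hj (Nat.not_lt_zero j)⟩

theorem DSQ_trans {H : Vx d → Prop} {D B l l' : ℕ} {x y z : Vx d} (h1 : DSQ_P H D B l x y)
    (h2 : DSQ_P H D B l' y z) : DSQ_P H D B (l + l') x z := by
  obtain ⟨h, a0, a1, a2, a3⟩ := h1
  obtain ⟨g, b0, b1, b2, b3⟩ := h2
  refine ⟨fun j => if j ≤ l then h j else g (j - l), by simp [a0], ?_, ?_, ?_⟩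
  · show (if l + l' ≤ l then _ else _) = z
    by_cases hl : l' = 0
    · subst hl
      rw [if_pos (by omega), Nat.add_zero, a1, ← b0, b1]
    · rw [if_neg (by omega), Nat.add_sub_cancel_left, b1]
  · intro j hj
    by_cases h1 : j ≤ l
    · simp only [h1, if_true]
      exact a2 j h1
    · simp only [h1, if_false]
      exact b2 _ (by omega)
  · intro j hj
    by_cases h1 : j + 1 ≤ l
    · have h2 : j ≤ l := by omega
      simp only [h1, h2, if_true]
      exact a3 j h1
    · by_cases h2 : j ≤ l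
      · have h3 : j = l := by omega
        subst h3
        simp only [h1, le_refl, if_true, if_false]
        have h4 : j + 1 - j = 0 + 1 := by omega
        rw [h4, a1, ← b0]
        exact b3 0 (by omega)
      · simp only [h1, h2, if_false]
        have h4 : j + 1 - l = (j - l) + 1 := by omega
        rw [h4]
        exact b3 _ (by omega)

theorem DSQ_snoc {H : Vx d → Prop} {D B l : ℕ} {x y u : Vx d} (h1 : DSQ_P H D B l x y)
    (hB : ∀ j, |y j + u j| ≤ (B : ℤ)) (hF : ∃ i, (D : ℤ) ≤ |u i|) (hH : H u) :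
    DSQ_P H D B (l + 1) x (y + u) := by
  have hy : y ∈ bx (0 : Vx d) B := by
    obtain ⟨h, _, a1, a2, _⟩ := h1
    rw [← a1]
    exact a2 l le_rfl
  refine DSQ_trans h1 ⟨fun j => if j = 0 then y else y + u, by simp, by simp, ?_, ?_⟩
  · intro j _
    by_cases hj : j = 0
    · simp only [hj, if_true]
      exact hy
    · simp only [hj, if_false]
      rw [mem_bx]
      intro i
      rw [Pi.add_apply, Pi.zero_apply, sub_zero]
      exact hB i
  · intro j hj
    have h0 : j = 0 := by omega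
    subst h0
    simp only [if_true, Nat.zero_add, one_ne_zero, if_false, add_sub_cancel_left]
    refine ⟨?_, hH⟩
    obtain ⟨i, hi⟩ := hF
    refine ⟨i, ?_⟩
    rw [Pi.add_apply, show y i - (y i + u i) = -(u i) by ring, abs_neg]
    exact hi

/-- All coordinates except the `i`-th one negated. -/
def DSQ_fl (i : Fin d) (v : Vx d) : Vx d := sgp (Equiv.refl _) (fun j => if j = i then 1 else -1) v

theorem DSQ_fl_apply (i : Fin d) (v : Vx d) (j : Fin d) :
    DSQ_fl i v j = if j = i then v j else -v j := by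
  unfold DSQ_fl sgp
  by_cases h : j = i
  · simp [h]
  · simp [h]

/-- One block of four hops. -/
theorem DSQ_block {H : Vx d → Prop} {D n l : ℕ} {x0 x v w : Vx d} {i : Fin d}
    (h : DSQ_P H D (8 * n) l x0 x) (hxi : x i = 0) (hx : ∀ j, |x j| ≤ 3 * (n : ℤ))
    (hv : H v) (hw : H w) (hv' : H (DSQ_fl i v)) (hw' : H (DSQ_fl i w))
    (h2 : ∀ v, H v → ∀ j, |v j| ≤ 2 * (n : ℤ)) (hD : (D : ℤ) ≤ |v i|) (hD' : (D : ℤ) ≤ |w i|) :
    DSQ_P H D (8 * n) (l + 4) x0 (x + Pi.single i (2 * v i + 2 * w i)) := by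
  have hB : ((8 * n : ℕ) : ℤ) = 8 * (n : ℤ) := by push_cast; ring
  have hv2 := h2 v hv
  have hw2 := h2 w hw
  have e1 : DSQ_P H D (8 * n) (l + 1) x0 (x + v) := by
    refine DSQ_snoc h ?_ ⟨i, hD⟩ hv
    intro j
    have a1 := hx j
    have a2 := hv2 j
    rw [abs_le] at *
    omega
  have e2 : DSQ_P H D (8 * n) (l + 1 + 1) x0 (x + v + DSQ_fl i v) := by
    refine DSQ_snoc e1 ?_ ⟨i, ?_⟩ hv'
    · intro j
      rw [Pi.add_apply, DSQ_fl_apply]
      have a1 := hx j
      have a2 := hv2 j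
      by_cases hj : j = i
      · subst hj
        rw [if_pos rfl]
        rw [abs_le] at *
        omega
      · rw [if_neg hj]
        rw [abs_le] at *
        omega
    · rw [DSQ_fl_apply, if_pos rfl]
      exact hD
  have e3 : DSQ_P H D (8 * n) (l + 1 + 1 + 1) x0 (x + v + DSQ_fl i v + w) := by
    refine DSQ_snoc e2 ?_ ⟨i, hD'⟩ hw
    intro j
    rw [Pi.add_apply, Pi.add_apply, DSQ_fl_apply]
    have a1 := hx j
    have a2 := hv2 j
    have a3 := hw2 j
    by_cases hj : j = i
    · subst hj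
      rw [if_pos rfl]
      rw [abs_le] at *
      omega
    · rw [if_neg hj]
      rw [abs_le] at *
      omega
  have e4 : DSQ_P H D (8 * n) (l + 1 + 1 + 1 + 1) x0
      (x + v + DSQ_fl i v + w + DSQ_fl i w) := by
    refine DSQ_snoc e3 ?_ ⟨i, ?_⟩ hw'
    · intro j
      rw [Pi.add_apply, Pi.add_apply, Pi.add_apply, DSQ_fl_apply, DSQ_fl_apply]
      have a1 := hx j
      have a2 := hv2 j
      have a3 := hw2 j
      by_cases hj : j = i
      · subst hj
        rw [if_pos rfl, if_pos rfl]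
        rw [abs_le] at *
        omega
      · rw [if_neg hj, if_neg hj]
        rw [abs_le] at *
        omega
    · rw [DSQ_fl_apply, if_pos rfl]
      exact hD'
  have e5 : x + v + DSQ_fl i v + w + DSQ_fl i w = x + Pi.single i (2 * v i + 2 * w i) := by
    funext j
    rw [Pi.add_apply, Pi.add_apply, Pi.add_apply, Pi.add_apply, Pi.add_apply, DSQ_fl_apply,
      DSQ_fl_apply]
    by_cases hj : j = i
    · subst hj
      rw [if_pos rfl, if_pos rfl, Pi.single_eq_same]
      ring
    · rw [if_neg hj, if_neg hj, Pi.single_eq_of_ne hj]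
      ring
  rw [← e5]
  exact e4

theorem p_DSQ : T_DSQ := by
  intro d n m D H hn hm hS h2 hex y hy
  obtain ⟨i0, ε0, hε0, hv0⟩ := hex
  rw [mem_bx] at hy
  -- a vector for every direction and sign
  have st1 : ∀ (i : Fin d) (ε : ℤ), (ε = 1 ∨ ε = -1) → ∀ s : ℕ, s ≤ 2 * n → ∃ v : Vx d, H v ∧
      H (DSQ_fl i v) ∧ |v i - ε * s| ≤ (m : ℤ) := by
    intro i ε hε s hs
    obtain ⟨v0, hv1, hv2⟩ := hv0 s hs
    have hv3 : H (sgp (Equiv.swap i i0) (fun _ => ε * ε0) v0) := by
      refine hS v0 _ _ (fun _ => ?_) hv1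
      rcases hε with h | h <;> rcases hε0 with h' | h' <;> rw [h, h'] <;> norm_num
    refine ⟨_, hv3, ?_, ?_⟩
    · refine hS _ _ _ (fun j => ?_) hv3
      by_cases hj : j = i
      · left; simp [hj]
      · right; simp [hj]
    · show |ε * ε0 * v0 (Equiv.swap i i0 i) - ε * s| ≤ m
      rw [Equiv.swap_apply_left]
      have h1 : ε * ε0 * v0 i0 - ε * s = ε * ε0 * (v0 i0 - ε0 * s) := by
        rcases hε0 with h' | h' <;> rw [h'] <;> ring
      rw [h1, abs_mul, abs_mul]
      have h3 : |ε| = 1 := by rcases hε with h | h <;> rw [h] <;> norm_num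
      have h4 : |ε0| = 1 := by rcases hε0 with h | h <;> rw [h] <;> norm_num
      rw [h3, h4, one_mul, one_mul]
      exact hv2
  have st2 : ∀ i : Fin d, ∃ v w : Vx d, H v ∧ H w ∧ H (DSQ_fl i v) ∧ H (DSQ_fl i w) ∧
      |2 * v i + 2 * w i - y i| ≤ 4 * (m : ℤ) + 2 ∧ (D : ℤ) ≤ |v i| ∧ (D : ℤ) ≤ |w i| := by
    intro i
    have hyi := hy i
    rw [Pi.zero_apply, sub_zero, abs_le] at hyi
    obtain ⟨s, hs⟩ : ∃ s : ℕ, (s : ℤ) = (y i + 2 * n) / 2 :=
      ⟨((y i + 2 * n) / 2).toNat, Int.toNat_of_nonneg (by omega)⟩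
    obtain ⟨v, v1, v2, v3⟩ := st1 i 1 (Or.inl rfl) s (by omega)
    obtain ⟨w, w1, w2, w3⟩ := st1 i (-1) (Or.inr rfl) n (by omega)
    refine ⟨v, w, v1, w1, v2, w2, ?_, ?_, ?_⟩
    · rw [abs_le] at *
      omega
    · rw [abs_le] at v3
      refine le_trans ?_ (le_abs_self _)
      omega
    · rw [abs_le] at w3
      refine le_trans ?_ (neg_le_abs _)
      omega
  choose v w a1 a2 a3 a4 a5 a6 a7 using st2
  set P : ℕ → Vx d := fun j k => if k.val < j then 2 * v k k + 2 * w k k else 0 with hP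
  have hPb : ∀ j k, |P j k| ≤ 3 * (n : ℤ) := by
    intro j k
    by_cases hk : k.val < j
    · simp only [hP, hk, if_true]
      have b1 := a5 k
      have b2 := hy k
      rw [Pi.zero_apply, sub_zero] at b2
      rw [abs_le] at *
      omega
    · simp only [hP, hk, if_false, abs_zero]
      omega
  have ind : ∀ j : ℕ, j ≤ d → DSQ_P H D (8 * n) (4 * j) 0 (P j) := by
    intro j
    induction j with
    | zero =>
      intro _
      have h0 : P 0 = 0 := by
        funext k
        simp [hP]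
      rw [h0, Nat.mul_zero]
      refine DSQ_zero ?_
      rw [mem_bx]
      intro i
      simp
    | succ j ih =>
      intro hj
      have h1 := ih (by omega)
      set i : Fin d := ⟨j, by omega⟩ with hi
      have h3 : P (j + 1) = P j + Pi.single i (2 * v i i + 2 * w i i) := by
        funext k
        rw [Pi.add_apply]
        by_cases hk : k = i
        · subst hk
          rw [Pi.single_eq_same]
          simp [hP, hi]
        · rw [Pi.single_eq_of_ne hk]
          have hk' : k.val ≠ j := fun h => hk (Fin.ext h)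
          by_cases hk2 : k.val < j
          · have : k.val < j + 1 := by omega
            simp [hP, hk2, this]
          · have : ¬ k.val < j + 1 := by omega
            simp [hP, hk2, this]
      rw [h3]
      refine DSQ_block h1 ?_ (hPb j) (a1 i) (a2 i) (a3 i) (a4 i) h2 (a6 i) (a7 i)
      simp [hP, hi]
  obtain ⟨h, c0, c1, c2, c3⟩ := ind d le_rfl
  refine ⟨h, c0, c2, fun i => ?_, c3⟩
  rw [c1]
  simp only [hP, i.isLt, if_true]
  exact a5 i

end Pool.Agent.FKS
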