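import Pool.Agent.FKS.TargetsD

/-!
# FKS: target EXT
-/

set_option autoImplicit false

namespace Pool.Agent.FKS

open Filter MeasureTheory Pool.Agent.FKP
open Pool.Agent.FKT hiding ind

/-- The index of the tile of a coordinate. -/
def EXT_t (σ : ℕ) (x : ℤ) : ℤ := (x + σ) / (2 * (σ : ℤ) + 1)

theorem EXT_le (σ : ℕ) (x q : ℤ) : q ≤ EXT_t σ x ↔ q * (2 * (σ : ℤ) + 1) ≤ x + σ :=
  Int.le_ediv_iff_mul_le (by positivity)

theorem EXT_lt (σ : ℕ) (x q : ℤ) : EXT_t σ x < q ↔ x + σ < q * (2 * (σ : ℤ) + 1) :=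
  Int.ediv_lt_iff_lt_mul (by positivity)

theorem EXT_mono {σ : ℕ} {x y : ℤ} (h : x ≤ y) : EXT_t σ x ≤ EXT_t σ y := by
  rw [EXT_le]
  have := (EXT_le σ x (EXT_t σ x)).1 le_rfl
  omega

theorem EXT_step {σ : ℕ} {x y : ℤ} (h : y ≤ x + 1) : EXT_t σ y ≤ EXT_t σ x + 1 := by
  have h1 : EXT_t σ y - 1 ≤ EXT_t σ x := by
    rw [EXT_le]
    have h2 := (EXT_le σ y (EXT_t σ y)).1 le_rfl
    have h3 : (EXT_t σ y - 1) * (2 * (σ : ℤ) + 1) =
      EXT_t σ y * (2 * (σ : ℤ) + 1) - (2 * (σ : ℤ) + 1) := by ring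
    rw [h3]
    have : (0 : ℤ) ≤ σ := Int.natCast_nonneg σ
    omega
  omega

/-- The tile of a vertex. -/
def EXT_tau {d : ℕ} (σ : ℕ) (v : Vx d) : Vx d := fun i => EXT_t σ (v i)

theorem EXT_mem_bx {d : ℕ} {x v : Vx d} {n : ℕ} :
    v ∈ bx x n ↔ ∀ i, x i - n ≤ v i ∧ v i ≤ x i + n := by
  unfold bx
  rw [Finset.mem_Icc, Pi.le_def, Pi.le_def]
  exact ⟨fun h i => ⟨h.1 i, h.2 i⟩, fun h => ⟨fun i => (h i).1, fun i => (h i).2⟩⟩

theorem EXT_mem_bx0 {d : ℕ} {v : Vx d} {n : ℕ} :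
    v ∈ bx (0 : Vx d) n ↔ ∀ i, |v i| ≤ n := by
  rw [EXT_mem_bx]
  refine forall_congr' fun i => ?_
  rw [abs_le]
  simp

theorem EXT_til_self {d : ℕ} (σ : ℕ) (v : Vx d) : v ∈ til σ (EXT_tau σ v) := by
  unfold til
  rw [EXT_mem_bx]
  intro i
  unfold ctr EXT_tau
  have h1 := (EXT_le σ (v i) (EXT_t σ (v i))).1 le_rfl
  have h2 := (EXT_lt σ (v i) (EXT_t σ (v i) + 1)).1 (lt_add_one _)
  have h3 : (EXT_t σ (v i) + 1) * (2 * (σ : ℤ) + 1) =
    EXT_t σ (v i) * (2 * (σ : ℤ) + 1) + (2 * (σ : ℤ) + 1) := by ring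
  have h4 : (2 * (σ : ℤ) + 1) * EXT_t σ (v i) = EXT_t σ (v i) * (2 * (σ : ℤ) + 1) := by ring
  rw [h3] at h2
  rw [h4]
  constructor <;> omega

theorem EXT_til_eq {d : ℕ} {σ : ℕ} {v a : Vx d} (h : v ∈ til σ a) : EXT_tau σ v = a := by
  unfold til at h
  rw [EXT_mem_bx] at h
  funext i
  obtain ⟨h1, h2⟩ := h i
  unfold ctr at h1 h2
  unfold EXT_tau
  have h4 : (2 * (σ : ℤ) + 1) * a i = a i * (2 * (σ : ℤ) + 1) := by ring
  rw [h4] at h1 h2
  apply le_antisymm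
  · rw [← Int.lt_add_one_iff, EXT_lt]
    have h3 : (a i + 1) * (2 * (σ : ℤ) + 1) =
      a i * (2 * (σ : ℤ) + 1) + (2 * (σ : ℤ) + 1) := by ring
    rw [h3]
    omega
  · rw [EXT_le]
    omega

theorem EXT_tgt {d : ℕ} (σ : ℕ) (e : Ed d) (i : Fin d) :
    EXT_tau σ e.1 i ≤ EXT_tau σ (tgt e) i ∧ EXT_tau σ (tgt e) i ≤ EXT_tau σ e.1 i + 1 := by
  have h : e.1 i ≤ tgt e i ∧ tgt e i ≤ e.1 i + 1 := by
    unfold tgt
    rw [Pi.add_apply]
    by_cases hi : i = e.2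
    · subst hi
      simp
    · rw [Pi.single_eq_of_ne hi]
      simp
  exact ⟨EXT_mono h.1, EXT_step h.2⟩

/-- a connected pair with exactly one element in `W` gives a crossing edge of the cluster -/
theorem EXT_cross {d : ℕ} {O : Set (Ed d)} {W : Vx d → Prop} {u z : Vx d} (h : Cn O z u)
    (hu : W u) (hz : ¬ W z) : ∃ e ∈ O, Cn O z e.1 ∧ ¬ (W e.1 ↔ W (tgt e)) := by
  by_contra hcon
  push Not at hcon
  have key : ∀ a b, Cn O a b → (Cn O z a → (W a ↔ W b)) := by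
    intro a b hab
    unfold Cn FKT.Con at hab
    induction hab with
    | rel x y hxy =>
      intro hx
      rcases hxy with h | ⟨e, he, h1, h2⟩
      · exact h.elim
      · subst h1
        subst h2
        exact hcon e he hx
    | refl x => exact fun _ => Iff.rfl
    | symm x y hxy ih =>
      intro hy
      have hxy' : Cn O x y := hxy
      exact (ih (Con_trans hy (Con_symm hxy'))).symm
    | trans x y w hxy _ ih1 ih2 =>
      intro hx
      have hxy' : Cn O x y := hxy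
      exact (ih1 hx).trans (ih2 (Con_trans hx hxy'))
  exact hz ((key z u h (Con_refl O z)).2 hu)

theorem EXT_ring {d L σ M s : ℕ} (hL : (2 * σ + 1) * M + σ < L) (hs : s ≤ M)
    {ω : Finset (Ed d)} {z a : Vx d} (hz : z ∈ bd (0 : Vx d) L)
    (ha : ∀ i, |a i| < (s : ℤ)) (hm : Mt L σ ω z a) :
    ∃ (k : Fin d) (ε : Bool), ∃ b ∈ bx (0 : Vx d) M, b k = (if ε then (s : ℤ) else -s) ∧
      Mt L σ ω z b := by
  obtain ⟨u, hu, hzu⟩ := hm
  have hau : EXT_tau σ u = a := EXT_til_eq hu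
  have hW : ∀ i, |EXT_tau σ u i| < (s : ℤ) := by
    rw [hau]
    exact ha
  have hzW : ¬ ∀ i, |EXT_tau σ z i| < (s : ℤ) := by
    intro hcon
    unfold bd at hz
    rw [Finset.mem_filter] at hz
    obtain ⟨-, i, hi⟩ := hz
    have hc := hcon i
    rw [abs_lt] at hc
    unfold EXT_tau at hc
    have hL' : (2 * (σ : ℤ) + 1) * M + σ < L := by exact_mod_cast hL
    have hs' : (s : ℤ) ≤ M := by exact_mod_cast hs
    have hmul : (s : ℤ) * (2 * (σ : ℤ) + 1) ≤ (2 * (σ : ℤ) + 1) * M := by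
      nlinarith [Int.natCast_nonneg σ]
    simp only [Pi.zero_apply, zero_sub, zero_add] at hi
    rcases hi with hi | hi
    · have h1 : -(s : ℤ) ≤ EXT_t σ (z i) := hc.1.le
      rw [EXT_le, hi] at h1
      have h2 : -(s : ℤ) * (2 * (σ : ℤ) + 1) = -((s : ℤ) * (2 * (σ : ℤ) + 1)) := by ring
      rw [h2] at h1
      omega
    · have h1 := (EXT_lt σ (z i) s).1 hc.2
      rw [hi] at h1
      have : (0 : ℤ) ≤ σ := Int.natCast_nonneg σ
      omega
  obtain ⟨e, he, hze, hne⟩ := EXT_cross (W := fun v => ∀ i, |EXT_tau σ v i| < (s : ℤ)) hzu hW hzW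
  have hzt : Cn ((ω ∩ eb (0 : Vx d) L : Finset (Ed d)) : Set (Ed d)) z (tgt e) :=
    Con_trans hze (Con_edge (s := Prod.fst) (t := tgt) he)
  -- the end outside
  have hstep := EXT_tgt σ e
  obtain ⟨v, v', hv, hv', hzv', hd⟩ : ∃ v v' : Vx d, (∀ i, |EXT_tau σ v i| < (s : ℤ)) ∧
      (¬ ∀ i, |EXT_tau σ v' i| < (s : ℤ)) ∧
      Cn ((ω ∩ eb (0 : Vx d) L : Finset (Ed d)) : Set (Ed d)) z v' ∧
      ∀ i, |EXT_tau σ v' i - EXT_tau σ v i| ≤ 1 := by
    by_cases h1 : ∀ i, |EXT_tau σ e.1 i| < (s : ℤ)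
    · refine ⟨e.1, tgt e, h1, fun h2 => hne ⟨fun _ => h2, fun _ => h1⟩, hzt, fun i => ?_⟩
      have := hstep i
      rw [abs_le]
      omega
    · have h2 : ∀ i, |EXT_tau σ (tgt e) i| < (s : ℤ) := by
        by_contra h2
        exact hne ⟨fun h => absurd h h1, fun h => absurd h h2⟩
      refine ⟨tgt e, e.1, h2, h1, hze, fun i => ?_⟩
      have := hstep i
      rw [abs_le]
      omega
  push Not at hv'
  obtain ⟨k, hk⟩ := hv'
  have hk1 := hv k
  have hk2 := hd k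
  rw [abs_lt] at hk1
  rw [abs_le] at hk2
  have hb : EXT_tau σ v' ∈ bx (0 : Vx d) M := by
    rw [EXT_mem_bx0]
    intro i
    have h1 := hv i
    have h2 := hd i
    rw [abs_lt] at h1
    rw [abs_le] at h2 ⊢
    have hs' : (s : ℤ) ≤ M := by exact_mod_cast hs
    constructor <;> omega
  have hMt : Mt L σ ω z (EXT_tau σ v') := ⟨v', EXT_til_self σ v', hzv'⟩
  rcases le_abs.1 hk with h | h
  · exact ⟨k, true, _, hb, by simp only [if_true]; omega, hMt⟩
  · refine ⟨k, false, _, hb, ?_, hMt⟩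
    simp only [Bool.false_eq_true, if_false]
    omega

/-- EXT. -/
theorem p_EXT : T_EXT := by
  classical
  intro d L σ M M' hL hM ω z hz ⟨a, ha, hm⟩
  have hd : Nonempty (Fin d) := by
    unfold bd at hz
    rw [Finset.mem_filter] at hz
    obtain ⟨-, i, -⟩ := hz
    exact ⟨i⟩
  rw [EXT_mem_bx0] at ha
  have key : ∀ s : ℕ, ∃ p : Fin d × Bool, M' < s → s ≤ M →
      ∃ b ∈ bx (0 : Vx d) M, b p.1 = (if p.2 then (s : ℤ) else -s) ∧ Mt L σ ω z b := by
    intro s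
    by_cases hs : M' < s ∧ s ≤ M
    · obtain ⟨k, ε, h⟩ := EXT_ring (s := s) hL hs.2 hz (fun i => by
        have := ha i
        have h2 : (M' : ℤ) < s := by exact_mod_cast hs.1
        omega) hm
      exact ⟨(k, ε), fun _ _ => h⟩
    · exact ⟨(hd.some, true), fun h1 h2 => absurd ⟨h1, h2⟩ hs⟩
  choose f hf using key
  have hne : (Finset.univ : Finset (Fin d × Bool)).Nonempty :=
    ⟨(hd.some, true), Finset.mem_univ _⟩
  obtain ⟨p, -, hp⟩ := Finset.exists_max_image (Finset.univ : Finset (Fin d × Bool))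
    (fun p => ((Finset.Ioc M' M).filter fun s => f s = p).card) hne
  have hcard : (Finset.Ioc M' M).card = ∑ p : Fin d × Bool,
      ((Finset.Ioc M' M).filter fun s => f s = p).card :=
    Finset.card_eq_sum_card_fiberwise fun s _ => Finset.mem_univ _
  have hsum : (Finset.Ioc M' M).card ≤
      2 * d * ((Finset.Ioc M' M).filter fun s => f s = p).card := by
    rw [hcard]
    refine (Finset.sum_le_card_nsmul _ _ _ fun q hq => hp q hq).trans ?_
    simp only [Finset.card_univ, Fintype.card_prod, Fintype.card_fin, Fintype.card_bool,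
      smul_eq_mul]
    rw [Nat.mul_comm d 2]
  rw [Nat.card_Ioc] at hsum
  refine ⟨p.1, ((Finset.Ioc M' M).filter fun s => f s = p).image
    fun s : ℕ => (if p.2 then (s : ℤ) else -s), ?_, ?_⟩
  · rw [Finset.card_image_of_injective]
    · omega
    · intro s s' hss
      by_cases h2 : p.2 = true
      · simp only [h2, if_true] at hss
        exact_mod_cast hss
      · simp only [h2, Bool.false_eq_true, if_false, neg_inj] at hss
        exact_mod_cast hss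
  · intro s hs
    rw [Finset.mem_image] at hs
    obtain ⟨n, hn, rfl⟩ := hs
    rw [Finset.mem_filter, Finset.mem_Ioc] at hn
    obtain ⟨⟨h1, h2⟩, h3⟩ := hn
    obtain ⟨b, hb, hb2, hb3⟩ := hf n h1 h2
    rw [h3] at hb2
    exact ⟨b, hb, hb2, hb3⟩

end Pool.Agent.FKS
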