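import Pool.Agent.FKS.TargetsC

/-!
# Project FKS, target FMA: facts on nested families of local increasing events
-/

set_option autoImplicit false

namespace Pool.Agent.FKS

open Filter MeasureTheory Pool.Agent.FKP
open Pool.Agent.FKT hiding ind

section

variable {d M : ℕ} {A : ℕ → Set (Ed d) → Prop}

theorem FMA_coe_rs (F : Finset (Ed d)) (O : Set (Ed d)) :
    ((rs F O : Finset (Ed d)) : Set (Ed d)) = O ∩ (F : Set (Ed d)) := by
  classical
  ext e
  unfold rs
  simp [and_comm]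

theorem FMA_one (hA : Fam d M A) (ρ : ℕ) (O : Set (Ed d)) :
    A ρ O ↔ A ρ ((rs (eb (0 : Vx d) (M + ρ)) O : Finset (Ed d)) : Set (Ed d)) := by
  rw [FMA_coe_rs]
  exact ⟨hA.loc ρ O, hA.inc ρ _ _ Set.inter_subset_left⟩

theorem FMA_set (hA : Fam d M A) (ρ : ℕ) :
    FEv A ρ = {ω : Ed d → Bool | A ρ ((rs (eb (0 : Vx d) (M + ρ)) (cfg ω) : Finset (Ed d)) :
      Set (Ed d))} := by
  ext ω
  exact FMA_one hA ρ (cfg ω)

theorem FMA_sh0 (ω : Ed d → Bool) : sh (0 : Vx d) ω = ω := by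
  funext e
  unfold sh
  have h : trE (0 : Vx d) e = e := by
    unfold trE
    ext1 <;> simp
  rw [h]

theorem FMA_nest (hA : Fam d M A) (ρ ρ' : ℕ) (h : ρ ≤ ρ') : FEv A ρ ⊆ FEv A ρ' := by
  intro ω hω
  obtain ⟨s, rfl⟩ := Nat.exists_eq_add_of_le h
  refine hA.shf ρ s 0 (fun i => by simp) ω ?_
  rw [FMA_sh0]
  exact hω

/-- The cylinder of all edges open is contained in the event, if it is possible. -/
theorem FMA_full (hA : Fam d M A) (ρ : ℕ) (h : A ρ (eb (0 : Vx d) (M + ρ) : Set (Ed d))) :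
    Cyl (eb (0 : Vx d) (M + ρ)) (eb (0 : Vx d) (M + ρ)) ⊆ FEv A ρ := by
  intro ω hω
  refine hA.inc ρ _ _ ?_ h
  intro e he
  exact (hω e he).2 he

/-- The cylinder of all edges closed does not meet the event, if the event is not trivial. -/
theorem FMA_empty (hA : Fam d M A) (ρ : ℕ) (h : ¬ A ρ ∅) (ω : Ed d → Bool)
    (hω : ω ∈ Cyl (eb (0 : Vx d) (M + ρ)) ∅) : ω ∉ FEv A ρ := by
  intro h2
  apply h
  refine hA.inc ρ _ _ ?_ (hA.loc ρ _ h2)
  rintro e ⟨he, he'⟩
  have := (hω e he').1 he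
  simp at this

end

theorem p_FMA (h1 : FKT.T_LOC) (h2 : FKT.T_MOP) (h3 : FKT.T_MAR) : T_FMA := by
  intro d M A hA
  have hmeas : ∀ ρ, MeasurableSet (FEv A ρ) := fun ρ => by
    rw [FMA_set hA ρ]
    exact (h1 d 0 0 (eb (0 : Vx d) (M + ρ))).2
      fun T : Finset (Ed d) => A ρ (T : Set (Ed d))
  refine ⟨fun ρ ω => FMA_one hA ρ (cfg ω), hmeas, FMA_nest hA, ?_⟩
  intro p p' q hp hpp hp1 hq μ μ' hμ hμ'
  have hmop := fun ρ => h2 d p p' q hp hpp hp1 hq μ μ' hμ hμ' (eb (0 : Vx d) (M + ρ))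
    (fun T : Finset (Ed d) => A ρ (T : Set (Ed d)))
    fun a b hab ha => hA.inc ρ _ _ (Finset.coe_subset.2 hab) ha
  refine ⟨fun ρ => ?_, fun ρ e => ?_, fun ρ => ?_⟩
  · unfold fpr
    rw [FMA_set hA ρ]
    exact (hmop ρ).1
  · rw [FMA_set hA ρ]
    exact (hmop ρ).2 e
  · have := hμ.prob
    have hp1' : p < 1 := lt_of_le_of_lt hpp hp1
    have hden : 0 < p + q * (1 - p) := by nlinarith
    have hc : 0 < min (p / (p + q * (1 - p))) (1 - p) :=
      lt_min (div_pos hp hden) (by linarith)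
    have hpos := (h3 d p q _ hp hp1' hq hc (min_le_left _ _) (min_le_right _ _) μ hμ
      (eb (0 : Vx d) (M + ρ))).2.2.1
    by_cases hF : A ρ (eb (0 : Vx d) (M + ρ) : Set (Ed d))
    · by_cases hE : A ρ ∅
      · refine Or.inr (Or.inl ⟨?_, hE⟩)
        have : FEv A ρ = Set.univ := by
          ext ω
          simp only [Set.mem_univ, iff_true]
          exact hA.inc ρ _ _ (Set.empty_subset _) hE
        unfold fpr
        rw [this]
        exact probReal_univ
      · refine Or.inr (Or.inr ⟨?_, ?_, hE, hF⟩)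
        · exact lt_of_lt_of_le (hpos _ (Finset.Subset.refl _))
            (measureReal_mono (FMA_full hA ρ hF))
        · have h4 : FEv A ρ ⊆ (Cyl (eb (0 : Vx d) (M + ρ)) ∅)ᶜ := fun ω hω hω' =>
            FMA_empty hA ρ hE ω hω' hω
          have h5 : μ.real (FEv A ρ) + μ.real (FEv A ρ)ᶜ = 1 := by
            rw [measureReal_compl (hmeas ρ), probReal_univ]
            ring
          have h6 : μ.real (Cyl (eb (0 : Vx d) (M + ρ)) ∅) ≤ μ.real (FEv A ρ)ᶜ :=
            measureReal_mono (Set.subset_compl_comm.1 h4)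
          have h7 := hpos ∅ (Finset.empty_subset _)
          unfold fpr
          linarith
    · refine Or.inl ⟨?_, hF⟩
      have : FEv A ρ = ∅ := by
        ext ω
        simp only [Set.mem_empty_iff_false, iff_false]
        intro hω
        exact hF (hA.inc ρ _ _ Set.inter_subset_right (hA.loc ρ _ hω))
      unfold fpr
      rw [this]
      simp

end Pool.Agent.FKS
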