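import Pool.Agent.FKS.TargetsC
import Pool.Agent.FKT.P_INT
import Pool.Agent.FKT.P_FKG
import Pool.Agent.FKP.Lem

/-!
# FKS, target FMI: the growth of the log-odds
-/

set_option autoImplicit false

namespace Pool.Agent.FKS

open Filter MeasureTheory Pool.Agent.FKP
open Pool.Agent.FKT hiding ind

theorem FMI_inter {d M : ℕ} {A : ℕ → Set (Ed d) → Prop} (hA : Fam d M A) (ρ : ℕ)
    (ω : Finset (Ed d)) :
    A ρ ((ω ∩ eb (0 : Vx d) (M + ρ) : Finset (Ed d)) : Set (Ed d)) ↔ A ρ (ω : Set (Ed d)) := by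
  constructor
  · intro h
    refine hA.inc ρ _ _ ?_ h
    rw [Finset.coe_inter]
    exact Set.inter_subset_left
  · intro h
    have := hA.loc ρ _ h
    rwa [Finset.coe_inter]

theorem FMI_set {d M : ℕ} {A : ℕ → Set (Ed d) → Prop} (h : T_FMA) (hA : Fam d M A) (ρ : ℕ) :
    {ω : Ed d → Bool | A ρ ((rs (eb (0 : Vx d) (M + ρ)) (cfg ω) : Finset (Ed d)) : Set (Ed d))} =
      FEv A ρ := by
  ext ω
  exact ((h d M A hA).1 ρ ω).symm

theorem FMI_ind_nonneg (P : Prop) : 0 ≤ FKT.ind P := by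
  unfold FKT.ind
  split_ifs <;> norm_num

theorem FMI_phi_pos {d n : ℕ} {x q : ℝ} (h0 : 0 < x) (h1 : x < 1) (hq : 1 ≤ q)
    {P : Finset (Ed d) → Prop} {F : Finset (Ed d)} (hF : F ⊆ eb (0 : Vx d) n) (hP : P F) :
    0 < phi (0 : Vx d) n x q fun ω => FKT.ind (P ω) := by
  unfold phi Ex
  refine div_pos (Finset.sum_pos' (fun ω _ => ?_) ⟨F, Finset.mem_powerset.2 hF, ?_⟩)
    (Z_pos h0 h1 (by linarith))
  · exact mul_nonneg (FKP.wt_pos h0 h1 (by linarith) ω).le (FMI_ind_nonneg _)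
  · have h2 : FKT.ind (P F) = 1 := if_pos hP
    show 0 < _ * FKT.ind (P F)
    rw [h2, mul_one]
    exact FKP.wt_pos h0 h1 (by linarith) F

theorem FMI_phi_lt {d n : ℕ} {x q : ℝ} (h0 : 0 < x) (h1 : x < 1) (hq : 1 ≤ q)
    {P : Finset (Ed d) → Prop} (hP : ¬ P ∅) :
    phi (0 : Vx d) n x q (fun ω => FKT.ind (P ω)) < 1 := by
  unfold phi Ex
  rw [div_lt_one (Z_pos h0 h1 (by linarith))]
  refine Finset.sum_lt_sum (fun ω _ => ?_) ⟨∅, Finset.empty_mem_powerset _, ?_⟩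
  · have h := (FKP.wt_pos (s := Prod.fst) (t := tgt) (R := Wir (0 : Vx d) n) (U := bx 0 n)
      (G := eb (0 : Vx d) n) h0 h1 (show 0 < q by linarith) ω).le
    have h2 : FKT.ind (P ω) ≤ 1 := by
      unfold FKT.ind
      split_ifs <;> norm_num
    exact mul_le_of_le_one_right h h2
  · have h := FKP.wt_pos (s := Prod.fst) (t := tgt) (R := Wir (0 : Vx d) n) (U := bx 0 n)
      (G := eb (0 : Vx d) n) h0 h1 (show 0 < q by linarith) ∅
    have h2 : FKT.ind (P ∅) = 0 := if_neg hP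
    show _ * FKT.ind (P ∅) < _
    rw [h2, mul_zero]
    exact h

theorem FMI_lo_deriv {a : ℝ} (h0 : 0 < a) (h1 : a < 1) : HasDerivAt lo (1 / (a * (1 - a))) a := by
  have h2 : (1 : ℝ) - a ≠ 0 := by linarith
  have h3 : HasDerivAt (fun x : ℝ => 1 - x) (-1) a := by
    simpa using (hasDerivAt_id a).const_sub 1
  have h4 : HasDerivAt (fun x : ℝ => x / (1 - x)) ((1 * (1 - a) - a * -1) / (1 - a) ^ 2) a :=
    (hasDerivAt_id' a).fun_div h3 h2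
  have h6 := h4.log (div_ne_zero h0.ne' h2)
  have h8 : 1 / (a * (1 - a)) = (1 * (1 - a) - a * -1) / (1 - a) ^ 2 / (a / (1 - a)) := by
    field_simp
    ring
  rw [h8]
  exact h6

theorem FMI_lo_mono {a b : ℝ} (h0 : 0 < a) (hab : a ≤ b) (h1 : b < 1) : lo a ≤ lo b := by
  unfold lo
  refine Real.log_le_log (div_pos h0 (by linarith)) ?_
  rw [div_le_div_iff₀ (by linarith) (by linarith)]
  nlinarith

/-- The finite volume probabilities. -/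
noncomputable def FMI_a {d : ℕ} (A : ℕ → Set (Ed d) → Prop) (B : ℕ) (q : ℝ) (N ρ : ℕ) (x : ℝ) :
    ℝ :=
  phi (0 : Vx d) (N + B) x q fun ω => FKT.ind (A ρ (ω : Set (Ed d)))

/-- The finite volume covariances. -/
noncomputable def FMI_c {d : ℕ} (A : ℕ → Set (Ed d) → Prop) (B : ℕ) (q : ℝ) (N ρ : ℕ) (e : Ed d)
    (x : ℝ) : ℝ :=
  phi (0 : Vx d) (N + B) x q (fun ω => FKT.ind (A ρ (ω : Set (Ed d))) * FKT.ind (e ∈ ω)) -
    phi (0 : Vx d) (N + B) x q (fun ω => FKT.ind (A ρ (ω : Set (Ed d)))) *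
      phi (0 : Vx d) (N + B) x q fun ω => FKT.ind (e ∈ ω)

/-- The sums of the log-odds. -/
noncomputable def FMI_f {d : ℕ} (A : ℕ → Set (Ed d) → Prop) (B r : ℕ) (q : ℝ) (N : ℕ) (x : ℝ) :
    ℝ :=
  ∑ ρ ∈ Finset.Ico r (2 * r), lo (FMI_a A B q N ρ x)

/-- The lower bound of the derivative. -/
noncomputable def FMI_G {d : ℕ} (A : ℕ → Set (Ed d) → Prop) (B r : ℕ) (q : ℝ) (N : ℕ) (x : ℝ) :
    ℝ :=
  ∑ ρ ∈ Finset.Ico r (2 * r), (∑ e ∈ eb (0 : Vx d) B, FMI_c A B q N ρ e x) /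
    (FMI_a A B q N ρ x * (1 - FMI_a A B q N ρ x))

theorem FMI_tend1 {d M : ℕ} {A : ℕ → Set (Ed d) → Prop} (hF : T_FMA) (hV : FKT.T_CVL)
    (hA : Fam d M A) {x q : ℝ} {μ : Measure (Ed d → Bool)} (hμ : IsWired d x q μ) (B ρ : ℕ) :
    Tendsto (fun N : ℕ => FMI_a A B q N ρ x) atTop (nhds (fpr μ A ρ)) := by
  have h := (hV d x q μ hμ (eb (0 : Vx d) (M + ρ)) (fun T => A ρ (T : Set (Ed d)))).1
  simp only [FMI_inter hA] at h
  rw [FMI_set hF hA] at h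
  exact (tendsto_add_atTop_iff_nat B).mpr h

theorem FMI_tend2 {d M : ℕ} {A : ℕ → Set (Ed d) → Prop} (hF : T_FMA) (hV : FKT.T_CVL)
    (hA : Fam d M A) {x q : ℝ} {μ : Measure (Ed d → Bool)} (hμ : IsWired d x q μ) (B ρ : ℕ)
    (e : Ed d) :
    Tendsto (fun N : ℕ => FMI_c A B q N ρ e x) atTop (nhds (cv μ (FEv A ρ) e)) := by
  have h := (hV d x q μ hμ (eb (0 : Vx d) (M + ρ)) (fun T => A ρ (T : Set (Ed d)))).2 e
  simp only [FMI_inter hA] at h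
  rw [FMI_set hF hA] at h
  exact (tendsto_add_atTop_iff_nat B).mpr h

theorem FMI_da {d : ℕ} {A : ℕ → Set (Ed d) → Prop} (hD : FKT.T_DER) {B N ρ : ℕ} {x q : ℝ}
    (hq : 1 ≤ q) (h0 : 0 < x) (h1 : x < 1) : DifferentiableAt ℝ (FMI_a A B q N ρ) x :=
  FKT.INT_.dphi hD hq h0 h1 _

theorem FMI_dc {d : ℕ} {A : ℕ → Set (Ed d) → Prop} (hD : FKT.T_DER) {B N ρ : ℕ} {e : Ed d}
    {x q : ℝ} (hq : 1 ≤ q) (h0 : 0 < x) (h1 : x < 1) :
    DifferentiableAt ℝ (FMI_c A B q N ρ e) x :=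
  (FKT.INT_.dphi hD hq h0 h1 _).sub
    ((FKT.INT_.dphi hD hq h0 h1 _).mul (FKT.INT_.dphi hD hq h0 h1 _))

theorem FMI_key {d M : ℕ} {A : ℕ → Set (Ed d) → Prop} (hD : FKT.T_DER) (hA : Fam d M A)
    {B N ρ : ℕ} {x q : ℝ} (hq : 1 ≤ q) (h0 : 0 < x) (h1 : x < 1) :
    0 ≤ ∑ e ∈ eb (0 : Vx d) B, FMI_c A B q N ρ e x ∧
      ∑ e ∈ eb (0 : Vx d) B, FMI_c A B q N ρ e x ≤ deriv (FMI_a A B q N ρ) x := by
  have hsub : eb (0 : Vx d) B ⊆ eb (0 : Vx d) (N + B) := FKT.INT_.eb_mono (by omega)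
  have key := (hD (Vx d) (Ed d) Prod.fst tgt (Wir 0 (N + B))
    (bx 0 (N + B)) (eb 0 (N + B)) q hq (fun e he => FKT.INT_.eb_ends e he)
    (fun ω => FKT.ind (A ρ (ω : Set (Ed d)))) x h0 h1).2
    (fun a b hab => FKT.INT_.ind_mono (hA.inc ρ _ _ (Finset.coe_subset.2 hab)))
  exact ⟨Finset.sum_nonneg fun e he => key.1 e (hsub he), key.2 _ hsub⟩

section

variable {d M : ℕ} {A : ℕ → Set (Ed d) → Prop} {B r : ℕ} {q x : ℝ}

theorem FMI_f_has (hD : FKT.T_DER) (hq : 1 ≤ q) (h0 : 0 < x) (h1 : x < 1) {N : ℕ}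
    (ha : ∀ ρ ∈ Finset.Ico r (2 * r), 0 < FMI_a A B q N ρ x ∧ FMI_a A B q N ρ x < 1) :
    HasDerivAt (FMI_f A B r q N) (∑ ρ ∈ Finset.Ico r (2 * r),
      1 / (FMI_a A B q N ρ x * (1 - FMI_a A B q N ρ x)) * deriv (FMI_a A B q N ρ) x) x := by
  have h : FMI_f A B r q N = fun y => ∑ ρ ∈ Finset.Ico r (2 * r), lo (FMI_a A B q N ρ y) := rfl
  rw [h]
  refine HasDerivAt.fun_sum fun ρ hρ => ?_
  exact (FMI_lo_deriv (ha ρ hρ).1 (ha ρ hρ).2).comp x (FMI_da hD hq h0 h1).hasDerivAt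

theorem FMI_G_cont (hD : FKT.T_DER) (hq : 1 ≤ q) (h0 : 0 < x) (h1 : x < 1) {N : ℕ}
    (ha : ∀ ρ ∈ Finset.Ico r (2 * r), 0 < FMI_a A B q N ρ x ∧ FMI_a A B q N ρ x < 1) :
    ContinuousAt (FMI_G A B r q N) x := by
  have h : FMI_G A B r q N = fun y => ∑ ρ ∈ Finset.Ico r (2 * r),
    (∑ e ∈ eb (0 : Vx d) B, FMI_c A B q N ρ e y) /
      (FMI_a A B q N ρ y * (1 - FMI_a A B q N ρ y)) := rfl
  rw [h]
  refine DifferentiableAt.continuousAt (𝕜 := ℝ) ?_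
  refine DifferentiableAt.fun_sum fun ρ hρ => ?_
  have h2 : FMI_a A B q N ρ x * (1 - FMI_a A B q N ρ x) ≠ 0 :=
    (mul_pos (ha ρ hρ).1 (by linarith [(ha ρ hρ).2])).ne'
  exact (DifferentiableAt.fun_sum fun e _ => FMI_dc hD hq h0 h1).div
    ((FMI_da hD hq h0 h1).mul ((FMI_da hD hq h0 h1).const_sub 1)) h2

theorem FMI_G_bound (hD : FKT.T_DER) (hA : Fam d M A) (hq : 1 ≤ q) (h0 : 0 < x) (h1 : x < 1)
    {N : ℕ} (ha : ∀ ρ ∈ Finset.Ico r (2 * r), 0 < FMI_a A B q N ρ x ∧ FMI_a A B q N ρ x < 1) :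
    0 ≤ FMI_G A B r q N x ∧ FMI_G A B r q N x ≤ deriv (FMI_f A B r q N) x := by
  rw [(FMI_f_has hD hq h0 h1 ha).deriv]
  constructor
  · refine Finset.sum_nonneg fun ρ hρ => div_nonneg (FMI_key hD hA hq h0 h1).1 ?_
    exact (mul_pos (ha ρ hρ).1 (by linarith [(ha ρ hρ).2])).le
  · refine Finset.sum_le_sum fun ρ hρ => ?_
    have h2 : 0 < FMI_a A B q N ρ x * (1 - FMI_a A B q N ρ x) :=
      mul_pos (ha ρ hρ).1 (by linarith [(ha ρ hρ).2])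
    rw [one_div, inv_mul_eq_div]
    exact div_le_div_of_nonneg_right (FMI_key hD hA hq h0 h1).2 h2.le

end

theorem p_FMI (h1 : T_FMA) (h2 : T_FMK) (h3 : FKT.T_PIG) (h4 : FKT.T_ABS) (h5 : FKT.T_DER)
    (h6 : FKT.T_CVL) (h7 : FKT.T_EXI) (_h8 : FKT.T_FKG) : T_FMI := by
  intro d hd q p1 p2 hq hp1 hp12 hp2
  set c : ℝ := min (p1 / (p1 + q * (1 - p1))) (1 - p2) with hc
  have hden : 0 < p1 + q * (1 - p1) := by nlinarith
  have hc0 : 0 < c := lt_min (div_pos hp1 hden) (by linarith)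
  have hc1 : c < 1 := lt_of_le_of_lt (min_le_right _ _) (by linarith)
  set c2 : ℝ := min (c * (1 - c) / 4) (1 / 640) / 8 with hc2
  have hc2pos : 0 < c2 := by
    have h1 : 0 < c * (1 - c) / 4 := by
      have := mul_pos hc0 (sub_pos.mpr hc1)
      linarith
    have h2 : 0 < min (c * (1 - c) / 4) (1 / 640) := lt_min h1 (by norm_num)
    rw [hc2]
    linarith
  refine ⟨c2 / 2 * (p2 - p1), mul_pos (by linarith) (by linarith), ?_⟩
  intro M A hA μ1 μ2 hμ1 hμ2 r hr hr1 hr2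
  obtain ⟨t, ht1, ht2⟩ := FKT.INT_.exists_root r
  have ht : 2 ≤ t := by
    by_contra hcon
    have h8 : (t + 1) ^ 4 ≤ 2 ^ 4 := Nat.pow_le_pow_left (by omega) 4
    omega
  have hs1 : 1 ≤ t ^ 3 := Nat.one_le_pow _ _ (by omega)
  have hs2 : t ^ 3 ≤ r := le_trans (Nat.pow_le_pow_right (by omega) (by omega)) ht1
  have hlog : 0 ≤ Real.log r := Real.log_nonneg (by
    have : (1 : ℝ) ≤ (r : ℝ) := by exact_mod_cast (by omega : 1 ≤ r)
    exact this)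
  have hrpos : (0 : ℝ) < r := by
    have : 0 < r := by omega
    exact_mod_cast this
  obtain ⟨-, hmeas, hmono, hcmp⟩ := h1 d M A hA
  -- monotonicity in the radius
  have hfm : ∀ (μ : Measure (Ed d → Bool)), IsProbabilityMeasure μ → ∀ ρ ρ' : ℕ, ρ ≤ ρ' →
      fpr μ A ρ ≤ fpr μ A ρ' := by
    intro μ hμ ρ ρ' h
    exact measureReal_mono (hmono ρ ρ' h)
  have hP1 := hμ1.prob
  have hP2 := hμ2.prob
  have h12 := (hcmp p1 p2 q hp1 hp12.le hp2 hq μ1 μ2 hμ1 hμ2).1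
  -- the events are nontrivial
  have hnt : ∀ ρ ∈ Finset.Ico r (2 * r + 1),
      ¬ A ρ ∅ ∧ A ρ (eb (0 : Vx d) (M + ρ) : Set (Ed d)) := by
    intro ρ hρ
    rw [Finset.mem_Ico] at hρ
    have ha : 0 < fpr μ2 A ρ := lt_of_lt_of_le hr1 ((hfm μ1 hP1 r ρ hρ.1).trans (h12 ρ))
    have hb : fpr μ2 A ρ < 1 := lt_of_le_of_lt (hfm μ2 hP2 ρ (2 * r) (by omega)) hr2
    rcases (hcmp p2 p2 q (by linarith) le_rfl hp2 hq μ2 μ2 hμ2 hμ2).2.2 ρ with h | h | h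
    · exact absurd h.1 ha.ne'
    · exact absurd h.1 hb.ne
    · exact h.2.2
  have hbd : ∀ (x : ℝ) (μ : Measure (Ed d → Bool)), 0 < x → x < 1 → IsWired d x q μ →
      ∀ ρ ∈ Finset.Ico r (2 * r + 1), 0 < fpr μ A ρ ∧ fpr μ A ρ < 1 := by
    intro x μ hx0 hx1 hμ ρ hρ
    rcases (hcmp x x q hx0 le_rfl hx1 hq μ μ hμ hμ).2.2 ρ with h | h | h
    · exact absurd (hnt ρ hρ).2 h.2
    · exact absurd h.2 (hnt ρ hρ).1
    · exact ⟨h.1, h.2.1⟩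
  set B : ℕ := M + 4 * r with hB
  have hsubI : ∀ ρ ∈ Finset.Ico r (2 * r), ρ ∈ Finset.Ico r (2 * r + 1) := by
    intro ρ hρ
    rw [Finset.mem_Ico] at hρ ⊢
    omega
  -- finite volume bounds
  have hfin : ∀ (N : ℕ) (x : ℝ), 0 < x → x < 1 → ∀ ρ ∈ Finset.Ico r (2 * r),
      0 < FMI_a A B q N ρ x ∧ FMI_a A B q N ρ x < 1 := by
    intro N x hx0 hx1 ρ hρ
    have h := hnt ρ (hsubI ρ hρ)
    have hρ2 := (Finset.mem_Ico.1 hρ).2
    constructor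
    · exact FMI_phi_pos hx0 hx1 hq (P := fun T : Finset (Ed d) => A ρ (T : Set (Ed d)))
        (F := eb (0 : Vx d) (M + ρ)) (FKT.INT_.eb_mono (by omega)) h.2
    · refine FMI_phi_lt hx0 hx1 hq (P := fun T : Finset (Ed d) => A ρ (T : Set (Ed d))) ?_
      rw [Finset.coe_empty]
      exact h.1
  -- the measures in between
  have hex : ∀ x : ℝ, ∃ μ : Measure (Ed d → Bool), 0 < x → x < 1 → IsWired d x q μ := by
    intro x
    by_cases hx : 0 < x ∧ x < 1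
    · obtain ⟨μ, hμ⟩ := h7 d hd x q hx.1 hx.2 hq
      exact ⟨μ, fun _ _ => hμ⟩
    · exact ⟨μ1, fun ha hb => absurd ⟨ha, hb⟩ hx⟩
  choose Φ hΦ using hex
  have hI : ∀ x ∈ Set.Icc p1 p2, 0 < x ∧ x < 1 := fun x hx =>
    ⟨lt_of_lt_of_le hp1 hx.1, lt_of_le_of_lt hx.2 hp2⟩
  set L : ℝ → ℝ := fun x => ∑ ρ ∈ Finset.Ico r (2 * r),
    (∑ e ∈ eb (0 : Vx d) B, cv (Φ x) (FEv A ρ) e) /
      (fpr (Φ x) A ρ * (1 - fpr (Φ x) A ρ)) with hLdef
  have hL : ∀ x ∈ Set.Icc p1 p2, (r : ℝ) / 2 * (c2 * Real.log r) ≤ L x := by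
    intro x hx
    obtain ⟨hx0, hx1⟩ := hI x hx
    have hW := hΦ x hx0 hx1
    have hPx := hW.prob
    have hpig := h3 (fun ρ => fpr (Φ x) A ρ) r (t ^ 3) hs1 hs2
      (fun i j hij _ => hfm (Φ x) hPx i j hij) measureReal_nonneg measureReal_le_one
    have hnn : ∀ ρ ∈ Finset.Ico r (2 * r), 0 ≤ (∑ e ∈ eb (0 : Vx d) B, cv (Φ x) (FEv A ρ) e) /
        (fpr (Φ x) A ρ * (1 - fpr (Φ x) A ρ)) := by
      intro ρ hρ
      have hb := hbd x (Φ x) hx0 hx1 hW ρ (hsubI ρ hρ)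
      refine div_nonneg (Finset.sum_nonneg fun e _ =>
        (hcmp x x q hx0 le_rfl hx1 hq (Φ x) (Φ x) hW hW).2.1 ρ e) ?_
      exact (mul_pos hb.1 (by linarith [hb.2])).le
    have hv2 : 0 ≤ c2 * Real.log r := mul_nonneg hc2pos.le hlog
    have hgood : ∀ ρ ∈ (Finset.Ico r (2 * r)).filter (fun ρ =>
        fpr (Φ x) A (ρ + t ^ 3) - fpr (Φ x) A (ρ - t ^ 3) ≤ 40 * ((t ^ 3 : ℕ) : ℝ) / r),
        c2 * Real.log r ≤ (∑ e ∈ eb (0 : Vx d) B, cv (Φ x) (FEv A ρ) e) /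
          (fpr (Φ x) A ρ * (1 - fpr (Φ x) A ρ)) := by
      intro ρ hρ
      rw [Finset.mem_filter] at hρ
      obtain ⟨hρI, hρ3⟩ := hρ
      have hb := hbd x (Φ x) hx0 hx1 hW ρ (hsubI ρ hρI)
      rw [Finset.mem_Ico] at hρI
      have hcx : c ≤ x / (x + q * (1 - x)) :=
        le_trans (min_le_left _ _) (FKT.INT_.frac_mono hx.1 hx1 hq)
      have hcx' : c ≤ 1 - x := le_trans (min_le_right _ _) (by linarith [hx.2])
      have hkey := h2 d M A hA hd x q c hx0 hx1 hq hc0 hcx hcx' (Φ x) hW ρ r t ht ht1 ht2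
        hρI.1 hρI.2 (by push_cast at hρ3; exact hρ3)
      rw [le_div_iff₀ (mul_pos hb.1 (by linarith [hb.2]))]
      exact hkey
    calc (r : ℝ) / 2 * (c2 * Real.log r)
        ≤ (((Finset.Ico r (2 * r)).filter (fun ρ =>
          fpr (Φ x) A (ρ + t ^ 3) - fpr (Φ x) A (ρ - t ^ 3) ≤
            40 * ((t ^ 3 : ℕ) : ℝ) / r)).card : ℝ) * (c2 * Real.log r) :=
          mul_le_mul_of_nonneg_right hpig hv2
      _ = ∑ ρ ∈ (Finset.Ico r (2 * r)).filter (fun ρ =>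
          fpr (Φ x) A (ρ + t ^ 3) - fpr (Φ x) A (ρ - t ^ 3) ≤ 40 * ((t ^ 3 : ℕ) : ℝ) / r),
          c2 * Real.log r := by rw [Finset.sum_const, nsmul_eq_mul]
      _ ≤ ∑ ρ ∈ (Finset.Ico r (2 * r)).filter (fun ρ =>
          fpr (Φ x) A (ρ + t ^ 3) - fpr (Φ x) A (ρ - t ^ 3) ≤ 40 * ((t ^ 3 : ℕ) : ℝ) / r),
          (∑ e ∈ eb (0 : Vx d) B, cv (Φ x) (FEv A ρ) e) /
            (fpr (Φ x) A ρ * (1 - fpr (Φ x) A ρ)) := Finset.sum_le_sum hgood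
      _ ≤ L x := Finset.sum_le_sum_of_subset_of_nonneg (Finset.filter_subset _ _)
            fun ρ hρ _ => hnn ρ hρ
  have hm : 0 ≤ (r : ℝ) / 2 * (c2 * Real.log r) :=
    mul_nonneg (by linarith) (mul_nonneg hc2pos.le hlog)
  -- limits of the log-odds
  have hlim : ∀ (x : ℝ) (μ : Measure (Ed d → Bool)), 0 < x → x < 1 → IsWired d x q μ →
      Tendsto (fun N => FMI_f A B r q N x) atTop
        (nhds (∑ ρ ∈ Finset.Ico r (2 * r), lo (fpr μ A ρ))) := by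
    intro x μ hx0 hx1 hμ
    refine tendsto_finsetSum _ fun ρ hρ => ?_
    have hb := hbd x μ hx0 hx1 hμ ρ (hsubI ρ hρ)
    exact (FMI_lo_deriv hb.1 hb.2).continuousAt.tendsto.comp (FMI_tend1 h1 h6 hA hμ B ρ)
  have hmain := h4 p1 p2 ((r : ℝ) / 2 * (c2 * Real.log r))
    (∑ ρ ∈ Finset.Ico r (2 * r), lo (fpr μ1 A ρ)) (∑ ρ ∈ Finset.Ico r (2 * r), lo (fpr μ2 A ρ))
    (FMI_f A B r q) (FMI_G A B r q) L hp12.le hm
    (fun N x hx => (FMI_f_has h5 hq (hI x hx).1 (hI x hx).2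
      (hfin N x (hI x hx).1 (hI x hx).2)).differentiableAt)
    (fun N x hx => (FMI_G_cont h5 hq (hI x hx).1 (hI x hx).2
      (hfin N x (hI x hx).1 (hI x hx).2)).continuousWithinAt)
    (fun N x hx => FMI_G_bound h5 hA hq (hI x hx).1 (hI x hx).2
      (hfin N x (hI x hx).1 (hI x hx).2))
    (fun x hx => by
      have hW := hΦ x (hI x hx).1 (hI x hx).2
      refine tendsto_finsetSum _ fun ρ hρ => ?_
      have hb := hbd x (Φ x) (hI x hx).1 (hI x hx).2 hW ρ (hsubI ρ hρ)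
      have ha := FMI_tend1 h1 h6 hA hW B ρ
      exact (tendsto_finsetSum _ fun e _ => FMI_tend2 h1 h6 hA hW B ρ e).div
        (ha.mul (ha.const_sub 1)) (mul_pos hb.1 (by linarith [hb.2])).ne')
    hL (hlim p1 μ1 hp1 (by linarith) hμ1) (hlim p2 μ2 (by linarith) hp2 hμ2)
  have hup : (∑ ρ ∈ Finset.Ico r (2 * r), lo (fpr μ2 A ρ)) -
      ∑ ρ ∈ Finset.Ico r (2 * r), lo (fpr μ1 A ρ) ≤
        (r : ℝ) * (lo (fpr μ2 A (2 * r)) - lo (fpr μ1 A r)) := by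
    rw [← Finset.sum_sub_distrib]
    calc ∑ ρ ∈ Finset.Ico r (2 * r), (lo (fpr μ2 A ρ) - lo (fpr μ1 A ρ))
        ≤ ∑ ρ ∈ Finset.Ico r (2 * r), (lo (fpr μ2 A (2 * r)) - lo (fpr μ1 A r)) := by
          apply Finset.sum_le_sum
          intro ρ hρ
          have hb1 := hbd p1 μ1 hp1 (by linarith) hμ1 ρ (hsubI ρ hρ)
          have hb2 := hbd p2 μ2 (by linarith) hp2 hμ2 ρ (hsubI ρ hρ)
          rw [Finset.mem_Ico] at hρ
          have ha := FMI_lo_mono hb2.1 (hfm μ2 hP2 ρ (2 * r) (by omega)) hr2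
          have hb := FMI_lo_mono hr1 (hfm μ1 hP1 r ρ hρ.1) hb1.2
          linarith
      _ = (r : ℝ) * (lo (fpr μ2 A (2 * r)) - lo (fpr μ1 A r)) := by
          rw [Finset.sum_const, Nat.card_Ico, nsmul_eq_mul]
          congr 2
          omega
  have hfin2 : (r : ℝ) * (c2 / 2 * (p2 - p1) * Real.log r) ≤
      (r : ℝ) * (lo (fpr μ2 A (2 * r)) - lo (fpr μ1 A r)) := by
    calc (r : ℝ) * (c2 / 2 * (p2 - p1) * Real.log r)
        = (r : ℝ) / 2 * (c2 * Real.log r) * (p2 - p1) := by ring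
      _ ≤ _ := le_trans hmain hup
  exact le_of_mul_le_mul_left hfin2 hrpos

end Pool.Agent.FKS
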