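import Pool.Agent.FKS.TargetsC
import Pool.Agent.FKT.P_KEY

/-!
# FKS, FMK: lower bound for the sum of the covariances
-/

set_option autoImplicit false

namespace Pool.Agent.FKS

open Filter MeasureTheory Pool.Agent.FKP
open Pool.Agent.FKT hiding ind

theorem p_FMK (h1 : T_FMA) (h2 : T_FMS) (h3 : FKT.T_FSL) : T_FMK := by
  intro d M A hA hd p q c hp hp1 hq hc hc1 hc2 μ hμ ρ r t ht hr1 hr2 hρ1 hρ2 hdiff
  have := hμ.prob
  obtain ⟨a1, a2, a3, a4⟩ := h1 d M A hA
  obtain ⟨b1, b2, b3⟩ := a4 p p q hp le_rfl hp1 hq μ μ hμ hμ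
  have hcv : ∀ e, 0 ≤ cv μ (FEv A ρ) e := b2 ρ
  have hxA : fpr μ A ρ = μ.real (FEv A ρ) := rfl
  set x : ℝ := fpr μ A ρ with hx
  have hx1 : x ≤ 1 := by rw [hxA]; exact measureReal_le_one
  have hx0' : 0 ≤ x := by rw [hxA]; exact measureReal_nonneg
  set F0 : Finset (Ed d) := eb (0 : Vx d) (M + ρ) with hF0
  set P : Finset (Ed d) → Prop := fun T => A ρ (T : Set (Ed d)) with hP
  have hmono : ∀ a b : Finset (Ed d), a ⊆ b → P a → P b := by
    intro a b hab
    exact hA.inc ρ _ _ (Finset.coe_subset.mpr hab)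
  have hAP : FEv A ρ = {ω | P (rs F0 (cfg ω))} := by
    ext ω
    exact a1 ρ ω
  set m : ℝ := min (c * (1 - c) / 4) (1 / 640) with hm
  rcases hx0'.eq_or_lt with hx00 | hx0
  · rw [← hx00]
    simp only [zero_mul, mul_zero]
    exact Finset.sum_nonneg fun e _ => hcv e
  have ht0 : (2 : ℝ) ≤ t := by exact_mod_cast ht
  have htp : (0 : ℝ) < t := by linarith
  have hlogr := KEY_.log_r ht hr1 hr2
  have hlogt : 0 ≤ Real.log t := Real.log_nonneg (by linarith)
  have hcc1 : c < 1 := by linarith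
  have hm0 : 0 ≤ m := by
    rw [hm]
    refine le_min ?_ (by norm_num)
    have : 0 ≤ c * (1 - c) := mul_nonneg hc.le (by linarith)
    linarith
  have hm1 : m ≤ 1 / 640 := min_le_right _ _
  have h1x : 0 ≤ 1 - x := by linarith
  have hxx : 0 ≤ x * (1 - x) := mul_nonneg hx0.le h1x
  -- reduction of the left side
  have hleft : m / 8 * Real.log r * (x * (1 - x)) ≤ m * Real.log t * (x * (1 - x)) := by
    calc m / 8 * Real.log r * (x * (1 - x)) ≤ m / 8 * (8 * Real.log t) * (x * (1 - x)) := by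
          gcongr
      _ = m * Real.log t * (x * (1 - x)) := by ring
  by_cases hcase : ∀ e ∈ F0, cv μ (FEv A ρ) e ≤ 80 / t
  · -- case A
    have hsub : F0 ⊆ eb (0 : Vx d) (M + 4 * r) := KEY_.eb_mono (by omega)
    have hSS : ∑ e ∈ F0, cv μ (FEv A ρ) e ≤ ∑ e ∈ eb (0 : Vx d) (M + 4 * r),
        cv μ (FEv A ρ) e :=
      Finset.sum_le_sum_of_subset_of_nonneg hsub (fun e _ _ => hcv e)
    obtain ⟨f1, f2⟩ := h3 d p q c hp hp1 hq hc hc1 hc2 μ hμ F0 P hmono (FEv A ρ) hAP
    rw [← hxA] at f1 f2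
    have hQ : 4 * ∑ e ∈ F0, cv μ (FEv A ρ) e ^ 2 ≤ 320 * (∑ e ∈ F0, cv μ (FEv A ρ) e) / t := by
      have h1 : ∑ e ∈ F0, cv μ (FEv A ρ) e ^ 2 ≤ ∑ e ∈ F0, 80 / t * cv μ (FEv A ρ) e := by
        refine Finset.sum_le_sum fun e he => ?_
        rw [sq]
        exact mul_le_mul_of_nonneg_right (hcase e he) (hcv e)
      rw [← Finset.mul_sum] at h1
      calc 4 * ∑ e ∈ F0, cv μ (FEv A ρ) e ^ 2 ≤ 4 * (80 / t * ∑ e ∈ F0, cv μ (FEv A ρ) e) := by
            gcongr
        _ = 320 * (∑ e ∈ F0, cv μ (FEv A ρ) e) / t := by ring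
    have hQ0 : 0 ≤ ∑ e ∈ F0, cv μ (FEv A ρ) e ^ 2 := Finset.sum_nonneg fun e _ => sq_nonneg _
    have hQS : ∑ e ∈ F0, cv μ (FEv A ρ) e ^ 2 = 0 → ∑ e ∈ F0, cv μ (FEv A ρ) e = 0 := by
      intro h
      have h1 := (Finset.sum_eq_zero_iff_of_nonneg (fun e _ => sq_nonneg _)).mp h
      exact Finset.sum_eq_zero fun e he => by
        simpa using h1 e he
    have hA' := KEY_.caseA ht0 hx1 hx0 hc hcc1 hQ hQ0 hQS f1 f2
    exact hleft.trans (hA'.trans hSS)
  · -- case B
    push Not at hcase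
    obtain ⟨e, he, hbig⟩ := hcase
    set s : ℕ := t ^ 3 with hs
    have hst : s ≤ t ^ 4 := Nat.pow_le_pow_right (by omega) (by omega)
    have hsr : s ≤ r := hst.trans hr1
    set i : Fin d := ⟨0, hd⟩
    have hr0 : (0 : ℝ) < r := by
      have : 0 < r := lt_of_lt_of_le (by positivity) hr1
      exact_mod_cast this
    have hsr2 : 40 * (t : ℝ) ^ 3 / r ≤ 40 / t := by
      rw [div_le_div_iff₀ hr0 htp]
      have : (t : ℝ) ^ 4 ≤ r := by exact_mod_cast hr1
      nlinarith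
    have hlow : ∀ j ∈ Finset.range (s + 1), 40 / (t : ℝ) ≤
        cv μ (FEv A ρ) (trE (Pi.single i (j : ℤ)) e) := by
      intro j hj
      have hj' : j ≤ s := Nat.lt_succ_iff.mp (Finset.mem_range.mp hj)
      have h1 := h2 d M A hA hd p q hp hp1 hq μ hμ ρ s j i e hj' (by omega)
      have h2 := (abs_le.mp (h1.trans hdiff)).1
      have h3 : (80 : ℝ) / t = 40 / t + 40 / t := by ring
      linarith
    have hinj : Set.InjOn (fun j : ℕ => trE (Pi.single i (j : ℤ)) e)
        (Finset.range (s + 1) : Set ℕ) := by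
      intro j _ j' _ h
      have h1 : e.1 + Pi.single i (j : ℤ) = e.1 + Pi.single i (j' : ℤ) := congrArg Prod.fst h
      have h2 := add_left_cancel h1
      have h3 := congrFun h2 i
      rw [Pi.single_eq_same, Pi.single_eq_same] at h3
      exact_mod_cast h3
    have himg : (Finset.range (s + 1)).image (fun j : ℕ => trE (Pi.single i (j : ℤ)) e) ⊆
        eb (0 : Vx d) (M + 4 * r) := by
      intro e' he'
      rw [Finset.mem_image] at he'
      obtain ⟨j, hj, rfl⟩ := he'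
      have hj' : j ≤ s := Nat.lt_succ_iff.mp (Finset.mem_range.mp hj)
      exact KEY_.eb_trans i he (by omega)
    have hS : ((s : ℝ) + 1) * (40 / t) ≤
        ∑ e ∈ eb (0 : Vx d) (M + 4 * r), cv μ (FEv A ρ) e := by
      calc ((s : ℝ) + 1) * (40 / t) = ∑ _j ∈ Finset.range (s + 1), 40 / (t : ℝ) := by
            rw [Finset.sum_const, Finset.card_range, nsmul_eq_mul]
            push_cast
            ring
        _ ≤ ∑ j ∈ Finset.range (s + 1), cv μ (FEv A ρ) (trE (Pi.single i (j : ℤ)) e) :=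
            Finset.sum_le_sum hlow
        _ = ∑ e' ∈ (Finset.range (s + 1)).image
            (fun j : ℕ => trE (Pi.single i (j : ℤ)) e), cv μ (FEv A ρ) e' := by
            rw [Finset.sum_image hinj]
        _ ≤ _ := Finset.sum_le_sum_of_subset_of_nonneg himg (fun e _ _ => hcv e)
    refine hleft.trans (le_trans ?_ hS)
    have h1 : x * (1 - x) ≤ 1 := by nlinarith
    have h3 : Real.log t ≤ t := by
      have := Real.log_le_sub_one_of_pos htp
      linarith
    have h4 : m * Real.log t * (x * (1 - x)) ≤ (1 / 640) * t * 1 := by gcongr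
    have h5 : (40 : ℝ) * t ^ 2 ≤ ((s : ℝ) + 1) * (40 / t) := by
      have h6 : (s : ℝ) = (t : ℝ) ^ 3 := by rw [hs]; push_cast; ring
      rw [h6, ← mul_div_assoc, le_div_iff₀ htp]
      nlinarith
    nlinarith

end Pool.Agent.FKS
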