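import Pool.Agent.FKS.TargetsC
import Pool.Agent.FKT.P_SHC

/-!
# Project FKS, target FMS: covariances with the translates of an edge
-/

set_option autoImplicit false

namespace Pool.Agent.FKS

open Filter MeasureTheory Pool.Agent.FKP
open Pool.Agent.FKT hiding ind

theorem FMS_sh {d : ℕ} (y : Vx d) (ω : Ed d → Bool) : sh y (sh (-y) ω) = ω := by
  funext e
  have h : trE (-y) (trE y e) = e := by
    ext1
    · simp [trE]
    · rfl
  change ω (trE (-y) (trE y e)) = ω e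
  rw [h]

theorem FMS_sh' {d : ℕ} (y : Vx d) (ω : Ed d → Bool) : sh (-y) (sh y ω) = ω := by
  have h := FMS_sh (-y) ω
  rwa [neg_neg] at h

theorem p_FMS (h1 : FKT.T_INV) (h2 : T_FMA) : T_FMS := by
  intro d M A hA hd p q hp0 hp1 hq μ hμ ρ s j i e hjs hsρ
  have := hμ.prob
  obtain ⟨-, hm, hmono, -⟩ := h2 d M A hA
  set y : Vx d := Pi.single i (j : ℤ) with hy
  have hyk : ∀ k, |y k| ≤ (s : ℤ) := by
    intro k
    rw [hy]
    by_cases hk : k = i
    · subst hk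
      rw [Pi.single_eq_same, abs_of_nonneg (by positivity)]
      exact_mod_cast hjs
    · rw [Pi.single_eq_of_ne hk]
      simp
  have hyk' : ∀ k, |(-y) k| ≤ (s : ℤ) := by
    intro k
    rw [Pi.neg_apply, abs_neg]
    exact hyk k
  have hB : MeasurableSet (sh (-y) ⁻¹' (FEv A ρ) : Set (Ed d → Bool)) :=
    (FKT.SHC_.shmeas (-y)) (hm ρ)
  have e1 : FEv A ρ = sh y ⁻¹' (sh (-y) ⁻¹' (FEv A ρ)) := by
    ext ω
    simp only [Set.mem_preimage, FMS_sh']
  have e2 : cv μ (FEv A ρ) (trE y e) = cv μ (sh (-y) ⁻¹' (FEv A ρ)) e := by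
    conv_lhs => rw [e1]
    exact FKT.SHC_.cvsh μ y (h1 d hd p q hp0 hp1 hq μ hμ y) _ hB e
  rw [e2]
  refine FKT.SHC_.cvdif μ (FEv A ρ) _ (FEv A (ρ - s)) (FEv A (ρ + s)) e (hmono _ _ (by omega))
    ?_ (hmono _ _ (by omega)) ?_
  · intro ω hω
    have h3 : A (ρ - s) (cfg (sh y (sh (-y) ω))) := by
      rw [FMS_sh]
      exact hω
    have h4 := hA.shf (ρ - s) s y hyk (sh (-y) ω) h3
    rw [Nat.sub_add_cancel hsρ] at h4
    exact h4
  · intro ω hω
    exact hA.shf ρ s (-y) hyk' ω hω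

end Pool.Agent.FKS
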