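import Pool.Agent.FKS.TargetsD

set_option autoImplicit false

namespace Pool.Agent.FKS

open Filter MeasureTheory Pool.Agent.FKP
open Pool.Agent.FKT hiding ind

section aux

variable {d : ℕ}

theorem GLI_mem (x : Vx d) (n : ℕ) (v : Vx d) :
    v ∈ bx x n ↔ ∀ i, x i - n ≤ v i ∧ v i ≤ x i + n := by
  unfold FKT.bx
  rw [Finset.mem_Icc, Pi.le_def, Pi.le_def]
  exact ⟨fun h i => ⟨h.1 i, h.2 i⟩, fun h => ⟨fun i => (h i).1, fun i => (h i).2⟩⟩

/-- A set closed under the open edges is closed under connection. -/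
theorem GLI_ind {O : Finset (Ed d)} {P : Vx d → Prop} (h : ∀ e ∈ O, (P e.1 ↔ P (tgt e)))
    {a b : Vx d} (hab : Cf O a b) : P a ↔ P b := by
  unfold FKP.Cf FKT.Cn FKT.Con at hab
  induction hab with
  | rel x y hxy =>
    rcases hxy with h1 | ⟨e, he, h1, h2⟩
    · exact absurd h1 (fun h => h)
    · have h3 := h e (by exact_mod_cast he)
      rw [h1, h2] at h3
      exact h3
  | refl x => exact Iff.rfl
  | symm x y _ ih => exact ih.symm
  | trans x y z _ _ ih1 ih2 => exact ih1.trans ih2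

theorem GLI_mono {O O' : Finset (Ed d)} (h : O ⊆ O') {a b : Vx d} (hab : Cf O a b) :
    Cf O' a b := by
  unfold FKP.Cf FKT.Cn at hab ⊢
  exact Con_mono (fun _ _ h => h) (by exact_mod_cast h) hab

theorem GLI_symm {O : Finset (Ed d)} {a b : Vx d} (hab : Cf O a b) : Cf O b a :=
  Con_symm hab

theorem GLI_trans {O : Finset (Ed d)} {a b c : Vx d} (hab : Cf O a b) (hbc : Cf O b c) :
    Cf O a c := Con_trans hab hbc

theorem GLI_edge {O : Finset (Ed d)} {e : Ed d} (he : e ∈ O) : Cf O e.1 (tgt e) := by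
  unfold FKP.Cf FKT.Cn
  exact Con_edge (s := Prod.fst) (t := tgt) (R := no (Vx d)) (O := (O : Set (Ed d)))
    (by exact_mod_cast he)

theorem GLI_eb (x y : Vx d) (m n : ℕ) (h : bx x m ⊆ bx y n) : eb x m ⊆ eb y n := by
  rw [← es_bx, ← es_bx]
  exact es_mono h

theorem GLI_tgt (e : Ed d) (i : Fin d) : e.1 i ≤ tgt e i ∧ tgt e i ≤ e.1 i + 1 := by
  unfold FKT.tgt
  rw [Pi.add_apply]
  by_cases hi : i = e.2
  · subst hi
    rw [Pi.single_eq_same]
    omega
  · rw [Pi.single_eq_of_ne hi]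
    omega

/-- The piece of the cluster of `u`. -/
theorem GLI_set (L σ M : ℕ) (hσ : 1 ≤ σ) (hL : (2 * σ + 1) * M + 6 * σ ≤ L)
    (ω : Finset (Ed d)) (c : Vx d)
    (hc : ∀ i, -(((2 * σ + 1) * M : ℕ) : ℤ) ≤ c i ∧ c i ≤ (((2 * σ + 1) * M : ℕ) : ℤ))
    (u : Vx d) (hu : u ∈ bx c (3 * σ + 1))
    (hz : ∃ z ∈ bd (0 : Vx d) L, Cf (ω ∩ eb (0 : Vx d) L) z u) :
    ∃ K ⊆ bx c (6 * σ), Lcd σ K ∧ ∀ x ∈ K, Cf (ω ∩ eb (0 : Vx d) L) u x := by
  classical
  obtain ⟨z, hz, hzu⟩ := hz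
  have hu' := (GLI_mem _ _ _).1 hu
  have huB : u ∈ bx c (6 * σ) := by
    rw [GLI_mem]
    intro i
    have := hu' i
    push_cast at this ⊢
    omega
  have hsub : eb c (6 * σ) ⊆ eb (0 : Vx d) L := by
    apply GLI_eb
    intro v hv
    rw [GLI_mem] at hv ⊢
    intro i
    have h1 := hv i
    have h2 := hc i
    have h3 : (((2 * σ + 1) * M + 6 * σ : ℕ) : ℤ) ≤ (L : ℤ) := by exact_mod_cast hL
    simp only [Pi.zero_apply]
    rw [Nat.cast_add] at h3
    omega
  let K : Finset (Vx d) := (bx c (6 * σ)).filter fun v => Cf (ω ∩ eb c (6 * σ)) u v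
  have hK : ∀ v, v ∈ K ↔ v ∈ bx c (6 * σ) ∧ Cf (ω ∩ eb c (6 * σ)) u v := by
    intro v
    exact Finset.mem_filter
  have huK : u ∈ K := (hK u).2 ⟨huB, Con_refl _ _⟩
  have hstep : ∀ e ∈ ω ∩ eb c (6 * σ), (e.1 ∈ K ↔ tgt e ∈ K) := by
    intro e he
    have he2 := (Finset.mem_inter.1 he).2
    rw [← es_bx, mem_es] at he2
    rw [hK, hK]
    constructor
    · rintro ⟨_, h2⟩
      exact ⟨he2.2, GLI_trans h2 (GLI_edge he)⟩
    · rintro ⟨_, h2⟩
      exact ⟨he2.1, GLI_trans h2 (GLI_symm (GLI_edge he))⟩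
  have hin : ∀ v, Cf (es K) u v → v ∈ K := by
    intro v hv
    have := GLI_ind (P := fun v => v ∈ K) (O := es K) (fun e he => by
      rw [mem_es] at he
      exact ⟨fun _ => he.2, fun _ => he.1⟩) hv
    exact this.1 huK
  have hcon : ∀ v ∈ K, Cf (es K) u v := by
    intro v hv
    have h1 := ((hK v).1 hv).2
    have := GLI_ind (P := fun v => Cf (es K) u v) (fun e he => by
      have hs := hstep e he
      constructor
      · intro h
        have h2 := hin _ h
        exact GLI_trans h (GLI_edge (mem_es.2 ⟨h2, hs.1 h2⟩))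
      · intro h
        have h2 := hin _ h
        exact GLI_trans h (GLI_symm (GLI_edge (mem_es.2 ⟨hs.2 h2, h2⟩)))) h1
    exact this.1 (Con_refl _ _)
  have hfar : ∃ k ∈ K, ∃ i, ((6 * σ : ℕ) : ℤ) ≤ |k i - c i| := by
    by_contra hcon'
    push Not at hcon'
    have hcl : ∀ e ∈ ω ∩ eb (0 : Vx d) L, (e.1 ∈ K ↔ tgt e ∈ K) := by
      intro e he
      have heω := (Finset.mem_inter.1 he).1
      constructor
      · intro h
        apply (hstep e _).1 h
        rw [Finset.mem_inter, ← es_bx, mem_es]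
        refine ⟨heω, ((hK _).1 h).1, ?_⟩
        rw [GLI_mem]
        intro i
        have h1 := hcon' _ h i
        have h2 := GLI_tgt e i
        rw [abs_lt] at h1
        omega
      · intro h
        apply (hstep e _).2 h
        rw [Finset.mem_inter, ← es_bx, mem_es]
        refine ⟨heω, ?_, ((hK _).1 h).1⟩
        rw [GLI_mem]
        intro i
        have h1 := hcon' _ h i
        have h2 := GLI_tgt e i
        rw [abs_lt] at h1
        omega
    have hzK : z ∈ K := (GLI_ind (P := fun v => v ∈ K) hcl hzu).2 huK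
    unfold FKT.bd at hz
    obtain ⟨_, i, hi⟩ := Finset.mem_filter.1 hz
    have h1 := hcon' _ hzK i
    have h2 := hc i
    have h3 : (((2 * σ + 1) * M + 6 * σ : ℕ) : ℤ) ≤ (L : ℤ) := by exact_mod_cast hL
    rw [Nat.cast_add] at h3
    simp only [Pi.zero_apply] at hi
    rw [abs_lt] at h1
    omega
  obtain ⟨k, hk, i, hi⟩ := hfar
  refine ⟨K, Finset.filter_subset _ _, ⟨?_, ?_⟩, ?_⟩
  · intro x hx y hy
    exact GLI_trans (GLI_symm (hcon x hx)) (hcon y hy)
  · refine ⟨u, huK, k, hk, i, ?_⟩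
    have h1 := hu' i
    push_cast at h1 hi
    rcases le_total 0 (k i - c i) with h | h
    · rw [abs_of_nonneg h] at hi
      rw [abs_of_nonpos (by omega)]
      omega
    · rw [abs_of_nonpos h] at hi
      rw [abs_of_nonneg (by omega)]
      omega
  · intro x hx
    exact GLI_mono (Finset.inter_subset_inter_left hsub) ((hK x).1 hx).2

end aux

theorem p_GLI : T_GLI := by
  intro d L σ R Ψ M hσ hL hR ω hGl a ha u hu v hv hzu hzv
  have ha' := (GLI_mem _ _ _).1 ha
  have hc : ∀ i, -(((2 * σ + 1) * M : ℕ) : ℤ) ≤ ctr σ a i ∧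
      ctr σ a i ≤ (((2 * σ + 1) * M : ℕ) : ℤ) := by
    intro i
    have h1 := ha' i
    simp only [Pi.zero_apply] at h1
    have h2 : (0 : ℤ) ≤ 2 * (σ : ℤ) + 1 := by positivity
    have h3 : ctr σ a i = (2 * (σ : ℤ) + 1) * a i := rfl
    rw [h3]
    push_cast
    constructor
    · have := mul_le_mul_of_nonneg_left h1.1 h2
      linarith
    · have := mul_le_mul_of_nonneg_left h1.2 h2
      linarith
  obtain ⟨K, hKs, hKl, hKc⟩ := GLI_set L σ M hσ hL ω (ctr σ a) hc u hu hzu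
  obtain ⟨C, hCs, hCl, hCc⟩ := GLI_set L σ M hσ hL ω (ctr σ a) hc v hv hzv
  obtain ⟨x, hx, y, hy, T, hT, hTc, hxy⟩ := hGl a ha K C hKs hCs hKl hCl
  have hsub : eb (ctr σ a) R ⊆ eb (0 : Vx d) L := by
    apply GLI_eb
    intro w hw
    rw [GLI_mem] at hw ⊢
    intro i
    have h1 := hw i
    have h2 := hc i
    have h3 : (((2 * σ + 1) * M + R : ℕ) : ℤ) ≤ (L : ℤ) := by exact_mod_cast hR
    simp only [Pi.zero_apply]
    rw [Nat.cast_add] at h3
    omega
  refine ⟨T, hT, hTc, ?_⟩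
  have h1 : Cf ((ω ∩ eb (0 : Vx d) L) ∪ T) u x := GLI_mono Finset.subset_union_left (hKc x hx)
  have h2 : Cf ((ω ∩ eb (0 : Vx d) L) ∪ T) x y :=
    GLI_mono (Finset.union_subset_union_left (Finset.inter_subset_inter_left hsub)) hxy
  have h3 : Cf ((ω ∩ eb (0 : Vx d) L) ∪ T) v y := GLI_mono Finset.subset_union_left (hCc y hy)
  exact GLI_trans (GLI_trans h1 h2) (GLI_symm h3)

end Pool.Agent.FKS
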