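import Pool.Agent.FKS.TargetsD

/-!
# Project FKS, target GLP
-/

set_option autoImplicit false

namespace Pool.Agent.FKS

open Filter MeasureTheory Pool.Agent.FKP
open Pool.Agent.FKT hiding ind

theorem GLP_card {d : ℕ} (M : ℕ) : ((bx (0 : Vx d) M).card : ℝ) = (2 * (M : ℝ) + 1) ^ d := by
  unfold bx
  rw [Pi.card_Icc]
  simp only [Pi.zero_apply, Int.card_Icc, Finset.prod_const, Finset.card_univ, Fintype.card_fin]
  have : (0 + (M : ℤ) + 1 - (0 - (M : ℤ))).toNat = 2 * M + 1 := by omega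
  rw [this]
  push_cast
  ring

theorem GLP_inc {d : ℕ} (x : Vx d) (ρ r R k : ℕ) : Inc (Gl x ρ r R k) := by
  intro a b hab h K C hK hC hLK hLC
  obtain ⟨u, hu, v, hv, T, hT, hTc, hc⟩ := h K C hK hC hLK hLC
  refine ⟨u, hu, v, hv, T, hT, hTc, ?_⟩
  refine Con_mono (fun _ _ h => h) ?_ hc
  intro e he
  simp only [Finset.coe_union, Finset.coe_inter, Set.mem_union, Set.mem_inter_iff,
    Finset.mem_coe] at he ⊢
  rcases he with he | he
  · exact Or.inl ⟨hab he.1, he.2⟩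
  · exact Or.inr he

theorem GLP_sub {d L σ M N N' : ℕ} (h1 : (2 * σ + 1) * M + 6 * σ ≤ L) (h2 : N' + L ≤ N)
    {a : Vx d} (ha : a ∈ bx (0 : Vx d) M) : bx (ctr σ a) N' ⊆ bx (0 : Vx d) N := by
  intro v hv
  unfold bx at ha hv ⊢
  rw [Finset.mem_Icc, Pi.le_def, Pi.le_def] at ha hv ⊢
  have key : ∀ i, |ctr σ a i| ≤ (2 * (σ : ℤ) + 1) * M := by
    intro i
    have e1 := ha.1 i
    have e2 := ha.2 i
    simp only [Pi.zero_apply] at e1 e2
    unfold ctr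
    rw [abs_mul, abs_of_nonneg (by positivity : (0 : ℤ) ≤ 2 * (σ : ℤ) + 1)]
    apply mul_le_mul_of_nonneg_left _ (by positivity)
    rw [abs_le]
    constructor <;> linarith
  have h1' : (2 * (σ : ℤ) + 1) * M + 6 * σ ≤ L := by exact_mod_cast h1
  have h2' : (N' : ℤ) + L ≤ N := by exact_mod_cast h2
  have h3 : (0 : ℤ) ≤ σ := Int.natCast_nonneg σ
  constructor
  · intro i
    have k := (abs_le.mp (key i)).1
    have e1 := hv.1 i
    simp only [Pi.zero_apply] at e1 ⊢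
    linarith
  · intro i
    have k := (abs_le.mp (key i)).2
    have e1 := hv.2 i
    simp only [Pi.zero_apply] at e1 ⊢
    linarith

theorem p_GLP (h1 : T_GLI) (h2 : T_DPM) (h3 : T_TRP) (h4 : T_GLT) : T_GLP := by
  intro d L σ R Ψ M N N' p q hp hp1 hq hσ hL1 hL2 hN
  have hq0 : 0 < q := by linarith
  have s1 : P0 (0 : Vx d) N p q (fun ω => ¬ Glu L σ R Ψ M ω) ≤
      fr (bx (0 : Vx d) N) p q (fun ω => ∑ a ∈ bx (0 : Vx d) M,
        ind (¬ Gl (ctr σ a) (6 * σ) σ R Ψ ω)) := by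
    unfold P0 fr fw
    refine Ex_mono hp hp1 hq0 ?_
    intro ω _
    by_cases hG : Glu L σ R Ψ M ω
    · rw [ind_false (not_not.mpr hG)]
      exact Finset.sum_nonneg fun a _ => ind_nonneg _
    · have : ∃ a ∈ bx (0 : Vx d) M, ¬ Gl (ctr σ a) (6 * σ) σ R Ψ ω := by
        by_contra hcon
        push Not at hcon
        exact hG (h1 d L σ R Ψ M hσ hL1 hL2 ω hcon)
      obtain ⟨a, ha, hna⟩ := this
      calc ind (¬ Glu L σ R Ψ M ω) ≤ 1 := ind_le_one _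
        _ = ind (¬ Gl (ctr σ a) (6 * σ) σ R Ψ ω) := (ind_true hna).symm
        _ ≤ _ := Finset.single_le_sum (f := fun a => ind (¬ Gl (ctr σ a) (6 * σ) σ R Ψ ω))
            (fun b _ => ind_nonneg _) ha
  have s2 : fr (bx (0 : Vx d) N) p q (fun ω => ∑ a ∈ bx (0 : Vx d) M,
        ind (¬ Gl (ctr σ a) (6 * σ) σ R Ψ ω)) = ∑ a ∈ bx (0 : Vx d) M,
        fr (bx (0 : Vx d) N) p q (fun ω => ind (¬ Gl (ctr σ a) (6 * σ) σ R Ψ ω)) := by
    unfold fr fw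
    exact Ex_sum _ _
  have s3 : ∀ a ∈ bx (0 : Vx d) M,
      fr (bx (0 : Vx d) N) p q (fun ω => ind (¬ Gl (ctr σ a) (6 * σ) σ R Ψ ω)) ≤
        P0 (0 : Vx d) N' p q fun ω => ¬ Gl 0 (6 * σ) σ R Ψ ω := by
    intro a ha
    have k1 := h2 d (bx (0 : Vx d) N) (ctr σ a) N' p q hp hp1 hq (GLP_sub hL1 hN ha)
      (Gl (ctr σ a) (6 * σ) σ R Ψ) (GLP_inc _ _ _ _ _)
    have k2 := h3 d (ctr σ a) N' p q (fun ω => ¬ Gl (ctr σ a) (6 * σ) σ R Ψ ω)
    have k3 : (fun ω : Finset (Ed d) => ¬ Gl (ctr σ a) (6 * σ) σ R Ψ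
        (ω.map (trE (ctr σ a)).toEmbedding)) = fun ω => ¬ Gl 0 (6 * σ) σ R Ψ ω := by
      funext ω
      rw [h4 d (ctr σ a) (6 * σ) σ R Ψ ω]
    rw [k2, k3] at k1
    exact k1
  calc P0 (0 : Vx d) N p q (fun ω => ¬ Glu L σ R Ψ M ω) ≤ _ := s1
    _ = _ := s2
    _ ≤ ∑ _a ∈ bx (0 : Vx d) M, P0 (0 : Vx d) N' p q fun ω => ¬ Gl 0 (6 * σ) σ R Ψ ω :=
        Finset.sum_le_sum s3
    _ = (2 * (M : ℝ) + 1) ^ d * P0 (0 : Vx d) N' p q fun ω => ¬ Gl 0 (6 * σ) σ R Ψ ω := by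
        rw [Finset.sum_const, nsmul_eq_mul, GLP_card]

end Pool.Agent.FKS
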