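import Pool.Agent.FKS.TargetsB
import Pool.Agent.FKP.P_AUT

/-!
# Project FKS, GTR: translations
-/

set_option autoImplicit false

namespace Pool.Agent.FKS

open Filter MeasureTheory Pool.Agent.FKP
open Pool.Agent.FKT hiding ind

theorem GTR_cmp {d : ℕ} (y : Vx d) :
    FKP.AUT_.Cmp (Equiv.addRight y) (Equiv.refl (Fin d)) := by
  intro x i
  simp only [Equiv.coe_addRight, Equiv.refl_apply]
  abel

theorem GTR_cf {d : ℕ} (y : Vx d) (ω : Finset (Ed d)) (a b : Vx d) :
    Cf (ω.map (trE y).toEmbedding) (a + y) (b + y) ↔ Cf ω a b := by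
  have h := FKP.AUT_.con_iff (GTR_cmp y) (ω : Set (Ed d)) a b
  have h2 := FKP.AUT_.coe_map (Equiv.addRight y) (Equiv.refl (Fin d)) ω
  rw [← h2] at h
  exact h.symm

theorem GTR_bx {d : ℕ} (u y x : Vx d) (n : ℕ) : x + y ∈ bx (u + y) n ↔ x ∈ bx u n := by
  unfold bx
  rw [Finset.mem_Icc, Finset.mem_Icc, Pi.le_def, Pi.le_def, Pi.le_def, Pi.le_def]
  constructor
  · rintro ⟨h1, h2⟩
    refine ⟨fun i => ?_, fun i => ?_⟩
    · have := h1 i
      simp only [Pi.add_apply] at this
      linarith
    · have := h2 i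
      simp only [Pi.add_apply] at this
      linarith
  · rintro ⟨h1, h2⟩
    refine ⟨fun i => ?_, fun i => ?_⟩
    · have := h1 i
      simp only [Pi.add_apply]
      linarith
    · have := h2 i
      simp only [Pi.add_apply]
      linarith

theorem GTR_eb {d : ℕ} (u y : Vx d) (R : ℕ) :
    eb (u + y) R = (eb u R).map (trE y).toEmbedding := by
  ext e
  rw [Finset.mem_map_equiv]
  unfold eb
  simp only [Finset.mem_filter, Finset.mem_product, Finset.mem_univ, and_true]
  obtain ⟨a, i⟩ := e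
  have h1 : (trE y).symm (a, i) = (a - y, i) := by
    rw [Equiv.symm_apply_eq]
    change (a, i) = (a - y + y, i)
    rw [sub_add_cancel]
  rw [h1]
  have h2 : tgt (a, i) = tgt (a - y, i) + y := by
    unfold tgt
    simp only
    abel
  rw [h2, GTR_bx]
  have h3 : a = (a - y) + y := by rw [sub_add_cancel]
  constructor
  · rintro ⟨h4, h5⟩
    refine ⟨?_, h5⟩
    rw [h3, GTR_bx] at h4
    exact h4
  · rintro ⟨h4, h5⟩
    refine ⟨?_, h5⟩
    rw [h3, GTR_bx]
    exact h4

theorem GTR_fpl {d : ℕ} (u y x z : Vx d) (R k : ℕ) (ω : Finset (Ed d)) :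
    Fpl (eb (u + y) R) k (ω.map (trE y).toEmbedding) (x + y) (z + y) ↔
      Fpl (eb u R) k ω x z := by
  unfold Fpl
  rw [GTR_eb]
  constructor
  · rintro ⟨T, hT, hc, hf⟩
    refine ⟨T.map (trE y).symm.toEmbedding, ?_, by rw [Finset.card_map]; exact hc, ?_⟩
    · intro e he
      rw [Finset.mem_map_equiv, Equiv.symm_symm] at he
      have := hT he
      rw [Finset.mem_map_equiv, Equiv.symm_apply_apply] at this
      exact this
    · rw [← GTR_cf y]
      have h1 : ((ω ∩ eb u R) ∪ T.map (trE y).symm.toEmbedding).map (trE y).toEmbedding =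
          (ω.map (trE y).toEmbedding ∩ (eb u R).map (trE y).toEmbedding) ∪ T := by
        rw [Finset.map_union, Finset.map_inter]
        congr 1
        ext e
        rw [Finset.mem_map_equiv, Finset.mem_map_equiv, Equiv.symm_symm,
          Equiv.apply_symm_apply]
      rw [h1]
      exact hf
  · rintro ⟨T, hT, hc, hf⟩
    refine ⟨T.map (trE y).toEmbedding, Finset.map_subset_map.2 hT,
      by rw [Finset.card_map]; exact hc, ?_⟩
    rw [← Finset.map_inter, ← Finset.map_union, GTR_cf]
    exact hf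

theorem p_GTR (hR : T_TRP) (hG : T_GLT) : T_GTR := by
  intro d
  refine ⟨fun u y x z R k ω => GTR_fpl u y x z R k ω, ?_, ?_⟩
  · intro y N ρ r R k p q
    rw [hR]
    congr 1
    funext ω
    rw [hG]
  · intro y v N s R k p q
    rw [hR]
    congr 1
    funext ω
    rw [eq_iff_iff, not_iff_not]
    constructor
    · rintro ⟨x, hx, z, hz, h⟩
      refine ⟨x - y, ?_, z - y, ?_, ?_⟩
      · rw [← GTR_bx 0 y, sub_add_cancel, zero_add]; exact hx
      · rw [← GTR_bx v y, sub_add_cancel]; exact hz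
      · rw [← GTR_fpl 0 y, sub_add_cancel, sub_add_cancel, zero_add]; exact h
    · rintro ⟨x, hx, z, hz, h⟩
      refine ⟨x + y, ?_, z + y, ?_, ?_⟩
      · rw [← GTR_bx 0 y, zero_add] at hx; exact hx
      · rw [← GTR_bx v y] at hz; exact hz
      · rw [← GTR_fpl 0 y, zero_add] at h; exact h

end Pool.Agent.FKS
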