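import Pool.Agent.FKS.TargetsD
import Pool.Agent.FKS.P_GTR

/-!
# Project FKS, part D: translation of the gluing event and of the box connection
-/

set_option autoImplicit false

namespace Pool.Agent.FKS

open Filter MeasureTheory Pool.Agent.FKP
open Pool.Agent.FKT hiding ind

namespace GLT_

variable {d : ℕ}

/-- The translate of a vertex set. -/
def tr (x : Vx d) (K : Finset (Vx d)) : Finset (Vx d) := K.map (Equiv.addRight x).toEmbedding

theorem mem_tr {x : Vx d} {K : Finset (Vx d)} {a : Vx d} : a + x ∈ tr x K ↔ a ∈ K := by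
  unfold tr
  rw [Finset.mem_map_equiv]
  simp

theorem of_mem_tr {x : Vx d} {K : Finset (Vx d)} {a : Vx d} (h : a ∈ tr x K) :
    ∃ b ∈ K, a = b + x := by
  refine ⟨a - x, ?_, by rw [sub_add_cancel]⟩
  rw [← mem_tr (x := x), sub_add_cancel]
  exact h

theorem exists_tr (x : Vx d) (K : Finset (Vx d)) : ∃ K0, tr x K0 = K := by
  refine ⟨K.map (Equiv.addRight x).symm.toEmbedding, ?_⟩
  ext a
  have e : a = (a - x) + x := by rw [sub_add_cancel]
  rw [e, mem_tr, Finset.mem_map_equiv]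
  simp

theorem es_tr (x : Vx d) (K : Finset (Vx d)) :
    es (tr x K) = (es K).map (trE x).toEmbedding := by
  ext e
  rw [Finset.mem_map_equiv, FKP.mem_es, FKP.mem_es]
  obtain ⟨a, i⟩ := e
  have h1 : (trE x).symm (a, i) = (a - x, i) := by
    rw [Equiv.symm_apply_eq]
    change (a, i) = (a - x + x, i)
    rw [sub_add_cancel]
  rw [h1]
  have h2 : tgt (a, i) = tgt (a - x, i) + x := by
    unfold tgt
    simp only
    abel
  rw [h2, mem_tr]
  have h3 : a = (a - x) + x := by rw [sub_add_cancel]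
  constructor
  · rintro ⟨h4, h5⟩
    refine ⟨?_, h5⟩
    rw [h3] at h4
    exact mem_tr.1 h4
  · rintro ⟨h4, h5⟩
    refine ⟨?_, h5⟩
    change a ∈ tr x K
    rw [h3]
    exact mem_tr.2 h4

theorem Lcd_tr {x : Vx d} {K : Finset (Vx d)} {r : ℕ} : Lcd r (tr x K) ↔ Lcd r K := by
  have hfar : ∀ a b : Vx d, Far r (a + x) (b + x) ↔ Far r a b := by
    intro a b
    unfold Far
    simp
  constructor
  · rintro ⟨h1, a, ha, b, hb, h2⟩
    refine ⟨fun u hu v hv => ?_, ?_⟩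
    · have := h1 (u + x) (mem_tr.2 hu) (v + x) (mem_tr.2 hv)
      rw [es_tr, GTR_cf] at this
      exact this
    · obtain ⟨a', ha', rfl⟩ := of_mem_tr ha
      obtain ⟨b', hb', rfl⟩ := of_mem_tr hb
      exact ⟨a', ha', b', hb', (hfar _ _).1 h2⟩
  · rintro ⟨h1, a, ha, b, hb, h2⟩
    refine ⟨fun u hu v hv => ?_, a + x, mem_tr.2 ha, b + x, mem_tr.2 hb, (hfar _ _).2 h2⟩
    obtain ⟨u', hu', rfl⟩ := of_mem_tr hu
    obtain ⟨v', hv', rfl⟩ := of_mem_tr hv
    rw [es_tr, GTR_cf]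
    exact h1 u' hu' v' hv'

theorem bx0 (x a : Vx d) (n : ℕ) : a + x ∈ bx x n ↔ a ∈ bx (0 : Vx d) n := by
  have := GTR_bx 0 x a n
  rwa [zero_add] at this

theorem tr_sub {x : Vx d} {K : Finset (Vx d)} {n : ℕ} : tr x K ⊆ bx x n ↔ K ⊆ bx 0 n := by
  constructor
  · intro h a ha
    exact (bx0 x a n).1 (h (mem_tr.2 ha))
  · intro h a ha
    obtain ⟨a', ha', rfl⟩ := of_mem_tr ha
    exact (bx0 x a' n).2 (h ha')

theorem bd0 (x a : Vx d) (n : ℕ) : a + x ∈ bd x n ↔ a ∈ bd (0 : Vx d) n := by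
  unfold bd
  rw [Finset.mem_filter, Finset.mem_filter, bx0]
  refine and_congr_right fun _ => exists_congr fun i => ?_
  simp only [Pi.add_apply, Pi.zero_apply]
  constructor
  · rintro (h | h)
    · left; linarith
    · right; linarith
  · rintro (h | h)
    · left; linarith
    · right; linarith

theorem fpl0 (x a b : Vx d) (R k : ℕ) (ω : Finset (Ed d)) :
    Fpl (eb x R) k (ω.map (trE x).toEmbedding) (a + x) (b + x) ↔
      Fpl (eb (0 : Vx d) R) k ω a b := by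
  have := GTR_fpl 0 x a b R k ω
  rwa [zero_add] at this

end GLT_

open GLT_

theorem p_GLT : T_GLT := by
  intro d x ρ r R k ω
  constructor
  · intro h K C hK hC hK1 hC1
    obtain ⟨a, ha, b, hb, hf⟩ := h (tr x K) (tr x C) (tr_sub.2 hK) (tr_sub.2 hC)
      (Lcd_tr.2 hK1) (Lcd_tr.2 hC1)
    obtain ⟨a', ha', rfl⟩ := of_mem_tr ha
    obtain ⟨b', hb', rfl⟩ := of_mem_tr hb
    exact ⟨a', ha', b', hb', (fpl0 x a' b' R k ω).1 hf⟩
  · intro h K C hK hC hK1 hC1
    obtain ⟨K0, rfl⟩ := exists_tr x K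
    obtain ⟨C0, rfl⟩ := exists_tr x C
    obtain ⟨a, ha, b, hb, hf⟩ := h K0 C0 (tr_sub.1 hK) (tr_sub.1 hC) (Lcd_tr.1 hK1)
      (Lcd_tr.1 hC1)
    exact ⟨a + x, mem_tr.2 ha, b + x, mem_tr.2 hb, (fpl0 x a b R k ω).2 hf⟩

theorem p_BFT : T_BFT := by
  intro d x s R ω
  have hcf : ∀ a b : Vx d, Cf (ω.map (trE x).toEmbedding ∩ eb x R) (a + x) (b + x) ↔
      Cf (ω ∩ eb (0 : Vx d) R) a b := by
    intro a b
    have h1 : eb x R = (eb (0 : Vx d) R).map (trE x).toEmbedding := by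
      have := GTR_eb 0 x R
      rwa [zero_add] at this
    rw [h1, ← Finset.map_inter, GTR_cf]
  constructor
  · rintro ⟨a, ha, b, hb, h⟩
    have ea : a = (a - x) + x := by rw [sub_add_cancel]
    have eb' : b = (b - x) + x := by rw [sub_add_cancel]
    rw [ea] at ha h
    rw [eb'] at hb h
    exact ⟨a - x, (bx0 x _ s).1 ha, b - x, (bd0 x _ R).1 hb, (hcf _ _).1 h⟩
  · rintro ⟨a, ha, b, hb, h⟩
    exact ⟨a + x, (bx0 x a s).2 ha, b + x, (bd0 x b R).2 hb, (hcf a b).2 h⟩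

end Pool.Agent.FKS
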