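import Pool.Agent.FKS.TargetsD

/-!
# FKS, target GNC: the giant from `Cov`
-/

set_option autoImplicit false

namespace Pool.Agent.FKS

open Filter MeasureTheory Pool.Agent.FKP
open Pool.Agent.FKT hiding ind

theorem GNC_mem {d : ℕ} {x y : Vx d} {n : ℕ} :
    y ∈ bx x n ↔ ∀ i, x i - (n : ℤ) ≤ y i ∧ y i ≤ x i + n := by
  unfold bx
  rw [Finset.mem_Icc]
  constructor
  · rintro ⟨h1, h2⟩ i
    exact ⟨h1 i, h2 i⟩
  · intro h
    exact ⟨fun i => (h i).1, fun i => (h i).2⟩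

theorem GNC_div {σ y : ℤ} (hσ : 0 ≤ σ) :
    (2 * σ + 1) * ((y + σ) / (2 * σ + 1)) - σ ≤ y ∧
      y ≤ (2 * σ + 1) * ((y + σ) / (2 * σ + 1)) + σ := by
  have h1 := Int.emod_add_mul_ediv (y + σ) (2 * σ + 1)
  have h2 := Int.emod_nonneg (y + σ) (show (2 * σ + 1) ≠ 0 by omega)
  have h3 := Int.emod_lt_of_pos (y + σ) (show 0 < 2 * σ + 1 by omega)
  constructor <;> linarith

theorem p_GNC : T_GNC := by
  intro d L σ M ξ ω hL hξ hC
  obtain ⟨Z, -, hZ, hM⟩ := hC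
  have h0 : (0 : Vx d) ∈ bx (0 : Vx d) M := by
    rw [GNC_mem]
    intro i
    simp
  obtain ⟨z0, hz0, -⟩ := hM 0 h0
  refine ⟨z0, fun y hy => ?_⟩
  rw [GNC_mem] at hy
  have hdiv : ∀ i, (2 * (σ : ℤ) + 1) * ((y i + σ) / (2 * σ + 1)) - σ ≤ y i ∧
      y i ≤ (2 * (σ : ℤ) + 1) * ((y i + σ) / (2 * σ + 1)) + σ := fun i =>
    GNC_div (by positivity)
  have hL' : (L : ℤ) ≤ (2 * (σ : ℤ) + 1) * M + σ := by exact_mod_cast hL
  have ha : (fun i => (y i + σ) / (2 * (σ : ℤ) + 1) : Vx d) ∈ bx (0 : Vx d) M := by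
    rw [GNC_mem]
    intro i
    have h1 := hy i
    simp only [Pi.zero_apply, zero_sub, zero_add] at h1 ⊢
    constructor
    · apply Int.le_ediv_of_mul_le (by positivity)
      linarith [h1.1]
    · have : (y i + σ) / (2 * (σ : ℤ) + 1) < M + 1 := by
        apply Int.ediv_lt_of_lt_mul (by positivity)
        linarith [h1.2]
      linarith
  obtain ⟨z, hz, u, hu, hc⟩ := hM _ ha
  have hzz : z = z0 := Finset.card_le_one.mp hZ z hz z0 hz0
  refine ⟨u, ?_, hzz ▸ hc⟩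
  unfold til at hu
  rw [GNC_mem] at hu ⊢
  intro i
  have h1 := hu i
  have h2 := hdiv i
  unfold ctr at h1
  have h3 : 2 * (σ : ℤ) ≤ ξ := by exact_mod_cast hξ
  constructor <;> linarith [h1.1, h1.2, h2.1, h2.2]

end Pool.Agent.FKS
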