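import Pool.Agent.FKS.TargetsC
import Pool.Agent.FKS.Step
import Pool.Agent.FKP.Lem

/-!
# Project FKS: proof of T_HPB
-/

set_option autoImplicit false

namespace Pool.Agent.FKS

open Filter MeasureTheory Pool.Agent.FKP
open Pool.Agent.FKT hiding ind

/-- Powers are eventually large. -/
theorem HPB_large (a K : ℝ) (ha : 0 < a) : ∃ n0 : ℕ, ∀ n : ℕ, n0 ≤ n → K ≤ (n : ℝ) ^ a := by
  have h := (tendsto_rpow_atTop ha).comp tendsto_natCast_atTop_atTop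
  obtain ⟨n0, hn0⟩ := (h.eventually_ge_atTop K).exists_forall_of_atTop
  exact ⟨n0, fun n hn => hn0 n hn⟩

/-- The boxes increase. -/
theorem HPB_bx {d : ℕ} {m n : ℕ} (h : m ≤ n) : bx (0 : Vx d) m ⊆ bx (0 : Vx d) n := by
  apply bx_sub (k := 0) (m := m) (n := n)
  · rw [mem_bx]; intro i; simp
  · omega

theorem HPB_eb {d : ℕ} {m n : ℕ} (h : m ≤ n) : eb (0 : Vx d) m ⊆ eb (0 : Vx d) n := by
  rw [← FKP.es_bx, ← FKP.es_bx]
  exact FKS.es_mono (HPB_bx h)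

/-- The infinite volume probability of an increasing local event is at most the one of a wired
box. -/
theorem HPB_dom (hD : FKT.T_DOM) (hL : FKT.T_LOC) {d : ℕ} (hd : 0 < d) {p q : ℝ} (hp : 0 < p)
    (hp1 : p < 1) (hq : 1 ≤ q) (μ : Measure (Ed d → Bool)) (hμ : IsWired d p q μ)
    (P : Finset (Ed d) → Prop) (hP : Inc P) (m N : ℕ) (hmN : m ≤ N) :
    μ.real {ω | P (rs (eb (0 : Vx d) m) (cfg ω))} ≤
      phi (0 : Vx d) N p q fun ω => ind (P (ω ∩ eb (0 : Vx d) m)) := by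
  have hl := ((hL d p q (eb (0 : Vx d) m)).1 μ hμ fun ω => ind (P ω)).1
  have hmeas := (hL d p q (eb (0 : Vx d) m)).2 P
  have hint : ∫ ω, ind (P (rs (eb (0 : Vx d) m) (cfg ω))) ∂μ =
      μ.real {ω | P (rs (eb (0 : Vx d) m) (cfg ω))} := by
    have h1 : (fun ω => ind (P (rs (eb (0 : Vx d) m) (cfg ω)))) =
        Set.indicator {ω | P (rs (eb (0 : Vx d) m) (cfg ω))} (fun _ => (1 : ℝ)) := by
      funext ω
      by_cases h : P (rs (eb (0 : Vx d) m) (cfg ω))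
      · rw [ind_true h, Set.indicator_of_mem (by exact h)]
      · rw [ind_false h, Set.indicator_of_notMem (by exact h)]
    rw [h1, integral_indicator hmeas]
    simp [Measure.real]
  rw [hint] at hl
  apply le_of_tendsto hl
  filter_upwards [eventually_ge_atTop N] with N' hN'
  have h2 := hD d hd p q hp hp1 hq (0 : Vx d) (0 : Vx d) N N' (HPB_bx hN')
    (fun ω => ind (P (ω ∩ eb (0 : Vx d) m)))
    (fun a b hab => ind_mono (hP _ _ (Finset.inter_subset_inter_right hab)))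
  refine le_trans (le_of_eq ?_) h2
  congr 1
  funext ω
  congr 1
  rw [Finset.inter_assoc, Finset.inter_eq_right.mpr (HPB_eb hmN)]

/-- The two-box event is local. -/
theorem HPB_twl {d : ℕ} (v : Vx d) (M ρ K : ℕ) (hK : M + ρ ≤ K) (O : Set (Ed d)) :
    TwB v M ρ O ↔ TwB v M ρ ((rs (eb (0 : Vx d) K) O : Finset (Ed d)) : Set (Ed d)) := by
  have h : O ∩ (eb (0 : Vx d) (M + ρ) : Set (Ed d)) =
      ((rs (eb (0 : Vx d) K) O : Finset (Ed d)) : Set (Ed d)) ∩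
        (eb (0 : Vx d) (M + ρ) : Set (Ed d)) := by
    ext e
    simp only [Set.mem_inter_iff, Finset.mem_coe, rs, Finset.coe_filter, Set.mem_ofPred_eq]
    constructor
    · rintro ⟨h1, h2⟩
      exact ⟨⟨HPB_eb hK h2, h1⟩, h2⟩
    · rintro ⟨⟨_, h1⟩, h2⟩
      exact ⟨h1, h2⟩
  unfold TwB
  rw [h]

/-- The two-box event is increasing. -/
theorem HPB_inc {d : ℕ} (v : Vx d) (M ρ : ℕ) :
    Inc fun ω : Finset (Ed d) => TwB v M ρ (ω : Set (Ed d)) := by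
  rintro a b hab ⟨x, hx, y, hy, h⟩
  refine ⟨x, hx, y, hy, FKS.Cn_mono ?_ h⟩
  exact Set.inter_subset_inter_left _ (by exact_mod_cast hab)

/-- The probabilistic part: from the wired measure at `p0` to the free measure at `p1`. -/
theorem HPB_main (h2 : T_TBM) (hMb : T_MXQ) (h6 : FKT.T_EXI) (h7 : FKT.T_DOM)
    (h8 : FKT.T_LOC) (d : ℕ) (hd : 0 < d) (p0 pa pb q c : ℝ) (h0 : 0 < p0) (h0a : p0 < pa)
    (hab : pa < pb) (hb1 : pb < 1) (hq : 1 ≤ q)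
    (hDIC : ∀ (M : ℕ) (A : ℕ → Set (Ed d) → Prop), Fam d M A →
      ∀ μ1 μ2 : Measure (Ed d → Bool), IsWired d p0 q μ1 → IsWired d pa q μ2 →
      ∀ r : ℕ, 16 ≤ r → (r : ℝ) ^ (-c) ≤ fpr μ1 A r → 1 - (r : ℝ) ^ (-c) ≤ fpr μ2 A (2 * r))
    (μ0 : Measure (Ed d → Bool)) (hμ0 : IsWired d p0 q μ0) :
    ∃ CM : ℝ, 0 < CM ∧ ∀ (n m N : ℕ) (v : Vx d), 16 ≤ m → 2 * m ≤ n → 2 * n ≤ N →
      (m : ℝ) ^ (-c) ≤ μ0.real {ω | ∃ y ∈ bx v m, Cn (cfg ω ∩ (eb (0 : Vx d) n : Set (Ed d))) 0 y} →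
      fr (bx (0 : Vx d) N) pb q (fun ω => ind (¬ ∃ x ∈ bx (0 : Vx d) (2 * m),
        ∃ y ∈ bx v (2 * m), Cf (ω ∩ eb (0 : Vx d) (2 * n)) x y)) ≤
          (m : ℝ) ^ (-c) + CM * (4 * n + 1 : ℝ) ^ d / ((N : ℝ) + 1) := by
  obtain ⟨CM, hCM, hM⟩ := hMb d pa pb q hd (h0.trans h0a) hab hb1 hq
  obtain ⟨μa, hμa⟩ := h6 d hd pa q (h0.trans h0a) (hab.trans hb1) hq
  refine ⟨CM, hCM, fun n m N v hm hmn hnN hprob => ?_⟩
  have := hμ0.prob
  have := hμa.prob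
  have hle : (m : ℝ) ^ (-c) ≤ fpr μ0 (TwB v n) m := by
    refine hprob.trans (measureReal_mono ?_ (measure_ne_top _ _))
    rintro ω ⟨y, hy, hc⟩
    refine ⟨0, ?_, y, hy, FKS.Cn_mono ?_ hc⟩
    · rw [mem_bx]; intro i; simp
    · exact Set.inter_subset_inter_right _ (by exact_mod_cast HPB_eb (by omega))
  have hd2 := hDIC n (TwB v n) (h2 d n v) μ0 μa hμ0 hμa m hm hle
  have hfp : fpr μa (TwB v n) (2 * m) ≤
      phi (0 : Vx d) N pa q fun ω => ind (TwB v n (2 * m)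
        ((ω ∩ eb (0 : Vx d) (2 * n) : Finset (Ed d)) : Set (Ed d))) := by
    have h := HPB_dom h7 h8 hd (h0.trans h0a) (hab.trans hb1) hq μa hμa
      (fun ω : Finset (Ed d) => TwB v n (2 * m) (ω : Set (Ed d))) (HPB_inc v n (2 * m))
      (2 * n) N hnN
    refine le_trans (le_of_eq ?_) h
    unfold fpr FEv
    congr 1
    ext ω
    exact HPB_twl v n (2 * m) (2 * n) (by omega) (cfg ω)
  have hMX := hM (2 * n) N hnN (fun ω : Finset (Ed d) => TwB v n (2 * m) (ω : Set (Ed d)))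
    (HPB_inc v n (2 * m))
  have hq0 : (0 : ℝ) < q := lt_of_lt_of_le one_pos hq
  have hpb : 0 < pb := (h0.trans h0a).trans hab
  have hmono : fr (bx (0 : Vx d) N) pb q (fun ω => ind (¬ ∃ x ∈ bx (0 : Vx d) (2 * m),
        ∃ y ∈ bx v (2 * m), Cf (ω ∩ eb (0 : Vx d) (2 * n)) x y)) ≤
      fr (bx (0 : Vx d) N) pb q (fun ω => 1 - ind (TwB v n (2 * m)
        ((ω ∩ eb (0 : Vx d) (2 * n) : Finset (Ed d)) : Set (Ed d)))) := by
    unfold fr fw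
    apply Ex_mono hpb hb1 hq0
    intro ω _
    rw [← ind_not]
    apply ind_mono
    intro hn hT
    apply hn
    obtain ⟨x, hx, y, hy, hc⟩ := hT
    exact ⟨x, hx, y, hy, FKS.Cn_mono Set.inter_subset_left hc⟩
  have hone : fr (bx (0 : Vx d) N) pb q (fun ω => 1 - ind (TwB v n (2 * m)
        ((ω ∩ eb (0 : Vx d) (2 * n) : Finset (Ed d)) : Set (Ed d)))) =
      1 - fr (bx (0 : Vx d) N) pb q (fun ω => ind (TwB v n (2 * m)
        ((ω ∩ eb (0 : Vx d) (2 * n) : Finset (Ed d)) : Set (Ed d)))) := by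
    unfold fr fw
    rw [Ex_sub, Ex_const hpb hb1 hq0]
  rw [hone] at hmono
  have hcast : CM * (2 * ((2 * n : ℕ) : ℝ) + 1) ^ d / ((N : ℝ) + 1) =
      CM * (4 * n + 1 : ℝ) ^ d / ((N : ℝ) + 1) := by
    push_cast
    congr 3
    ring
  rw [hcast] at hMX
  linarith

/-- The numerical part. -/
theorem HPB_num (d : ℕ) (hd : 0 < d) (c θ CM η : ℝ) (hc : 0 < c) (hc1 : c ≤ 1) (hθ : 0 < θ)
    (hCM : 0 < CM) (hη : 0 < η) (hη1 : η < 1 / 2) (hη2 : η < c / (4 * d)) :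
    ∃ n0 : ℕ, 2 ≤ n0 ∧ ∀ n N : ℕ, n0 ≤ n → n ^ (d + 3) ≤ N →
      16 ≤ ⌊(n : ℝ) ^ (1 - η)⌋₊ ∧ 2 * ⌊(n : ℝ) ^ (1 - η)⌋₊ ≤ n ∧ 2 * n ≤ N ∧
      (⌊(n : ℝ) ^ (1 - η)⌋₊ : ℝ) ^ (-c) ≤
        θ / (2 * d * (2 * ((n / ⌊(n : ℝ) ^ (1 - η)⌋₊ : ℕ) : ℝ) + 1) ^ d) ∧
      (⌊(n : ℝ) ^ (1 - η)⌋₊ : ℝ) ^ (-c) + CM * (4 * n + 1 : ℝ) ^ d / ((N : ℝ) + 1) ≤
        (n : ℝ) ^ (-(c / 4)) := by
  obtain ⟨n1, hn1⟩ := HPB_large (1 / 2) 32 (by norm_num)
  obtain ⟨n2, hn2⟩ := HPB_large η 2 hη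
  obtain ⟨n3, hn3⟩ := HPB_large (c / 4) (2 * 2 ^ c) (by positivity)
  obtain ⟨n4, hn4⟩ := HPB_large (c / 4) (2 ^ c * (2 * d * 5 ^ d) / θ) (by positivity)
  obtain ⟨n5, hn5⟩ := HPB_large (c / 4) (2 * CM * 5 ^ d) (by positivity)
  refine ⟨max 2 (max n1 (max n2 (max n3 (max n4 n5)))), le_max_left _ _, fun n N hn hN => ?_⟩
  simp only [max_le_iff] at hn
  obtain ⟨g0, g1, g2, g3, g4, g5⟩ := hn
  have k1 := hn1 n g1
  have k2 := hn2 n g2
  have k3 := hn3 n g3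
  have k4 := hn4 n g4
  have k5 := hn5 n g5
  have hd' : (0 : ℝ) < d := by exact_mod_cast hd
  have hnR : (2 : ℝ) ≤ n := by exact_mod_cast g0
  have hn0 : (0 : ℝ) < n := by linarith
  have hn1' : (1 : ℝ) ≤ n := by linarith
  set y : ℝ := (n : ℝ) ^ (1 - η) with hy
  have hy0 : 0 < y := Real.rpow_pos_of_pos hn0 _
  have hy32 : 32 ≤ y := k1.trans (Real.rpow_le_rpow_of_exponent_le hn1' (by linarith))
  set m : ℕ := ⌊y⌋₊ with hm
  have hmle : (m : ℝ) ≤ y := Nat.floor_le hy0.le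
  have hmge : y / 2 ≤ m := by
    have := Nat.sub_one_lt_floor y
    linarith
  have hm0 : (0 : ℝ) < m := by linarith
  have hyn : y * (n : ℝ) ^ η = n := by
    rw [hy, ← Real.rpow_add hn0]
    simp
  have hη' : 0 < (n : ℝ) ^ η := Real.rpow_pos_of_pos hn0 _
  have e1 : 16 ≤ m := by
    have : (16 : ℝ) ≤ m := by linarith
    exact_mod_cast this
  have e2 : 2 * m ≤ n := by
    have : (2 : ℝ) * m ≤ n := by nlinarith
    exact_mod_cast this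
  have e3 : 2 * n ≤ N := by
    refine le_trans ?_ hN
    calc 2 * n ≤ n * n := Nat.mul_le_mul_right _ g0
      _ = n ^ 2 := by ring
      _ ≤ n ^ (d + 3) := Nat.pow_le_pow_right (by omega) (by omega)
  -- the power of `m`
  have hmc : (m : ℝ) ^ (-c) ≤ 2 ^ c * (n : ℝ) ^ (-(c / 2)) := by
    have a1 : (m : ℝ) ^ (-c) ≤ (y / 2) ^ (-c) :=
      Real.rpow_le_rpow_of_nonpos (by positivity) hmge (by linarith)
    have a2 : (y / 2) ^ (-c) = 2 ^ c * y ^ (-c) := by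
      rw [Real.div_rpow hy0.le (by norm_num), Real.rpow_neg (by norm_num : (0 : ℝ) ≤ 2)]
      field_simp
    have a3 : y ^ (-c) ≤ (n : ℝ) ^ (-(c / 2)) := by
      rw [hy, ← Real.rpow_mul hn0.le]
      apply Real.rpow_le_rpow_of_exponent_le hn1'
      nlinarith
    calc (m : ℝ) ^ (-c) ≤ 2 ^ c * y ^ (-c) := a1.trans a2.le
      _ ≤ _ := by gcongr
  have hsplit : (n : ℝ) ^ (-(c / 2)) = (n : ℝ) ^ (-(c / 4)) * (n : ℝ) ^ (-(c / 4)) := by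
    rw [← Real.rpow_add hn0]
    congr 1
    ring
  have hP4 : 0 < (n : ℝ) ^ (c / 4) := Real.rpow_pos_of_pos hn0 _
  have hinv : (n : ℝ) ^ (-(c / 4)) = ((n : ℝ) ^ (c / 4))⁻¹ := Real.rpow_neg hn0.le _
  have hI0 : 0 < (n : ℝ) ^ (-(c / 4)) := Real.rpow_pos_of_pos hn0 _
  refine ⟨e1, e2, e3, ?_, ?_⟩
  · -- comparison with the pigeonhole bound
    have b1 : ((n / m : ℕ) : ℝ) ≤ 2 * (n : ℝ) ^ η := by
      refine Nat.cast_div_le.trans ?_
      rw [div_le_iff₀ hm0]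
      nlinarith
    have hη1' : 1 ≤ (n : ℝ) ^ η := by linarith
    have b2 : (2 * ((n / m : ℕ) : ℝ) + 1) ^ d ≤ 5 ^ d * (n : ℝ) ^ (c / 4) := by
      have : (2 * ((n / m : ℕ) : ℝ) + 1) ^ d ≤ (5 * (n : ℝ) ^ η) ^ d := by
        apply pow_le_pow_left₀ (by positivity)
        linarith
      refine this.trans ?_
      rw [mul_pow]
      apply mul_le_mul_of_nonneg_left _ (by positivity)
      rw [← Real.rpow_natCast, ← Real.rpow_mul hn0.le]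
      apply Real.rpow_le_rpow_of_exponent_le hn1'
      have := (lt_div_iff₀ (by positivity)).mp hη2
      nlinarith
    have b3 : θ / (2 * d * (5 ^ d * (n : ℝ) ^ (c / 4))) ≤
        θ / (2 * d * (2 * ((n / m : ℕ) : ℝ) + 1) ^ d) := by
      apply div_le_div_of_nonneg_left hθ.le (by positivity)
      apply mul_le_mul_of_nonneg_left b2 (by positivity)
    refine le_trans ?_ b3
    refine hmc.trans ?_
    rw [hsplit, hinv, le_div_iff₀ (by positivity)]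
    rw [div_le_iff₀ hθ] at k4
    calc 2 ^ c * (((n : ℝ) ^ (c / 4))⁻¹ * ((n : ℝ) ^ (c / 4))⁻¹) *
          (2 * d * (5 ^ d * (n : ℝ) ^ (c / 4)))
        = 2 ^ c * (2 * d * 5 ^ d) * ((n : ℝ) ^ (c / 4))⁻¹ := by
          field_simp
      _ ≤ ((n : ℝ) ^ (c / 4) * θ) * ((n : ℝ) ^ (c / 4))⁻¹ := by gcongr
      _ = θ := by field_simp
  · have c1 : (m : ℝ) ^ (-c) ≤ (n : ℝ) ^ (-(c / 4)) / 2 := by
      refine hmc.trans ?_
      rw [hsplit]
      have : 2 ^ c * (n : ℝ) ^ (-(c / 4)) ≤ 1 / 2 := by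
        rw [hinv, ← div_eq_mul_inv, div_le_iff₀ hP4]
        linarith
      nlinarith
    have c2 : CM * (4 * n + 1 : ℝ) ^ d / ((N : ℝ) + 1) ≤ (n : ℝ) ^ (-(c / 4)) / 2 := by
      have hNR : (n : ℝ) ^ (d + 3) ≤ N := by exact_mod_cast hN
      have d1 : (4 * n + 1 : ℝ) ^ d ≤ 5 ^ d * (n : ℝ) ^ d := by
        rw [← mul_pow]
        apply pow_le_pow_left₀ (by positivity)
        linarith
      have d2 : (n : ℝ) ^ (c / 4) ≤ n := by
        calc (n : ℝ) ^ (c / 4) ≤ (n : ℝ) ^ (1 : ℝ) :=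
              Real.rpow_le_rpow_of_exponent_le hn1' (by linarith)
          _ = n := Real.rpow_one _
      rw [hinv, div_le_iff₀ (by positivity)]
      have d3 : (n : ℝ) ^ (d + 3) = (n : ℝ) ^ d * n ^ 3 := by ring
      have hnd : 0 < (n : ℝ) ^ d := by positivity
      have d4 : CM * (5 ^ d * (n : ℝ) ^ d) ≤
          ((n : ℝ) ^ (c / 4))⁻¹ / 2 * ((n : ℝ) ^ d * n ^ 3) := by
        have d5 : 2 * CM * 5 ^ d * (n : ℝ) ^ (c / 4) ≤ (n : ℝ) ^ 3 := by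
          calc 2 * CM * 5 ^ d * (n : ℝ) ^ (c / 4) ≤ (n : ℝ) ^ (c / 4) * (n : ℝ) ^ (c / 4) := by
                gcongr
            _ ≤ (n : ℝ) * n := by gcongr
            _ ≤ (n : ℝ) ^ 3 := by nlinarith [mul_pos hn0 hn0]
        have : CM * (5 ^ d * (n : ℝ) ^ d) = ((n : ℝ) ^ (c / 4))⁻¹ / 2 *
            ((n : ℝ) ^ d * (2 * CM * 5 ^ d * (n : ℝ) ^ (c / 4))) := by
          field_simp
        rw [this]
        gcongr
      calc CM * (4 * n + 1 : ℝ) ^ d ≤ CM * (5 ^ d * (n : ℝ) ^ d) := by gcongr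
        _ ≤ ((n : ℝ) ^ (c / 4))⁻¹ / 2 * ((n : ℝ) ^ d * n ^ 3) := d4
        _ ≤ ((n : ℝ) ^ (c / 4))⁻¹ / 2 * ((N : ℝ) + 1) := by
          rw [← d3]
          apply mul_le_mul_of_nonneg_left _ (by positivity)
          linarith
    linarith

theorem p_HPB (h1 : T_DIC) (h2 : T_TBM) (h3 : T_PGH) (h4 : T_MXQ) (h5 : T_FPB) (h6 : FKT.T_EXI)
    (h7 : FKT.T_DOM) (h8 : FKT.T_LOC) : T_HPB := by
  intro d p0 p1 q hyp
  have hd : 0 < d := by have := hyp.hd; omega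
  have h01 := hyp.h01
  have h00 := hyp.h0
  have hp1 := hyp.h1
  have hq := hyp.hq
  have hq0 : (0 : ℝ) < q := lt_of_lt_of_le one_pos hq
  obtain ⟨μ0, hμ0, hθ⟩ := hyp.per
  obtain ⟨pa, hpa, hpa1⟩ := exists_between h01
  obtain ⟨pb, hpb, hpb1⟩ := exists_between hpa1
  obtain ⟨c0, hc0, hD0⟩ := h1 d hd q p0 pa hq h00 hpa (hpa1.trans hp1)
  -- a smaller exponent
  set c : ℝ := min c0 1 with hcdef
  have hc : 0 < c := lt_min hc0 one_pos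
  have hc1 : c ≤ 1 := min_le_right _ _
  have hD : ∀ (M : ℕ) (A : ℕ → Set (Ed d) → Prop), Fam d M A →
      ∀ μ1 μ2 : Measure (Ed d → Bool), IsWired d p0 q μ1 → IsWired d pa q μ2 →
      ∀ r : ℕ, 16 ≤ r → (r : ℝ) ^ (-c) ≤ fpr μ1 A r → 1 - (r : ℝ) ^ (-c) ≤ fpr μ2 A (2 * r) := by
    intro M A hA μ1 μ2 hw1 hw2 r hr hle
    have hr1 : (1 : ℝ) ≤ r := by
      have : 1 ≤ r := by omega
      exact_mod_cast this
    have hcc : (r : ℝ) ^ (-c0) ≤ (r : ℝ) ^ (-c) :=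
      Real.rpow_le_rpow_of_exponent_le hr1 (by linarith [min_le_left c0 1])
    have := hD0 M A hA μ1 μ2 hw1 hw2 r hr (hcc.trans hle)
    linarith
  have hd' : (0 : ℝ) < d := by exact_mod_cast hd
  refine ⟨min (1 / 2) (c / (4 * d)), lt_min (by norm_num) (by positivity), min_le_left _ _, ?_⟩
  intro η C hη hηlt hC
  obtain ⟨CM, hCM, hmain⟩ := HPB_main h2 h4 h6 h7 h8 d hd p0 pa pb q c h00 hpa hpb
    (hpb1.trans hp1) hq hD μ0 hμ0
  obtain ⟨n0, hn02, hnum⟩ := HPB_num d hd c (μ0.real (Inf0 d)) CM η hc hc1 hθ hCM hη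
    (hηlt.trans_le (min_le_left _ _)) (hηlt.trans_le (min_le_right _ _))
  obtain ⟨cf, hcf, hF⟩ := h5 pb p1 q ((h00.trans hpa).trans hpb) hpb1 hp1 hq
  obtain ⟨k, hk⟩ := exists_nat_ge (C / (c / 4 * cf))
  refine ⟨k, n0, fun n N hn hN => ?_⟩
  obtain ⟨e1, e2, e3, e4, e5⟩ := hnum n N hn hN
  set m : ℕ := ⌊(n : ℝ) ^ (1 - η)⌋₊ with hm
  obtain ⟨i, ε, hε, hv⟩ := h3 d hd p0 q μ0 hμ0 n m (by omega) (by omega)
  refine ⟨i, ε, hε, fun s hs => ?_⟩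
  obtain ⟨v, hv1, hv2, hv3⟩ := hv s hs
  refine ⟨v, hv1, hv2, ?_⟩
  have hm1 := hmain n m N v e1 e2 e3 (e4.trans hv3)
  have hm2 := hm1.trans e5
  have hsub : eb (0 : Vx d) (2 * n) ⊆ es (bx (0 : Vx d) N) := by
    rw [FKP.es_bx]; exact HPB_eb e3
  have hf := hF d (bx (0 : Vx d) N) (eb (0 : Vx d) (2 * n)) hsub (bx (0 : Vx d) (2 * m))
    (bx v (2 * m)) k
  have hpb0 : 0 < pb := (h00.trans hpa).trans hpb
  have hnn : 0 ≤ fr (bx (0 : Vx d) N) pb q (fun ω => ind (¬ ∃ x ∈ bx (0 : Vx d) (2 * m),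
        ∃ y ∈ bx v (2 * m), Cf (ω ∩ eb (0 : Vx d) (2 * n)) x y)) :=
    Ex_nonneg hpb0 (hpb1.trans hp1) hq0 fun ω _ => ind_nonneg _
  have hexp : 0 ≤ cf * ((k : ℝ) + 1) := by positivity
  have hP0 : P0 (0 : Vx d) N p1 q (fun ω => ¬ Hop 0 v (2 * m) (2 * n) k ω) =
      fr (bx (0 : Vx d) N) p1 q (fun ω => ind (¬ ∃ x ∈ bx (0 : Vx d) (2 * m),
        ∃ y ∈ bx v (2 * m), Fpl (eb (0 : Vx d) (2 * n)) k ω x y)) := by
    unfold P0 Hop
    rw [zero_add]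
  rw [hP0]
  refine hf.trans ((Real.rpow_le_rpow hnn hm2 hexp).trans ?_)
  have hn1 : (1 : ℝ) ≤ n := by
    have : 1 ≤ n := by omega
    exact_mod_cast this
  rw [← Real.rpow_mul (by linarith)]
  apply Real.rpow_le_rpow_of_exponent_le hn1
  have hk' : C / (c / 4 * cf) ≤ (k : ℝ) + 1 := by linarith
  rw [div_le_iff₀ (by positivity)] at hk'
  nlinarith

end Pool.Agent.FKS
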