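import Pool.Agent.FKS.TargetsC
import Pool.Agent.FKP.Lem

/-!
# Project FKS: target HPS, the hops in the form used for the top scales
-/

set_option autoImplicit false

namespace Pool.Agent.FKS

open Filter MeasureTheory Pool.Agent.FKP
open Pool.Agent.FKT hiding ind

theorem HPS_bx {d : ℕ} (x : Vx d) {m n : ℕ} (h : m ≤ n) : bx x m ⊆ bx x n := by
  intro y hy
  rw [bx, Finset.mem_Icc, Pi.le_def, Pi.le_def] at hy ⊢
  have hc : (m : ℤ) ≤ n := by exact_mod_cast h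
  exact ⟨fun i => by have := hy.1 i; linarith, fun i => by have := hy.2 i; linarith⟩

theorem HPS_eb {d : ℕ} (x : Vx d) {m n : ℕ} (h : m ≤ n) : eb x m ⊆ eb x n :=
  es_mono (HPS_bx x h)

/-- First passage connections are monotone in the region. -/
theorem HPS_fpl {d : ℕ} {F F' : Finset (Ed d)} (hF : F ⊆ F') {k : ℕ} {ω : Finset (Ed d)}
    {x y : Vx d} (h : Fpl F k ω x y) : Fpl F' k ω x y := by
  obtain ⟨T, hT, hc, h⟩ := h
  refine ⟨T, hT.trans hF, hc, ?_⟩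
  have hs : ((ω ∩ F) ∪ T : Finset (Ed d)) ⊆ (ω ∩ F') ∪ T :=
    Finset.union_subset_union (Finset.inter_subset_inter_left hF) subset_rfl
  exact Con_mono (fun _ _ h => h) (Finset.coe_subset.mpr hs) h

/-- Probabilities are monotone. -/
theorem HPS_P0 {d N : ℕ} {p q : ℝ} (hp : 0 < p) (hp1 : p < 1) (hq : 1 ≤ q) {x : Vx d}
    {Q Q' : Finset (Ed d) → Prop} (h : ∀ ω, Q ω → Q' ω) : P0 x N p q Q ≤ P0 x N p q Q' :=
  Ex_mono hp hp1 (by linarith) fun ω _ => ind_mono (h ω)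

/-- The estimates for large `n`. -/
theorem HPS_num {η0 : ℝ} (h0 : 0 < η0) (h1 : η0 ≤ 1 / 2) {n D : ℕ} (hn : 1 ≤ n)
    (hD : (2 * D + 5 : ℝ) ≤ (n : ℝ) ^ (η0 / 4)) {m m' : ℕ}
    (hm : m = ⌊(n : ℝ) ^ (1 - η0 / 4)⌋₊) (hm' : m' = ⌊((2 * n : ℕ) : ℝ) ^ (1 - η0 / 2)⌋₊) :
    2 * m' ≤ m ∧ 1 ≤ m ∧ 2 * (D * m) + 2 * m' + 4 ≤ n ∧ 6 * m' + 2 ≤ 2 * n := by
  have hx : (1 : ℝ) ≤ n := by exact_mod_cast hn
  have hx0 : (0 : ℝ) < n := by linarith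
  have hX1 : (1 : ℝ) ≤ (n : ℝ) ^ (1 - η0 / 4) := Real.one_le_rpow hx (by linarith)
  have hmle : (m : ℝ) ≤ (n : ℝ) ^ (1 - η0 / 4) := by
    rw [hm]; exact Nat.floor_le (by positivity)
  have hmle' : (m' : ℝ) ≤ ((2 * n : ℕ) : ℝ) ^ (1 - η0 / 2) := by
    rw [hm']; exact Nat.floor_le (by positivity)
  have h2 : ((2 * n : ℕ) : ℝ) ^ (1 - η0 / 2) ≤ 2 * (n : ℝ) ^ (1 - η0 / 2) := by
    push_cast
    rw [Real.mul_rpow (by norm_num) hx0.le]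
    refine mul_le_mul_of_nonneg_right ?_ (by positivity)
    calc (2 : ℝ) ^ (1 - η0 / 2) ≤ 2 ^ (1 : ℝ) :=
          Real.rpow_le_rpow_of_exponent_le (by norm_num) (by linarith)
      _ = 2 := Real.rpow_one 2
  have h3 : (n : ℝ) ^ (η0 / 4) * (n : ℝ) ^ (1 - η0 / 2) = (n : ℝ) ^ (1 - η0 / 4) := by
    rw [← Real.rpow_add hx0]; congr 1; ring
  have h4 : (n : ℝ) ^ (η0 / 4) * (n : ℝ) ^ (1 - η0 / 4) = n := by
    rw [← Real.rpow_add hx0, show η0 / 4 + (1 - η0 / 4) = 1 by ring, Real.rpow_one]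
  have hDpos : (0 : ℝ) ≤ D := Nat.cast_nonneg D
  have hY : (0 : ℝ) < (n : ℝ) ^ (1 - η0 / 2) := by positivity
  have h5 : (4 : ℝ) * (n : ℝ) ^ (1 - η0 / 2) ≤ (n : ℝ) ^ (1 - η0 / 4) := by
    rw [← h3]
    exact mul_le_mul_of_nonneg_right (by linarith) hY.le
  have h6 : (2 * m' : ℝ) ≤ (n : ℝ) ^ (1 - η0 / 4) := by linarith
  have h7 : (2 * D + 5 : ℝ) * (n : ℝ) ^ (1 - η0 / 4) ≤ n := by
    calc (2 * D + 5 : ℝ) * (n : ℝ) ^ (1 - η0 / 4) ≤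
        (n : ℝ) ^ (η0 / 4) * (n : ℝ) ^ (1 - η0 / 4) :=
          mul_le_mul_of_nonneg_right hD (by linarith)
      _ = n := h4
  have h8 : (D * m : ℝ) ≤ D * (n : ℝ) ^ (1 - η0 / 4) := mul_le_mul_of_nonneg_left hmle hDpos
  have h9 : (0 : ℝ) ≤ D * (n : ℝ) ^ (1 - η0 / 4) := by positivity
  refine ⟨?_, ?_, ?_, ?_⟩
  · rw [hm]
    refine Nat.le_floor ?_
    push_cast
    exact h6
  · rw [hm]
    refine Nat.le_floor ?_
    push_cast
    exact hX1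
  · have : (2 * (D * m) + 2 * m' + 4 : ℝ) ≤ n := by nlinarith
    exact_mod_cast this
  · have : (6 * m' + 2 : ℝ) ≤ 2 * n := by nlinarith
    exact_mod_cast this

/-- HPS. -/
theorem p_HPS (h1 : T_HPB) (h2 : T_SGN) (h3 : T_DSQ) : T_HPS := by
  intro d p0 p1 q hyp
  obtain ⟨η0, hη0, hη1, H⟩ := h1 d p0 p1 q hyp
  refine ⟨η0 / 4, d + 4, 8, 4 * d, by positivity, by linarith, ?_⟩
  intro D C hC
  obtain ⟨k, n1, Hk⟩ := H (η0 / 2) C (by positivity) (by linarith) hC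
  have hev : ∀ᶠ n : ℕ in atTop, (2 * D + 5 : ℝ) ≤ (n : ℝ) ^ (η0 / 4) :=
    ((tendsto_rpow_atTop (by positivity : 0 < η0 / 4)).comp
      tendsto_natCast_atTop_atTop).eventually_ge_atTop _
  obtain ⟨n2, hn2⟩ := eventually_atTop.mp hev
  refine ⟨k, max (max n1 n2) (2 ^ (d + 3)), ?_⟩
  intro n N m hn hN hm y hy
  have hn1 : n1 ≤ n := le_trans (le_trans (le_max_left _ _) (le_max_left _ _)) hn
  have hn2' : n2 ≤ n := le_trans (le_trans (le_max_right _ _) (le_max_left _ _)) hn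
  have hn3 : 2 ^ (d + 3) ≤ n := le_trans (le_max_right _ _) hn
  have hnp : 1 ≤ n := le_trans Nat.one_le_two_pow hn3
  obtain ⟨e1, e2, e3, e4⟩ := HPS_num hη0 hη1 hnp (hn2 n hn2') hm rfl
  set m' := ⌊((2 * n : ℕ) : ℝ) ^ (1 - η0 / 2)⌋₊ with hm'
  have hN' : (2 * n) ^ (d + 3) ≤ N := by
    refine le_trans ?_ hN
    rw [mul_pow, pow_succ n (d + 3), mul_comm]
    exact Nat.mul_le_mul_left _ hn3
  have hnC : ((2 * n : ℕ) : ℝ) ^ (-C) ≤ (n : ℝ) ^ (-C) := by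
    refine Real.rpow_le_rpow_of_nonpos (by exact_mod_cast hnp) ?_ (by linarith)
    exact_mod_cast (by omega : n ≤ 2 * n)
  have hp1 : 0 < p1 := hyp.h0.trans hyp.h01
  let Hv : Vx d → Prop := fun v => (∀ j, |v j| ≤ 2 * (n : ℤ)) ∧
    P0 (0 : Vx d) N p1 q (fun ω => ¬ Hop 0 v (2 * m') (2 * (2 * n)) k ω) ≤
      ((2 * n : ℕ) : ℝ) ^ (-C)
  have inv : ∀ (v : Vx d) (π : Equiv.Perm (Fin d)) (ε : Fin d → ℤ),
      (∀ i, ε i = 1 ∨ ε i = -1) → Hv v → Hv (sgp π ε v) := by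
    rintro v π ε hε ⟨hv1, hv2⟩
    refine ⟨fun j => ?_, ?_⟩
    · have : |sgp π ε v j| = |v (π j)| := by
        rw [sgp, abs_mul]
        rcases hε j with h | h <;> rw [h] <;> simp
      rw [this]
      exact hv1 _
    · rw [h2 d N (2 * m') (2 * (2 * n)) k p1 q v π ε hε]
      exact hv2
  obtain ⟨i, ε, hε, hs⟩ := Hk (2 * n) N (by omega) hN'
  obtain ⟨h, hh0, hhb, hhe, hhf⟩ := h3 d n m' (D * m) Hv e3 e4 inv (fun v hv => hv.1)
    ⟨i, ε, hε, fun s hsn => by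
      obtain ⟨v, hv1, hv2, hv3⟩ := hs s hsn
      refine ⟨v, ⟨fun j => ?_, hv3⟩, hv1⟩
      have := hv2 j
      push_cast at this
      exact this⟩ y hy
  refine ⟨h, hh0, hhb, fun i => ?_, fun j hj => ⟨(hhf j hj).1, ?_⟩⟩
  · refine (hhe i).trans ?_
    have : (4 * (m' : ℤ) + 2) ≤ 8 * (m : ℤ) := by
      have h1 : (2 * m' : ℤ) ≤ m := by exact_mod_cast e1
      have h2 : (1 : ℤ) ≤ m := by exact_mod_cast e2
      linarith
    push_cast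
    exact this
  · refine le_trans (HPS_P0 hp1 hyp.h1 hyp.hq fun ω hω => ?_) ((hhf j hj).2.2.trans hnC)
    rintro ⟨x, hx, z, hz, hf⟩
    rw [zero_add] at hz
    exact hω ⟨x, HPS_bx _ e1 hx, z, HPS_bx _ e1 hz, HPS_fpl (HPS_eb _ (by omega)) hf⟩

end Pool.Agent.FKS
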