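import Pool.Agent.FKS.TargetsD

/-!
# Project FKS, part D: the start (INM)
-/

set_option autoImplicit false

namespace Pool.Agent.FKS

open Filter MeasureTheory Pool.Agent.FKP
open Pool.Agent.FKT hiding ind

/-- The number of vertices of a box. -/
theorem INM_card_bx {d : ℕ} (x : Vx d) (n : ℕ) : (bx x n).card = (2 * n + 1) ^ d := by
  unfold bx
  rw [Pi.card_Icc]
  have h : ∀ i ∈ (Finset.univ : Finset (Fin d)),
      (Finset.Icc (x i - (n : ℤ)) (x i + n)).card = 2 * n + 1 := by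
    intro i _
    rw [Int.card_Icc]
    omega
  rw [Finset.prod_congr rfl h, Finset.prod_const]
  simp

/-- If every tile is met by a boundary cluster then `Cov` holds with one cluster for each tile. -/
theorem INM_cov {d : ℕ} (L σ M : ℕ) (ω : Finset (Ed d))
    (h : ∀ a ∈ bx (0 : Vx d) M, ∃ z ∈ bd (0 : Vx d) L, Mt L σ ω z a) :
    Cov L σ M ((2 * M + 1) ^ d) ω := by
  classical
  choose! z hz hm using h
  refine ⟨(bx (0 : Vx d) M).image z, ?_, ?_, ?_⟩
  · intro v hv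
    obtain ⟨a, ha, rfl⟩ := Finset.mem_image.mp hv
    exact hz a ha
  · exact Finset.card_image_le.trans (INM_card_bx (0 : Vx d) M).le
  · intro a ha
    exact ⟨z a, Finset.mem_image_of_mem z ha, hm a ha⟩

/-- The union bound for one configuration. -/
theorem INM_ind {d : ℕ} (L σ M : ℕ) (ω : Finset (Ed d)) :
    ind (¬ Cov L σ M ((2 * M + 1) ^ d) ω) ≤
      ∑ a ∈ bx (0 : Vx d) M, ind (¬ ∃ z ∈ bd (0 : Vx d) L, Mt L σ ω z a) := by
  classical
  by_cases hc : Cov L σ M ((2 * M + 1) ^ d) ω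
  · rw [ind_false (not_not.mpr hc)]
    exact Finset.sum_nonneg fun a _ => ind_nonneg _
  · have h : ∃ a ∈ bx (0 : Vx d) M, ¬ ∃ z ∈ bd (0 : Vx d) L, Mt L σ ω z a := by
      by_contra hcon
      push Not at hcon
      exact hc (INM_cov L σ M ω hcon)
    obtain ⟨a, ha, hna⟩ := h
    rw [ind_true hc]
    have h1 : ind (¬ ∃ z ∈ bd (0 : Vx d) L, Mt L σ ω z a) = 1 := ind_true hna
    calc (1 : ℝ) = ind (¬ ∃ z ∈ bd (0 : Vx d) L, Mt L σ ω z a) := h1.symm
      _ ≤ ∑ a ∈ bx (0 : Vx d) M, ind (¬ ∃ z ∈ bd (0 : Vx d) L, Mt L σ ω z a) :=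
        Finset.single_le_sum
          (f := fun a => ind (¬ ∃ z ∈ bd (0 : Vx d) L, Mt L σ ω z a))
          (fun b _ => ind_nonneg _) ha

theorem p_INM : T_INM := by
  intro d L σ M Λ p q hp hp1 hq
  unfold fr fw
  rw [← Ex_sum]
  exact Ex_mono hp hp1 (by linarith) fun ω _ => INM_ind L σ M ω

end Pool.Agent.FKS
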