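import Pool.Agent.FKS.TargetsD
import Pool.Agent.FKT.P_BER

/-! # FKS-ISL: a set of boundary clusters with many places is glued to its complement -/

set_option autoImplicit false

namespace Pool.Agent.FKS

open Filter MeasureTheory Pool.Agent.FKP
open Pool.Agent.FKT hiding ind

theorem ISL_mem_bx {d : ℕ} {u v : Vx d} {n : ℕ} : v ∈ bx u n ↔ ∀ i, |v i - u i| ≤ n := by
  simp only [bx, Finset.mem_Icc, Pi.le_def]
  constructor
  · rintro ⟨h1, h2⟩ i
    rw [abs_le]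
    constructor <;> linarith [h1 i, h2 i]
  · intro h
    constructor <;> intro i <;> have := abs_le.1 (h i) <;> linarith [this.1, this.2]

theorem ISL_mem_eb {d : ℕ} {u : Vx d} {n : ℕ} {e : Ed d} (h : e ∈ eb u n) :
    e.1 ∈ bx u n ∧ tgt e ∈ bx u n := (mem_es (S := bx u n) (e := e)).1 h

theorem ISL_nb {d : ℕ} {a b : Vx d} (h : Nb a b) (i : Fin d) : |b i - a i| ≤ 1 := by
  rcases h with h | ⟨j, h | h⟩
  · subst h
    simp
  · subst h
    simp only [Pi.add_apply, Pi.single_apply]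
    split_ifs <;> simp
  · subst h
    simp only [Pi.add_apply, Pi.single_apply]
    split_ifs <;> simp

theorem p_ISL (h1 : T_SPD) (h2 : T_BEP) : T_ISL := by
  intro d L σ ρ Ψ M R t N hR hL hρ hN G ε hε0 hε1 hG ω Z U hZ hglu hU ht
  have hPl : ∀ p ∈ Pl (Tl L σ M ω U) (Tl L σ M ω (Z \ U)),
      p.1 ∈ Tl L σ M ω U ∧ p.2 ∈ Tl L σ M ω (Z \ U) ∧ Nb p.1 p.2 := by
    intro p hp
    classical
    unfold Pl at hp
    obtain ⟨h3, h4⟩ := Finset.mem_filter.1 hp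
    exact ⟨(Finset.mem_product.1 h3).1, (Finset.mem_product.1 h3).2, h4⟩
  have hTl : ∀ (W : Finset (Vx d)) (a : Vx d), a ∈ Tl L σ M ω W →
      a ∈ bx (0 : Vx d) M ∧ ∃ z ∈ W, Mt L σ ω z a := by
    intro W a ha
    classical
    unfold Tl at ha
    exact Finset.mem_filter.1 ha
  obtain ⟨Q, hQP, hcard, hsep⟩ := h1 d R hR _ (fun p hp => (hPl p hp).2.2)
  have hNQ : N ≤ Q.card := by
    have h3 : N * ((2 * d + 1) * R ^ d) ≤ Q.card * ((2 * d + 1) * R ^ d) := by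
      calc N * ((2 * d + 1) * R ^ d) ≤ t := hN
        _ ≤ _ := ht
        _ ≤ (2 * d + 1) * R ^ d * Q.card := hcard
        _ = Q.card * ((2 * d + 1) * R ^ d) := by ring
    have hpos : 0 < (2 * d + 1) * R ^ d := by positivity
    exact Nat.le_of_mul_le_mul_right h3 hpos
  have hctr : ∀ (a : Vx d) (i : Fin d), ctr σ a i = (2 * (σ : ℤ) + 1) * a i := fun a i => rfl
  have hF : ∀ p ∈ Q, ∃ F : Finset (Ed d), F ⊆ eb (ctr σ p.1) ρ ∧ F.card ≤ Ψ ∧
      ∃ z ∈ U, ∃ z' ∈ Z \ U, Cf ((ω ∩ eb (0 : Vx d) L) ∪ F) z z' := by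
    intro p hp
    obtain ⟨ha, hb, hnb⟩ := hPl p (hQP hp)
    obtain ⟨ha1, z, hz, u, hu, hzu⟩ := hTl _ _ ha
    obtain ⟨hb1, z', hz', v, hv, hzv⟩ := hTl _ _ hb
    have hu' : u ∈ bx (ctr σ p.1) (3 * σ + 1) := by
      unfold til at hu
      rw [ISL_mem_bx] at hu ⊢
      intro i
      have := hu i
      push_cast
      linarith
    have hv' : v ∈ bx (ctr σ p.1) (3 * σ + 1) := by
      unfold til at hv
      rw [ISL_mem_bx] at hv ⊢
      intro i
      have h3 := abs_le.1 (hv i)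
      have h4 := abs_le.1 (ISL_nb hnb i)
      rw [hctr] at h3 ⊢
      rw [abs_le]
      push_cast
      constructor <;> nlinarith [h3.1, h3.2, h4.1, h4.2]
    obtain ⟨F, hF1, hF2, hF3⟩ := hglu p.1 ha1 u hu' v hv' ⟨z, hZ (hU hz), hzu⟩
      ⟨z', hZ (Finset.mem_sdiff.1 hz').1, hzv⟩
    refine ⟨F, hF1, hF2, z, hz, z', hz', ?_⟩
    have mono : ∀ x y : Vx d, Cf (ω ∩ eb (0 : Vx d) L) x y →
        Cf ((ω ∩ eb (0 : Vx d) L) ∪ F) x y := by
      intro x y hxy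
      refine Con_mono (fun _ _ h => h) ?_ hxy
      intro e he
      rw [Finset.mem_coe] at he ⊢
      exact Finset.mem_union_left _ he
    exact Con_trans (mono _ _ hzu) (Con_trans hF3 (Con_symm (mono _ _ hzv)))
  choose! F hF1 hF2 hF3 using hF
  have hsub : ∀ p ∈ Q, eb (ctr σ p.1) ρ ⊆ eb (0 : Vx d) L := by
    intro p hp
    obtain ⟨ha1, -⟩ := hTl _ _ (hPl p (hQP hp)).1
    have hb : bx (ctr σ p.1) ρ ⊆ bx (0 : Vx d) L := by
      intro v hv
      rw [ISL_mem_bx] at hv ha1 ⊢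
      intro i
      have h3 := abs_le.1 (hv i)
      have h4 := abs_le.1 (ha1 i)
      have h5 : (((2 * σ + 1) * M + ρ : ℕ) : ℤ) ≤ L := by exact_mod_cast hL
      rw [hctr] at h3
      push_cast at h5
      simp only [Pi.zero_apply, sub_zero] at h4 ⊢
      have h6 : (2 * (σ : ℤ) + 1) * p.1 i ≤ (2 * (σ : ℤ) + 1) * M :=
        mul_le_mul_of_nonneg_left h4.2 (by positivity)
      have h7 : (2 * (σ : ℤ) + 1) * (-(M : ℤ)) ≤ (2 * (σ : ℤ) + 1) * p.1 i :=
        mul_le_mul_of_nonneg_left h4.1 (by positivity)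
      rw [abs_le]
      constructor <;> linarith [h3.1, h3.2]
    exact es_mono hb
  have hdis : ∀ p ∈ Q, ∀ p' ∈ Q, p ≠ p' → Disjoint (F p) (F p') := by
    intro p hp p' hp' hne
    rw [Finset.disjoint_left]
    intro e he he'
    have h3 := ISL_mem_bx.1 (ISL_mem_eb (hF1 p hp he)).1
    have h4 := ISL_mem_bx.1 (ISL_mem_eb (hF1 p' hp' he')).1
    obtain ⟨i, hi⟩ := hsep p hp p' hp' hne
    have h5 := abs_le.1 (h3 i)
    have h6 := abs_le.1 (h4 i)
    rw [hctr] at h5 h6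
    have h7 : ((2 * ρ : ℕ) : ℤ) < (((2 * σ + 1) * R : ℕ) : ℤ) := by exact_mod_cast hρ
    push_cast at h7
    have h8 : (2 * (σ : ℤ) + 1) * R ≤ (2 * (σ : ℤ) + 1) * |p.1 i - p'.1 i| :=
      mul_le_mul_of_nonneg_left hi (by positivity)
    have h9 : (2 * (σ : ℤ) + 1) * |p.1 i - p'.1 i| =
        |(2 * (σ : ℤ) + 1) * p.1 i - (2 * (σ : ℤ) + 1) * p'.1 i| := by
      rw [← mul_sub, abs_mul, abs_of_pos (by positivity : (0 : ℤ) < 2 * (σ : ℤ) + 1)]
    have h10 : |(2 * (σ : ℤ) + 1) * p.1 i - (2 * (σ : ℤ) + 1) * p'.1 i| ≤ 2 * ρ := by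
      rw [abs_le]
      constructor <;> linarith [h5.1, h5.2, h6.1, h6.2]
    linarith
  have hmon := (FKT.p_BER (Ed d) ε G).2.2.2.2 hε0 hε1
  calc EB ε G (fun η => ind (∀ z ∈ U, ∀ z' ∈ Z \ U, ¬ Cf ((ω ∪ η) ∩ eb (0 : Vx d) L) z z'))
      ≤ EB ε G (fun η => ind (∀ p ∈ Q, ¬ F p ⊆ η)) := by
        refine hmon _ _ fun η _ => ind_mono ?_
        intro hcon p hp hpη
        obtain ⟨z, hz, z', hz', hc⟩ := hF3 p hp
        refine hcon z hz z' hz' (Con_mono (fun _ _ h => h) ?_ hc)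
        intro e he
        rw [Finset.mem_coe] at he ⊢
        rw [Finset.mem_union, Finset.mem_inter] at he
        rw [Finset.mem_inter, Finset.mem_union]
        rcases he with he | he
        · exact ⟨Or.inl he.1, he.2⟩
        · exact ⟨Or.inr (hpη he), hsub p hp (hF1 p hp he)⟩
    _ ≤ (1 - ε ^ Ψ) ^ Q.card := h2 _ _ G ε hε0 hε1 Ψ Q F
        (fun p hp => ⟨((hF1 p hp).trans (hsub p hp)).trans hG, hF2 p hp⟩) hdis
    _ ≤ (1 - ε ^ Ψ) ^ N := by
        refine pow_le_pow_of_le_one ?_ ?_ hNQ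
        · have : ε ^ Ψ ≤ 1 := pow_le_one₀ hε0 hε1
          linarith
        · have : 0 ≤ ε ^ Ψ := by positivity
          linarith

end Pool.Agent.FKS

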