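import Pool.Agent.FKS.TargetsD
import Pool.Agent.FKT.P_BER

set_option autoImplicit false

namespace Pool.Agent.FKS

open Filter MeasureTheory Pool.Agent.FKP
open Pool.Agent.FKT hiding ind

theorem ITM_m_pos {D : ℕ} {m : ℕ → ℕ} (h0 : 1 ≤ m 0) (hm : ∀ i, m (i + 1) = m i / (D + 1) + 1)
    (i : ℕ) : 1 ≤ m i := by
  cases i with
  | zero => exact h0
  | succ i => rw [hm]; exact Nat.le_add_left _ _

theorem ITM_m_step {D : ℕ} (hD : 1 ≤ D) {m : ℕ → ℕ} (h0 : 1 ≤ m 0)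
    (hm : ∀ i, m (i + 1) = m i / (D + 1) + 1) (i : ℕ) : m (i + 1) ≤ m i := by
  have h1 := ITM_m_pos h0 hm i
  have h2 : m i / (D + 1) ≤ m i / 2 := Nat.div_le_div_left (by omega) (by norm_num)
  rw [hm]
  rcases Nat.lt_or_ge (m i) 2 with h | h
  · have h3 : m i / 2 = 0 := Nat.div_eq_of_lt h
    omega
  · omega

theorem ITM_m_le {D : ℕ} (hD : 1 ≤ D) {m : ℕ → ℕ} (h0 : 1 ≤ m 0)
    (hm : ∀ i, m (i + 1) = m i / (D + 1) + 1) (i : ℕ) : m i ≤ m 0 := by
  induction i with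
  | zero => exact le_rfl
  | succ i ih => exact (ITM_m_step hD h0 hm i).trans ih

theorem ITM_M_le {J d t : ℕ} {M : ℕ → ℕ} (hM : ∀ i < J, M (i + 1) + 4 * d * t ≤ M i)
    (i : ℕ) (hi : i ≤ J) : M i ≤ M 0 := by
  induction i with
  | zero => exact le_rfl
  | succ i ih =>
    have h1 := hM i (by omega)
    have h2 := ih (by omega)
    omega

theorem ITM_Cov_mono {d L σ M m : ℕ} {ω ω' : Finset (Ed d)} (h : ω ⊆ ω')
    (hc : Cov L σ M m ω) : Cov L σ M m ω' := by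
  obtain ⟨Z, h1, h2, h3⟩ := hc
  refine ⟨Z, h1, h2, fun a ha => ?_⟩
  obtain ⟨z, hz, u, hu, hzu⟩ := h3 a ha
  refine ⟨z, hz, u, hu, ?_⟩
  unfold Cf FKT.Cn at hzu ⊢
  exact Con_mono (fun _ _ h => h)
    (by exact_mod_cast Finset.inter_subset_inter_right h) hzu

theorem ITM_EB_mono {E : Type} {G : Finset E} {ε : ℝ} (h0 : 0 ≤ ε) (h1 : ε ≤ 1)
    {f g : Finset E → ℝ} (h : ∀ η, f η ≤ g η) : EB ε G f ≤ EB ε G g := by
  unfold EB
  exact Finset.sum_le_sum fun η _ =>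
    mul_le_mul_of_nonneg_left (h η) (FKT.BER_.bw_nonneg h0 h1 G η)

theorem ITM_EB_le_one {E : Type} [DecidableEq E] {G : Finset E} {ε : ℝ} (h0 : 0 ≤ ε) (h1 : ε ≤ 1)
    (P : Finset E → Prop) : EB ε G (fun η => ind (P η)) ≤ 1 := by
  have h2 := ITM_EB_mono (G := G) h0 h1 (f := fun η => ind (P η)) (g := fun _ => 1)
    fun η => ind_le_one _
  rwa [FKT.BER_.total] at h2

theorem ITM_EB_neg {E : Type} (ε : ℝ) (G : Finset E) (f : Finset E → ℝ) :
    EB ε G (fun η => (-1) * f η) = (-1) * EB ε G f := by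
  have := FKT.BER_.lin ε G (-1) 0 f f
  simpa using this

theorem p_ITM (h1 : T_STM) : T_ITM := by
  intro d L σ ρ Ψ R t N D hd hR hD hρ hN Λ q e hq he0 he1 heb J
  have hC0 : 0 ≤ 1 - e ^ Ψ := by linarith [pow_le_one₀ (n := Ψ) he0 he1]
  induction J with
  | zero =>
    intro M m p ε _ _ _ _ _ _ _
    simp
  | succ J ih =>
    intro M m p ε hp hε hm0 hm hM hL1 hL2
    have ih' := ih M m p ε (fun i hi => hp i (by omega)) (fun i hi => hε i (by omega)) hm0 hm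
      (fun i hi => hM i (by omega)) hL1 hL2
    obtain ⟨heε, hε1, hSpk⟩ := hε J (by omega)
    have hε0 : 0 ≤ ε J := he0.trans heε
    have hMJ : M J ≤ M 0 := ITM_M_le (J := J + 1) (d := d) (t := t)
      (fun i hi => (hM i hi).1) J (by omega)
    have hmJ := ITM_m_le hD hm0 hm J
    set C : ℝ := ((m 0 : ℝ) + 1) ^ D * (1 - e ^ Ψ) ^ N with hC
    have hCn : 0 ≤ C := by positivity
    obtain ⟨hpJ0, hpJ1⟩ := hp J (by omega)
    obtain ⟨hpK0, hpK1⟩ := hp (J + 1) le_rfl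
    have hq0 : 0 < q := by linarith
    -- the sprinkling
    have h2 := hSpk (fun ω => (-1) * ind (¬ Cov L σ (M (J + 1)) (m (J + 1)) ω)) (by
      intro a b hab _
      have := ind_mono (fun h : ¬ Cov L σ (M (J + 1)) (m (J + 1)) b =>
        fun h' => h (ITM_Cov_mono hab h'))
      linarith)
    simp only [ITM_EB_neg] at h2
    have h3 : fr Λ (p (J + 1)) q (fun ω => ind (¬ Cov L σ (M (J + 1)) (m (J + 1)) ω)) ≤
        fr Λ (p J) q (fun ω => EB (ε J) (es Λ) fun η =>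
          ind (¬ Cov L σ (M (J + 1)) (m (J + 1)) (ω ∪ η))) := by
      unfold fr fw at h2 ⊢
      rw [Ex_mul_left, Ex_mul_left] at h2
      linarith
    -- the inner expectation
    have h4 : fr Λ (p J) q (fun ω => EB (ε J) (es Λ) fun η =>
        ind (¬ Cov L σ (M (J + 1)) (m (J + 1)) (ω ∪ η))) ≤
        fr Λ (p J) q (fun ω => (ind (¬ Cov L σ (M J) (m J) ω) +
          ind (¬ Glu L σ ρ Ψ (M J) ω)) + C) := by
      unfold fr fw
      apply Ex_mono hpJ0 hpJ1 hq0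
      intro ω _
      by_cases hc : Cov L σ (M J) (m J) ω
      · by_cases hg : Glu L σ ρ Ψ (M J) ω
        · have hσM : (2 * σ + 1) * M J ≤ (2 * σ + 1) * M 0 := Nat.mul_le_mul_left _ hMJ
          have h5 := h1 d L σ ρ Ψ (M J) (M (J + 1)) R t N D (m J) hd hR (by omega) (by omega) hρ
            hN (hM J (by omega)).1 (hM J (by omega)).2 (es Λ) (ε J) hε0 hε1 heb ω hc hg
          rw [← hm J] at h5
          have h6 : ((m J : ℝ) + 1) ^ D * (1 - ε J ^ Ψ) ^ N ≤ C := by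
            have h7 : (m J : ℝ) ≤ m 0 := by exact_mod_cast hmJ
            have h8 : 1 - ε J ^ Ψ ≤ 1 - e ^ Ψ := by linarith [pow_le_pow_left₀ he0 heε Ψ]
            have h9 : 0 ≤ 1 - ε J ^ Ψ := by linarith [pow_le_one₀ (n := Ψ) hε0 hε1]
            rw [hC]
            gcongr
          have h10 := ind_nonneg (¬ Cov L σ (M J) (m J) ω)
          have h11 := ind_nonneg (¬ Glu L σ ρ Ψ (M J) ω)
          linarith
        · have h5 := ITM_EB_le_one (G := es Λ) hε0 hε1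
            (fun η => ¬ Cov L σ (M (J + 1)) (m (J + 1)) (ω ∪ η))
          have h10 := ind_nonneg (¬ Cov L σ (M J) (m J) ω)
          have h11 := ind_true (P := ¬ Glu L σ ρ Ψ (M J) ω) hg
          linarith
      · have h5 := ITM_EB_le_one (G := es Λ) hε0 hε1
            (fun η => ¬ Cov L σ (M (J + 1)) (m (J + 1)) (ω ∪ η))
        have h10 := ind_true (P := ¬ Cov L σ (M J) (m J) ω) hc
        have h11 := ind_nonneg (¬ Glu L σ ρ Ψ (M J) ω)
        linarith
    have h5 : fr Λ (p J) q (fun ω => (ind (¬ Cov L σ (M J) (m J) ω) +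
          ind (¬ Glu L σ ρ Ψ (M J) ω)) + C) =
        fr Λ (p J) q (fun ω => ind (¬ Cov L σ (M J) (m J) ω)) +
          fr Λ (p J) q (fun ω => ind (¬ Glu L σ ρ Ψ (M J) ω)) + C := by
      unfold fr fw
      rw [Ex_add, Ex_add, Ex_const hpJ0 hpJ1 hq0]
    rw [Finset.sum_range_succ]
    push_cast
    linarith

end Pool.Agent.FKS
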