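import Pool.Agent.FKS.TargetsB

/-!
# Project FKS, LOX: assembly of part B
-/

set_option autoImplicit false

namespace Pool.Agent.FKS

open Filter MeasureTheory Pool.Agent.FKP
open Pool.Agent.FKT hiding ind

theorem LOX_bx {d : ℕ} (u : Vx d) {m n : ℕ} (h : m ≤ n) : bx u m ⊆ bx u n := by
  intro v hv
  rw [mem_bx] at *
  intro i
  have := hv i
  have h' : (m : ℤ) ≤ n := by exact_mod_cast h
  omega

theorem LOX_eb {d : ℕ} (u : Vx d) {m n : ℕ} (h : m ≤ n) : eb u m ⊆ eb u n :=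
  es_mono (LOX_bx u h)

theorem LOX_mono {d : ℕ} {p q : ℝ} (hp : 0 < p) (hp1 : p < 1) (hq : 1 ≤ q) (x : Vx d) (N : ℕ)
    {Q Q' : Finset (Ed d) → Prop} (h : ∀ ω, Q ω → Q' ω) : P0 x N p q Q ≤ P0 x N p q Q' := by
  unfold P0 fr fw
  exact Ex_mono hp hp1 (by linarith) fun ω _ => ind_mono (h ω)

theorem LOX_not {d : ℕ} {p q : ℝ} (hp : 0 < p) (hp1 : p < 1) (hq : 1 ≤ q) (x : Vx d) (N : ℕ)
    {Q Q' : Finset (Ed d) → Prop} (h : ∀ ω, Q' ω → Q ω) :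
    P0 x N p q (fun ω => ¬ Q ω) ≤ P0 x N p q (fun ω => ¬ Q' ω) :=
  LOX_mono hp hp1 hq x N fun ω h1 h2 => h1 (h ω h2)

theorem LOX_zero {d : ℕ} {p q : ℝ} (hp : 0 < p) (hp1 : p < 1) (hq : 1 ≤ q) (x : Vx d) (N : ℕ)
    {Q : Finset (Ed d) → Prop} (h : ∀ ω, Q ω) : P0 x N p q (fun ω => ¬ Q ω) = 0 := by
  have hq0 : 0 < q := by linarith
  unfold P0 fr fw
  rw [← Ex_const (s := Prod.fst) (t := tgt) (R := no (Vx d)) (U := bx x N)
    (G := es (bx x N)) hp hp1 hq0 0]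
  exact Ex_congr fun ω _ => ind_false fun h' => h' (h ω)

theorem LOX_rad {d : ℕ} {u : Vx d} {ρ ρ' r R k : ℕ} {ω : Finset (Ed d)} (hρ : ρ ≤ ρ')
    (h : Gl u ρ' r R k ω) : Gl u ρ r R k ω := fun K C hK hC =>
  h K C (hK.trans (LOX_bx u hρ)) (hC.trans (LOX_bx u hρ))

theorem p_LOX (hP : T_PST) (hB : T_BAS) (hN : T_NUL) (hD : T_DPM) : T_LOX := by
  intro d p0 p1 q hyp
  obtain ⟨A, B, m, hA, hAB, hm, hst⟩ := hP d p0 p1 q hyp
  have hp : 0 < p1 := hyp.h0.trans hyp.h01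
  have hp1 : p1 < 1 := hyp.h1
  have hq : 1 ≤ q := hyp.hq
  refine ⟨A, B, ?_⟩
  intro K C ε hK hC hε
  obtain ⟨k, s0, hs0, hstep⟩ := hst (max K 20) (max C (8 * (d : ℝ) * m + 1)) (le_max_right _ _)
    (le_max_right _ _)
  set K' : ℕ := max K 20 with hK'
  set C' : ℝ := max C (8 * (d : ℝ) * m + 1) with hC'
  have hK1 : 1 ≤ K' := hK.trans (le_max_left _ _)
  obtain ⟨r1, hr1⟩ := hN k ((eb (0 : Vx d) (((max s0 K' + 1) ^ m) ^ A)).card) m (max s0 K')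
    (fun r Φ => K' ≤ r → P0 (0 : Vx d) (r ^ B) p1 q
      (fun ω => ¬ Gl 0 (K' * r) r (r ^ A) Φ ω) ≤ (r : ℝ) ^ (-C')) hm
    (hs0.trans (le_max_left _ _))
    (by
      intro r Φ Φ' hΦ h hr
      exact le_trans (LOX_not hp hp1 hq _ _ fun ω h2 => Gl_mono Finset.inter_subset_left hΦ h2)
        (h hr))
    (by
      intro r hr hKr
      have hr0 : 1 ≤ r := hK1.trans hKr
      have h1 : K' * r ≤ r ^ A := by
        calc K' * r ≤ r * r := Nat.mul_le_mul_right _ hKr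
          _ = r ^ 2 := (pow_two r).symm
          _ ≤ r ^ A := Nat.pow_le_pow_right hr0 hA
      have h2 : ∀ ω : Finset (Ed d), Gl (0 : Vx d) (K' * r) r (r ^ A)
          (eb (0 : Vx d) (((max s0 K' + 1) ^ m) ^ A)).card ω := fun ω =>
        hB d _ _ _ _ ω h1 (Finset.card_le_card (LOX_eb _ (Nat.pow_le_pow_left hr.le A)))
      rw [LOX_zero hp hp1 hq _ _ h2]
      positivity)
    (by
      intro s r Φ h1 h2 h3 h4 _
      exact hstep s r Φ ((le_max_left _ _).trans h1) h2 h3 (h4 ((le_max_right _ _).trans h1)))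
    ε hε
  refine ⟨max r1 K', fun r N hr hN' => ?_⟩
  have hr2 : K' ≤ r := (le_max_right _ _).trans hr
  have hr0 : 1 ≤ r := hK1.trans hr2
  have h1 := hr1 r ((le_max_left _ _).trans hr) hr2
  have h2 : P0 (0 : Vx d) N p1 q (fun ω => ¬ Gl 0 (K * r) r (r ^ A) ⌊ε * Real.log r⌋₊ ω) ≤
      P0 (0 : Vx d) (r ^ B) p1 q (fun ω => ¬ Gl 0 (K * r) r (r ^ A) ⌊ε * Real.log r⌋₊ ω) :=
    hD d (bx (0 : Vx d) N) 0 (r ^ B) p1 q hp hp1 hq (LOX_bx _ hN') _ (Gl_inc _ _ _ _ _)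
  refine h2.trans ((LOX_not hp hp1 hq _ _ fun ω h4 =>
    LOX_rad (Nat.mul_le_mul_right _ (le_max_left _ _)) h4).trans (h1.trans ?_))
  · apply Real.rpow_le_rpow_of_exponent_le
    · exact_mod_cast hr0
    · exact neg_le_neg (le_max_left _ _)

end Pool.Agent.FKS
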