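import Pool.Agent.FKS.P_NUE
import Pool.Agent.FKS.Step

/-!
# Project FKS, part D: the giant exists (`T_MLU`)

Assembly of the merging argument. Parameters `p 0 = (p0 + p1) / 2 < ... < p J = p1`, `J = 2 d + 1`,
tiles of half side `σ ≈ L ^ (1 - b) / 2`.
-/

set_option autoImplicit false

namespace Pool.Agent.FKS

open Filter MeasureTheory Pool.Agent.FKP
open Pool.Agent.FKT hiding ind

namespace MLU_

variable {d : ℕ}

theorem fr_not (Λ : Finset (Vx d)) {p q : ℝ} (hp : 0 < p) (hp1 : p < 1) (hq : 1 ≤ q)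
    (Q : Finset (Ed d) → Prop) :
    fr Λ p q (fun ω => ind (¬ Q ω)) = 1 - fr Λ p q fun ω => ind (Q ω) := by
  unfold fr fw
  have h1 : (fun ω : Finset (Ed d) => ind (¬ Q ω)) = fun ω => (1 : ℝ) - ind (Q ω) :=
    funext fun ω => ind_not (Q ω)
  rw [h1, Ex_sub, Ex_const hp hp1 (by linarith)]

theorem fr_mono (Λ : Finset (Vx d)) {p q : ℝ} (hp : 0 < p) (hp1 : p < 1) (hq : 1 ≤ q)
    {Q Q' : Finset (Ed d) → Prop} (h : ∀ ω, Q ω → Q' ω) :
    fr Λ p q (fun ω => ind (Q ω)) ≤ fr Λ p q fun ω => ind (Q' ω) := by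
  unfold fr fw
  exact Ex_mono hp hp1 (by linarith) fun ω _ => ind_mono (h ω)

theorem fr_anti (hHOL : FKP.T_HOL) (Λ : Finset (Vx d)) {p p' q : ℝ} (hp : 0 < p) (h : p ≤ p')
    (h1 : p' < 1) (hq : 1 ≤ q) {Q : Finset (Ed d) → Prop} (hQ : Inc Q) :
    fr Λ p' q (fun ω => ind (¬ Q ω)) ≤ fr Λ p q fun ω => ind (¬ Q ω) := by
  rw [fr_not Λ hp (by linarith) hq, fr_not Λ (by linarith) h1 hq]
  have h2 : fr Λ p q (fun ω => ind (Q ω)) ≤ fr Λ p' q fun ω => ind (Q ω) := by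
    unfold fr fw
    exact hHOL (Vx d) (Ed d) Prod.fst tgt (no (Vx d)) (no (Vx d)) Λ (es Λ) p p' q hp h h1 hq
      (fun a b hab => hab) (fun e he => FKS.mem_es.1 he) _
      (fun a b hab _ => ind_mono (hQ a b hab))
  linarith

end MLU_

open MLU_

theorem p_MLU (hTOP : T_TOP) (hBTF : T_BTF) (hSPR : T_SPR) (hHOL : FKP.T_HOL) (hITM : T_ITM)
    (hSTA : T_STA) (hGLP : T_GLP) (hGNC : T_GNC) (hNMM : T_NMM) : T_MLU := by
  intro d p0 p1 q H
  obtain ⟨hd, h0, h01, h1, hq, hper⟩ := H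
  obtain ⟨pm, hpm⟩ : ∃ pm : ℝ, pm = (p0 + p1) / 2 := ⟨_, rfl⟩
  have hpm0 : 0 < pm := by rw [hpm]; linarith
  have hpm1 : pm < p1 := by rw [hpm]; linarith
  have Hm : Hyp d p0 pm q := ⟨hd, h0, by rw [hpm]; linarith, by linarith, hq, hper⟩
  obtain ⟨BT, hT⟩ := hTOP d p0 pm q Hm
  obtain ⟨A, hA⟩ := hT 6 (by norm_num)
  obtain ⟨cb, Cb, hcb, hCb, hB⟩ := hBTF d p0 pm q Hm
  obtain ⟨J, hJ⟩ : ∃ J : ℕ, J = 2 * d + 1 := ⟨_, rfl⟩
  have hJ0 : (0 : ℝ) < J := by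
    have : 0 < J := by omega
    exact_mod_cast this
  obtain ⟨p, hp⟩ : ∃ p : ℕ → ℝ, p = fun i : ℕ => pm + (p1 - pm) * ((i : ℝ) / J) := ⟨_, rfl⟩
  have hp0 : p 0 = pm := by rw [hp]; simp
  have hpJ : p J = p1 := by
    rw [hp]
    simp only
    rw [div_self hJ0.ne']
    ring
  have hpge : ∀ i, pm ≤ p i := by
    intro i
    rw [hp]
    simp only
    have : 0 ≤ (p1 - pm) * ((i : ℝ) / J) :=
      mul_nonneg (by linarith) (div_nonneg (Nat.cast_nonneg i) hJ0.le)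
    linarith
  have hple : ∀ i ≤ J, p i ≤ p1 := by
    intro i hi
    rw [hp]
    simp only
    have h2 : (i : ℝ) / J ≤ 1 := by
      rw [div_le_one hJ0]
      exact_mod_cast hi
    have : (p1 - pm) * ((i : ℝ) / J) ≤ (p1 - pm) * 1 :=
      mul_le_mul_of_nonneg_left h2 (by linarith)
    linarith
  have hplt : ∀ i, p i < p (i + 1) := by
    intro i
    rw [hp]
    simp only
    have h2 : (i : ℝ) / J < ((i + 1 : ℕ) : ℝ) / J := by
      refine div_lt_div_of_pos_right ?_ hJ0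
      push_cast
      linarith
    have : (p1 - pm) * ((i : ℝ) / J) < (p1 - pm) * (((i + 1 : ℕ) : ℝ) / J) :=
      mul_lt_mul_of_pos_left h2 (by linarith)
    linarith
  have hppos : ∀ i ≤ J, 0 < p i ∧ p i < 1 := fun i hi =>
    ⟨hpm0.trans_le (hpge i), (hple i hi).trans_lt h1⟩
  -- the sprinkling densities
  have hε : ∀ i, ∃ ε : ℝ, (0 < ε ∧ ε < 1) ∧
      (i < J → ∀ Λ : Finset (Vx d), Spk Λ q (p i) (p (i + 1)) ε) := by
    intro i
    by_cases hi : i < J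
    · obtain ⟨ε, h2, h3, h4⟩ := hSPR (p i) (p (i + 1)) q (hppos i hi.le).1 (hplt i)
        (hppos (i + 1) hi).2 hq
      refine ⟨ε, ⟨h2, h3⟩, fun _ Λ f hf => ?_⟩
      exact h4 (Vx d) (Ed d) Prod.fst tgt (no (Vx d)) Λ (es Λ)
        (fun e he => FKS.mem_es.1 he) f hf
    · exact ⟨1 / 2, by norm_num, fun h => absurd h hi⟩
  choose ε hε1 hε2 using hε
  obtain ⟨e, he0, he1, heJ⟩ := NUE_min J ε hε1
  -- exponents
  have hd0 : (0 : ℝ) < d := by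
    have : 0 < d := by omega
    exact_mod_cast this
  obtain ⟨b, hbdef⟩ : ∃ b : ℝ, b = min (1 / 2) (cb / (8 * d)) := ⟨_, rfl⟩
  have hb : 0 < b := by
    rw [hbdef]
    exact lt_min (by norm_num) (by positivity)
  have hb2 : b ≤ 1 / 2 := by rw [hbdef]; exact min_le_left _ _
  have hbd : b * d ≤ cb / 8 := by
    have h2 : b ≤ cb / (8 * d) := by rw [hbdef]; exact min_le_right _ _
    calc b * d ≤ cb / (8 * d) * d := mul_le_mul_of_nonneg_right h2 hd0.le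
      _ = cb / 8 := by field_simp
  have hbd2 : b * d ≤ d := by nlinarith
  have hle : Real.log e < 0 := Real.log_neg he0 he1
  obtain ⟨CT, hCT⟩ : ∃ CT : ℝ, CT = 2 * ((d : ℝ) + 1) := ⟨_, rfl⟩
  have hCT0 : 0 < CT := by rw [hCT]; positivity
  obtain ⟨r0, hr⟩ := hA CT (b / (8 * -Real.log e)) hCT0 (by
    have : 0 < 8 * -Real.log e := by linarith
    positivity)
  obtain ⟨R, hR⟩ : ∃ R : ℕ, R = A + 1 := ⟨_, rfl⟩
  obtain ⟨K1, hK1⟩ : ∃ K1 : ℝ, K1 = 64 * (d : ℝ) * J * ((2 * d + 1) * R ^ d) := ⟨_, rfl⟩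
  have hR1 : 1 ≤ R := by omega
  have hRr : (0 : ℝ) < R := by exact_mod_cast hR1
  have hK10 : 0 < K1 := by rw [hK1]; positivity
  obtain ⟨c, hc⟩ : ∃ c : ℝ, c = min (cb / 8) (1 / 2) := ⟨_, rfl⟩
  have hc0 : 0 < c := by
    rw [hc]
    exact lt_min (by positivity) (by norm_num)
  have hc1 : c ≤ cb / 8 := by rw [hc]; exact min_le_left _ _
  have hc2 : c ≤ 1 / 2 := by rw [hc]; exact min_le_right _ _
  have hev : ∀ᶠ L : ℕ in atTop, 64 ≤ L ∧ (A : ℝ) + 6 ≤ (L : ℝ) ^ b ∧ K1 ≤ (L : ℝ) ^ b ∧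
      4 * (r0 : ℝ) ≤ (L : ℝ) ^ (1 - b) ∧
      4 * (L : ℝ) ^ (b / 2) * (Real.log (2 * 13 ^ d) + d * Real.log L) + Real.log L ≤
        (L : ℝ) ^ (7 * b / 8) / K1 ∧
      (13 ^ d * Cb * 4 ^ cb) * (L : ℝ) ^ (-(3 * cb / 8)) ≤ (L : ℝ) ^ (-c) / 4 ∧
      (13 ^ d * Cb * 64 ^ d) * (L : ℝ) ^ (-(3 : ℝ)) ≤ (L : ℝ) ^ (-c) / 4 ∧
      (J * (13 ^ d * 4 ^ CT)) * (L : ℝ) ^ (-(1 : ℝ)) ≤ (L : ℝ) ^ (-c) / 4 ∧
      (J : ℝ) * (L : ℝ) ^ (-(1 : ℝ)) ≤ (L : ℝ) ^ (-c) / 4 := by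
    have hl : 0 ≤ Real.log (2 * 13 ^ d) := by
      refine Real.log_nonneg ?_
      have : (1 : ℝ) ≤ 13 ^ d := one_le_pow₀ (by norm_num)
      linarith
    filter_upwards [eventually_ge_atTop 64, NUE_const b ((A : ℝ) + 6) hb, NUE_const b K1 hb,
      NUE_const (1 - b) (4 * (r0 : ℝ)) (by linarith),
      NUE_exp b (Real.log (2 * 13 ^ d)) d K1 hb hl hd0.le hK10,
      NUE_pow (3 * cb / 8) c (13 ^ d * Cb * 4 ^ cb) (by linarith),
      NUE_pow 3 c (13 ^ d * Cb * 64 ^ d) (by linarith),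
      NUE_pow 1 c (J * (13 ^ d * 4 ^ CT)) (by linarith),
      NUE_pow 1 c J (by linarith)] with L g1 g2 g3 g4 g5 g6 g7 g8 g9
    exact ⟨g1, g2, g3, g4, g5, g6, g7, g8, g9⟩
  obtain ⟨L0, hL0⟩ := eventually_atTop.1 hev
  refine ⟨1 - b, c, BT + 2 * d + 4, L0, by linarith, by linarith, hc0, fun L N hL hN => ?_⟩
  obtain ⟨g1, g2, g3, g4, g5, g6, g7, g8, g9⟩ := hL0 L hL
  have hLr : (64 : ℝ) ≤ L := by exact_mod_cast g1
  have hL1 : (1 : ℝ) ≤ L := by linarith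
  have hLp : (0 : ℝ) < L := by linarith
  -- tiles
  obtain ⟨ξ, hξ⟩ : ∃ ξ : ℕ, ξ = ⌊(L : ℝ) ^ (1 - b)⌋₊ := ⟨_, rfl⟩
  obtain ⟨σ, hσ⟩ : ∃ σ : ℕ, σ = ξ / 2 := ⟨_, rfl⟩
  obtain ⟨M, hM⟩ : ∃ M : ℕ, M = L / (2 * σ + 1) + 1 := ⟨_, rfl⟩
  obtain ⟨t, ht⟩ : ∃ t : ℕ, t = M / (4 * d * J) := ⟨_, rfl⟩
  obtain ⟨Nt, hNt⟩ : ∃ Nt : ℕ, Nt = t / ((2 * d + 1) * R ^ d) := ⟨_, rfl⟩
  obtain ⟨f1, f2, f3, f4, f5, f6, f7, f8, f9, f10⟩ := NUD_tiles d A J R L hd (by omega) hR1 b hb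
    hb2 hLr g2 (by rw [← hK1]; exact g3) ξ σ M t Nt hξ hσ hM ht hNt
  obtain ⟨M0, hM0⟩ : ∃ M0 : ℕ, M0 = M + J * (4 * d * t) := ⟨_, rfl⟩
  obtain ⟨Mi, hMi⟩ : ∃ Mi : ℕ → ℕ, Mi = fun i => M + (J - i) * (4 * d * t) := ⟨_, rfl⟩
  have hMi0 : Mi 0 = M0 := by rw [hMi, hM0]; simp
  have hMiJ : Mi J = M := by rw [hMi]; simp
  have hMile : ∀ i, Mi i ≤ M0 := by
    intro i
    rw [hMi, hM0]
    simp only
    have : (J - i) * (4 * d * t) ≤ J * (4 * d * t) := Nat.mul_le_mul_right _ (Nat.sub_le _ _)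
    omega
  have hMge : ∀ i, M ≤ Mi i := by
    intro i
    rw [hMi]
    simp only
    omega
  obtain ⟨D, hD⟩ : ∃ D : ℕ, D = Nat.sqrt (2 * M0 + 1) := ⟨_, rfl⟩
  obtain ⟨m, hm0, hms⟩ : ∃ m : ℕ → ℕ, m 0 = (2 * M0 + 1) ^ d ∧
      ∀ i, m (i + 1) = m i / (D + 1) + 1 :=
    ⟨fun i => Nat.rec ((2 * M0 + 1) ^ d) (fun _ x => x / (D + 1) + 1) i, rfl, fun i => rfl⟩
  have hMpos : 3 ≤ M := by
    have h2 : K1 / K1 ≤ (L : ℝ) ^ b / K1 := div_le_div_of_nonneg_right g3 hK10.le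
    rw [div_self hK10.ne'] at h2
    have h3 : (1 : ℝ) ≤ Nt := by rw [← hK1] at f9; linarith
    have h4 : 1 ≤ Nt := by exact_mod_cast h3
    have h5 : 1 ≤ t := by
      by_contra hcon
      have h6 : t = 0 := by omega
      rw [hNt, h6, Nat.zero_div] at h4
      omega
    have h6 : 4 * d * J * 1 ≤ 4 * d * J * t := Nat.mul_le_mul_left _ h5
    have h7 : 4 * 2 * 1 ≤ 4 * d * J := Nat.mul_le_mul (Nat.mul_le_mul_left _ hd) (by omega)
    omega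
  have hD2 : 2 ≤ D := by
    rw [hD, Nat.le_sqrt]
    omega
  have hDsq : 2 * M0 + 1 ≤ (D + 1) ^ 2 := by
    rw [hD]
    have := Nat.lt_succ_sqrt (2 * M0 + 1)
    rw [pow_two]
    exact this.le
  have hmJ : m J = 1 := by
    rw [hJ]
    refine hNMM d D m hD2 ?_ hms
    rw [hm0]
    calc (2 * M0 + 1) ^ d ≤ ((D + 1) ^ 2) ^ d := Nat.pow_le_pow_left hDsq d
      _ = (D + 1) ^ (2 * d) := by rw [pow_mul]
  obtain ⟨Ψ, hΨ⟩ : ∃ Ψ : ℕ, Ψ = ⌊b / (8 * -Real.log e) * Real.log σ⌋₊ := ⟨_, rfl⟩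
  -- the size of the domain
  obtain ⟨N', hN'⟩ : ∃ N' : ℕ, N' = N - 32 * L := ⟨_, rfl⟩
  have hpw : L ^ (BT + 2 * d + 3) + 32 * L ≤ N := by
    refine le_trans ?_ hN
    have e1 : L ^ (BT + 2 * d + 4) = L ^ (BT + 2 * d + 3) * L := pow_succ L (BT + 2 * d + 3)
    have h2 : L ≤ L ^ (BT + 2 * d + 3) := Nat.le_self_pow (by omega) L
    rw [e1]
    calc L ^ (BT + 2 * d + 3) + 32 * L ≤ L ^ (BT + 2 * d + 3) + 32 * L ^ (BT + 2 * d + 3) := by
          omega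
      _ = L ^ (BT + 2 * d + 3) * 33 := by ring
      _ ≤ L ^ (BT + 2 * d + 3) * L := Nat.mul_le_mul_left _ (by omega)
  have hN'1 : L ^ (BT + 2 * d + 3) ≤ N' := by omega
  have hN'2 : N' + 32 * L ≤ N := by omega
  have hLpos : 1 ≤ L := by omega
  have hN'3 : L ^ (2 * d + 3) ≤ N' :=
    (Nat.pow_le_pow_right hLpos (by omega)).trans hN'1
  have hσL : σ ≤ L := by
    have h2 : (σ : ℝ) ≤ L := by
      refine f3.trans ?_
      calc (L : ℝ) ^ (1 - b) ≤ (L : ℝ) ^ (1 : ℝ) :=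
            Real.rpow_le_rpow_of_exponent_le hL1 (by linarith)
        _ = L := Real.rpow_one _
    exact_mod_cast h2
  have h64 : 64 * L ≤ N' := by
    refine le_trans ?_ hN'3
    calc 64 * L ≤ L * L := Nat.mul_le_mul_right _ g1
      _ = L ^ 2 := (pow_two L).symm
      _ ≤ L ^ (2 * d + 3) := Nat.pow_le_pow_right hLpos (by omega)
  have hσr0 : r0 ≤ σ := by
    have h2 : (r0 : ℝ) ≤ σ := by linarith
    exact_mod_cast h2
  have hσBT : σ ^ BT ≤ N' := by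
    calc σ ^ BT ≤ L ^ BT := Nat.pow_le_pow_left hσL BT
      _ ≤ L ^ (BT + 2 * d + 3) := Nat.pow_le_pow_right hLpos (by omega)
      _ ≤ N' := hN'1
  -- the iteration
  have hsub : eb (0 : Vx d) (32 * L) ⊆ es (bx (0 : Vx d) N) := by
    refine FKS.es_mono (bx_sub (k := 0) ?_ (by omega))
    rw [mem_bx]
    intro i
    simp
  have key := hITM d (32 * L) σ (A * σ) Ψ R t Nt D hd hR1 (by omega) (by
      rw [hR]
      nlinarith) (by
      rw [hNt]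
      exact Nat.div_mul_le_self _ _) (bx (0 : Vx d) N) q e hq he0.le he1.le hsub J Mi m p ε hppos
    (fun i hi => ⟨heJ i hi, (hε1 i).2.le, hε2 i hi _⟩) (by
      rw [hm0]
      exact Nat.one_le_pow _ _ (by omega)) hms (by
      intro i hi
      constructor
      · rw [hMi]
        simp only
        have h2 : J - i = (J - (i + 1)) + 1 := by omega
        rw [h2, add_mul, one_mul]
        omega
      · have h2 : t ≤ M := by
          rw [ht]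
          exact Nat.div_le_self _ _
        have h3 := hMge i
        omega) (by
      rw [hMi0, hM0]
      exact f7) (by
      rw [hMi0, hM0]
      omega)
  rw [hpJ, hmJ, hMiJ, hp0, hMi0, hm0] at key
  -- reduction to `Cov`
  have hred : P0 (0 : Vx d) N p1 q (fun ω => ¬ Gnt 0 L ⌊(L : ℝ) ^ (1 - b)⌋₊ ω) ≤
      fr (bx (0 : Vx d) N) p1 q fun ω => ind (¬ Cov (32 * L) σ M 1 ω) := by
    unfold P0
    refine fr_mono _ (by linarith) h1 hq fun ω hω hcov => hω ?_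
    rw [← hξ]
    exact hGNC d L σ M ξ ω f5 f4 hcov
  refine hred.trans (key.trans ?_)
  -- real bounds
  obtain ⟨X, hX⟩ : ∃ X : ℝ, X = (L : ℝ) := ⟨_, rfl⟩
  rw [← hX] at g2 g3 g4 g5 g6 g7 g8 g9 hLr hL1 hLp f2 f3 f9 f10 ⊢
  have hM0r : 2 * (M0 : ℝ) + 1 ≤ 13 * X ^ b := by rw [hM0]; exact f10
  have hV : (2 * (M0 : ℝ) + 1) ^ d ≤ 13 ^ d * X ^ (b * d) := by
    calc (2 * (M0 : ℝ) + 1) ^ d ≤ (13 * X ^ b) ^ d :=
          pow_le_pow_left₀ (by positivity) hM0r d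
      _ = 13 ^ d * X ^ (b * d) := by
        rw [mul_pow, ← Real.rpow_natCast (X ^ b) d, ← Real.rpow_mul hLp.le]
  have hσs : ∀ s : ℝ, 0 ≤ s → (σ : ℝ) ^ (-s) ≤ 4 ^ s * X ^ (-(s / 2)) := by
    intro s hs
    have hq4 : 0 < X ^ (1 - b) / 4 := by positivity
    calc (σ : ℝ) ^ (-s) ≤ (X ^ (1 - b) / 4) ^ (-s) :=
          Real.rpow_le_rpow_of_nonpos hq4 f2 (by linarith)
      _ = 4 ^ s * X ^ (-((1 - b) * s)) := by
        rw [Real.div_rpow (by positivity) (by norm_num), ← Real.rpow_mul hLp.le,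
          Real.rpow_neg (by norm_num : (0 : ℝ) ≤ 4), div_inv_eq_mul, mul_comm]
        congr 2
        ring
      _ ≤ 4 ^ s * X ^ (-(s / 2)) := by
        refine mul_le_mul_of_nonneg_left ?_ (by positivity)
        refine Real.rpow_le_rpow_of_exponent_le hL1 ?_
        nlinarith
  have hXpos : ∀ s : ℝ, 0 < X ^ s := fun s => Real.rpow_pos_of_pos hLp s
  -- term 1
  have ht1 : fr (bx (0 : Vx d) N) pm q
      (fun ω => ind (¬ Cov (32 * L) σ M0 ((2 * M0 + 1) ^ d) ω)) ≤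
      X ^ (-c) / 4 + X ^ (-c) / 4 := by
    have h2 := hSTA d (32 * L) σ M0 N N' pm q hpm0 (by linarith) hq (by rw [hM0]; omega) hN'2
      (by omega)
    have h3 := hB σ (2 * (32 * L)) N' f1 (by omega) (by omega)
    have h4 := fr_not (bx (0 : Vx d) N') hpm0 (by linarith) hq (fun ω =>
      ∃ x ∈ bx (0 : Vx d) σ, ∃ y ∈ bd (0 : Vx d) (2 * (32 * L)),
        Cf (ω ∩ eb (0 : Vx d) (2 * (32 * L))) x y)
    have h5 : P0 (0 : Vx d) N' pm q (fun ω => ¬ ∃ a ∈ bx (0 : Vx d) σ,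
        ∃ b ∈ bd (0 : Vx d) (2 * (32 * L)), Cf (ω ∩ eb (0 : Vx d) (2 * (32 * L))) a b) ≤
        Cb * ((σ : ℝ) ^ (-cb) + ((2 * (32 * L) : ℕ) : ℝ) ^ d / N') := by
      unfold P0
      rw [h4]
      linarith
    have h6 : ((2 * (32 * L) : ℕ) : ℝ) ^ d / N' ≤ 64 ^ d * X ^ (-((d : ℝ) + 3)) := by
      have e1 : ((2 * (32 * L) : ℕ) : ℝ) = 64 * X := by rw [hX]; push_cast; ring
      have h7 : X ^ (2 * d + 3) ≤ (N' : ℝ) := by rw [hX]; exact_mod_cast hN'3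
      rw [e1, mul_pow]
      calc 64 ^ d * X ^ d / (N' : ℝ) ≤ 64 ^ d * X ^ d / X ^ (2 * d + 3) :=
            div_le_div_of_nonneg_left (by positivity) (by positivity) h7
        _ = 64 ^ d * X ^ (-((d : ℝ) + 3)) := by
          rw [mul_div_assoc]
          congr 1
          rw [Real.rpow_neg hLp.le, div_eq_iff (by positivity)]
          have e2 : X ^ ((d : ℝ) + 3) = X ^ (d + 3) := by
            rw [← Real.rpow_natCast]
            push_cast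
            rfl
          rw [e2]
          have e3 : X ^ (2 * d + 3) = X ^ (d + 3) * X ^ d := by
            rw [← pow_add]
            congr 1
            ring
          rw [e3, ← mul_assoc, inv_mul_cancel₀ (by positivity), one_mul]
    have h8 : (σ : ℝ) ^ (-cb) ≤ 4 ^ cb * X ^ (-(cb / 2)) := hσs cb hcb.le
    have h9 : fr (bx (0 : Vx d) N) pm q
        (fun ω => ind (¬ Cov (32 * L) σ M0 ((2 * M0 + 1) ^ d) ω)) ≤
        (13 ^ d * X ^ (b * d)) *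
          (Cb * (4 ^ cb * X ^ (-(cb / 2)) + 64 ^ d * X ^ (-((d : ℝ) + 3)))) := by
      refine h2.trans (mul_le_mul hV (h5.trans ?_) ?_ (by positivity))
      · exact mul_le_mul_of_nonneg_left (add_le_add h8 h6) hCb.le
      · unfold P0 fr fw
        exact Ex_nonneg hpm0 (by linarith) (by linarith) fun ω _ => ind_nonneg _
    have h10 : X ^ (b * d) * X ^ (-(cb / 2)) ≤ X ^ (-(3 * cb / 8)) := by
      rw [← Real.rpow_add hLp]
      exact Real.rpow_le_rpow_of_exponent_le hL1 (by linarith)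
    have h11 : X ^ (b * d) * X ^ (-((d : ℝ) + 3)) ≤ X ^ (-(3 : ℝ)) := by
      rw [← Real.rpow_add hLp]
      exact Real.rpow_le_rpow_of_exponent_le hL1 (by linarith)
    have h12 : (13 ^ d * X ^ (b * d)) *
        (Cb * (4 ^ cb * X ^ (-(cb / 2)) + 64 ^ d * X ^ (-((d : ℝ) + 3)))) =
        (13 ^ d * Cb * 4 ^ cb) * (X ^ (b * d) * X ^ (-(cb / 2))) +
        (13 ^ d * Cb * 64 ^ d) * (X ^ (b * d) * X ^ (-((d : ℝ) + 3))) := by ring
    have h13 := mul_le_mul_of_nonneg_left h10 (show (0 : ℝ) ≤ 13 ^ d * Cb * 4 ^ cb by positivity)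
    have h14 := mul_le_mul_of_nonneg_left h11 (show (0 : ℝ) ≤ 13 ^ d * Cb * 64 ^ d by positivity)
    linarith
  -- term 2
  have ht2 : ∑ i ∈ Finset.range J, fr (bx (0 : Vx d) N) (p i) q
      (fun ω => ind (¬ Glu (32 * L) σ (A * σ) Ψ (Mi i) ω)) ≤ X ^ (-c) / 4 := by
    have h2 : ∀ i ∈ Finset.range J, fr (bx (0 : Vx d) N) (p i) q
        (fun ω => ind (¬ Glu (32 * L) σ (A * σ) Ψ (Mi i) ω)) ≤
        13 ^ d * 4 ^ CT * X ^ (-(1 : ℝ)) := by
      intro i hi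
      have hi' : i < J := Finset.mem_range.1 hi
      obtain ⟨k1, k2⟩ := hppos i hi'.le
      have k3 : (2 * σ + 1) * Mi i ≤ (2 * σ + 1) * (M + J * (4 * d * t)) := by
        rw [← hM0]
        exact Nat.mul_le_mul_left _ (hMile i)
      have h3 := hGLP d (32 * L) σ (A * σ) Ψ (Mi i) N N' (p i) q k1 k2 hq f1 (by omega)
        (by omega) hN'2
      have h4 : P0 (0 : Vx d) N' (p i) q (fun ω => ¬ Gl 0 (6 * σ) σ (A * σ) Ψ ω) ≤
          (σ : ℝ) ^ (-CT) := by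
        refine le_trans ?_ (hr σ N' hσr0 hσBT)
        unfold P0
        rw [← hΨ]
        exact fr_anti hHOL _ hpm0 (hpge i) k2 hq (Gl_inc _ _ _ _ _)
      have h5 : (2 * (Mi i : ℝ) + 1) ^ d ≤ 13 ^ d * X ^ (b * d) := by
        refine le_trans (pow_le_pow_left₀ (by positivity) ?_ d) hV
        have : (Mi i : ℝ) ≤ M0 := by exact_mod_cast hMile i
        linarith
      have h6 : (σ : ℝ) ^ (-CT) ≤ 4 ^ CT * X ^ (-(CT / 2)) := hσs CT hCT0.le
      have h7 : X ^ (b * d) * X ^ (-(CT / 2)) ≤ X ^ (-(1 : ℝ)) := by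
        rw [← Real.rpow_add hLp]
        refine Real.rpow_le_rpow_of_exponent_le hL1 ?_
        rw [hCT]
        linarith
      calc fr (bx (0 : Vx d) N) (p i) q
            (fun ω => ind (¬ Glu (32 * L) σ (A * σ) Ψ (Mi i) ω)) ≤
            (2 * (Mi i : ℝ) + 1) ^ d *
              P0 (0 : Vx d) N' (p i) q (fun ω => ¬ Gl 0 (6 * σ) σ (A * σ) Ψ ω) := h3
        _ ≤ (13 ^ d * X ^ (b * d)) * (4 ^ CT * X ^ (-(CT / 2))) := by
          refine mul_le_mul h5 (h4.trans h6) ?_ (by positivity)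
          unfold P0 fr fw
          exact Ex_nonneg k1 k2 (by linarith) fun ω _ => ind_nonneg _
        _ = 13 ^ d * 4 ^ CT * (X ^ (b * d) * X ^ (-(CT / 2))) := by ring
        _ ≤ 13 ^ d * 4 ^ CT * X ^ (-(1 : ℝ)) :=
          mul_le_mul_of_nonneg_left h7 (by positivity)
    refine (Finset.sum_le_sum h2).trans ?_
    rw [Finset.sum_const, Finset.card_range, nsmul_eq_mul]
    calc (J : ℝ) * (13 ^ d * 4 ^ CT * X ^ (-(1 : ℝ))) =
        (J * (13 ^ d * 4 ^ CT)) * X ^ (-(1 : ℝ)) := by ring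
      _ ≤ _ := g8
  -- term 3
  have ht3 : (J : ℝ) * (((((2 * M0 + 1) ^ d : ℕ) : ℝ) + 1) ^ D * (1 - e ^ Ψ) ^ Nt) ≤
      X ^ (-c) / 4 := by
    have hg : X ^ (-(b / 8)) ≤ e ^ Ψ := by
      rw [hΨ]
      refine NUE_gpow e b he0 he1 hb σ X f1 ?_
      rw [hX]
      exact_mod_cast hσL
    have hg1 : e ^ Ψ ≤ 1 := pow_le_one₀ he0.le he1.le
    have hA1 : (((2 * M0 + 1) ^ d : ℕ) : ℝ) + 1 ≤ 2 * 13 ^ d * X ^ (d : ℝ) := by
      have h2 : (((2 * M0 + 1) ^ d : ℕ) : ℝ) ≤ 13 ^ d * X ^ (b * d) := by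
        push_cast
        exact hV
      have h3 : X ^ (b * d) ≤ X ^ (d : ℝ) := Real.rpow_le_rpow_of_exponent_le hL1 hbd2
      have h4 : (1 : ℝ) ≤ 13 ^ d * X ^ (d : ℝ) := by
        have h5 : (1 : ℝ) ≤ 13 ^ d := one_le_pow₀ (by norm_num)
        have h6 : (1 : ℝ) ≤ X ^ (d : ℝ) := Real.one_le_rpow hL1 hd0.le
        nlinarith
      have h7 : (13 : ℝ) ^ d * X ^ (b * d) ≤ 13 ^ d * X ^ (d : ℝ) :=
        mul_le_mul_of_nonneg_left h3 (by positivity)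
      linarith
    have hA0 : (0 : ℝ) < (((2 * M0 + 1) ^ d : ℕ) : ℝ) + 1 := by positivity
    have hlogA : Real.log ((((2 * M0 + 1) ^ d : ℕ) : ℝ) + 1) ≤
        Real.log (2 * 13 ^ d) + d * Real.log X := by
      refine (Real.log_le_log hA0 hA1).trans ?_
      rw [Real.log_mul (by positivity) (hXpos _).ne', Real.log_rpow hLp]
    have hlogA0 : 0 ≤ Real.log ((((2 * M0 + 1) ^ d : ℕ) : ℝ) + 1) := by
      refine Real.log_nonneg ?_
      have : (0 : ℝ) ≤ (((2 * M0 + 1) ^ d : ℕ) : ℝ) := Nat.cast_nonneg _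
      linarith
    have hDr : (D : ℝ) ≤ 4 * X ^ (b / 2) := by
      have h2 : D * D ≤ 2 * M0 + 1 := by rw [hD]; exact Nat.sqrt_le _
      have h3 : (D : ℝ) * D ≤ 2 * M0 + 1 := by exact_mod_cast h2
      have h4 : X ^ (b / 2) * X ^ (b / 2) = X ^ b := by
        rw [← Real.rpow_add hLp]
        congr 1
        ring
      have h5 : 0 < X ^ (b / 2) := hXpos _
      by_contra hcon
      push Not at hcon
      have h6 : 4 * X ^ (b / 2) * (4 * X ^ (b / 2)) < (D : ℝ) * D :=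
        mul_lt_mul'' hcon hcon (by positivity) (by positivity)
      have h7 : 0 < X ^ b := hXpos _
      nlinarith
    have hNr : X ^ (7 * b / 8) / K1 ≤ e ^ Ψ * Nt := by
      have h2 : X ^ (-(b / 8)) * (X ^ b / K1) ≤ e ^ Ψ * Nt := by
        refine mul_le_mul hg ?_ (by positivity) (by positivity)
        rw [hK1]
        exact f9
      have h3 : X ^ (-(b / 8)) * (X ^ b / K1) = X ^ (7 * b / 8) / K1 := by
        rw [← mul_div_assoc, ← Real.rpow_add hLp]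
        congr 2
        ring
      linarith
    have h2 : ((((2 * M0 + 1) ^ d : ℕ) : ℝ) + 1) ^ D =
        Real.exp ((D : ℝ) * Real.log ((((2 * M0 + 1) ^ d : ℕ) : ℝ) + 1)) := by
      rw [mul_comm (D : ℝ), ← Real.rpow_def_of_pos hA0, Real.rpow_natCast]
    have h3 : (1 - e ^ Ψ) ^ Nt ≤ Real.exp (-(e ^ Ψ * Nt)) := by
      have h4 : 1 - e ^ Ψ ≤ Real.exp (-(e ^ Ψ)) := by
        have := Real.add_one_le_exp (-(e ^ Ψ))
        linarith
      calc (1 - e ^ Ψ) ^ Nt ≤ Real.exp (-(e ^ Ψ)) ^ Nt :=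
            pow_le_pow_left₀ (by linarith) h4 Nt
        _ = Real.exp (-(e ^ Ψ * Nt)) := by
          rw [← Real.exp_nat_mul]
          congr 1
          ring
    have h4 : ((((2 * M0 + 1) ^ d : ℕ) : ℝ) + 1) ^ D * (1 - e ^ Ψ) ^ Nt ≤ X ^ (-(1 : ℝ)) := by
      rw [h2]
      calc _ ≤ Real.exp ((D : ℝ) * Real.log ((((2 * M0 + 1) ^ d : ℕ) : ℝ) + 1)) *
            Real.exp (-(e ^ Ψ * Nt)) := mul_le_mul_of_nonneg_left h3 (Real.exp_pos _).le
        _ = Real.exp ((D : ℝ) * Real.log ((((2 * M0 + 1) ^ d : ℕ) : ℝ) + 1) -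
            e ^ Ψ * Nt) := by rw [← Real.exp_add, sub_eq_add_neg]
        _ ≤ Real.exp (-Real.log X) := by
          rw [Real.exp_le_exp]
          have h5 : (D : ℝ) * Real.log ((((2 * M0 + 1) ^ d : ℕ) : ℝ) + 1) ≤
              4 * X ^ (b / 2) * (Real.log (2 * 13 ^ d) + d * Real.log X) :=
            mul_le_mul hDr hlogA hlogA0 (by positivity)
          linarith
        _ = X ^ (-(1 : ℝ)) := by
          rw [Real.rpow_neg hLp.le, Real.rpow_one, Real.exp_neg, Real.exp_log hLp]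
    exact (mul_le_mul_of_nonneg_left h4 hJ0.le).trans g9
  linarith

end Pool.Agent.FKS
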