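import Pool.Agent.FKS.TargetsD

/-!
# FKS: target NMM (the numbers of the merging iteration)
-/

set_option autoImplicit false

namespace Pool.Agent.FKS

open Filter MeasureTheory Pool.Agent.FKP
open Pool.Agent.FKT hiding ind

theorem NMM_div (K j : ℕ) (hK : 2 ≤ K) : (K ^ (j + 1) + 1) / K = K ^ j := by
  have h : K ^ (j + 1) + 1 = 1 + K * K ^ j := by rw [pow_succ]; ring
  rw [h, Nat.add_mul_div_left _ _ (by omega), Nat.div_eq_of_lt (by omega), Nat.zero_add]

theorem NMM_ind (d D : ℕ) (m : ℕ → ℕ) (hD : 2 ≤ D) (h0 : m 0 ≤ (D + 1) ^ (2 * d))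
    (hm : ∀ i, m (i + 1) = m i / (D + 1) + 1) :
    ∀ i, i ≤ 2 * d → m i ≤ (D + 1) ^ (2 * d - i) + 1 := by
  intro i
  induction i with
  | zero =>
    intro _
    rw [Nat.sub_zero]
    omega
  | succ i ih =>
    intro hi
    have h1 := ih (by omega)
    obtain ⟨j, hj⟩ : ∃ j, 2 * d - i = j + 1 := ⟨2 * d - i - 1, by omega⟩
    have hj' : 2 * d - (i + 1) = j := by omega
    rw [hj] at h1
    rw [hj', hm i]
    have h2 : m i / (D + 1) ≤ ((D + 1) ^ (j + 1) + 1) / (D + 1) := Nat.div_le_div_right h1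
    rw [NMM_div (D + 1) j (by omega)] at h2
    omega

/-- NMM. The numbers. -/
theorem p_NMM : T_NMM := by
  intro d D m hD h0 hm
  have h1 := NMM_ind d D m hD h0 hm (2 * d) (le_refl _)
  rw [Nat.sub_self, pow_zero] at h1
  rw [hm, Nat.div_eq_of_lt (by omega)]

end Pool.Agent.FKS
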