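import Pool.Agent.FKS.TargetsB

/-!
# Project FKS, NUL: the recursion for the cost
-/

set_option autoImplicit false

namespace Pool.Agent.FKS

open Filter MeasureTheory Pool.Agent.FKP
open Pool.Agent.FKT hiding ind

theorem NUL_root (m r : ℕ) (hm : 1 ≤ m) : ∃ s : ℕ, s ^ m ≤ r ∧ r < (s + 1) ^ m := by
  classical
  have hex : ∃ t : ℕ, r < t ^ m := ⟨r + 1, lt_of_lt_of_le (Nat.lt_succ_self r)
    (Nat.le_self_pow (by omega) _)⟩
  have h1 := Nat.find_spec hex
  have h2 : Nat.find hex ≠ 0 := by
    intro h0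
    rw [h0, zero_pow (by omega)] at h1
    omega
  obtain ⟨s, hs⟩ := Nat.exists_eq_succ_of_ne_zero h2
  refine ⟨s, ?_, ?_⟩
  · have := Nat.find_min hex (m := s) (by omega)
    omega
  · rw [hs] at h1
    exact h1

theorem NUL_log {r : ℕ} (hr : 3 ≤ r) : 1 ≤ Real.log r := by
  have h1 : Real.exp 1 ≤ (r : ℝ) := by
    have := Real.exp_one_lt_d9
    have h3 : (3 : ℝ) ≤ r := by exact_mod_cast hr
    linarith
  calc (1 : ℝ) = Real.log (Real.exp 1) := (Real.log_exp 1).symm
    _ ≤ Real.log r := Real.log_le_log (Real.exp_pos _) h1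

theorem p_NUL : T_NUL := by
  intro k Φ0 m s0 G hm hs0 hmono hbase hstep ε hε
  set c0 : ℕ := max Φ0 (2 * k) with hc0
  have hc1 : Φ0 ≤ c0 := le_max_left _ _
  have hc2 : 2 * k ≤ c0 := le_max_right _ _
  have claim : ∀ r : ℕ, 3 ≤ r → ∃ Φ : ℕ, (Φ : ℝ) ≤ c0 * Real.sqrt (Real.log r) ∧ G r Φ := by
    intro r
    induction r using Nat.strong_induction_on with
    | _ r ih =>
      intro hr
      have hlog := NUL_log hr
      have hsq : 1 ≤ Real.sqrt (Real.log r) := by
        rw [show (1 : ℝ) = Real.sqrt 1 by simp]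
        exact Real.sqrt_le_sqrt hlog
      rcases lt_or_ge r ((s0 + 1) ^ m) with h | h
      · refine ⟨Φ0, ?_, hbase r h⟩
        calc (Φ0 : ℝ) ≤ c0 := by exact_mod_cast hc1
          _ = c0 * 1 := (mul_one _).symm
          _ ≤ c0 * Real.sqrt (Real.log r) := by
            apply mul_le_mul_of_nonneg_left hsq
            positivity
      · obtain ⟨s, h1, h2⟩ := NUL_root m r (by omega)
        have hs : s0 + 1 ≤ s := by
          by_contra hcon
          push Not at hcon
          have : (s + 1) ^ m ≤ (s0 + 1) ^ m := Nat.pow_le_pow_left (by omega) m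
          omega
        have hsr : s < r := by
          refine lt_of_lt_of_le ?_ h1
          calc s = s ^ 1 := (pow_one s).symm
            _ < s ^ m := Nat.pow_lt_pow_right (by omega) (by omega)
        obtain ⟨Φ, hΦ, hG⟩ := ih s hsr (by omega)
        refine ⟨k + 2 * Φ, ?_, hstep s r Φ (by omega) h1 h2 hG⟩
        have hs' : (0 : ℝ) < s := by
          have : 0 < s := by omega
          exact_mod_cast this
        have hlg : 16 * Real.log s ≤ Real.log r := by
          have e1 : Real.log ((s : ℝ) ^ m) ≤ Real.log r := by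
            apply Real.log_le_log (by positivity)
            exact_mod_cast h1
          rw [Real.log_pow] at e1
          have e2 : (16 : ℝ) ≤ m := by exact_mod_cast hm
          have e3 : 0 ≤ Real.log s := Real.log_nonneg (by
            have : 1 ≤ s := by omega
            exact_mod_cast this)
          nlinarith
        have hs4 : Real.sqrt (Real.log s) ≤ Real.sqrt (Real.log r) / 4 := by
          have e1 : Real.log s ≤ (Real.sqrt (Real.log r) / 4) ^ 2 := by
            rw [div_pow, Real.sq_sqrt (by linarith)]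
            linarith
          exact Real.sqrt_le_iff.2 ⟨by positivity, e1⟩
        have hk : (k : ℝ) ≤ c0 / 2 := by
          have : (2 * (k : ℝ)) ≤ c0 := by exact_mod_cast hc2
          linarith
        push_cast
        have hc0' : (0 : ℝ) ≤ c0 := by positivity
        have e4 : (c0 : ℝ) * Real.sqrt (Real.log s) ≤ c0 * (Real.sqrt (Real.log r) / 4) :=
          mul_le_mul_of_nonneg_left hs4 hc0'
        have e5 : (c0 : ℝ) / 2 * 1 ≤ c0 / 2 * Real.sqrt (Real.log r) :=
          mul_le_mul_of_nonneg_left hsq (by positivity)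
        linarith
  obtain ⟨r1, hr1⟩ := exists_nat_ge (Real.exp (((c0 : ℝ) / ε) ^ 2))
  refine ⟨max 3 r1, fun r hr => ?_⟩
  have h3 : 3 ≤ r := (le_max_left _ _).trans hr
  have hr1' : r1 ≤ r := (le_max_right _ _).trans hr
  obtain ⟨Φ, hΦ, hG⟩ := claim r h3
  refine hmono r Φ _ (Nat.le_floor ?_) hG
  have hlog := NUL_log h3
  have hl2 : ((c0 : ℝ) / ε) ^ 2 ≤ Real.log r := by
    rw [Real.le_log_iff_exp_le (by
      have : 0 < r := by omega
      exact_mod_cast this)]
    refine hr1.trans ?_
    exact_mod_cast hr1'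
  have h5 : (c0 : ℝ) / ε ≤ Real.sqrt (Real.log r) := Real.le_sqrt_of_sq_le hl2
  have h6 : (c0 : ℝ) ≤ ε * Real.sqrt (Real.log r) := by
    rw [div_le_iff₀ hε] at h5
    linarith
  have h7 : 0 ≤ Real.sqrt (Real.log r) := Real.sqrt_nonneg _
  calc (Φ : ℝ) ≤ c0 * Real.sqrt (Real.log r) := hΦ
    _ ≤ ε * Real.sqrt (Real.log r) * Real.sqrt (Real.log r) :=
      mul_le_mul_of_nonneg_right h6 h7
    _ = ε * Real.log r := by
      rw [mul_assoc, Real.mul_self_sqrt (by linarith)]

end Pool.Agent.FKS
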