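import Pool.Agent.FKS.TargetsC
import Pool.Agent.FKT.P_CRI

/-!
# FKS, target PGH: pigeonhole for the hops
-/

set_option autoImplicit false

namespace Pool.Agent.FKS

open Filter MeasureTheory Pool.Agent.FKP
open Pool.Agent.FKT hiding ind

/-- division rounded towards `0` -/
def PGH_q (m a : ℤ) : ℤ := if 0 ≤ a then a / m else -((-a) / m)

theorem PGH_q1 {m a : ℤ} (hm : 0 < m) : |m * PGH_q m a| ≤ |a| := by
  unfold PGH_q
  split_ifs with h
  · have h1 := Int.mul_ediv_self_le (x := a) (k := m) hm.ne'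
    have h2 : 0 ≤ a / m := Int.ediv_nonneg h hm.le
    rw [abs_of_nonneg h, abs_of_nonneg (by positivity)]
    exact h1
  · have h' : 0 ≤ -a := by omega
    have h1 := Int.mul_ediv_self_le (x := -a) (k := m) hm.ne'
    have h2 : 0 ≤ (-a) / m := Int.ediv_nonneg h' hm.le
    rw [mul_neg, abs_neg, ← abs_neg a, abs_of_nonneg h', abs_of_nonneg (by positivity)]
    exact h1

theorem PGH_q2 {m a : ℤ} (hm : 0 < m) : |m * PGH_q m a - a| ≤ m := by
  unfold PGH_q
  split_ifs with h
  · have h1 := Int.mul_ediv_self_le (x := a) (k := m) hm.ne'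
    have h2 := Int.lt_mul_ediv_self_add (x := a) hm
    rw [abs_le]
    constructor <;> linarith
  · have h1 := Int.mul_ediv_self_le (x := -a) (k := m) hm.ne'
    have h2 := Int.lt_mul_ediv_self_add (x := -a) hm
    rw [mul_neg, abs_le]
    constructor <;> linarith

theorem PGH_q3 {m a n : ℤ} (hm : 0 < m) (h : |a| ≤ n) : |PGH_q m a| ≤ n / m := by
  rw [abs_le] at h
  unfold PGH_q
  split_ifs with h0
  · have h2 : 0 ≤ a / m := Int.ediv_nonneg h0 hm.le
    rw [abs_of_nonneg h2]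
    exact Int.ediv_le_ediv hm h.2
  · have h' : 0 ≤ -a := by omega
    have h2 : 0 ≤ (-a) / m := Int.ediv_nonneg h' hm.le
    rw [abs_neg, abs_of_nonneg h2]
    exact Int.ediv_le_ediv hm (by linarith [h.1])

/-- the discrete intermediate value theorem along an open path -/
theorem PGH_ivt {d : ℕ} (n : ℕ) (O : Set (Ed d)) (i : Fin d) (ε : ℤ) (hε : ε = 1 ∨ ε = -1)
    (w : Vx d) (hw : w i = ε * n)
    (hc : Cn (O ∩ (eb (0 : Vx d) n : Set (Ed d))) 0 w) (s : ℕ) (hs : s ≤ n) :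
    ∃ y ∈ bx (0 : Vx d) n, y i = ε * s ∧ Cn (O ∩ (eb (0 : Vx d) n : Set (Ed d))) 0 y := by
  by_contra hno
  push Not at hno
  have h0 : (0 : Vx d) ∈ bx (0 : Vx d) n := by
    rw [COP_.mem_bx]
    intro j
    simp
  have hs0 : 0 < s := by
    rcases Nat.eq_zero_or_pos s with h | h
    · exact absurd (Relation.EqvGen.refl (0 : Vx d)) (hno 0 h0 (by simp [h]))
    · exact h
  have hstep : ∀ u v : Vx d,
      Step Prod.fst tgt (no (Vx d)) (O ∩ (eb (0 : Vx d) n : Set (Ed d))) u v →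
      ((u ∈ bx (0 : Vx d) n ∧ Cn (O ∩ (eb (0 : Vx d) n : Set (Ed d))) 0 u ∧ ε * u i < s) ↔
      (v ∈ bx (0 : Vx d) n ∧ Cn (O ∩ (eb (0 : Vx d) n : Set (Ed d))) 0 v ∧ ε * v i < s)) := by
    rintro u v (huv | ⟨e, he, h1, h2⟩)
    · exact huv.elim
    · have hst : Cn (O ∩ (eb (0 : Vx d) n : Set (Ed d))) u v :=
        Relation.EqvGen.rel _ _ (Or.inr ⟨e, he, h1, h2⟩)
      have hb := COP_.mem_eb.1 he.2
      have hu : u ∈ bx (0 : Vx d) n := h1 ▸ hb.1
      have hv : v ∈ bx (0 : Vx d) n := h2 ▸ hb.2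
      have hvi : v i = u i ∨ v i = u i + 1 := by
        rw [← h2, ← h1]
        unfold tgt
        rw [Pi.add_apply]
        by_cases hij : e.2 = i
        · right
          rw [← hij, Pi.single_eq_same]
        · left
          rw [Pi.single_eq_of_ne (Ne.symm hij), add_zero]
      have hne : ∀ x : Vx d, x ∈ bx (0 : Vx d) n →
          Cn (O ∩ (eb (0 : Vx d) n : Set (Ed d))) 0 x → ε * x i ≠ s := by
        intro x hx hcx hxs
        refine hno x hx ?_ hcx
        rcases hε with h | h <;> rw [h] at hxs ⊢ <;> linarith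
      constructor
      · rintro ⟨-, hcu, hlt⟩
        have hcv : Cn (O ∩ (eb (0 : Vx d) n : Set (Ed d))) 0 v :=
          Relation.EqvGen.trans _ _ _ hcu hst
        refine ⟨hv, hcv, ?_⟩
        have h3 := hne v hv hcv
        have h4 : ε * v i ≤ ε * u i + 1 := by
          rcases hε with h | h <;> rcases hvi with h' | h' <;> rw [h, h'] <;> linarith
        omega
      · rintro ⟨-, hcv, hlt⟩
        have hcu : Cn (O ∩ (eb (0 : Vx d) n : Set (Ed d))) 0 u :=
          Relation.EqvGen.trans _ _ _ hcv (Relation.EqvGen.symm _ _ hst)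
        refine ⟨hu, hcu, ?_⟩
        have h3 := hne u hu hcu
        have h4 : ε * u i ≤ ε * v i + 1 := by
          rcases hε with h | h <;> rcases hvi with h' | h' <;> rw [h, h'] <;> linarith
        omega
  have h00 : ((0 : Vx d) ∈ bx (0 : Vx d) n ∧
      Cn (O ∩ (eb (0 : Vx d) n : Set (Ed d))) 0 (0 : Vx d) ∧ ε * (0 : Vx d) i < s) :=
    ⟨h0, Relation.EqvGen.refl _, by simpa using hs0⟩
  obtain ⟨-, -, h5⟩ := (ARM_.inv hstep hc).mp h00
  rw [hw] at h5
  have h6 : ε * (ε * (n : ℤ)) = n := by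
    rcases hε with h | h <;> rw [h] <;> ring
  rw [h6] at h5
  have : n < s := by exact_mod_cast h5
  omega

/-- one of finitely many sets has at least the average of the measure -/
theorem PGH_avg {α β : Type} [MeasurableSpace α] (μ : Measure α) [IsProbabilityMeasure μ]
    (K : Finset β) (hK : K.Nonempty) (f : β → Set α) (E : Set α) (hE : E ⊆ ⋃ b ∈ K, f b)
    (N : ℝ) (hN : (K.card : ℝ) ≤ N) : ∃ b ∈ K, μ.real E / N ≤ μ.real (f b) := by
  by_contra hno
  push Not at hno
  have hc : (0 : ℝ) < K.card := by exact_mod_cast hK.card_pos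
  have h1 : μ.real E ≤ ∑ b ∈ K, μ.real (f b) :=
    (measureReal_mono hE (measure_ne_top _ _)).trans (measureReal_biUnion_finset_le K f)
  have h2 : ∑ b ∈ K, μ.real (f b) < ∑ _b ∈ K, μ.real E / N :=
    Finset.sum_lt_sum_of_nonempty hK hno
  rw [Finset.sum_const, nsmul_eq_mul] at h2
  have h3 : (K.card : ℝ) * (μ.real E / N) ≤ μ.real E := by
    rw [mul_div_assoc', div_le_iff₀ (hc.trans_le hN), mul_comm (μ.real E)]
    exact mul_le_mul_of_nonneg_right hN measureReal_nonneg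
  linarith

theorem p_PGH : T_PGH := by
  intro d hd p q μ hμ n m hm hmn
  have := hμ.prob
  -- the direction
  set Ev : Fin d × ℤ → Set (Ed d → Bool) := fun k =>
    {ω | ∃ w ∈ bx (0 : Vx d) n, w k.1 = k.2 * n ∧
      Cn (cfg ω ∩ (eb (0 : Vx d) n : Set (Ed d))) 0 w} with hEv
  have hcov : Inf0 d ⊆ ⋃ k ∈ (Finset.univ : Finset (Fin d)) ×ˢ ({1, -1} : Finset ℤ), Ev k := by
    intro ω hω
    obtain ⟨z, hz, hz'⟩ := Set.Infinite.exists_notMem_finset hω (bx (0 : Vx d) n)
    have h0 : (0 : Vx d) ∈ bx (0 : Vx d) n := by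
      rw [COP_.mem_bx]
      intro j
      simp
    obtain ⟨w, hw, hcw⟩ := CRI_.key (cfg ω) 0 n 0 z h0 (fun h' => absurd h' hz') hz
    obtain ⟨hwb, i, hi⟩ := COP_.mem_bd.1 hw
    rw [Set.mem_iUnion₂]
    rcases hi with hi | hi
    · refine ⟨(i, -1), by simp, w, hwb, ?_, hcw⟩
      rw [hi]
      simp
    · refine ⟨(i, 1), by simp, w, hwb, ?_, hcw⟩
      rw [hi]
      simp
  have hne : ((Finset.univ : Finset (Fin d)) ×ˢ ({1, -1} : Finset ℤ)).Nonempty :=
    ⟨(⟨0, hd⟩, 1), by simp⟩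
  have hcard : ((((Finset.univ : Finset (Fin d)) ×ˢ ({1, -1} : Finset ℤ)).card : ℕ) : ℝ) ≤
      2 * d := by
    rw [Finset.card_product, Finset.card_univ, Fintype.card_fin]
    have : ({1, -1} : Finset ℤ).card = 2 := by decide
    rw [this]
    push_cast
    linarith
  obtain ⟨⟨i, ε⟩, hk, hk2⟩ := PGH_avg μ _ hne Ev _ hcov _ hcard
  have hε : ε = 1 ∨ ε = -1 := by
    have := (Finset.mem_product.1 hk).2
    simpa using this
  refine ⟨i, ε, hε, fun s hs => ?_⟩
  -- the rounding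
  have hm0 : (0 : ℤ) < m := by exact_mod_cast hm
  set Q : ℤ := ((n / m : ℕ) : ℤ) with hQ
  have hQ' : (n : ℤ) / m = Q := by rw [hQ]; push_cast; rfl
  have hQ0 : 0 ≤ Q := by rw [hQ]; positivity
  set K : Finset (Vx d) := (Fintype.piFinset fun _ : Fin d => Finset.Icc (-Q) Q).filter
    fun k => |(m : ℤ) * k i - ε * s| ≤ m ∧ ∀ j, |(m : ℤ) * k j| ≤ n with hKd
  set F : Vx d → Set (Ed d → Bool) := fun k =>
    {ω | ∃ y ∈ bx (fun j => (m : ℤ) * k j) m,
      Cn (cfg ω ∩ (eb (0 : Vx d) n : Set (Ed d))) 0 y} with hF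
  have hmem : ∀ y : Vx d, y ∈ bx (0 : Vx d) n → y i = ε * s →
      (fun j => PGH_q m (y j)) ∈ K ∧ y ∈ bx (fun j => (m : ℤ) * PGH_q m (y j)) m := by
    intro y hy hyi
    have hyn : ∀ j, |y j| ≤ (n : ℤ) := by
      intro j
      have := COP_.mem_bx.1 hy j
      rw [Pi.zero_apply] at this
      rw [abs_le]
      constructor <;> linarith [this.1, this.2]
    constructor
    · rw [hKd, Finset.mem_filter, Fintype.mem_piFinset]
      refine ⟨fun j => ?_, ?_, fun j => (PGH_q1 hm0).trans (hyn j)⟩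
      · have h := PGH_q3 (m := (m : ℤ)) hm0 (hyn j)
        rw [hQ', abs_le] at h
        exact Finset.mem_Icc.2 h
      · rw [← hyi]
        exact PGH_q2 hm0
    · rw [COP_.mem_bx]
      intro j
      have h := PGH_q2 (m := (m : ℤ)) (a := y j) hm0
      rw [abs_le] at h
      constructor <;> linarith [h.1, h.2]
  have hKne : K.Nonempty := by
    have h1 : (Pi.single i (ε * (s : ℤ)) : Vx d) ∈ bx (0 : Vx d) n := by
      rw [COP_.mem_bx]
      intro j
      rw [Pi.zero_apply]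
      have hs' : (s : ℤ) ≤ n := by exact_mod_cast hs
      have hs'' : (0 : ℤ) ≤ s := by positivity
      by_cases hij : j = i
      · rw [hij, Pi.single_eq_same]
        rcases hε with h | h <;> rw [h] <;> constructor <;> linarith
      · rw [Pi.single_eq_of_ne hij]
        constructor <;> linarith
    exact ⟨_, (hmem _ h1 (by rw [Pi.single_eq_same])).1⟩
  have hKcard : (K.card : ℝ) ≤ (2 * ((n / m : ℕ) : ℝ) + 1) ^ d := by
    have h1 : K.card ≤ (2 * (n / m) + 1) ^ d := by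
      refine (Finset.card_filter_le _ _).trans ?_
      rw [Fintype.card_piFinset, Finset.prod_const, Finset.card_univ, Fintype.card_fin,
        Int.card_Icc]
      have h2 : (Q + 1 - -Q).toNat = 2 * (n / m) + 1 := by
        rw [hQ]
        omega
      rw [h2]
    exact_mod_cast h1
  have hcov2 : Ev (i, ε) ⊆ ⋃ k ∈ K, F k := by
    rintro ω ⟨w, hw, hwi, hcw⟩
    obtain ⟨y, hy, hyi, hcy⟩ := PGH_ivt n (cfg ω) i ε hε w hwi hcw s hs
    rw [Set.mem_iUnion₂]
    exact ⟨_, (hmem y hy hyi).1, y, (hmem y hy hyi).2, hcy⟩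
  obtain ⟨k, hk3, hk4⟩ := PGH_avg μ K hKne F _ hcov2 _ hKcard
  refine ⟨fun j => (m : ℤ) * k j, ?_, ?_, ?_⟩
  · exact (Finset.mem_filter.1 hk3).2.1
  · exact (Finset.mem_filter.1 hk3).2.2
  · refine le_trans ?_ hk4
    rw [← div_div]
    exact div_le_div_of_nonneg_right hk2 (by positivity)

end Pool.Agent.FKS
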