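import Pool.Agent.FKS.TargetsB
import Pool.Agent.FKS.SepBad

/-!
# Project FKS, PRB: separated bad points in a box
-/

set_option autoImplicit false

namespace Pool.Agent.FKS

open Filter MeasureTheory Pool.Agent.FKP
open Pool.Agent.FKT hiding ind

theorem PRB_card (d c : ℕ) : ((bx (0 : Vx d) c).card : ℝ) = (2 * (c : ℝ) + 1) ^ d := by
  unfold bx
  rw [Pi.card_Icc]
  simp only [Pi.zero_apply, Int.card_Icc, Finset.prod_const, Finset.card_univ, Fintype.card_fin]
  have h : (0 + (c : ℤ) + 1 - (0 - (c : ℤ))).toNat = 2 * c + 1 := by omega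
  rw [h]
  push_cast
  ring

theorem p_PRB (h_SEQ : FKP.T_SEQ) : T_PRB := by
  intro d p q x N M ρ n Q hp hp1 hq hx hN hQ hloc hP
  have h := sep_bad h_SEQ hp hp1 hq (bx (0 : Vx d) N) (bx (0 : Vx d) ρ) M n Q x hx
    (fun z _ => hQ z) (fun z _ ω => hloc z ω) (by
      intro z hz y hy
      rw [SepBad.mem_bx] at *
      intro i
      have h1 := hz i
      have h2 := hy i
      have h3 : (ρ : ℤ) + M ≤ N := by exact_mod_cast hN
      simp only [Pi.zero_apply] at *
      constructor <;> linarith [h1.1, h1.2, h2.1, h2.2]) (fun z _ => hP z)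
  rw [PRB_card] at h
  exact h

end Pool.Agent.FKS
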