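import Pool.Agent.FKS.TargetsB

/-!
# Project FKS, part B: PST, one step of the growing induction
-/

set_option autoImplicit false

namespace Pool.Agent.FKS

open Filter MeasureTheory Pool.Agent.FKP
open Pool.Agent.FKT hiding ind

theorem PST_card (d c : ℕ) : ((bx (0 : Vx d) c).card : ℝ) = (2 * (c : ℝ) + 1) ^ d := by
  unfold bx
  rw [Pi.card_Icc]
  simp only [Pi.zero_apply, Int.card_Icc, Finset.prod_const, Finset.card_univ, Fintype.card_fin]
  have h : (0 + (c : ℤ) + 1 - (0 - (c : ℤ))).toNat = 2 * c + 1 := by omega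
  rw [h]
  push_cast
  ring

/-- The numerical part. -/
theorem PST_num (d m K k : ℕ) (c C : ℝ) (hm : 1 ≤ m) (hc : 0 < c)
    (hC : 8 * (d : ℝ) * m + 1 ≤ C) (hk : 4 * (d : ℝ) + C + 1 ≤ c * ((k : ℝ) + 1) / (2 * m))
    (s r : ℕ) (hs : 2 ≤ s) (hKr : 2 * K + 1 ≤ r) (hr : r < (s + 1) ^ m) :
    ((2 * ((K * r : ℕ) : ℝ) + 1) ^ d * (2 * ((K * r : ℕ) : ℝ) + 1) ^ d) *
      (s : ℝ) ^ (-(c * ((k : ℝ) + 1))) +
      ((2 * ((K * r : ℕ) : ℝ) + 1) ^ d * (s : ℝ) ^ (-C)) ^ (4 * m) ≤ (r : ℝ) ^ (-C) ∨ r < 2 := by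
  rcases Nat.lt_or_ge r 2 with h2 | h2
  · exact Or.inr h2
  left
  have hm0 : (0 : ℝ) < m := by exact_mod_cast hm
  have hr2 : (2 : ℝ) ≤ r := by exact_mod_cast h2
  have hr0 : (0 : ℝ) < r := by linarith
  have hr1 : (1 : ℝ) ≤ r := by linarith
  have hs0 : (0 : ℝ) < s := by exact_mod_cast (by omega : 0 < s)
  have hd0 : (0 : ℝ) ≤ d := Nat.cast_nonneg d
  have hC0 : 0 ≤ C := by
    have : 0 ≤ 8 * (d : ℝ) * m := by positivity
    linarith
  -- `r ≤ s ^ (2 m)`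
  have hrs : (r : ℝ) ≤ (s : ℝ) ^ ((2 * m : ℕ) : ℝ) := by
    rw [Real.rpow_natCast]
    have h1 : s + 1 ≤ s ^ 2 := by nlinarith
    have h3 : r ≤ s ^ (2 * m) := by
      calc r ≤ (s + 1) ^ m := hr.le
        _ ≤ (s ^ 2) ^ m := Nat.pow_le_pow_left h1 m
        _ = s ^ (2 * m) := by rw [pow_mul]
    exact_mod_cast h3
  have hneg : ∀ x : ℝ, 0 ≤ x → (s : ℝ) ^ (-x) ≤ (r : ℝ) ^ (-(x / (2 * m))) := by
    intro x hx
    have e1 : (s : ℝ) ^ (-x) = ((s : ℝ) ^ ((2 * m : ℕ) : ℝ)) ^ (-(x / (2 * m))) := by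
      rw [← Real.rpow_mul hs0.le]
      congr 1
      push_cast
      field_simp
    rw [e1]
    apply Real.rpow_le_rpow_of_nonpos hr0 hrs
    have : 0 ≤ x / (2 * m) := by positivity
    linarith
  -- cardinality
  have hcard : (2 * ((K * r : ℕ) : ℝ) + 1) ^ d ≤ (r : ℝ) ^ (2 * (d : ℝ)) := by
    have h1 : 2 * ((K * r : ℕ) : ℝ) + 1 ≤ (r : ℝ) ^ 2 := by
      have h3 : 2 * (K * r) + 1 ≤ r ^ 2 := by nlinarith
      exact_mod_cast h3
    calc (2 * ((K * r : ℕ) : ℝ) + 1) ^ d ≤ ((r : ℝ) ^ 2) ^ d :=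
          pow_le_pow_left₀ (by positivity) h1 d
      _ = (r : ℝ) ^ (2 * (d : ℝ)) := by
          rw [← pow_mul, ← Real.rpow_natCast]
          congr 1
          push_cast
          ring
  have hcard0 : 0 ≤ (2 * ((K * r : ℕ) : ℝ) + 1) ^ d := by positivity
  -- first term
  have t1 : ((2 * ((K * r : ℕ) : ℝ) + 1) ^ d * (2 * ((K * r : ℕ) : ℝ) + 1) ^ d) *
      (s : ℝ) ^ (-(c * ((k : ℝ) + 1))) ≤ (r : ℝ) ^ (-(C + 1)) := by
    calc _ ≤ ((r : ℝ) ^ (2 * (d : ℝ)) * (r : ℝ) ^ (2 * (d : ℝ))) *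
          (r : ℝ) ^ (-(c * ((k : ℝ) + 1) / (2 * m))) := by
          apply mul_le_mul
          · exact mul_le_mul hcard hcard hcard0 (by positivity)
          · exact hneg _ (by positivity)
          · positivity
          · positivity
      _ = (r : ℝ) ^ (2 * (d : ℝ) + 2 * (d : ℝ) + -(c * ((k : ℝ) + 1) / (2 * m))) := by
          rw [Real.rpow_add hr0, Real.rpow_add hr0]
      _ ≤ (r : ℝ) ^ (-(C + 1)) := by
          apply Real.rpow_le_rpow_of_exponent_le hr1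
          linarith
  have t2 : ((2 * ((K * r : ℕ) : ℝ) + 1) ^ d * (s : ℝ) ^ (-C)) ^ (4 * m) ≤
      (r : ℝ) ^ (-(C + 1)) := by
    calc _ ≤ ((r : ℝ) ^ (2 * (d : ℝ)) * (r : ℝ) ^ (-(C / (2 * m)))) ^ (4 * m) := by
          apply pow_le_pow_left₀ (by positivity)
          exact mul_le_mul hcard (hneg C hC0) (by positivity) (by positivity)
      _ = (r : ℝ) ^ ((2 * (d : ℝ) + -(C / (2 * m))) * ((4 * m : ℕ) : ℝ)) := by
          rw [← Real.rpow_add hr0, Real.rpow_mul hr0.le, Real.rpow_natCast]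
      _ ≤ (r : ℝ) ^ (-(C + 1)) := by
          apply Real.rpow_le_rpow_of_exponent_le hr1
          have e : (2 * (d : ℝ) + -(C / (2 * m))) * ((4 * m : ℕ) : ℝ) =
              8 * (d : ℝ) * m - 2 * C := by
            push_cast
            field_simp
            ring
          rw [e]
          linarith
  calc _ ≤ (r : ℝ) ^ (-(C + 1)) + (r : ℝ) ^ (-(C + 1)) := add_le_add t1 t2
    _ = 2 * (r : ℝ) ^ (-(C + 1)) := by ring
    _ ≤ r * (r : ℝ) ^ (-(C + 1)) := mul_le_mul_of_nonneg_right hr2 (by positivity)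
    _ = (r : ℝ) ^ (-C) := by
        nth_rewrite 1 [← Real.rpow_one (r : ℝ)]
        rw [← Real.rpow_add hr0]
        congr 1
        ring

theorem p_PST (hG : T_GTR) (hA : T_PRA) (hB : T_PRB) : T_PST := by
  classical
  intro d p0 p1 q h
  obtain ⟨A, B, c, hA2, hAB, hc, hPR⟩ := hA d p0 p1 q h
  have hp1 : 0 < p1 := h.h0.trans h.h01
  have hq0 : 0 < q := lt_of_lt_of_le one_pos h.hq
  refine ⟨A, B, B + 17, hA2, hAB, by omega, ?_⟩
  intro K C hK hC
  obtain ⟨s1, hs1⟩ := hPR K (by omega)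
  set m := B + 17 with hm
  have hm0 : (0 : ℝ) < m := by exact_mod_cast (by omega : 0 < m)
  set k := ⌈2 * (m : ℝ) * (4 * d + C + 1) / c⌉₊ with hk
  have hk' : 4 * (d : ℝ) + C + 1 ≤ c * ((k : ℝ) + 1) / (2 * m) := by
    have h1 : 2 * (m : ℝ) * (4 * d + C + 1) / c ≤ k := Nat.le_ceil _
    rw [div_le_iff₀ hc] at h1
    rw [le_div_iff₀ (by positivity)]
    nlinarith
  refine ⟨k, max (max 3 s1) (max (2 * K + 1) (12 * m)), ?_, ?_⟩
  · exact le_trans (le_max_left _ _) (le_max_left _ _)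
  intro s r Φ hs hsr hrs hP
  rw [max_le_iff, max_le_iff, max_le_iff] at hs
  obtain ⟨⟨h3, hss1⟩, h2K, h12⟩ := hs
  have hsm : s ≤ s ^ m := Nat.le_self_pow (by omega) s
  have hsr' : s ≤ r := hsm.trans hsr
  have hrr : r * r ≤ r ^ A := by
    calc r * r = r ^ 2 := by ring
      _ ≤ r ^ A := Nat.pow_le_pow_right (by omega) hA2
  have hrB : r * r ≤ r ^ B := by
    calc r * r = r ^ 2 := by ring
      _ ≤ r ^ B := Nat.pow_le_pow_right (by omega) (hA2.trans hAB)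
  have hsA : s ^ A ≤ r := le_trans (Nat.pow_le_pow_right (by omega) (by omega)) hsr
  have hsB : s ^ B ≤ r := le_trans (Nat.pow_le_pow_right (by omega) (by omega)) hsr
  have hKr : K * r + r ≤ r * r := by nlinarith
  -- the events
  set Ev1 : Vx d → Vx d → Finset (Ed d) → Prop := fun z v ω =>
    ∃ x ∈ bx z s, ∃ y ∈ bx v s, Fpl (eb (0 : Vx d) (r ^ A)) k ω x y with hEv1
  set Ev2 : Finset (Ed d) → Prop := fun ω => ∃ y : Fin (4 * m) → Vx d,
    (∀ i, y i ∈ bx (0 : Vx d) (K * r)) ∧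
      (∀ i j, i ≠ j → Far (2 * s ^ B + 1) (y i) (y j)) ∧
      ∀ i, ¬ Gl (y i) (K * s) s (s ^ A) Φ ω with hEv2
  have hdet : ∀ ω : Finset (Ed d), ¬ Gl (0 : Vx d) (K * r) r (r ^ A) (k + 2 * Φ) ω →
      (∃ z ∈ bx (0 : Vx d) (K * r), ∃ v ∈ bx (0 : Vx d) (K * r), ¬ Ev1 z v ω) ∨ Ev2 ω := by
    intro ω hω
    by_contra hcon
    rw [not_or] at hcon
    obtain ⟨hn1, hn2⟩ := hcon
    apply hω
    apply step (ρ1 := K * s) (s := s) (R1 := s ^ A) (n := 4 * m) (G := 2 * s ^ B)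
    · exact Nat.mul_le_mul_right s (by omega)
    · calc 4 * m * (2 * s ^ B + 1) ≤ 4 * m * (3 * s ^ B) := by
            apply Nat.mul_le_mul_left
            have : 1 ≤ s ^ B := Nat.one_le_pow _ _ (by omega)
            omega
        _ = 12 * m * s ^ B := by ring
        _ ≤ s * s ^ B := Nat.mul_le_mul_right _ h12
        _ = s ^ (B + 1) := by ring
        _ ≤ s ^ m := Nat.pow_le_pow_right (by omega) (by omega)
        _ ≤ r := hsr
    · exact hsr'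
    · calc K * r + s ^ A ≤ K * r + r := by omega
        _ ≤ r * r := hKr
        _ ≤ r ^ A := hrr
    · intro z hz w hw
      by_contra hc'
      exact hn1 ⟨z, hz, w, hw, hc'⟩
    · intro v hv hv'
      by_contra hc'
      push Not at hc'
      exact hn2 ⟨v, hv, hv', hc'⟩
  have hpt : ∀ ω : Finset (Ed d), ind (¬ Gl (0 : Vx d) (K * r) r (r ^ A) (k + 2 * Φ) ω) ≤
      (∑ zv ∈ bx (0 : Vx d) (K * r) ×ˢ bx (0 : Vx d) (K * r), ind (¬ Ev1 zv.1 zv.2 ω)) +
        ind (Ev2 ω) := by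
    intro ω
    by_cases hω : Gl (0 : Vx d) (K * r) r (r ^ A) (k + 2 * Φ) ω
    · rw [ind_false (not_not.mpr hω)]
      exact add_nonneg (Finset.sum_nonneg fun _ _ => ind_nonneg _) (ind_nonneg _)
    · rw [ind_true hω]
      rcases hdet ω hω with ⟨z, hz, v, hv, hzv⟩ | h2
      · have h1 : ind (¬ Ev1 (z, v).1 (z, v).2 ω) ≤
            ∑ zv ∈ bx (0 : Vx d) (K * r) ×ˢ bx (0 : Vx d) (K * r), ind (¬ Ev1 zv.1 zv.2 ω) :=
          Finset.single_le_sum (f := fun zv : Vx d × Vx d => ind (¬ Ev1 zv.1 zv.2 ω))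
            (fun _ _ => ind_nonneg _) (Finset.mem_product.mpr ⟨hz, hv⟩)
        have h4 : ind (¬ Ev1 (z, v).1 (z, v).2 ω) = 1 := ind_true hzv
        have h5 := ind_nonneg (Ev2 ω)
        linarith
      · have h1 : 0 ≤ ∑ zv ∈ bx (0 : Vx d) (K * r) ×ˢ bx (0 : Vx d) (K * r),
            ind (¬ Ev1 zv.1 zv.2 ω) := Finset.sum_nonneg fun _ _ => ind_nonneg _
        have h4 : ind (Ev2 ω) = 1 := ind_true h2
        linarith
  have hbound : P0 (0 : Vx d) (r ^ B) p1 q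
      (fun ω => ¬ Gl 0 (K * r) r (r ^ A) (k + 2 * Φ) ω) ≤
      (∑ zv ∈ bx (0 : Vx d) (K * r) ×ˢ bx (0 : Vx d) (K * r),
        P0 (0 : Vx d) (r ^ B) p1 q fun ω => ¬ Ev1 zv.1 zv.2 ω) +
        P0 (0 : Vx d) (r ^ B) p1 q Ev2 := by
    unfold P0 fr fw
    rw [← Ex_sum, ← Ex_add]
    exact Ex_mono hp1 h.h1 hq0 fun ω _ => hpt ω
  have hb1 : (∑ zv ∈ bx (0 : Vx d) (K * r) ×ˢ bx (0 : Vx d) (K * r),
      P0 (0 : Vx d) (r ^ B) p1 q fun ω => ¬ Ev1 zv.1 zv.2 ω) ≤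
      ((2 * ((K * r : ℕ) : ℝ) + 1) ^ d * (2 * ((K * r : ℕ) : ℝ) + 1) ^ d) *
        (s : ℝ) ^ (-(c * ((k : ℝ) + 1))) := by
    calc _ ≤ ∑ zv ∈ bx (0 : Vx d) (K * r) ×ˢ bx (0 : Vx d) (K * r),
          (s : ℝ) ^ (-(c * ((k : ℝ) + 1))) := by
          apply Finset.sum_le_sum
          intro zv hzv
          rw [Finset.mem_product] at hzv
          exact hs1 s r k hss1 hsr' zv.1 hzv.1 zv.2 hzv.2
      _ = _ := by
          rw [Finset.sum_const, Finset.card_product, nsmul_eq_mul, Nat.cast_mul, PST_card]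
  have hb2 : P0 (0 : Vx d) (r ^ B) p1 q Ev2 ≤
      ((2 * ((K * r : ℕ) : ℝ) + 1) ^ d * (s : ℝ) ^ (-C)) ^ (4 * m) := by
    apply hB d p1 q ((s : ℝ) ^ (-C)) (r ^ B) (s ^ B) (K * r) (4 * m)
      (fun y ω => Gl y (K * s) s (s ^ A) Φ ω) hp1 h.h1 h.hq (by positivity)
    · calc K * r + s ^ B ≤ K * r + r := by omega
        _ ≤ r * r := hKr
        _ ≤ r ^ B := hrB
    · intro y
      exact Gl_inc y _ _ _ _
    · intro y ω
      constructor
      · intro h1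
        have h2 := (Gl_loc y (K * s) s (s ^ A) Φ ω).mp h1
        refine Gl_inc y _ _ _ _ _ _ ?_ h2
        apply Finset.inter_subset_inter_left
        rw [← es_bx, ← es_bx]
        apply FKP.es_mono
        have h0 : y ∈ bx y 0 := by
          rw [mem_bx]
          simp
        apply bx_sub h0
        rw [zero_add]
        exact Nat.pow_le_pow_right (by omega) hAB
      · intro h1
        exact Gl_inc y _ _ _ _ _ _ Finset.inter_subset_left h1
    · intro y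
      rw [(hG d).2.1 y (s ^ B) (K * s) s (s ^ A) Φ p1 q]
      exact hP
  have hnum := PST_num d m K k c C (by omega) hc hC hk' s r (by omega) (by omega) hrs
  rcases hnum with hnum | hnum
  · linarith
  · omega

end Pool.Agent.FKS
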