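import Pool.Agent.FKS.TargetsC
import Pool.Agent.FKS.Step
import Pool.Agent.FKP.P_AUT

/-!
# FKS, SGN: invariance of the free measure of a box under signed permutations
-/

set_option autoImplicit false

namespace Pool.Agent.FKS

open Filter MeasureTheory Pool.Agent.FKP
open Pool.Agent.FKT hiding ind

variable {d : ℕ}

/-- The edge bijection `g` is compatible with the vertex bijection `c` (up to orientation). -/
def SGN_Cmp (c : Vx d ≃ Vx d) (g : Ed d ≃ Ed d) : Prop :=
  ∀ e : Ed d, ((g e).1 = c e.1 ∧ tgt (g e) = c (tgt e)) ∨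
    ((g e).1 = c (tgt e) ∧ tgt (g e) = c e.1)

theorem SGN_symm {c : Vx d ≃ Vx d} {g : Ed d ≃ Ed d} (h : SGN_Cmp c g) :
    SGN_Cmp c.symm g.symm := by
  intro e
  rcases h (g.symm e) with ⟨h1, h2⟩ | ⟨h1, h2⟩
  · rw [Equiv.apply_symm_apply] at h1 h2
    left
    rw [h1, h2, Equiv.symm_apply_apply, Equiv.symm_apply_apply]
    exact ⟨rfl, rfl⟩
  · rw [Equiv.apply_symm_apply] at h1 h2
    right
    rw [h1, h2, Equiv.symm_apply_apply, Equiv.symm_apply_apply]
    exact ⟨rfl, rfl⟩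

theorem SGN_es {c : Vx d ≃ Vx d} {g : Ed d ≃ Ed d} (h : SGN_Cmp c g) (S : Finset (Vx d)) :
    es (S.map c.toEmbedding) = (es S).map g.toEmbedding := by
  ext e
  rw [Finset.mem_map_equiv, FKP.mem_es, FKP.mem_es, Finset.mem_map_equiv, Finset.mem_map_equiv]
  rcases SGN_symm h e with ⟨h1, h2⟩ | ⟨h1, h2⟩
  · rw [h1, h2]
  · rw [h1, h2]
    exact and_comm

theorem SGN_con {c : Vx d ≃ Vx d} {g : Ed d ≃ Ed d} (h : SGN_Cmp c g)
    {O : Set (Ed d)} {a b : Vx d} (hab : Cn O a b) : Cn (g '' O) (c a) (c b) := by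
  unfold Cn FKT.Con at hab
  induction hab with
  | rel a b h1 =>
    rcases h1 with h1 | ⟨e, he, h1, h2⟩
    · exact absurd h1 (fun h => h)
    · have h3 : Cn (g '' O) (g e).1 (tgt (g e)) := Cn_edge (Set.mem_image_of_mem g he)
      rcases h e with ⟨h4, h5⟩ | ⟨h4, h5⟩
      · rw [h4, h5, h1, h2] at h3
        exact h3
      · rw [h4, h5, h1, h2] at h3
        exact Cn_symm h3
  | refl a => exact Relation.EqvGen.refl _
  | symm a b _ ih => exact Relation.EqvGen.symm _ _ ih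
  | trans a b c _ _ ih1 ih2 => exact Relation.EqvGen.trans _ _ _ ih1 ih2

theorem SGN_con_iff {c : Vx d ≃ Vx d} {g : Ed d ≃ Ed d} (h : SGN_Cmp c g)
    (O : Set (Ed d)) (a b : Vx d) : Cn O a b ↔ Cn (g '' O) (c a) (c b) := by
  refine ⟨SGN_con h, fun h1 => ?_⟩
  have h2 := SGN_con (SGN_symm h) h1
  rw [Equiv.symm_image_image, Equiv.symm_apply_apply, Equiv.symm_apply_apply] at h2
  exact h2

theorem SGN_coe (g : Ed d ≃ Ed d) (ω : Finset (Ed d)) :
    ((ω.map g.toEmbedding : Finset (Ed d)) : Set (Ed d)) = g '' (ω : Set (Ed d)) := by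
  rw [Finset.coe_map]
  rfl

theorem SGN_ncl {c : Vx d ≃ Vx d} {g : Ed d ≃ Ed d} (h : SGN_Cmp c g)
    (S : Finset (Vx d)) (ω : Finset (Ed d)) :
    ncl Prod.fst tgt (no (Vx d)) (S.map c.toEmbedding)
      ((ω.map g.toEmbedding : Finset (Ed d)) : Set (Ed d)) =
      ncl Prod.fst tgt (no (Vx d)) S (ω : Set (Ed d)) := by
  rw [SGN_coe]
  refine (FKT.p_NCM (Vx d) (Vx d) (Ed d) (Ed d) Prod.fst tgt Prod.fst tgt (no (Vx d)) (no (Vx d))
    S (S.map c.toEmbedding) _ _ c ?_ ?_ ?_).symm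
  · intro v hv
    exact Finset.mem_map_of_mem _ hv
  · intro v' hv'
    obtain ⟨v, hv, rfl⟩ := Finset.mem_map.1 hv'
    exact ⟨v, hv, Relation.EqvGen.refl _⟩
  · intro u _ v _
    exact SGN_con_iff h _ u v

theorem SGN_fr {c : Vx d ≃ Vx d} {g : Ed d ≃ Ed d} (h : SGN_Cmp c g)
    (S : Finset (Vx d)) (p q : ℝ) (f : Finset (Ed d) → ℝ) :
    fr (S.map c.toEmbedding) p q f = fr S p q fun ω => f (ω.map g.toEmbedding) := by
  have hw : ∀ ω : Finset (Ed d),
      wt Prod.fst tgt (no (Vx d)) (S.map c.toEmbedding)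
        ((es S).map g.toEmbedding) p q (ω.map g.toEmbedding) =
        wt Prod.fst tgt (no (Vx d)) S (es S) p q ω := by
    intro ω
    unfold wt bw
    rw [SGN_ncl h, Finset.card_map, Finset.card_map]
  unfold fr fw Ex
  rw [SGN_es h, AUT_.sum_map, AUT_.sum_map]
  simp only [hw]

theorem SGN_mapmap (g : Ed d ≃ Ed d) (ω : Finset (Ed d)) :
    (ω.map g.toEmbedding).map g.symm.toEmbedding = ω := by
  ext e
  rw [Finset.mem_map_equiv, Finset.mem_map_equiv, Equiv.symm_symm, Equiv.symm_apply_apply]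

theorem SGN_hop {c : Vx d ≃ Vx d} {g : Ed d ≃ Ed d} (h : SGN_Cmp c g)
    (hb : ∀ (u : Vx d) (n : ℕ), (bx u n).map c.toEmbedding = bx (c u) n) (h0 : c 0 = 0)
    {v : Vx d} {s R k : ℕ} {ω : Finset (Ed d)} (hh : Hop 0 v s R k ω) :
    Hop 0 (c v) s R k (ω.map g.toEmbedding) := by
  obtain ⟨x, hx, y, hy, T, hT, hk, hC⟩ := hh
  rw [zero_add] at hy
  have heb : (eb (0 : Vx d) R).map g.toEmbedding = eb (0 : Vx d) R := by
    rw [← es_bx, ← SGN_es h, hb, h0]
  refine ⟨c x, ?_, c y, ?_, T.map g.toEmbedding, ?_, ?_, ?_⟩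
  · have := Finset.mem_map_of_mem c.toEmbedding hx
    rw [hb, h0] at this
    exact this
  · have := Finset.mem_map_of_mem c.toEmbedding hy
    rw [hb] at this
    rw [zero_add]
    exact this
  · rw [← heb]
    exact Finset.map_subset_map.mpr hT
  · rw [Finset.card_map]
    exact hk
  · have h1 := SGN_con h hC
    unfold Cf
    have h2 : (((ω.map g.toEmbedding ∩ eb (0 : Vx d) R) ∪ T.map g.toEmbedding :
        Finset (Ed d)) : Set (Ed d)) = g '' (((ω ∩ eb (0 : Vx d) R) ∪ T : Finset (Ed d))) := by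
      rw [← SGN_coe, Finset.map_union, Finset.map_inter, heb]
    rw [h2]
    exact h1

/-- The signed permutation as an equivalence. -/
def SGN_c (π : Equiv.Perm (Fin d)) (ε : Fin d → ℤ) (hε : ∀ i, ε i = 1 ∨ ε i = -1) :
    Vx d ≃ Vx d where
  toFun := sgp π ε
  invFun := fun v j => ε (π.symm j) * v (π.symm j)
  left_inv := by
    intro v
    funext j
    simp only [sgp, Equiv.apply_symm_apply]
    rcases hε (π.symm j) with h | h <;> rw [h] <;> ring
  right_inv := by
    intro v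
    funext i
    simp only [sgp, Equiv.symm_apply_apply]
    rcases hε i with h | h <;> rw [h] <;> ring

theorem SGN_add (π : Equiv.Perm (Fin d)) (ε : Fin d → ℤ) (hε : ∀ i, ε i = 1 ∨ ε i = -1)
    (x : Vx d) (i : Fin d) : SGN_c π ε hε (x + Pi.single i 1) =
      SGN_c π ε hε x + Pi.single (π.symm i) (ε (π.symm i)) := by
  funext k
  show ε k * ((x + Pi.single i 1 : Vx d) (π k)) = ε k * x (π k) + _
  rw [Pi.add_apply]
  by_cases hk : k = π.symm i
  · subst hk
    rw [Equiv.apply_symm_apply, Pi.single_eq_same, Pi.single_eq_same]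
    ring
  · rw [Pi.single_eq_of_ne hk, Pi.single_eq_of_ne]
    · ring
    · intro h
      apply hk
      rw [← h, Equiv.symm_apply_apply]

/-- The edge bijection. -/
def SGN_g (π : Equiv.Perm (Fin d)) (ε : Fin d → ℤ) (hε : ∀ i, ε i = 1 ∨ ε i = -1) :
    Ed d ≃ Ed d where
  toFun := fun e => (if ε (π.symm e.2) = 1 then SGN_c π ε hε e.1
    else SGN_c π ε hε e.1 - Pi.single (π.symm e.2) 1, π.symm e.2)
  invFun := fun e => (if ε e.2 = 1 then (SGN_c π ε hε).symm e.1
    else (SGN_c π ε hε).symm (e.1 + Pi.single e.2 1), π e.2)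
  left_inv := by
    rintro ⟨x, i⟩
    by_cases h : ε (π.symm i) = 1
    · simp [h]
    · simp [h]
  right_inv := by
    rintro ⟨x, i⟩
    by_cases h : ε i = 1
    · simp [h]
    · simp [h]

theorem SGN_cmp (π : Equiv.Perm (Fin d)) (ε : Fin d → ℤ) (hε : ∀ i, ε i = 1 ∨ ε i = -1) :
    SGN_Cmp (SGN_c π ε hε) (SGN_g π ε hε) := by
  rintro ⟨x, i⟩
  by_cases h : ε (π.symm i) = 1
  · left
    have h1 : SGN_g π ε hε (x, i) = (SGN_c π ε hε x, π.symm i) := by
      show (if ε (π.symm i) = 1 then _ else _, _) = _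
      rw [if_pos h]
    rw [h1]
    refine ⟨rfl, ?_⟩
    show SGN_c π ε hε x + Pi.single (π.symm i) 1 = SGN_c π ε hε (x + Pi.single i 1)
    rw [SGN_add, h]
  · right
    have h2 : ε (π.symm i) = -1 := (hε _).resolve_left h
    have h1 : SGN_g π ε hε (x, i) = (SGN_c π ε hε x - Pi.single (π.symm i) 1, π.symm i) := by
      show (if ε (π.symm i) = 1 then _ else _, _) = _
      rw [if_neg h]
    rw [h1]
    refine ⟨?_, ?_⟩
    · show SGN_c π ε hε x - Pi.single (π.symm i) 1 = SGN_c π ε hε (x + Pi.single i 1)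
      rw [SGN_add, h2, Pi.single_neg, sub_eq_add_neg]
    · show SGN_c π ε hε x - Pi.single (π.symm i) 1 + Pi.single (π.symm i) 1 = SGN_c π ε hε x
      rw [sub_add_cancel]

theorem SGN_bx (π : Equiv.Perm (Fin d)) (ε : Fin d → ℤ) (hε : ∀ i, ε i = 1 ∨ ε i = -1)
    (u : Vx d) (n : ℕ) :
    (bx u n).map (SGN_c π ε hε).toEmbedding = bx (SGN_c π ε hε u) n := by
  have key : ∀ y : Vx d, SGN_c π ε hε y ∈ bx (SGN_c π ε hε u) n ↔ y ∈ bx u n := by
    intro y
    rw [mem_bx, mem_bx]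
    have h1 : ∀ i, |SGN_c π ε hε y i - SGN_c π ε hε u i| = |y (π i) - u (π i)| := by
      intro i
      show |ε i * y (π i) - ε i * u (π i)| = _
      rw [← mul_sub, abs_mul]
      rcases hε i with h | h <;> rw [h] <;> simp
    constructor
    · intro h j
      have := h (π.symm j)
      rw [h1, Equiv.apply_symm_apply] at this
      exact this
    · intro h i
      rw [h1]
      exact h _
  ext y
  rw [Finset.mem_map_equiv, ← key, Equiv.apply_symm_apply]

theorem p_SGN : T_SGN := by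
  intro d N s R k p q v π ε hε
  have h := SGN_cmp π ε hε
  have hb := SGN_bx π ε hε
  have h0 : SGN_c π ε hε 0 = 0 := by
    funext i
    show ε i * (0 : Vx d) (π i) = 0
    simp
  have h0' : (SGN_c π ε hε).symm 0 = 0 := by
    rw [Equiv.symm_apply_eq]
    exact h0.symm
  have hb' : ∀ (u : Vx d) (n : ℕ), (bx u n).map (SGN_c π ε hε).symm.toEmbedding =
      bx ((SGN_c π ε hε).symm u) n := by
    intro u n
    have h1 := hb ((SGN_c π ε hε).symm u) n
    rw [Equiv.apply_symm_apply] at h1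
    rw [← h1]
    ext y
    rw [Finset.mem_map_equiv, Finset.mem_map_equiv, Equiv.symm_symm, Equiv.symm_apply_apply]
  have key : ∀ ω : Finset (Ed d), Hop 0 (sgp π ε v) s R k
      (ω.map (SGN_g π ε hε).toEmbedding) ↔ Hop 0 v s R k ω := by
    intro ω
    constructor
    · intro h1
      have h2 := SGN_hop (SGN_symm h) hb' h0' h1
      rw [SGN_mapmap] at h2
      have h3 : (SGN_c π ε hε).symm (sgp π ε v) = v := (SGN_c π ε hε).symm_apply_apply v
      rw [h3] at h2
      exact h2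
    · intro h1
      exact SGN_hop h hb h0 h1
  unfold P0
  have h4 : bx (0 : Vx d) N = (bx (0 : Vx d) N).map (SGN_c π ε hε).toEmbedding := by
    rw [hb, h0]
  conv_lhs => rw [h4]
  rw [SGN_fr h]
  congr 1
  funext ω
  exact ind_congr (not_congr (key ω))

end Pool.Agent.FKS
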