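import Pool.Agent.FKS.TargetsD

/-!
# Project FKS (MP_552f07_pr), part D: target SLI, full slices
-/

set_option autoImplicit false

namespace Pool.Agent.FKS

open Filter MeasureTheory Pool.Agent.FKP
open Pool.Agent.FKT hiding ind

/-- The distance of two points. -/
def SLI_dist {d : ℕ} (x y : Vx d) : ℕ := ∑ i, (x i - y i).natAbs

theorem SLI_dist_lt {d : ℕ} {x y z : Vx d} {i : Fin d} (h : ∀ j, j ≠ i → z j = x j)
    (hi : (z i - y i).natAbs < (x i - y i).natAbs) : SLI_dist z y < SLI_dist x y := by
  unfold SLI_dist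
  apply Finset.sum_lt_sum
  · intro j _
    by_cases hj : j = i
    · rw [hj]
      exact hi.le
    · rw [h j hj]
  · exact ⟨i, Finset.mem_univ i, hi⟩

theorem SLI_mem_bx {d : ℕ} {v : Vx d} {n : ℕ} :
    v ∈ bx (0 : Vx d) n ↔ ∀ i, -(n : ℤ) ≤ v i ∧ v i ≤ n := by
  unfold bx
  rw [Finset.mem_Icc, Pi.le_def, Pi.le_def]
  constructor
  · rintro ⟨h1, h2⟩ i
    have h3 := h1 i
    have h4 := h2 i
    simp only [Pi.zero_apply] at h3 h4
    constructor
    · omega
    · omega
  · intro h
    constructor
    · intro i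
      have h3 := (h i).1
      simp only [Pi.zero_apply]
      omega
    · intro i
      have h3 := (h i).2
      simp only [Pi.zero_apply]
      omega

/-- The walk from `a` to `x` inside a slice. -/
theorem SLI_walk {d M : ℕ} {A B : Finset (Vx d)} (hA : A ⊆ bx (0 : Vx d) M)
    (hAB : ∀ a ∈ bx (0 : Vx d) M, a ∈ A ∨ a ∈ B) (k : Fin d) {x : Vx d}
    (hx : x ∈ bx (0 : Vx d) M) (hxA : x ∉ A) (N : ℕ) :
    ∀ a ∈ A, a k = x k → SLI_dist a x ≤ N → ∃ p ∈ Pl A B, p.1 k = x k := by
  classical
  induction N with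
  | zero =>
    intro a ha hak hd
    exfalso
    apply hxA
    have hax : a = x := by
      funext i
      have h1 : (a i - x i).natAbs ≤ SLI_dist a x :=
        Finset.single_le_sum (f := fun j => (a j - x j).natAbs) (fun j _ => Nat.zero_le _)
          (Finset.mem_univ i)
      omega
    exact hax ▸ ha
  | succ N ih =>
    intro a ha hak hd
    have hax : a ≠ x := by
      rintro rfl
      exact hxA ha
    obtain ⟨i, hi⟩ := Function.ne_iff.mp hax
    have hki : k ≠ i := by
      rintro rfl
      exact hi hak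
    have haM := SLI_mem_bx.1 (hA ha)
    have hxM := SLI_mem_bx.1 hx
    -- the next point
    obtain ⟨b, hb, hbi, hbM, hbj⟩ : ∃ b : Vx d, Nb a b ∧
        (b i - x i).natAbs < (a i - x i).natAbs ∧
        ((x i ≤ b i ∧ b i ≤ a i) ∨ (a i ≤ b i ∧ b i ≤ x i)) ∧ ∀ j, j ≠ i → b j = a j := by
      rcases lt_or_gt_of_ne hi with hlt | hgt
      · refine ⟨a + Pi.single i 1, Or.inr ⟨i, Or.inl rfl⟩, ?_, ?_, ?_⟩
        · simp only [Pi.add_apply, Pi.single_eq_same]
          omega
        · simp only [Pi.add_apply, Pi.single_eq_same]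
          omega
        · intro j hj
          simp only [Pi.add_apply, Pi.single_eq_of_ne hj]
          omega
      · refine ⟨a - Pi.single i 1, Or.inr ⟨i, Or.inr (by simp)⟩, ?_, ?_, ?_⟩
        · simp only [Pi.sub_apply, Pi.single_eq_same]
          omega
        · simp only [Pi.sub_apply, Pi.single_eq_same]
          omega
        · intro j hj
          simp only [Pi.sub_apply, Pi.single_eq_of_ne hj]
          omega
    have hbM : b ∈ bx (0 : Vx d) M := by
      rw [SLI_mem_bx]
      intro j
      by_cases hj : j = i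
      · subst hj
        have h1 := haM j
        have h2 := hxM j
        omega
      · rw [hbj j hj]
        exact haM j
    have hbk : b k = x k := by rw [hbj k hki, hak]
    by_cases hbA : b ∈ A
    · have h1 := SLI_dist_lt (x := a) (y := x) (z := b) hbj hbi
      exact ih b hbA hbk (by omega)
    · refine ⟨(a, b), ?_, hak⟩
      unfold Pl
      rw [Finset.mem_filter, Finset.mem_product]
      exact ⟨⟨ha, (hAB b hbM).resolve_left hbA⟩, hb⟩

theorem p_SLI : T_SLI := by
  classical
  intro d M A B hA hAB k I hI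
  let I' : Finset ℤ := I.filter fun s => ∀ x ∈ bx (0 : Vx d) M, x k = s → x ∈ A
  refine ⟨I', Finset.filter_subset _ _, ?_, ?_⟩
  · have h1 : I \ I' ⊆ (Pl A B).image fun p => p.1 k := by
      intro s hs
      rw [Finset.mem_sdiff] at hs
      obtain ⟨hsI, hs'⟩ := hs
      have h2 : ¬ ∀ x ∈ bx (0 : Vx d) M, x k = s → x ∈ A := fun h =>
        hs' (Finset.mem_filter.2 ⟨hsI, h⟩)
      push Not at h2
      obtain ⟨x, hx, hxk, hxA⟩ := h2
      obtain ⟨a, ha, hak⟩ := hI s hsI
      obtain ⟨p, hp, hpk⟩ := SLI_walk hA hAB k hx hxA (SLI_dist a x) a ha (hak.trans hxk.symm)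
        le_rfl
      rw [Finset.mem_image]
      exact ⟨p, hp, hpk.trans hxk⟩
    have h2 : (I \ I').card ≤ (Pl A B).card :=
      (Finset.card_le_card h1).trans Finset.card_image_le
    have h3 : (I \ I').card + I'.card = I.card :=
      Finset.card_sdiff_add_card_eq_card (Finset.filter_subset _ _)
    omega
  · intro s hs
    exact (Finset.mem_filter.1 hs).2

end Pool.Agent.FKS
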