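import Pool.Agent.FKS.TargetsD

/-!
# Project FKS, SPD: a separated family of places
-/

set_option autoImplicit false

namespace Pool.Agent.FKS

open Filter MeasureTheory Pool.Agent.FKP
open Pool.Agent.FKT hiding ind

/-- The difference vector of a code. -/
def SPD_dec {d : ℕ} : Option (Fin d × Bool) → Vx d
  | none => 0
  | some (i, true) => Pi.single i 1
  | some (i, false) => -Pi.single i 1

theorem SPD_code {d : ℕ} {a b : Vx d} (h : Nb a b) :
    ∃ c : Option (Fin d × Bool), b = a + SPD_dec c := by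
  rcases h with h | ⟨i, h | h⟩
  · exact ⟨none, by simp [SPD_dec, h]⟩
  · exact ⟨some (i, true), by simp [SPD_dec, h]⟩
  · exact ⟨some (i, false), by simp [SPD_dec, h]⟩

/-- Pigeonhole: a large fibre. -/
theorem SPD_pig {α β : Type} [DecidableEq α] [Fintype β] [Nonempty β] [DecidableEq β]
    (P : Finset α) (f : α → β) :
    ∃ y : β, P.card ≤ Fintype.card β * (P.filter fun x => f x = y).card := by
  obtain ⟨y, -, hy⟩ := Finset.exists_max_image (Finset.univ : Finset β)
    (fun y => (P.filter fun x => f x = y).card) Finset.univ_nonempty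
  refine ⟨y, ?_⟩
  calc P.card = ∑ z : β, (P.filter fun x => f x = z).card :=
        Finset.card_eq_sum_card_fiberwise fun x _ => Finset.mem_coe.2 (Finset.mem_univ _)
    _ ≤ ∑ _z : β, (P.filter fun x => f x = y).card :=
        Finset.sum_le_sum fun z hz => hy z hz
    _ = Fintype.card β * (P.filter fun x => f x = y).card := by
        rw [Finset.sum_const, smul_eq_mul, Finset.card_univ]

theorem p_SPD : T_SPD := by
  classical
  intro d R hR P hP
  have : NeZero R := ⟨by omega⟩
  have hc : ∀ p : Vx d × Vx d, ∃ c : Option (Fin d × Bool), p ∈ P → p.2 = p.1 + SPD_dec c := by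
    intro p
    by_cases h : p ∈ P
    · obtain ⟨c, hc⟩ := SPD_code (hP p h)
      exact ⟨c, fun _ => hc⟩
    · exact ⟨none, fun h' => absurd h' h⟩
  choose c hc using hc
  obtain ⟨y, hy⟩ := SPD_pig P
    (fun p : Vx d × Vx d => ((fun i => ((p.1 i : ℤ) : ZMod R)), c p) :
      Vx d × Vx d → (Fin d → ZMod R) × Option (Fin d × Bool))
  refine ⟨P.filter fun p => ((fun i => ((p.1 i : ℤ) : ZMod R)), c p) = y,
    Finset.filter_subset _ _, ?_, ?_⟩
  · have hcard : Fintype.card ((Fin d → ZMod R) × Option (Fin d × Bool)) =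
        (2 * d + 1) * R ^ d := by
      simp [Fintype.card_prod, ZMod.card]
      ring
    rw [← hcard]
    exact hy
  · intro p hp p' hp' hne
    rw [Finset.mem_filter] at hp hp'
    have e := hp.2.trans hp'.2.symm
    have e1 : ∀ i, ((p.1 i : ℤ) : ZMod R) = ((p'.1 i : ℤ) : ZMod R) :=
      fun i => congrFun (Prod.mk.inj e).1 i
    have e2 : c p = c p' := (Prod.mk.inj e).2
    have hne1 : p.1 ≠ p'.1 := by
      intro h
      apply hne
      have h2 := hc p hp.1
      have h3 := hc p' hp'.1
      rw [e2, h, ← h3] at h2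
      exact Prod.ext h h2
    obtain ⟨i, hi⟩ := Function.ne_iff.1 hne1
    refine ⟨i, ?_⟩
    have hd := (ZMod.intCast_eq_intCast_iff_dvd_sub _ _ _).1 (e1 i).symm
    exact Int.le_of_dvd (abs_pos.2 (sub_ne_zero.2 hi)) ((dvd_abs _ _).2 hd)

end Pool.Agent.FKS
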