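import Pool.Agent.FKS.TargetsD

/-!
# Project FKS, part D: target STA (the start for the measure `P0 0 N`)
-/

set_option autoImplicit false

namespace Pool.Agent.FKS

open Filter MeasureTheory Pool.Agent.FKP
open Pool.Agent.FKT hiding ind

theorem STA_mem_bx {d : ℕ} {x v : Vx d} {n : ℕ} :
    v ∈ bx x n ↔ ∀ i, x i - n ≤ v i ∧ v i ≤ x i + n := by
  unfold bx
  rw [Finset.mem_Icc]
  exact ⟨fun h i => ⟨h.1 i, h.2 i⟩, fun h => ⟨fun i => (h i).1, fun i => (h i).2⟩⟩

theorem STA_mem_bd {d : ℕ} {x v : Vx d} {n : ℕ} :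
    v ∈ bd x n ↔ v ∈ bx x n ∧ ∃ i, v i = x i - n ∨ v i = x i + n := by
  unfold bd
  rw [Finset.mem_filter]

/-- A point of the box which is not on the boundary has its neighbours in the box. -/
theorem STA_nbr {d : ℕ} {L : ℕ} {v : Vx d} (hv : v ∈ bx (0 : Vx d) L)
    (hb : v ∉ bd (0 : Vx d) L) (i : Fin d) :
    v + Pi.single i 1 ∈ bx (0 : Vx d) L ∧ v - Pi.single i 1 ∈ bx (0 : Vx d) L := by
  have hv' := STA_mem_bx.mp hv
  have hb' : ∀ j, v j ≠ (0 : Vx d) j - L ∧ v j ≠ (0 : Vx d) j + L := by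
    intro j
    constructor
    · intro h
      exact hb (STA_mem_bd.mpr ⟨hv, j, Or.inl h⟩)
    · intro h
      exact hb (STA_mem_bd.mpr ⟨hv, j, Or.inr h⟩)
  constructor
  · rw [STA_mem_bx]
    intro j
    have h1 := hv' j
    have h2 := hb' j
    by_cases hj : j = i
    · subst hj
      simp only [Pi.add_apply, Pi.single_eq_same]
      omega
    · simp only [Pi.add_apply, Pi.single_eq_of_ne hj]
      omega
  · rw [STA_mem_bx]
    intro j
    have h1 := hv' j
    have h2 := hb' j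
    by_cases hj : j = i
    · subst hj
      simp only [Pi.sub_apply, Pi.single_eq_same]
      omega
    · simp only [Pi.sub_apply, Pi.single_eq_of_ne hj]
      omega

/-- The exploration argument: a cluster without boundary points of `bx 0 L` is not left. -/
theorem STA_expl {d : ℕ} {L : ℕ} (ω F : Finset (Ed d)) (u : Vx d)
    (hW : ∀ z ∈ bd (0 : Vx d) L, ¬ Cf (ω ∩ eb (0 : Vx d) L) u z) {x y : Vx d}
    (h : Cf (ω ∩ F) x y) :
    (x ∈ bx (0 : Vx d) L ∧ Cf (ω ∩ eb (0 : Vx d) L) u x) ↔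
      (y ∈ bx (0 : Vx d) L ∧ Cf (ω ∩ eb (0 : Vx d) L) u y) := by
  unfold Cf Cn FKT.Con at h
  induction h with
  | rel x y hxy =>
    rcases hxy with h | ⟨e, he, h1, h2⟩
    · exact absurd h (by simp [no])
    · obtain ⟨v, i⟩ := e
      have he1 : ((v, i) : Ed d) ∈ ω := by
        have := Finset.mem_coe.mp he
        exact (Finset.mem_inter.mp this).1
      have hxv : x = v := h1.symm
      have hyv : y = v + Pi.single i 1 := h2.symm
      have key : x ∈ bx (0 : Vx d) L → y ∈ bx (0 : Vx d) L →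
          Cf (ω ∩ eb (0 : Vx d) L) x y := by
        intro hx hy
        have he' : ((v, i) : Ed d) ∈ ((ω ∩ eb (0 : Vx d) L : Finset (Ed d)) : Set (Ed d)) := by
          rw [Finset.mem_coe, Finset.mem_inter]
          refine ⟨he1, ?_⟩
          rw [← es_bx, mem_es]
          refine ⟨?_, ?_⟩
          · rw [← hxv]; exact hx
          · have : tgt ((v, i) : Ed d) = y := h2
            rw [this]; exact hy
        have := Con_edge (s := Prod.fst) (t := tgt) (R := no (Vx d)) he'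
        rw [← h1, ← h2]
        exact this
      constructor
      · rintro ⟨hx, hu⟩
        have hy : y ∈ bx (0 : Vx d) L := by
          rw [hyv, ← hxv]
          exact (STA_nbr hx (fun hb => hW x hb hu) i).1
        exact ⟨hy, Con_trans hu (key hx hy)⟩
      · rintro ⟨hy, hu⟩
        have hx : x ∈ bx (0 : Vx d) L := by
          have h3 := (STA_nbr hy (fun hb => hW y hb hu) i).2
          have h4 : y - Pi.single i 1 = x := by
            rw [hyv, hxv]; exact add_sub_cancel_right _ _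
          rw [h4] at h3
          exact h3
        exact ⟨hx, Con_trans hu (Con_symm (key hx hy))⟩
  | refl x => exact Iff.rfl
  | symm x y _ ih => exact ih.symm
  | trans x y z _ _ ih1 ih2 => exact ih1.trans ih2

theorem STA_ctr {d : ℕ} {L σ M : ℕ} (h : (2 * σ + 1) * M + σ ≤ L) {a : Vx d}
    (ha : a ∈ bx (0 : Vx d) M) (i : Fin d) :
    -((L : ℤ) - σ) ≤ ctr σ a i ∧ ctr σ a i ≤ (L : ℤ) - σ := by
  have h1 := STA_mem_bx.mp ha i
  have h2 : -(M : ℤ) ≤ a i ∧ a i ≤ M := by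
    simp only [Pi.zero_apply] at h1
    constructor <;> linarith [h1.1, h1.2]
  have h3 : ((2 * (σ : ℤ) + 1) * M + σ) ≤ L := by exact_mod_cast h
  have h4 : (0 : ℤ) ≤ 2 * (σ : ℤ) + 1 := by positivity
  unfold ctr
  constructor
  · have := mul_le_mul_of_nonneg_left h2.1 h4
    linarith [this, mul_neg (2 * (σ : ℤ) + 1) (M : ℤ)]
  · have := mul_le_mul_of_nonneg_left h2.2 h4
    linarith

/-- The event for the shifted boxes implies that the tile is met. -/
theorem STA_key {d : ℕ} {L σ M : ℕ} (h : (2 * σ + 1) * M + σ ≤ L) {a : Vx d}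
    (ha : a ∈ bx (0 : Vx d) M) (ω : Finset (Ed d))
    (hQ : ∃ u ∈ bx (ctr σ a) σ, ∃ b ∈ bd (ctr σ a) (2 * L),
      Cf (ω ∩ eb (ctr σ a) (2 * L)) u b) :
    ∃ z ∈ bd (0 : Vx d) L, Mt L σ ω z a := by
  obtain ⟨u, hu, b, hb, hub⟩ := hQ
  by_contra hcon
  have hW : ∀ z ∈ bd (0 : Vx d) L, ¬ Cf (ω ∩ eb (0 : Vx d) L) u z := by
    intro z hz hc
    exact hcon ⟨z, hz, u, hu, Con_symm hc⟩
  have huL : u ∈ bx (0 : Vx d) L := by
    rw [STA_mem_bx]
    intro i
    have h1 := STA_mem_bx.mp hu i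
    have h2 := STA_ctr h ha i
    simp only [Pi.zero_apply]
    constructor <;> linarith [h1.1, h1.2, h2.1, h2.2]
  obtain ⟨hbL, hcb⟩ := (STA_expl ω _ u hW hub).mp ⟨huL, Con_refl _ _⟩
  obtain ⟨_, i, hi⟩ := STA_mem_bd.mp hb
  have h1 := STA_mem_bx.mp hbL i
  have h2 := STA_ctr h ha i
  apply hW b _ hcb
  rw [STA_mem_bd]
  refine ⟨hbL, i, ?_⟩
  simp only [Pi.zero_apply] at h1 ⊢
  push_cast at hi
  omega

theorem STA_card {d : ℕ} (M : ℕ) :
    (((bx (0 : Vx d) M).card : ℕ) : ℝ) = (2 * (M : ℝ) + 1) ^ d := by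
  unfold bx
  rw [Pi.card_Icc]
  simp only [Pi.zero_apply, Int.card_Icc, Finset.prod_const, Finset.card_univ, Fintype.card_fin]
  have : ((0 + (M : ℤ) + 1 - (0 - (M : ℤ))).toNat) = 2 * M + 1 := by omega
  rw [this]
  push_cast
  ring

theorem p_STA (h1 : T_INM) (h2 : T_DPM) (h3 : T_TRP) (h4 : T_BFT) : T_STA := by
  intro d L σ M N N' p q hp hp1 hq hLM hN hL
  have hq0 : 0 < q := by linarith
  have hinm := h1 d L σ M (bx (0 : Vx d) N) p q hp hp1 hq
  refine le_trans hinm ?_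
  rw [← STA_card, ← nsmul_eq_mul]
  apply Finset.sum_le_card_nsmul
  intro a ha
  obtain ⟨Q, hQdef⟩ : ∃ Q : Finset (Ed d) → Prop, Q = fun ω =>
      ∃ u ∈ bx (ctr σ a) σ, ∃ b ∈ bd (ctr σ a) (2 * L),
        Cf (ω ∩ eb (ctr σ a) (2 * L)) u b := ⟨_, rfl⟩
  have hInc : Inc Q := by
    intro A B hAB hA
    rw [hQdef] at hA ⊢
    obtain ⟨u, hu, b, hb, hub⟩ := hA
    refine ⟨u, hu, b, hb, Con_mono (fun _ _ h => h) ?_ hub⟩
    exact Finset.coe_subset.mpr (Finset.inter_subset_inter_right hAB)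
  have hsub : bx (ctr σ a) N' ⊆ bx (0 : Vx d) N := by
    intro v hv
    rw [STA_mem_bx] at hv ⊢
    intro i
    have e1 := hv i
    have e2 := STA_ctr hLM ha i
    have e3 : (N' : ℤ) + L ≤ N := by exact_mod_cast hN
    simp only [Pi.zero_apply]
    constructor <;> linarith [e1.1, e1.2, e2.1, e2.2]
  calc fr (bx (0 : Vx d) N) p q (fun ω => ind (¬ ∃ z ∈ bd (0 : Vx d) L, Mt L σ ω z a))
      ≤ fr (bx (0 : Vx d) N) p q (fun ω => ind (¬ Q ω)) := by
        apply Ex_mono hp hp1 hq0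
        intro ω _
        apply ind_mono
        intro hn hQ
        rw [hQdef] at hQ
        exact hn (STA_key hLM ha ω hQ)
    _ ≤ P0 (ctr σ a) N' p q fun ω => ¬ Q ω :=
        h2 d (bx (0 : Vx d) N) (ctr σ a) N' p q hp hp1 hq hsub Q hInc
    _ = P0 (0 : Vx d) N' p q fun ω => ¬ Q (ω.map (trE (ctr σ a)).toEmbedding) :=
        h3 d (ctr σ a) N' p q fun ω => ¬ Q ω
    _ = P0 (0 : Vx d) N' p q fun ω =>
        ¬ ∃ a ∈ bx (0 : Vx d) σ, ∃ b ∈ bd (0 : Vx d) (2 * L),
          Cf (ω ∩ eb (0 : Vx d) (2 * L)) a b := by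
        congr 1
        funext ω
        rw [hQdef]
        exact congrArg Not (propext (h4 d (ctr σ a) σ (2 * L) ω))

end Pool.Agent.FKS
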