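import Pool.Agent.FKS.TargetsD
import Pool.Agent.FKT.P_BER

set_option autoImplicit false

namespace Pool.Agent.FKS

open Filter MeasureTheory Pool.Agent.FKP
open Pool.Agent.FKT hiding ind

theorem STM_sum {E ι : Type} (ε : ℝ) (G : Finset E) (S : Finset ι) (f : ι → Finset E → ℝ) :
    EB ε G (fun η => ∑ U ∈ S, f U η) = ∑ U ∈ S, EB ε G (f U) := by
  unfold EB
  rw [Finset.sum_comm]
  exact Finset.sum_congr rfl fun η _ => Finset.mul_sum _ _ _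

theorem STM_mono {E : Type} {ε : ℝ} (h0 : 0 ≤ ε) (h1 : ε ≤ 1) (G : Finset E)
    {f g : Finset E → ℝ} (h : ∀ ω, f ω ≤ g ω) : EB ε G f ≤ EB ε G g := by
  unfold EB
  exact Finset.sum_le_sum fun ω _ => mul_le_mul_of_nonneg_left (h ω)
    (Pool.Agent.FKT.BER_.bw_nonneg h0 h1 G ω)

theorem STM_cov {d L σ M m m' : ℕ} {ω : Finset (Ed d)} (h : m ≤ m')
    (hc : Cov L σ M m ω) : Cov L σ M m' ω := by
  obtain ⟨Z, h1, h2, h3⟩ := hc
  exact ⟨Z, h1, h2.trans h, h3⟩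

theorem p_STM (h1 : T_DET) (h2 : T_ISL) (h3 : T_CNB) : T_STM := by
  intro d L σ ρ Ψ M M' R t N D m hd hR hML hMσ hρR hNt hMM htM G ε hε0 hε1 hG ω hcov hglu
  obtain ⟨Z, hZb, hZm, hZc⟩ := hcov
  classical
  set S : Finset (Finset (Vx d)) := (Z.powerset.filter fun U => U.card ≤ D).filter
    fun U => t ≤ (Pl (Tl L σ M ω U) (Tl L σ M ω (Z \ U))).card with hS
  set f : Finset (Vx d) → Finset (Ed d) → ℝ := fun U η =>
    ind (∀ z ∈ U, ∀ z' ∈ Z \ U, ¬ Cf ((ω ∪ η) ∩ eb (0 : Vx d) L) z z') with hf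
  have hmemS : ∀ U, U ∈ S ↔ (U ⊆ Z ∧ U.card ≤ D) ∧
      t ≤ (Pl (Tl L σ M ω U) (Tl L σ M ω (Z \ U))).card := by
    intro U
    rw [hS, Finset.mem_filter, Finset.mem_filter, Finset.mem_powerset]
  have hpt : ∀ η : Finset (Ed d),
      ind (¬ Cov L σ M' (m / (D + 1) + 1) (ω ∪ η)) ≤ ∑ U ∈ S, f U η := by
    intro η
    by_cases hc : Cov L σ M' (m / (D + 1) + 1) (ω ∪ η)
    · rw [ind_false (not_not.mpr hc)]
      exact Finset.sum_nonneg fun U _ => ind_nonneg _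
    · have hex : ∃ U ∈ S, ∀ z ∈ U, ∀ z' ∈ Z \ U, ¬ Cf ((ω ∪ η) ∩ eb (0 : Vx d) L) z z' := by
        by_contra hno
        push Not at hno
        apply hc
        have hdet := h1 d L σ M M' t D hd hMσ hMM htM ω (ω ∪ η) Finset.subset_union_left Z hZb
          hZc ?_
        · refine STM_cov ?_ hdet
          exact Nat.add_le_add_right (Nat.div_le_div_right hZm) 1
        · intro U hU hUD hUt
          obtain ⟨z, hz, z', hz', hzz⟩ := hno U ((hmemS U).mpr ⟨⟨hU, hUD⟩, hUt⟩)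
          exact ⟨z, hz, z', hz', hzz⟩
      obtain ⟨U, hU, hUn⟩ := hex
      calc ind (¬ Cov L σ M' (m / (D + 1) + 1) (ω ∪ η)) ≤ 1 := ind_le_one _
        _ = f U η := by rw [hf]; exact (ind_true hUn).symm
        _ ≤ ∑ U ∈ S, f U η :=
          Finset.single_le_sum (f := fun U => f U η) (fun U _ => ind_nonneg _) hU
  have hεΨ : ε ^ Ψ ≤ 1 := pow_le_one₀ hε0 hε1
  have hb : 0 ≤ (1 - ε ^ Ψ) ^ N := pow_nonneg (by linarith) N
  have hcard : (S.card : ℝ) ≤ ((m : ℝ) + 1) ^ D := by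
    have e1 : S.card ≤ (Z.card + 1) ^ D :=
      (Finset.card_le_card (Finset.filter_subset _ _)).trans (h3 (Vx d) Z D)
    have e2 : (Z.card + 1) ^ D ≤ (m + 1) ^ D := Nat.pow_le_pow_left (by omega) D
    have e3 := e1.trans e2
    calc (S.card : ℝ) ≤ (((m + 1) ^ D : ℕ) : ℝ) := by exact_mod_cast e3
      _ = ((m : ℝ) + 1) ^ D := by push_cast; ring
  calc EB ε G (fun η => ind (¬ Cov L σ M' (m / (D + 1) + 1) (ω ∪ η)))
      ≤ EB ε G (fun η => ∑ U ∈ S, f U η) := STM_mono hε0 hε1 G hpt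
    _ = ∑ U ∈ S, EB ε G (f U) := STM_sum ε G S f
    _ ≤ ∑ _U ∈ S, (1 - ε ^ Ψ) ^ N := by
        refine Finset.sum_le_sum fun U hU => ?_
        obtain ⟨⟨hUZ, _⟩, hUt⟩ := (hmemS U).mp hU
        exact h2 d L σ ρ Ψ M R t N hR hML hρR hNt G ε hε0 hε1 hG ω Z U hZb hglu hUZ hUt
    _ = S.card * (1 - ε ^ Ψ) ^ N := by rw [Finset.sum_const, nsmul_eq_mul]
    _ ≤ ((m : ℝ) + 1) ^ D * (1 - ε ^ Ψ) ^ N := mul_le_mul_of_nonneg_right hcard hb

end Pool.Agent.FKS
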