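import Pool.Agent.FKS.Main
import Pool.Agent.FKT.TargetsB

/-!
# Project FKS, part C, first half: the sharp threshold and the hops (Step 3 of ideas row 2495)

Overview. `Fam d M A`: a nested family of increasing local events `A ρ`, compatible with
translations (FKT `Fv` is such a family; here: two boxes of radius `ρ` are connected). T_FMS,
T_FMK, T_FMI: as `FKT.T_SHC`, `FKT.T_KEY`, `FKT.T_INT` (proofs `FKT/P_SHC.lean`, `P_KEY.lean`,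
`P_INT.lean`, to be adapted), for the log-odds. T_DIC: either `A r` has probability at most
`r ^ (-c)` at `p1`, or `A (2 r)` has probability at least `1 - r ^ (-c)` at `p2`. T_PGH: pigeonhole;
T_HPB: a hop of every length in some direction; T_SGN: symmetries; T_DSQ: every displacement is a
sum of `4 d` hops; T_HPS: the statement used for the top scales.
-/

set_option autoImplicit false

namespace Pool.Agent.FKS

open Filter MeasureTheory Pool.Agent.FKP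
open Pool.Agent.FKT hiding ind

section defs

variable {d : ℕ}

/-- A nested family of increasing local events, compatible with translations. (With `y = 0` the
last property says that `A ρ` is contained in `A (ρ + s)`.) -/
structure Fam (d M : ℕ) (A : ℕ → Set (Ed d) → Prop) : Prop where
  inc : ∀ (ρ : ℕ) (O O' : Set (Ed d)), O ⊆ O' → A ρ O → A ρ O'
  loc : ∀ (ρ : ℕ) (O : Set (Ed d)), A ρ O → A ρ (O ∩ (eb (0 : Vx d) (M + ρ) : Set (Ed d)))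
  shf : ∀ (ρ s : ℕ) (y : Vx d), (∀ i, |y i| ≤ (s : ℤ)) → ∀ ω : Ed d → Bool,
    A ρ (cfg (sh y ω)) → A (ρ + s) (cfg ω)

/-- The event `A ρ` in infinite volume. -/
def FEv (A : ℕ → Set (Ed d) → Prop) (ρ : ℕ) : Set (Ed d → Bool) := {ω | A ρ (cfg ω)}

/-- The probability of `A ρ`. -/
noncomputable def fpr (μ : Measure (Ed d → Bool)) (A : ℕ → Set (Ed d) → Prop) (ρ : ℕ) : ℝ :=
  μ.real (FEv A ρ)

/-- The log-odds. -/
noncomputable def lo (x : ℝ) : ℝ := Real.log (x / (1 - x))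

/-- The two-box family: `Λ_ρ` and `v + Λ_ρ` are connected in `Λ_{M + ρ}`. -/
def TwB (v : Vx d) (M : ℕ) (ρ : ℕ) (O : Set (Ed d)) : Prop :=
  ∃ x ∈ bx (0 : Vx d) ρ, ∃ y ∈ bx v ρ, Cn (O ∩ (eb (0 : Vx d) (M + ρ) : Set (Ed d))) x y

/-- The hop event: the boxes `u + Λ_s` and `u + v + Λ_s` are joined in `u + Λ_R` by opening at most
`k` edges. -/
def Hop (u v : Vx d) (s R k : ℕ) (ω : Finset (Ed d)) : Prop :=
  ∃ x ∈ bx u s, ∃ y ∈ bx (u + v) s, Fpl (eb u R) k ω x y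

/-- The image of `v` by a signed permutation of the coordinates. -/
def sgp (π : Equiv.Perm (Fin d)) (ε : Fin d → ℤ) (v : Vx d) : Vx d := fun i => ε i * v (π i)

end defs

/-- FMA. Facts. Proof: (1) `A ρ` depends only on `eb 0 (M + ρ)` (`Fam.loc`, `Fam.inc`), so `FEv` is
`{ω | A ρ (rs (eb 0 (M + ρ)) (cfg ω))}`; measurable by `FKT.T_LOC`. (2) `Fam.shf` with `y = 0`
(`sh 0 ω = ω`). (3) `FKT.T_MOP` with `F = eb 0 (M + ρ)`, `P T = A ρ T`. (4) `FKT.T_MAR` (3) for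
`F = eb 0 (M + ρ)`: all cylinder probabilities are positive; if `A ρ F` the event contains the
cylinder `Cyl F F`, and if `¬ A ρ ∅` its complement contains `Cyl F ∅`; if `¬ A ρ F` the event is
empty, if `A ρ ∅` it is everything (`Fam.inc`). Hypotheses: `FKT.T_LOC`, `FKT.T_MOP`,
`FKT.T_MAR`. -/
def T_FMA : Prop := ∀ (d M : ℕ) (A : ℕ → Set (Ed d) → Prop), Fam d M A →
  (∀ (ρ : ℕ) (ω : Ed d → Bool), ω ∈ FEv A ρ ↔
    A ρ ((rs (eb (0 : Vx d) (M + ρ)) (cfg ω) : Finset (Ed d)) : Set (Ed d))) ∧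
  (∀ ρ, MeasurableSet (FEv A ρ)) ∧
  (∀ ρ ρ' : ℕ, ρ ≤ ρ' → FEv A ρ ⊆ FEv A ρ') ∧
  ∀ (p p' q : ℝ), 0 < p → p ≤ p' → p' < 1 → 1 ≤ q → ∀ μ μ' : Measure (Ed d → Bool),
    IsWired d p q μ → IsWired d p' q μ' →
    (∀ ρ, fpr μ A ρ ≤ fpr μ' A ρ) ∧ (∀ ρ e, 0 ≤ cv μ (FEv A ρ) e) ∧
    ∀ ρ, (fpr μ A ρ = 0 ∧ ¬ A ρ (eb (0 : Vx d) (M + ρ) : Set (Ed d))) ∨
      (fpr μ A ρ = 1 ∧ A ρ ∅) ∨
      (0 < fpr μ A ρ ∧ fpr μ A ρ < 1 ∧ ¬ A ρ ∅ ∧ A ρ (eb (0 : Vx d) (M + ρ) : Set (Ed d)))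

/-- FMS. Covariances with the translates of an edge. Proof: as `FKT.P_SHC` (its lemmas `cvdif`,
`cvsh`, `emeas`, `shmeas` in the namespace `FKT.SHC_` can be cited): with `y = Pi.single i j`, the
event `B = sh (-y) ⁻¹' (FEv A ρ)` has `sh y ⁻¹' B = FEv A ρ` (`sh (-y) (sh y ω) = ω`), so by
`FKT.T_INV` `cv μ (FEv A ρ) (trE y e) = cv μ B e`. Both `FEv A ρ` and `B` contain `FEv A (ρ - s)` and
are contained in `FEv A (ρ + s)`: `ω ∈ B` means `A ρ (cfg (sh (-y) ω))`, so `A (ρ + s) (cfg ω)`; if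
`A (ρ - s) (cfg ω)`, then `cfg ω = cfg (sh y (sh (-y) ω))`, so `A ρ (cfg (sh (-y) ω))`
(`ρ - s + s = ρ`). Hypotheses: `FKT.T_INV`, T_FMA. -/
def T_FMS : Prop := ∀ (d M : ℕ) (A : ℕ → Set (Ed d) → Prop), Fam d M A → 0 < d →
  ∀ (p q : ℝ), 0 < p → p < 1 → 1 ≤ q → ∀ μ : Measure (Ed d → Bool), IsWired d p q μ →
  ∀ (ρ s j : ℕ) (i : Fin d) (e : Ed d), j ≤ s → s ≤ ρ →
    |cv μ (FEv A ρ) (trE (Pi.single i (j : ℤ)) e) - cv μ (FEv A ρ) e| ≤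
      fpr μ A (ρ + s) - fpr μ A (ρ - s)

/-- FMK. Lower bound for the sum of the covariances. Proof: as `FKT.P_KEY` (the lemmas of the
namespace `FKT.KEY_` can be cited), with `F0 = eb 0 (M + ρ)`, the big box `eb 0 (M + 4 r)`
(`M + ρ + s ≤ M + 4 r` for `s = t ^ 3 ≤ r`, `ρ < 2 r`), T_FMS instead of `FKT.T_SHC` and T_FMA
instead of `FKT.T_CRI`; the proof there shows the inequality with `x (1 - x)`, before the hypothesis
`θ0 ≤ x` is used (case `x = 0`: the left side is `0`). Hypotheses: T_FMA, T_FMS, `FKT.T_FSL`. -/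
def T_FMK : Prop := ∀ (d M : ℕ) (A : ℕ → Set (Ed d) → Prop), Fam d M A → 0 < d →
  ∀ (p q c : ℝ), 0 < p → p < 1 → 1 ≤ q → 0 < c → c ≤ p / (p + q * (1 - p)) → c ≤ 1 - p →
  ∀ μ : Measure (Ed d → Bool), IsWired d p q μ → ∀ ρ r t : ℕ, 2 ≤ t → t ^ 4 ≤ r →
    r < (t + 1) ^ 4 → r ≤ ρ → ρ < 2 * r →
    fpr μ A (ρ + t ^ 3) - fpr μ A (ρ - t ^ 3) ≤ 40 * (t : ℝ) ^ 3 / r →
      min (c * (1 - c) / 4) (1 / 640) / 8 * Real.log r * (fpr μ A ρ * (1 - fpr μ A ρ)) ≤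
        ∑ e ∈ eb (0 : Vx d) (M + 4 * r), cv μ (FEv A ρ) e

/-- FMI. The growth of the log-odds. Proof: as `FKT.P_INT`. Let
`c = min (p1 / (p1 + q (1 - p1))) (1 - p2)`, `c2 = min (c (1 - c) / 4) (1 / 640) / 8`,
`c1 = c2 / 2`; `t ≥ 2` with `t^4 ≤ r < (t + 1)^4`. Let `Φ x` be a wired measure at `x`
(`FKT.T_EXI`), `Φ p1 = μ1`, `Φ p2 = μ2`. By T_FMA (4) (`A r` and the complement of `A (2 r)` have
positive probability at `p1`, `p2`), for `r ≤ ρ < 2 r`: `¬ A ρ ∅`, `A ρ (eb 0 (M + ρ))`, so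
`0 < fpr (Φ x) A ρ < 1` for all `x ∈ [p1, p2]`, and for `N ≥ 0` the finite volume probability
`a_N ρ x = phi 0 (N + M + 4 r) x q (ind (A ρ ·))` is in `(0, 1)` (all weights are positive,
`FKT.T_FKG`). `FKT.T_ABS` on `[p1, p2]` with `f N x = Σ_{ρ ∈ [r, 2r)} lo (a_N ρ x)`,
`G N x = Σ_ρ (Σ_{e ∈ eb 0 (M + 4 r)} cov_N) / (a_N ρ x (1 - a_N ρ x))` (`lo' a = 1 / (a (1 - a))`,
`FKT.T_DER`), `L x = Σ_ρ (Σ_e cv (Φ x) (FEv A ρ) e) / (fpr (1 - fpr))`, convergence by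
`FKT.T_CVL`, `m = (r / 2) c2 log r`: by `FKT.T_PIG` for `a ρ = fpr (Φ x) A ρ` at least `r / 2` of
the `ρ` satisfy the hypothesis of T_FMK, the other terms are nonnegative. So
`m (p2 - p1) ≤ Σ_ρ (lo (fpr μ2 A ρ) - lo (fpr μ1 A ρ)) ≤ r (lo (fpr μ2 A (2 r)) - lo (fpr μ1 A r))`
(`lo` is increasing on `(0, 1)`). Hypotheses: T_FMA, T_FMK, `FKT.T_PIG`, `FKT.T_ABS`, `FKT.T_DER`,
`FKT.T_CVL`, `FKT.T_EXI`, `FKT.T_FKG`. -/
def T_FMI : Prop := ∀ (d : ℕ), 0 < d → ∀ (q p1 p2 : ℝ), 1 ≤ q → 0 < p1 → p1 < p2 → p2 < 1 →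
  ∃ c1 : ℝ, 0 < c1 ∧ ∀ (M : ℕ) (A : ℕ → Set (Ed d) → Prop), Fam d M A →
    ∀ μ1 μ2 : Measure (Ed d → Bool), IsWired d p1 q μ1 → IsWired d p2 q μ2 →
    ∀ r : ℕ, 16 ≤ r → 0 < fpr μ1 A r → fpr μ2 A (2 * r) < 1 →
      c1 * Real.log r ≤ lo (fpr μ2 A (2 * r)) - lo (fpr μ1 A r)

/-- DIC. The dichotomy. Proof: `c = c1 / 2` (T_FMI). Let `a = fpr μ1 A r ≥ r ^ (-c) > 0` and
`b = fpr μ2 A (2 r)`; if `b = 1` nothing is to be shown. Otherwise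
`lo b ≥ lo a + c1 log r ≥ log a + 2 c log r ≥ c log r` (`lo a ≥ log a`), so `b / (1 - b) ≥ r ^ c`
and `1 - b ≤ r ^ (-c)`. Hypothesis: T_FMI. -/
def T_DIC : Prop := ∀ (d : ℕ), 0 < d → ∀ (q p1 p2 : ℝ), 1 ≤ q → 0 < p1 → p1 < p2 → p2 < 1 →
  ∃ c : ℝ, 0 < c ∧ ∀ (M : ℕ) (A : ℕ → Set (Ed d) → Prop), Fam d M A →
    ∀ μ1 μ2 : Measure (Ed d → Bool), IsWired d p1 q μ1 → IsWired d p2 q μ2 →
    ∀ r : ℕ, 16 ≤ r → (r : ℝ) ^ (-c) ≤ fpr μ1 A r → 1 - (r : ℝ) ^ (-c) ≤ fpr μ2 A (2 * r)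

/-- TBM. The two-box events are such a family. Proof: `inc`: monotonicity of `Cn` (`EqvGen.mono`).
`loc`: intersecting twice with the same set. `shf`: let `x ∈ bx 0 ρ`, `z ∈ bx v ρ` be connected in
`cfg (sh y ω) ∩ eb 0 (M + ρ)`; then `x + y` and `z + y` are connected in
`cfg ω ∩ eb y (M + ρ) ⊆ cfg ω ∩ eb 0 (M + (ρ + s))` (translate the steps; `cfg (sh y ω)` is the set
of the `e` with `trE y e ∈ cfg ω`), and `x + y ∈ bx 0 (ρ + s)`, `z + y ∈ bx v (ρ + s)`. -/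
def T_TBM : Prop := ∀ (d M : ℕ) (v : Vx d), Fam d M (TwB v M)

/-- PGH. Pigeonhole. Proof: if the cluster of `0` is infinite then `0` is connected in
`cfg ω ∩ eb 0 n` to a point `z ∈ bd 0 n` (closed set argument, as in `FKT.T_CRI` (5)), so
`z i = ε n` for some `i` and `ε = ± 1`; hence for some `(i, ε)` the event `E` that `0` is connected
in `cfg ω ∩ eb 0 n` to a point of `bx 0 n` with `i`-th coordinate `ε n` has probability at least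
`θ / (2 d)`. Let `s ≤ n`. On `E` there is `y ∈ bx 0 n`, connected to `0` in `cfg ω ∩ eb 0 n`, with
`y i = ε s` (the set of the points connected to `0` with `i`-th coordinate on the side of `0` of
`ε s` is closed under steps if there is none). For `y` let `w j = m * (y j).tdiv m` (division
rounded towards `0`): `|w j| ≤ |y j| ≤ n`, `|w j - y j| ≤ m`, so `y ∈ bx w m`, and `w` is in a set of
at most `(2 (n / m) + 1)^d` points. Some `w` has probability at least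
`θ / (2 d (2 (n / m) + 1)^d)`. Measurability is not needed for `measureReal` union bounds.
Hypothesis: `FKT.T_CRI` (optional). -/
def T_PGH : Prop := ∀ (d : ℕ), 0 < d → ∀ (p q : ℝ) (μ : Measure (Ed d → Bool)),
  IsWired d p q μ → ∀ n m : ℕ, 1 ≤ m → m ≤ n → ∃ (i : Fin d) (ε : ℤ), (ε = 1 ∨ ε = -1) ∧
    ∀ s : ℕ, s ≤ n → ∃ v : Vx d, |v i - ε * s| ≤ (m : ℤ) ∧ (∀ j, |v j| ≤ (n : ℤ)) ∧
      μ.real (Inf0 d) / (2 * d * (2 * ((n / m : ℕ) : ℝ) + 1) ^ d) ≤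
        μ.real {ω | ∃ y ∈ bx v m, Cn (cfg ω ∩ (eb (0 : Vx d) n : Set (Ed d))) 0 y}

/-- SGN. Symmetries. Proof: the map `c = sgp π ε` of the vertices is a bijection which maps `bx 0 N`
onto itself, `bx 0 s` onto itself and `bx v s` onto `bx (sgp π ε v) s`, and the edges of `bx 0 N`
onto the edges of `bx 0 N`: the edge `(x, i)` goes to the edge with the ends `c x`, `c (x + e_i)`
(`c (x + e_i) = c x + ε j e_j`, `π j = i`: the edge `(c x, j)` if `ε j = 1`, and `(c x - e_j, j)` if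
`ε j = -1`). This bijection `g` of the edges satisfies `Cf (ω.image g) (c x) (c y) ↔ Cf ω x y`, so
it preserves the number of edges and of clusters, hence the law `fr (bx 0 N)`, and it maps the
event `Hop 0 v s R k` to `Hop 0 (sgp π ε v) s R k`. (`FKT.T_NCM` may be used if it covers reversed
edges; `Con` is generated by an equivalence closure, so the orientation of the edges does not
matter.) It is enough to treat the generators: permutations (T_AUT) and the change of one sign. -/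
def T_SGN : Prop := ∀ (d N s R k : ℕ) (p q : ℝ) (v : Vx d) (π : Equiv.Perm (Fin d))
  (ε : Fin d → ℤ), (∀ i, ε i = 1 ∨ ε i = -1) →
  P0 (0 : Vx d) N p q (fun ω => ¬ Hop 0 (sgp π ε v) s R k ω) =
    P0 (0 : Vx d) N p q fun ω => ¬ Hop 0 v s R k ω

/-- HPB. Hops of every length in one direction. Proof: let `p0 < pa < pb < p1` (equidistant),
`μ0` the wired measure of `Hyp.per`, `θ = μ0.real (Inf0 d) > 0`, `c` the constant of T_DIC for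
`(p0, pa)`, `η0 = min (1 / 2) (c / (4 d))`. Let `η < η0`, `m = ⌊n ^ (1 - η)⌋₊`, `n` large. T_PGH for
`μ0`: direction `(i, ε)`, and for `s ≤ n` the vector `v`; as `Cn (cfg ω ∩ eb 0 n) 0 y`,
`y ∈ bx v m`, implies `TwB v n m (cfg ω)`, `fpr μ0 (TwB v n) m ≥ θ / (2 d (2 (n / m) + 1)^d)
≥ m ^ (-c)` for large `n` (`n / m ≤ 2 n ^ η`, so the left side is at least a constant times
`n ^ (- η d)`, and `η d ≤ c / 4 < c (1 - η)`). T_DIC with T_TBM (`M = n`): for a wired measure `μa`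
at `pa` (`FKT.T_EXI`) `fpr μa (TwB v n) (2 m) ≥ 1 - m ^ (-c)`. The event `TwB v n (2 m)` is
increasing and depends on `eb 0 (n + 2 m) ⊆ eb 0 (2 n)`, so `phi 0 N pa q (ind ..) ≥ fpr μa ..`
(`phi 0 N` of a local increasing event decreases with `N` to its limit: `FKT.T_DOM`,
`FKT.T_LOC`), and by T_MXQ with `m := 2 n`, `N ≥ n ^ (d + 3)`:
`fr (bx 0 N) pb q (ind (¬ ∃ x ∈ bx 0 (2m), ∃ y ∈ bx v (2m), Cf (ω ∩ eb 0 (2n)) x y)) ≤
m ^ (-c) + C (4 n + 1)^d / (N + 1) ≤ n ^ (- c / 4)` for large `n`. T_FPB for `(pb, p1)` (`F = eb 0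
(2 n) ⊆ es (bx 0 N)`): the probability of `¬ Hop` is at most `n ^ (- (c / 4) c' (k + 1)) ≤ n ^ (-C)`
for `k` large. Hypotheses: T_DIC, T_TBM, T_PGH, T_MXQ, T_FPB, `FKT.T_EXI`, `FKT.T_DOM`,
`FKT.T_LOC`. -/
def T_HPB : Prop := ∀ (d : ℕ) (p0 p1 q : ℝ), Hyp d p0 p1 q → ∃ η0 : ℝ, 0 < η0 ∧ η0 ≤ 1 / 2 ∧
  ∀ η C : ℝ, 0 < η → η < η0 → 0 < C → ∃ k n0 : ℕ, ∀ n N : ℕ, n0 ≤ n → n ^ (d + 3) ≤ N →
    ∃ (i : Fin d) (ε : ℤ), (ε = 1 ∨ ε = -1) ∧ ∀ s : ℕ, s ≤ n → ∃ v : Vx d,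
      |v i - ε * s| ≤ (⌊(n : ℝ) ^ (1 - η)⌋₊ : ℤ) ∧ (∀ j, |v j| ≤ (n : ℤ)) ∧
      P0 (0 : Vx d) N p1 q (fun ω => ¬ Hop 0 v (2 * ⌊(n : ℝ) ^ (1 - η)⌋₊) (2 * n) k ω) ≤
        (n : ℝ) ^ (-C)

/-- DSQ. Every displacement is a sum of `4 d` long hops, up to a small error. Proof: `H` is invariant
under signed permutations, so for every direction `i`, every sign `ε` and every `s ≤ 2 n` there is
`v ∈ H` with `|v i - ε s| ≤ m`; let `v'` be `v` with all coordinates except the `i`-th one negated: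
`v' ∈ H`, `v + v' = 2 v_i e_i`. Let `y ∈ bx 0 n`. For every coordinate `i` write
`y i = (y i + 2 n) - 2 n`: take `v`, `v'` for `ε = 1`, `s = (y i + 2 n) / 2` (natural division,
`n / 2 ≤ (y i + 2 n) / 2 ≤ 3 n / 2 ≤ 2 n`), and `w`, `w'` for `ε = - 1`, `s = n`:
`|2 v_i + 2 w_i - y i| ≤ (2 m + 1) + 2 m ≤ 4 m + 2`, and all four vectors are long:
`|v_i| ≥ n / 2 - 1 - m ≥ D`, `|w_i| ≥ n - m ≥ D`. Let `h j` be the sum of the first `j` of the `4 d`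
vectors. All partial sums have coordinates of absolute value at most
`(n + 4 m + 2) + 3 n + 2 m + 2 n ≤ 8 n`. (For instance define
`h (4 i + c)` explicitly from `Fin d`-indexed choices, `h j = Σ_{l < j} u l`.) -/
def T_DSQ : Prop := ∀ (d n m D : ℕ) (H : Vx d → Prop), 2 * D + 2 * m + 4 ≤ n → 6 * m + 2 ≤ 2 * n →
  (∀ (v : Vx d) (π : Equiv.Perm (Fin d)) (ε : Fin d → ℤ), (∀ i, ε i = 1 ∨ ε i = -1) → H v →
    H (sgp π ε v)) →
  (∀ v, H v → ∀ j, |v j| ≤ 2 * (n : ℤ)) →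
  (∃ (i : Fin d) (ε : ℤ), (ε = 1 ∨ ε = -1) ∧ ∀ s : ℕ, s ≤ 2 * n → ∃ v : Vx d, H v ∧
    |v i - ε * s| ≤ (m : ℤ)) →
  ∀ y ∈ bx (0 : Vx d) n, ∃ h : ℕ → Vx d, h 0 = 0 ∧ (∀ j ≤ 4 * d, h j ∈ bx (0 : Vx d) (8 * n)) ∧
    (∀ i, |h (4 * d) i - y i| ≤ 4 * (m : ℤ) + 2) ∧
    ∀ j < 4 * d, Far D (h j) (h (j + 1)) ∧ H (h (j + 1) - h j)

/-- HPS. The hops, in the form used for the top scales (helper87). Proof: let `η0` be given by
T_HPB, `η' = η0 / 2`, `η = η0 / 4`, `B = d + 4`, `A1 = 8`, `l = 4 d`. Let `D`, `C` be given, `k`, `n0'`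
from T_HPB for `η'`, `C`. For `n` large, `N ≥ n ^ B ≥ (2 n)^(d + 3)`, let `n' = 2 n`,
`m' = ⌊n' ^ (1 - η')⌋₊`, `m = ⌊n ^ (1 - η)⌋₊`; `2 m' ≤ m` and `1 ≤ m'` for `n` large. Let
`H v = (∀ j, |v j| ≤ 2 n) ∧ P0 0 N p1 q (¬ Hop 0 v (2 m') (2 n') k) ≤ n' ^ (-C)`: invariant under
signed permutations by T_SGN, and it contains the vectors of T_HPB. T_DSQ with `m := m'`,
`D := D m` (`m / n → 0`). `4 m' + 2 ≤ 8 m`. `Hop 0 v (2 m') (4 n) k` implies the event with the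
radius `m ≥ 2 m'` and the region `eb 0 (8 n)` (monotone: `T ⊆ eb 0 (4 n) ⊆ eb 0 (8 n)`,
`(ω ∩ eb 0 (4 n)) ∪ T ⊆ (ω ∩ eb 0 (8 n)) ∪ T`; `0 + v = v`), and `n' ^ (-C) ≤ n ^ (-C)`.
Hypotheses: T_HPB, T_SGN, T_DSQ. -/
def T_HPS : Prop := ∀ (d : ℕ) (p0 p1 q : ℝ), Hyp d p0 p1 q → ∃ (η : ℝ) (B A1 l : ℕ),
  0 < η ∧ η < 1 ∧ ∀ (D : ℕ) (C : ℝ), 0 < C → ∃ k n0 : ℕ, ∀ n N m : ℕ, n0 ≤ n → n ^ B ≤ N →
    m = ⌊(n : ℝ) ^ (1 - η)⌋₊ → ∀ y ∈ bx (0 : Vx d) n, ∃ h : ℕ → Vx d, h 0 = 0 ∧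
      (∀ j ≤ l, h j ∈ bx (0 : Vx d) (A1 * n)) ∧ (∀ i, |h l i - y i| ≤ (A1 * m : ℤ)) ∧
      ∀ j < l, Far (D * m) (h j) (h (j + 1)) ∧
        P0 (0 : Vx d) N p1 q (fun ω => ¬ ∃ x ∈ bx (0 : Vx d) m,
          ∃ z ∈ bx (h (j + 1) - h j) m, Fpl (eb (0 : Vx d) (A1 * n)) k ω x z) ≤ (n : ℝ) ^ (-C)

end Pool.Agent.FKS
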