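import Pool.Agent.FKP.Lem
import Pool.Agent.FKT.P_TAS
import Pool.Agent.FKS.TargetsC

/-!
# Project FKS, part C: the two-box events are a family (TBM)
-/

set_option autoImplicit false

namespace Pool.Agent.FKS

open Filter MeasureTheory Pool.Agent.FKP
open Pool.Agent.FKT hiding ind

theorem TBM_bx_sub {d : ℕ} (x y : Vx d) (n s : ℕ) (h : ∀ i, |y i| ≤ (s : ℤ)) {a : Vx d}
    (ha : a ∈ bx x n) : a + y ∈ bx x (n + s) := by
  unfold bx at ha ⊢
  rw [Finset.mem_Icc] at ha ⊢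
  constructor
  · intro l
    have h1 := ha.1 l
    have h2 := abs_le.mp (h l)
    show x l - ((n + s : ℕ) : ℤ) ≤ a l + y l
    simp only at h1
    push_cast
    omega
  · intro l
    have h1 := ha.2 l
    have h2 := abs_le.mp (h l)
    show a l + y l ≤ x l + ((n + s : ℕ) : ℤ)
    simp only at h1
    push_cast
    omega

theorem TBM_eb_sub {d : ℕ} (y : Vx d) (n s : ℕ) (h : ∀ i, |y i| ≤ (s : ℤ)) :
    (eb ((0 : Vx d) + y) n : Set (Ed d)) ⊆ (eb (0 : Vx d) (n + s) : Set (Ed d)) := by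
  intro e he
  have h1 := (FKT.TAS_.mem_eb _ _ _).mp (Finset.mem_coe.mp he)
  refine Finset.mem_coe.mpr ((FKT.TAS_.mem_eb _ _ _).mpr ⟨?_, ?_⟩)
  · have h2 : e.1 - y ∈ bx (0 : Vx d) n := by
      rw [← FKT.TAS_.mem_bx_add 0 y, sub_add_cancel]
      exact h1.1
    have h3 := TBM_bx_sub 0 y n s h h2
    rw [sub_add_cancel] at h3
    exact h3
  · have h2 : tgt e - y ∈ bx (0 : Vx d) n := by
      rw [← FKT.TAS_.mem_bx_add 0 y, sub_add_cancel]
      exact h1.2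
    have h3 := TBM_bx_sub 0 y n s h h2
    rw [sub_add_cancel] at h3
    exact h3

theorem p_TBM : T_TBM := by
  intro d M v
  refine ⟨?_, ?_, ?_⟩
  · rintro ρ O O' hO ⟨x, hx, y, hy, hc⟩
    exact ⟨x, hx, y, hy, Con_mono (fun _ _ h => h) (Set.inter_subset_inter_left _ hO) hc⟩
  · rintro ρ O ⟨x, hx, y, hy, hc⟩
    refine ⟨x, hx, y, hy, ?_⟩
    rw [Set.inter_assoc, Set.inter_self]
    exact hc
  · rintro ρ s y hs ω ⟨x, hx, z, hz, hc⟩
    refine ⟨x + y, TBM_bx_sub 0 y ρ s hs hx, z + y, TBM_bx_sub v y ρ s hs hz, ?_⟩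
    have h1 := (FKT.TAS_.cn_add (0 : Vx d) y (M + ρ) ω x z).mpr hc
    refine Con_mono (fun _ _ h => h) (Set.inter_subset_inter_right _ ?_) h1
    have h2 := TBM_eb_sub y (M + ρ) s hs
    rw [add_assoc] at h2
    exact h2

end Pool.Agent.FKS
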