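import Pool.Agent.FKS.TargetsC
import Pool.Agent.FKS.TargetsD
import Pool.Agent.FKS.Step
import Pool.Agent.FKP.P_AUT
import Pool.Agent.FKP.Lem
import Pool.Agent.FKT.P_CNT

/-!
# Project FKS, part C (Step 4 of row 2495): the top scales

`SG d p q σ`: the gluing event with radius `a ⌈r^σ⌉`. T_LOW gives `SG A`, `SG 1` is T_TOP, and a
step from `σ` to `max 1 ((1 - η) σ)` is `hops` with the scale `s = A ⌊n^(1 - η)⌋`, `n = 2 K r`.
-/

set_option autoImplicit false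

namespace Pool.Agent.FKS

open Filter MeasureTheory Pool.Agent.FKP
open Pool.Agent.FKT hiding ind

/-! ### Numbers -/

theorem TOP_evpow {a : ℝ} (ha : 0 < a) (c : ℝ) : ∀ᶠ r : ℕ in atTop, c ≤ (r : ℝ) ^ a :=
  ((tendsto_rpow_atTop ha).comp tendsto_natCast_atTop_atTop).eventually_ge_atTop c

theorem TOP_evlog {a : ℝ} (ha : 0 < a) (c : ℝ) : ∀ᶠ r : ℕ in atTop, c ≤ a * Real.log r :=
  ((Real.tendsto_log_atTop.comp tendsto_natCast_atTop_atTop).const_mul_atTop ha).eventually_ge_atTop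
    c

/-- The radius `s = A m` of the small scale. -/
noncomputable def TOPm (K : ℕ) (η : ℝ) (r : ℕ) : ℕ := ⌊((2 * K * r : ℕ) : ℝ) ^ (1 - η)⌋₊

theorem TOP_sup (η : ℝ) (K r : ℕ) :
    (TOPm K η r : ℝ) ≤ ((2 * K : ℕ) : ℝ) ^ (1 - η) * (r : ℝ) ^ (1 - η) := by
  unfold TOPm
  refine (Nat.floor_le (by positivity)).trans (le_of_eq ?_)
  rw [← Real.mul_rpow (by positivity) (by positivity)]
  push_cast
  ring_nf

theorem TOP_sle {η : ℝ} (h0 : 0 < η) (A K : ℕ) :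
    ∀ᶠ r : ℕ in atTop, A * TOPm K η r ≤ r := by
  filter_upwards [TOP_evpow h0 ((A : ℝ) * ((2 * K : ℕ) : ℝ) ^ (1 - η)), eventually_ge_atTop 1]
    with r hr h1r
  have hr0 : (0 : ℝ) < r := by exact_mod_cast h1r
  have h2 := TOP_sup η K r
  have h3 : ((A * TOPm K η r : ℕ) : ℝ) ≤ r := by
    push_cast
    calc (A : ℝ) * TOPm K η r ≤ A * (((2 * K : ℕ) : ℝ) ^ (1 - η) * (r : ℝ) ^ (1 - η)) := by gcongr
      _ = (A * ((2 * K : ℕ) : ℝ) ^ (1 - η)) * (r : ℝ) ^ (1 - η) := by ring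
      _ ≤ (r : ℝ) ^ η * (r : ℝ) ^ (1 - η) := by gcongr
      _ = r := by rw [← Real.rpow_add hr0]; simp
  exact_mod_cast h3

theorem TOP_mge {η : ℝ} (h1 : η < 1) {K : ℕ} (hK : 1 ≤ K) :
    ∀ᶠ r : ℕ in atTop, (r : ℝ) ^ ((1 - η) / 2) ≤ TOPm K η r := by
  filter_upwards [TOP_evpow (a := (1 - η) / 2) (by linarith) 2, eventually_ge_atTop 1]
    with r hr h1r
  have hr0 : (0 : ℝ) < r := by exact_mod_cast h1r
  have h2 : (r : ℝ) ^ ((1 - η) / 2) * (r : ℝ) ^ ((1 - η) / 2) ≤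
      ((2 * K * r : ℕ) : ℝ) ^ (1 - η) := by
    rw [← Real.rpow_add hr0]
    have e : (1 - η) / 2 + (1 - η) / 2 = 1 - η := by ring
    rw [e]
    apply Real.rpow_le_rpow hr0.le _ (by linarith)
    have : r ≤ 2 * K * r := by nlinarith
    exact_mod_cast this
  have h3 := (Nat.lt_floor_add_one (((2 * K * r : ℕ) : ℝ) ^ (1 - η))).le
  unfold TOPm
  nlinarith

theorem TOP_cost {ε : ℝ} (hε : 0 < ε) (l k s r : ℕ) (hsr : s ≤ r) (hr : 1 ≤ r)
    (h : ((l * k : ℕ) : ℝ) ≤ ε / 2 * Real.log r) :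
    l * k + (l + 1) * ⌊ε / (2 * ((l : ℝ) + 1)) * Real.log s⌋₊ ≤ ⌊ε * Real.log r⌋₊ := by
  have hr0 : (0 : ℝ) < r := by exact_mod_cast hr
  apply Nat.le_floor
  have h1 : (⌊ε / (2 * ((l : ℝ) + 1)) * Real.log s⌋₊ : ℝ) ≤
      ε / (2 * ((l : ℝ) + 1)) * Real.log s :=
    Nat.floor_le (mul_nonneg (by positivity) (Real.log_natCast_nonneg s))
  have h2 : Real.log s ≤ Real.log r := by
    rcases Nat.eq_zero_or_pos s with h0 | h0
    · rw [h0]
      simpa using Real.log_natCast_nonneg r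
    · exact Real.log_le_log (by exact_mod_cast h0) (by exact_mod_cast hsr)
  have h3 : ((l : ℝ) + 1) * (ε / (2 * ((l : ℝ) + 1)) * Real.log r) = ε / 2 * Real.log r := by
    field_simp
  have h4 : ((l : ℝ) + 1) * (⌊ε / (2 * ((l : ℝ) + 1)) * Real.log s⌋₊ : ℝ) ≤
      ε / 2 * Real.log r := by
    rw [← h3]
    have : (⌊ε / (2 * ((l : ℝ) + 1)) * Real.log s⌋₊ : ℝ) ≤
        ε / (2 * ((l : ℝ) + 1)) * Real.log r := h1.trans (by gcongr)
    gcongr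
  push_cast at h ⊢
  linarith

theorem TOP_rad (η : ℝ) {σ : ℝ} (hσ : 1 ≤ σ) (A K a0 r : ℕ)
    (hr : 1 ≤ r) :
    a0 * ⌈((A * TOPm K η r : ℕ) : ℝ) ^ σ⌉₊ ≤
      ⌈(a0 : ℝ) * (((A : ℝ) * ((2 * K : ℕ) : ℝ) ^ (1 - η)) ^ σ + 1)⌉₊ *
        ⌈(r : ℝ) ^ max 1 ((1 - η) * σ)⌉₊ := by
  have hr0 : (0 : ℝ) < r := by exact_mod_cast hr
  have hr1 : (1 : ℝ) ≤ r := by exact_mod_cast hr
  set b : ℝ := (A : ℝ) * ((2 * K : ℕ) : ℝ) ^ (1 - η) with hb
  have hb0 : 0 ≤ b := by positivity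
  set t : ℝ := (r : ℝ) ^ max 1 ((1 - η) * σ) with ht
  have ht1 : 1 ≤ t := Real.one_le_rpow hr1 (le_trans zero_le_one (le_max_left _ _))
  have h2 : ((A * TOPm K η r : ℕ) : ℝ) ≤ b * (r : ℝ) ^ (1 - η) := by
    push_cast
    calc (A : ℝ) * TOPm K η r ≤ A * (((2 * K : ℕ) : ℝ) ^ (1 - η) * (r : ℝ) ^ (1 - η)) := by
          have := TOP_sup η K r
          gcongr
      _ = b * (r : ℝ) ^ (1 - η) := by rw [hb]; ring
  have h3 : ((A * TOPm K η r : ℕ) : ℝ) ^ σ ≤ b ^ σ * t := by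
    calc ((A * TOPm K η r : ℕ) : ℝ) ^ σ ≤ (b * (r : ℝ) ^ (1 - η)) ^ σ :=
          Real.rpow_le_rpow (by positivity) h2 (by linarith)
      _ = b ^ σ * (r : ℝ) ^ ((1 - η) * σ) := by
          rw [Real.mul_rpow hb0 (by positivity), ← Real.rpow_mul hr0.le]
      _ ≤ b ^ σ * t := by
          have : (r : ℝ) ^ ((1 - η) * σ) ≤ t :=
            Real.rpow_le_rpow_of_exponent_le hr1 (le_max_right _ _)
          gcongr
  have hx0 : 0 ≤ ((A * TOPm K η r : ℕ) : ℝ) ^ σ := by positivity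
  generalize ((A * TOPm K η r : ℕ) : ℝ) ^ σ = x at h3 hx0 ⊢
  have hb1 : 0 ≤ b ^ σ := by positivity
  have h4 : (⌈x⌉₊ : ℝ) ≤ (b ^ σ + 1) * t := by
    have := (Nat.ceil_lt_add_one hx0).le
    nlinarith
  have h5 : ((a0 * ⌈x⌉₊ : ℕ) : ℝ) ≤ ((⌈(a0 : ℝ) * (b ^ σ + 1)⌉₊ * ⌈t⌉₊ : ℕ) : ℝ) := by
    push_cast
    have e1 := Nat.le_ceil ((a0 : ℝ) * (b ^ σ + 1))
    have e2 := Nat.le_ceil t
    calc (a0 : ℝ) * (⌈x⌉₊ : ℝ) ≤ a0 * ((b ^ σ + 1) * t) := by gcongr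
      _ = (a0 * (b ^ σ + 1)) * t := by ring
      _ ≤ (⌈(a0 : ℝ) * (b ^ σ + 1)⌉₊ : ℝ) * (⌈t⌉₊ : ℝ) := by gcongr
  exact_mod_cast h5

theorem TOP_box {K A1 Bh B0 r s N : ℕ} (h1 : K + 2 * A1 * K + 1 ≤ r) (h2 : (2 * K) ^ Bh ≤ r)
    (hs : s ≤ r) (hN : r ^ (B0 + Bh + 2) ≤ N) :
    s ^ B0 ≤ N - (K + 2 * A1 * K) * r ∧ (2 * K * r) ^ Bh ≤ N - (K + 2 * A1 * K) * r ∧
      N - (K + 2 * A1 * K) * r + (K + 2 * A1 * K) * r ≤ N := by
  have hr1 : 1 ≤ r := by omega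
  have h3 : r ≤ r ^ (B0 + Bh + 1) := Nat.le_self_pow (by omega) r
  have h4 : (K + 2 * A1 * K) * r + r ^ (B0 + Bh + 1) ≤ N := by
    refine le_trans ?_ hN
    obtain ⟨u, rfl⟩ : ∃ u, r = u + 1 := ⟨r - 1, by omega⟩
    have h5 : K + 2 * A1 * K ≤ u := by omega
    calc (K + 2 * A1 * K) * (u + 1) + (u + 1) ^ (B0 + Bh + 1) ≤
        u * (u + 1) ^ (B0 + Bh + 1) + (u + 1) ^ (B0 + Bh + 1) := by gcongr
      _ = (u + 1) ^ (B0 + Bh + 2) := by ring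
  have h6 : r ^ (B0 + Bh + 1) ≤ N - (K + 2 * A1 * K) * r := by omega
  refine ⟨le_trans ?_ h6, le_trans ?_ h6, by omega⟩
  · calc s ^ B0 ≤ r ^ B0 := Nat.pow_le_pow_left hs _
      _ ≤ r ^ (B0 + Bh + 1) := Nat.pow_le_pow_right hr1 (by omega)
  · calc (2 * K * r) ^ Bh = (2 * K) ^ Bh * r ^ Bh := by rw [mul_pow]
      _ ≤ r * r ^ Bh := by gcongr
      _ = r ^ (Bh + 1) := by ring
      _ ≤ r ^ (B0 + Bh + 1) := Nat.pow_le_pow_right hr1 (by omega)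

theorem TOP_cnt {K l d r : ℕ} {C : ℝ} (hK : 1 ≤ K) (hr : 1 ≤ r)
    (h : (3 * K) ^ (2 * d) * ((l + 1) * 2) ≤ r) :
    (((2 * (K * r) + 1) ^ d * (2 * (K * r) + 1) ^ d * (l + 1) * 2 : ℕ) : ℝ) *
      (r : ℝ) ^ (-(C + 2 * d + 1)) ≤ (r : ℝ) ^ (-C) := by
  have hr0 : (0 : ℝ) < r := by exact_mod_cast hr
  have h1 : (2 * (K * r) + 1) ^ d * (2 * (K * r) + 1) ^ d * (l + 1) * 2 ≤ r * r ^ (2 * d) := by
    have h2 : 2 * (K * r) + 1 ≤ 3 * K * r := by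
      have : 1 ≤ K * r := Nat.mul_pos hK hr
      nlinarith
    calc (2 * (K * r) + 1) ^ d * (2 * (K * r) + 1) ^ d * (l + 1) * 2
        ≤ (3 * K * r) ^ d * (3 * K * r) ^ d * (l + 1) * 2 := by gcongr
      _ = (3 * K) ^ (2 * d) * ((l + 1) * 2) * r ^ (2 * d) := by ring
      _ ≤ r * r ^ (2 * d) := by gcongr
  have h2 : (((2 * (K * r) + 1) ^ d * (2 * (K * r) + 1) ^ d * (l + 1) * 2 : ℕ) : ℝ) ≤
      (r : ℝ) ^ ((1 : ℝ) + 2 * d) := by
    refine le_trans (Nat.cast_le.2 h1) (le_of_eq ?_)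
    rw [Real.rpow_add hr0, Real.rpow_one]
    push_cast
    congr 1
    rw [← Real.rpow_natCast]
    push_cast
    rfl
  calc _ ≤ (r : ℝ) ^ ((1 : ℝ) + 2 * d) * (r : ℝ) ^ (-(C + 2 * d + 1)) := by gcongr
    _ = (r : ℝ) ^ (-C) := by
      rw [← Real.rpow_add hr0]
      congr 1
      ring

/-! ### Events -/

section events

variable {d : ℕ}

/-- The hop event. -/
def TOPh (c v : Vx d) (m R k : ℕ) (ω : Finset (Ed d)) : Prop :=
  ∃ x ∈ bx c m, ∃ y ∈ bx (c + v) m, Fpl (eb c R) k ω x y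

theorem TOPh_inc (c v : Vx d) (m R k : ℕ) : Inc (TOPh c v m R k) := by
  rintro a b hab ⟨x, hx, y, hy, h⟩
  exact ⟨x, hx, y, hy, Fpl_mono (Finset.Subset.refl _) le_rfl
    (Finset.inter_subset_left.trans hab) h⟩

theorem TOP_cmp (c : Vx d) : FKP.AUT_.Cmp (Equiv.addRight c) (Equiv.refl (Fin d)) := by
  intro x i
  simp only [Equiv.coe_addRight, Equiv.refl_apply]
  exact add_right_comm _ _ _

theorem TOP_bx (c : Vx d) (R : ℕ) :
    bx c R = (bx (0 : Vx d) R).map (Equiv.addRight c).toEmbedding := by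
  ext v
  rw [Finset.mem_map_equiv, mem_bx, mem_bx]
  simp [sub_eq_add_neg]

theorem TOP_eb (c : Vx d) (R : ℕ) :
    eb c R = (eb (0 : Vx d) R).map (trE c).toEmbedding := by
  show es (bx c R) = (es (bx (0 : Vx d) R)).map (trE c).toEmbedding
  rw [TOP_bx, FKP.AUT_.es_map (TOP_cmp c)]
  rfl

theorem TOP_Cf (c : Vx d) (ω : Finset (Ed d)) (x y : Vx d) :
    Cf (ω.map (trE c).toEmbedding) (x + c) (y + c) ↔ Cf ω x y := by
  unfold Cf Cn
  rw [show ((ω.map (trE c).toEmbedding : Finset (Ed d)) : Set (Ed d)) =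
    (Equiv.addRight c).prodCongr (Equiv.refl (Fin d)) '' (ω : Set (Ed d)) from
    FKP.AUT_.coe_map _ _ ω]
  exact (FKP.AUT_.con_iff (TOP_cmp c) _ x y).symm

theorem TOP_Fpl (c : Vx d) (R k : ℕ) (ω : Finset (Ed d)) (x y : Vx d) :
    Fpl (eb c R) k (ω.map (trE c).toEmbedding) (x + c) (y + c) ↔
      Fpl (eb (0 : Vx d) R) k ω x y := by
  unfold Fpl
  rw [TOP_eb]
  constructor
  · rintro ⟨T, hT, hk, h⟩
    obtain ⟨T0, hT0, rfl⟩ := Finset.subset_map_iff.1 hT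
    refine ⟨T0, hT0, by simpa using hk, ?_⟩
    rw [← Finset.map_inter, ← Finset.map_union, TOP_Cf] at h
    exact h
  · rintro ⟨T, hT, hk, h⟩
    refine ⟨T.map (trE c).toEmbedding, Finset.map_subset_map.2 hT, by simpa using hk, ?_⟩
    rw [← Finset.map_inter, ← Finset.map_union, TOP_Cf]
    exact h

theorem TOPh_tr (c v : Vx d) (m R k : ℕ) (ω : Finset (Ed d)) :
    TOPh c v m R k (ω.map (trE c).toEmbedding) ↔
      ∃ x ∈ bx (0 : Vx d) m, ∃ y ∈ bx v m, Fpl (eb (0 : Vx d) R) k ω x y := by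
  unfold TOPh
  constructor
  · rintro ⟨x, hx, y, hy, h⟩
    refine ⟨x - c, ?_, y - c, ?_, ?_⟩
    · rw [mem_bx] at hx ⊢
      intro i
      simpa using hx i
    · rw [mem_bx] at hy ⊢
      intro i
      have := hy i
      rw [Pi.add_apply] at this
      rw [Pi.sub_apply]
      convert this using 2
      ring
    · rw [← TOP_Fpl c]
      simpa using h
  · rintro ⟨x, hx, y, hy, h⟩
    refine ⟨x + c, ?_, y + c, ?_, (TOP_Fpl c R k ω x y).2 h⟩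
    · rw [mem_bx] at hx ⊢
      intro i
      simpa using hx i
    · rw [mem_bx] at hy ⊢
      intro i
      have := hy i
      rw [Pi.add_apply, Pi.add_apply]
      convert this using 2
      ring

theorem TOP_tr (hTRP : T_TRP) (hDPM : T_DPM) {p q : ℝ} (hp : 0 < p) (hp1 : p < 1) (hq : 1 ≤ q)
    {N N' : ℕ} {c : Vx d} {Q Q0 : Finset (Ed d) → Prop} (hQ : Inc Q)
    (h : ∀ ω, Q (ω.map (trE c).toEmbedding) ↔ Q0 ω) (hb : bx c N' ⊆ bx (0 : Vx d) N) :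
    P0 (0 : Vx d) N p q (fun ω => ¬ Q ω) ≤ P0 (0 : Vx d) N' p q fun ω => ¬ Q0 ω := by
  refine (hDPM d (bx 0 N) c N' p q hp hp1 hq hb Q hQ).trans (le_of_eq ?_)
  rw [hTRP]
  unfold P0
  congr 1
  funext ω
  exact ind_congr (not_congr (h ω))

theorem TOP_un {ι : Type} (I : Finset ι) {p q : ℝ} (hp : 0 < p) (hp1 : p < 1) (hq : 1 ≤ q)
    {N : ℕ} (Q : Finset (Ed d) → Prop) (A B : ι → Finset (Ed d) → Prop) (b : ℝ)
    (h : ∀ ω, (∀ i ∈ I, A i ω) → (∀ i ∈ I, B i ω) → Q ω)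
    (hA : ∀ i ∈ I, P0 (0 : Vx d) N p q (fun ω => ¬ A i ω) ≤ b)
    (hB : ∀ i ∈ I, P0 (0 : Vx d) N p q (fun ω => ¬ B i ω) ≤ b) :
    P0 (0 : Vx d) N p q (fun ω => ¬ Q ω) ≤ ((I.card * 2 : ℕ) : ℝ) * b := by
  have h1 : P0 (0 : Vx d) N p q (fun ω => ¬ Q ω) ≤
      ∑ i ∈ I, (P0 (0 : Vx d) N p q (fun ω => ¬ A i ω) +
        P0 (0 : Vx d) N p q (fun ω => ¬ B i ω)) := by
    unfold P0 fr fw
    simp only [← Ex_add]
    rw [← Ex_sum]
    refine Ex_mono hp hp1 (by linarith) fun ω _ => ?_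
    by_cases hQ : Q ω
    · rw [ind_false (not_not.2 hQ)]
      exact Finset.sum_nonneg fun i _ => add_nonneg (ind_nonneg _) (ind_nonneg _)
    · have h2 : ∃ i ∈ I, ¬ A i ω ∨ ¬ B i ω := by
        by_contra h3
        push Not at h3
        exact hQ (h ω (fun i hi => (h3 i hi).1) fun i hi => (h3 i hi).2)
      obtain ⟨i, hi, h3⟩ := h2
      refine le_trans ?_ (Finset.single_le_sum
        (f := fun i => ind (¬ A i ω) + ind (¬ B i ω))
        (fun i _ => add_nonneg (ind_nonneg _) (ind_nonneg _)) hi)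
      rcases h3 with h3 | h3
      · have e1 := ind_true h3
        have e2 := ind_nonneg (¬ B i ω)
        have e3 := ind_le_one (¬ Q ω)
        linarith
      · have e1 := ind_true h3
        have e2 := ind_nonneg (¬ A i ω)
        have e3 := ind_le_one (¬ Q ω)
        linarith
  refine h1.trans ((Finset.sum_le_sum fun i hi => add_le_add (hA i hi) (hB i hi)).trans ?_)
  rw [Finset.sum_const, nsmul_eq_mul]
  push_cast
  linarith

/-- The radius may be enlarged. -/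
theorem TOP_GlR {u : Vx d} {ρ r R R' k : ℕ} {ω : Finset (Ed d)} (hR : R ≤ R')
    (h : Gl u ρ r R k ω) : Gl u ρ r R' k ω := by
  intro K C hK hC hK1 hC1
  obtain ⟨x, hx, y, hy, hf⟩ := h K C hK hC hK1 hC1
  exact ⟨x, hx, y, hy, Fpl_mono (es_mono (bx_sub (k := 0) (by rw [mem_bx]; simp) (by omega)))
    le_rfl Finset.inter_subset_left hf⟩

end events

/-! ### The step -/

/-- The gluing event with the radius `a ⌈r^σ⌉`. -/
def SG (d : ℕ) (p q σ : ℝ) : Prop :=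
  ∃ B : ℕ, ∀ K : ℕ, 1 ≤ K → ∃ a : ℕ, ∀ C ε : ℝ, 0 < C → 0 < ε → ∃ r0 : ℕ, ∀ r N : ℕ, r0 ≤ r →
    r ^ B ≤ N →
    P0 (0 : Vx d) N p q (fun ω => ¬ Gl 0 (K * r) r (a * ⌈(r : ℝ) ^ σ⌉₊)
      ⌊ε * Real.log r⌋₊ ω) ≤ (r : ℝ) ^ (-C)

theorem TOP_step (hHPS : T_HPS) (hTRP : T_TRP) (hDPM : T_DPM) (hGLT : T_GLT) {d : ℕ}
    {p0 p1 q : ℝ} (H : Hyp d p0 p1 q) : ∃ η : ℝ, 0 < η ∧ η < 1 ∧ ∀ σ : ℝ, 1 ≤ σ →
      SG d p1 q σ → SG d p1 q (max 1 ((1 - η) * σ)) := by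
  have hp1 : 0 < p1 := H.h0.trans H.h01
  obtain ⟨η, Bh, A1, l, hη0, hη1, hh⟩ := hHPS d p0 p1 q H
  refine ⟨η, hη0, hη1, fun σ hσ hSG => ?_⟩
  obtain ⟨B0, hSG⟩ := hSG
  refine ⟨B0 + Bh + 2, fun K hK => ?_⟩
  obtain ⟨a0, hSG⟩ := hSG (3 * l + 2) (by omega)
  set a1 : ℕ := ⌈(a0 : ℝ) * ((((A1 + 1 : ℕ) : ℝ) * ((2 * K : ℕ) : ℝ) ^ (1 - η)) ^ σ + 1)⌉₊
    with ha1
  refine ⟨K + 4 * A1 * K + a1, fun C ε hC hε => ?_⟩
  set C2 : ℝ := C + 2 * d + 1 with hC2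
  have hC20 : 0 < C2 := by positivity
  obtain ⟨r1, hSG⟩ := hSG (2 * C2 / (1 - η)) (ε / (2 * ((l : ℝ) + 1)))
    (div_pos (by positivity) (by linarith)) (by positivity)
  obtain ⟨k, n0, hh⟩ := hh 0 C2 hC20
  have ev : ∀ᶠ r : ℕ in atTop, (A1 + 1) * TOPm K η r ≤ r ∧
      (r : ℝ) ^ ((1 - η) / 2) ≤ TOPm K η r ∧ ((l * k : ℕ) : ℝ) ≤ ε / 2 * Real.log r ∧ 1 ≤ r ∧
      n0 ≤ r ∧ (r1 : ℝ) ≤ (r : ℝ) ^ ((1 - η) / 2) ∧ K + 2 * A1 * K + 1 ≤ r ∧
      (2 * K) ^ Bh ≤ r ∧ (3 * K) ^ (2 * d) * ((l + 1) * 2) ≤ r := by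
    filter_upwards [TOP_sle hη0 (A1 + 1) K, TOP_mge hη1 hK, TOP_evlog (half_pos hε) _,
      eventually_ge_atTop 1, eventually_ge_atTop n0,
      TOP_evpow (a := (1 - η) / 2) (by linarith) r1, eventually_ge_atTop (K + 2 * A1 * K + 1),
      eventually_ge_atTop ((2 * K) ^ Bh),
      eventually_ge_atTop ((3 * K) ^ (2 * d) * ((l + 1) * 2))] with r h1 h2 h3 h4 h5 h6 h7 h8 h9
    exact ⟨h1, h2, h3, h4, h5, h6, h7, h8, h9⟩
  obtain ⟨r0, hr0⟩ := eventually_atTop.1 ev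
  refine ⟨r0, fun r N hr hN => ?_⟩
  obtain ⟨e1, e2, e3, e4, e5, e6, e7, e8, e9⟩ := hr0 r hr
  have hrpos : (0 : ℝ) < r := by exact_mod_cast e4
  set m : ℕ := TOPm K η r with hm
  set s : ℕ := (A1 + 1) * m with hs
  set N' : ℕ := N - (K + 2 * A1 * K) * r with hN'
  set Φ : ℕ := ⌊ε / (2 * ((l : ℝ) + 1)) * Real.log s⌋₊ with hΦ
  set R1 : ℕ := a0 * ⌈(s : ℝ) ^ σ⌉₊ with hR1
  set R : ℕ := (K + 4 * A1 * K + a1) * ⌈(r : ℝ) ^ max 1 ((1 - η) * σ)⌉₊ with hR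
  obtain ⟨n1, n2, n3⟩ := TOP_box (A1 := A1) (Bh := Bh) (B0 := B0) e7 e8 e1 hN
  have hms : m ≤ s := by rw [hs]; exact Nat.le_mul_of_pos_left _ (by omega)
  have hrad : K * r + A1 * (2 * K * r) + A1 * (2 * K * r) ≤ R ∧
      K * r + A1 * (2 * K * r) + R1 ≤ R := by
    have h1 := TOP_rad η hσ (A1 + 1) K a0 r e4
    have h2 : r ≤ ⌈(r : ℝ) ^ max 1 ((1 - η) * σ)⌉₊ := by
      have h3 : (r : ℝ) ≤ ⌈(r : ℝ) ^ max 1 ((1 - η) * σ)⌉₊ := by
        refine le_trans ?_ (Nat.le_ceil _)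
        calc (r : ℝ) = (r : ℝ) ^ (1 : ℝ) := (Real.rpow_one _).symm
          _ ≤ _ := Real.rpow_le_rpow_of_exponent_le (by exact_mod_cast e4) (le_max_left _ _)
      exact_mod_cast h3
    have h4 : R1 ≤ a1 * ⌈(r : ℝ) ^ max 1 ((1 - η) * σ)⌉₊ := h1
    have h5 : (K + 4 * A1 * K) * r ≤
        (K + 4 * A1 * K) * ⌈(r : ℝ) ^ max 1 ((1 - η) * σ)⌉₊ := Nat.mul_le_mul_left _ h2
    have h6 : R = (K + 4 * A1 * K) * ⌈(r : ℝ) ^ max 1 ((1 - η) * σ)⌉₊ +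
        a1 * ⌈(r : ℝ) ^ max 1 ((1 - η) * σ)⌉₊ := by rw [hR]; ring
    have h7 : (K + 4 * A1 * K) * r = K * r + A1 * (2 * K * r) + A1 * (2 * K * r) := by ring
    constructor
    · omega
    · have h8 : 0 ≤ A1 * (2 * K * r) := Nat.zero_le _
      omega
  -- the path
  have hpath : ∀ y : Vx d, ∃ h : ℕ → Vx d, y ∈ bx (0 : Vx d) (2 * K * r) → h 0 = 0 ∧
      (∀ j ≤ l, h j ∈ bx (0 : Vx d) (A1 * (2 * K * r))) ∧
      (∀ i, |h l i - y i| ≤ (A1 * m : ℤ)) ∧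
      ∀ j < l, P0 (0 : Vx d) N' p1 q (fun ω => ¬ ∃ x ∈ bx (0 : Vx d) m,
        ∃ z ∈ bx (h (j + 1) - h j) m, Fpl (eb (0 : Vx d) (A1 * (2 * K * r))) k ω x z) ≤
          (r : ℝ) ^ (-C2) := by
    intro y
    by_cases hy : y ∈ bx (0 : Vx d) (2 * K * r)
    · have h1 : r ≤ 2 * K * r := by nlinarith
      obtain ⟨h, g1, g2, g3, g4⟩ := hh (2 * K * r) N' m (e5.trans h1) n2 hm y hy
      refine ⟨h, fun _ => ⟨g1, g2, g3, fun j hj => (g4 j hj).2.trans ?_⟩⟩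
      exact Real.rpow_le_rpow_of_nonpos hrpos (by exact_mod_cast h1) (by linarith)
    · exact ⟨fun _ => 0, fun h => absurd h hy⟩
  choose h hpath using hpath
  set c : Vx d → Vx d → ℕ → Vx d := fun z w j => z + h (w - z) j with hc
  have hzw : ∀ z ∈ bx (0 : Vx d) (K * r), ∀ w ∈ bx (0 : Vx d) (K * r),
      w - z ∈ bx (0 : Vx d) (2 * K * r) := by
    intro z hz w hw
    rw [mem_bx] at hz hw ⊢
    intro i
    have h1 := abs_le.1 (hz i)
    have h2 := abs_le.1 (hw i)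
    simp only [Pi.zero_apply, sub_zero, Pi.sub_apply] at h1 h2 ⊢
    rw [abs_le]
    push_cast at h1 h2 ⊢
    constructor <;> linarith [h1.1, h1.2, h2.1, h2.2]
  have hcb : ∀ z ∈ bx (0 : Vx d) (K * r), ∀ w ∈ bx (0 : Vx d) (K * r), ∀ j ≤ l,
      c z w j ∈ bx (0 : Vx d) (K * r + A1 * (2 * K * r)) := by
    intro z hz w hw j hj
    have h1 := (hpath (w - z) (hzw z hz w hw)).2.1 j hj
    rw [mem_bx] at hz h1 ⊢
    intro i
    have h2 := abs_le.1 (hz i)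
    have h3 := abs_le.1 (h1 i)
    simp only [Pi.zero_apply, sub_zero, hc, Pi.add_apply] at h2 h3 ⊢
    rw [abs_le]
    push_cast at h2 h3 ⊢
    constructor <;> linarith [h2.1, h2.2, h3.1, h3.2]
  have hun := TOP_un (d := d) ((bx (0 : Vx d) (K * r) ×ˢ bx (0 : Vx d) (K * r)) ×ˢ
    Finset.range (l + 1)) hp1 H.h1 H.hq (N := N)
    (Gl 0 (K * r) r R ⌊ε * Real.log r⌋₊)
    (fun i => Gl (c i.1.1 i.1.2 i.2) ((3 * l + 2) * s) s R1 Φ)
    (fun i ω => i.2 < l → TOPh (c i.1.1 i.1.2 i.2)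
      (h (i.1.2 - i.1.1) (i.2 + 1) - h (i.1.2 - i.1.1) i.2) m (A1 * (2 * K * r)) k ω)
    ((r : ℝ) ^ (-C2)) ?_ ?_ ?_
  · refine hun.trans ?_
    rw [Finset.card_product, Finset.card_product, Finset.card_range, FKT.CNT_.card_bx]
    exact TOP_cnt hK e4 e9
  · intro ω hA hB
    refine Gl_mono Finset.inter_subset_left (TOP_cost hε l k s r e1 e4 e3)
      (hops (ρ := K * r) (ρ1 := (3 * l + 2) * s) (s := s) (R1 := R1) le_rfl e1 ?_)
    intro z hz w hw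
    obtain ⟨g1, g2, g3, g4⟩ := hpath (w - z) (hzw z hz w hw)
    refine ⟨c z w, ?_, ?_, ?_, ?_, ?_⟩
    · rw [mem_bx]
      intro i
      simp [hc, g1]
    · rw [mem_bx]
      intro i
      have h1 := g3 i
      simp only [hc, Pi.add_apply, Pi.sub_apply] at h1 ⊢
      rw [abs_sub_comm]
      have h2 : z i + h (w - z) l i - w i = h (w - z) l i - (w i - z i) := by ring
      rw [h2]
      refine h1.trans ?_
      rw [hs]
      push_cast
      nlinarith [Int.natCast_nonneg m]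
    · intro j hj
      exact es_mono (bx_sub (hcb z hz w hw j hj) hrad.2)
    · intro j hj
      exact hA ((z, w), j) (Finset.mem_product.2 ⟨Finset.mem_product.2 ⟨hz, hw⟩,
        Finset.mem_range.2 (by omega)⟩)
    · intro j hj
      obtain ⟨x, hx, y, hy, hf⟩ := hB ((z, w), j) (Finset.mem_product.2
        ⟨Finset.mem_product.2 ⟨hz, hw⟩, Finset.mem_range.2 (by omega)⟩) hj
      have hjl : j ≤ l := hj.le
      refine ⟨x, ?_, y, ?_, Fpl_mono (es_mono (bx_sub (hcb z hz w hw j hjl) hrad.1)) le_rfl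
        Finset.inter_subset_left hf⟩
      · exact bx_sub (k := 0) (by rw [mem_bx]; simp) (by omega) hx
      · have h1 : c z w j + (h (w - z) (j + 1) - h (w - z) j) = c z w (j + 1) := by
          simp only [hc]
          abel
        simp only [h1] at hy
        exact bx_sub (k := 0) (by rw [mem_bx]; simp) (by omega) hy
  · rintro ⟨⟨z, w⟩, j⟩ hi
    obtain ⟨hzw1, hj⟩ := Finset.mem_product.1 hi
    obtain ⟨hz, hw⟩ := Finset.mem_product.1 hzw1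
    have hj' : j ≤ l := by
      have := Finset.mem_range.1 hj
      simp only at this
      omega
    refine (TOP_tr hTRP hDPM hp1 H.h1 H.hq (N' := N') (Gl_inc _ _ _ _ _)
      (Q0 := Gl 0 ((3 * l + 2) * s) s R1 Φ) (hGLT d _ _ _ _ _)
      (bx_sub (hcb z hz w hw j hj') (by
        have e : (K + 2 * A1 * K) * r = K * r + A1 * (2 * K * r) := by ring
        omega))).trans ?_
    have hr1s : r1 ≤ s := by
      have h1 : (r1 : ℝ) ≤ (s : ℝ) := (e6.trans e2).trans (by exact_mod_cast hms)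
      exact_mod_cast h1
    refine (hSG s N' hr1s n1).trans ?_
    have h1 : (r : ℝ) ^ ((1 - η) / 2) ≤ (s : ℝ) := e2.trans (by exact_mod_cast hms)
    have h2 : 0 < (r : ℝ) ^ ((1 - η) / 2) := Real.rpow_pos_of_pos hrpos _
    have h3 : 0 < 2 * C2 / (1 - η) := div_pos (by positivity) (by linarith)
    calc (s : ℝ) ^ (-(2 * C2 / (1 - η))) ≤
        ((r : ℝ) ^ ((1 - η) / 2)) ^ (-(2 * C2 / (1 - η))) :=
          Real.rpow_le_rpow_of_nonpos h2 h1 (by linarith)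
      _ = (r : ℝ) ^ (-C2) := by
          rw [← Real.rpow_mul hrpos.le]
          congr 1
          have : 1 - η ≠ 0 := by linarith
          field_simp
  · rintro ⟨⟨z, w⟩, j⟩ hi
    obtain ⟨hzw1, hj⟩ := Finset.mem_product.1 hi
    obtain ⟨hz, hw⟩ := Finset.mem_product.1 hzw1
    by_cases hjl : j < l
    · have hj' : j ≤ l := hjl.le
      refine (TOP_tr hTRP hDPM hp1 H.h1 H.hq (N' := N')
        (Q := fun ω => j < l → TOPh (c z w j) (h (w - z) (j + 1) - h (w - z) j) m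
          (A1 * (2 * K * r)) k ω) (fun a b hab g hj => TOPh_inc _ _ _ _ _ a b hab (g hj))
        (c := c z w j)
        (Q0 := fun ω => ∃ x ∈ bx (0 : Vx d) m, ∃ y ∈ bx (h (w - z) (j + 1) - h (w - z) j) m,
          Fpl (eb (0 : Vx d) (A1 * (2 * K * r))) k ω x y)
        (fun ω => ?_) (bx_sub (hcb z hz w hw j hj') (by
        have e : (K + 2 * A1 * K) * r = K * r + A1 * (2 * K * r) := by ring
        omega))).trans ((hpath (w - z) (hzw z hz w hw)).2.2.2 j hjl)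
      rw [← TOPh_tr (c z w j)]
      exact ⟨fun g => g hjl, fun g _ => g⟩
    · have h0 : P0 (0 : Vx d) N p1 q (fun ω => ¬ (j < l → TOPh (c z w j)
          (h (w - z) (j + 1) - h (w - z) j) m (A1 * (2 * K * r)) k ω)) = 0 := by
        unfold P0 fr fw
        rw [Ex_congr (g := fun _ => 0) fun ω _ => ind_false (by
          intro hn
          exact hn fun g => absurd g hjl)]
        exact Ex_const hp1 H.h1 (by linarith [H.hq]) 0
      exact h0.le.trans (by positivity)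

/-- TOP. The top scales. -/
theorem p_TOP (hLOW : T_LOW) (hHPS : T_HPS) (hTRP : T_TRP) (hDPM : T_DPM) (hGLT : T_GLT) :
    T_TOP := by
  intro d p0 p1 q H
  have hp1 : 0 < p1 := H.h0.trans H.h01
  obtain ⟨η, hη0, hη1, hstep⟩ := TOP_step hHPS hTRP hDPM hGLT H
  obtain ⟨A, B, hL⟩ := hLOW d p0 p1 q H
  have h0 : SG d p1 q (max 1 (A : ℝ)) := by
    refine ⟨B, fun K hK => ⟨1, fun C ε hC hε => ?_⟩⟩
    obtain ⟨r0, hr0⟩ := hL K C ε hK hC hε
    refine ⟨max r0 1, fun r N hr hN => le_trans ?_ (hr0 r N (by omega) hN)⟩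
    unfold P0 fr fw
    refine Ex_mono hp1 H.h1 (by linarith [H.hq]) fun ω _ => ind_mono fun g g1 => g ?_
    refine TOP_GlR ?_ g1
    have hr1 : (1 : ℝ) ≤ r := by exact_mod_cast (by omega : 1 ≤ r)
    have h1 : ((r ^ A : ℕ) : ℝ) ≤ ((1 * ⌈(r : ℝ) ^ max 1 (A : ℝ)⌉₊ : ℕ) : ℝ) := by
      rw [one_mul]
      refine le_trans ?_ (Nat.le_ceil _)
      push_cast
      rw [← Real.rpow_natCast]
      exact Real.rpow_le_rpow_of_exponent_le hr1 (le_max_right _ _)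
    exact_mod_cast h1
  have hn : ∀ n : ℕ, SG d p1 q (max 1 ((1 - η) ^ n * (A : ℝ))) := by
    intro n
    induction n with
    | zero => simpa using h0
    | succ n ih =>
      have h1 := hstep _ (le_max_left _ _) ih
      have e : max 1 ((1 - η) * max 1 ((1 - η) ^ n * (A : ℝ))) =
          max 1 ((1 - η) ^ (n + 1) * (A : ℝ)) := by
        have h2 : (1 - η) * max 1 ((1 - η) ^ n * (A : ℝ)) =
            max (1 - η) ((1 - η) ^ (n + 1) * (A : ℝ)) := by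
          rw [mul_max_of_nonneg _ _ (by linarith), mul_one]
          congr 1
          ring
        rw [h2, ← max_assoc, max_eq_left (by linarith : 1 - η ≤ 1)]
      rwa [e] at h1
  have hlim : ∃ n : ℕ, (1 - η) ^ n * (A : ℝ) ≤ 1 := by
    have h1 : Tendsto (fun n : ℕ => (1 - η) ^ n * (A : ℝ)) atTop (nhds (0 * (A : ℝ))) :=
      (tendsto_pow_atTop_nhds_zero_of_lt_one (by linarith) (by linarith)).mul_const _
    rw [zero_mul] at h1
    obtain ⟨n, hn⟩ := (h1.eventually_le_const (by norm_num : (0 : ℝ) < 1)).exists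
    exact ⟨n, hn⟩
  obtain ⟨n, hn1⟩ := hlim
  have h1 := hn n
  rw [max_eq_left hn1] at h1
  obtain ⟨B', hB'⟩ := h1
  refine ⟨B', fun K hK => ?_⟩
  obtain ⟨a, ha⟩ := hB' K hK
  refine ⟨a, fun C ε hC hε => ?_⟩
  obtain ⟨r0, hr0⟩ := ha C ε hC hε
  refine ⟨r0, fun r N hr hN => ?_⟩
  have h2 := hr0 r N hr hN
  rw [Real.rpow_one, Nat.ceil_natCast] at h2
  exact h2

end Pool.Agent.FKS
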