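import Pool.Agent.FKS.TargetsD

/-!
# Project FKS: proof of T_TWO (two sets of tiles with many slices)
-/

set_option autoImplicit false

namespace Pool.Agent.FKS

open Filter MeasureTheory Pool.Agent.FKP
open Pool.Agent.FKT hiding ind

theorem TWO_mem_bx {d : ℕ} {x v : Vx d} {n : ℕ} : v ∈ bx x n ↔ ∀ i, x i - n ≤ v i ∧ v i ≤ x i + n := by
  unfold bx
  rw [Finset.mem_Icc]
  constructor
  · intro h i
    exact ⟨h.1 i, h.2 i⟩
  · intro h
    exact ⟨fun i => (h i).1, fun i => (h i).2⟩

theorem TWO_mem_bx0 {d : ℕ} {v : Vx d} {n : ℕ} : v ∈ bx (0 : Vx d) n ↔ ∀ i, -(n : ℤ) ≤ v i ∧ v i ≤ n := by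
  rw [TWO_mem_bx]
  simp

/-- A walk from `x` to `y` inside the smallest box, from `P` to not `P`. -/
theorem TWO_walk {d : ℕ} (P : Vx d → Prop) : ∀ (n : ℕ) (x y : Vx d),
    ∑ i, (x i - y i).natAbs ≤ n → P x → ¬ P y →
    ∃ u v : Vx d, Nb u v ∧ P u ∧ ¬ P v ∧
      (∀ i, min (x i) (y i) ≤ u i ∧ u i ≤ max (x i) (y i)) ∧
      ∀ i, min (x i) (y i) ≤ v i ∧ v i ≤ max (x i) (y i) := by
  intro n
  induction n with
  | zero =>
    intro x y hs hx hy
    exfalso
    apply hy
    have hxy : x = y := by
      funext i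
      have h1 : ∑ i, (x i - y i).natAbs = 0 := by omega
      have h2 := (Finset.sum_eq_zero_iff.1 h1) i (Finset.mem_univ i)
      omega
    rw [← hxy]
    exact hx
  | succ n ih =>
    intro x y hs hx hy
    by_cases hne : x = y
    · exact absurd (hne ▸ hx) hy
    · obtain ⟨i, hi⟩ : ∃ i, x i ≠ y i := by
        by_contra hc
        push Not at hc
        exact hne (funext hc)
      obtain ⟨x', hN, hx'i, hx'j, hlt⟩ : ∃ x' : Vx d, Nb x x' ∧
          (min (x i) (y i) ≤ x' i ∧ x' i ≤ max (x i) (y i)) ∧ (∀ j, j ≠ i → x' j = x j) ∧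
          (x' i - y i).natAbs + 1 = (x i - y i).natAbs := by
        rcases lt_or_gt_of_ne hi with h | h
        · refine ⟨x + Pi.single i 1, Or.inr ⟨i, Or.inl rfl⟩, ?_, ?_, ?_⟩
          · simp only [Pi.add_apply, Pi.single_eq_same]
            omega
          · intro j hj
            simp [hj]
          · simp only [Pi.add_apply, Pi.single_eq_same]
            omega
        · refine ⟨x - Pi.single i 1, Or.inr ⟨i, Or.inr (by simp)⟩, ?_, ?_, ?_⟩
          · simp only [Pi.sub_apply, Pi.single_eq_same]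
            omega
          · intro j hj
            simp [hj]
          · simp only [Pi.sub_apply, Pi.single_eq_same]
            omega
      have hrange : ∀ j, min (x j) (y j) ≤ x' j ∧ x' j ≤ max (x j) (y j) := by
        intro j
        by_cases hj : j = i
        · rw [hj]; exact hx'i
        · rw [hx'j j hj]
          exact ⟨min_le_left _ _, le_max_left _ _⟩
      by_cases hP : P x'
      · have hsum : ∑ j, (x' j - y j).natAbs < ∑ j, (x j - y j).natAbs := by
          apply Finset.sum_lt_sum
          · intro j _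
            by_cases hj : j = i
            · rw [hj]; omega
            · rw [hx'j j hj]
          · exact ⟨i, Finset.mem_univ i, by omega⟩
        obtain ⟨u, v, h1, h2, h3, h4, h5⟩ := ih x' y (by omega) hP hy
        refine ⟨u, v, h1, h2, h3, ?_, ?_⟩
        · intro j
          have := h4 j
          have := hrange j
          constructor <;> omega
        · intro j
          have := h5 j
          have := hrange j
          constructor <;> omega
      · exact ⟨x, x', hN, hx, hP, fun j => ⟨min_le_left _ _, le_max_left _ _⟩, hrange⟩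

theorem TWO_walk' {d : ℕ} (P : Vx d → Prop) {x y : Vx d} (hx : P x) (hy : ¬ P y) :
    ∃ u v : Vx d, Nb u v ∧ P u ∧ ¬ P v ∧
      (∀ i, min (x i) (y i) ≤ u i ∧ u i ≤ max (x i) (y i)) ∧
      ∀ i, min (x i) (y i) ≤ v i ∧ v i ≤ max (x i) (y i) :=
  TWO_walk P _ x y le_rfl hx hy

theorem p_TWO (hSLI : T_SLI) : T_TWO := by
  classical
  intro d M t hd ht A A' B B' hA hB hcA hcB hBA hPA hPB k k' I J hI hJ hIA hJB
  obtain ⟨I', hI'I, hIc, hI'⟩ := hSLI d M A A' hA hcA k I hIA
  obtain ⟨J', hJ'J, hJc, hJ'⟩ := hSLI d M B B' hB hcB k' J hJB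
  have hI'c : t < I'.card := by omega
  have hJ'c : t < J'.card := by omega
  have hIr : ∀ s ∈ I', -(M : ℤ) ≤ s ∧ s ≤ M := by
    intro s hs
    obtain ⟨a, ha, hak⟩ := hIA s (hI'I hs)
    have := TWO_mem_bx0.1 (hA ha) k
    rw [hak] at this
    exact this
  have hJr : ∀ s ∈ J', -(M : ℤ) ≤ s ∧ s ≤ M := by
    intro s hs
    obtain ⟨a, ha, hak⟩ := hJB s (hJ'J hs)
    have := TWO_mem_bx0.1 (hB ha) k'
    rw [hak] at this
    exact this
  obtain ⟨s0, hs0⟩ : I'.Nonempty := Finset.card_pos.1 (by omega)
  obtain ⟨s1, hs1⟩ : J'.Nonempty := Finset.card_pos.1 (by omega)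
  by_cases hkk : k = k'
  · subst hkk
    obtain ⟨l, hl⟩ : ∃ l : Fin d, l ≠ k := by
      by_cases h0 : (k : ℕ) = 0
      · refine ⟨⟨1, by omega⟩, ?_⟩
        intro h
        have := congrArg Fin.val h
        simp at this
        omega
      · refine ⟨⟨0, by omega⟩, ?_⟩
        intro h
        have := congrArg Fin.val h
        simp at this
        omega
    let y : ℤ → ℤ → Vx d := fun r τ i => if i = k then τ else if i = l then r else 0
    have hyk : ∀ r τ, y r τ k = τ := fun r τ => by simp [y]
    have hyl : ∀ r τ, y r τ l = r := fun r τ => by simp [y, hl]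
    have hyo : ∀ r τ i, i ≠ k → i ≠ l → y r τ i = 0 := fun r τ i h1 h2 => by simp [y, h1, h2]
    have hyM : ∀ r τ, -(M : ℤ) ≤ r → r ≤ M → -(M : ℤ) ≤ τ → τ ≤ M → y r τ ∈ bx (0 : Vx d) M := by
      intro r τ h1 h2 h3 h4
      rw [TWO_mem_bx0]
      intro i
      by_cases hik : i = k
      · rw [hik, hyk]; exact ⟨h3, h4⟩
      · by_cases hil : i = l
        · rw [hil, hyl]; exact ⟨h1, h2⟩
        · rw [hyo r τ i hik hil]; omega
    have hsub : Finset.Icc (-(M : ℤ)) M ⊆ (Pl A A').image (fun p => p.1 l) := by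
      intro r hr
      rw [Finset.mem_Icc] at hr
      have h0 := hIr s0 hs0
      have h1 := hJr s1 hs1
      have hm0 := hyM r s0 hr.1 hr.2 h0.1 h0.2
      have hm1 := hyM r s1 hr.1 hr.2 h1.1 h1.2
      have hA0 : y r s0 ∈ A := hI' s0 hs0 _ hm0 (hyk r s0)
      have hB1 : y r s1 ∈ B := hJ' s1 hs1 _ hm1 (hyk r s1)
      rw [Finset.mem_image]
      by_cases hA1 : y r s1 ∈ A
      · refine ⟨(y r s1, y r s1), ?_, hyl r s1⟩
        unfold Pl
        rw [Finset.mem_filter, Finset.mem_product]
        exact ⟨⟨hA1, hBA hB1⟩, Or.inl rfl⟩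
      · obtain ⟨u, v, g1, g2, g3, g4, g5⟩ := TWO_walk' (fun w => w ∈ A) hA0 hA1
        have hv : v ∈ bx (0 : Vx d) M := by
          rw [TWO_mem_bx0]
          intro i
          have := g5 i
          have := TWO_mem_bx0.1 hm0 i
          have := TWO_mem_bx0.1 hm1 i
          constructor <;> omega
        have hul : u l = r := by
          have := g4 l
          rw [hyl, hyl] at this
          simp at this
          omega
        refine ⟨(u, v), ?_, hul⟩
        unfold Pl
        rw [Finset.mem_filter, Finset.mem_product]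
        exact ⟨⟨g2, (hcA v hv).resolve_left g3⟩, g1⟩
    have h1 := (Finset.card_le_card hsub).trans Finset.card_image_le
    rw [Int.card_Icc] at h1
    have h2 : ((M : ℤ) + 1 - -(M : ℤ)).toNat = 2 * M + 1 := by omega
    omega
  · let x : ℤ → Vx d := fun s i => if i = k then s0 else if i = k' then s else 0
    have hxk : ∀ s, x s k = s0 := fun s => by simp [x]
    have hxk' : ∀ s, x s k' = s := fun s => by
      have : k' ≠ k := fun h => hkk h.symm
      simp [x, this]
    have hxo : ∀ s i, i ≠ k → i ≠ k' → x s i = 0 := fun s i h1 h2 => by simp [x, h1, h2]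
    have hsub : J' ⊆ (Pl A A').image (fun p => p.1 k') := by
      intro s hs
      have h0 := hIr s0 hs0
      have h1 := hJr s hs
      have hm : x s ∈ bx (0 : Vx d) M := by
        rw [TWO_mem_bx0]
        intro i
        by_cases hik : i = k
        · rw [hik, hxk]; exact h0
        · by_cases hil : i = k'
          · rw [hil, hxk']; exact h1
          · rw [hxo s i hik hil]; omega
      have hA0 : x s ∈ A := hI' s0 hs0 _ hm (hxk s)
      have hB1 : x s ∈ B := hJ' s hs _ hm (hxk' s)
      rw [Finset.mem_image]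
      refine ⟨(x s, x s), ?_, hxk' s⟩
      unfold Pl
      rw [Finset.mem_filter, Finset.mem_product]
      exact ⟨⟨hA0, hBA hB1⟩, Or.inl rfl⟩
    have h1 := (Finset.card_le_card hsub).trans Finset.card_image_le
    omega

end Pool.Agent.FKS
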