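import Pool.Agent.FKS.Full
import Pool.Agent.FKS.AssemblyU
import Pool.Agent.FKS.AssemblyE
import Pool.Agent.FKS.MainF
import Pool.Agent.FKS.P_BAS
import Pool.Agent.FKS.P_BEP
import Pool.Agent.FKS.P_CNB
import Pool.Agent.FKS.P_DET
import Pool.Agent.FKS.P_DIC
import Pool.Agent.FKS.P_DSQ
import Pool.Agent.FKS.P_EXT
import Pool.Agent.FKS.P_FMA
import Pool.Agent.FKS.P_FMI
import Pool.Agent.FKS.P_FMK
import Pool.Agent.FKS.P_FMS
import Pool.Agent.FKS.P_FPB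
import Pool.Agent.FKS.P_GLI
import Pool.Agent.FKS.P_GLP
import Pool.Agent.FKS.P_GLT
import Pool.Agent.FKS.P_GNC
import Pool.Agent.FKS.P_GTR
import Pool.Agent.FKS.P_HPB
import Pool.Agent.FKS.P_HPS
import Pool.Agent.FKS.P_INM
import Pool.Agent.FKS.P_ISL
import Pool.Agent.FKS.P_ITM
import Pool.Agent.FKS.P_LOX
import Pool.Agent.FKS.P_MLU
import Pool.Agent.FKS.P_NMM
import Pool.Agent.FKS.P_NUL
import Pool.Agent.FKS.P_PGH
import Pool.Agent.FKS.P_PRA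
import Pool.Agent.FKS.P_PRB
import Pool.Agent.FKS.P_PST
import Pool.Agent.FKS.P_SCP
import Pool.Agent.FKS.P_SGN
import Pool.Agent.FKS.P_SLI
import Pool.Agent.FKS.P_SPD
import Pool.Agent.FKS.P_SPR
import Pool.Agent.FKS.P_STA
import Pool.Agent.FKS.P_STM
import Pool.Agent.FKS.P_TBM
import Pool.Agent.FKS.P_TOP
import Pool.Agent.FKS.P_TRP
import Pool.Agent.FKS.P_TWO

/-!
# Project FKS: assembly

Both tails for all `d ≥ 2`, all real `q ≥ 1` and all `p_c(q) < p ≤ 1`; the slab critical points tend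
to the critical point for all `d ≥ 3`, `q ≥ 1`.
-/

set_option autoImplicit false

namespace Pool.Agent.FKS

open Filter MeasureTheory Pool.Agent.FKP
open Pool.Agent.FKT hiding ind

/-! ## Tools -/

theorem g_SPR : T_SPR := p_SPR FKT.p_ADD FKT.p_BER
theorem g_FPB : T_FPB := p_FPB FKT.p_ADD FKT.p_BER FKT.f_FKG FKP.g_LGD FKP.g_HOL
theorem g_TRP : T_TRP := p_TRP FKP.p_AUT
theorem g_DPM : T_DPM := p_DPM FKP.g_DMC
theorem g_GTR : T_GTR := p_GTR g_TRP p_GLT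

/-! ## Low scales -/

theorem g_PRA : T_PRA := p_PRA g_KFR g_FPB g_GTR g_DPM
theorem g_PRB : T_PRB := p_PRB FKP.g_SEQ
theorem g_PST : T_PST := p_PST g_GTR g_PRA g_PRB
theorem g_LOW : T_LOW := p_LOX g_PST (p_BAS FKP.p_BCN) p_NUL g_DPM

/-! ## Hops and top scales -/

theorem g_FMA : T_FMA := p_FMA FKT.f_LOC FKT.f_MOP FKT.f_MAR
theorem g_FMS : T_FMS := p_FMS FKT.f_INV g_FMA
theorem g_FMK : T_FMK := p_FMK g_FMA g_FMS FKT.f_FSL
theorem g_FMI : T_FMI :=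
  p_FMI g_FMA g_FMK FKT.p_PIG FKT.p_ABS FKT.f_DER FKT.f_CVL FKT.f_EXI FKT.f_FKG
theorem g_DIC : T_DIC := p_DIC g_FMI
theorem g_HPB : T_HPB := p_HPB g_DIC p_TBM p_PGH g_MXQ g_FPB FKT.f_EXI FKT.f_DOM FKT.f_LOC
theorem g_HPS : T_HPS := p_HPS g_HPB p_SGN p_DSQ
theorem g_TOP : T_TOP := p_TOP g_LOW g_HPS g_TRP g_DPM p_GLT

/-! ## Merging -/

theorem g_DET : T_DET := p_DET (p_TWO p_SLI) p_EXT
theorem g_ISL : T_ISL := p_ISL p_SPD p_BEP
theorem g_STM : T_STM := p_STM g_DET g_ISL p_CNB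
theorem g_ITM : T_ITM := p_ITM g_STM
theorem g_STA : T_STA := p_STA p_INM g_DPM g_TRP p_BFT
theorem g_GLP : T_GLP := p_GLP p_GLI g_DPM g_TRP p_GLT
theorem g_MLU : T_MLU := p_MLU g_TOP g_BTF g_SPR FKP.g_HOL g_ITM g_STA g_GLP p_GNC p_NMM

/-! ## Cells, slab percolation, dimension two -/

theorem g_CEL : T_CEL := e_CEL g_MLU g_TOP g_DPM g_TRP p_GLT g_GTR
theorem g_SLS : T_SLS := e_SLS g_CEL g_SPR g_DPM
theorem g_TWD : T_TWD := twd_scp (p_SCP g_CEL g_SPR g_DPM p_EBP)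

/-! ## The theorems -/

/-- Both tails for all `d ≥ 2`, `q ≥ 1`, `p_c(q) < p ≤ 1`. -/
theorem main_tails (d : ℕ) (q p : ℝ) (hd : 2 ≤ d) (hq : 1 ≤ q) (hp : pc d q < p) (hp1 : p ≤ 1) :
    ∃ μ : Measure (Ed d → Bool), IsWired d p q μ ∧
      (∀ ν : Measure (Ed d → Bool), IsWired d p q ν → ν = μ) ∧
      ∃ σ γ : ℝ, 0 < σ ∧ 0 < γ ∧ ∀ n : ℕ, 1 ≤ n →
        μ.real {ω | (C0 ω).Finite ∧ ∃ v ∈ C0 ω, ∃ i, (n : ℤ) ≤ |v i|} ≤
          Real.exp (-(n * σ)) ∧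
        μ.real {ω | (C0 ω).Finite ∧ n ≤ (C0 ω).ncard} ≤
          Real.exp (-(γ * (n : ℝ) ^ (((d : ℝ) - 1) / d))) :=
  full g_SLS g_TWD d q p hd hq hp hp1

/-- The slab critical points tend to the critical point. -/
theorem main_slab (d : ℕ) (q : ℝ) (hd : 3 ≤ d) (hq : 1 ≤ q) :
    Filter.Tendsto (fun L : ℕ => pch d q L) Filter.atTop (nhds (pc d q)) :=
  full_lim g_SLS d q hd hq

end Pool.Agent.FKS
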