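import Pool.Agent.FKS.P_PIF

/-!
# Project FKS (MP_552f07_pr): target FPB, box-to-box first passage distances

Deterministic part (`FPB_dist`): let `a ⊆ ω` be such that in `a` the first passage distance of `X`
and `Y` in `F` is more than `k`. The level sets `W j` of the first passage distance to `X` in `a`
are closed under the edges of `a`, and every edge of `F` leaves at most one of them; so the
distance of `ω` to the configurations of first passage distance more than `k` is at least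
`k + 1` times its distance to the configurations where `X` and `Y` are not connected in `F`.
-/

set_option autoImplicit false

namespace Pool.Agent.FKS

open Filter MeasureTheory Pool.Agent.FKP
open Pool.Agent.FKT hiding ind

theorem FPB_closed {V E : Type} {s t : E → V} {O : Set E} {W : V → Prop}
    (hW : ∀ e ∈ O, W (s e) ↔ W (t e)) {a b : V} (h : Con s t (no V) O a b) : W a ↔ W b := by
  unfold FKT.Con at h
  induction h with
  | rel x y hxy =>
    rcases hxy with h | ⟨e, he, h1, h2⟩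
    · exact absurd h (fun h => h)
    · rw [← h1, ← h2]
      exact hW e he
  | refl x => exact Iff.rfl
  | symm x y _ ih => exact ih.symm
  | trans x y z _ _ ih1 ih2 => exact ih1.trans ih2

/-- The level sets. -/
def FPB_W {d : ℕ} (F : Finset (Ed d)) (X : Finset (Vx d)) (a : Finset (Ed d)) (j : ℕ)
    (v : Vx d) : Prop := ∃ x ∈ X, Fpl F j a x v

theorem FPB_W_mono {d : ℕ} {F : Finset (Ed d)} {X : Finset (Vx d)} {a : Finset (Ed d)}
    {j j' : ℕ} (hj : j ≤ j') {v : Vx d} (h : FPB_W F X a j v) : FPB_W F X a j' v := by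
  obtain ⟨x, hx, T, hT, hc, h⟩ := h
  exact ⟨x, hx, T, hT, hc.trans hj, h⟩

theorem FPB_W_cl {d : ℕ} {F : Finset (Ed d)} {X : Finset (Vx d)} {a : Finset (Ed d)}
    {j : ℕ} {e : Ed d} (he : e ∈ a) (heF : e ∈ F) :
    FPB_W F X a j e.1 ↔ FPB_W F X a j (tgt e) := by
  have key : ∀ T : Finset (Ed d), Cf ((a ∩ F) ∪ T) e.1 (tgt e) := by
    intro T
    apply Con_edge (s := Prod.fst) (t := tgt) (R := no (Vx d)) (e := e)
    rw [Finset.mem_coe, Finset.mem_union, Finset.mem_inter]
    exact Or.inl ⟨he, heF⟩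
  constructor
  · rintro ⟨x, hx, T, hT, hc, h⟩
    exact ⟨x, hx, T, hT, hc, Con_trans h (key T)⟩
  · rintro ⟨x, hx, T, hT, hc, h⟩
    exact ⟨x, hx, T, hT, hc, Con_trans h (Con_symm (key T))⟩

theorem FPB_W_step {d : ℕ} {F : Finset (Ed d)} {X : Finset (Vx d)} {a : Finset (Ed d)}
    {j : ℕ} {e : Ed d} (heF : e ∈ F) (h : FPB_W F X a j e.1 ∨ FPB_W F X a j (tgt e)) :
    FPB_W F X a (j + 1) e.1 ∧ FPB_W F X a (j + 1) (tgt e) := by
  have key : ∀ T : Finset (Ed d), Cf ((a ∩ F) ∪ insert e T) e.1 (tgt e) := by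
    intro T
    apply Con_edge (s := Prod.fst) (t := tgt) (R := no (Vx d)) (e := e)
    rw [Finset.mem_coe, Finset.mem_union, Finset.mem_insert]
    exact Or.inr (Or.inl rfl)
  have up : ∀ T : Finset (Ed d), ∀ x y : Vx d, Cf ((a ∩ F) ∪ T) x y →
      Cf ((a ∩ F) ∪ insert e T) x y := by
    intro T x y h
    refine Con_mono (fun _ _ h => h) ?_ h
    intro z hz
    rw [Finset.mem_coe, Finset.mem_union] at hz ⊢
    exact hz.imp id (fun h => Finset.mem_insert_of_mem h)
  rcases h with ⟨x, hx, T, hT, hc, h⟩ | ⟨x, hx, T, hT, hc, h⟩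
  · have h1 := up T _ _ h
    have hT' : insert e T ⊆ F := Finset.insert_subset heF hT
    have hc' : (insert e T).card ≤ j + 1 := (Finset.card_insert_le e T).trans (by omega)
    exact ⟨⟨x, hx, insert e T, hT', hc', h1⟩,
      ⟨x, hx, insert e T, hT', hc', Con_trans h1 (key T)⟩⟩
  · have h1 := up T _ _ h
    have hT' : insert e T ⊆ F := Finset.insert_subset heF hT
    have hc' : (insert e T).card ≤ j + 1 := (Finset.card_insert_le e T).trans (by omega)
    exact ⟨⟨x, hx, insert e T, hT', hc', Con_trans h1 (Con_symm (key T))⟩,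
      ⟨x, hx, insert e T, hT', hc', h1⟩⟩

/-- The distance to first passage distance more than `k`. -/
theorem FPB_dist {d : ℕ} (F : Finset (Ed d)) (X Y : Finset (Vx d)) (k : ℕ)
    (ω a : Finset (Ed d)) (haω : a ⊆ ω) (hDa : ¬ ∃ x ∈ X, ∃ y ∈ Y, Fpl F k a x y) :
    (k + 1) * (ω.card - mxs (fun b => ¬ ∃ x ∈ X, ∃ y ∈ Y, Cf (b ∩ F) x y) ω) + a.card ≤
      ω.card := by
  classical
  set D0 : Finset (Ed d) → Prop := fun b => ¬ ∃ x ∈ X, ∃ y ∈ Y, Cf (b ∩ F) x y with hD0
  set cr : ℕ → Finset (Ed d) := fun j =>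
    (ω ∩ F).filter fun e => ¬ (FPB_W F X a j e.1 ↔ FPB_W F X a j (tgt e)) with hcr
  have hcrω : ∀ j, cr j ⊆ ω := fun j =>
    (Finset.filter_subset _ _).trans Finset.inter_subset_left
  have h1 : ∀ j, cr j ⊆ ω \ a := by
    intro j e he
    simp only [hcr, Finset.mem_filter, Finset.mem_inter] at he
    rw [Finset.mem_sdiff]
    exact ⟨he.1.1, fun hea => he.2 (FPB_W_cl hea he.1.2)⟩
  have h2 : ∀ i j, i < j → Disjoint (cr i) (cr j) := by
    intro i j hij
    rw [Finset.disjoint_left]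
    intro e hei hej
    simp only [hcr, Finset.mem_filter, Finset.mem_inter] at hei hej
    have h3 : FPB_W F X a i e.1 ∨ FPB_W F X a i (tgt e) := by
      by_contra hcon
      push Not at hcon
      exact hei.2 ⟨fun h => absurd h hcon.1, fun h => absurd h hcon.2⟩
    have h4 := FPB_W_step hei.1.2 h3
    exact hej.2 ⟨fun _ => FPB_W_mono hij h4.2, fun _ => FPB_W_mono hij h4.1⟩
  have h3 : ∀ j ∈ Finset.range (k + 1), ω.card - mxs D0 ω ≤ (cr j).card := by
    intro j hj
    rw [Finset.mem_range] at hj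
    have h4 : D0 (ω \ cr j) := by
      rintro ⟨x, hx, y, hy, hxy⟩
      have h5 : FPB_W F X a j x ↔ FPB_W F X a j y := by
        refine FPB_closed (s := Prod.fst) (t := tgt) ?_ hxy
        intro e he
        rw [Finset.mem_coe, Finset.mem_inter, Finset.mem_sdiff] at he
        by_contra hcon
        apply he.1.2
        simp only [hcr, Finset.mem_filter, Finset.mem_inter]
        exact ⟨⟨he.1.1, he.2⟩, hcon⟩
      have h6 : FPB_W F X a j x := ⟨x, hx, ∅, Finset.empty_subset _, by simp, Con_refl _ _⟩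
      obtain ⟨x0, hx0, h7⟩ := FPB_W_mono (show j ≤ k by omega) (h5.1 h6)
      exact hDa ⟨x0, hx0, y, hy, h7⟩
    have h5 := le_mxs (D := D0) (a := ω \ cr j) (ω := ω) Finset.sdiff_subset h4
    rw [Finset.card_sdiff_of_subset (hcrω j)] at h5
    have h6 := Finset.card_le_card (hcrω j)
    omega
  have h4 : (k + 1) * (ω.card - mxs D0 ω) ≤ ∑ j ∈ Finset.range (k + 1), (cr j).card := by
    have := Finset.card_nsmul_le_sum (Finset.range (k + 1)) (fun j => (cr j).card) _ h3
    rwa [Finset.card_range, smul_eq_mul] at this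
  have h5 : ∑ j ∈ Finset.range (k + 1), (cr j).card ≤ (ω \ a).card := by
    rw [← Finset.card_biUnion]
    · apply Finset.card_le_card
      intro x hx
      rw [Finset.mem_biUnion] at hx
      obtain ⟨j, _, hx⟩ := hx
      exact h1 j hx
    · intro i _ j _ hij
      rcases lt_or_gt_of_ne hij with h | h
      · exact h2 i j h
      · exact (h2 j i h).symm
  have h6 := Finset.card_sdiff_of_subset haω
  have h7 := Finset.card_le_card haω
  omega

theorem p_FPB (h_ADD : FKT.T_ADD) (h_BER : FKT.T_BER) (h_FKG : FKT.T_FKG) (h_LGD : T_LGD)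
    (h_HOL : T_HOL) : T_FPB := by
  intro p1 p2 q hp hpp hp1 hq
  classical
  -- the middle parameter
  obtain ⟨pm, hpm1, hpm2⟩ := exists_between hpp
  have hpm0 : 0 < pm := hp.trans hpm1
  have hpml : pm < 1 := hpm2.trans hp1
  have hq0 : 0 < q := by linarith
  obtain ⟨he0, he1, he⟩ := thc_spec hp hpm1 hpml
  set ε := thc p1 pm with hε
  have hlogε : 0 < Real.log (1 / ε) := by
    rw [one_div, Real.log_inv]
    have := Real.log_neg he0 he1
    linarith
  have hp20 : 0 < p2 := hp.trans hpp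
  set la := Real.log (xo pm) with hla
  set lb := Real.log (xo p2) with hlb
  have hlab : la < lb := Real.log_lt_log (xo_pos hpm0 hpml) (xo_lt hpm2 hp1)
  refine ⟨(lb - la) / Real.log (1 / ε), div_pos (by linarith) hlogε, ?_⟩
  intro d S F hF X Y k
  have hG : ∀ e ∈ es S, Prod.fst e ∈ S ∧ tgt e ∈ S := fun e he => mem_es.1 he
  set D0 : Finset (Ed d) → Prop := fun b => ¬ ∃ x ∈ X, ∃ y ∈ Y, Cf (b ∩ F) x y with hD0
  set D : Finset (Ed d) → Prop := fun ω => ¬ ∃ x ∈ X, ∃ y ∈ Y, Fpl F k ω x y with hDdef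
  have hD0m : ∀ a b : Finset (Ed d), a ⊆ b → D0 b → D0 a := by
    rintro a b hab hb ⟨x, hx, y, hy, h⟩
    refine hb ⟨x, hx, y, hy, Con_mono (fun _ _ h => h) ?_ h⟩
    exact_mod_cast Finset.inter_subset_inter_right hab
  have hDm : ∀ a b : Finset (Ed d), a ⊆ b → D b → D a := by
    rintro a b hab hb ⟨x, hx, y, hy, T, hT, hc, h⟩
    refine hb ⟨x, hx, y, hy, T, hT, hc, Con_mono (fun _ _ h => h) ?_ h⟩
    exact_mod_cast Finset.union_subset_union_left (Finset.inter_subset_inter_right hab)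
  show Ex Prod.fst tgt (no (Vx d)) S (es S) p2 q (fun ω => ind (D ω)) ≤
    (Ex Prod.fst tgt (no (Vx d)) S (es S) p1 q fun ω => ind (D0 ω)) ^ _
  by_cases h0 : D ∅
  swap
  · have h1 : Ex Prod.fst tgt (no (Vx d)) S (es S) p2 q (fun ω => ind (D ω)) =
        Ex Prod.fst tgt (no (Vx d)) S (es S) p2 q fun _ => 0 := by
      apply Ex_congr
      intro ω _
      apply ind_false
      intro h
      exact h0 (hDm ∅ ω (Finset.empty_subset ω) h)
    rw [h1, Ex_const hp20 hp1 hq0]
    exact Real.rpow_nonneg (Ex_nonneg hp (hpp.trans hp1) hq0 fun ω _ => ind_nonneg _) _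
  have h00 : D0 ∅ := by
    rintro ⟨x, hx, y, hy, h⟩
    refine h0 ⟨x, hx, y, hy, ∅, Finset.empty_subset _, by simp, ?_⟩
    refine Con_mono (fun _ _ h => h) ?_ h
    exact_mod_cast Finset.subset_union_left
  -- the distance
  set h : Finset (Ed d) → ℝ := fun ω => (ω.card : ℝ) - (mxs D0 ω : ℝ) with hh
  set N : Finset (Ed d) → ℝ := fun ω => ((k : ℝ) + 1) * h ω with hN
  have hNspec : ∀ ω a : Finset (Ed d), ω ⊆ es S → a ⊆ ω → D a → N ω + a.card ≤ ω.card := by
    intro ω a _ haω hDa
    have k1 : (k + 1) * (ω.card - mxs D0 ω) + a.card ≤ ω.card := FPB_dist F X Y k ω a haω hDa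
    have k2 : mxs D0 ω ≤ ω.card := mxs_le ω
    have k3 : ((k : ℝ) + 1) * ((ω.card : ℝ) - (mxs D0 ω : ℝ)) + a.card ≤ ω.card := by
      have := (Nat.cast_le (α := ℝ)).2 k1
      push_cast [Nat.cast_sub k2] at this
      exact this
    exact k3
  -- the failure probability
  set π0 : ℝ := Ex Prod.fst tgt (no (Vx d)) S (es S) p1 q fun ω => ind (D0 ω) with hπ
  have hπ0 : 0 < π0 :=
    Ex_pos hp (hpp.trans hp1) hq0 (fun ω _ => ind_nonneg _) (Finset.empty_subset _)
      (by rw [ind_true h00]; exact one_pos)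
  set M : ℝ := ((k : ℝ) + 1) * (Real.log (1 / π0) / Real.log (1 / ε)) with hM
  have hMle : ∀ l, la ≤ l → l ≤ lb → M ≤ Ex Prod.fst tgt (no (Vx d)) S (es S) (lg l) q N := by
    intro l h1 h2
    rw [hN, Ex_mul_left]
    apply mul_le_mul_of_nonneg_left _ (by positivity)
    have k1 := thn_dist Prod.fst tgt (no (Vx d)) S (es S) h_ADD h_BER hp hpm1 hpml hq hG he0 he1
      he D0 hD0m h00
    have k2 : Real.log (1 / π0) / Real.log (1 / ε) ≤
        Ex Prod.fst tgt (no (Vx d)) S (es S) pm q h := by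
      rw [div_le_iff₀ hlogε, mul_comm]
      exact k1
    have hlg1 : lg l < 1 := by
      unfold lg
      have h := Real.exp_pos l
      rw [div_lt_one (by linarith)]
      linarith
    have hlgm : pm ≤ lg l := by
      rw [← lg_log hpm0 hpml, ← hla]
      unfold lg
      rw [div_le_div_iff₀ (by positivity) (by positivity)]
      have := Real.exp_le_exp.mpr h1
      nlinarith
    have k3 := h_HOL (Vx d) (Ed d) Prod.fst tgt (no (Vx d)) (no (Vx d)) S (es S) pm (lg l) q hpm0
      hlgm hlg1 hq (fun _ _ h => h) hG h (fun a b hab _ => dist_mono hD0m h00 a b hab)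
    exact k2.trans k3
  have hfin := glmI Prod.fst tgt (no (Vx d)) S (es S) h_FKG h_LGD hq hG D hDm h0 N hNspec M la lb
    hlab.le hMle
  have e2 : lg lb = p2 := lg_log hp20 hp1
  have e3 : lg la = pm := lg_log hpm0 hpml
  rw [e2, e3] at hfin
  have h1 : Ex Prod.fst tgt (no (Vx d)) S (es S) pm q (fun ω => ind (D ω)) ≤ 1 :=
    Ex_le_one hpm0 hpml hq0 fun ω _ => ind_le_one _
  have h2 : Ex Prod.fst tgt (no (Vx d)) S (es S) p2 q (fun ω => ind (D ω)) ≤
      Real.exp (-(M * (lb - la))) := by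
    refine hfin.trans ?_
    have := mul_le_mul_of_nonneg_left h1 (Real.exp_pos (-(M * (lb - la)))).le
    rwa [mul_one] at this
  refine h2.trans (le_of_eq ?_)
  rw [Real.rpow_def_of_pos hπ0]
  congr 1
  rw [hM, one_div π0, Real.log_inv]
  ring

end Pool.Agent.FKS
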