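import Pool.Agent.FKS.TargetsB

/-!
# Project FKS, part B: PRA, the first passage distance of two balls
-/

set_option autoImplicit false

namespace Pool.Agent.FKS

open Filter MeasureTheory Pool.Agent.FKP
open Pool.Agent.FKT hiding ind

theorem PRA_hyp {d : ℕ} {p0 p1 q : ℝ} (h : Hyp d p0 p1 q) : Hyp d p0 ((p0 + p1) / 2) q :=
  ⟨h.hd, h.h0, by linarith [h.h01], by linarith [h.h01, h.h1], h.hq, h.per⟩

/-- The numerical bound. -/
theorem PRA_num (c0 C0 : ℝ) (D K : ℕ) (hc0 : 0 < c0) (hC0 : 0 < C0) : ∃ s0 : ℕ,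
    2 ≤ s0 ∧ 2 * K ≤ s0 ∧ K + 1 ≤ s0 ∧ ∀ s r : ℕ, s0 ≤ s → s ≤ r →
      C0 * ((s : ℝ) ^ (-c0) + ((2 * K * r : ℕ) : ℝ) ^ D / ((r ^ (D + 2) : ℕ) : ℝ) +
        ((r ^ (D + 2) : ℕ) : ℝ) ^ D / (((r ^ (D + 2)) ^ (D + 1) : ℕ) : ℝ)) ≤
      (s : ℝ) ^ (-(min c0 1 / 2)) := by
  set c2 : ℝ := min c0 1 / 2 with hc2
  have hc2p : 0 < c2 := by
    have := lt_min hc0 one_pos
    positivity
  refine ⟨max (max 2 (2 * K)) (max (K + 1) (max ((2 * K) ^ D) ⌈(3 * C0) ^ (1 / c2)⌉₊)), ?_, ?_, ?_,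
    ?_⟩
  · exact le_trans (le_max_left _ _) (le_max_left _ _)
  · exact le_trans (le_max_right _ _) (le_max_left _ _)
  · exact le_trans (le_max_left _ _) (le_max_right _ _)
  · intro s r hs hr
    have h2 : 2 ≤ s := le_trans (le_trans (le_max_left _ _) (le_max_left _ _)) hs
    have hD : (2 * K) ^ D ≤ s := le_trans (le_trans (le_trans (le_max_left _ _)
      (le_max_right _ _)) (le_max_right _ _)) hs
    have hC : (3 * C0) ^ (1 / c2) ≤ (s : ℝ) := by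
      have : ⌈(3 * C0) ^ (1 / c2)⌉₊ ≤ s := le_trans (le_trans (le_trans (le_max_right _ _)
        (le_max_right _ _)) (le_max_right _ _)) hs
      exact (Nat.le_ceil _).trans (by exact_mod_cast this)
    have hs1 : (1 : ℝ) ≤ s := by
      have : (2 : ℝ) ≤ s := by exact_mod_cast h2
      linarith
    have hs0 : (0 : ℝ) < s := by linarith
    have hr1 : (s : ℝ) ≤ r := by exact_mod_cast hr
    have hr0 : (0 : ℝ) < r := by linarith
    -- the inverse of `s`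
    have hinv : (1 : ℝ) / s ≤ (s : ℝ) ^ (-(2 * c2)) := by
      have h1 : 2 * c2 ≤ 1 := by
        rw [hc2]
        have := min_le_right c0 1
        linarith
      rw [one_div, ← Real.rpow_neg_one]
      exact Real.rpow_le_rpow_of_exponent_le hs1 (by linarith)
    have ha : (s : ℝ) ^ (-c0) ≤ (s : ℝ) ^ (-(2 * c2)) := by
      have h1 : 2 * c2 ≤ c0 := by
        rw [hc2]
        have := min_le_left c0 1
        linarith
      exact Real.rpow_le_rpow_of_exponent_le hs1 (by linarith)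
    have hb : ((2 * K * r : ℕ) : ℝ) ^ D / ((r ^ (D + 2) : ℕ) : ℝ) ≤ 1 / s := by
      have e1 : ((2 * K * r : ℕ) : ℝ) ^ D = (((2 * K) ^ D : ℕ) : ℝ) * (r : ℝ) ^ D := by
        push_cast
        ring
      have e2 : ((r ^ (D + 2) : ℕ) : ℝ) = (r : ℝ) ^ D * ((r : ℝ) * r) := by
        push_cast
        ring
      rw [e1, e2, div_le_div_iff₀ (by positivity) hs0]
      have h3 : (((2 * K) ^ D : ℕ) : ℝ) ≤ s := by exact_mod_cast hD
      have h4 : (((2 * K) ^ D : ℕ) : ℝ) * s ≤ r * r := by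
        calc (((2 * K) ^ D : ℕ) : ℝ) * s ≤ s * s := by
              apply mul_le_mul_of_nonneg_right h3 hs0.le
          _ ≤ r * r := mul_le_mul hr1 hr1 hs0.le hr0.le
      calc (((2 * K) ^ D : ℕ) : ℝ) * (r : ℝ) ^ D * s
          = (r : ℝ) ^ D * ((((2 * K) ^ D : ℕ) : ℝ) * s) := by ring
        _ ≤ (r : ℝ) ^ D * (r * r) := mul_le_mul_of_nonneg_left h4 (by positivity)
        _ = 1 * ((r : ℝ) ^ D * (r * r)) := by ring
    have hc : ((r ^ (D + 2) : ℕ) : ℝ) ^ D / (((r ^ (D + 2)) ^ (D + 1) : ℕ) : ℝ) ≤ 1 / s := by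
      have e0 : (s : ℝ) ≤ ((r ^ (D + 2) : ℕ) : ℝ) := by
        have : r ≤ r ^ (D + 2) := Nat.le_self_pow (by omega) r
        exact hr1.trans (by exact_mod_cast this)
      have e1 : (((r ^ (D + 2)) ^ (D + 1) : ℕ) : ℝ) =
          ((r ^ (D + 2) : ℕ) : ℝ) ^ D * ((r ^ (D + 2) : ℕ) : ℝ) := by
        push_cast
        ring
      have e2 : (0 : ℝ) < ((r ^ (D + 2) : ℕ) : ℝ) := by
        push_cast
        positivity
      rw [e1, div_le_div_iff₀ (by positivity) hs0]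
      calc ((r ^ (D + 2) : ℕ) : ℝ) ^ D * s
          ≤ ((r ^ (D + 2) : ℕ) : ℝ) ^ D * ((r ^ (D + 2) : ℕ) : ℝ) :=
            mul_le_mul_of_nonneg_left e0 (by positivity)
        _ = 1 * (((r ^ (D + 2) : ℕ) : ℝ) ^ D * ((r ^ (D + 2) : ℕ) : ℝ)) := by ring
    have h3C : 3 * C0 ≤ (s : ℝ) ^ c2 := by
      calc 3 * C0 = ((3 * C0) ^ (1 / c2)) ^ c2 := by
            rw [← Real.rpow_mul (by positivity), one_div, inv_mul_cancel₀ hc2p.ne', Real.rpow_one]
        _ ≤ (s : ℝ) ^ c2 := Real.rpow_le_rpow (by positivity) hC hc2p.le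
    calc C0 * ((s : ℝ) ^ (-c0) + ((2 * K * r : ℕ) : ℝ) ^ D / ((r ^ (D + 2) : ℕ) : ℝ) +
        ((r ^ (D + 2) : ℕ) : ℝ) ^ D / (((r ^ (D + 2)) ^ (D + 1) : ℕ) : ℝ))
        ≤ C0 * ((s : ℝ) ^ (-(2 * c2)) + (s : ℝ) ^ (-(2 * c2)) + (s : ℝ) ^ (-(2 * c2))) := by
          apply mul_le_mul_of_nonneg_left _ hC0.le
          linarith
      _ = 3 * C0 * (s : ℝ) ^ (-(2 * c2)) := by ring
      _ ≤ (s : ℝ) ^ c2 * (s : ℝ) ^ (-(2 * c2)) :=
          mul_le_mul_of_nonneg_right h3C (by positivity)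
      _ = (s : ℝ) ^ (-c2) := by
          rw [← Real.rpow_add hs0]
          congr 1
          ring

theorem p_PRA (hK : T_KFR) (hF : T_FPB) (hG : T_GTR) (hD : T_DPM) : T_PRA := by
  intro d p0 p1 q h
  have hyp' := PRA_hyp h
  obtain ⟨c0, C0, D, hc0, hC0, hKF⟩ := hK d p0 ((p0 + p1) / 2) q hyp'
  obtain ⟨c1, hc1, hFP⟩ := hF ((p0 + p1) / 2) p1 q (hyp'.h0.trans hyp'.h01)
    (by linarith [h.h01]) h.h1 h.hq
  have hp1 : 0 < p1 := h.h0.trans h.h01
  have hq0 : 0 < q := lt_of_lt_of_le one_pos h.hq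
  have hp' : 0 < (p0 + p1) / 2 := hyp'.h0.trans hyp'.h01
  refine ⟨D + 3, (D + 2) * (D + 1) + 1, c1 * (min c0 1 / 2), by omega, by nlinarith, ?_, ?_⟩
  · have := lt_min hc0 one_pos
    positivity
  intro K hK1
  obtain ⟨s0, h20, h2K, hK2, hnum⟩ := PRA_num c0 C0 D K hc0 hC0
  refine ⟨s0, ?_⟩
  intro s r k hs hr z hz v hv
  have hr2 : 2 ≤ r := by omega
  have hrK : K + 1 ≤ r := by omega
  have hr2K : 2 * K ≤ r := by omega
  have hs1 : 1 ≤ s := by omega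
  have hs0 : (0 : ℝ) < s := by exact_mod_cast (by omega : 0 < s)
  set R' := r ^ (D + 2) with hR'
  set N' := R' ^ (D + 1) with hN'
  have hR'1 : 1 ≤ R' := Nat.one_le_pow _ _ (by omega)
  have hRN : R' ≤ N' := Nat.le_self_pow (by omega) R'
  have hrR : r ≤ R' := Nat.le_self_pow (by omega) r
  set w : Vx d := v - z with hw
  have hwm : w ∈ bx (0 : Vx d) (2 * K * r) := by
    rw [mem_bx] at hz hv ⊢
    intro i
    have a1 := abs_le.mp (hz i)
    have a2 := abs_le.mp (hv i)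
    simp only [hw, Pi.sub_apply, Pi.zero_apply, sub_zero] at a1 a2 ⊢
    rw [abs_le]
    push_cast at a1 a2 ⊢
    constructor <;> nlinarith
  -- connection at the middle parameter
  have hconn : fr (bx (0 : Vx d) N') ((p0 + p1) / 2) q (fun ω => ind (¬ ∃ x ∈ bx (0 : Vx d) s,
      ∃ y ∈ bx w s, Cf (ω ∩ eb (0 : Vx d) R') x y)) ≤ (s : ℝ) ^ (-(min c0 1 / 2)) := by
    have h1 := hKF s (2 * K * r) R' N' hs1 (by nlinarith) (by
      calc 2 * K * r ≤ r * r := Nat.mul_le_mul_right r hr2K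
        _ = r ^ 2 := by ring
        _ ≤ r ^ (D + 2) := Nat.pow_le_pow_right (by omega) (by omega)) hRN w hwm
    have h2 := hnum s r hs hr
    have h3 : fr (bx (0 : Vx d) N') ((p0 + p1) / 2) q (fun ω => ind (¬ ∃ x ∈ bx (0 : Vx d) s,
        ∃ y ∈ bx w s, Cf (ω ∩ eb (0 : Vx d) R') x y)) = 1 - fr (bx (0 : Vx d) N')
        ((p0 + p1) / 2) q (fun ω => ind (∃ x ∈ bx (0 : Vx d) s,
        ∃ y ∈ bx w s, Cf (ω ∩ eb (0 : Vx d) R') x y)) := by
      unfold fr fw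
      rw [← Ex_const hp' hyp'.h1 hq0 1, ← Ex_sub]
      exact Ex_congr fun ω _ => ind_not _
    rw [h3]
    linarith
  -- first passage
  have hfp : P0 (0 : Vx d) N' p1 q (fun ω => ¬ ∃ x ∈ bx (0 : Vx d) s, ∃ y ∈ bx w s,
      Fpl (eb 0 R') k ω x y) ≤ (s : ℝ) ^ (-(c1 * (min c0 1 / 2) * ((k : ℝ) + 1))) := by
    have h1 := hFP d (bx (0 : Vx d) N') (eb 0 R') (by
      rw [← es_bx]
      apply FKP.es_mono
      have h0 : (0 : Vx d) ∈ bx (0 : Vx d) 0 := by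
        rw [mem_bx]
        simp
      exact bx_sub h0 (by omega)) (bx 0 s) (bx w s) k
    unfold P0
    refine h1.trans ?_
    have h2 : (fr (bx (0 : Vx d) N') ((p0 + p1) / 2) q (fun ω => ind (¬ ∃ x ∈ bx (0 : Vx d) s,
        ∃ y ∈ bx w s, Cf (ω ∩ eb (0 : Vx d) R') x y))) ^ (c1 * ((k : ℝ) + 1)) ≤
        ((s : ℝ) ^ (-(min c0 1 / 2))) ^ (c1 * ((k : ℝ) + 1)) := by
      apply Real.rpow_le_rpow _ hconn (by positivity)
      exact Ex_nonneg hp' hyp'.h1 hq0 fun ω _ => ind_nonneg _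
    refine h2.trans (le_of_eq ?_)
    rw [← Real.rpow_mul hs0.le]
    congr 1
    ring
  -- translation
  have htr := (hG d).2.2 z w N' s R' k p1 q
  have hwz : w + z = v := by rw [hw]; abel
  rw [hwz] at htr
  -- domain
  have hsub1 : bx z N' ⊆ bx (0 : Vx d) (r ^ ((D + 2) * (D + 1) + 1)) := by
    apply bx_sub hz
    have e1 : r ^ ((D + 2) * (D + 1) + 1) = r * N' := by
      rw [hN', hR', ← pow_mul]
      ring
    have e2 : r ≤ N' := hrR.trans hRN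
    rw [e1]
    calc K * r + N' ≤ K * N' + N' := by nlinarith
      _ = (K + 1) * N' := by ring
      _ ≤ r * N' := Nat.mul_le_mul_right _ hrK
  have hsub2 : eb z R' ⊆ eb (0 : Vx d) (r ^ (D + 3)) := by
    rw [← es_bx, ← es_bx]
    apply FKP.es_mono
    apply bx_sub hz
    have e1 : r ^ (D + 3) = r * R' := by
      rw [hR']
      ring
    rw [e1]
    calc K * r + R' ≤ K * R' + R' := by nlinarith
      _ = (K + 1) * R' := by ring
      _ ≤ r * R' := Nat.mul_le_mul_right _ hrK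
  have hdm := hD d (bx (0 : Vx d) (r ^ ((D + 2) * (D + 1) + 1))) z N' p1 q hp1 h.h1 h.hq hsub1
    (fun ω => ∃ x ∈ bx z s, ∃ y ∈ bx v s, Fpl (eb z R') k ω x y) (by
      rintro a b hab ⟨x, hx, y, hy, hf⟩
      exact ⟨x, hx, y, hy, Fpl_mono subset_rfl le_rfl (Finset.inter_subset_left.trans hab) hf⟩)
  calc P0 (0 : Vx d) (r ^ ((D + 2) * (D + 1) + 1)) p1 q
        (fun ω => ¬ ∃ x ∈ bx z s, ∃ y ∈ bx v s, Fpl (eb 0 (r ^ (D + 3))) k ω x y)
      ≤ fr (bx (0 : Vx d) (r ^ ((D + 2) * (D + 1) + 1))) p1 q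
        (fun ω => ind (¬ ∃ x ∈ bx z s, ∃ y ∈ bx v s, Fpl (eb z R') k ω x y)) := by
        unfold P0 fr fw
        apply Ex_mono hp1 h.h1 hq0
        intro ω _
        apply ind_mono
        rintro h1 ⟨x, hx, y, hy, hf⟩
        exact h1 ⟨x, hx, y, hy, Fpl_mono hsub2 le_rfl Finset.inter_subset_left hf⟩
    _ ≤ _ := hdm
    _ = _ := htr
    _ ≤ _ := hfp

end Pool.Agent.FKS
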