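import Pool.Agent.FKS.AssemblyU
import Pool.Agent.FKS.P_GTR
import Pool.Agent.FKS.P_TRP
import Pool.Agent.FKS.P_PRA
import Pool.Agent.FKS.P_PRB
import Pool.Agent.FKS.P_PST
import Pool.Agent.FKS.P_BAS
import Pool.Agent.FKS.P_NUL
import Pool.Agent.FKS.P_LOX
import Pool.Agent.FKS.P_FPB

/-!
# Project FKS: assembly of part B (low scales)
-/

set_option autoImplicit false

namespace Pool.Agent.FKS

theorem b_TRP : T_TRP := p_TRP FKP.p_AUT
theorem b_DPM : T_DPM := p_DPM FKP.g_DMC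
theorem b_FPB : T_FPB := p_FPB FKT.p_ADD FKT.p_BER FKT.f_FKG FKP.g_LGD FKP.g_HOL
theorem b_GTR (hG : T_GLT) : T_GTR := p_GTR b_TRP hG
theorem b_PRA (hG : T_GLT) : T_PRA := p_PRA g_KFR b_FPB (b_GTR hG) b_DPM
theorem b_PRB : T_PRB := p_PRB FKP.g_SEQ
theorem b_PST (hG : T_GLT) : T_PST := p_PST (b_GTR hG) (b_PRA hG) b_PRB

/-- Low scales. -/
theorem b_LOW (hG : T_GLT) : T_LOW := p_LOX (b_PST hG) (p_BAS FKP.p_BCN) p_NUL b_DPM

end Pool.Agent.FKS
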