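import Pool.Agent.FKP.Assembly
import Pool.Agent.FKS.P_SLI
import Pool.Agent.FKS.P_TWO
import Pool.Agent.FKS.P_EXT
import Pool.Agent.FKS.P_SPD
import Pool.Agent.FKS.P_BEP
import Pool.Agent.FKS.P_ISL
import Pool.Agent.FKS.P_CNB
import Pool.Agent.FKS.P_DET
import Pool.Agent.FKS.P_STM
import Pool.Agent.FKS.P_ITM
import Pool.Agent.FKS.P_INM
import Pool.Agent.FKS.P_NMM
import Pool.Agent.FKS.P_TRP
import Pool.Agent.FKS.P_GLT
import Pool.Agent.FKS.P_GLI
import Pool.Agent.FKS.P_STA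
import Pool.Agent.FKS.P_GLP
import Pool.Agent.FKS.P_GNC
import Pool.Agent.FKS.P_MLU

/-!
# Project FKS, part D: assembly
-/

set_option autoImplicit false

namespace Pool.Agent.FKS

/-- The giant exists, from the top scales, the box connection and the sprinkling. -/
theorem mlu_of (hTOP : T_TOP) (hBTF : T_BTF) (hSPR : T_SPR) : T_MLU := by
  have hTRP := p_TRP FKP.p_AUT
  have hDPM := p_DPM FKP.g_DMC
  have hDET := p_DET (p_TWO p_SLI) p_EXT
  exact p_MLU hTOP hBTF hSPR FKP.g_HOL (p_ITM (p_STM hDET (p_ISL p_SPD p_BEP) p_CNB))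
    (p_STA p_INM hDPM hTRP p_BFT) (p_GLP p_GLI hDPM hTRP p_GLT) p_GNC p_NMM

end Pool.Agent.FKS
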