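import Pool.Agent.FKP.Basic
import Pool.Agent.FKT.DefsB

/-!
# Project FKS (MP_552f07_pr): slab percolation and both tails for all real `q ≥ 1`, all `d ≥ 2`.
Definitions shared by all parts (ideas row 2495).

The notions of FKT and FKP are used: `Ex`, `EB`, `Con`, `Cn`, `bx`, `bd`, `eb`, `es`, `phi`, `fr`,
`fw`, `tp`, `Cf`, `ind` (the one of FKP), `IsWired`, `Inf0`, `pc`, `Slab`, `Tails`. All good events
are increasing, all probabilities are for the free measure of a finite box (`P0`).
-/

set_option autoImplicit false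

namespace Pool.Agent.FKS

open Filter MeasureTheory Pool.Agent.FKP
open Pool.Agent.FKT hiding ind

section defs

variable {d : ℕ}

/-- `Q` is an increasing event. -/
def Inc {E : Type} (Q : Finset E → Prop) : Prop := ∀ a b : Finset E, a ⊆ b → Q a → Q b

/-- The probability of the event `Q` for the free random-cluster measure of the box `x + Λ_N`. -/
noncomputable def P0 (x : Vx d) (N : ℕ) (p q : ℝ) (Q : Finset (Ed d) → Prop) : ℝ :=
  fr (bx x N) p q fun ω => ind (Q ω)

/-- `x` and `y` are connected by the open edges of `F` and at most `k` further edges of `F` (first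
passage distance at most `k` in `F`). -/
def Fpl (F : Finset (Ed d)) (k : ℕ) (ω : Finset (Ed d)) (x y : Vx d) : Prop :=
  ∃ T : Finset (Ed d), T ⊆ F ∧ T.card ≤ k ∧ Cf ((ω ∩ F) ∪ T) x y

/-- `x` and `y` have distance at least `D` in the sup norm. -/
def Far (D : ℕ) (x y : Vx d) : Prop := ∃ i, (D : ℤ) ≤ |x i - y i|

/-- `K` is connected in the lattice (by edges with both ends in `K`). -/
def Lc (K : Finset (Vx d)) : Prop := ∀ x ∈ K, ∀ y ∈ K, Cf (es K) x y

/-- `K` is connected in the lattice and has diameter at least `r`. -/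
def Lcd (r : ℕ) (K : Finset (Vx d)) : Prop := Lc K ∧ ∃ x ∈ K, ∃ y ∈ K, Far r x y

/-- The gluing event of the ball `u + Λ_ρ`: any two lattice-connected subsets of the ball of
diameter at least `r` are joined in `u + Λ_R` by opening at most `k` edges. (Increasing and local:
the sets `K`, `C` do not depend on `ω`.) -/
def Gl (u : Vx d) (ρ r R k : ℕ) (ω : Finset (Ed d)) : Prop :=
  ∀ K C : Finset (Vx d), K ⊆ bx u ρ → C ⊆ bx u ρ → Lcd r K → Lcd r C →
    ∃ x ∈ K, ∃ y ∈ C, Fpl (eb u R) k ω x y

/-- The giant: some cluster of the box `x + Λ_{32 L}` meets all the boxes `y + Λ_ξ`, `y ∈ x + Λ_L`.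
(Increasing and local.) -/
def Gnt (x : Vx d) (L ξ : ℕ) (ω : Finset (Ed d)) : Prop :=
  ∃ x0 : Vx d, ∀ y ∈ bx x L, ∃ z ∈ bx y ξ, Cf (ω ∩ eb x (32 * L)) x0 z

/-- The parameter `p0` percolates (wired measure). -/
def Per (d : ℕ) (p0 q : ℝ) : Prop :=
  ∃ μ : Measure (Ed d → Bool), IsWired d p0 q μ ∧ 0 < μ.real (Inf0 d)

/-- Hypotheses common to all parts: `p1` is above a percolating parameter `p0`. -/
structure Hyp (d : ℕ) (p0 p1 q : ℝ) : Prop where
  hd : 2 ≤ d
  h0 : 0 < p0
  h01 : p0 < p1
  h1 : p1 < 1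
  hq : 1 ≤ q
  per : Per d p0 q

end defs

end Pool.Agent.FKS
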