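import Pool.Agent.FKP.Final
import Pool.Agent.FKS.Main

/-!
# Project FKS: the final theorem from slab percolation and the planar case
-/

set_option autoImplicit false

namespace Pool.Agent.FKS

open Filter MeasureTheory Pool.Agent.FKP
open Pool.Agent.FKT hiding ind

/-- Above the critical point some smaller parameter percolates. -/
theorem hyp_of_pc (d : ℕ) (q p : ℝ) (hd : 2 ≤ d) (hq : 1 ≤ q) (hp : pc d q < p) (hp1 : p < 1) :
    ∃ p0 : ℝ, Hyp d p0 p q := by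
  have hb : BddAbove {p : ℝ | 0 ≤ p ∧ p ≤ 1 ∧ ∀ μ : Measure (Ed d → Bool),
      IsWired d p q μ → μ (Inf0 d) = 0} := ⟨1, fun x hx => hx.2.1⟩
  have hpc0 : 0 ≤ pc d q := by
    unfold pc
    exact Real.sSup_nonneg (fun x hx => hx.1)
  obtain ⟨p0, h0a, h0b⟩ := exists_between hp
  have hp0 : 0 < p0 := lt_of_le_of_lt hpc0 h0a
  have hnot : p0 ∉ {p : ℝ | 0 ≤ p ∧ p ≤ 1 ∧ ∀ μ : Measure (Ed d → Bool),
      IsWired d p q μ → μ (Inf0 d) = 0} := by
    intro hmem
    exact absurd (le_csSup hb hmem) (not_le.mpr h0a)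
  have hex : Per d p0 q := by
    by_contra hcon
    apply hnot
    refine ⟨hp0.le, (h0b.trans hp1).le, fun μ hμ => ?_⟩
    by_contra hne
    apply hcon
    have := hμ.prob
    exact ⟨μ, hμ, ENNReal.toReal_pos hne (measure_ne_top _ _)⟩
  exact ⟨p0, ⟨hd, hp0, h0b, hp1, hq, hex⟩⟩

/-- Both tails, all dimensions. -/
theorem tails_full (hS : T_SLS) (hT : T_TWD) (d : ℕ) (q p : ℝ) (hd : 2 ≤ d) (hq : 1 ≤ q)
    (hp : pc d q < p) (hp1 : p ≤ 1) : Tails d p q := by
  rcases eq_or_lt_of_le hp1 with rfl | hlt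
  · refine fun μ hμ => ⟨1, 1, one_pos, one_pos, fun n hn => ?_⟩
    have h0 := p_ONE d hd q hq μ hμ
    have h1 : μ.real (Rad d n) = 0 := by
      have : μ (Rad d n) = 0 := measure_mono_null (fun ω hω => hω.1) h0
      simp [Measure.real, this]
    have h2 : μ.real (Vol d n) = 0 := by
      have : μ (Vol d n) = 0 := measure_mono_null (fun ω hω => hω.1) h0
      simp [Measure.real, this]
    rw [h1, h2]
    exact ⟨(Real.exp_pos _).le, (Real.exp_pos _).le⟩
  · obtain ⟨p0, h⟩ := hyp_of_pc d q p hd hq hp hlt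
    rcases Nat.lt_or_ge d 3 with h3 | h3
    · obtain rfl : d = 2 := by omega
      exact hT p0 p q h
    · obtain ⟨L, α, hSl⟩ := hS d p0 p q h3 h
      exact g_REN d hd p q (h.h0.trans h.h01) hlt hq L α hSl

/-- The full theorem, in the form used for the hand-in. -/
theorem full (hS : T_SLS) (hT : T_TWD) (d : ℕ) (q p : ℝ) (hd : 2 ≤ d) (hq : 1 ≤ q)
    (hp : pc d q < p) (hp1 : p ≤ 1) :
    ∃ μ : Measure (Ed d → Bool), IsWired d p q μ ∧
      (∀ ν : Measure (Ed d → Bool), IsWired d p q ν → ν = μ) ∧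
      ∃ σ γ : ℝ, 0 < σ ∧ 0 < γ ∧ ∀ n : ℕ, 1 ≤ n →
        μ.real {ω | (C0 ω).Finite ∧ ∃ v ∈ C0 ω, ∃ i, (n : ℤ) ≤ |v i|} ≤
          Real.exp (-(n * σ)) ∧
        μ.real {ω | (C0 ω).Finite ∧ n ≤ (C0 ω).ncard} ≤
          Real.exp (-(γ * (n : ℝ) ^ (((d : ℝ) - 1) / d))) := by
  obtain ⟨μ, hμ⟩ := wired_exists d p q (by omega) ((pc_nonneg d q).trans_lt hp) hp1 hq
  exact ⟨μ, hμ, fun ν hν => wired_unique hμ hν, tails_full hS hT d q p hd hq hp hp1 μ hμ⟩

/-- The slab critical points tend to the critical point. -/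
theorem full_lim (hS : T_SLS) (d : ℕ) (q : ℝ) (hd : 3 ≤ d) (hq : 1 ≤ q) :
    Filter.Tendsto (fun L : ℕ => pch d q L) Filter.atTop (nhds (pc d q)) :=
  g_PCH d q (by omega) hq fun p hp hp1 => by
    obtain ⟨p0, h⟩ := hyp_of_pc d q p (by omega) hq hp hp1
    exact hS d p0 p q hd h

end Pool.Agent.FKS
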