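import Pool.Agent.FKT.Defs

/-!
# Project FKS, part D: an isoperimetric lemma in boxes

`ISQ`: a set `V` of a box with `n = 2 m + 1` points in every direction has at most `b ^ 2` points,
or its complement has, or there are at least `b / K ^ d` points of `V`, pairwise at distance at
least `K`, each with a neighbour (in the same box) outside `V`.

Proof: a line in direction `i` is mixed if it contains points of `V` and points of the complement.
Suppose that there are less than `b` mixed lines in every direction. If the line in direction `i`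
of `x` is not mixed, then for more than half of the points `y` of the box the path from `x` to `y`
which changes first the coordinate `i` and then the other coordinates in order uses only lines
which are not mixed, so `x ∈ V ↔ y ∈ V`. So either every point of `V`, or every point of the
complement, has only mixed lines; and such a point is determined by its lines in two directions.
-/

set_option autoImplicit false

namespace Pool.Agent.FKS

open Pool.Agent.FKT Finset

namespace Iso

variable {d : ℕ}

/-- The box. -/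
def X (d : ℕ) (I : Finset ℤ) : Finset (Vx d) := Fintype.piFinset fun _ => I

theorem mem_X {I : Finset ℤ} {x : Vx d} : x ∈ X d I ↔ ∀ i, x i ∈ I := by
  simp [X]

/-- The line in direction `i` is mixed. -/
def Mix (I : Finset ℤ) (V : Finset (Vx d)) (i : Fin d) (x : Vx d) : Prop :=
  ∃ s ∈ I, ∃ t ∈ I, Function.update x i s ∈ V ∧ Function.update x i t ∉ V

open Classical in
/-- The base points of the mixed lines. -/
noncomputable def M (I : Finset ℤ) (V : Finset (Vx d)) (c : ℤ) (i : Fin d) : Finset (Vx d) :=
  (X d I).filter fun x => x i = c ∧ Mix I V i x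

theorem upd_mem {I : Finset ℤ} {x : Vx d} (hx : x ∈ X d I) (i : Fin d) {s : ℤ} (hs : s ∈ I) :
    Function.update x i s ∈ X d I := by
  rw [mem_X] at *
  intro j
  by_cases h : j = i
  · subst h; simpa using hs
  · simpa [Function.update_of_ne h] using hx j

theorem mix_upd {I : Finset ℤ} {V : Finset (Vx d)} {i : Fin d} {x : Vx d} {s : ℤ} :
    Mix I V i (Function.update x i s) ↔ Mix I V i x := by
  simp [Mix]

/-- Points of a line which is not mixed. -/
theorem pure {I : Finset ℤ} {V : Finset (Vx d)} {i : Fin d} {x : Vx d} (h : ¬ Mix I V i x)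
    {s t : ℤ} (hs : s ∈ I) (ht : t ∈ I) :
    Function.update x i s ∈ V ↔ Function.update x i t ∈ V := by
  constructor
  · intro h1
    by_contra h2
    exact h ⟨s, hs, t, ht, h1, h2⟩
  · intro h1
    by_contra h2
    exact h ⟨t, ht, s, hs, h1, h2⟩

theorem base_mem {I : Finset ℤ} {V : Finset (Vx d)} {c : ℤ} (hc : c ∈ I) {i : Fin d} {x : Vx d}
    (hx : x ∈ X d I) (h : Mix I V i x) : Function.update x i c ∈ M I V c i := by
  classical
  rw [M, mem_filter]
  exact ⟨upd_mem hx i hc, by simp, mix_upd.mpr h⟩

/-- The intermediate points of the path. -/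
def w (i : Fin d) (x y : Vx d) (j : ℕ) : Vx d := fun l => if l.val < j ∨ l = i then y l else x l

theorem w_zero (i : Fin d) (x y : Vx d) : w i x y 0 = Function.update x i (y i) := by
  funext l
  by_cases h : l = i
  · subst h; simp [w]
  · simp [w, h]

theorem w_last (i : Fin d) (x y : Vx d) : w i x y d = y := by
  funext l
  simp [w, l.isLt]

theorem w_mem {I : Finset ℤ} {i : Fin d} {x y : Vx d} (hx : x ∈ X d I) (hy : y ∈ X d I) (j : ℕ) :
    w i x y j ∈ X d I := by
  rw [mem_X] at *
  intro l
  unfold w
  split
  · exact hy l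
  · exact hx l

theorem w_succ (i : Fin d) (x y : Vx d) (j : Fin d) :
    w i x y (j.val + 1) = Function.update (w i x y j.val) j (y j) := by
  funext l
  by_cases h : l = j
  · subst h; simp [w]
  · rw [Function.update_of_ne h]
    have h' : l.val ≠ j.val := fun e => h (Fin.ext e)
    unfold w
    by_cases h1 : l.val < j.val
    · simp [h1, Nat.lt_succ_of_lt h1]
    · have h2 : ¬ l.val < j.val + 1 := by omega
      simp [h1, h2]

open Classical in
/-- The bad targets of the step `j`. -/
noncomputable def Bd (I : Finset ℤ) (V : Finset (Vx d)) (i : Fin d) (x : Vx d) (j : Fin d) :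
    Finset (Vx d) :=
  (X d I).filter fun y => Mix I V j (w i x y j.val)

theorem card_base {I : Finset ℤ} {c : ℤ} (hc : c ∈ I) (i : Fin d) :
    ((X d I).filter fun y => y i = c).card * I.card = (X d I).card := by
  classical
  rw [← card_product]
  refine card_bij (fun p _ => Function.update p.1 i p.2) ?_ ?_ ?_
  · rintro ⟨y, s⟩ h
    rw [mem_product, mem_filter] at h
    exact upd_mem h.1.1 i h.2
  · rintro ⟨y, s⟩ h ⟨y', s'⟩ h' he
    rw [mem_product, mem_filter] at h h'
    simp only at h h' he
    have h1 : s = s' := by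
      have := congrFun he i
      simpa using this
    have h2 : y = y' := by
      funext l
      by_cases hl : l = i
      · subst hl; rw [h.1.2, h'.1.2]
      · have := congrFun he l
        simpa [Function.update_of_ne hl] using this
    rw [h1, h2]
  · intro z hz
    refine ⟨(Function.update z i c, z i), ?_, by simp⟩
    rw [mem_product, mem_filter]
    exact ⟨⟨upd_mem hz i hc, by simp⟩, mem_X.mp hz i⟩

/-- The number of bad targets of one step. -/
theorem card_Bd {I : Finset ℤ} {V : Finset (Vx d)} {c : ℤ} (hc : c ∈ I) {i j : Fin d}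
    (hij : j ≠ i) {x : Vx d} (hx : x ∈ X d I) :
    (Bd I V i x j).card ≤ (M I V c j).card * ((X d I).filter fun y => y i = c).card := by
  classical
  rw [← card_product]
  refine card_le_card_of_injOn
    (fun y => (Function.update (w i x y j.val) j c, Function.update y i c)) ?_ ?_
  · intro y hy
    rw [mem_coe, Bd, mem_filter] at hy
    rw [mem_coe, mem_product, mem_filter]
    exact ⟨base_mem hc (w_mem hx hy.1 _) hy.2, upd_mem hy.1 i hc, by simp⟩
  · intro y hy y' hy' he
    simp only [Prod.mk.injEq] at he
    have h1 : y i = y' i := by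
      have := congrFun he.1 i
      rw [Function.update_of_ne hij.symm, Function.update_of_ne hij.symm] at this
      simpa [w] using this
    funext l
    by_cases hl : l = i
    · subst hl; exact h1
    · have := congrFun he.2 l
      simpa [Function.update_of_ne hl] using this

/-- Good targets: the whole path is on lines which are not mixed. -/
theorem good {I : Finset ℤ} {V : Finset (Vx d)} {i : Fin d} {x y : Vx d} (hx : x ∈ X d I)
    (hy : y ∈ X d I) (h0 : ¬ Mix I V i x) (h : ∀ j, j ≠ i → y ∉ Bd I V i x j) :
    (x ∈ V ↔ y ∈ V) := by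
  classical
  have key : ∀ j : ℕ, j ≤ d → (x ∈ V ↔ w i x y j ∈ V) := by
    intro j
    induction j with
    | zero =>
      intro _
      rw [w_zero]
      have := pure h0 (mem_X.mp hx i) (mem_X.mp hy i)
      rwa [Function.update_eq_self] at this
    | succ j ih =>
      intro hj
      have ih' := ih (by omega)
      rw [ih']
      have e := w_succ i x y ⟨j, by omega⟩
      simp only at e
      rw [e]
      by_cases hji : (⟨j, by omega⟩ : Fin d) = i
      · have : Function.update (w i x y j) ⟨j, by omega⟩ (y ⟨j, by omega⟩) = w i x y j := by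
          have hv : w i x y j ⟨j, by omega⟩ = y ⟨j, by omega⟩ := by simp [w, hji]
          rw [← hv, Function.update_eq_self]
        rw [this]
      · have hb := h ⟨j, by omega⟩ hji
        rw [Bd, mem_filter, not_and] at hb
        have hn := hb hy
        simp only at hn
        have := pure hn (mem_X.mp (w_mem (i := i) hx hy j) ⟨j, by omega⟩)
          (mem_X.mp hy ⟨j, by omega⟩)
        rwa [Function.update_eq_self] at this
  have := key d le_rfl
  rwa [w_last] at this

/-- More than half of the targets are good. -/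
theorem half {I : Finset ℤ} {V : Finset (Vx d)} {c : ℤ} (hc : c ∈ I) {b : ℕ}
    (hM : ∀ j, (M I V c j).card < b) (hb : 2 * d * b ≤ I.card) {i : Fin d} {x : Vx d}
    (hx : x ∈ X d I) (h0 : ¬ Mix I V i x) :
    (X d I).card < 2 * ((X d I).filter fun y => (x ∈ V ↔ y ∈ V)).card := by
  classical
  set B := (univ.filter fun j : Fin d => j ≠ i).biUnion (Bd I V i x) with hB
  have hd : 0 < d := i.pos
  set N := ((X d I).filter fun y => y i = c).card with hN
  have hNn : N * I.card = (X d I).card := card_base hc i
  have hNpos : 0 < N := by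
    rw [hN, card_pos]
    refine ⟨fun _ => c, ?_⟩
    rw [mem_filter, mem_X]
    exact ⟨fun _ => hc, rfl⟩
  have hb0 : 0 < b := lt_of_le_of_lt (Nat.zero_le _) (hM i)
  have hBc : B.card ≤ (d - 1) * ((b - 1) * N) := by
    calc B.card ≤ ∑ j ∈ univ.filter fun j : Fin d => j ≠ i, (Bd I V i x j).card :=
          card_biUnion_le
      _ ≤ ∑ j ∈ univ.filter fun j : Fin d => j ≠ i, (b - 1) * N := by
          apply sum_le_sum
          intro j hj
          rw [mem_filter] at hj
          refine (card_Bd hc hj.2 hx).trans ?_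
          apply Nat.mul_le_mul_right
          have := hM j
          omega
      _ = (d - 1) * ((b - 1) * N) := by
          rw [sum_const, smul_eq_mul]
          congr 1
          rw [filter_ne', card_erase_of_mem (mem_univ _), card_univ, Fintype.card_fin]
  have hsub : (X d I) \ B ⊆ (X d I).filter fun y => (x ∈ V ↔ y ∈ V) := by
    intro y hy
    rw [mem_sdiff] at hy
    rw [mem_filter]
    refine ⟨hy.1, good hx hy.1 h0 fun j hj hjb => hy.2 ?_⟩
    rw [hB, mem_biUnion]
    exact ⟨j, by simp [hj], hjb⟩
  have h1 := card_le_card hsub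
  have h2 : (X d I).card ≤ ((X d I) \ B).card + B.card := by
    have := le_card_sdiff B (X d I)
    omega
  have h3 : 2 * ((d - 1) * ((b - 1) * N)) < N * I.card := by
    have e1 : 2 * ((d - 1) * ((b - 1) * N)) = N * (2 * (d - 1) * (b - 1)) := by ring
    rw [e1]
    apply Nat.mul_lt_mul_of_pos_left _ hNpos
    calc 2 * (d - 1) * (b - 1) < 2 * d * b := by
          obtain ⟨d', rfl⟩ : ∃ d', d = d' + 1 := ⟨d - 1, by omega⟩
          obtain ⟨b', rfl⟩ : ∃ b', b = b' + 1 := ⟨b - 1, by omega⟩
          simp only [Nat.add_sub_cancel]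
          nlinarith
      _ ≤ I.card := hb
  omega

/-- Sets all of whose points have mixed lines in two directions. -/
theorem two {I : Finset ℤ} {V W : Finset (Vx d)} {c : ℤ} (hc : c ∈ I) {i j : Fin d}
    (hij : i ≠ j) (hW : W ⊆ X d I) (h : ∀ x ∈ W, Mix I V i x ∧ Mix I V j x) :
    W.card ≤ (M I V c i).card * (M I V c j).card := by
  classical
  rw [← card_product]
  refine card_le_card_of_injOn (fun x => (Function.update x i c, Function.update x j c)) ?_ ?_
  · intro x hx
    rw [mem_coe] at hx
    rw [mem_coe, mem_product]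
    exact ⟨base_mem hc (hW hx) (h x hx).1, base_mem hc (hW hx) (h x hx).2⟩
  · intro x hx x' hx' he
    simp only [Prod.mk.injEq] at he
    funext l
    by_cases hl : l = i
    · have := congrFun he.2 l
      rw [Function.update_of_ne (by rw [hl]; exact hij), Function.update_of_ne
        (by rw [hl]; exact hij)] at this
      exact this
    · have := congrFun he.1 l
      simpa [Function.update_of_ne hl] using this

/-- The main lemma, in terms of mixed lines. -/
theorem main {I : Finset ℤ} {V : Finset (Vx d)} (hV : V ⊆ X d I) {c : ℤ} (hc : c ∈ I) {b : ℕ}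
    (hd : 2 ≤ d) (hb : 2 * d * b ≤ I.card) :
    V.card ≤ b ^ 2 ∨ (X d I \ V).card ≤ b ^ 2 ∨ ∃ i, b ≤ (M I V c i).card := by
  classical
  by_contra hcon
  push Not at hcon
  obtain ⟨h1, h2, hM⟩ := hcon
  set i0 : Fin d := ⟨0, by omega⟩
  set i1 : Fin d := ⟨1, by omega⟩
  have hne : i0 ≠ i1 := by
    intro h
    have := congrArg Fin.val h
    simp [i0, i1] at this
  have sm : (M I V c i0).card * (M I V c i1).card ≤ b ^ 2 := by
    rw [pow_two]
    exact Nat.mul_le_mul (hM i0).le (hM i1).le
  have a1 : ∃ x ∈ V, ∃ i, ¬ Mix I V i x := by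
    by_contra hno
    push Not at hno
    have := two hc hne hV fun x hx => ⟨hno x hx i0, hno x hx i1⟩
    omega
  have a2 : ∃ x ∈ X d I \ V, ∃ i, ¬ Mix I V i x := by
    by_contra hno
    push Not at hno
    have := two hc hne sdiff_subset fun x hx => ⟨hno x hx i0, hno x hx i1⟩
    omega
  obtain ⟨x, hx, i, hi⟩ := a1
  obtain ⟨x', hx', i', hi'⟩ := a2
  rw [mem_sdiff] at hx'
  have b1 := half hc hM hb (hV hx) hi
  have b2 := half hc hM hb hx'.1 hi'
  have e1 : ((X d I).filter fun y => (x ∈ V ↔ y ∈ V)) = (X d I).filter fun y => y ∈ V := by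
    apply filter_congr
    intro y _
    simp [hx]
  have e2 : ((X d I).filter fun y => (x' ∈ V ↔ y ∈ V)) = (X d I).filter fun y => ¬ y ∈ V := by
    apply filter_congr
    intro y _
    simp [hx'.2]
  rw [e1] at b1
  rw [e2] at b2
  have := card_filter_add_card_filter_not (s := X d I) (fun y => y ∈ V)
  omega

/-- Integers: a change between `s` and `t` is a change between neighbours. -/
theorem step {P : ℤ → Prop} {s t : ℤ} (hs : P s) (ht : ¬ P t) :
    ∃ r r' : ℤ, P r ∧ ¬ P r' ∧ |r - r'| = 1 ∧ min s t ≤ r ∧ r ≤ max s t ∧ min s t ≤ r' ∧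
      r' ≤ max s t := by
  classical
  obtain ⟨n, hn⟩ : ∃ n : ℕ, (n : ℤ) = |t - s| := ⟨(t - s).natAbs, by simp⟩
  induction n generalizing s with
  | zero =>
    have : t = s := by
      have : |t - s| = 0 := by rw [← hn]; rfl
      rw [abs_eq_zero] at this
      omega
    rw [this] at ht
    exact absurd hs ht
  | succ n ih =>
    have hne : t ≠ s := fun h => ht (h ▸ hs)
    rcases lt_or_gt_of_ne hne with hlt | hlt
    · by_cases hp : P (s - 1)
      · obtain ⟨r, r', h1, h2, h3, h4, h5, h6, h7⟩ := ih hp (by
          push_cast at hn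
          rw [abs_of_neg (by omega)] at hn
          rcases eq_or_lt_of_le (show t ≤ s - 1 by omega) with h | h
          · rw [h]; simp; omega
          · rw [abs_of_neg (by omega)]; omega)
        refine ⟨r, r', h1, h2, h3, ?_, ?_, ?_, ?_⟩ <;>
          simp only [min_def, max_def] at * <;> split_ifs at * <;> omega
      · refine ⟨s, s - 1, hs, hp, by simp, ?_, ?_, ?_, ?_⟩ <;>
          simp only [min_def, max_def] <;> split_ifs <;> omega
    · by_cases hp : P (s + 1)
      · obtain ⟨r, r', h1, h2, h3, h4, h5, h6, h7⟩ := ih hp (by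
          push_cast at hn
          rw [abs_of_pos (by omega)] at hn
          rcases eq_or_lt_of_le (show s + 1 ≤ t by omega) with h | h
          · rw [← h]; simp; omega
          · rw [abs_of_pos (by omega)]; omega)
        refine ⟨r, r', h1, h2, h3, ?_, ?_, ?_, ?_⟩ <;>
          simp only [min_def, max_def] at * <;> split_ifs at * <;> omega
      · refine ⟨s, s + 1, hs, hp, by simp, ?_, ?_, ?_, ?_⟩ <;>
          simp only [min_def, max_def] <;> split_ifs <;> omega

/-- Choice of a separated subset of a set of points with the same coordinate `i`. -/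
theorem sep {P : Finset (Vx d)} {i : Fin d} {c : ℤ} (hP : ∀ x ∈ P, x i = c) {K : ℕ}
    (hK : 1 ≤ K) : ∃ P' ⊆ P, P.card ≤ K ^ d * P'.card ∧
      ∀ x ∈ P', ∀ x' ∈ P', x ≠ x' → ∃ l, l ≠ i ∧ (K : ℤ) ≤ |x l - x' l| := by
  classical
  set t : Finset (Fin d → ℤ) := Fintype.piFinset (fun _ : Fin d => Ico (0 : ℤ) K) with ht
  have htc : t.card = K ^ d := by
    rw [ht, Fintype.card_piFinset]
    simp
  have hK' : (0 : ℤ) < K := by exact_mod_cast hK
  have hmap : ∀ x ∈ P, (fun l => x l % (K : ℤ)) ∈ t := by
    intro x _
    rw [ht, Fintype.mem_piFinset]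
    intro l
    rw [mem_Ico]
    exact ⟨Int.emod_nonneg _ hK'.ne', Int.emod_lt_of_pos _ hK'⟩
  have hne : t.Nonempty := by
    rw [← card_pos, htc]
    positivity
  obtain ⟨y, _, hy⟩ := exists_le_card_fiber_of_nsmul_le_card_of_maps_to (M := ℚ) hmap hne
    (b := (P.card : ℚ) / t.card) (by
      rw [nsmul_eq_mul]
      have : (t.card : ℚ) ≠ 0 := by
        rw [htc]
        positivity
      field_simp
      exact le_rfl)
  refine ⟨P.filter fun x => (fun l => x l % (K : ℤ)) = y, filter_subset _ _, ?_, ?_⟩
  · have h0 : (0 : ℚ) < t.card := by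
      rw [htc]
      positivity
    rw [div_le_iff₀ h0] at hy
    have : (P.card : ℚ) ≤ ((K ^ d * (P.filter fun x => (fun l => x l % (K : ℤ)) = y).card : ℕ) : ℚ)
        := by
      rw [← htc]
      push_cast
      rw [mul_comm]
      exact hy
    exact_mod_cast this
  · intro x hx x' hx' hxx
    rw [mem_filter] at hx hx'
    obtain ⟨l, hl⟩ : ∃ l, x l ≠ x' l := by
      by_contra hno
      push Not at hno
      exact hxx (funext hno)
    refine ⟨l, ?_, ?_⟩
    · rintro rfl
      exact hl ((hP x hx.1).trans (hP x' hx'.1).symm)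
    · have h1 : x l % (K : ℤ) = x' l % (K : ℤ) := by
        have e1 := congrFun hx.2 l
        have e2 := congrFun hx'.2 l
        exact e1.trans e2.symm
      have h2 : (K : ℤ) ∣ x l - x' l := Int.ModEq.dvd (Int.ModEq.symm h1)
      have h3 : (0 : ℤ) < |x l - x' l| := abs_pos.mpr (sub_ne_zero.mpr hl)
      exact Int.le_of_dvd h3 ((dvd_abs _ _).mpr h2)

end Iso

/-- ISQ. Isoperimetry in a box, with separated places. -/
theorem p_ISQ (d m b K : ℕ) (hd : 2 ≤ d) (hK : 1 ≤ K) (hb : 2 * d * b ≤ 2 * m + 1)
    (V : Finset (Vx d)) (hV : V ⊆ bx 0 m) :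
    V.card ≤ b ^ 2 ∨ (bx 0 m \ V).card ≤ b ^ 2 ∨
      ∃ Q ⊆ V, b ≤ K ^ d * Q.card ∧
        (∀ y ∈ Q, ∃ z ∈ bx 0 m \ V, ∀ i, |y i - z i| ≤ 1) ∧
        ∀ y ∈ Q, ∀ y' ∈ Q, y ≠ y' → ∃ i, (K : ℤ) ≤ |y i - y' i| := by
  classical
  have hX : bx (0 : Vx d) m = Iso.X d (Icc (-(m : ℤ)) m) := by
    ext x
    rw [Iso.mem_X, bx, mem_Icc]
    simp only [Pi.le_def, Pi.zero_apply, mem_Icc, zero_sub, zero_add]
    constructor
    · intro h i
      exact ⟨h.1 i, h.2 i⟩
    · intro h
      exact ⟨fun i => (h i).1, fun i => (h i).2⟩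
  have hc : (0 : ℤ) ∈ Icc (-(m : ℤ)) m := by
    rw [mem_Icc]
    constructor <;> omega
  have hcard : (Icc (-(m : ℤ)) m).card = 2 * m + 1 := by
    rw [Int.card_Icc]
    omega
  rw [hX] at hV ⊢
  rcases Iso.main hV hc hd (b := b) (by rw [hcard]; exact hb) with h | h | ⟨i, hi⟩
  · exact Or.inl h
  · exact Or.inr (Or.inl h)
  · refine Or.inr (Or.inr ?_)
    obtain ⟨P', hP', hcd, hsp⟩ := Iso.sep (P := Iso.M (Icc (-(m : ℤ)) m) V 0 i) (i := i) (c := 0)
      (fun x hx => by rw [Iso.M, mem_filter] at hx; exact hx.2.1) hK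
    have hch : ∀ x ∈ P', ∃ r r' : ℤ, r ∈ Icc (-(m : ℤ)) m ∧ r' ∈ Icc (-(m : ℤ)) m ∧
        Function.update x i r ∈ V ∧ Function.update x i r' ∉ V ∧ |r - r'| = 1 := by
      intro x hx
      have hx' := hP' hx
      rw [Iso.M, mem_filter] at hx'
      obtain ⟨_, _, s, hs, t, ht, h1, h2⟩ := hx'
      obtain ⟨r, r', e1, e2, e3, e4, e5, e6, e7⟩ := Iso.step
        (P := fun s => Function.update x i s ∈ V) h1 h2
      rw [mem_Icc] at hs ht
      refine ⟨r, r', ?_, ?_, e1, e2, e3⟩
      · rw [mem_Icc]
        simp only [min_def, max_def] at e4 e5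
        split_ifs at e4 e5 <;> constructor <;> omega
      · rw [mem_Icc]
        simp only [min_def, max_def] at e6 e7
        split_ifs at e6 e7 <;> constructor <;> omega
    choose! r r' hr hr' h1 h2 h3 using hch
    refine ⟨P'.image fun x => Function.update x i (r x), ?_, ?_, ?_, ?_⟩
    · intro y hy
      rw [mem_image] at hy
      obtain ⟨x, hx, rfl⟩ := hy
      exact h1 x hx
    · rw [card_image_of_injOn]
      · exact hi.trans hcd
      · intro x hx x' hx' he
        rw [mem_coe] at hx hx'
        by_contra hne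
        obtain ⟨l, hl, hlK⟩ := hsp x hx x' hx' hne
        have := congrFun he l
        simp only [Function.update_of_ne hl] at this
        rw [this, sub_self, abs_zero] at hlK
        have : (0 : ℤ) < K := by exact_mod_cast hK
        omega
    · intro y hy
      rw [mem_image] at hy
      obtain ⟨x, hx, rfl⟩ := hy
      have hxX : x ∈ Iso.X d (Icc (-(m : ℤ)) m) := by
        have hx' := hP' hx
        rw [Iso.M, mem_filter] at hx'
        exact hx'.1
      refine ⟨Function.update x i (r' x), ?_, ?_⟩
      · rw [mem_sdiff]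
        exact ⟨Iso.upd_mem hxX i (hr' x hx), h2 x hx⟩
      · intro l
        by_cases hl : l = i
        · subst hl
          simp only [Function.update_self]
          rw [h3 x hx]
        · simp [Function.update_of_ne hl]
    · intro y hy y' hy' hne
      rw [mem_image] at hy hy'
      obtain ⟨x, hx, rfl⟩ := hy
      obtain ⟨x', hx', rfl⟩ := hy'
      have hxx : x ≠ x' := fun h => hne (by rw [h])
      obtain ⟨l, hl, hlK⟩ := hsp x hx x' hx' hxx
      exact ⟨l, by simpa only [Function.update_of_ne hl] using hlK⟩

end Pool.Agent.FKS
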