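import Pool.Agent.FKS.P_PIF
import Pool.Agent.FKS.Main

/-!
# Project FKS: the target T_CCN (one-sided concentration)
-/

set_option autoImplicit false

namespace Pool.Agent.FKS

open Pool.Agent.FKP
open Pool.Agent.FKT hiding ind

private lemma lip {E : Type} [DecidableEq E] {G : Finset E} {C0 : ℝ} {Y : Finset E → ℝ}
    (hL : ∀ (a : Finset E) (e : E), e ∈ G → a ⊆ G → Y a ≤ Y (insert e a) + C0)
    (a : Finset E) (ha : a ⊆ G) (T : Finset E) (hT : T ⊆ G) :
    Y a ≤ Y (a ∪ T) + C0 * T.card := by
  induction T using Finset.induction_on with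
  | empty => simp
  | insert e T he ih =>
    have hT' : T ⊆ G := fun x hx => hT (Finset.mem_insert_of_mem hx)
    have h1 := ih hT'
    have h2 := hL (a ∪ T) e (hT (Finset.mem_insert_self e T)) (Finset.union_subset ha hT')
    rw [Finset.union_insert, Finset.card_insert_of_notMem he]
    push_cast
    linarith

private lemma lg_mono' {a b : ℝ} (h : a ≤ b) : lg a ≤ lg b := by
  unfold lg
  have h1 := Real.exp_pos a
  have h2 := Real.exp_pos b
  have h3 := Real.exp_le_exp.mpr h
  rw [div_le_div_iff₀ (by linarith) (by linarith)]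
  nlinarith

theorem p_CCN (h_FKG : FKT.T_FKG) (h_LGD : T_LGD) (h_HOL : T_HOL) : T_CCN := by
  intro V E _ s t R U G p p' q C0 y hp hpp hp1 hq hC hG Y hY hL
  have hq0 : 0 < q := by linarith
  have hp'0 : 0 < p' := hp.trans hpp
  have hpl : p < 1 := hpp.trans hp1
  have e1 : Ex s t R U G p' q (fun ω => ind (y ≤ Y ω)) =
      Ex s t R U G p' q (fun ω => ind (y ≤ Y (ω ∩ G))) := by
    apply Ex_congr
    intro ω hω
    rw [Finset.inter_eq_left.mpr hω]
  rw [e1]
  have hDm : ∀ a b : Finset E, a ⊆ b → y ≤ Y (b ∩ G) → y ≤ Y (a ∩ G) := by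
    intro a b hab hb
    exact hb.trans (hY _ _ (Finset.inter_subset_inter_right hab) Finset.inter_subset_right)
  by_cases h0 : y ≤ Y (∅ ∩ G)
  swap
  · have h1 : Ex s t R U G p' q (fun ω => ind (y ≤ Y (ω ∩ G))) =
        Ex s t R U G p' q fun _ => 0 := by
      apply Ex_congr
      intro ω _
      apply ind_false
      intro h
      exact h0 (hDm ∅ ω (Finset.empty_subset ω) h)
    rw [h1, Ex_const hp'0 hp1 hq0]
    exact (Real.exp_pos _).le
  have hla : lg (Real.log (xo p)) = p := lg_log hp hpl
  have hlb : lg (Real.log (xo p')) = p' := lg_log hp'0 hp1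
  have hab : Real.log (xo p) ≤ Real.log (xo p') :=
    (Real.log_lt_log (xo_pos hp hpl) (xo_lt hpp hp1)).le
  have key := glmI s t R U G h_FKG h_LGD hq hG (fun ω => y ≤ Y (ω ∩ G)) hDm h0
    (fun ω => (y - Y (ω ∩ G)) / C0) (by
      intro ω a hω ha hDa
      have h1 : Y a ≤ Y (a ∪ (ω \ a)) + C0 * (ω \ a).card :=
        lip hL a (ha.trans hω) (ω \ a) (Finset.sdiff_subset.trans hω)
      rw [Finset.union_sdiff_of_subset ha, Finset.card_sdiff_of_subset ha,
        Nat.cast_sub (Finset.card_le_card ha)] at h1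
      rw [Finset.inter_eq_left.mpr (ha.trans hω)] at hDa
      rw [Finset.inter_eq_left.mpr hω]
      have h2 : (y - Y ω) / C0 ≤ (ω.card : ℝ) - a.card := by
        rw [div_le_iff₀ hC]
        linarith
      linarith)
    ((y - Ex s t R U G p q Y) / C0) (Real.log (xo p)) (Real.log (xo p')) hab (by
      intro l hl1 hl2
      have hm : lg (Real.log (xo p)) ≤ lg l := lg_mono' hl1
      have hm2 : lg l ≤ lg (Real.log (xo p')) := lg_mono' hl2
      rw [hla] at hm
      rw [hlb] at hm2
      have hl0 : 0 < lg l := hp.trans_le hm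
      have hll : lg l < 1 := hm2.trans_lt hp1
      have h1 := h_HOL V E s t R R U G p (lg l) q hp hm hll hq (fun _ _ h => h) hG
        (fun ω => (y - Y (ω ∩ G)) / C0) (by
          intro a b hab hb
          have := hY _ _ (Finset.inter_subset_inter_right (u := G) hab) Finset.inter_subset_right
          exact div_le_div_of_nonneg_right (by linarith) hC.le)
      refine le_trans (le_of_eq ?_) h1
      have h2 : Ex s t R U G p q (fun ω => (y - Y (ω ∩ G)) / C0) =
          Ex s t R U G p q (fun ω => (1 / C0) * (y - Y ω)) := by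
        apply Ex_congr
        intro ω hω
        rw [Finset.inter_eq_left.mpr hω]
        ring
      rw [h2, Ex_mul_left, Ex_sub (fun _ => y) Y, Ex_const hp hpl hq0]
      ring)
  rw [hlb] at key
  refine key.trans ?_
  have h3 : Ex s t R U G (lg (Real.log (xo p))) q (fun ω => ind (y ≤ Y (ω ∩ G))) ≤ 1 := by
    rw [hla]
    exact Ex_le_one hp hpl hq0 fun ω _ => ind_le_one _
  calc _ ≤ Real.exp (-((y - Ex s t R U G p q Y) / C0 * (Real.log (xo p') - Real.log (xo p)))) * 1 :=
        mul_le_mul_of_nonneg_left h3 (Real.exp_pos _).le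
    _ = _ := by
      rw [mul_one]
      congr 1
      unfold xo
      ring

end Pool.Agent.FKS
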