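import Pool.Agent.FKS.P_THN
import Pool.Agent.FKS.Main

/-!
# Project FKS: the target T_THI (thinning)
-/

set_option autoImplicit false

namespace Pool.Agent.FKS

open Pool.Agent.FKP
open Pool.Agent.FKT hiding ind

/-- The thinning constant. -/
noncomputable def thc (p p1 : ℝ) : ℝ := (xo p1 - xo p) / ((1 + xo p) * xo p1)

theorem thc_spec {p p1 : ℝ} (hp : 0 < p) (hpp : p < p1) (hp1 : p1 < 1) :
    0 < thc p p1 ∧ thc p p1 < 1 ∧ thc p p1 * (1 + xo p) * xo p1 ≤ xo p1 - xo p := by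
  have hx := xo_pos hp (hpp.trans hp1)
  have hx1 := xo_pos (hp.trans hpp) hp1
  have hxx := xo_lt hpp hp1
  have hpos : 0 < (1 + xo p) * xo p1 := by positivity
  refine ⟨div_pos (by linarith) hpos, ?_, ?_⟩
  · unfold thc
    rw [div_lt_one hpos]
    nlinarith
  · unfold thc
    rw [mul_assoc, div_mul_cancel₀ _ hpos.ne']

/-- The two forms of thinning. -/
theorem EB_sdiff (h_BER : FKT.T_BER) {E : Type} [DecidableEq E] (ε : ℝ) (G ω : Finset E)
    (hω : ω ⊆ G) (f : Finset E → ℝ) :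
    EB ε G (fun ξ => f (ω \ ξ)) = EB (1 - ε) ω f := by
  have h1 : EB ε G (fun ξ => f (ω \ ξ)) = EB ε ω fun ξ => f (ω \ ξ) := by
    have h := (h_BER E ε G).2.2.1 ω (fun ξ => f (ω \ ξ)) hω
    rw [← h]
    unfold EB
    apply Finset.sum_congr rfl
    intro ξ _
    congr 1
    have hE : ω \ (ξ ∩ ω) = ω \ ξ := by
      ext x
      simp only [Finset.mem_sdiff, Finset.mem_inter]
      tauto
    show f (ω \ ξ) = f (ω \ (ξ ∩ ω))
    rw [hE]
  rw [h1]
  unfold EB
  apply Finset.sum_nbij' (fun ξ => ω \ ξ) (fun ξ => ω \ ξ)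
  · intro ξ _
    exact Finset.mem_powerset.mpr Finset.sdiff_subset
  · intro ξ _
    exact Finset.mem_powerset.mpr Finset.sdiff_subset
  · intro ξ hξ
    rw [Finset.mem_powerset] at hξ
    exact Finset.sdiff_sdiff_eq_self hξ
  · intro ξ hξ
    rw [Finset.mem_powerset] at hξ
    exact Finset.sdiff_sdiff_eq_self hξ
  · intro ξ hξ
    rw [Finset.mem_powerset] at hξ
    congr 1
    unfold bw
    have hc := Finset.card_le_card hξ
    rw [Finset.card_sdiff_of_subset hξ, Nat.sub_sub_self hc]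
    rw [sub_sub_cancel]
    ring

theorem p_THI (h_ADD : FKT.T_ADD) (h_BER : FKT.T_BER) : T_THI := by
  intro p1 p2 q hp hpp hp1 hq
  obtain ⟨h1, h2, h3⟩ := thc_spec hp hpp hp1
  refine ⟨thc p1 p2, h1, h2, ?_⟩
  intro V E _ s t R U G hG f hf
  have h := thn s t R U G h_ADD h_BER hp hpp hp1 hq hG h1 h2 h3 f hf
  refine h.trans (le_of_eq ?_)
  apply Ex_congr
  intro ω hω
  rw [EB_sdiff h_BER _ G ω hω f]

end Pool.Agent.FKS
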