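import Pool.Agent.FKT.MainB
import Pool.Agent.FKP.Assembly
import Pool.Agent.FKS.P_CCN
import Pool.Agent.FKS.P_DIC
import Pool.Agent.FKS.P_DSQ
import Pool.Agent.FKS.P_FMA
import Pool.Agent.FKS.P_FMI
import Pool.Agent.FKS.P_FMK
import Pool.Agent.FKS.P_FMS
import Pool.Agent.FKS.P_FPB
import Pool.Agent.FKS.P_HPB
import Pool.Agent.FKS.P_HPS
import Pool.Agent.FKS.P_MXQ
import Pool.Agent.FKS.P_PGH
import Pool.Agent.FKS.P_PIF
import Pool.Agent.FKS.P_SGN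
import Pool.Agent.FKS.P_TBM
import Pool.Agent.FKS.P_THI

/-!
# Project FKS: assembly of part A1 (without SPR) and of the first half of part C
-/

set_option autoImplicit false

namespace Pool.Agent.FKS

open Filter MeasureTheory Pool.Agent.FKP
open Pool.Agent.FKT hiding ind

/-! ## Part A -/

theorem f_THI : T_THI := p_THI FKT.p_ADD FKT.p_BER
theorem f_FPB : T_FPB := p_FPB FKT.p_ADD FKT.p_BER FKT.f_FKG FKP.g_LGD FKP.g_HOL
theorem f_CCN : T_CCN := p_CCN FKT.f_FKG FKP.g_LGD FKP.g_HOL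
theorem f_PIF : T_PIF := p_PIF FKT.p_ADD FKT.p_BER FKT.f_FKG FKP.g_LGD FKP.g_HOL
theorem f_MXQ : T_MXQ := p_MXQ FKP.g_MVT FKP.p_AVY FKP.g_INB FKP.g_HOL FKP.p_INC FKT.p_CNT

/-! ## Part C -/

theorem f_FMA : T_FMA := p_FMA FKT.f_LOC FKT.f_MOP FKT.f_MAR
theorem f_FMS : T_FMS := p_FMS FKT.f_INV f_FMA
theorem f_FMK : T_FMK := p_FMK f_FMA f_FMS FKT.f_FSL
theorem f_FMI : T_FMI :=
  p_FMI f_FMA f_FMK FKT.p_PIG FKT.p_ABS FKT.f_DER FKT.f_CVL FKT.f_EXI FKT.f_FKG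
theorem f_DIC : T_DIC := p_DIC f_FMI
theorem f_HPB : T_HPB :=
  p_HPB f_DIC p_TBM p_PGH f_MXQ f_FPB FKT.f_EXI FKT.f_DOM FKT.f_LOC
theorem f_HPS : T_HPS := p_HPS f_HPB p_SGN p_DSQ

end Pool.Agent.FKS
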