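import Pool.Agent.FKS.TargetsE
import Pool.Agent.FKS.SepBad

/-!
# Project FKS: target BDC (all the cells of a set are bad)
-/

set_option autoImplicit false

namespace Pool.Agent.FKS

open Filter MeasureTheory Pool.Agent.FKP
open Pool.Agent.FKT hiding ind

namespace BDC_

theorem card_bx {d : ℕ} (x : Vx d) (m : ℕ) : (bx x m).card = (2 * m + 1) ^ d := by
  unfold bx
  rw [Pi.card_Icc]
  have h : ∀ i ∈ (Finset.univ : Finset (Fin d)),
      (Finset.Icc (x i - (m : ℤ)) (x i + (m : ℤ))).card = 2 * m + 1 := by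
    intro i _
    rw [Int.card_Icc]
    omega
  rw [Finset.prod_congr rfl h, Finset.prod_const, Finset.card_univ, Fintype.card_fin]

/-- A maximal separated subset. -/
theorem sep {d : ℕ} (K : ℕ) (Z : Finset (Vx d)) : ∃ Z' ⊆ Z,
    (∀ u ∈ Z', ∀ v ∈ Z', u ≠ v → Far (2 * K + 1) u v) ∧
    Z.card ≤ (4 * K + 1) ^ d * Z'.card := by
  classical
  have hne : (Z.powerset.filter fun D : Finset (Vx d) =>
      ∀ u ∈ D, ∀ v ∈ D, u ≠ v → Far (2 * K + 1) u v).Nonempty := by
    refine ⟨∅, ?_⟩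
    rw [Finset.mem_filter, Finset.mem_powerset]
    refine ⟨Finset.empty_subset _, ?_⟩
    intro z hz
    exact absurd hz (Finset.notMem_empty z)
  obtain ⟨D', hD', hmax⟩ := Finset.exists_max_image _ (fun D' : Finset (Vx d) => D'.card) hne
  rw [Finset.mem_filter, Finset.mem_powerset] at hD'
  refine ⟨D', hD'.1, hD'.2, ?_⟩
  have hcov : Z ⊆ D'.biUnion fun z' => bx z' (2 * K) := by
    intro z hz
    rw [Finset.mem_biUnion]
    by_contra hcon
    push Not at hcon
    have hsep : ∀ z' ∈ D', Far (2 * K + 1) z z' := by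
      intro z' hz'
      by_contra h
      unfold Far at h
      push Not at h
      refine hcon z' hz' (SepBad.mem_bx.2 fun i => ?_)
      have h1 := h i
      rw [abs_lt] at h1
      push_cast at h1 ⊢
      constructor
      · linarith [h1.1]
      · linarith [h1.2]
    have hzD : z ∉ D' := by
      intro h
      obtain ⟨i, hi⟩ := hsep z h
      rw [sub_self, abs_zero] at hi
      push_cast at hi
      omega
    have hins : insert z D' ∈ Z.powerset.filter fun D : Finset (Vx d) =>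
        ∀ u ∈ D, ∀ v ∈ D, u ≠ v → Far (2 * K + 1) u v := by
      rw [Finset.mem_filter, Finset.mem_powerset]
      refine ⟨Finset.insert_subset hz hD'.1, ?_⟩
      intro u hu v hv huv
      rw [Finset.mem_insert] at hu hv
      rcases hu with rfl | hu
      · rcases hv with rfl | hv
        · exact absurd rfl huv
        · exact hsep v hv
      · rcases hv with rfl | hv
        · obtain ⟨i, hi⟩ := hsep u hu
          exact ⟨i, by rwa [abs_sub_comm]⟩
        · exact hD'.2 u hu v hv huv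
    have h1 := hmax _ hins
    rw [Finset.card_insert_of_notMem hzD] at h1
    omega
  calc Z.card ≤ (D'.biUnion fun z' => bx z' (2 * K)).card := Finset.card_le_card hcov
    _ ≤ ∑ z' ∈ D', (bx z' (2 * K)).card := Finset.card_biUnion_le
    _ = ∑ _z' ∈ D', (4 * K + 1) ^ d := by
        refine Finset.sum_congr rfl fun z' _ => ?_
        rw [card_bx]
        congr 1
        ring
    _ = (4 * K + 1) ^ d * D'.card := by
        rw [Finset.sum_const, smul_eq_mul, mul_comm]

/-- The centres of separated cells are separated. -/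
theorem far_cen {k a K : ℕ} (ha : 1 ≤ a) {z z' : Vx 2} (h : Far (2 * K + 1) z z') :
    Far (2 * (K * a) + 1) (cen k a z) (cen k a z') := by
  obtain ⟨i, hi⟩ := h
  have ha' : (1 : ℤ) ≤ a := by exact_mod_cast ha
  have key : ∀ j : Fin 2, ((2 * K + 1 : ℕ) : ℤ) ≤ |z j - z' j| →
      ((2 * (K * a) + 1 : ℕ) : ℤ) ≤ |(a : ℤ) * z j - a * z' j| := by
    intro j hj
    rw [← mul_sub, abs_mul, abs_of_nonneg (by linarith : (0 : ℤ) ≤ a)]
    have h2 := mul_le_mul_of_nonneg_left hj (by linarith : (0 : ℤ) ≤ a)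
    push_cast at h2 ⊢
    nlinarith
  fin_cases i
  · refine ⟨⟨0, by omega⟩, ?_⟩
    have := key 0 hi
    simpa [cen, pos] using this
  · refine ⟨⟨1, by omega⟩, ?_⟩
    have := key 1 hi
    simpa [cen, pos] using this

end BDC_

theorem p_BDC (h_PIF : T_PIF) (h_P0M : T_P0M) : T_BDC := by
  intro k K q p1 p2 θ hq hp1 hpp hp2 hθ hθ1
  obtain ⟨c, hc, hP⟩ := h_PIF p1 p2 q hp1 hpp hp2 hq
  refine ⟨θ ^ (((4 * K + 1) ^ 2 : ℕ) / c : ℝ), Real.rpow_pos_of_pos hθ _, ?_⟩
  intro δ ε a N Q s hε hcel m S hS Z hZ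
  obtain ⟨Z', hZZ, hsep, hcard⟩ := BDC_.sep K Z
  have hq0 : 0 < q := by linarith
  have hp11 : p1 < 1 := hpp.trans hp2
  have hp20 : 0 < p2 := hp1.trans hpp
  -- restriction to the separated cells
  have h1 : fr S p2 q (fun ω => ind (∀ z ∈ Z, ¬ Q (cen k a z) ω)) ≤
      fr S p2 q (fun ω => ind (∀ z ∈ Z', ¬ Q (cen k a z) ω)) := by
    unfold fr fw
    refine Ex_mono hp20 hp2 hq0 fun ω _ => ind_mono fun h z hz => h z (hZZ hz)
  -- the product inequality
  have h2 : fr S p2 q (fun ω => ind (∀ z ∈ Z', ¬ Q (cen k a z) ω)) ≤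
      ∏ z ∈ Z', (fr S p1 q fun ω => ind (¬ Q (cen k a z) ω)) ^ c := by
    unfold fr fw
    refine hP (Vx (k + 3)) (Ed (k + 3)) Prod.fst tgt (no (Vx (k + 3))) S (es S)
      (fun e he => mem_es.1 he) (Vx 2) Z' (fun z => eb (cen k a z) (K * a))
      (fun z => Q (cen k a z)) (fun z _ => hcel.inc _) (fun z _ ω => hcel.loc _ ω) ?_
    intro z hz z' hz' hzz
    exact SepBad.eb_disj (BDC_.far_cen hcel.ha (hsep z hz z' hz' hzz))
  have h3 : ∀ z ∈ Z', (fr S p1 q fun ω => ind (¬ Q (cen k a z) ω)) ^ c ≤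
      θ ^ ((4 * K + 1) ^ 2) := by
    intro z hz
    have hz1 : fr S p1 q (fun ω => ind (¬ Q (cen k a z) ω)) ≤ ε :=
      (h_P0M (k + 3) p1 p1 q hp1 le_rfl hp11 hq S (cen k a z) N (hS z (hZ (hZZ hz)))
        (Q (cen k a z)) (hcel.inc _)).trans (hcel.prb _)
    have hz0 : 0 ≤ fr S p1 q (fun ω => ind (¬ Q (cen k a z) ω)) := by
      unfold fr fw
      exact Ex_nonneg hp1 hp11 hq0 fun ω _ => ind_nonneg _
    calc (fr S p1 q fun ω => ind (¬ Q (cen k a z) ω)) ^ c
        ≤ (θ ^ (((4 * K + 1) ^ 2 : ℕ) / c : ℝ)) ^ c :=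
          Real.rpow_le_rpow hz0 (hz1.trans hε) hc.le
      _ = θ ^ ((4 * K + 1) ^ 2) := by
          rw [← Real.rpow_mul hθ.le, div_mul_cancel₀ _ hc.ne', Real.rpow_natCast]
  calc fr S p2 q (fun ω => ind (∀ z ∈ Z, ¬ Q (cen k a z) ω))
      ≤ ∏ z ∈ Z', (fr S p1 q fun ω => ind (¬ Q (cen k a z) ω)) ^ c := h1.trans h2
    _ ≤ ∏ _z ∈ Z', θ ^ ((4 * K + 1) ^ 2) := by
        refine Finset.prod_le_prod (fun z _ => ?_) h3
        apply Real.rpow_nonneg
        unfold fr fw
        exact Ex_nonneg hp1 hp11 hq0 fun ω _ => ind_nonneg _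
    _ = θ ^ ((4 * K + 1) ^ 2 * Z'.card) := by
        rw [Finset.prod_const, ← pow_mul]
    _ ≤ θ ^ Z.card := pow_le_pow_of_le_one hθ.le hθ1 hcard

end Pool.Agent.FKS
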