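import Pool.Agent.FKP.Basic
import Pool.Agent.FKP.Lem
import Pool.Agent.FKT.TargetsA

/-!
# Project FKS (MP_552f07_pr): the derivative of a decreasing event and the distance to it

`mxs D ω` is the largest number of edges of a subset of `ω` in the event `D`. For a decreasing event
`D` (with `D ∅`) and any function `N` such that passing from `ω` to a smaller configuration in `D`
removes at least `N ω` edges, the total decrease of the edge probabilities by the conditioning
on `D` is at least the expectation of `N` (`glm`); integrated form `glmI`.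
-/

set_option autoImplicit false

namespace Pool.Agent.FKS

open Pool.Agent.FKT Pool.Agent.FKP

section

variable {E : Type}

open Classical in
/-- The largest number of edges of a subset of `ω` in `D`. -/
noncomputable def mxs (D : Finset E → Prop) (ω : Finset E) : ℕ :=
  (ω.powerset.filter D).sup Finset.card

theorem mxs_mono {D : Finset E → Prop} {a b : Finset E} (h : a ⊆ b) : mxs D a ≤ mxs D b := by
  classical
  unfold mxs
  apply Finset.sup_mono
  intro x hx
  rw [Finset.mem_filter, Finset.mem_powerset] at hx ⊢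
  exact ⟨hx.1.trans h, hx.2⟩

theorem mxs_le {D : Finset E → Prop} (ω : Finset E) : mxs D ω ≤ ω.card := by
  classical
  unfold mxs
  apply Finset.sup_le
  intro x hx
  rw [Finset.mem_filter, Finset.mem_powerset] at hx
  exact Finset.card_le_card hx.1

theorem le_mxs {D : Finset E → Prop} {a ω : Finset E} (h : a ⊆ ω) (hD : D a) :
    a.card ≤ mxs D ω := by
  classical
  unfold mxs
  exact Finset.le_sup (f := Finset.card) (by
    rw [Finset.mem_filter, Finset.mem_powerset]
    exact ⟨h, hD⟩)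

theorem mxs_of {D : Finset E → Prop} {ω : Finset E} (hD : D ω) : mxs D ω = ω.card :=
  le_antisymm (mxs_le ω) (le_mxs subset_rfl hD)

theorem exists_mxs {D : Finset E → Prop} (h0 : D ∅) (ω : Finset E) :
    ∃ a, a ⊆ ω ∧ D a ∧ a.card = mxs D ω := by
  classical
  have hne : (ω.powerset.filter D).Nonempty :=
    ⟨∅, by rw [Finset.mem_filter, Finset.mem_powerset]; exact ⟨Finset.empty_subset _, h0⟩⟩
  obtain ⟨a, ha, hb⟩ := Finset.exists_mem_eq_sup _ hne Finset.card
  rw [Finset.mem_filter, Finset.mem_powerset] at ha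
  exact ⟨a, ha.1, ha.2, hb.symm⟩

end

section

variable {V E : Type} [DecidableEq E] (s t : E → V) (R : V → V → Prop) (U : Finset V)
  (G : Finset E)

private lemma card_eq' (G ω : Finset E) (h : ω ⊆ G) :
    (ω.card : ℝ) = ∑ e ∈ G, ind (e ∈ ω) := by
  have h1 : ∑ e ∈ G, ind (e ∈ ω) = ∑ e ∈ G, if e ∈ ω then (1 : ℝ) else 0 := by
    apply Finset.sum_congr rfl
    intro e _
    by_cases he : e ∈ ω
    · rw [ind_true he, if_pos he]
    · rw [ind_false he, if_neg he]
  rw [h1, ← Finset.sum_filter, Finset.sum_const, nsmul_eq_mul, mul_one,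
    Finset.filter_mem_eq_inter, Finset.inter_eq_right.mpr h]

/-- The total decrease of the edge probabilities. -/
theorem sum_dec (p q : ℝ) (D : Finset E → Prop) :
    ∑ e ∈ G, (Ex s t R U G p q (fun ω => ind (e ∈ ω)) -
      Exc s t R U G p q D fun ω => ind (e ∈ ω)) =
    Ex s t R U G p q (fun ω => (ω.card : ℝ)) -
      Ex s t R U G p q (fun ω => ind (D ω) * (ω.card : ℝ)) /
        Ex s t R U G p q fun ω => ind (D ω) := by
  have h1 : Ex s t R U G p q (fun ω => (ω.card : ℝ)) =
      ∑ e ∈ G, Ex s t R U G p q (fun ω => ind (e ∈ ω)) := by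
    rw [← Ex_sum]
    exact Ex_congr fun ω hω => card_eq' G ω hω
  have h2 : Ex s t R U G p q (fun ω => ind (D ω) * (ω.card : ℝ)) =
      ∑ e ∈ G, Ex s t R U G p q (fun ω => ind (D ω) * ind (e ∈ ω)) := by
    rw [← Ex_sum]
    apply Ex_congr
    intro ω hω
    rw [card_eq' G ω hω, Finset.mul_sum]
  rw [h1, h2, Finset.sum_sub_distrib, Finset.sum_div]
  rfl

/-- Lemma (G). -/
theorem glm (h_FKG : FKT.T_FKG) {p q : ℝ} (hp : 0 < p) (hp1 : p < 1) (hq : 1 ≤ q)
    (hG : ∀ e ∈ G, s e ∈ U ∧ t e ∈ U) (D : Finset E → Prop)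
    (hD : ∀ a b : Finset E, a ⊆ b → D b → D a) (h0 : D ∅) (N : Finset E → ℝ)
    (hN : ∀ ω a : Finset E, ω ⊆ G → a ⊆ ω → D a → N ω + a.card ≤ ω.card) :
    Ex s t R U G p q N ≤ ∑ e ∈ G, (Ex s t R U G p q (fun ω => ind (e ∈ ω)) -
      Exc s t R U G p q D fun ω => ind (e ∈ ω)) := by
  classical
  have hq0 : 0 < q := by linarith
  rw [sum_dec]
  have hpos : 0 < Ex s t R U G p q fun ω => ind (D ω) :=
    Ex_pos hp hp1 hq0 (fun ω _ => ind_nonneg _) (Finset.empty_subset G)
      (by rw [ind_true h0]; exact one_pos)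
  -- the increasing function
  have h1 : Ex s t R U G p q (fun ω => ind (D ω) * (ω.card : ℝ)) =
      Ex s t R U G p q fun ω => ind (D ω) * (mxs D ω : ℝ) := by
    apply Ex_congr
    intro ω _
    by_cases h : D ω
    · rw [mxs_of h]
    · rw [ind_false h, zero_mul, zero_mul]
  have h2 := (h_FKG V E s t R U G p q hp hp1 hq hG).1 (fun ω => (mxs D ω : ℝ))
    (fun ω => 1 - ind (D ω)) (fun a b hab => by exact_mod_cast mxs_mono hab)
    (fun a b hab => by
      have := ind_mono (hD a b hab)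
      linarith)
  have h3 : Ex s t R U G p q (fun ω => (mxs D ω : ℝ) * (1 - ind (D ω))) =
      Ex s t R U G p q (fun ω => (mxs D ω : ℝ)) -
        Ex s t R U G p q fun ω => ind (D ω) * (mxs D ω : ℝ) := by
    rw [← Ex_sub]
    apply Ex_congr
    intro ω _
    ring
  have h4 : Ex s t R U G p q (fun ω => 1 - ind (D ω)) =
      1 - Ex s t R U G p q fun ω => ind (D ω) := by
    rw [Ex_sub (fun _ => (1 : ℝ)) (fun ω => ind (D ω)), Ex_const hp hp1 hq0]
  rw [h3, h4] at h2
  have h5 : Ex s t R U G p q (fun ω => ind (D ω) * (mxs D ω : ℝ)) ≤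
      Ex s t R U G p q (fun ω => (mxs D ω : ℝ)) * Ex s t R U G p q fun ω => ind (D ω) := by
    linarith
  have h6 : Ex s t R U G p q N ≤ Ex s t R U G p q fun ω => (ω.card : ℝ) - (mxs D ω : ℝ) := by
    apply Ex_mono hp hp1 hq0
    intro ω hω
    obtain ⟨a, ha, hb, hc⟩ := exists_mxs h0 ω
    have h := hN ω a hω ha hb
    rw [hc] at h
    linarith
  rw [Ex_sub (fun ω : Finset E => (ω.card : ℝ)) (fun ω => (mxs D ω : ℝ))] at h6
  have h7 : Ex s t R U G p q (fun ω => ind (D ω) * (ω.card : ℝ)) /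
      Ex s t R U G p q (fun ω => ind (D ω)) ≤ Ex s t R U G p q fun ω => (mxs D ω : ℝ) := by
    rw [div_le_iff₀ hpos, h1]
    exact h5
  linarith

/-- Lemma (G), integrated. -/
theorem glmI (h_FKG : FKT.T_FKG) (h_LGD : T_LGD) {q : ℝ} (hq : 1 ≤ q)
    (hG : ∀ e ∈ G, s e ∈ U ∧ t e ∈ U) (D : Finset E → Prop)
    (hD : ∀ a b : Finset E, a ⊆ b → D b → D a) (h0 : D ∅) (N : Finset E → ℝ)
    (hN : ∀ ω a : Finset E, ω ⊆ G → a ⊆ ω → D a → N ω + a.card ≤ ω.card) (M a b : ℝ)
    (hab : a ≤ b) (hM : ∀ l, a ≤ l → l ≤ b → M ≤ Ex s t R U G (lg l) q N) :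
    Ex s t R U G (lg b) q (fun ω => ind (D ω)) ≤
      Real.exp (-(M * (b - a))) * Ex s t R U G (lg a) q fun ω => ind (D ω) := by
  refine h_LGD V E s t R U G q (by linarith) D M a b hab ⟨∅, Finset.empty_subset G, h0⟩ ?_
  intro l h1 h2
  have hp : 0 < lg l := by
    unfold lg
    positivity
  have hp1 : lg l < 1 := by
    unfold lg
    have h := Real.exp_pos l
    rw [div_lt_one (by linarith)]
    linarith
  exact (hM l h1 h2).trans (glm s t R U G h_FKG hp hp1 hq hG D hD h0 N hN)

end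

end Pool.Agent.FKS
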