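import Pool.Agent.FKP.Basic
import Pool.Agent.FKP.Lem

/-!
# Project FKS (MP_552f07_pr): the general Holley inequality

For positive functions `μ`, `ν` on the subsets of a finite set `G` such that adding one edge is
relatively more favourable for `ν` (also on larger sets), the measure `ν` dominates `μ`.
-/

set_option autoImplicit false

namespace Pool.Agent.FKS

open Pool.Agent.FKT Pool.Agent.FKP
open scoped FinsetFamily

/-- The lattice inequality from the comparison of single edges, first form. -/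
theorem hlg_step {E : Type} [DecidableEq E] {G : Finset E} {μ ν : Finset E → ℝ}
    (hμ : ∀ a, a ⊆ G → 0 < μ a) (hν : ∀ a, a ⊆ G → 0 < ν a)
    (h : ∀ (a b : Finset E) (e : E), a ⊆ b → b ⊆ G → e ∈ G → e ∉ b →
      μ (insert e a) * ν b ≤ μ a * ν (insert e b))
    (b c : Finset E) (hb : b ⊆ G) (hc : c ⊆ b) (D : Finset E) (hD : D ⊆ G)
    (hDb : Disjoint D b) :
    μ (c ∪ D) * ν b ≤ μ c * ν (D ∪ b) := by
  induction D using Finset.induction_on with
  | empty => simp
  | insert e D he ih =>
    have hD' : D ⊆ G := fun x hx => hD (Finset.mem_insert_of_mem hx)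
    have hDb' : Disjoint D b := by
      rw [Finset.disjoint_insert_left] at hDb
      exact hDb.2
    have heb : e ∉ b := by
      rw [Finset.disjoint_insert_left] at hDb
      exact hDb.1
    have ih' := ih hD' hDb'
    have hDbG : D ∪ b ⊆ G := Finset.union_subset hD' hb
    have h1 := h (c ∪ D) (D ∪ b) e
      (by
        intro x hx
        rw [Finset.mem_union] at hx ⊢
        rcases hx with hx | hx
        · exact Or.inr (hc hx)
        · exact Or.inl hx)
      hDbG (hD (Finset.mem_insert_self e D))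
      (by
        rw [Finset.mem_union]
        exact fun h => h.elim he heb)
    have e1 : c ∪ insert e D = insert e (c ∪ D) := Finset.union_insert e c D
    have e2 : insert e D ∪ b = insert e (D ∪ b) := Finset.insert_union e D b
    rw [e1, e2]
    have p1 : 0 < ν (D ∪ b) := hν _ hDbG
    have p2 : 0 < ν b := hν b hb
    have p3 : 0 < ν (insert e (D ∪ b)) :=
      hν _ (Finset.insert_subset (hD (Finset.mem_insert_self e D)) hDbG)
    have h2 : (μ (insert e (c ∪ D)) * ν b) * ν (D ∪ b) ≤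
        (μ c * ν (insert e (D ∪ b))) * ν (D ∪ b) := by
      calc (μ (insert e (c ∪ D)) * ν b) * ν (D ∪ b)
          = (μ (insert e (c ∪ D)) * ν (D ∪ b)) * ν b := by ring
        _ ≤ (μ (c ∪ D) * ν (insert e (D ∪ b))) * ν b := mul_le_mul_of_nonneg_right h1 p2.le
        _ = (μ (c ∪ D) * ν b) * ν (insert e (D ∪ b)) := by ring
        _ ≤ (μ c * ν (D ∪ b)) * ν (insert e (D ∪ b)) := mul_le_mul_of_nonneg_right ih' p3.le
        _ = _ := by ring
    exact le_of_mul_le_mul_right h2 p1

/-- The lattice inequality from the comparison of single edges. -/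
theorem hlg_lattice {E : Type} [DecidableEq E] {G : Finset E} {μ ν : Finset E → ℝ}
    (hμ : ∀ a, a ⊆ G → 0 < μ a) (hν : ∀ a, a ⊆ G → 0 < ν a)
    (h : ∀ (a b : Finset E) (e : E), a ⊆ b → b ⊆ G → e ∈ G → e ∉ b →
      μ (insert e a) * ν b ≤ μ a * ν (insert e b))
    (a b : Finset E) (ha : a ⊆ G) (hb : b ⊆ G) :
    μ a * ν b ≤ μ (a ∩ b) * ν (a ∪ b) := by
  have h1 := hlg_step hμ hν h b (a ∩ b) hb Finset.inter_subset_right (a \ b)
    (Finset.sdiff_subset.trans ha) Finset.sdiff_disjoint
  have e1 : (a ∩ b) ∪ (a \ b) = a := by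
    rw [Finset.union_comm]
    exact Finset.sdiff_union_inter a b
  have e2 : (a \ b) ∪ b = a ∪ b := Finset.sdiff_union_self_eq_union
  rw [e1, e2] at h1
  exact h1

/-- The general Holley inequality. -/
theorem holley {E : Type} [DecidableEq E] {G : Finset E} {μ ν : Finset E → ℝ}
    (hμ : ∀ a, a ⊆ G → 0 < μ a) (hν : ∀ a, a ⊆ G → 0 < ν a)
    (h : ∀ (a b : Finset E) (e : E), a ⊆ b → b ⊆ G → e ∈ G → e ∉ b →
      μ (insert e a) * ν b ≤ μ a * ν (insert e b))
    (f : Finset E → ℝ) (hf : ∀ a b : Finset E, a ⊆ b → b ⊆ G → f a ≤ f b) :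
    (∑ a ∈ G.powerset, μ a * f a) * ∑ a ∈ G.powerset, ν a ≤
      (∑ a ∈ G.powerset, μ a) * ∑ a ∈ G.powerset, ν a * f a := by
  set F : Finset E → ℝ := fun a => |f a - f ∅| with hF
  have hFa : ∀ a, a ⊆ G → F a = f a - f ∅ := fun a ha =>
    abs_of_nonneg (sub_nonneg.mpr (hf ∅ a (Finset.empty_subset a) ha))
  have hF0 : ∀ a, 0 ≤ F a := fun a => abs_nonneg _
  have hμa : ∀ a, a ⊆ G → |μ a| = μ a := fun a ha => abs_of_pos (hμ a ha)
  have hνa : ∀ a, a ⊆ G → |ν a| = ν a := fun a ha => abs_of_pos (hν a ha)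
  have key := Finset.four_functions_theorem (f₁ := fun a => |μ a| * F a)
    (f₂ := fun a => |ν a|) (f₃ := fun a => |μ a|)
    (f₄ := fun a => |ν a| * F a) G
    (fun a => mul_nonneg (abs_nonneg _) (hF0 a))
    (fun a => abs_nonneg _) (fun a => abs_nonneg _)
    (fun a => mul_nonneg (abs_nonneg _) (hF0 a)) (by
      intro a ha b hb
      have k1 := hlg_lattice hμ hν h a b ha hb
      have k2 : F a ≤ F (a ∪ b) := by
        rw [hFa a ha, hFa _ (Finset.union_subset ha hb)]
        exact sub_le_sub_right (hf _ _ Finset.subset_union_left (Finset.union_subset ha hb)) _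
      have hi : a ∩ b ⊆ G := Finset.inter_subset_left.trans ha
      have hu : a ∪ b ⊆ G := Finset.union_subset ha hb
      simp only [hμa a ha, hνa b hb, hμa _ hi, hνa _ hu]
      calc μ a * F a * ν b = (μ a * ν b) * F a := by ring
        _ ≤ (μ (a ∩ b) * ν (a ∪ b)) * F (a ∪ b) :=
            mul_le_mul k1 k2 (hF0 a) (mul_pos (hμ _ hi) (hν _ hu)).le
        _ = μ (a ∩ b) * (ν (a ∪ b) * F (a ∪ b)) := by ring)
    (subset_refl G.powerset) (subset_refl G.powerset)
  rw [Finset.powerset_infs_powerset_self, Finset.powerset_sups_powerset_self] at key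
  have c1 : ∑ a ∈ G.powerset, |μ a| * F a = ∑ a ∈ G.powerset, μ a * f a -
      (∑ a ∈ G.powerset, μ a) * f ∅ := by
    rw [Finset.sum_mul, ← Finset.sum_sub_distrib]
    refine Finset.sum_congr rfl fun a ha => ?_
    rw [Finset.mem_powerset] at ha
    rw [hμa a ha, hFa a ha]
    ring
  have c2 : ∑ a ∈ G.powerset, |ν a| * F a = ∑ a ∈ G.powerset, ν a * f a -
      (∑ a ∈ G.powerset, ν a) * f ∅ := by
    rw [Finset.sum_mul, ← Finset.sum_sub_distrib]
    refine Finset.sum_congr rfl fun a ha => ?_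
    rw [Finset.mem_powerset] at ha
    rw [hνa a ha, hFa a ha]
    ring
  have c3 : ∑ a ∈ G.powerset, |μ a| = ∑ a ∈ G.powerset, μ a :=
    Finset.sum_congr rfl fun a ha => hμa a (Finset.mem_powerset.mp ha)
  have c4 : ∑ a ∈ G.powerset, |ν a| = ∑ a ∈ G.powerset, ν a :=
    Finset.sum_congr rfl fun a ha => hνa a (Finset.mem_powerset.mp ha)
  rw [c1, c2, c3, c4] at key
  nlinarith [key]

end Pool.Agent.FKS
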