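import Pool.Agent.FKS.TargetsD

/-!
# Project FKS, part D: the numbers of the assembly of `T_MLU`
-/

set_option autoImplicit false

namespace Pool.Agent.FKS

open Filter Topology

/-- The tile numbers: elementary inequalities. -/
theorem NUD_tiles (d A J R L : ℕ) (hd : 2 ≤ d) (hJ : 1 ≤ J) (hR : 1 ≤ R) (b : ℝ) (hb : 0 < b)
    (hb2 : b ≤ 1 / 2) (hX : 64 ≤ (L : ℝ)) (hA : (A : ℝ) + 6 ≤ (L : ℝ) ^ b)
    (hK : 64 * (d : ℝ) * J * ((2 * d + 1) * R ^ d) ≤ (L : ℝ) ^ b)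
    (ξ σ M t N : ℕ) (hξ : ξ = ⌊(L : ℝ) ^ (1 - b)⌋₊) (hσ : σ = ξ / 2)
    (hM : M = L / (2 * σ + 1) + 1) (ht : t = M / (4 * d * J))
    (hN : N = t / ((2 * d + 1) * R ^ d)) :
    1 ≤ σ ∧ (L : ℝ) ^ (1 - b) / 4 ≤ σ ∧ (σ : ℝ) ≤ (L : ℝ) ^ (1 - b) ∧
    2 * σ ≤ ξ ∧ L ≤ (2 * σ + 1) * M + σ ∧
    4 * d * J * t ≤ M ∧
    (2 * σ + 1) * (M + J * (4 * d * t)) + A * σ ≤ 32 * L ∧
    (2 * σ + 1) * (M + J * (4 * d * t)) + 6 * σ < 32 * L ∧
    (L : ℝ) ^ b / (64 * (d : ℝ) * J * ((2 * d + 1) * R ^ d)) ≤ N ∧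
    2 * ((M + J * (4 * d * t) : ℕ) : ℝ) + 1 ≤ 13 * (L : ℝ) ^ b := by
  have hL0 : (0 : ℝ) < L := by linarith
  have hL1 : (1 : ℝ) ≤ L := by linarith
  have hk8 : (8 : ℝ) ≤ (L : ℝ) ^ (1 - b) := by
    have h1 : (64 : ℝ) ^ (1 / 2 : ℝ) ≤ (L : ℝ) ^ (1 - b) := by
      calc (64 : ℝ) ^ (1 / 2 : ℝ) ≤ (L : ℝ) ^ (1 / 2 : ℝ) :=
            Real.rpow_le_rpow (by norm_num) hX (by norm_num)
        _ ≤ (L : ℝ) ^ (1 - b) := Real.rpow_le_rpow_of_exponent_le hL1 (by linarith)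
    have h2 : (64 : ℝ) ^ (1 / 2 : ℝ) = 8 := by
      rw [show (64 : ℝ) = 8 ^ (2 : ℝ) by norm_num, ← Real.rpow_mul (by norm_num)]
      norm_num
    linarith
  have hprod : (L : ℝ) ^ (1 - b) * (L : ℝ) ^ b = L := by
    rw [← Real.rpow_add hL0]
    simp
  have hb0 : 0 < (L : ℝ) ^ b := Real.rpow_pos_of_pos hL0 _
  set Y := (L : ℝ) ^ (1 - b) with hY
  set Z := (L : ℝ) ^ b with hZ
  have hY0 : 0 < Y := by linarith
  have hξ1 : (ξ : ℝ) ≤ Y := by rw [hξ]; exact Nat.floor_le hY0.le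
  have hξ2 : Y - 1 < ξ := by rw [hξ]; exact Nat.sub_one_lt_floor Y
  have hσ1 : 2 * σ ≤ ξ := by omega
  have hσ2 : ξ ≤ 2 * σ + 1 := by omega
  have hσ1r : 2 * (σ : ℝ) ≤ ξ := by exact_mod_cast hσ1
  have hσ2r : (ξ : ℝ) ≤ 2 * σ + 1 := by exact_mod_cast hσ2
  have hσlo : Y / 4 ≤ σ := by linarith
  have hσhi : (σ : ℝ) ≤ Y := by linarith
  have hσpos : 1 ≤ σ := by
    have : (0 : ℝ) < σ := by linarith
    exact_mod_cast this
  have hSlo : Y / 2 ≤ 2 * (σ : ℝ) + 1 := by linarith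
  have hShi : 2 * (σ : ℝ) + 1 ≤ 2 * Y := by linarith
  have hS0 : (0 : ℝ) < 2 * σ + 1 := by linarith
  have hM1 : L < (2 * σ + 1) * M := by
    rw [hM]
    exact Nat.lt_mul_div_succ L (by omega)
  have hM2 : (2 * σ + 1) * M ≤ L + (2 * σ + 1) := by
    rw [hM, mul_add, mul_one]
    have := Nat.mul_div_le L (2 * σ + 1)
    omega
  have hM1r : (L : ℝ) < (2 * σ + 1) * M := by exact_mod_cast hM1
  have hM2r : (2 * (σ : ℝ) + 1) * M ≤ L + (2 * σ + 1) := by exact_mod_cast hM2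
  have hMlo : Z / 2 ≤ M := by
    by_contra hcon
    push Not at hcon
    have h1 : (2 * (σ : ℝ) + 1) * M ≤ 2 * Y * (Z / 2) :=
      mul_le_mul hShi hcon.le (by positivity) (by positivity)
    have h2 : 2 * Y * (Z / 2) = L := by rw [← hprod]; ring
    linarith
  have hMhi : (M : ℝ) ≤ 3 * Z := by
    have h1 : Y / 2 * ((M : ℝ) - 1) ≤ (2 * σ + 1) * ((M : ℝ) - 1) := by
      refine mul_le_mul_of_nonneg_right hSlo ?_
      have h0 : 1 ≤ M := by rw [hM]; exact Nat.le_add_left 1 _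
      have : (1 : ℝ) ≤ M := by exact_mod_cast h0
      linarith
    have h2 : (2 * (σ : ℝ) + 1) * ((M : ℝ) - 1) ≤ L := by linarith
    have h3 : Y / 2 * ((M : ℝ) - 1) ≤ Y * Z := by rw [hprod]; linarith
    have h4 : ((M : ℝ) - 1) / 2 ≤ Z := by
      have h5 : Y * (((M : ℝ) - 1) / 2) ≤ Y * Z := by linarith
      exact le_of_mul_le_mul_left h5 hY0
    have h6 : (6 : ℝ) ≤ Z := by
      have : (0 : ℝ) ≤ A := Nat.cast_nonneg A
      linarith
    linarith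
  have ht1 : 4 * d * J * t ≤ M := by
    rw [ht]
    exact Nat.mul_div_le M (4 * d * J)
  have hdJ : 0 < 4 * d * J := by positivity
  have hM0 : M + J * (4 * d * t) ≤ 2 * M := by
    have : J * (4 * d * t) = 4 * d * J * t := by ring
    omega
  have hM0r : ((M + J * (4 * d * t) : ℕ) : ℝ) ≤ 2 * M := by exact_mod_cast hM0
  have hbig : (2 * (σ : ℝ) + 1) * ((M + J * (4 * d * t) : ℕ) : ℝ) ≤ 6 * L := by
    have h1 : (2 * (σ : ℝ) + 1) * ((M + J * (4 * d * t) : ℕ) : ℝ) ≤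
        (2 * (σ : ℝ) + 1) * (2 * M) := mul_le_mul_of_nonneg_left hM0r hS0.le
    have h2 : 2 * Y ≤ 2 * L := by
      have h3 : Y * 1 ≤ Y * Z := by
        refine mul_le_mul_of_nonneg_left ?_ hY0.le
        have : (0 : ℝ) ≤ A := Nat.cast_nonneg A
        linarith
      rw [hprod] at h3
      linarith
    linarith
  have hAσ : (A : ℝ) * σ ≤ L := by
    calc (A : ℝ) * σ ≤ Z * Y := mul_le_mul (by linarith) hσhi (by positivity) hb0.le
      _ = L := by rw [mul_comm]; exact hprod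
  have h6σ : 6 * (σ : ℝ) ≤ L := by
    have h0 : (0 : ℝ) ≤ A := Nat.cast_nonneg A
    calc 6 * (σ : ℝ) ≤ Z * Y := mul_le_mul (by linarith) hσhi (by positivity) hb0.le
      _ = L := by rw [mul_comm]; exact hprod
  refine ⟨hσpos, hσlo, hσhi, hσ1, by omega, ht1, ?_, ?_, ?_, ?_⟩
  · have h1 : (((2 * σ + 1) * (M + J * (4 * d * t)) + A * σ : ℕ) : ℝ) ≤ ((32 * L : ℕ) : ℝ) := by
      push_cast at hbig ⊢
      linarith
    exact_mod_cast h1
  · have h1 : (((2 * σ + 1) * (M + J * (4 * d * t)) + 6 * σ : ℕ) : ℝ) < ((32 * L : ℕ) : ℝ) := by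
      push_cast at hbig ⊢
      linarith
    exact_mod_cast h1
  · set T : ℕ := (2 * d + 1) * R ^ d with hT
    have hTpos : 0 < T := by positivity
    have hTr : ((2 * (d : ℝ) + 1) * (R : ℝ) ^ d) = (T : ℝ) := by rw [hT]; push_cast; ring
    rw [hTr] at hK ⊢
    have hTr0 : (0 : ℝ) < T := by exact_mod_cast hTpos
    have hdJr : (0 : ℝ) < 4 * d * J := by exact_mod_cast hdJ
    have h1 : M < 4 * d * J * (t + 1) := by
      rw [ht]
      exact Nat.lt_mul_div_succ M hdJ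
    have h2 : t < T * (N + 1) := by
      rw [hN]
      exact Nat.lt_mul_div_succ t hTpos
    have h1r : (M : ℝ) < 4 * d * J * (t + 1) := by exact_mod_cast h1
    have h2r : (t : ℝ) + 1 ≤ T * (N + 1) := by exact_mod_cast h2
    have h3 : (M : ℝ) < 4 * d * J * (T * (N + 1)) :=
      h1r.trans_le (mul_le_mul_of_nonneg_left h2r hdJr.le)
    have h4 : Z / 2 < 4 * d * J * (T * (N + 1)) := hMlo.trans_lt h3
    have hP : (0 : ℝ) < d * J * T := by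
      have h5 : (0 : ℝ) < 4 * d * J * T := mul_pos hdJr hTr0
      nlinarith
    rw [div_le_iff₀ (by nlinarith)]
    nlinarith
  · linarith

end Pool.Agent.FKS
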