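import Pool.Agent.FKS.P_NUD

/-!
# Project FKS, part D: asymptotic inequalities for the assembly of `T_MLU`
-/

set_option autoImplicit false

namespace Pool.Agent.FKS

open Filter Topology Asymptotics

/-- A power is eventually larger than a constant. -/
theorem NUE_const (s C : ℝ) (hs : 0 < s) : ∀ᶠ L : ℕ in atTop, C ≤ (L : ℝ) ^ s :=
  ((tendsto_rpow_atTop hs).comp tendsto_natCast_atTop_atTop).eventually_ge_atTop C

/-- Comparison of negative powers. -/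
theorem NUE_pow (α c C : ℝ) (h : c < α) :
    ∀ᶠ L : ℕ in atTop, C * (L : ℝ) ^ (-α) ≤ (L : ℝ) ^ (-c) / 4 := by
  filter_upwards [NUE_const (α - c) (4 * |C|) (by linarith), eventually_ge_atTop 1] with L h1 h2
  have hL : (0 : ℝ) < L := by exact_mod_cast h2
  have e1 : (L : ℝ) ^ (-c) = (L : ℝ) ^ (-α) * (L : ℝ) ^ (α - c) := by
    rw [← Real.rpow_add hL]
    congr 1
    ring
  have h3 : 0 < (L : ℝ) ^ (-α) := Real.rpow_pos_of_pos hL _
  have h4 : C ≤ |C| := le_abs_self C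
  rw [e1]
  have h5 : (L : ℝ) ^ (-α) * (4 * |C|) ≤ (L : ℝ) ^ (-α) * (L : ℝ) ^ (α - c) :=
    mul_le_mul_of_nonneg_left h1 h3.le
  have h6 : C * (L : ℝ) ^ (-α) ≤ |C| * (L : ℝ) ^ (-α) := mul_le_mul_of_nonneg_right h4 h3.le
  linarith

/-- The logarithm is eventually smaller than a power. -/
theorem NUE_log (s : ℝ) (hs : 0 < s) : ∀ᶠ L : ℕ in atTop, Real.log (L : ℝ) ≤ (L : ℝ) ^ s := by
  have h1 := (isLittleO_log_rpow_atTop hs).bound (show (0 : ℝ) < 1 by norm_num)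
  have h2 := tendsto_natCast_atTop_atTop (R := ℝ) |>.eventually h1
  filter_upwards [h2, eventually_ge_atTop 1] with L h3 h4
  have hL : (0 : ℝ) < L := by exact_mod_cast h4
  rw [one_mul, Real.norm_eq_abs, Real.norm_eq_abs,
    abs_of_pos (Real.rpow_pos_of_pos hL _)] at h3
  exact (le_abs_self _).trans h3

/-- The exponential term. -/
theorem NUE_exp (b c0 c1 K1 : ℝ) (hb : 0 < b) (hc0 : 0 ≤ c0) (hc1 : 0 ≤ c1) (hK : 0 < K1) :
    ∀ᶠ L : ℕ in atTop, 4 * (L : ℝ) ^ (b / 2) * (c0 + c1 * Real.log L) + Real.log L ≤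
      (L : ℝ) ^ (7 * b / 8) / K1 := by
  filter_upwards [NUE_log (b / 8) (by linarith),
    NUE_const (b / 4) (K1 * (4 * c0 + 4 * c1 + 1)) (by linarith), eventually_ge_atTop 1]
    with L h1 h2 h3
  have hL1 : (1 : ℝ) ≤ L := by exact_mod_cast h3
  have hL : (0 : ℝ) < L := by linarith
  have p0 : 0 < (L : ℝ) ^ (b / 2) := Real.rpow_pos_of_pos hL _
  have q1 : (1 : ℝ) ≤ (L : ℝ) ^ (b / 8) := Real.one_le_rpow hL1 (by linarith)
  have q2 : (1 : ℝ) ≤ (L : ℝ) ^ (b / 2) := Real.one_le_rpow hL1 (by linarith)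
  have e5 : (L : ℝ) ^ (b / 2) * (L : ℝ) ^ (b / 8) = (L : ℝ) ^ (5 * b / 8) := by
    rw [← Real.rpow_add hL]
    congr 1
    ring
  have e7 : (L : ℝ) ^ (5 * b / 8) * (L : ℝ) ^ (b / 4) = (L : ℝ) ^ (7 * b / 8) := by
    rw [← Real.rpow_add hL]
    congr 1
    ring
  have p5 : 0 < (L : ℝ) ^ (5 * b / 8) := Real.rpow_pos_of_pos hL _
  have h4 : c0 + c1 * Real.log L ≤ (c0 + c1) * (L : ℝ) ^ (b / 8) := by
    have h5 : c1 * Real.log L ≤ c1 * (L : ℝ) ^ (b / 8) := mul_le_mul_of_nonneg_left h1 hc1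
    have h6 : c0 * 1 ≤ c0 * (L : ℝ) ^ (b / 8) := mul_le_mul_of_nonneg_left q1 hc0
    linarith
  have h5 : 4 * (L : ℝ) ^ (b / 2) * (c0 + c1 * Real.log L) ≤
      4 * (c0 + c1) * (L : ℝ) ^ (5 * b / 8) := by
    calc 4 * (L : ℝ) ^ (b / 2) * (c0 + c1 * Real.log L) ≤
        4 * (L : ℝ) ^ (b / 2) * ((c0 + c1) * (L : ℝ) ^ (b / 8)) :=
          mul_le_mul_of_nonneg_left h4 (by positivity)
      _ = 4 * (c0 + c1) * (L : ℝ) ^ (5 * b / 8) := by rw [← e5]; ring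
  have h6 : Real.log L ≤ (L : ℝ) ^ (5 * b / 8) := by
    rw [← e5]
    calc Real.log L ≤ 1 * (L : ℝ) ^ (b / 8) := by rw [one_mul]; exact h1
      _ ≤ (L : ℝ) ^ (b / 2) * (L : ℝ) ^ (b / 8) :=
        mul_le_mul_of_nonneg_right q2 (by positivity)
  rw [le_div_iff₀ hK, ← e7]
  have h7 : (L : ℝ) ^ (5 * b / 8) * (K1 * (4 * c0 + 4 * c1 + 1)) ≤
      (L : ℝ) ^ (5 * b / 8) * (L : ℝ) ^ (b / 4) := mul_le_mul_of_nonneg_left h2 p5.le
  have h8 : (4 * (L : ℝ) ^ (b / 2) * (c0 + c1 * Real.log L) + Real.log L) * K1 ≤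
      ((4 * (c0 + c1) + 1) * (L : ℝ) ^ (5 * b / 8)) * K1 := by
    refine mul_le_mul_of_nonneg_right ?_ hK.le
    linarith
  calc _ ≤ ((4 * (c0 + c1) + 1) * (L : ℝ) ^ (5 * b / 8)) * K1 := h8
    _ = (L : ℝ) ^ (5 * b / 8) * (K1 * (4 * c0 + 4 * c1 + 1)) := by ring
    _ ≤ _ := h7

/-- A common positive lower bound. -/
theorem NUE_min (J : ℕ) (ε : ℕ → ℝ) (h : ∀ i, 0 < ε i ∧ ε i < 1) :
    ∃ e : ℝ, 0 < e ∧ e < 1 ∧ ∀ i < J, e ≤ ε i := by
  induction J with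
  | zero => exact ⟨1 / 2, by norm_num, by norm_num, fun i hi => absurd hi (Nat.not_lt_zero i)⟩
  | succ J ih =>
    obtain ⟨e, h1, h2, h3⟩ := ih
    refine ⟨min e (ε J), lt_min h1 (h J).1, (min_le_left _ _).trans_lt h2, fun i hi => ?_⟩
    rcases Nat.lt_succ_iff_lt_or_eq.1 hi with h4 | h4
    · exact (min_le_left _ _).trans (h3 i h4)
    · rw [h4]
      exact min_le_right _ _

/-- The power of the sprinkling density. -/
theorem NUE_gpow (e b : ℝ) (he : 0 < e) (he1 : e < 1) (hb : 0 < b) (σ : ℕ) (X : ℝ)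
    (hσ : 1 ≤ σ) (hσX : (σ : ℝ) ≤ X) :
    X ^ (-(b / 8)) ≤ e ^ ⌊b / (8 * -Real.log e) * Real.log σ⌋₊ := by
  have hle : Real.log e < 0 := Real.log_neg he he1
  have hs0 : (1 : ℝ) ≤ σ := by exact_mod_cast hσ
  have hls : 0 ≤ Real.log σ := Real.log_nonneg hs0
  have hX0 : 0 < X := by linarith
  have h1 : (⌊b / (8 * -Real.log e) * Real.log σ⌋₊ : ℝ) ≤ b / (8 * -Real.log e) * Real.log σ := by
    refine Nat.floor_le ?_
    have : 0 < 8 * -Real.log e := by linarith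
    positivity
  have e1 : e ^ ⌊b / (8 * -Real.log e) * Real.log σ⌋₊ =
      Real.exp ((⌊b / (8 * -Real.log e) * Real.log σ⌋₊ : ℝ) * Real.log e) := by
    rw [← Real.rpow_natCast, Real.rpow_def_of_pos he, mul_comm]
  have e2 : b / (8 * -Real.log e) * Real.log σ * Real.log e = -(b / 8) * Real.log σ := by
    have : Real.log e ≠ 0 := hle.ne
    field_simp
  rw [e1, Real.rpow_def_of_pos hX0, Real.exp_le_exp]
  have h2 : b / (8 * -Real.log e) * Real.log σ * Real.log e ≤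
      (⌊b / (8 * -Real.log e) * Real.log σ⌋₊ : ℝ) * Real.log e :=
    mul_le_mul_of_nonpos_right h1 hle.le
  have h3 : Real.log σ ≤ Real.log X := Real.log_le_log (by linarith) hσX
  have h4 : b / 8 * Real.log σ ≤ b / 8 * Real.log X :=
    mul_le_mul_of_nonneg_left h3 (by linarith)
  rw [e2] at h2
  linarith

end Pool.Agent.FKS
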