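import Pool.Agent.FKP.Lem

/-!
# Project FKS: planar crossing lemma (d = 2)

A left-right path and a bottom-top path in a rectangle of the square lattice have a common vertex.
Proof: for an open path from `u` to `v` let `f x y` be the net number of upward steps of the path
from height `y` to height `y + 1` with abscissa larger than `x`.
-/

set_option autoImplicit false

namespace Pool.Agent.FKS

open Pool.Agent.FKT Pool.Agent.FKP

theorem tgt_zero (e : Ed 2) (h : e.2 = 0) : tgt e 0 = e.1 0 + 1 ∧ tgt e 1 = e.1 1 := by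
  unfold tgt
  rw [h]
  constructor <;> simp

theorem tgt_one (e : Ed 2) (h : e.2 = 1) : tgt e 0 = e.1 0 ∧ tgt e 1 = e.1 1 + 1 := by
  unfold tgt
  rw [h]
  constructor <;> simp

theorem vx_ext (u v : Vx 2) (h0 : u 0 = v 0) (h1 : u 1 = v 1) : u = v := by
  funext i
  fin_cases i
  · exact h0
  · exact h1

open Classical in
/-- The flux function of a connection. -/
theorem flux_exists {b0 b1 : ℤ} {O : Set (Ed 2)}
    (hO : ∀ e ∈ O, b0 ≤ e.1 1 ∧ tgt e 1 ≤ b1) {u v : Vx 2} (h : Cn O u v) :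
    ∃ f : ℤ → ℤ → ℤ,
      (∀ w w' : Vx 2, w' 0 = w 0 + 1 → w' 1 = w 1 → ¬ Cn O u w' →
        f (w' 0) (w' 1) = f (w 0) (w 1)) ∧
      (∀ w w' : Vx 2, w' 0 = w 0 → w' 1 = w 1 + 1 → ¬ Cn O u w' →
        f (w 0) (w 1) - f (w' 0) (w' 1) =
          (if v 1 = w' 1 ∧ w' 0 < v 0 then 1 else 0) -
            (if u 1 = w' 1 ∧ w' 0 < u 0 then 1 else 0)) ∧
      ∀ x y : ℤ, (y < b0 ∨ b1 ≤ y) → f x y = 0 := by
  induction h with
  | rel a b hab =>
    rcases hab with hab | ⟨e, he, h1, h2⟩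
    · exact hab.elim
    · subst h1 h2
      have hC : Cn O e.1 (tgt e) := Con_edge he
      have hR : Cn O e.1 e.1 := Con_refl _ _
      obtain ⟨hb0, hb1⟩ := hO e he
      have hi : e.2 = 0 ∨ e.2 = 1 := by
        have : ∀ i : Fin 2, i = 0 ∨ i = 1 := by decide
        exact this e.2
      rcases hi with hi | hi
      · obtain ⟨t0, t1⟩ := tgt_zero e hi
        refine ⟨fun _ _ => 0, fun _ _ _ _ _ => rfl, ?_, fun _ _ _ => rfl⟩
        intro w w' hw0 hw1 hn
        have hne : w' ≠ e.1 := fun hh => hn (hh ▸ hR)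
        have hne' : ¬ (w' 0 = e.1 0 ∧ w' 1 = e.1 1) := fun hh =>
          hne (vx_ext _ _ hh.1 hh.2)
        rw [t0, t1]
        show (0 : ℤ) - 0 = _
        split_ifs <;> omega
      · obtain ⟨t0, t1⟩ := tgt_one e hi
        refine ⟨fun x y => if y = e.1 1 ∧ x < e.1 0 then 1 else 0, ?_, ?_, ?_⟩
        · intro w w' hw0 hw1 hn
          have hne : w' ≠ e.1 := fun hh => hn (hh ▸ hR)
          have hne' : ¬ (w' 0 = e.1 0 ∧ w' 1 = e.1 1) := fun hh =>
            hne (vx_ext _ _ hh.1 hh.2)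
          simp only
          split_ifs <;> omega
        · intro w w' hw0 hw1 hn
          rw [t0, t1]
          simp only
          split_ifs <;> omega
        · intro x y hy
          simp only
          split_ifs <;> omega
  | refl a =>
    refine ⟨fun _ _ => 0, fun _ _ _ _ _ => rfl, ?_, fun _ _ _ => rfl⟩
    intro w w' _ _ _
    simp
  | symm a b hab ih =>
    obtain ⟨f, h1, h2, h3⟩ := ih
    refine ⟨fun x y => - f x y, ?_, ?_, ?_⟩
    · intro w w' hw0 hw1 hn
      have := h1 w w' hw0 hw1 (fun hh => hn (Con_trans (Con_symm hab) hh))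
      simp only [this]
    · intro w w' hw0 hw1 hn
      have := h2 w w' hw0 hw1 (fun hh => hn (Con_trans (Con_symm hab) hh))
      simp only
      linarith
    · intro x y hy
      simp only [h3 x y hy, neg_zero]
  | trans a b c hab hbc ih1 ih2 =>
    obtain ⟨f, h1, h2, h3⟩ := ih1
    obtain ⟨g, g1, g2, g3⟩ := ih2
    refine ⟨fun x y => f x y + g x y, ?_, ?_, ?_⟩
    · intro w w' hw0 hw1 hn
      have e1 := h1 w w' hw0 hw1 hn
      have e2 := g1 w w' hw0 hw1 (fun hh => hn (Con_trans hab hh))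
      simp only [e1, e2]
    · intro w w' hw0 hw1 hn
      have e1 := h2 w w' hw0 hw1 hn
      have e2 := g2 w w' hw0 hw1 (fun hh => hn (Con_trans hab hh))
      simp only
      linarith
    · intro x y hy
      simp only [h3 x y hy, g3 x y hy, add_zero]

/-- Planar crossing lemma. -/
theorem p_PLN {a0 a1 b0 b1 : ℤ} {O O' : Set (Ed 2)}
    (hO : ∀ e ∈ O, a0 ≤ e.1 0 ∧ tgt e 0 ≤ a1 ∧ b0 ≤ e.1 1 ∧ tgt e 1 ≤ b1)
    (hO' : ∀ e ∈ O', a0 ≤ e.1 0 ∧ tgt e 0 ≤ a1 ∧ b0 ≤ e.1 1 ∧ tgt e 1 ≤ b1)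
    {u v x y : Vx 2} (hu : u 0 = a0) (hv : v 0 = a1) (hv0 : b0 ≤ v 1) (hv1 : v 1 ≤ b1)
    (hx : x 1 = b0) (hy : y 1 = b1) (hx0 : a0 ≤ x 0) (hx1 : x 0 ≤ a1)
    (huv : Cn O u v) (hxy : Cn O' x y) : ∃ w, Cn O u w ∧ Cn O' x w := by
  classical
  by_contra hcon
  push Not at hcon
  have hno : ∀ w, Cn O' x w → ¬ Cn O u w := fun w h1 h2 => hcon w h2 h1
  obtain ⟨f, h1, h2, h3⟩ := flux_exists (b0 := b0) (b1 := b1)
    (fun e he => ⟨(hO e he).2.2.1, (hO e he).2.2.2⟩) huv
  -- the winding number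
  let F : Vx 2 → ℤ := fun w => f (w 0) (w 1) - if w 1 < v 1 then 1 else 0
  -- one edge
  have hedge : ∀ e ∈ O', ¬ Cn O u e.1 → ¬ Cn O u (tgt e) → F e.1 = F (tgt e) := by
    intro e he hn1 hn2
    obtain ⟨ha0, ha1, hb0, hb1⟩ := hO' e he
    have hi : e.2 = 0 ∨ e.2 = 1 := by
      have : ∀ i : Fin 2, i = 0 ∨ i = 1 := by decide
      exact this e.2
    rcases hi with hi | hi
    · obtain ⟨t0, t1⟩ := tgt_zero e hi
      have := h1 e.1 (tgt e) t0 t1 hn2
      simp only [F]
      rw [this, t1]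
    · obtain ⟨t0, t1⟩ := tgt_one e hi
      have hh := h2 e.1 (tgt e) t0 t1 hn2
      have hne : ¬ (tgt e 0 = v 0 ∧ tgt e 1 = v 1) := fun hh =>
        hn2 ((vx_ext _ _ hh.1 hh.2) ▸ huv)
      simp only [F]
      have hu' : ¬ (u 1 = tgt e 1 ∧ tgt e 0 < u 0) := by
        rintro ⟨_, hh⟩
        omega
      rw [if_neg hu'] at hh
      have e1 : f (e.1 0) (e.1 1) = f (tgt e 0) (tgt e 1) +
          (if v 1 = tgt e 1 ∧ tgt e 0 < v 0 then 1 else 0) := by linarith
      rw [e1]
      split_ifs <;> omega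
  -- constancy
  have hconst : ∀ a b : Vx 2, Cn O' a b → Cn O' x a → F a = F b := by
    intro a b hab
    induction hab with
    | rel a b hab =>
      intro hxa
      rcases hab with hab | ⟨e, he, g1, g2⟩
      · exact hab.elim
      · subst g1 g2
        exact hedge e he (hno _ hxa) (hno _ (Con_trans hxa (Con_edge he)))
    | refl a => intro _; rfl
    | symm a b hab ih =>
      intro hxa
      exact (ih (Con_trans hxa (Con_symm hab))).symm
    | trans a b c hab hbc ih1 ih2 =>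
      intro hxa
      exact (ih1 hxa).trans (ih2 (Con_trans hxa hab))
  have hFxy : F x = F y := hconst x y hxy (Con_refl _ _)
  -- the value at the top
  have hFy : F y = 0 := by
    simp only [F]
    rw [h3 _ _ (Or.inr hy.ge), if_neg (by omega)]
    ring
  -- the value at the bottom
  have hFx : F x = -1 := by
    have hxn : ¬ Cn O u x := hno x (Con_refl _ _)
    let x' : Vx 2 := fun i => if i = 0 then x 0 else x 1 - 1
    have hx'0 : x' 0 = x 0 := by simp [x']
    have hx'1 : x' 1 = x 1 - 1 := by simp [x']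
    have hh := h2 x' x hx'0.symm (by omega) hxn
    have hz : f (x' 0) (x' 1) = 0 := h3 _ _ (Or.inl (by omega))
    have hne : ¬ (x 0 = v 0 ∧ x 1 = v 1) := fun hh =>
      hxn ((vx_ext _ _ hh.1 hh.2) ▸ huv)
    have hu' : ¬ (u 1 = x 1 ∧ x 0 < u 0) := by
      rintro ⟨_, hh⟩
      omega
    rw [hz, if_neg hu'] at hh
    have e1 : f (x 0) (x 1) = - (if v 1 = x 1 ∧ x 0 < v 0 then 1 else 0) := by linarith
    simp only [F]
    rw [e1]
    split_ifs <;> omega
  omega

end Pool.Agent.FKS
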