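import Pool.Agent.FKS.P_HLG
import Pool.Agent.FKS.P_GLM

/-!
# Project FKS (MP_552f07_pr): thinning

The random-cluster measure with the larger parameter `p1`, with every open edge deleted
independently with probability `ε`, dominates the measure with the parameter `p < p1` (`thn`).
Corollary (`thn_dist`): if `D` is decreasing then
`log (1 / P_p (D)) ≤ log (1 / ε) * E_{p1} (distance to D)`.
-/

set_option autoImplicit false

namespace Pool.Agent.FKS

open Pool.Agent.FKT Pool.Agent.FKP

/-- The odds. -/
noncomputable def xo (p : ℝ) : ℝ := p / (1 - p)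

theorem xo_pos {p : ℝ} (hp : 0 < p) (hp1 : p < 1) : 0 < xo p := div_pos hp (by linarith)

theorem xo_lt {p p1 : ℝ} (hpp : p < p1) (hp1 : p1 < 1) : xo p < xo p1 := by
  unfold xo
  rw [div_lt_div_iff₀ (by linarith) (by linarith)]
  nlinarith

section

variable {V E : Type} [DecidableEq E] (s t : E → V) (R : V → V → Prop) (U : Finset V)
  (G : Finset E)

/-- The effect of one edge on the weight. -/
theorem wt_insert (h_ADD : FKT.T_ADD) {p q : ℝ} (hp1 : p < 1) (hq : 0 < q)
    (hG : ∀ e ∈ G, s e ∈ U ∧ t e ∈ U) {a : Finset E} {e : E} (he : e ∈ G) (hea : e ∉ a)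
    (ha : a ⊆ G) :
    (Con s t R (a : Set E) (s e) (t e) →
      wt s t R U G p q (insert e a) = xo p * wt s t R U G p q a) ∧
    (¬ Con s t R (a : Set E) (s e) (t e) →
      wt s t R U G p q (insert e a) = xo p / q * wt s t R U G p q a) := by
  have hne : (1 - p : ℝ) ≠ 0 := by linarith
  have hqe : q ≠ 0 := hq.ne'
  have hb : bw p G (insert e a) = xo p * bw p G a := by
    unfold bw xo
    rw [Finset.card_insert_of_notMem hea]
    have hlt : a.card < G.card := by
      apply Finset.card_lt_card
      refine ⟨ha, fun h => hea (h he)⟩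
    have e1 : G.card - a.card = (G.card - (a.card + 1)) + 1 := by omega
    rw [e1, pow_succ, pow_succ]
    field_simp
  have hadd := (h_ADD V E s t R U).1 (a : Set E) e (hG e he).1 (hG e he).2
  constructor
  · intro hc
    unfold wt
    rw [hb, Finset.coe_insert, hadd.1 hc]
    ring
  · intro hc
    unfold wt
    rw [hb, Finset.coe_insert, ← hadd.2 hc, pow_succ]
    field_simp

/-- Thinning. -/
theorem thn (h_ADD : FKT.T_ADD) (h_BER : FKT.T_BER) {p p1 q ε : ℝ} (hp : 0 < p) (hpp : p < p1)
    (hp1 : p1 < 1) (hq : 1 ≤ q) (hG : ∀ e ∈ G, s e ∈ U ∧ t e ∈ U) (hε0 : 0 < ε) (hε1 : ε < 1)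
    (hε : ε * (1 + xo p) * xo p1 ≤ xo p1 - xo p) (f : Finset E → ℝ)
    (hf : ∀ a b : Finset E, a ⊆ b → b ⊆ G → f a ≤ f b) :
    Ex s t R U G p q f ≤ Ex s t R U G p1 q fun ω => EB (1 - ε) ω f := by
  classical
  have hq0 : 0 < q := by linarith
  have hpl : p < 1 := hpp.trans hp1
  have hp10 : 0 < p1 := hp.trans hpp
  have hx := xo_pos hp hpl
  have hx1 := xo_pos hp10 hp1
  have hxx := xo_lt hpp hp1
  have hβ : ∀ w b : Finset E, 0 < bw (1 - ε) w b := fun w b =>
    bw_pos (by linarith) (by linarith) b
  set g : Finset E → Finset E → ℝ := fun w b =>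
    if b ⊆ w then wt s t R U G p1 q w * bw (1 - ε) w b else 0 with hg
  have hg0 : ∀ w b, 0 ≤ g w b := by
    intro w b
    simp only [hg]
    split_ifs
    · exact (mul_pos (wt_pos hp10 hp1 hq0 w) (hβ w b)).le
    · exact le_rfl
  set ν : Finset E → ℝ := fun b => ∑ w ∈ G.powerset, g w b with hν
  have hνpos : ∀ a, a ⊆ G → 0 < ν a := by
    intro a ha
    have h1 : g a a ≤ ν a :=
      Finset.single_le_sum (f := fun w => g w a) (fun w _ => hg0 w a) (Finset.mem_powerset.mpr ha)
    have h2 : 0 < g a a := by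
      simp only [hg, if_pos (Finset.Subset.refl a)]
      exact mul_pos (wt_pos hp10 hp1 hq0 a) (hβ a a)
    linarith
  have hstep : ∀ (a b : Finset E) (e : E), a ⊆ b → b ⊆ G → e ∈ G → e ∉ b →
      wt s t R U G p q (insert e a) * ν b ≤ wt s t R U G p q a * ν (insert e b) := by
    intro a b e hab hb he heb
    have hea : e ∉ a := fun h => heb (hab h)
    have haG : a ⊆ G := hab.trans hb
    set G' := G.erase e with hG'
    have hGe : G = insert e G' := (Finset.insert_erase he).symm
    have heG' : e ∉ G' := Finset.notMem_erase e G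
    have hs : ∀ c : Finset E, ν c = ∑ w ∈ G'.powerset, (g w c + g (insert e w) c) := by
      intro c
      simp only [hν]
      rw [hGe, Finset.sum_powerset_insert heG', ← Finset.sum_add_distrib]
    rw [hs b, hs (insert e b), Finset.mul_sum, Finset.mul_sum]
    apply Finset.sum_le_sum
    intro w hw
    rw [Finset.mem_powerset] at hw
    have hew : e ∉ w := fun h => heG' (hw h)
    have hwG : w ⊆ G := hw.trans (Finset.erase_subset e G)
    have z1 : g w (insert e b) = 0 := by
      simp only [hg]
      rw [if_neg]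
      intro h
      exact hew (h (Finset.mem_insert_self e b))
    by_cases hbw : b ⊆ w
    · have c1 : b ⊆ insert e w := hbw.trans (Finset.subset_insert e w)
      have c2 : insert e b ⊆ insert e w := Finset.insert_subset_insert e hbw
      have hcard := Finset.card_le_card hbw
      have b1 : bw (1 - ε) (insert e w) b = ε * bw (1 - ε) w b := by
        unfold bw
        rw [Finset.card_insert_of_notMem hew]
        have : w.card + 1 - b.card = (w.card - b.card) + 1 := by omega
        rw [this, pow_succ]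
        ring
      have b2 : bw (1 - ε) (insert e w) (insert e b) = (1 - ε) * bw (1 - ε) w b := by
        unfold bw
        rw [Finset.card_insert_of_notMem hew, Finset.card_insert_of_notMem heb]
        have : w.card + 1 - (b.card + 1) = w.card - b.card := by omega
        rw [this, pow_succ]
        ring
      rw [z1, zero_add]
      simp only [hg, if_pos hbw, if_pos c1, if_pos c2]
      rw [b1, b2]
      -- the two ratios
      obtain ⟨r, r1, hr0, hr1, hrx, hrr, e1, e2⟩ : ∃ r r1 : ℝ, 0 < r ∧ 0 < r1 ∧ r ≤ xo p ∧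
          r * xo p1 ≤ xo p * r1 ∧
          wt s t R U G p q (insert e a) = r * wt s t R U G p q a ∧
          wt s t R U G p1 q (insert e w) = r1 * wt s t R U G p1 q w := by
        have k1 := wt_insert s t R U G h_ADD hpl hq0 hG he hea haG
        have k2 := wt_insert s t R U G h_ADD hp1 hq0 hG he hew hwG
        have hqle : ∀ y : ℝ, 0 < y → y / q ≤ y := fun y hy => div_le_self hy.le hq
        by_cases ha : Con s t R (a : Set E) (s e) (t e)
        · have hw' : Con s t R (w : Set E) (s e) (t e) :=
            Con_mono (fun _ _ h => h) (by exact_mod_cast hab.trans hbw) ha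
          exact ⟨xo p, xo p1, hx, hx1, le_rfl, le_rfl, k1.1 ha, k2.1 hw'⟩
        · by_cases hw' : Con s t R (w : Set E) (s e) (t e)
          · refine ⟨xo p / q, xo p1, div_pos hx hq0, hx1, hqle _ hx, ?_, k1.2 ha, k2.1 hw'⟩
            exact mul_le_mul_of_nonneg_right (hqle _ hx) hx1.le
          · refine ⟨xo p / q, xo p1 / q, div_pos hx hq0, div_pos hx1 hq0, hqle _ hx, ?_,
              k1.2 ha, k2.2 hw'⟩
            apply le_of_eq
            ring
      rw [e1, e2]
      have hA := wt_pos (s := s) (t := t) (R := R) (U := U) (G := G) hp hpl hq0 a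
      have hB := wt_pos (s := s) (t := t) (R := R) (U := U) (G := G) hp10 hp1 hq0 w
      have hb0 := hβ w b
      -- r (1 + ε r1) ≤ (1 - ε) r1
      have key : r * (1 + ε * r1) ≤ (1 - ε) * r1 := by
        have k1 : ε * (1 + r) * (r1 * xo p1) ≤ ε * (1 + xo p) * (r1 * xo p1) := by
          apply mul_le_mul_of_nonneg_right _ (mul_pos hr1 hx1).le
          apply mul_le_mul_of_nonneg_left _ hε0.le
          linarith
        have k2 : ε * (1 + xo p) * xo p1 * r1 ≤ (xo p1 - xo p) * r1 :=
          mul_le_mul_of_nonneg_right hε hr1.le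
        have k3 : (r * (1 + ε * r1)) * xo p1 ≤ ((1 - ε) * r1) * xo p1 := by nlinarith
        exact le_of_mul_le_mul_right k3 hx1
      have hP : 0 ≤ wt s t R U G p q a * wt s t R U G p1 q w * bw (1 - ε) w b := by positivity
      calc r * wt s t R U G p q a * (wt s t R U G p1 q w * bw (1 - ε) w b +
            r1 * wt s t R U G p1 q w * (ε * bw (1 - ε) w b))
          = (r * (1 + ε * r1)) *
              (wt s t R U G p q a * wt s t R U G p1 q w * bw (1 - ε) w b) := by ring
        _ ≤ ((1 - ε) * r1) *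
              (wt s t R U G p q a * wt s t R U G p1 q w * bw (1 - ε) w b) :=
            mul_le_mul_of_nonneg_right key hP
        _ = _ := by ring
    · have c1 : ¬ b ⊆ insert e w := by
        intro h
        apply hbw
        intro y hy
        rcases Finset.mem_insert.mp (h hy) with h1 | h1
        · exact absurd (h1 ▸ hy) heb
        · exact h1
      have z2 : g w b = 0 := by simp only [hg, if_neg hbw]
      have z3 : g (insert e w) b = 0 := by simp only [hg, if_neg c1]
      rw [z1, z2, z3, zero_add, mul_zero, zero_add]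
      exact mul_nonneg (wt_pos hp hpl hq0 a).le (hg0 _ _)
  have hkey := holley (G := G) (μ := wt s t R U G p q) (ν := ν)
    (fun a _ => wt_pos hp hpl hq0 a) hνpos hstep f hf
  -- sums of ν
  have hsum : ∀ F : Finset E → ℝ, ∑ b ∈ G.powerset, ν b * F b =
      ∑ w ∈ G.powerset, wt s t R U G p1 q w * EB (1 - ε) w F := by
    intro F
    simp only [hν, Finset.sum_mul]
    rw [Finset.sum_comm]
    apply Finset.sum_congr rfl
    intro w hw
    rw [Finset.mem_powerset] at hw
    unfold EB
    rw [Finset.mul_sum]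
    have hsub : w.powerset ⊆ G.powerset := Finset.powerset_mono.mpr hw
    rw [← Finset.sum_subset hsub]
    · apply Finset.sum_congr rfl
      intro b hb
      rw [Finset.mem_powerset] at hb
      simp only [hg, if_pos hb]
      ring
    · intro b _ hb
      rw [Finset.mem_powerset] at hb
      simp only [hg, if_neg hb, zero_mul]
  have hsum1 : ∑ b ∈ G.powerset, ν b = ∑ w ∈ G.powerset, wt s t R U G p1 q w := by
    have h := hsum (fun _ => 1)
    simp only [mul_one] at h
    rw [h]
    apply Finset.sum_congr rfl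
    intro w _
    rw [(h_BER E (1 - ε) w).2.1, mul_one]
  rw [hsum f, hsum1] at hkey
  unfold Ex
  rw [div_le_div_iff₀ (Z_pos hp hpl hq0) (Z_pos hp10 hp1 hq0)]
  linarith

/-- The probability of the removal of all edges of `ω \ a`. -/
theorem EB_sub (h_BER : FKT.T_BER) {ε : ℝ} (ω a : Finset E) (ha : a ⊆ ω) :
    EB (1 - ε) ω (fun b => ind (b ⊆ a)) = ε ^ (ω.card - a.card) := by
  have h1 := (h_BER E (1 - ε) ω).2.2.1 (ω \ a) (fun b => ind (b = ∅)) Finset.sdiff_subset
  have h2 : EB (1 - ε) ω (fun b => ind (b ⊆ a)) =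
      EB (1 - ε) ω (fun b => ind (b ∩ (ω \ a) = ∅)) := by
    unfold EB
    apply Finset.sum_congr rfl
    intro b hb
    rw [Finset.mem_powerset] at hb
    congr 1
    apply ind_congr
    constructor
    · intro h
      ext x
      simp only [Finset.mem_inter, Finset.mem_sdiff, Finset.notMem_empty, iff_false]
      exact fun hx => hx.2.2 (h hx.1)
    · intro h x hx
      by_contra hxa
      have : x ∈ b ∩ (ω \ a) := by
        simp only [Finset.mem_inter, Finset.mem_sdiff]
        exact ⟨hx, hb hx, hxa⟩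
      rw [h] at this
      exact absurd this (Finset.notMem_empty x)
  rw [h2, h1]
  unfold EB
  rw [Finset.sum_eq_single ∅]
  · show bw (1 - ε) (ω \ a) ∅ * ind ((∅ : Finset E) = ∅) = _
    rw [ind_true rfl, mul_one]
    unfold bw
    rw [Finset.card_empty, pow_zero, one_mul, Nat.sub_zero, Finset.card_sdiff_of_subset ha]
    congr 1
    ring
  · intro b _ hb
    show bw (1 - ε) (ω \ a) b * ind (b = ∅) = 0
    rw [ind_false hb, mul_zero]
  · intro h
    exact absurd (Finset.empty_mem_powerset _) h

/-- The exponential moment of the distance to a decreasing event. -/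
theorem thn_exp (h_ADD : FKT.T_ADD) (h_BER : FKT.T_BER) {p p1 q ε : ℝ} (hp : 0 < p)
    (hpp : p < p1) (hp1 : p1 < 1) (hq : 1 ≤ q) (hG : ∀ e ∈ G, s e ∈ U ∧ t e ∈ U) (hε0 : 0 < ε)
    (hε1 : ε < 1) (hε : ε * (1 + xo p) * xo p1 ≤ xo p1 - xo p) (D : Finset E → Prop)
    (hD : ∀ a b : Finset E, a ⊆ b → D b → D a) (h0 : D ∅) :
    Ex s t R U G p1 q (fun ω => ε ^ (ω.card - mxs D ω)) ≤
      Ex s t R U G p q fun ω => ind (D ω) := by
  have hq0 : 0 < q := by linarith
  have h1 := thn s t R U G h_ADD h_BER hp hpp hp1 hq hG hε0 hε1 hε (fun ω => - ind (D ω))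
    (fun a b hab _ => neg_le_neg (ind_mono (hD a b hab)))
  have h2 : Ex s t R U G p q (fun ω => - ind (D ω)) = - Ex s t R U G p q fun ω => ind (D ω) := by
    have := Ex_mul_left (s := s) (t := t) (R := R) (U := U) (G := G) (p := p) (q := q) (-1)
      (fun ω => ind (D ω))
    simpa using this
  have h3 : Ex s t R U G p1 q (fun ω => ε ^ (ω.card - mxs D ω)) ≤
      Ex s t R U G p1 q fun ω => - EB (1 - ε) ω fun b => - ind (D b) := by
    apply Ex_mono (hp.trans hpp) hp1 hq0
    intro ω _
    obtain ⟨a, ha, hb, hc⟩ := exists_mxs h0 ω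
    rw [← hc, ← EB_sub h_BER ω a ha]
    have h4 : - EB (1 - ε) ω (fun b => - ind (D b)) = EB (1 - ε) ω fun b => ind (D b) := by
      unfold EB
      rw [← Finset.sum_neg_distrib]
      apply Finset.sum_congr rfl
      intro b _
      ring
    rw [h4]
    apply (h_BER E (1 - ε) ω).2.2.2.2 (by linarith) (by linarith)
    intro b _
    exact ind_mono (fun h => hD b a h hb)
  have h5 : Ex s t R U G p1 q (fun ω => - EB (1 - ε) ω fun b => - ind (D b)) =
      - Ex s t R U G p1 q fun ω => EB (1 - ε) ω fun b => - ind (D b) := by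
    have := Ex_mul_left (s := s) (t := t) (R := R) (U := U) (G := G) (p := p1) (q := q) (-1)
      (fun ω => EB (1 - ε) ω fun b => - ind (D b))
    simpa using this
  rw [h2] at h1
  rw [h5] at h3
  linarith

/-- The mean distance to a decreasing event. -/
theorem thn_dist (h_ADD : FKT.T_ADD) (h_BER : FKT.T_BER) {p p1 q ε : ℝ} (hp : 0 < p)
    (hpp : p < p1) (hp1 : p1 < 1) (hq : 1 ≤ q) (hG : ∀ e ∈ G, s e ∈ U ∧ t e ∈ U) (hε0 : 0 < ε)
    (hε1 : ε < 1) (hε : ε * (1 + xo p) * xo p1 ≤ xo p1 - xo p) (D : Finset E → Prop)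
    (hD : ∀ a b : Finset E, a ⊆ b → D b → D a) (h0 : D ∅) :
    Real.log (1 / Ex s t R U G p q fun ω => ind (D ω)) ≤ Real.log (1 / ε) *
      Ex s t R U G p1 q fun ω => (ω.card : ℝ) - (mxs D ω : ℝ) := by
  have hq0 : 0 < q := by linarith
  have hpl : p < 1 := hpp.trans hp1
  have hp10 : 0 < p1 := hp.trans hpp
  have h1 := thn_exp s t R U G h_ADD h_BER hp hpp hp1 hq hG hε0 hε1 hε D hD h0
  set m := Ex s t R U G p1 q fun ω => (ω.card : ℝ) - (mxs D ω : ℝ) with hm
  set c := Real.log (1 / ε) with hc
  have hεc : ε = Real.exp (-c) := by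
    rw [hc, one_div, Real.log_inv, neg_neg, Real.exp_log hε0]
  -- Jensen
  have h2 : Real.exp (-(c * m)) ≤ Ex s t R U G p1 q fun ω => ε ^ (ω.card - mxs D ω) := by
    have h3 : Ex s t R U G p1 q (fun ω => Real.exp (-(c * m)) * (1 + c * m) -
        Real.exp (-(c * m)) * c * ((ω.card : ℝ) - (mxs D ω : ℝ))) ≤
        Ex s t R U G p1 q fun ω => ε ^ (ω.card - mxs D ω) := by
      apply Ex_mono hp10 hp1 hq0
      intro ω _
      have hle : mxs D ω ≤ ω.card := mxs_le ω
      set h : ℝ := (ω.card : ℝ) - (mxs D ω : ℝ) with hh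
      have e1 : ε ^ (ω.card - mxs D ω) = Real.exp (-(c * h)) := by
        rw [hεc, ← Real.exp_nat_mul, Nat.cast_sub hle]
        congr 1
        rw [hh]
        ring
      rw [e1]
      have e2 : Real.exp (-(c * h)) = Real.exp (-(c * m)) * Real.exp (c * m - c * h) := by
        rw [← Real.exp_add]
        congr 1
        ring
      rw [e2]
      have e3 := Real.add_one_le_exp (c * m - c * h)
      have e4 := mul_le_mul_of_nonneg_left e3 (Real.exp_pos (-(c * m))).le
      nlinarith
    have h4 : Ex s t R U G p1 q (fun ω => Real.exp (-(c * m)) * (1 + c * m) -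
        Real.exp (-(c * m)) * c * ((ω.card : ℝ) - (mxs D ω : ℝ))) =
        Real.exp (-(c * m)) * (1 + c * m) - Real.exp (-(c * m)) * c * m := by
      rw [Ex_sub (fun _ => Real.exp (-(c * m)) * (1 + c * m)) (fun ω : Finset E =>
        Real.exp (-(c * m)) * c * ((ω.card : ℝ) - (mxs D ω : ℝ))), Ex_const hp10 hp1 hq0,
        Ex_mul_left]
    rw [h4] at h3
    linarith
  have hpos : 0 < Ex s t R U G p q fun ω => ind (D ω) :=
    Ex_pos hp hpl hq0 (fun ω _ => ind_nonneg _) (Finset.empty_subset G)
      (by rw [ind_true h0]; exact one_pos)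
  have h6 := Real.log_le_log (Real.exp_pos _) (h2.trans h1)
  rw [Real.log_exp] at h6
  rw [one_div, Real.log_inv]
  linarith

end

end Pool.Agent.FKS
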