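import Pool.Agent.FKS.TargetsU
import Pool.Agent.FKP.Lem

/-!
# Project FKS, part U: target TPP (polynomial lower bound of the two-point function)
-/

set_option autoImplicit false

namespace Pool.Agent.FKS

open Filter MeasureTheory Pool.Agent.FKP
open Pool.Agent.FKT hiding ind

namespace TPP_

theorem mem_bx {d : ℕ} {x v : Vx d} {n : ℕ} :
    v ∈ bx x n ↔ ∀ i, x i - n ≤ v i ∧ v i ≤ x i + n := by
  unfold bx
  rw [Finset.mem_Icc]
  exact ⟨fun h i => ⟨h.1 i, h.2 i⟩, fun h => ⟨fun i => (h i).1, fun i => (h i).2⟩⟩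

theorem small_le_one {c : ℝ} {m k : ℕ} (hm : 1 ≤ m) : min c 1 / (m : ℝ) ^ k ≤ 1 := by
  have h1 : (1 : ℝ) ≤ (m : ℝ) ^ k := one_le_pow₀ (by exact_mod_cast hm)
  rw [div_le_one (by linarith)]
  exact le_trans (min_le_right _ _) h1

/-- A step of even length in the positive direction. -/
theorem line {d : ℕ} {p q : ℝ} (hp : 0 < p) (hp1 : p < 1) (hq : 1 ≤ q) (hCHN : T_CHN)
    {c : ℝ} {K : ℕ} (hc : 0 < c)
    (hSTR : ∀ R N : ℕ, 1 ≤ R → K * R ^ d ≤ N → ∀ i : Fin d,
      c / (R : ℝ) ^ (2 * (d - 1)) ≤ tp (bx (0 : Vx d) N) p q 0 (Pi.single i (2 * R : ℤ)))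
    {m N : ℕ} (hm : 1 ≤ m) (hN : K * m ^ d + 2 * m ≤ N) (j : Fin d) (R : ℕ) (hR : R ≤ m)
    (z : Vx d) (hz : z ∈ bx (0 : Vx d) (2 * m)) :
    min c 1 / (m : ℝ) ^ (2 * (d - 1)) ≤
      tp (bx (0 : Vx d) N) p q z (z + Pi.single j (2 * (R : ℤ))) := by
  obtain ⟨-, hmono, -, htr, -, hrefl, -⟩ := hCHN d p q hp hp1 hq
  by_cases hR0 : R = 0
  · subst hR0
    have h0 : z + Pi.single j (2 * ((0 : ℕ) : ℤ)) = z := by simp
    rw [h0, hrefl]
    exact small_le_one hm
  · have hR1 : 1 ≤ R := Nat.one_le_iff_ne_zero.mpr hR0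
    have h1 := hSTR R (K * m ^ d) hR1
      (Nat.mul_le_mul_left K (Nat.pow_le_pow_left hR d)) j
    have h2 := htr 0 (Pi.single j (2 * (R : ℤ))) z (K * m ^ d)
    rw [zero_add, add_comm (Pi.single j (2 * (R : ℤ))) z] at h2
    have hsub : bx z (K * m ^ d) ⊆ bx (0 : Vx d) N := by
      intro v hv
      obtain ⟨A, hA⟩ : ∃ A : ℕ, A = K * m ^ d := ⟨_, rfl⟩
      rw [← hA] at hv hN
      rw [mem_bx] at hv hz ⊢
      intro i
      have e1 := hv i
      have e2 := hz i
      simp only [Pi.zero_apply] at e2 ⊢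
      omega
    have h3 := hmono _ _ z (z + Pi.single j (2 * (R : ℤ))) hsub
    have h4 : min c 1 / (m : ℝ) ^ (2 * (d - 1)) ≤ c / (R : ℝ) ^ (2 * (d - 1)) := by
      have hRpos : (0 : ℝ) < (R : ℝ) ^ (2 * (d - 1)) := by positivity
      apply div_le_div₀ hc.le (min_le_left _ _) hRpos
      exact pow_le_pow_left₀ (by positivity) (by exact_mod_cast hR) _
    exact le_trans h4 (le_trans h1 (le_trans (le_of_eq h2.symm) h3))

/-- A step which changes one coordinate. -/
theorem step {d : ℕ} {p q : ℝ} (hp : 0 < p) (hp1 : p < 1) (hq : 1 ≤ q) (hCHN : T_CHN)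
    {c : ℝ} {K : ℕ} (hc : 0 < c)
    (hSTR : ∀ R N : ℕ, 1 ≤ R → K * R ^ d ≤ N → ∀ i : Fin d,
      c / (R : ℝ) ^ (2 * (d - 1)) ≤ tp (bx (0 : Vx d) N) p q 0 (Pi.single i (2 * R : ℤ)))
    {m N : ℕ} (hm : 1 ≤ m) (hN : K * m ^ d + 2 * m ≤ N) (j : Fin d)
    (z : Vx d) (hz : z ∈ bx (0 : Vx d) m) (t : ℤ) (ht : -(m : ℤ) ≤ z j + t ∧ z j + t ≤ m) :
    min c 1 / (m : ℝ) ^ (2 * (d - 1)) * (p / (p + q * (1 - p))) ≤
      tp (bx (0 : Vx d) N) p q z (z + Pi.single j t) := by
  obtain ⟨hchn, -, hsym, -, hedge, hrefl, -⟩ := hCHN d p q hp hp1 hq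
  have hz' := mem_bx.mp hz
  have hzj : -(m : ℤ) ≤ z j ∧ z j ≤ m := by
    have := hz' j
    simp only [Pi.zero_apply] at this
    constructor <;> linarith [this.1, this.2]
  have hmZ : (1 : ℤ) ≤ m := by exact_mod_cast hm
  have hNZ : (2 : ℤ) * m ≤ N := by
    have : 2 * m ≤ N := le_trans (Nat.le_add_left _ _) hN
    exact_mod_cast this
  have hπ1 : p / (p + q * (1 - p)) ≤ 1 := by
    have : 0 ≤ q * (1 - p) := mul_nonneg (by linarith) (by linarith)
    rw [div_le_one (by linarith)]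
    linarith
  -- the intermediate point
  obtain ⟨R, hRdef⟩ : ∃ R : ℤ, R = t / 2 := ⟨_, rfl⟩
  obtain ⟨ε, hεdef⟩ : ∃ ε : ℤ, ε = t % 2 := ⟨_, rfl⟩
  have hdec : t = 2 * R + ε := by rw [hRdef, hεdef]; omega
  have hε : ε = 0 ∨ ε = 1 := by omega
  obtain ⟨w, hw⟩ : ∃ w : Vx d, w = z + Pi.single j (2 * R) := ⟨_, rfl⟩
  have hwt : z + Pi.single j t = w + Pi.single j ε := by
    rw [hw, add_assoc, ← Pi.single_add, ← hdec]
  have hw2 : w ∈ bx (0 : Vx d) (2 * m) := by
    rw [mem_bx]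
    intro i
    have := hz' i
    simp only [Pi.zero_apply] at this ⊢
    push_cast
    by_cases hi : i = j
    · subst hi
      rw [hw]
      simp only [Pi.add_apply, Pi.single_eq_same]
      constructor <;> omega
    · rw [hw]
      simp only [Pi.add_apply, Pi.single_eq_of_ne hi]
      constructor <;> linarith [this.1, this.2]
  have hz2 : z ∈ bx (0 : Vx d) (2 * m) := by
    rw [mem_bx]
    intro i
    have := hz' i
    simp only [Pi.zero_apply] at this ⊢
    push_cast
    constructor <;> linarith [this.1, this.2]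
  have h1 : min c 1 / (m : ℝ) ^ (2 * (d - 1)) ≤ tp (bx (0 : Vx d) N) p q z w := by
    by_cases hR : 0 ≤ R
    · obtain ⟨r, hr⟩ := Int.eq_ofNat_of_zero_le hR
      have hrm : r ≤ m := by omega
      have := line hp hp1 hq hCHN hc hSTR hm hN j r hrm z hz2
      rw [hw, hr]
      exact this
    · obtain ⟨r, hr⟩ := Int.eq_ofNat_of_zero_le (show (0 : ℤ) ≤ -R by omega)
      have hrm : r ≤ m := by omega
      have h2 := line hp hp1 hq hCHN hc hSTR hm hN j r hrm w hw2
      have h3 : w + Pi.single j (2 * (r : ℤ)) = z := by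
        rw [hw, ← hr, add_assoc, ← Pi.single_add]
        have : 2 * R + 2 * (-R) = 0 := by ring
        rw [this, Pi.single_zero, add_zero]
      rw [h3] at h2
      rw [hsym]
      exact h2
  have h2 : p / (p + q * (1 - p)) ≤ tp (bx (0 : Vx d) N) p q w (w + Pi.single j ε) := by
    rcases hε with h | h
    · rw [h, Pi.single_zero, add_zero, hrefl]
      exact hπ1
    · rw [h]
      apply hedge
      · rw [mem_bx] at hw2 ⊢
        intro i
        have := hw2 i
        simp only [Pi.zero_apply] at this ⊢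
        push_cast at this
        constructor <;> linarith [this.1, this.2]
      · rw [mem_bx]
        intro i
        have := hz' i
        simp only [Pi.zero_apply] at this ⊢
        by_cases hi : i = j
        · subst hi
          rw [hw]
          simp only [Pi.add_apply, Pi.single_eq_same]
          constructor <;> omega
        · rw [hw]
          simp only [Pi.add_apply, Pi.single_eq_of_ne hi]
          constructor <;> linarith [this.1, this.2]
  rw [hwt]
  have h0 : 0 ≤ tp (bx (0 : Vx d) N) p q z w :=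
    le_trans (div_nonneg (le_min hc.le zero_le_one) (by positivity)) h1
  have hπ0 : 0 ≤ p / (p + q * (1 - p)) := by
    have : 0 ≤ q * (1 - p) := mul_nonneg (by linarith) (by linarith)
    exact div_nonneg hp.le (by linarith)
  exact le_trans (mul_le_mul h1 h2 hπ0 h0) (hchn _ z w _)

open Classical in
theorem chain {d : ℕ} {p q : ℝ} (hp : 0 < p) (hp1 : p < 1) (hq : 1 ≤ q) (hCHN : T_CHN)
    {c : ℝ} {K : ℕ} (hc : 0 < c)
    (hSTR : ∀ R N : ℕ, 1 ≤ R → K * R ^ d ≤ N → ∀ i : Fin d,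
      c / (R : ℝ) ^ (2 * (d - 1)) ≤ tp (bx (0 : Vx d) N) p q 0 (Pi.single i (2 * R : ℤ)))
    {m N : ℕ} (hm : 1 ≤ m) (hN : K * m ^ d + 2 * m ≤ N)
    (x y : Vx d) (hx : x ∈ bx (0 : Vx d) m) (hy : y ∈ bx (0 : Vx d) m) (T : Finset (Fin d)) :
    (min c 1 / (m : ℝ) ^ (2 * (d - 1)) * (p / (p + q * (1 - p)))) ^ T.card ≤
      tp (bx (0 : Vx d) N) p q x (fun i => if i ∈ T then y i else x i) := by
  obtain ⟨hchn, -, -, -, -, hrefl, hpos⟩ := hCHN d p q hp hp1 hq
  have hx' := mem_bx.mp hx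
  have hy' := mem_bx.mp hy
  induction T using Finset.induction_on with
  | empty =>
    have : (fun i => if i ∈ (∅ : Finset (Fin d)) then y i else x i) = x := by
      funext i; simp
    rw [this, hrefl]
    simp
  | insert j T hj ih =>
    obtain ⟨z, hz⟩ : ∃ z : Vx d, z = fun i => if i ∈ T then y i else x i := ⟨_, rfl⟩
    rw [← hz] at ih
    have hzj : z j = x j := by rw [hz]; simp [hj]
    have hnew : (fun i => if i ∈ insert j T then y i else x i) =
        z + Pi.single j (y j - x j) := by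
      funext i
      by_cases hi : i = j
      · subst hi
        simp [hzj]
      · simp [hi, hz]
    have hzm : z ∈ bx (0 : Vx d) m := by
      rw [mem_bx]
      intro i
      rw [hz]
      by_cases hi : i ∈ T
      · simp only [hi, if_true]; exact hy' i
      · simp only [hi, if_false]; exact hx' i
    have hst := step hp hp1 hq hCHN hc hSTR hm hN j z hzm (y j - x j) (by
      have := hy' j
      simp only [Pi.zero_apply] at this
      rw [hzj]
      constructor <;> linarith [this.1, this.2])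
    rw [hnew, Finset.card_insert_of_notMem hj, pow_succ]
    have hα : 0 ≤ min c 1 / (m : ℝ) ^ (2 * (d - 1)) * (p / (p + q * (1 - p))) := by
      have h1 : 0 ≤ q * (1 - p) := mul_nonneg (by linarith) (by linarith)
      exact mul_nonneg (div_nonneg (le_min hc.le zero_le_one) (by positivity))
        (div_nonneg hp.le (by linarith))
    exact le_trans (mul_le_mul ih hst hα (hpos _ _ _).1) (hchn _ x z _)

end TPP_

theorem p_TPP (h_STR : T_STR) (h_CHN : T_CHN) : T_TPP := by
  intro d p0 p1 q H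
  obtain ⟨c, K, hc, hSTR⟩ := h_STR d p0 p1 q H
  have hp : 0 < p1 := lt_trans H.h0 H.h01
  have hp1 := H.h1
  have hq := H.hq
  have hd := H.hd
  have hq1 : 0 ≤ q * (1 - p1) := mul_nonneg (by linarith) (by linarith)
  have hπ : 0 < p1 / (p1 + q * (1 - p1)) := div_pos hp (by linarith)
  have hc0 : 0 < min c 1 := lt_min hc zero_lt_one
  refine ⟨(min c 1 * (p1 / (p1 + q * (1 - p1)))) ^ d, 2 * d * d, K + 2, by positivity, ?_⟩
  intro m N hm hN x hx y hy
  have hS : ∀ R N : ℕ, 1 ≤ R → K * R ^ d ≤ N → ∀ i : Fin d,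
      c / (R : ℝ) ^ (2 * (d - 1)) ≤ tp (bx (0 : Vx d) N) p1 q 0 (Pi.single i (2 * R : ℤ)) :=
    hSTR
  have hN' : K * m ^ d + 2 * m ≤ N := by
    have h1 : m ^ d ≤ m ^ (2 * d * d) := Nat.pow_le_pow_right hm (by nlinarith)
    have h2 : m ≤ m ^ (2 * d * d) := by
      calc m = m ^ 1 := (pow_one m).symm
        _ ≤ _ := Nat.pow_le_pow_right hm (by nlinarith)
    calc K * m ^ d + 2 * m ≤ K * m ^ (2 * d * d) + 2 * m ^ (2 * d * d) :=
          Nat.add_le_add (Nat.mul_le_mul_left K h1) (Nat.mul_le_mul_left 2 h2)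
      _ = (K + 2) * m ^ (2 * d * d) := by ring
      _ ≤ N := hN
  have hch := TPP_.chain hp hp1 hq h_CHN hc hS hm hN' x y hx hy Finset.univ
  have hfun : (fun i => if i ∈ (Finset.univ : Finset (Fin d)) then y i else x i) = y := by
    funext i; simp
  rw [Finset.card_univ, Fintype.card_fin] at hch
  have hch' : (min c 1 / (m : ℝ) ^ (2 * (d - 1)) * (p1 / (p1 + q * (1 - p1)))) ^ d ≤
      tp (bx (0 : Vx d) N) p1 q x y := by
    convert hch using 2
    exact hfun.symm
  refine le_trans ?_ hch'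
  have hm1 : (1 : ℝ) ≤ m := by exact_mod_cast hm
  have hm0 : (0 : ℝ) < m := by linarith
  have heq : (min c 1 / (m : ℝ) ^ (2 * (d - 1)) * (p1 / (p1 + q * (1 - p1)))) ^ d =
      (min c 1 * (p1 / (p1 + q * (1 - p1)))) ^ d / (m : ℝ) ^ (2 * (d - 1) * d) := by
    rw [pow_mul (m : ℝ) (2 * (d - 1)) d, ← div_pow]
    congr 1
    ring
  rw [heq]
  apply div_le_div_of_nonneg_left (by positivity) (by positivity)
  apply pow_le_pow_right₀ hm1
  apply Nat.mul_le_mul_right
  omega

end Pool.Agent.FKS
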