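import Pool.Agent.FKS.TargetsB
import Pool.Agent.FKS.TargetsD
import Pool.Agent.FKP.PartB
import Pool.Agent.FKP.Lem

/-!
# Project FKS, part E: the cell package `T_CEL` and slab percolation `T_SLS`

First half (`T_CEL` from `T_TOP`, `T_MLU`, `T_GLU`): T_QTR, T_QGP, T_P0M, T_EXB, T_CEG, T_CEP,
T_CEA, T_CLF. Second half (`T_SLS` from `T_CEL`, `T_PIF`, `T_SPR`): a Peierls argument for
the coarse edges of `Vx 2`; a coarse edge is open if both cells are good and the sprinkling links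
their chosen vertices: T_CUE, T_CCU (contours), T_EBP, T_LKP, T_LKS (failed links), T_BDC, T_BDS
(bad cells), T_PEJ, T_BXN, `sls_of`.

In all proofs: `Ex`, `EB` are linear and monotone, `Ex 1 = 1`, `EB 1 = 1` (FKP/Lem.lean; for `EB`
see FKT/P_BER.lean or `Finset.sum_pow_mul_eq_add_pow`), `Cf` is monotone in `ω`. `eb x n` is by
definition `es (bx x n)`.
-/

set_option autoImplicit false

namespace Pool.Agent.FKS

open Filter MeasureTheory Pool.Agent.FKP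
open Pool.Agent.FKT hiding ind

section defs

variable {d : ℕ}

/-- The good event of the cell `x` of size `L`: the giant, and the gluing events of all points of
`x + Λ_L`. -/
def Qg (L ξ M k : ℕ) (x : Vx d) (ω : Finset (Ed d)) : Prop :=
  Gnt x L ξ ω ∧ ∀ y ∈ bx x L, Gl y (2 * ξ) ξ M k ω

open Classical in
/-- The chosen vertex of the giant. -/
noncomputable def sg (L ξ : ℕ) (x : Vx d) (ω : Finset (Ed d)) : Vx d :=
  if h : Gnt x L ξ ω then h.choose else x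

/-- The cell package for given data (the conclusion of `T_CEL`). -/
structure Cel (d : ℕ) (p q δ ε : ℝ) (K a N : ℕ) (Q : Vx d → Finset (Ed d) → Prop)
    (s : Vx d → Finset (Ed d) → Vx d) : Prop where
  ha : 1 ≤ a
  hN : K * a ≤ N
  inc : ∀ x, Inc (Q x)
  loc : ∀ x ω, Q x ω ↔ Q x (ω ∩ eb x (K * a))
  mem : ∀ x ω, s x ω ∈ bx x (K * a)
  prb : ∀ x, P0 x N p q (fun ω => ¬ Q x ω) ≤ ε
  lnk : ∀ (x : Vx d) (i : Fin d) (ω : Finset (Ed d)), Q x ω → Q (x + Pi.single i (a : ℤ)) ω →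
    EB δ (eb x (K * a)) (fun ξ => ind (¬ Cf ((ω ∪ ξ) ∩ eb x (K * a)) (s x ω)
      (s (x + Pi.single i (a : ℤ)) ω))) ≤ ε

/-- The centre `(a z_0, a z_1, 0, ..., 0)` of the coarse cell `z`. -/
def cen (k a : ℕ) (z : Vx 2) : Vx (k + 3) := pos k ((a : ℤ) * z 0) ((a : ℤ) * z 1)

/-- Both ends of the coarse edge `e` are good. -/
def Ge (k a : ℕ) (Q : Vx (k + 3) → Finset (Ed (k + 3)) → Prop) (ω : Finset (Ed (k + 3)))
    (e : Ed 2) : Prop := Q (cen k a e.1) ω ∧ Q (cen k a (tgt e)) ω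

/-- The link of the coarse edge `e`: the chosen vertices are connected. -/
def LkE (k a : ℕ) (s : Vx (k + 3) → Finset (Ed (k + 3)) → Vx (k + 3))
    (ω ξ : Finset (Ed (k + 3))) (e : Ed 2) : Prop :=
  Cf (ω ∪ ξ) (s (cen k a e.1) ω) (s (cen k a (tgt e)) ω)

/-- `P` is connected through unit squares. -/
def Qc (P : Finset (Ed 2)) : Prop := ∀ e ∈ P, ∀ e' ∈ P,
  Relation.ReflTransGen (fun x y => x ∈ P ∧ y ∈ P ∧ Sq x y) e e'

open Classical in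
/-- The possible contours with `n` edges near the cell `z`. -/
noncomputable def ctE (m n : ℕ) (z : Vx 2) : Finset (Finset (Ed 2)) :=
  (es (cbx m)).powerset.filter fun P => P.card = n ∧ Qc P ∧
    ∃ e ∈ P, ∀ i, |e.1 i - z i| ≤ (n : ℤ) ^ 2 + 1

end defs

/-! ## The cell package -/

/-- QTR. Translation of the good event. Proof: `Gl`: T_GTR (1) for all `y = u + x ∈ bx x L`
(`u ∈ bx 0 L`; with `0 + x = x`). `Gnt`: `x0`, `y`, `z` are translated by `x`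
(`bx (u + x) n = (bx u n).map (· + x)`, `eb x (32 L) = (eb 0 (32 L)).map (trE x)`,
`Cf (ω.map (trE x)) (a + x) (b + x) ↔ Cf ω a b`; see the proof of T_GTR or T_GLT). Hypothesis:
T_GTR. -/
def T_QTR : Prop := ∀ (d : ℕ) (x : Vx d) (L ξ M k : ℕ) (ω : Finset (Ed d)),
  Qg L ξ M k x (ω.map (trE x).toEmbedding) ↔ Qg L ξ M k 0 ω

/-- QGP. Elementary properties of the good event and of the chosen vertex. Proof: `Gl_inc`,
`Gl_loc` (FKS/Step.lean); `Gnt x L ξ` is increasing and depends only on `ω ∩ eb x (32 L)`;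
`eb x (32 L) ⊆ eb x (33 L)`, and `eb y M ⊆ eb x (33 L)` for `y ∈ bx x L`. If `Gnt x L ξ ω`, the
chosen vertex is connected to a point of `bx x ξ ⊆ bx x L` (`y = x`) by edges of `eb x (32 L)`:
it is this point or an end of an edge of `eb x (32 L)` (induction on `EqvGen`: the set
`bx x (32 L)` is closed under the steps of `eb x (32 L)`). -/
def T_QGP : Prop := ∀ (d : ℕ) (x : Vx d) (L ξ M k : ℕ), M ≤ 32 * L → ξ ≤ L →
  Inc (Qg L ξ M k x) ∧ (∀ ω, Qg L ξ M k x ω ↔ Qg L ξ M k x (ω ∩ eb x (33 * L))) ∧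
  ∀ ω, sg L ξ x ω ∈ bx x (33 * L)

/-- P0M. An increasing event fails with smaller probability in a larger region and at a larger
parameter. Proof: `ind (¬ Q ω) = 1 - ind (Q ω)`; `fr S p q (ind Q) ≤ fr S p' q (ind Q)` by T_HOL
(`R = R' = no`), then T_DPM. Hypotheses: T_DPM (FKS/TargetsD), FKP.T_HOL. -/
def T_P0M : Prop := ∀ (d : ℕ) (p p' q : ℝ), 0 < p → p ≤ p' → p' < 1 → 1 ≤ q →
  ∀ (S : Finset (Vx d)) (x : Vx d) (N : ℕ), bx x N ⊆ S → ∀ Q : Finset (Ed d) → Prop, Inc Q →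
    fr S p' q (fun ω => ind (¬ Q ω)) ≤ P0 x N p q fun ω => ¬ Q ω

/-- EXB. Exit from a ball. Proof: let `D` be the set of the points connected to `y` in
`ω ∩ eb z ρ`. If no point of `bd z ρ` is in `D` then `D ⊆ bx z ρ \ bd z ρ` (all points of `D` are
in `bx z ρ`) and `D` is closed under all steps of `ω` (an edge with an end in `bx z ρ \ bd z ρ`
has both ends in `bx z ρ`), so `y'' ∈ D`, a contradiction. -/
def T_EXB : Prop := ∀ (d : ℕ) (ω : Finset (Ed d)) (z y y'' : Vx d) (ρ : ℕ), y ∈ bx z ρ →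
  y'' ∉ bx z ρ → Cf ω y y'' → ∃ y' ∈ bd z ρ, Cf (ω ∩ eb z ρ) y y'

/-- CEG. The link of two neighbouring good cells. Proof: T_GLU with `F = eb x (33 L)`,
`ρ = 2 ξ`, `r = ξ`, `Z = {x + t (2 M + 1) e_i | t < T}` (`|Z| = T`), `x0 = sg L ξ x ω`,
`x1 = sg L ξ x' ω`, `x' = x + L e_i`. Every `z ∈ Z` is in `bx x L` and in `bx x' L`
(`0 ≤ t (2 M + 1) ≤ L`), `bx z M ⊆ bx x (33 L)`. The piece of `x0` near `z`: let `v` be `x` with
the coordinate `i` replaced by `x i + L` or `x i - L`, the one with `|v i - z i| ≥ L`. By `Gnt`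
(`sg` is the chosen vertex) there are `y ∈ bx z ξ`, `y'' ∈ bx v ξ` connected to `x0` in
`ω ∩ eb x (32 L)`; `|y'' i - z i| ≥ L - ξ > 2 ξ`, so `y'' ∉ bx z (2 ξ)` and T_EXB gives
`y' ∈ bd z (2 ξ)` with `Cf (ω ∩ eb z (2 ξ)) y y'`; some coordinate of `y' - z` is `± 2 ξ`, so
`Far ξ y y'`. The same for `x1` and `x'`, `eb x' (32 L) ⊆ eb x (33 L)`. Hypotheses: T_GLU,
T_EXB. -/
def T_CEG : Prop := ∀ (d : ℕ) (δ : ℝ) (L ξ M k T : ℕ), 0 < δ → δ ≤ 1 → 1 ≤ ξ → 2 * ξ ≤ M →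
  M ≤ 32 * L → 4 * ξ ≤ L → T * (2 * M + 1) ≤ L →
  ∀ (x : Vx d) (i : Fin d) (ω : Finset (Ed d)), Qg L ξ M k x ω →
    Qg L ξ M k (x + Pi.single i (L : ℤ)) ω →
    EB δ (eb x (33 * L)) (fun ζ => ind (¬ Cf ((ω ∪ ζ) ∩ eb x (33 * L)) (sg L ξ x ω)
      (sg L ξ (x + Pi.single i (L : ℤ)) ω))) ≤ (1 - δ ^ k) ^ T

/-- CEP. The probability of a good cell. Proof: let `κ`, `c`, `B`, `L0` be given by T_MLU, `B'` by
T_TOP, `A'` by T_TOP for `K = 2`, `A = A' + 2`. Given `η`, `ε`, let `C = (d + 1) / κ` and `r0` be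
given by T_TOP for `C`, `η`. For `L` large and `ξ = ⌊L^κ⌋₊` (`ξ ≥ r0`, `ξ ≥ L^κ / 2`):
`L^(-c) ≤ ε / 2` and `(2 L + 1)^d ξ^(-C) ≤ (2 L + 1)^d 2^C L^(-(d + 1)) ≤ ε / 2`. Let
`N0 = max (L^B) (ξ^B' + L + A ξ)`. For `N ≥ N0`: union bound: `¬ Gnt 0 L ξ` has probability at most
`L^(-c)`, and for `y ∈ bx 0 L` the event `¬ Gl y (2 ξ) ξ (A ξ) k` has probability
`P0 0 N (..) ≤ P0 y (N - L) (..)` (T_DPM, `bx y (N - L) ⊆ bx 0 N`)
`= P0 0 (N - L) (¬ Gl 0 ..)` (T_TRP, T_GLT) `≤ P0 0 (N - L) (¬ Gl 0 (2 ξ) ξ (A' ξ) k)`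
(`Gl_mono`, FKS/Step.lean) `≤ ξ^(-C)` (T_TOP). Hypotheses: T_MLU, T_TOP, T_DPM, T_TRP, T_GLT
(the last three are in FKS/TargetsD.lean). -/
def T_CEP : Prop := ∀ (d : ℕ) (p0 p1 q : ℝ), Hyp d p0 p1 q →
  ∃ (κ : ℝ) (A : ℕ), 0 < κ ∧ κ < 1 ∧ 2 ≤ A ∧ ∀ η ε : ℝ, 0 < η → 0 < ε →
    ∃ L0 : ℕ, ∀ L : ℕ, L0 ≤ L → ∃ N0 : ℕ, ∀ N : ℕ, N0 ≤ N →
      P0 (0 : Vx d) N p1 q (fun ω => ¬ Qg L ⌊(L : ℝ) ^ κ⌋₊ (A * ⌊(L : ℝ) ^ κ⌋₊)
        ⌊η * Real.log (⌊(L : ℝ) ^ κ⌋₊ : ℝ)⌋₊ 0 ω) ≤ ε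

/-- CEA. The sprinkling succeeds at one of the places. Proof: let `η = (1 - κ) / (2 log (1 / δ))`,
`ξ = ⌊L^κ⌋₊ ≤ L^κ`, `k = ⌊η log ξ⌋₊ ≤ η κ log L` (`ξ ≥ 1`), so
`δ^k ≥ exp (- log (1 / δ) η κ log L) ≥ L^(-(1 - κ) / 2)`; `T = L / (2 A ξ + 1)` (natural division)
is at least `L / (2 A ξ + 1) - 1 ≥ L^(1 - κ) / (2 A + 1) - 1` as `2 A ξ + 1 ≤ (2 A + 1) L^κ`.
`(1 - δ^k)^T ≤ exp (- δ^k T) → 0`, since
`δ^k T ≥ L^((1 - κ) / 2) / (2 A + 1) - 1 → ∞`. The other claims: `L^κ → ∞`,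
`L^κ / L = L^(κ - 1) → 0`. -/
def T_CEA : Prop := ∀ (κ δ ε : ℝ) (A : ℕ), 0 < κ → κ < 1 → 0 < δ → δ < 1 → 0 < ε →
  ∃ η : ℝ, 0 < η ∧ ∃ L0 : ℕ, ∀ L : ℕ, L0 ≤ L →
    1 ≤ ⌊(L : ℝ) ^ κ⌋₊ ∧ 4 * ⌊(L : ℝ) ^ κ⌋₊ ≤ L ∧ A * ⌊(L : ℝ) ^ κ⌋₊ ≤ 32 * L ∧
    (1 - δ ^ ⌊η * Real.log (⌊(L : ℝ) ^ κ⌋₊ : ℝ)⌋₊) ^
      (L / (2 * (A * ⌊(L : ℝ) ^ κ⌋₊) + 1)) ≤ ε

/-- CLF. `T_CEL` from the preceding targets. Proof: `K = 33`. Let `κ`, `A` be given by T_CEP, then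
(for `δ`, `ε`, `a0`) `η` by T_CEA; take `L ≥ a0`, `L ≥ 1` larger than the two bounds `L0`,
`ξ = ⌊L^κ⌋₊`, `M = A ξ`, `k = ⌊η log ξ⌋₊`, `a = L`, `N = max N0 (33 L)`,
`Q x = Qg L ξ M k x`, `s = sg L ξ`. Increasing, local, `s x ω ∈ bx x (33 L)`: T_QGP. Probability:
T_TRP (FKS/TargetsD) and T_QTR reduce to `x = 0`, T_CEP. Link: T_CEG with `T = L / (2 M + 1)` and
T_CEA. Hypotheses: T_CEP, T_CEA, T_CEG, T_QGP, T_TRP, T_QTR. -/
def T_CLF : Prop := T_CEL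

/-! ## Contours -/

/-- CUE. The contour. Proof: let `J = cbx m`, `W' = {z ∈ J | Cf O z0 z}`. `W'` is connected
(`CnS`): a connection by edges of `O ⊆ es J` starting in `W'` stays in `W'`, and its edges are in
`es W'`. `z0 ∈ W'`, `z1 ∈ J \ W'`. T_SEP (`a = -m`, `b = m`) gives `W`; let `P = bdy J W`,
`n = |P|`. An edge `e ∈ P` has one end in `W`, hence in `W'` (T_SEP), and the other end is not in
`W ⊇ W'`; so `e ∉ O` (an edge of `O` with one end in `W'` has both ends in `W'`). T_CUT: `Qc P`.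
T_NEA gives the position. (Compare FKP/P_CON.lean.) Hypotheses: FKP.T_SEP, FKP.T_CUT,
FKP.T_NEA. -/
def T_CUE : Prop := ∀ (m : ℕ) (O : Finset (Ed 2)) (z0 z1 : Vx 2), O ⊆ es (cbx m) →
  z0 ∈ cbx m → z1 ∈ cbx m → ¬ Cf O z0 z1 →
  ∃ (n : ℕ) (P : Finset (Ed 2)), Disjoint P O ∧ (P ∈ ctE m n z0 ∨ P ∈ ctE m n z1)

/-- CCU. The number of contours. Proof: union over the edges `e` with `|e.1 i - z i| ≤ n^2 + 1`
(`2 (2 (n^2 + 1) + 1)^2` edges); for each, FKP.T_PLQ (`n := 2`): at most `16^(2 n) = 2^(8 n)` sets.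
Hypothesis: FKP.T_PLQ. -/
def T_CCU : Prop := ∀ (m n : ℕ) (z : Vx 2),
  ((ctE m n z).card : ℝ) ≤ 2 * (2 * (n : ℝ) ^ 2 + 3) ^ 2 * 2 ^ (8 * n)

/-! ## Failed links -/

/-- EBP. Product bound for the Bernoulli measure. Proof: for `q = 1` (and `V = Unit`)
`Ex s t R U G δ 1 f = EB δ G f` (the total Bernoulli weight is `1`); FKP.T_PRM with `q = 1`,
`p = δ`, and `ind (∀ j ∈ J, ..) = ∏ j ∈ J, ind (..)`. (Or directly by induction on `J`, splitting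
`ξ = (ξ \ Gj j) ∪ (ξ ∩ Gj j)`.) Hypothesis (optional): FKP.T_PRM. -/
def T_EBP : Prop := ∀ (E ι : Type) [DecidableEq E] [DecidableEq ι] (δ ε : ℝ), 0 < δ → δ < 1 →
  0 ≤ ε → ∀ (G : Finset E) (J : Finset ι) (Gj : ι → Finset E) (B : ι → Finset E → Prop),
  (∀ j ∈ J, Gj j ⊆ G) → (∀ j ∈ J, ∀ k ∈ J, j ≠ k → Disjoint (Gj j) (Gj k)) →
  (∀ j ∈ J, EB δ (Gj j) (fun ξ => ind (B j ξ)) ≤ ε) →
    EB δ G (fun ξ => ind (∀ j ∈ J, B j (ξ ∩ Gj j))) ≤ ε ^ J.card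

/-- LKP. Given `ω`, all the links of `P` fail. Proof: let `P' ⊆ P` be maximal such that for
`e ≠ e'` in `P'` there is `i` with `2 K + 1 ≤ |e.1 i - e'.1 i|`; every `e ∈ P` has its base point
at sup distance at most `2 K` from the base point of an element of `P'`, so
`|P| ≤ 2 (4 K + 1)^2 |P'|`. Let `G_e = eb (cen k a e.1) (K a)`; these sets are disjoint for
`e ∈ P'` (`a (2 K + 1) > 2 K a`) and contained in `es S` (`K a ≤ N`). With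
`B e β = ¬ Cf ((ω ∪ β) ∩ G_e) (s (cen e.1) ω) (s (cen (tgt e)) ω)`: `¬ LkE ω ξ e` implies
`B e (ξ ∩ G_e)`. `cen k a (tgt e) = cen k a e.1 + a e_i` with `i.val = e.2.val`, so `Cel.lnk` gives
`EB δ G_e (ind (B e ·)) ≤ ε`. T_EBP: at most `ε ^ |P'| ≤ (ε0 ^ (2 (4 K + 1)^2)) ^ |P'| ≤
ε0 ^ |P|`. (If `P = ∅` both sides are `1`; otherwise `0 ≤ ε`.) Hypothesis: T_EBP. -/
def T_LKP : Prop := ∀ (k K : ℕ) (p q δ ε ε0 : ℝ) (a N : ℕ)
  (Q : Vx (k + 3) → Finset (Ed (k + 3)) → Prop)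
  (s : Vx (k + 3) → Finset (Ed (k + 3)) → Vx (k + 3)), 0 < δ → δ < 1 → 0 < ε0 → ε0 ≤ 1 →
  ε ≤ ε0 ^ (2 * (4 * K + 1) ^ 2) → Cel (k + 3) p q δ ε K a N Q s →
  ∀ (m : ℕ) (S : Finset (Vx (k + 3))), (∀ z ∈ cbx m, bx (cen k a z) N ⊆ S) →
  ∀ (ω : Finset (Ed (k + 3))) (P : Finset (Ed 2)), P ⊆ es (cbx m) →
    (∀ e ∈ P, Ge k a Q ω e) →
    EB δ (es S) (fun ξ => ind (∀ e ∈ P, ¬ LkE k a s ω ξ e)) ≤ ε0 ^ P.card

/-- LKS. The sum over the contours, failed links. Proof: union bound over `n` (at most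
`|es (cbx m)|`; `n ≥ 1`, since a contour has an edge), `P ∈ ctE m n z` and the subsets `P2` of `P`
(`2^n`) with `n ≤ 2 |P2|` and `Ge ω e` for all `e ∈ P2`. For each, T_LKP with
`ε0 = (1/2)^40`: at most `(1/2)^(40 |P2|) ≤ (1/2)^(20 n)`. By T_CCU the sum is at most
`Σ_{n ≥ 1} 2 (2 n^2 + 3)^2 2^(8 n) 2^n 2^(-20 n) = Σ_{n ≥ 1} 2 (2 n^2 + 3)^2 / 2^(11 n) ≤ 1/16`:
`(2 n^2 + 3)^2 ≤ 25 * 8^(n-1)`, so the sum is at most `(50/2048) / (1 - 8/2048)`. (The same sum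
occurs in FKP/P_PEI.lean.) Hypotheses: T_LKP, T_CCU. -/
def T_LKS : Prop := ∀ (k K : ℕ) (p q δ ε : ℝ) (a N : ℕ)
  (Q : Vx (k + 3) → Finset (Ed (k + 3)) → Prop)
  (s : Vx (k + 3) → Finset (Ed (k + 3)) → Vx (k + 3)), 0 < δ → δ < 1 →
  ε ≤ ((1 / 2 : ℝ) ^ 40) ^ (2 * (4 * K + 1) ^ 2) → Cel (k + 3) p q δ ε K a N Q s →
  ∀ (m : ℕ) (S : Finset (Vx (k + 3))), (∀ z ∈ cbx m, bx (cen k a z) N ⊆ S) →
  ∀ (ω : Finset (Ed (k + 3))) (z : Vx 2),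
    EB δ (es S) (fun ξ => ind (∃ n : ℕ, ∃ P ∈ ctE m n z, ∃ P2 ⊆ P, n ≤ 2 * P2.card ∧
      ∀ e ∈ P2, Ge k a Q ω e ∧ ¬ LkE k a s ω ξ e)) ≤ 1 / 16

/-! ## Bad cells -/

/-- BDC. All the cells of `Z` are bad. Proof: let `c` be given by T_PIF for `p1`, `p2`, `q` and
choose `ε0 > 0` with `ε0 ^ c ≤ θ ^ ((4 K + 1)^2)`. Let `Z' ⊆ Z` be maximal such that for `z ≠ z'`
in `Z'` there is `i` with `2 K + 1 ≤ |z i - z' i|`: `|Z| ≤ (4 K + 1)^2 |Z'|`. T_PIF for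
`I = Z'`, `F z = eb (cen k a z) (K a)` (disjoint, as in T_LKP), `Q z = Q (cen k a z)`, `U = S`,
`G = es S`: the probability is at most `∏_{z ∈ Z'} (fr S p1 q (ind (¬ Q (cen z) ω)))^c`; each
factor is at most `ε^c` by T_P0M (`p = p' = p1`, `x = cen z`) and `Cel.prb`. So the probability
is at most `(θ ^ ((4 K + 1)^2)) ^ |Z'| ≤ θ ^ |Z|`. Hypotheses: T_PIF, T_P0M. -/
def T_BDC : Prop := ∀ (k K : ℕ) (q p1 p2 θ : ℝ), 1 ≤ q → 0 < p1 → p1 < p2 → p2 < 1 → 0 < θ →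
  θ ≤ 1 → ∃ ε0 : ℝ, 0 < ε0 ∧ ∀ (δ ε : ℝ) (a N : ℕ)
  (Q : Vx (k + 3) → Finset (Ed (k + 3)) → Prop)
  (s : Vx (k + 3) → Finset (Ed (k + 3)) → Vx (k + 3)), ε ≤ ε0 →
  Cel (k + 3) p1 q δ ε K a N Q s →
  ∀ (m : ℕ) (S : Finset (Vx (k + 3))), (∀ z ∈ cbx m, bx (cen k a z) N ⊆ S) →
  ∀ Z : Finset (Vx 2), Z ⊆ cbx m →
    fr S p2 q (fun ω => ind (∀ z ∈ Z, ¬ Q (cen k a z) ω)) ≤ θ ^ Z.card

/-- BDS. The sum over the contours, bad cells. Proof: T_BDC with `θ = (1/2)^168`. On the event let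
`Z` be the set of the bad ends of the edges of `P1`: every cell is an end of at most `4` edges, so
`n ≤ 2 |P1| ≤ 8 |Z|`; `Z ⊆ cbx m` is a subset of the set of the ends of `P`, which has at most
`2 n` elements. Union bound over `n ≥ 1`, `P ∈ ctE m n z` and `Z` (`2^(2 n)` subsets) with
`n ≤ 8 |Z|`: `θ^|Z| = (1/2)^(168 |Z|) ≤ (1/2)^(21 n)`; by T_CCU the sum is at most
`Σ_{n ≥ 1} 2 (2 n^2 + 3)^2 2^(8 n) 2^(2 n) 2^(-21 n)`, the same sum as in T_LKS. Hypotheses: T_BDC,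
T_CCU. -/
def T_BDS : Prop := ∀ (k K : ℕ) (q p1 p2 : ℝ), 1 ≤ q → 0 < p1 → p1 < p2 → p2 < 1 →
  ∃ ε0 : ℝ, 0 < ε0 ∧ ∀ (δ ε : ℝ) (a N : ℕ)
  (Q : Vx (k + 3) → Finset (Ed (k + 3)) → Prop)
  (s : Vx (k + 3) → Finset (Ed (k + 3)) → Vx (k + 3)), ε ≤ ε0 →
  Cel (k + 3) p1 q δ ε K a N Q s →
  ∀ (m : ℕ) (S : Finset (Vx (k + 3))), (∀ z ∈ cbx m, bx (cen k a z) N ⊆ S) →
  ∀ z : Vx 2,
    fr S p2 q (fun ω => ind (∃ n : ℕ, ∃ P ∈ ctE m n z, ∃ P1 ⊆ P, n ≤ 2 * P1.card ∧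
      ∀ e ∈ P1, ¬ Ge k a Q ω e)) ≤ 1 / 16

/-! ## The Peierls argument and slab percolation -/

/-- PEJ. Two cells are connected with probability at least `1/2` after the sprinkling. Proof: let
`ε0` be the minimum of the one of T_BDS and of `((1/2)^40)^(2 (4 K + 1)^2)`. For `ω`, `ξ` let `O`
be the set of the `e ∈ es (cbx m)` with `Ge ω e` and `LkE ω ξ e`. If `Cf O z0 z1` then the chosen
vertices of `z0` and `z1` are connected in `ω ∪ ξ` (induction on the connection). Otherwise T_CUE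
gives `n`, `P` with `Disjoint P O` and `P ∈ ctE m n z`, `z = z0` or `z1`. Let `P1` be the set of
the `e ∈ P` with `¬ Ge ω e`, `P2 = P \ P1`: for `e ∈ P2`, `Ge ω e` and `¬ LkE ω ξ e`.
`n = |P1| + |P2|`, so `n ≤ 2 |P1|` or `n ≤ 2 |P2|`: one of the four events of T_BDS, T_LKS (for
`z0`, `z1`). The probability of no connection is at most `4 / 16`. (The event of T_BDS does not
depend on `ξ`: `EB 1 = 1`.) Hypotheses: T_CUE, T_LKS, T_BDS. -/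
def T_PEJ : Prop := ∀ (k K : ℕ) (q p1 p2 : ℝ), 1 ≤ q → 0 < p1 → p1 < p2 → p2 < 1 →
  ∃ ε0 : ℝ, 0 < ε0 ∧ ∀ (δ ε : ℝ) (a N : ℕ)
  (Q : Vx (k + 3) → Finset (Ed (k + 3)) → Prop)
  (s : Vx (k + 3) → Finset (Ed (k + 3)) → Vx (k + 3)), 0 < δ → δ < 1 → ε ≤ ε0 →
  Cel (k + 3) p1 q δ ε K a N Q s →
  ∀ (m : ℕ) (S : Finset (Vx (k + 3))), (∀ z ∈ cbx m, bx (cen k a z) N ⊆ S) →
  ∀ z0 ∈ cbx m, ∀ z1 ∈ cbx m,
    1 / 2 ≤ fr S p2 q fun ω => EB δ (es S) fun ξ =>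
      ind (Cf (ω ∪ ξ) (s (cen k a z0) ω) (s (cen k a z1) ω))

/-- BXN. The two-point function of the slabs with two long directions. Proof: `A0 = N + a`. Let
`A ≥ A0`, `S = bx2 0 1 A N`, `m` the largest natural number with `a m + N ≤ A`. Let `x, y ∈ S`,
`R = 2 N + 2 a`, `Q_x = Icc (x - R) (x + R) ∩ S`, a box. For `i = 0, 1` let `z i` be the number of
`[-m, m]` closest to `⌊x i / a⌋`: as `a (m + 1) + N > A ≥ |x i|`, `|a z i - x i| ≤ N + 2 a`, so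
`bx (cen k a z) N ⊆ Q_x` (`cen` has the coordinates `0` in the other directions, where `S` is
`[-N, N]`; `bx (cen k a z) N ⊆ S` as `a m + N ≤ A`). `Q_x` is connected (T_BCN). If all edges of
`es Q_x` and `es Q_y` are open and some `v ∈ bx (cen z_x) N`, `v' ∈ bx (cen z_y) N` are connected,
then `x` and `y` are connected. By FKT.T_FKG and T_FEN the probability is at least
`α = π^(2 (k+3) (2 R + 1)^(k+3)) / 2`, `π = p / (p + q (1 - p))`. (Compare FKP/P_BX2.lean.)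
Hypotheses: FKP.T_FEN, FKP.T_BCN, FKT.T_FKG. -/
def T_BXN : Prop := ∀ (k : ℕ) (q p : ℝ), 1 ≤ q → 0 < p → p < 1 → ∀ a N : ℕ, 1 ≤ a →
  (∀ A m : ℕ, a * m + N ≤ A → ∀ z0 ∈ cbx m, ∀ z1 ∈ cbx m,
    1 / 2 ≤ fr (bx2 (0 : Fin (k + 3)) 1 A N) p q fun ω =>
      ind (∃ v ∈ bx (cen k a z0) N, ∃ v' ∈ bx (cen k a z1) N, Cf ω v v')) →
  ∃ (A0 : ℕ) (α : ℝ), 0 < α ∧ ∀ A : ℕ, A0 ≤ A → ∀ x ∈ bx2 (0 : Fin (k + 3)) 1 A N,
    ∀ y ∈ bx2 (0 : Fin (k + 3)) 1 A N, α ≤ tp (bx2 (0 : Fin (k + 3)) 1 A N) p q x y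

/-! ## Assembly -/

theorem fits_bx2 (k a N A m : ℕ) (h : a * m + N ≤ A) :
    ∀ z ∈ cbx m, bx (cen k a z) N ⊆ bx2 (0 : Fin (k + 3)) 1 A N := by
  intro z hz v hv
  unfold cbx at hz
  rw [Finset.mem_Icc] at hz
  unfold bx at hv
  rw [Finset.mem_Icc] at hv
  unfold bx2
  rw [Finset.mem_Icc]
  have hA : (a : ℤ) * m + N ≤ A := by exact_mod_cast h
  have ha : (0 : ℤ) ≤ a := Int.natCast_nonneg a
  have hb : ∀ j : Fin 2, -((a : ℤ) * m) ≤ a * z j ∧ (a : ℤ) * z j ≤ a * m := by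
    intro j
    constructor
    · have := mul_le_mul_of_nonneg_left (hz.1 j) ha
      simp only [mul_neg] at this
      exact this
    · exact mul_le_mul_of_nonneg_left (hz.2 j) ha
  have key : ∀ l : Fin (k + 3), (cen k a z l = a * z 0 ∧ l = 0) ∨
      (cen k a z l = a * z 1 ∧ l = 1) ∨ (cen k a z l = 0 ∧ l ≠ 0 ∧ l ≠ 1) := by
    intro l
    unfold cen pos
    by_cases h0 : l.val = 0
    · exact Or.inl ⟨by rw [if_pos h0], Fin.ext h0⟩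
    · by_cases h1 : l.val = 1
      · refine Or.inr (Or.inl ⟨by rw [if_neg h0, if_pos h1], Fin.ext ?_⟩)
        rw [h1]; rfl
      · refine Or.inr (Or.inr ⟨by rw [if_neg h0, if_neg h1], ?_, ?_⟩)
        · intro h; apply h0; rw [h]; rfl
        · intro h; apply h1; rw [h]; rfl
  have h0 := hb 0
  have h1 := hb 1
  constructor
  · intro l
    have hl : cen k a z l - (N : ℤ) ≤ v l := hv.1 l
    show (if l = 0 ∨ l = 1 then -(A : ℤ) else -(N : ℤ)) ≤ v l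
    rcases key l with ⟨h, rfl⟩ | ⟨h, rfl⟩ | ⟨h, hn0, hn1⟩
    · rw [h] at hl; simp only [true_or, if_true]; omega
    · rw [h] at hl; simp only [or_true, if_true]; omega
    · rw [h] at hl; simp only [hn0, hn1, or_self, if_false]; omega
  · intro l
    have hl : v l ≤ cen k a z l + (N : ℤ) := hv.2 l
    show v l ≤ if l = 0 ∨ l = 1 then (A : ℤ) else (N : ℤ)
    rcases key l with ⟨h, rfl⟩ | ⟨h, rfl⟩ | ⟨h, hn0, hn1⟩
    · rw [h] at hl; simp only [true_or, if_true]; omega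
    · rw [h] at hl; simp only [or_true, if_true]; omega
    · rw [h] at hl; simp only [hn0, hn1, or_self, if_false]; omega

theorem hyp_mid {d : ℕ} {p0 p1 p q : ℝ} (h : Hyp d p0 p1 q) (h0 : p0 < p) (h1 : p < 1) :
    Hyp d p0 p q := ⟨h.hd, h.h0, h0, h1, h.hq, h.per⟩

/-- Slab percolation from the targets. -/
theorem sls_of (hC : T_CEL) (hP : T_PEJ) (hS : T_SPR) (hB : T_BXN) (hL : T_SLC) : T_SLS := by
  intro d p0 p q hd h
  obtain ⟨k, rfl⟩ : ∃ k, d = k + 3 := ⟨d - 3, by omega⟩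
  obtain ⟨p1, ha, hb⟩ := exists_between h.h01
  obtain ⟨p2, hc, he⟩ := exists_between hb
  have hp1 : 0 < p1 := h.h0.trans ha
  have hp2 : 0 < p2 := hp1.trans hc
  have hp21 : p2 < 1 := he.trans h.h1
  obtain ⟨δ, hδ0, hδ1, hδ⟩ := hS p2 p q hp2 he h.h1 h.hq
  obtain ⟨K, hK, hK'⟩ := hC (k + 3) p0 p1 q (hyp_mid h ha (hc.trans hp21))
  obtain ⟨ε, hε, hPJ⟩ := hP k K q p1 p2 h.hq hp1 hc hp21
  obtain ⟨a, N, Q, s, -, hN, ha1, hinc, hloc, hmem, hprb, hlnk⟩ := hK' δ ε 0 hδ0 hδ1 hε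
  have hcel : Cel (k + 3) p1 q δ ε K a N Q s := ⟨ha1, hN, hinc, hloc, hmem, hprb, hlnk⟩
  have key : ∀ A m : ℕ, a * m + N ≤ A → ∀ z0 ∈ cbx m, ∀ z1 ∈ cbx m,
      1 / 2 ≤ fr (bx2 (0 : Fin (k + 3)) 1 A N) p q fun ω =>
        ind (∃ v ∈ bx (cen k a z0) N, ∃ v' ∈ bx (cen k a z1) N, Cf ω v v') := by
    intro A m hAm z0 hz0 z1 hz1
    have hfit := fits_bx2 k a N A m hAm
    have h1 := hPJ δ ε a N Q s hδ0 hδ1 le_rfl hcel m _ hfit z0 hz0 z1 hz1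
    have hmemN : ∀ (z : Vx 2) (ω : Finset (Ed (k + 3))), s (cen k a z) ω ∈ bx (cen k a z) N := by
      intro z ω
      have := hmem (cen k a z) ω
      unfold bx at this ⊢
      rw [Finset.mem_Icc] at this ⊢
      have hN' : ((K * a : ℕ) : ℤ) ≤ N := by exact_mod_cast hN
      constructor
      · intro l
        have := this.1 l
        linarith
      · intro l
        have := this.2 l
        linarith
    have h2 := hδ (Vx (k + 3)) (Ed (k + 3)) Prod.fst tgt (no (Vx (k + 3)))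
      (bx2 (0 : Fin (k + 3)) 1 A N) (es (bx2 (0 : Fin (k + 3)) 1 A N)) (by
        intro e he
        unfold es at he
        rw [Finset.mem_filter, Finset.mem_product] at he
        exact ⟨he.1.1, he.2⟩)
      (fun η => ind (∃ v ∈ bx (cen k a z0) N, ∃ v' ∈ bx (cen k a z1) N, Cf η v v')) (by
        intro x y hxy _
        refine ind_mono fun ⟨v, hv, v', hv', hc⟩ => ⟨v, hv, v', hv', ?_⟩
        unfold Cf Cn at hc ⊢
        exact Con_mono (fun _ _ h => h) (by exact_mod_cast hxy) hc)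
    refine h1.trans (le_trans ?_ h2)
    unfold fr fw Ex
    apply div_le_div_of_nonneg_right
    · refine Finset.sum_le_sum fun ω _ => mul_le_mul_of_nonneg_left ?_ ?_
      · unfold EB
        refine Finset.sum_le_sum fun ξ _ => mul_le_mul_of_nonneg_left ?_ ?_
        · exact ind_mono fun g1 => ⟨_, hmemN z0 ω, _, hmemN z1 ω, g1⟩
        · unfold bw
          exact mul_nonneg (pow_nonneg hδ0.le _) (pow_nonneg (by linarith) _)
      · unfold wt bw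
        exact mul_nonneg (mul_nonneg (pow_nonneg hp2.le _) (pow_nonneg (by linarith) _))
          (pow_nonneg (by linarith [h.hq]) _)
    · refine Finset.sum_nonneg fun ω _ => ?_
      unfold wt bw
      exact mul_nonneg (mul_nonneg (pow_nonneg hp2.le _) (pow_nonneg (by linarith) _))
        (pow_nonneg (by linarith [h.hq]) _)
  obtain ⟨A0, α, hα, hA⟩ := hB k q p h.hq (h.h0.trans h.h01) h.h1 a N ha1 key
  exact hL k q h.hq p (h.h0.trans h.h01) h.h1 N A0 α hα hA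

end Pool.Agent.FKS
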