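import Pool.Agent.FKP.PartA
import Pool.Agent.FKT.TargetsB
import Pool.Agent.FKS.Main

/-!
# Project FKS, part U: mixing, two-point function, uniqueness zone, connection of two boxes

(Part A2 of the interface `FKS/Main.lean`: T_MXQ, T_BTF, T_KFR.) Everything in finite volume.
Notation of FKT / FKP (`Ex`, `phi`, `fr`, `tp`, `Cf`, `ind` (the one of FKP), `lg`, `mrg`). Every
docstring contains the proof. All results of FKT and FKP are proved (`FKT/MainA`, `FKT/MainB`,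
`FKP/Assembly`).
-/

set_option autoImplicit false

namespace Pool.Agent.FKS

open Filter MeasureTheory Pool.Agent.FKP
open Pool.Agent.FKT hiding ind

/-- The box `a + Λ_s` is connected to the box `b + Λ_s` by the open edges of `ω` in the box
`y + Λ_R`. -/
def BB {d : ℕ} (a b : Vx d) (s : ℕ) (y : Vx d) (R : ℕ) (ω : Finset (Ed d)) : Prop :=
  ∃ x ∈ bx a s, ∃ z ∈ bx b s, Cf (ω ∩ eb y R) x z

/-- The box `a + Λ_s` is connected to the boundary of the box `y + Λ_R` by the open edges of `ω` in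
this box. -/
def BD {d : ℕ} (a : Vx d) (s : ℕ) (y : Vx d) (R : ℕ) (ω : Finset (Ed d)) : Prop :=
  ∃ x ∈ bx a s, ∃ z ∈ bd y R, Cf (ω ∩ eb y R) x z

/-- `x` and `y` are in distinct clusters of `ω ∩ Λ_n` which both touch the boundary of `Λ_n`. -/
def Dst {d : ℕ} (x y : Vx d) (n : ℕ) (ω : Finset (Ed d)) : Prop :=
  ¬ Cf (ω ∩ eb (0 : Vx d) n) x y ∧ (∃ z ∈ bd (0 : Vx d) n, Cf (ω ∩ eb (0 : Vx d) n) z x) ∧
    ∃ z ∈ bd (0 : Vx d) n, Cf (ω ∩ eb (0 : Vx d) n) z y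

/-! ## Symmetries -/

/-- `c` (on the vertices) and `g` (on the edges) are an automorphism of the lattice (the
orientation of the edges may change). -/
def Aut {d : ℕ} (c : Vx d ≃ Vx d) (g : Ed d ≃ Ed d) : Prop :=
  ∀ e : Ed d, ((g e).1 = c e.1 ∧ tgt (g e) = c (tgt e)) ∨ ((g e).1 = c (tgt e) ∧ tgt (g e) = c e.1)

/-- AUG. Invariance of the free measures under all automorphisms of the lattice. Proof: as
`FKP/P_AUT.lean`: `Con (ω.map g) (c x) (c y) ↔ Con ω x y` (steps go to steps or reversed steps;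
`Relation.EqvGen`), `es (S.map c) = (es S).map g`, so the cards and the numbers of clusters
(`FKT.p_NCM` with the map `c`) are preserved. -/
def T_AUG : Prop := ∀ (d : ℕ) (c : Vx d ≃ Vx d) (g : Ed d ≃ Ed d), Aut c g →
  (∀ (ω : Finset (Ed d)) (x y : Vx d), Cf (ω.map g.toEmbedding) (c x) (c y) ↔ Cf ω x y) ∧
  ∀ (S : Finset (Vx d)), es (S.map c.toEmbedding) = (es S).map g.toEmbedding ∧
  ∀ (p q : ℝ), (∀ f : Finset (Ed d) → ℝ, fr (S.map c.toEmbedding) p q f =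
      fr S p q fun ω => f (ω.map g.toEmbedding)) ∧
    ∀ x y : Vx d, tp (S.map c.toEmbedding) p q (c x) (c y) = tp S p q x y

/-- RFX. The reflections `x_i ↦ a - x_i`, the exchanges of two coordinates, and the translations.
Proof: reflection: `c x = Function.update x i (a - x i)`, an involution, and
`g (x, j) = (c x, j)` for `j ≠ i`, `g (x, i) = (c x - e_i, i)`, an involution. Exchange:
`c x = x ∘ Equiv.swap i j`, `g (x, k) = (c x, Equiv.swap i j k)`. Translation: `g = trE y`. -/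
def T_RFX : Prop := ∀ d : ℕ,
  (∀ (i : Fin d) (a : ℤ), ∃ (c : Vx d ≃ Vx d) (g : Ed d ≃ Ed d), Aut c g ∧
    (∀ e, g (g e) = e) ∧ ∀ x, c x = Function.update x i (a - x i)) ∧
  (∀ i j : Fin d, ∃ (c : Vx d ≃ Vx d) (g : Ed d ≃ Ed d), Aut c g ∧
    (∀ e, g (g e) = e) ∧ ∀ x, c x = x ∘ Equiv.swap i j) ∧
  ∀ y : Vx d, Aut (Equiv.addRight y) (trE y)

/-! ## Geometry -/

/-- EXT. The exit lemma. Proof: let `D` be the set of the points connected to `x` in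
`O ∩ eb y R`. If `D` does not meet `bd y R` then `D ⊆ bx y R \ bd y R` (`x ∈ bx y R`; a step of
`O ∩ eb y R` stays in `bx y R`), and `D` is closed under all steps of `O` (an edge with one end in
`bx y R \ bd y R` has both ends in `bx y R`, so it is in `eb y R`); so `z ∈ D`, contradiction in
both cases. (The same argument is in `FKT/P_ARM.lean`, `FKT/P_CRI.lean`.) -/
def T_EXTU : Prop := ∀ (d : ℕ) (y : Vx d) (R : ℕ) (O : Set (Ed d)) (x z : Vx d), x ∈ bx y R →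
  (z ∉ bx y R ∨ z ∈ bd y R) → Cn O x z →
    ∃ z' ∈ bd y R, Cn (O ∩ (eb y R : Set (Ed d))) x z'

/-! ## Mixing -/

/-- MXQ. Quantitative mixing. Proof: as `FKP/P_MIX.lean` (same computation). Let
`la = log (pa / (1 - pa)) < lb = log (pb / (1 - pb))`,
`K = 4^d * 2 * d * log q / (lb - la)`, `C = max (2 K) 4`. If `N < 4 m` then
`C (2m+1)^d / (N+1) ≥ 4 (2m+1) / (4m+1) ≥ 1` and the left side is `≤ 0`
(`phi (ind ..) ≤ 1`, `fr (ind ..) ≥ 0`; `d ≥ 1`). If `4 m ≤ N`: the proof of `FKP.p_MIX` gives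
`p ∈ [pa, pb]` with `Σ_{e ∈ eb 0 m} (phi 0 N p 1_e - fr (bx 0 N) p 1_e) ≤
(2m+1)^d 2^d 2 d (log q / (lb - la)) / (2 n + 1)`, `n = N / 2`, `2 n + 1 ≥ N`, so it is
`≤ C (2m+1)^d / (N+1)`. By `FKP.T_INC` (`F = eb 0 m`; its hypothesis by `FKP.T_HOL`)
`phi 0 N p (Q) - fr (bx 0 N) p (Q) ≤` this sum; `phi 0 N pa (Q) ≤ phi 0 N p (Q)` and
`fr (bx 0 N) p (Q) ≤ fr (bx 0 N) pb (Q)` by `FKP.T_HOL`. Hypotheses: `FKP.T_MVT`, `FKP.T_AVY`,
`FKP.T_INB`, `FKP.T_HOL`, `FKP.T_INC`, `FKT.T_CNT`. -/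
def N_MXQ : Prop := T_MXQ

/-- WLO. Lower bounds for the wired measures of boxes. Proof: let `F = eb 0 K`. The sequence
`phi 0 N p' q (ind (Q (ω ∩ F)))`, `N ≥ K`, is nonincreasing (`FKT.T_DOM`, applied to the increasing
function `ω ↦ ind (Q (ω ∩ F))`, `(ω ∩ eb 0 N) ∩ F = ω ∩ F` for `K ≤ N`) and converges to
`μ.real {ω | Q (rs F (cfg ω))}` (`FKT.T_CVL`; the two `ind` are the same function), so it is at
least this limit. Then `FKP.T_HOL` for `p' ≤ p`. Hypotheses: `FKT.T_DOM`, `FKT.T_CVL`,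
`FKP.T_HOL`. -/
def T_WLO : Prop := ∀ (d : ℕ), 0 < d → ∀ (p' p q : ℝ), 0 < p' → p' ≤ p → p < 1 → 1 ≤ q →
  ∀ μ : Measure (Ed d → Bool), IsWired d p' q μ → ∀ (K N : ℕ), K ≤ N →
  ∀ Q : Finset (Ed d) → Prop, Inc Q →
    μ.real {ω | Q (rs (eb (0 : Vx d) K) (cfg ω))} ≤
      phi (0 : Vx d) N p q fun ω => ind (Q (ω ∩ eb (0 : Vx d) K))

/-- WOA. One arm, wired boxes. Proof: `θ = μ.real (Inf0 d)` for the percolating measure at `p0`.
If the cluster of `0` is infinite it has a point outside `bx 0 R`, so `T_EXTU` gives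
`z ∈ bd 0 R` connected to `0` in `cfg ω ∩ eb 0 R`. So `Inf0 d ⊆ {ω | Q (rs (eb 0 R) (cfg ω))}`,
`Q ω = BD 0 0 0 R ω` (`bx 0 0 = {0}`), and T_WLO. Hypotheses: T_EXTU, T_WLO. -/
def T_WOA : Prop := ∀ (d : ℕ), 0 < d → ∀ (p0 q : ℝ), 0 < p0 → p0 < 1 → 1 ≤ q → Per d p0 q →
  ∃ θ : ℝ, 0 < θ ∧ ∀ p : ℝ, p0 ≤ p → p < 1 → ∀ R N : ℕ, R ≤ N →
    θ ≤ phi (0 : Vx d) N p q fun ω => ind (BD (0 : Vx d) 0 0 R ω)

/-- PCR. Percolation at `p0` implies `pcr d q ≤ p0`. Proof: `csSup_le` (the set in the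
definition of `pcr` is nonempty or the supremum is `0 ≤ p0`, `Real.sSup_empty`): let `x` be in
the set and suppose `p0 < x`, so `x < 1` or `x = 1`. For `x < 1` let `ν` be a wired measure at `x`
(`FKT.T_EXI`), so `ν {InfC 0} = 0`, while for every `K`
`μ.real {InfC 0} ≤ μ.real (Fv d K 0) ≤ ν.real (Fv d K 0)` (`FKT.T_THM` (3), (4)) and
`ν.real (Fv d K 0) → ν.real {InfC 0}` (decreasing events with intersection `{InfC 0}`, `FKT.T_CRI`
(1), (6)); contradiction with `0 < μ.real (Inf0 d)` (`InfC 0 ω ↔ (C0 ω).Infinite`). For `x = 1`: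
`FKP.T_ONE`-like: `FKP.g_PI1 d q` (file `FKP/P_PI1.lean`) gives the wired measure at `1`, and
`FKP.p_ONE` says that its cluster of `0` is almost surely infinite (`2 ≤ d`). Hypotheses:
`FKT.T_EXI`, `FKT.T_THM`, `FKT.T_CRI`, `FKP.T_ONE`, `FKP.T_PI1`. -/
def T_PCR : Prop := ∀ (d : ℕ), 2 ≤ d → ∀ (p0 q : ℝ), 0 < p0 → p0 < 1 → 1 ≤ q → Per d p0 q →
  pcr d q ≤ p0

/-- BTW. The box is connected to distance `K` with high probability, wired boxes. Proof: by T_PCR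
`pcr d q ≤ p0 < p'`; let `μ'` be the wired measure at `p'` (`FKT.T_EXI`) and `c`, `C` the
constants of `FKT.T_BOX` for `p'`. If some `x ∈ bx 0 s` has an infinite cluster then
`BD 0 s 0 K` holds (T_EXTU, `s ≤ K`); T_WLO. Use `s^(-c) = 1 / s^c` (`Real.rpow_neg`).
Hypotheses: T_PCR, `FKT.T_BOX`, `FKT.T_EXI`, T_EXTU, T_WLO. -/
def T_BTW : Prop := ∀ (d : ℕ) (p0 p' q : ℝ), Hyp d p0 p' q → ∃ c C : ℝ, 0 < c ∧ 0 < C ∧
  ∀ p : ℝ, p' ≤ p → p < 1 → ∀ s K N : ℕ, 1 ≤ s → s ≤ K → K ≤ N →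
      1 - C * (s : ℝ) ^ (-c) ≤ phi (0 : Vx d) N p q fun ω => ind (BD (0 : Vx d) s 0 K ω)

/-- BTF. The same for the free measures of large boxes. Proof: T_BTW at `p' = (p0 + p1) / 2`, then
T_MXQ for `pa = p'`, `pb = p1`, `m = K` (`BD 0 s 0 K` depends only on `ω ∩ eb 0 K`);
`(2 K + 1)^d ≤ 3^d K^d`, `N + 1 ≥ N`. Hypotheses: T_BTW, T_MXQ. -/
def N_BTF : Prop := T_BTF

/-! ## The two-point function -/

/-- FAC. A point of the face `x_i = R` with a polynomial two-point function. Proof: T_WOA at `p0`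
gives `θ`; T_MXQ (`pa = p0`, `pb = p1`, `m = R`): `fr (bx 0 N) (BD 0 0 0 R) ≥ θ / 2` if
`N + 1 ≥ (2 C / θ) (2 R + 1)^d`, true for `K` large (`(2R+1)^d ≤ 3^d R^d`). Union bound:
`BD 0 0 0 R ω` gives `z ∈ bd 0 R` with `Cf ω 0 z`, so some `z ∈ bd 0 R` has
`tp (bx 0 N) p1 q 0 z ≥ θ / (2 |bd 0 R|)`, `|bd 0 R| ≤ 2 d (2R+1)^(d-1)` (`FKT.T_CNT`). `z j = ± R`
for some `j`. The reflection `x_j ↦ - x_j` and the exchange of `i` and `j` (T_RFX) preserve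
`bx 0 N` and `0` (T_AUG): so we may take `z i = R`. Hypotheses: T_WOA, T_MXQ, T_AUG, T_RFX,
`FKT.T_CNT`. -/
def T_FAC : Prop := ∀ (d : ℕ) (p0 p1 q : ℝ), Hyp d p0 p1 q → ∃ (c : ℝ) (K : ℕ), 0 < c ∧
  ∀ R N : ℕ, 1 ≤ R → K * R ^ d ≤ N → ∀ i : Fin d, ∃ z : Vx d, z i = R ∧ (∀ j, |z j| ≤ R) ∧
    c / (R : ℝ) ^ (d - 1) ≤ tp (bx (0 : Vx d) N) p1 q 0 z

/-- STR. The two-point function in the direction of an axis. Proof: let `z` be as in T_FAC for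
`R`, `N' = N - 2 R ≥ K R^d` (choose the new constant `K + 2`). `c` = the reflection
`x_i ↦ 2 R - x_i` fixes `z` and sends `0` to `w = 2 R e_i` and `bx 0 N'` to `bx w N'`
(T_RFX, T_AUG): `tp (bx w N') w z = tp (bx 0 N') 0 z ≥ c / R^(d-1)`. Both boxes are contained in
`bx 0 N`, so by `FKP.T_DMC` (free measures increase with the domain) and `FKT.T_FKG`
`tp (bx 0 N) 0 w ≥ tp (bx 0 N') 0 z * tp (bx w N') w z` (connections inside the smaller box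
are connections). Hypotheses: T_FAC, T_RFX, T_AUG, `FKP.T_DMC`, `FKT.T_FKG`. -/
def T_STR : Prop := ∀ (d : ℕ) (p0 p1 q : ℝ), Hyp d p0 p1 q → ∃ (c : ℝ) (K : ℕ), 0 < c ∧
  ∀ R N : ℕ, 1 ≤ R → K * R ^ d ≤ N → ∀ i : Fin d,
    c / (R : ℝ) ^ (2 * (d - 1)) ≤ tp (bx (0 : Vx d) N) p1 q 0 (Pi.single i (2 * R : ℤ))

/-- CHN. Chaining of the two-point function in the free measures. Proof: (1) `FKT.T_FKG` and
transitivity (increasing events). (2) `FKP.T_DMC`. (3) symmetry of `Cf`. (4) translation by `a`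
(`FKP.T_AUT` or T_AUG). (5) `FKP.T_FEN` with `F = {(x, i)}`. (6) `Cf` is reflexive and
`Ex 1 = 1`. -/
def T_CHN : Prop := ∀ (d : ℕ) (p q : ℝ), 0 < p → p < 1 → 1 ≤ q →
  (∀ (S : Finset (Vx d)) (x y z : Vx d), tp S p q x y * tp S p q y z ≤ tp S p q x z) ∧
  (∀ (S S' : Finset (Vx d)) (x y : Vx d), S ⊆ S' → tp S p q x y ≤ tp S' p q x y) ∧
  (∀ (S : Finset (Vx d)) (x y : Vx d), tp S p q x y = tp S p q y x) ∧
  (∀ (x y a : Vx d) (N : ℕ), tp (bx a N) p q (x + a) (y + a) = tp (bx (0 : Vx d) N) p q x y) ∧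
  (∀ (S : Finset (Vx d)) (x : Vx d) (i : Fin d), x ∈ S → x + Pi.single i 1 ∈ S →
    p / (p + q * (1 - p)) ≤ tp S p q x (x + Pi.single i 1)) ∧
  (∀ (S : Finset (Vx d)) (x : Vx d), tp S p q x x = 1) ∧
  ∀ (S : Finset (Vx d)) (x y : Vx d), 0 ≤ tp S p q x y ∧ tp S p q x y ≤ 1

/-- TPP. Polynomial lower bound of the two-point function. Proof: let `c`, `K` be as in T_STR,
`c ≤ 1`, `π = p1 / (p1 + q (1 - p1)) ≤ 1`. Let `x, y ∈ bx 0 m`, `y j - x j = 2 R_j + ε_j`,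
`R_j ∈ ℤ`, `ε_j ∈ {0, 1}`, so `|R_j| ≤ m`. Go from `x` to `y` coordinate by coordinate: first
`2 R_j e_j`, then `ε_j e_j`; all intermediate points are in `bx 0 (2 m)`. By T_CHN and T_STR a
step `z → z + 2 R_j e_j` has probability at least `c / m^(2(d-1))` in `bx z (K m^d)`, hence in
`bx 0 N` for `N ≥ K m^d + 2 m` (if `R_j = 0` it is `1`; if `R_j < 0` use the symmetry of `tp` and
the translation by `2 R_j e_j`), a step `ε_j e_j` at least `π`. The product of `2 d` factors is at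
least `(c π)^d / m^(2 d (d - 1)) ≥ c' / m^(2 d^2)`. (Induction on the number of coordinates
already changed: for `k ≤ d` the point `z_k` with `z_k j = y j` for `j < k` and `x j` for `j ≥ k`
has `tp x z_k ≥ (c π / m^(2 (d - 1)))^k`.) Hypotheses: T_STR, T_CHN. -/
def T_TPP : Prop := ∀ (d : ℕ) (p0 p1 q : ℝ), Hyp d p0 p1 q → ∃ (c : ℝ) (D K : ℕ), 0 < c ∧
  ∀ m N : ℕ, 1 ≤ m → K * m ^ D ≤ N → ∀ x ∈ bx (0 : Vx d) m, ∀ y ∈ bx (0 : Vx d) m,
      c / (m : ℝ) ^ D ≤ tp (bx (0 : Vx d) N) p1 q x y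

/-! ## The uniqueness zone -/

/-- NCA. The number of clusters meeting `U` and one more wired pair; monotonicity. Proof: (1) the
clusters for `mrg R x y` are those for `R` with the clusters of `x` and `y` merged
(`Con (mrg R x y) O a b ↔ Con R O a b ∨ (a ~ x ∧ b ~ y) ∨ (a ~ y ∧ b ~ x)`, induction over
`Relation.EqvGen`); the image of `U` under `clus` loses one element exactly if these two clusters
are different and both are clusters of points of `U` (compare `FKT/P_ADD.lean`). If `x ~ y` then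
`Con` is the same. (2) the map `clus R O v ↦ clus R O' v` is well defined and onto (`Con_mono`). -/
def T_NCA : Prop := ∀ (V E : Type) (s t : E → V) (R : V → V → Prop) (U : Finset V),
  (∀ (O : Set E) (x y : V),
    (ncl s t (mrg R x y) U O : ℝ) + ind (¬ Con s t R O x y ∧ (∃ u ∈ U, Con s t R O u x) ∧
      ∃ u ∈ U, Con s t R O u y) = ncl s t R U O ∧
    (Con s t R O x y → ncl s t (mrg R x y) U O = ncl s t R U O)) ∧
  ∀ O O' : Set E, O ⊆ O' → ncl s t R U O' ≤ ncl s t R U O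

/-- COV. The covariance inequality. Let `N ω` be the number of clusters of `ω ∩ G1` which meet
`W`, `B ⊆ G1`, `H = {x ~ y in ω ∩ B}`, `Dd` the event that `x`, `y` are in distinct clusters of
`ω ∩ G1` which both meet `W`. Then `Σ_{e ∈ B} (E N E 1_e - E (N 1_e)) ≥ P(H) P(Dd)`, and
all the terms are `≥ 0`. Proof: write `N' ω = ncl (mrg (no V) x y) W (ω ∩ G1)`. By T_NCA
`N' = N - ind Dd`, `N' = N` on `H` (a connection in `ω ∩ B` is one in `ω ∩ G1`), and `N`,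
`N'` are decreasing in `ω`. (i) `g ω = Σ_{e ∈ B} ind (e ∈ ω) - ind (H ω)` is increasing: if
`a ⊆ b` and `a ∩ B ≠ b ∩ B` the sum increases by at least one; otherwise nothing changes (as in
`FKP/P_INC.lean`). FKG (`FKT.T_FKG`) for `- N` and `g`: `E (N g) ≤ E N E g`, i.e.
`Σ_{e ∈ B} (E N E 1_e - E (N 1_e)) ≥ E N E 1_H - E (N 1_H)`. (ii) `E (N 1_H) = E (N' 1_H) ≤
E N' E 1_H = (E N - P(Dd)) P(H)` by FKG for `- N'` and `1_H`. (iii) the last claim: FKG for `- N`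
and `1_e`. Hypotheses: `FKT.T_FKG`, T_NCA. -/
def T_COV : Prop := ∀ (V E : Type) [DecidableEq V] [DecidableEq E] (s t : E → V)
  (R : V → V → Prop) (U W : Finset V) (G G1 B : Finset E) (p q : ℝ), 0 < p → p < 1 → 1 ≤ q →
  (∀ e ∈ G, s e ∈ U ∧ t e ∈ U) → B ⊆ G1 → ∀ (x y : V),
  ∀ (N : Finset E → ℝ), (∀ ω, N ω = ncl s t (no V) W ((ω ∩ G1 : Finset E) : Set E)) →
    Ex s t R U G p q (fun ω => ind (Con s t (no V) ((ω ∩ B : Finset E) : Set E) x y)) *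
      Ex s t R U G p q (fun ω => ind (¬ Con s t (no V) ((ω ∩ G1 : Finset E) : Set E) x y ∧
        (∃ u ∈ W, Con s t (no V) ((ω ∩ G1 : Finset E) : Set E) u x) ∧
        ∃ u ∈ W, Con s t (no V) ((ω ∩ G1 : Finset E) : Set E) u y)) ≤
      ∑ e ∈ B, (Ex s t R U G p q N * Ex s t R U G p q (fun ω => ind (e ∈ ω)) -
        Ex s t R U G p q fun ω => N ω * ind (e ∈ ω)) ∧
    ∀ e : E, 0 ≤ Ex s t R U G p q N * Ex s t R U G p q (fun ω => ind (e ∈ ω)) -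
        Ex s t R U G p q fun ω => N ω * ind (e ∈ ω)

/-- MVN. The mean value theorem for the expectation of a bounded function. Proof: by `FKP.T_DER`
`F l = Ex (lg l) N` has the derivative `Ex (N |ω|) - Ex N Ex |ω| =
Σ_{e ∈ G} (Ex (N 1_e) - Ex N Ex 1_e)` (`|ω| = Σ_{e ∈ G} 1_{e ∈ ω}` for `ω ⊆ G`);
`exists_hasDerivAt_eq_slope`: for some `l ∈ (la, lb)` minus the derivative is
`(F la - F lb) / (lb - la) ≤ M / (lb - la)`. Hypothesis: `FKP.T_DER`. -/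
def T_MVN : Prop := ∀ (V E : Type) [DecidableEq E] (s t : E → V) (R : V → V → Prop)
  (U : Finset V) (G : Finset E) (q la lb M : ℝ), 0 < q → la < lb → ∀ N : Finset E → ℝ,
  (∀ ω, ω ⊆ G → 0 ≤ N ω ∧ N ω ≤ M) → ∃ l : ℝ, la ≤ l ∧ l ≤ lb ∧
    ∑ e ∈ G, (Ex s t R U G (lg l) q N * Ex s t R U G (lg l) q (fun ω => ind (e ∈ ω)) -
      Ex s t R U G (lg l) q fun ω => N ω * ind (e ∈ ω)) ≤ M / (lb - la)

/-- GRD. A grid of disjoint boxes. Proof: `W` = the set of the points `(2 b + 1) z`,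
`z ∈ bx 0 k`, `k = (n - b) / (2 b + 1)`; `|W| = (2 k + 1)^d` and, as `4 b ≤ n`,
`2 k + 1 ≥ (2 (n - b) - 2 (2 b + 1)) / (2 b + 1) + 1 + 2/(2b+1)`; more simply
`(2 b + 1) (k + 1) ≥ n - b + 1`, so `(2 b + 1) (2 k + 1) ≥ 2 (n - b + 1) - (2 b + 1) ≥ n`. If
`v ≠ v'` are in `W` they differ by at least `2 b + 1` in some coordinate, so `bx v b`, `bx v' b`
and hence `eb v b`, `eb v' b` are disjoint. -/
def T_GRD : Prop := ∀ (d b n : ℕ), 4 * b ≤ n → ∃ W : Finset (Vx d),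
  (∀ v ∈ W, bx v b ⊆ bx (0 : Vx d) n) ∧
  (∀ v ∈ W, ∀ v' ∈ W, v ≠ v' → Disjoint (eb v b) (eb v' b)) ∧
  (n : ℝ) ^ d ≤ (2 * b + 1) ^ d * (W.card : ℝ)

/-- UZF. The uniqueness zone for some parameter and some location, in a wired box. Proof: let
`la = log (pa / (1 - pa)) < lb = log (pb / (1 - pb))`, `C = max (2 d 3^d / (lb - la)) 2`. If
`n < 4 b` take `p = pa`, `v = 0`: the left side is at most `|bx 0 m|^2 = (2 m + 1)^(2d)`, `h ≤ 1`
(`tp ≤ 1`) and `(2 b + 1)^d / n ≥ (2 b + 1) / (4 b) ≥ 1 / 2`, so the bound is trivial. Let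
`4 b ≤ n`. T_MVN for the measure `phi 0 N` and the function
`Nc ω = ncl fst tgt no (bd 0 n) (ω ∩ eb 0 n) ≤ |bd 0 n| ≤ 2 d (2 n + 1)^(d-1)` (`FKT.T_CNT`)
gives `l`, `p = lg l ∈ [pa, pb]`. Let `W` be as in T_GRD. For fixed `x, y ∈ bx 0 m` and `v ∈ W`
T_COV with `G1 = eb 0 n`, `B = eb v b ⊆ eb 0 n`, points `v + x`, `v + y`, gives
`Σ_{e ∈ eb v b} (..) ≥ P(H_v) P(Dst (v + x) (v + y) n)`, and `P(H_v) ≥ h`: the wired measure
`phi 0 N` dominates the free measure of `bx v b` (`FKP.T_DMC`), `FKP.T_HOL` for `pa ≤ p`, and the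
translation (`FKP.T_AUT`) of the hypothesis. The sets `eb v b`, `v ∈ W`, are disjoint subsets of
`eb 0 N` and all terms are `≥ 0`, so
`h Σ_{v ∈ W} P(Dst (v + x) (v + y) n) ≤ 2 d (2 n + 1)^(d-1) / (lb - la)`. Sum over the
`(2 m + 1)^(2 d)` pairs `x, y` and take the best `v ∈ W`: the left side is at most
`(2 m + 1)^(2 d) 2 d (2 n + 1)^(d-1) / ((lb - la) h |W|)`, and
`1 / |W| ≤ (2 b + 1)^d / n^d`, `(2 n + 1)^(d-1) ≤ 3^d n^(d-1)`. Hypotheses: T_MVN, T_COV, T_GRD,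
`FKP.T_DMC`, `FKP.T_HOL`, `FKP.T_AUT`, `FKT.T_CNT`. -/
def T_UZF : Prop := ∀ (d : ℕ), 0 < d → ∀ (pa pb q : ℝ), 0 < pa → pa < pb → pb < 1 → 1 ≤ q →
  ∃ C : ℝ, 0 < C ∧ ∀ (m b n N : ℕ) (h : ℝ), 1 ≤ m → m ≤ b → b ≤ n → n ≤ N → 0 < h →
    (∀ x ∈ bx (0 : Vx d) m, ∀ y ∈ bx (0 : Vx d) m, h ≤ tp (bx (0 : Vx d) b) pa q x y) →
    ∃ p : ℝ, pa ≤ p ∧ p ≤ pb ∧ ∃ v : Vx d, bx v b ⊆ bx (0 : Vx d) n ∧
      ∑ x ∈ bx (0 : Vx d) m, ∑ y ∈ bx (0 : Vx d) m,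
        phi (0 : Vx d) N p q (fun ω => ind (Dst (v + x) (v + y) n ω)) ≤
        C * ((2 * m + 1) ^ (2 * d) * (2 * b + 1) ^ d / (h * n))

/-- SHF. Moving the centre of a wired box. Proof: `bx 0 M ⊆ bx v (M + n)`, so by `FKT.T_DOM`
`phi v (M + n) p q (fun ω => f (ω ∩ eb 0 M)) ≤ phi 0 M p q f` and by `FKT.T_TRA`
`phi v (M + n) = phi (0 + v) (M + n)` is `phi 0 (M + n)` of the translated function. In the same
way `phi v M ≥ phi 0 (M + n)` as `bx v M ⊆ bx 0 (M + n)`. -/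
def T_SHF : Prop := ∀ (d : ℕ), 0 < d → ∀ (p q : ℝ), 0 < p → p < 1 → 1 ≤ q →
  ∀ (v : Vx d) (M n : ℕ), v ∈ bx (0 : Vx d) n → ∀ f : Finset (Ed d) → ℝ,
  (∀ a b : Finset (Ed d), a ⊆ b → f a ≤ f b) →
    phi (0 : Vx d) (M + n) p q (fun ω => f ((ω.map (trE v).toEmbedding) ∩ eb (0 : Vx d) M)) ≤
      phi (0 : Vx d) M p q f ∧
    phi (0 : Vx d) (M + n) p q (fun ω => f (ω ∩ eb v M)) ≤
      phi (0 : Vx d) M p q fun ω => f (ω.map (trE v).toEmbedding)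

/-- KWF. Two boxes are connected, wired box, some parameter and some location. Proof: `m = 2 r`.
Let `v`, `p` be as in T_UZF (with `n`, `M`). If `BB v (v + w) s 0 n ω` fails then either
`BD v s 0 n ω` fails, or `BD (v + w) s 0 n ω` fails, or there are `x ∈ bx v s`,
`y ∈ bx (v + w) s` with `Dst x y n ω`; here `x - v, y - v ∈ bx 0 (2 r)` as `s ≤ r`, `w ∈ bx 0 r`.
The third probability is at most the sum in T_UZF. `P (BD u s 0 n) ≥ 1 - C s^(-c)` for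
`u ∈ bx 0 n` with `bx u s ⊆ bx 0 n`: by T_SHF (first claim, `v := u`, `n := n`)
`phi 0 M (BD u s 0 n) ≥ phi 0 (M + n) (ω ↦ BD u s 0 n (ω + u ∩ eb 0 M))`, and
`BD 0 s 0 (2 n) ω` implies `BD u s 0 n (ω + u)`: a point `u + x`, `x ∈ bx 0 s`, is connected in
`(ω + u) ∩ eb u (2n)` to a point `z ∈ bd u (2 n)`, which is not in the interior of `bx 0 n`, so
T_EXTU (box `bx 0 n`) applies; `eb 0 n ⊆ eb 0 M`. Then T_BTW (`p' = pa`, `K = 2 n ≤ M + n`).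
Hypotheses: T_UZF, T_SHF, T_EXTU, T_BTW. -/
def T_KWF : Prop := ∀ (d : ℕ) (p0 pa pb q : ℝ), Hyp d p0 pa q → pa < pb → pb < 1 →
  ∃ c C : ℝ, 0 < c ∧ 0 < C ∧ ∀ (s r b n M : ℕ) (h : ℝ), 1 ≤ s → s ≤ r → 2 * r ≤ b → b ≤ n → n ≤ M → 0 < h →
    (∀ x ∈ bx (0 : Vx d) (2 * r), ∀ y ∈ bx (0 : Vx d) (2 * r),
      h ≤ tp (bx (0 : Vx d) b) pa q x y) →
    ∀ w ∈ bx (0 : Vx d) r, ∃ p : ℝ, pa ≤ p ∧ p ≤ pb ∧ ∃ v ∈ bx (0 : Vx d) n,
      1 - C * ((s : ℝ) ^ (-c) + (4 * r + 1) ^ (2 * d) * (2 * b + 1) ^ d / (h * n)) ≤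
        phi (0 : Vx d) M p q fun ω => ind (BB v (v + w) s 0 n ω)

/-- KFR (K4). Two boxes of radius `s` at distance `r` are connected in the box of radius `R`, free
measure of the box of radius `N`. Proof: `pa = (2 p0 + p1) / 3`, `pb = (p0 + 2 p1) / 3`. T_TPP
(`p1 := pa`): `c0, D0, K0` with `K0 ≥ 1`; for given `r` put `b = K0 (2 r)^D0 + 2 r`,
`h = c0 / (2 r)^D0`, `n = R / 2`. If `R < 2 b + 2` or `N < ..` the claim is trivial when `C` and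
`D` are large: `r^D / R ≥ 1 / C` as soon as `2 b + 2 ≤ C r^D`. Otherwise `b ≤ n` and T_KWF with
`M = N + n` gives `p ∈ [pa, pb]`, `v ∈ bx 0 n` with `phi 0 (N + n) p (BB v (v + w) s 0 n) ≥
1 - ε`. `BB v (v + w) s 0 n ω` implies `BB v (v + w) s v (2 n) (ω ∩ eb v N)` (`eb 0 n ⊆ eb v (2n) ⊆
eb v N` as `2 n ≤ R ≤ N`), so T_SHF (second claim, `M = N`) gives
`phi 0 N p (BB 0 w s 0 (2 n)) ≥ 1 - ε`, hence `phi 0 N pb (BB 0 w s 0 R) ≥ 1 - ε` (`FKP.T_HOL`,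
`2 n ≤ R`), and T_MXQ (`pa := pb`, `pb := p1`, `m = R`) loses `C (2 R + 1)^d / (N + 1)`. All the
terms are at most `C (s^(-c) + r^D / R + R^D / N)` for `D ≥ d`, `D` large, `C` large. Hypotheses:
T_TPP, T_KWF, T_SHF, T_MXQ, `FKP.T_HOL`. -/
def N_KFR : Prop := T_KFR

end Pool.Agent.FKS
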